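import Pool.Agent.H72.CC.Defs

/-! Potential estimates for axially symmetric flows: definitions. -/

set_option autoImplicit false

open Set Filter Topology MeasureTheory
open scoped ContDiff ENNReal

namespace Pool.Agent.H72.CC

open Pool.Agent.H16 Pool.Agent.H87.NS

/-- The distance of the circles through `x` and `y` around the axis. -/
noncomputable def rD (x y : E3) : ℝ := √((rad x - rad y) ^ 2 + (x 2 - y 2) ^ 2)

end Pool.Agent.H72.CC
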