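/-
ROW Cyl (MP_09540e_CC). Cylindrical coordinates. PROOF. `E3 = EuclideanSpace ℝ (Fin 3)` is measure-preservingly equivalent to `Fin 3 → ℝ` (EuclideanSpace.volume_preserving_symm_measurableEquiv_toLp or volume_preserving_measurableEquiv), and to `ℝ × (Fin 2 → ℝ)`
splitting off the last coordinate (MeasureTheory.volume_preserving_piFinSuccAbove (fun _ => ℝ) 2), and `Fin 2 → ℝ` to `ℝ × ℝ` (volume_preserving_finTwoArrow). So `∫⁻ x, f (rad x, x 2) = ∫⁻ z, ∫⁻ p : ℝ × ℝ, f (√(p.1²+p.2²), z)` (Tonelli), and polar coordinates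
(lintegral_comp_polarCoord_symm): `∫⁻ p, F p = ∫⁻ q in polarCoord.target, ofReal q.1 * F (polarCoord.symm q)`, `polarCoord.target = Ioi 0 ×ˢ Ioo (-π) π`, `√((r cos)² + (r sin)²) = r`; the angle integral gives the factor `2 π`; Tonelli again.
-/
import Pool.Agent.H72.CC.PDefs

set_option autoImplicit false

open Set Filter Topology MeasureTheory
open scoped ContDiff

namespace Pool.Agent.H72.CC

open Pool.Agent.H16 Pool.Agent.H87.NS

/-- The coordinates `(x 2, (x 0, x 1))`. -/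
theorem Cyl_mp : MeasurePreserving (fun x : E3 => (x 2, ((x 0, x 1) : ℝ × ℝ))) := by
  have m1 : MeasurePreserving (@WithLp.ofLp 2 (Fin 3 → ℝ)) := PiLp.volume_preserving_ofLp (Fin 3)
  have m2 := volume_preserving_piFinSuccAbove (fun _ : Fin 3 => ℝ) 2
  have m4 := (MeasurePreserving.id (volume : Measure ℝ)).prod (volume_preserving_finTwoArrow ℝ)
  exact m4.comp (m2.comp m1)

theorem Cyl_polar {F : ℝ → ENNReal} (hF : Measurable F) :
    ∫⁻ p : ℝ × ℝ, F (√(p.1 ^ 2 + p.2 ^ 2)) =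
      ENNReal.ofReal (2 * Real.pi) * ∫⁻ r in Ioi (0 : ℝ), ENNReal.ofReal r * F r := by
  rw [← lintegral_comp_polarCoord_symm (fun p : ℝ × ℝ => F (√(p.1 ^ 2 + p.2 ^ 2)))]
  have h1 : ∫⁻ p in polarCoord.target, ENNReal.ofReal p.1 •
        (fun p : ℝ × ℝ => F (√(p.1 ^ 2 + p.2 ^ 2))) (polarCoord.symm p) =
      ∫⁻ p in polarCoord.target, ENNReal.ofReal p.1 * F p.1 := by
    refine setLIntegral_congr_fun polarCoord.open_target.measurableSet ?_
    intro p hp
    rw [polarCoord_target, mem_prod] at hp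
    have hp0 : 0 < p.1 := hp.1
    show ENNReal.ofReal p.1 • F (√((p.1 * Real.cos p.2) ^ 2 + (p.1 * Real.sin p.2) ^ 2)) =
      ENNReal.ofReal p.1 * F p.1
    have h2 : (p.1 * Real.cos p.2) ^ 2 + (p.1 * Real.sin p.2) ^ 2 = p.1 ^ 2 := by
      have := Real.sin_sq_add_cos_sq p.2
      nlinarith
    rw [h2, Real.sqrt_sq hp0.le, smul_eq_mul]
  rw [h1, polarCoord_target, Measure.volume_eq_prod, ← Measure.prod_restrict]
  have hm : Measurable (fun r : ℝ => ENNReal.ofReal r * F r) :=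
    (ENNReal.measurable_ofReal).mul hF
  have hm2 : Measurable (fun q : ℝ × ℝ => ENNReal.ofReal q.1 * F q.1) := hm.comp measurable_fst
  rw [lintegral_prod _ hm2.aemeasurable]
  have h3 : ∀ r : ℝ, ∫⁻ _ : ℝ, ENNReal.ofReal r * F r ∂(volume.restrict (Ioo (-Real.pi) Real.pi)) =
      ENNReal.ofReal (2 * Real.pi) * (ENNReal.ofReal r * F r) := by
    intro r
    rw [lintegral_const, Measure.restrict_apply_univ, Real.volume_Ioo, mul_comm]
    congr 2
    ring
  simp only [h3]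
  rw [lintegral_const_mul _ hm]

theorem cyl {f : ℝ × ℝ → ENNReal} (hf : Measurable f) :
    ∫⁻ x : E3, f (rad x, x 2) = ENNReal.ofReal (2 * Real.pi) * ∫⁻ r in Ioi (0 : ℝ), ∫⁻ z : ℝ, ENNReal.ofReal r * f (r, z) := by
  have hg : Measurable (fun q : ℝ × (ℝ × ℝ) => f (√(q.2.1 ^ 2 + q.2.2 ^ 2), q.1)) := by
    refine hf.comp ?_
    refine Measurable.prodMk ?_ measurable_fst
    exact (Continuous.measurable (by fun_prop))
  have h1 : ∫⁻ x : E3, f (rad x, x 2) =
      ∫⁻ q : ℝ × (ℝ × ℝ), f (√(q.2.1 ^ 2 + q.2.2 ^ 2), q.1) :=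
    Cyl_mp.lintegral_comp hg
  have hfz : ∀ z : ℝ, Measurable (fun r : ℝ => f (r, z)) := fun z =>
    hf.comp (measurable_id.prodMk measurable_const)
  rw [h1, Measure.volume_eq_prod, lintegral_prod _ hg.aemeasurable]
  have h2 : ∀ z : ℝ, ∫⁻ p : ℝ × ℝ, f (√(p.1 ^ 2 + p.2 ^ 2), z) =
      ENNReal.ofReal (2 * Real.pi) * ∫⁻ r in Ioi (0 : ℝ), ENNReal.ofReal r * f (r, z) := fun z =>
    Cyl_polar (hfz z)
  simp only [h2]
  have hm : Measurable (fun q : ℝ × ℝ => ENNReal.ofReal q.2 * f (q.2, q.1)) :=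
    (ENNReal.measurable_ofReal.comp measurable_snd).mul (hf.comp measurable_swap)
  have hm1 : Measurable (fun z : ℝ => ∫⁻ r in Ioi (0 : ℝ), ENNReal.ofReal r * f (r, z)) :=
    hm.lintegral_prod_right'
  rw [lintegral_const_mul _ hm1]
  congr 1
  exact lintegral_lintegral_swap hm.aemeasurable

end Pool.Agent.H72.CC
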