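import Pool.Agent.H87.NC.Defs
import Pool.Agent.H87.NS.Sob
import Pool.Agent.H87.NS.IBP

/-! Circulation carried by a divergence free field with a stream function: definitions. -/

set_option autoImplicit false

open Set Filter Topology MeasureTheory
open scoped ContDiff

namespace Pool.Agent.H72.CC

open Pool.Agent.H16 Pool.Agent.H87.NS

/-- Derivative of `f` along the divergence free field `(- x₀ ∂_z P, - x₁ ∂_z P, 2 P + r ∂_r P)`. -/
noncomputable def sadv (P f : E3 → ℝ) (x : E3) : ℝ := (2 * P x + rdr P x) * pd 2 f x - pd 2 P x * rdr f x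

/-- `∂_z f · r ∂_r g - r ∂_r f · ∂_z g`. -/
noncomputable def crs (f g : E3 → ℝ) (x : E3) : ℝ := pd 2 f x * rdr g x - rdr f x * pd 2 g x

/-- The right-hand side of the energy identity for `∫ F(G) η`. -/
noncomputable def En (F : ℝ → ℝ) (G P η : E3 → ℝ) : ℝ :=
  ∫ x, (- deriv (deriv F) (G x) * gsq G x * η x + F (G x) * (lap η x + 2 / rsq x * rdr η x)
    + P x * deriv F (G x) * crs G η x)

/-- `Γ = r² K` is a circulation carried by the field with stream function `P`, on the time interval `[-1, 0]`. -/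
structure Crc (Γ K P : ℝ → E3 → ℝ) : Prop where
  smG : ∀ t ∈ Icc (-1 : ℝ) 0, ∀ x : E3, ContDiffAt ℝ ∞ (fun q : ℝ × E3 => Γ q.1 q.2) (t, x)
  smK : ∀ t ∈ Icc (-1 : ℝ) 0, ContDiff ℝ ∞ (K t)
  smP : ∀ t ∈ Icc (-1 : ℝ) 0, ContDiff ℝ ∞ (P t)
  conP : ContinuousOn (fun q : ℝ × E3 => P q.1 q.2) (Icc (-1) 0 ×ˢ univ)
  fac : ∀ t ∈ Icc (-1 : ℝ) 0, ∀ x, Γ t x = rsq x * K t x
  eq : ∀ t ∈ Ioo (-1 : ℝ) 0, ∀ x, deriv (fun s => Γ s x) t + sadv (P t) (Γ t) x
      = lap (Γ t) x - 4 * K t x - 2 * rdr (K t) x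

/-- `∫ (r P)⁴` over the unit ball. -/
noncomputable def A4 (P : E3 → ℝ) : ℝ := ∫ x in Metric.ball (0 : E3) 1, rsq x ^ 2 * P x ^ 4

/-- Smooth cut-off: `1` for `‖x‖ ≤ a`, `0` for `‖x‖ ≥ b` (`0 < a < b`). -/
noncomputable def zc (a b : ℝ) (x : E3) : ℝ := Real.smoothTransition ((b ^ 2 - ‖x‖ ^ 2) / (b ^ 2 - a ^ 2))

/-- The fixed cut-off of the logarithmic estimate. -/
noncomputable def et (x : E3) : ℝ := zc (1/2) (3/4) x

/-- The stream function of an axially symmetric field, divided by the distance to the axis. -/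
noncomputable def sP (v : E3 → E3) (x : E3) : ℝ := avk 1 (fun y => v y 2) x

/-- `log (2 + |log s|)`. -/
noncomputable def ll (s : ℝ) : ℝ := Real.log (2 + |Real.log s|)

end Pool.Agent.H72.CC
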