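/-
ROW Cut (MP_09540e_CC). The cut-off functions zc. PROOF. zc_smooth: Real.smoothTransition.contDiff composed with a polynomial of `‖x‖² = x₀² + x₁² + x₂²` (contDiff_norm_sq). The values: Real.smoothTransition.nonneg, le_one,
one_of_one_le, zero_of_nonpos (`b² - a² > 0`). zc_anti: Real.smoothTransition is monotone (a proof of this is in H87/NS/EVe.lean, EVe_th_mono, or H11..; search monotone).
zc_pow: write `s = (b² - ‖x‖²)/(b² - a²)`, `θ = smoothTransition`, `|θ'|, |θ''| ≤ C₀` on ℝ (compactness: θ is constant off `[0,1]`; model: EVe_dthb in H87/NS/EVe.lean; KL1_const in H87/NC/KL1.lean).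
`pd i zc x = θ'(s) · (-2 x_i)/(b² - a²)`; `b² - a² = (b-a)(b+a) ≥ (b-a)/8`, `‖x‖ ≤ b ≤ 1` where `θ' ≠ 0` (or `θ'(s) = 0` for `s ≤ 0`; for `‖x‖ ≥ b` the derivative is 0). So `gsq zc ≤ C/(b-a)²`,
`|lap zc| ≤ C/(b-a)²` (`lap zc = θ''(s) 4‖x‖²/(b²-a²)² - 6 θ'(s)/(b²-a²)`), `rdr zc x = θ'(s) (-2 rsq x)/(b²-a²) ≤ 0`. Powers: `pd i (zc^n) = n zc^(n-1) pd i zc`,
`lap (zc^n) = n zc^(n-1) lap zc + n (n-1) zc^(n-2) gsq zc`, `0 ≤ zc ≤ 1` (so `zc^(n-1) ≤ zc^(n-2)`).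
-/
import Pool.Agent.H72.CC.Defs

set_option autoImplicit false

open Set Filter Topology MeasureTheory
open scoped ContDiff

namespace Pool.Agent.H72.CC

open Pool.Agent.H16 Pool.Agent.H87.NS

/-- bounds for the transition function -/
theorem Cut_bd : ∃ C : ℝ, 1 ≤ C ∧ (∀ y, |deriv Real.smoothTransition y| ≤ C) ∧
    (∀ y, |deriv (deriv Real.smoothTransition) y| ≤ C) ∧
    (∀ y, y ≤ 0 → deriv Real.smoothTransition y = 0 ∧ deriv (deriv Real.smoothTransition) y = 0) := by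
  have hs : ContDiff ℝ ∞ Real.smoothTransition := Real.smoothTransition.contDiff
  have hs1 : ContDiff ℝ ∞ (deriv Real.smoothTransition) := (contDiff_infty_iff_deriv.1 hs).2
  have hs2 : ContDiff ℝ ∞ (deriv (deriv Real.smoothTransition)) := (contDiff_infty_iff_deriv.1 hs1).2
  have h1 : ∀ y : ℝ, 1 < y → deriv Real.smoothTransition y = 0 ∧ deriv (deriv Real.smoothTransition) y = 0 := by
    intro y hy
    have e1 : Real.smoothTransition =ᶠ[𝓝 y] fun _ => 1 := by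
      filter_upwards [lt_mem_nhds hy] with z hz
      exact Real.smoothTransition.one_of_one_le hz.le
    have e2 := e1.deriv
    have e3 : deriv Real.smoothTransition =ᶠ[𝓝 y] fun _ => 0 := by
      filter_upwards [e2] with z hz
      rw [hz]
      simp
    refine ⟨e3.eq_of_nhds, ?_⟩
    rw [e3.deriv_eq]
    simp
  have h0 : ∀ y : ℝ, y < 0 → deriv Real.smoothTransition y = 0 ∧ deriv (deriv Real.smoothTransition) y = 0 := by
    intro y hy
    have e1 : Real.smoothTransition =ᶠ[𝓝 y] fun _ => 0 := by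
      filter_upwards [gt_mem_nhds hy] with z hz
      exact Real.smoothTransition.zero_of_nonpos (le_of_lt hz)
    have e2 := e1.deriv
    have e3 : deriv Real.smoothTransition =ᶠ[𝓝 y] fun _ => 0 := by
      filter_upwards [e2] with z hz
      rw [hz]
      simp
    refine ⟨e3.eq_of_nhds, ?_⟩
    rw [e3.deriv_eq]
    simp
  have h00 : ∀ y : ℝ, y ≤ 0 → deriv Real.smoothTransition y = 0 ∧ deriv (deriv Real.smoothTransition) y = 0 := by
    intro y hy
    have c1 : IsClosed {s | deriv Real.smoothTransition s = 0} := isClosed_eq hs1.continuous continuous_const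
    have c2 : IsClosed {s | deriv (deriv Real.smoothTransition) s = 0} := isClosed_eq hs2.continuous continuous_const
    have d1 := c1.closure_subset_iff.2 (fun (s : ℝ) (hs : s ∈ Iio (0:ℝ)) => (h0 s hs).1)
    have d2 := c2.closure_subset_iff.2 (fun (s : ℝ) (hs : s ∈ Iio (0:ℝ)) => (h0 s hs).2)
    rw [closure_Iio] at d1 d2
    exact ⟨d1 hy, d2 hy⟩
  obtain ⟨A, hA⟩ := isCompact_Icc.exists_bound_of_continuousOn (s := Icc (0:ℝ) 1) hs1.continuous.continuousOn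
  obtain ⟨B, hB⟩ := isCompact_Icc.exists_bound_of_continuousOn (s := Icc (0:ℝ) 1) hs2.continuous.continuousOn
  have hC0 : (0:ℝ) ≤ max 1 (max A B) := zero_le_one.trans (le_max_left _ _)
  refine ⟨max 1 (max A B), le_max_left _ _, fun y => ?_, fun y => ?_, h00⟩
  · rcases lt_or_ge y 0 with hy | hy
    · rw [(h0 y hy).1, abs_zero]
      exact hC0
    · rcases lt_or_ge 1 y with hy' | hy'
      · rw [(h1 y hy').1, abs_zero]
        exact hC0
      · exact (hA y ⟨hy, hy'⟩).trans ((le_max_left _ _).trans (le_max_right _ _))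
  · rcases lt_or_ge y 0 with hy | hy
    · rw [(h0 y hy).2, abs_zero]
      exact hC0
    · rcases lt_or_ge 1 y with hy' | hy'
      · rw [(h1 y hy').2, abs_zero]
        exact hC0
      · exact (hB y ⟨hy, hy'⟩).trans ((le_max_right _ _).trans (le_max_right _ _))

/-- chain rule for functions of `‖x‖²` -/
theorem Cut_pd {h : ℝ → ℝ} (hh : ContDiff ℝ ∞ h) (i : Fin 3) (x : E3) :
    pd i (fun y => h (‖y‖ ^ 2)) x = deriv h (‖x‖ ^ 2) * (2 * x i) := by
  have h1 : HasFDerivAt (fun y : E3 => ‖y‖ ^ 2) (2 • (innerSL ℝ x)) x := (hasStrictFDerivAt_norm_sq x).hasFDerivAt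
  have h2 : HasFDerivAt (h ∘ fun y : E3 => ‖y‖ ^ 2) (deriv h (‖x‖ ^ 2) • (2 • (innerSL ℝ x))) x :=
    HasDerivAt.comp_hasFDerivAt x (hh.differentiable (by simp) _).hasDerivAt h1
  unfold pd
  have h3 : fderiv ℝ (fun y => h (‖y‖ ^ 2)) x = deriv h (‖x‖ ^ 2) • (2 • (innerSL ℝ x)) := h2.fderiv
  rw [h3]
  simp [e, EuclideanSpace.inner_single_right]

theorem Cut_coord (k : Fin 3) : ContDiff ℝ ∞ (fun y : E3 => y k) :=
  (EuclideanSpace.proj (𝕜 := ℝ) k : E3 →L[ℝ] ℝ).contDiff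

theorem Cut_pd_lin (i : Fin 3) (x : E3) : pd i (fun y : E3 => 2 * y i) x = 2 := by
  unfold pd
  have h : HasFDerivAt (fun y : E3 => 2 * y i) ((2:ℝ) • (EuclideanSpace.proj (𝕜 := ℝ) i : E3 →L[ℝ] ℝ)) x :=
    ((EuclideanSpace.proj (𝕜 := ℝ) i : E3 →L[ℝ] ℝ).hasFDerivAt).const_mul 2
  rw [h.fderiv]
  simp [e]

theorem Cut_pdd {h : ℝ → ℝ} (hh : ContDiff ℝ ∞ h) (i : Fin 3) (x : E3) :
    pd i (pd i (fun y => h (‖y‖ ^ 2))) x = deriv (deriv h) (‖x‖ ^ 2) * (4 * x i ^ 2) + 2 * deriv h (‖x‖ ^ 2) := by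
  have hh1 : ContDiff ℝ ∞ (deriv h) := (contDiff_infty_iff_deriv.1 hh).2
  have h0 : pd i (fun y => h (‖y‖ ^ 2)) = fun y => deriv h (‖y‖ ^ 2) * (2 * y i) := funext fun y => Cut_pd hh i y
  rw [h0]
  have ha : DifferentiableAt ℝ (fun y : E3 => deriv h (‖y‖ ^ 2)) x :=
    ((hh1.comp (contDiff_norm_sq ℝ)).differentiable (by simp)) x
  have hb : DifferentiableAt ℝ (fun y : E3 => 2 * y i) x :=
    ((contDiff_const.mul (Cut_coord i)).differentiable (by simp : (∞ : WithTop ℕ∞) ≠ 0)) x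
  have h1 : pd i (fun y => deriv h (‖y‖ ^ 2) * (2 * y i)) x =
      pd i (fun y => deriv h (‖y‖ ^ 2)) x * (2 * x i) + deriv h (‖x‖ ^ 2) * pd i (fun y : E3 => 2 * y i) x := by
    unfold pd
    rw [fderiv_fun_mul ha hb]
    simp only [_root_.add_apply, _root_.smul_apply, smul_eq_mul]
    ring
  rw [h1, Cut_pd hh1, Cut_pd_lin]
  ring

theorem Cut_nsq (x : E3) : ‖x‖ ^ 2 = x 0 ^ 2 + x 1 ^ 2 + x 2 ^ 2 := by
  rw [EuclideanSpace.norm_sq_eq, Fin.sum_univ_three]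
  simp [sq_abs]

theorem Cut_lap {h : ℝ → ℝ} (hh : ContDiff ℝ ∞ h) (x : E3) :
    lap (fun y => h (‖y‖ ^ 2)) x = deriv (deriv h) (‖x‖ ^ 2) * (4 * ‖x‖ ^ 2) + 6 * deriv h (‖x‖ ^ 2) := by
  unfold lap
  rw [Fin.sum_univ_three, Cut_pdd hh, Cut_pdd hh, Cut_pdd hh]
  conv_rhs => rw [show (4 * ‖x‖ ^ 2 : ℝ) = 4 * (x 0 ^ 2 + x 1 ^ 2 + x 2 ^ 2) by rw [← Cut_nsq]]
  ring

theorem Cut_gsq {h : ℝ → ℝ} (hh : ContDiff ℝ ∞ h) (x : E3) :
    gsq (fun y => h (‖y‖ ^ 2)) x = deriv h (‖x‖ ^ 2) ^ 2 * (4 * ‖x‖ ^ 2) := by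
  unfold gsq
  rw [Fin.sum_univ_three, Cut_pd hh, Cut_pd hh, Cut_pd hh]
  conv_rhs => rw [show (4 * ‖x‖ ^ 2 : ℝ) = 4 * (x 0 ^ 2 + x 1 ^ 2 + x 2 ^ 2) by rw [← Cut_nsq]]
  ring

theorem Cut_rdr {h : ℝ → ℝ} (hh : ContDiff ℝ ∞ h) (x : E3) :
    rdr (fun y => h (‖y‖ ^ 2)) x = deriv h (‖x‖ ^ 2) * (2 * rsq x) := by
  unfold rdr rsq
  rw [Cut_pd hh, Cut_pd hh]
  ring

/-- the profile -/
noncomputable def Cut_h (a b : ℝ) (y : ℝ) : ℝ := Real.smoothTransition ((b ^ 2 - y) / (b ^ 2 - a ^ 2))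

theorem Cut_h_smooth (a b : ℝ) : ContDiff ℝ ∞ (Cut_h a b) := by
  unfold Cut_h
  exact Real.smoothTransition.contDiff.comp ((contDiff_const.sub contDiff_id).div_const _)

theorem Cut_arg (a b y : ℝ) : HasDerivAt (fun y : ℝ => (b ^ 2 - y) / (b ^ 2 - a ^ 2)) (-1 / (b ^ 2 - a ^ 2)) y := by
  simpa using ((hasDerivAt_id y).const_sub (b ^ 2)).div_const (b ^ 2 - a ^ 2)

theorem Cut_dh (a b y : ℝ) : HasDerivAt (Cut_h a b)
    (- deriv Real.smoothTransition ((b ^ 2 - y) / (b ^ 2 - a ^ 2)) / (b ^ 2 - a ^ 2)) y := by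
  have h2 : HasDerivAt Real.smoothTransition (deriv Real.smoothTransition ((b ^ 2 - y) / (b ^ 2 - a ^ 2)))
      ((b ^ 2 - y) / (b ^ 2 - a ^ 2)) :=
    ((Real.smoothTransition.contDiff (n := 1)).differentiable (by norm_num) _).hasDerivAt
  have h3 : HasDerivAt (Cut_h a b) _ y := h2.comp y (Cut_arg a b y)
  refine h3.congr_deriv ?_
  ring

theorem Cut_ddh (a b y : ℝ) : HasDerivAt (deriv (Cut_h a b))
    (deriv (deriv Real.smoothTransition) ((b ^ 2 - y) / (b ^ 2 - a ^ 2)) / (b ^ 2 - a ^ 2) ^ 2) y := by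
  have hs : ContDiff ℝ ∞ Real.smoothTransition := Real.smoothTransition.contDiff
  have hs1 : ContDiff ℝ ∞ (deriv Real.smoothTransition) := (contDiff_infty_iff_deriv.1 hs).2
  have h0 : deriv (Cut_h a b) = fun y => - deriv Real.smoothTransition ((b ^ 2 - y) / (b ^ 2 - a ^ 2)) / (b ^ 2 - a ^ 2) :=
    funext fun y => (Cut_dh a b y).deriv
  rw [h0]
  have h2 : HasDerivAt (deriv Real.smoothTransition) (deriv (deriv Real.smoothTransition) ((b ^ 2 - y) / (b ^ 2 - a ^ 2)))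
      ((b ^ 2 - y) / (b ^ 2 - a ^ 2)) :=
    (hs1.differentiable (by simp) _).hasDerivAt
  have h3 := ((h2.comp y (Cut_arg a b y)).neg).div_const (b ^ 2 - a ^ 2)
  have h4 : HasDerivAt (fun y => - deriv Real.smoothTransition ((b ^ 2 - y) / (b ^ 2 - a ^ 2)) / (b ^ 2 - a ^ 2)) _ y := h3
  refine h4.congr_deriv ?_
  rcases eq_or_ne (b ^ 2 - a ^ 2) 0 with h | h
  · simp [h]
  · field_simp

theorem zc_smooth (a b : ℝ) : ContDiff ℝ ∞ (zc a b) := by
  unfold zc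
  exact Real.smoothTransition.contDiff.comp ((contDiff_const.sub (contDiff_norm_sq ℝ)).div_const _)

theorem zc_nonneg (a b : ℝ) (x : E3) : 0 ≤ zc a b x := Real.smoothTransition.nonneg _

theorem zc_le (a b : ℝ) (x : E3) : zc a b x ≤ 1 := Real.smoothTransition.le_one _

theorem Cut_d {a b : ℝ} (ha : 0 < a) (hab : a < b) : 0 < b ^ 2 - a ^ 2 := by nlinarith

theorem zc_one {a b : ℝ} (ha : 0 < a) (hab : a < b) {x : E3} (hx : ‖x‖ ≤ a) : zc a b x = 1 := by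
  refine Real.smoothTransition.one_of_one_le ?_
  rw [one_le_div (Cut_d ha hab)]
  have := pow_le_pow_left₀ (norm_nonneg x) hx 2
  linarith

theorem zc_zero {a b : ℝ} (ha : 0 < a) (hab : a < b) {x : E3} (hx : b ≤ ‖x‖) : zc a b x = 0 := by
  refine Real.smoothTransition.zero_of_nonpos ?_
  have := pow_le_pow_left₀ (ha.trans hab).le hx 2
  exact div_nonpos_of_nonpos_of_nonneg (by linarith) (Cut_d ha hab).le

theorem zc_anti {a b : ℝ} (ha : 0 < a) (hab : a < b) {x y : E3} (h : ‖x‖ ≤ ‖y‖) : zc a b y ≤ zc a b x := by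
  refine Real.smoothTransition.monotone ?_
  have := pow_le_pow_left₀ (norm_nonneg x) h 2
  exact div_le_div_of_nonneg_right (by linarith) (Cut_d ha hab).le

theorem zc_supp {a b : ℝ} (ha : 0 < a) (hab : a < b) {n : ℕ} (hn : n ≠ 0) :
    HasCompactSupport (fun x => zc a b x ^ n) ∧ tsupport (fun x => zc a b x ^ n) ⊆ Metric.closedBall (0 : E3) b := by
  have h1 : Function.support (fun x => zc a b x ^ n) ⊆ Metric.closedBall (0 : E3) b := by
    intro x hx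
    rw [mem_closedBall_zero_iff]
    by_contra h
    push Not at h
    apply hx
    simp [zc_zero ha hab h.le, hn]
  refine ⟨HasCompactSupport.of_support_subset_isCompact (isCompact_closedBall 0 b) h1, ?_⟩
  exact closure_minimal h1 Metric.isClosed_closedBall

theorem zc_pow (n : ℕ) (hn : 2 ≤ n) : ∃ C : ℝ, 0 < C ∧ ∀ a b : ℝ, 1/8 ≤ a → a < b → b ≤ 1 → ∀ x : E3,
    gsq (zc a b) x ≤ C / (b - a) ^ 2 ∧
    gsq (fun y => zc a b y ^ n) x ≤ C / (b - a) ^ 2 * zc a b x ^ (2 * n - 2) ∧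
    |lap (fun y => zc a b y ^ n) x| ≤ C / (b - a) ^ 2 * zc a b x ^ (n - 2) ∧
    rdr (fun y => zc a b y ^ n) x ≤ 0 ∧ |rdr (fun y => zc a b y ^ n) x| ≤ C / (b - a) * rsq x := by
  obtain ⟨C, hC1, hCd, hCdd, hC0⟩ := Cut_bd
  have hC : 0 < C := by linarith
  have hn' : (2:ℝ) ≤ n := by exact_mod_cast hn
  refine ⟨160 * n ^ 2 * C ^ 2, by positivity, fun a b ha hab hb x => ?_⟩
  have ha0 : 0 < a := by linarith
  have hδ : 0 < b - a := by linarith
  set d : ℝ := b ^ 2 - a ^ 2 with hd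
  have hd0 : 0 < d := Cut_d ha0 hab
  have hd1 : (b - a) / 4 ≤ d := by
    have h1 : (b - a) * (1 / 4) ≤ (b - a) * (b + a) := mul_le_mul_of_nonneg_left (by linarith only [ha, hab]) hδ.le
    have h2 : (b - a) * (b + a) = b ^ 2 - a ^ 2 := by ring
    rw [hd, ← h2]
    linarith only [h1]
  have hdle : d ≤ 1 := by
    have h1 : b ^ 2 ≤ 1 := pow_le_one₀ (ha0.trans hab).le hb
    rw [hd]
    linarith only [h1, sq_nonneg a]
  set t : ℝ := deriv Real.smoothTransition ((b ^ 2 - ‖x‖ ^ 2) / d) with ht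
  set u : ℝ := deriv (deriv Real.smoothTransition) ((b ^ 2 - ‖x‖ ^ 2) / d) with hu
  set z : ℝ := zc a b x with hz
  have hz0 : 0 ≤ z := zc_nonneg a b x
  have hz1 : z ≤ 1 := zc_le a b x
  have ht0 : 0 ≤ t := Real.smoothTransition.monotone.deriv_nonneg
  have htC : |t| ≤ C := hCd _
  have huC : |u| ≤ C := hCdd _
  have hx1 : t = 0 ∧ u = 0 ∨ ‖x‖ ≤ 1 := by
    rcases le_or_gt b ‖x‖ with h | h
    · left
      refine hC0 _ ?_
      have := pow_le_pow_left₀ (ha0.trans hab).le h 2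
      exact div_nonpos_of_nonpos_of_nonneg (by linarith) hd0.le
    · right
      linarith
  -- the powers of the profile
  have key : ∀ m : ℕ, 1 ≤ m → deriv (fun y => Cut_h a b y ^ m) (‖x‖ ^ 2) = - (m * z ^ (m - 1) * t / d) ∧
      deriv (deriv (fun y => Cut_h a b y ^ m)) (‖x‖ ^ 2) =
        m * z ^ (m - 1) * u / d ^ 2 + m * (((m - 1 : ℕ) : ℝ) * z ^ (m - 1 - 1) * (t / d) ^ 2) := by
    intro m hm
    have hy : Cut_h a b (‖x‖ ^ 2) = z := rfl
    have e1 : ∀ y, HasDerivAt (fun y => Cut_h a b y ^ m) (m * Cut_h a b y ^ (m - 1) * deriv (Cut_h a b) y) y := by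
      intro y
      have h := (Cut_dh a b y).differentiableAt.hasDerivAt.pow m
      exact h
    have e2 : deriv (fun y => Cut_h a b y ^ m) = fun y => m * Cut_h a b y ^ (m - 1) * deriv (Cut_h a b) y :=
      funext fun y => (e1 y).deriv
    have e3 : deriv (Cut_h a b) (‖x‖ ^ 2) = - t / d := (Cut_dh a b _).deriv
    constructor
    · rw [(e1 _).deriv, e3, hy]
      ring
    · rw [e2]
      have e4 := (Cut_dh a b (‖x‖ ^ 2)).differentiableAt.hasDerivAt.pow (m - 1)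
      have e5 := (e4.const_mul (m : ℝ)).mul (Cut_ddh a b (‖x‖ ^ 2))
      have e6 : HasDerivAt (fun y => (m : ℝ) * Cut_h a b y ^ (m - 1) * deriv (Cut_h a b) y) _ (‖x‖ ^ 2) := e5
      rw [e6.deriv]
      simp only [Pi.pow_apply]
      rw [e3, hy, ← hu]
      ring
  have hcd : ∀ m : ℕ, ContDiff ℝ ∞ (fun y => Cut_h a b y ^ m) := fun m => (Cut_h_smooth a b).pow m
  have hfun : ∀ m : ℕ, (fun y : E3 => zc a b y ^ m) = fun y => (fun s => Cut_h a b s ^ m) (‖y‖ ^ 2) := fun m => rfl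
  have hδ1 : b - a ≤ 1 := by linarith
  have hin : 1 / d ≤ 4 / (b - a) := by
    rw [div_le_div_iff₀ hd0 hδ]
    linarith
  have hin2 : 1 / d ^ 2 ≤ 16 / (b - a) ^ 2 := by
    rw [div_le_div_iff₀ (by positivity) (by positivity)]
    have h1 := pow_le_pow_left₀ (by positivity) hd1 2
    have h2 : ((b - a) / 4) ^ 2 = (b - a) ^ 2 / 16 := by ring
    rw [h2] at h1
    linarith only [h1]
  have hCC : C ≤ C ^ 2 := by nlinarith only [hC1]
  have hx2 : t = 0 ∧ u = 0 ∨ ‖x‖ ^ 2 ≤ 1 := by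
    rcases hx1 with h | h
    · exact Or.inl h
    · exact Or.inr (pow_le_one₀ (norm_nonneg x) h)
  have ht2 : t ^ 2 ≤ C ^ 2 := by
    rw [← sq_abs]
    exact pow_le_pow_left₀ (abs_nonneg _) htC 2
  have htx : t ^ 2 * ‖x‖ ^ 2 ≤ C ^ 2 := by
    rcases hx2 with h | h
    · rw [h.1]
      have := sq_nonneg C
      simpa using this
    · have h1 : t ^ 2 * ‖x‖ ^ 2 ≤ C ^ 2 * 1 := mul_le_mul ht2 h (by positivity) (by positivity)
      linarith
  have hG : ∀ m : ℕ, 1 ≤ m → m ≤ n →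
      gsq (fun y => zc a b y ^ m) x ≤ 160 * n ^ 2 * C ^ 2 / (b - a) ^ 2 * z ^ (2 * m - 2) := by
    intro m hm hmn
    rw [hfun m, Cut_gsq (hcd m), (key m hm).1]
    have hm' : (m : ℝ) ≤ n := by exact_mod_cast hmn
    have e1 : (-(↑m * z ^ (m - 1) * t / d)) ^ 2 * (4 * ‖x‖ ^ 2) =
        4 * m ^ 2 * (t ^ 2 * ‖x‖ ^ 2) * (1 / d ^ 2) * z ^ (2 * m - 2) := by
      have : z ^ (2 * m - 2) = (z ^ (m - 1)) ^ 2 := by
        rw [← pow_mul]
        congr 1
        omega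
      rw [this]
      field_simp
    have e2 := htx
    rw [e1]
    refine mul_le_mul_of_nonneg_right ?_ (pow_nonneg hz0 _)
    have e3 : (4:ℝ) * m ^ 2 * (t ^ 2 * ‖x‖ ^ 2) ≤ 10 * n ^ 2 * C ^ 2 := by
      have h1 : (4:ℝ) * m ^ 2 ≤ 10 * n ^ 2 := by
        have h2 := pow_le_pow_left₀ (Nat.cast_nonneg m) hm' 2
        have h3 := sq_nonneg (n : ℝ)
        linarith only [h2, h3]
      exact mul_le_mul h1 e2 (by positivity) (by positivity)
    calc (4:ℝ) * m ^ 2 * (t ^ 2 * ‖x‖ ^ 2) * (1 / d ^ 2) ≤ (10 * n ^ 2 * C ^ 2) * (16 / (b - a) ^ 2) :=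
          mul_le_mul e3 hin2 (by positivity) (by positivity)
      _ = 160 * n ^ 2 * C ^ 2 / (b - a) ^ 2 := by ring
  have hr0 : 0 ≤ rsq x := by
    unfold rsq
    positivity
  have hzp : ∀ k, z ^ k ≤ 1 := fun k => pow_le_one₀ hz0 hz1
  have hn1 : 1 ≤ n := by omega
  have hR : rdr (fun y => zc a b y ^ n) x = - (n * z ^ (n - 1) * t / d * (2 * rsq x)) := by
    rw [hfun n, Cut_rdr (hcd n), (key n hn1).1]
    ring
  have hR0 : 0 ≤ n * z ^ (n - 1) * t / d * (2 * rsq x) := by positivity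
  have hRle : n * z ^ (n - 1) * t / d * (2 * rsq x) ≤ 160 * n ^ 2 * C ^ 2 / (b - a) * rsq x := by
    have e1 : n * z ^ (n - 1) * t / d * (2 * rsq x) = (2 * n * (z ^ (n - 1) * t)) * (1 / d) * rsq x := by ring
    rw [e1]
    refine mul_le_mul_of_nonneg_right ?_ hr0
    have e2 : z ^ (n - 1) * t ≤ C := by
      have h1 := hzp (n - 1)
      have h2 := pow_nonneg hz0 (n - 1)
      have h3 := le_of_abs_le htC
      calc z ^ (n - 1) * t ≤ 1 * C := mul_le_mul h1 h3 ht0 zero_le_one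
        _ = C := one_mul C
    have e3 : 2 * n * (z ^ (n - 1) * t) ≤ 40 * n ^ 2 * C ^ 2 := by
      have h1 : 2 * (n : ℝ) ≤ 40 * n ^ 2 := by nlinarith only [hn']
      exact mul_le_mul h1 (e2.trans hCC) (by positivity) (by positivity)
    calc (2 * n * (z ^ (n - 1) * t)) * (1 / d) ≤ (40 * n ^ 2 * C ^ 2) * (4 / (b - a)) :=
          mul_le_mul e3 hin (by positivity) (by positivity)
      _ = 160 * n ^ 2 * C ^ 2 / (b - a) := by ring
  refine ⟨?_, hG n hn1 le_rfl, ?_, ?_, ?_⟩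
  · have h := hG 1 le_rfl hn1
    simpa using h
  · rw [hfun n, Cut_lap (hcd n), (key n hn1).1, (key n hn1).2]
    have hc1 : (((n - 1 : ℕ) : ℝ)) = n - 1 := by
      rw [Nat.cast_sub hn1]
      simp
    have hzz : z ^ (n - 1) = z ^ (n - 2) * z := by
      rw [← pow_succ]
      congr 1
      omega
    have hzz' : n - 1 - 1 = n - 2 := by omega
    rw [hc1, hzz, hzz']
    set w : ℝ := z ^ (n - 2) with hw
    have hw0 : 0 ≤ w := pow_nonneg hz0 _
    have e1 : (↑n * (w * z) * u / d ^ 2 + ↑n * ((↑n - 1) * w * (t / d) ^ 2)) * (4 * ‖x‖ ^ 2) +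
        6 * -(↑n * (w * z) * t / d) =
        (4 * n * z * (u * ‖x‖ ^ 2) + 4 * n * (n - 1) * (t ^ 2 * ‖x‖ ^ 2) - 6 * n * z * t * d) * (1 / d ^ 2) * w := by
      field_simp
      ring
    rw [e1, abs_mul, abs_of_nonneg hw0]
    refine mul_le_mul_of_nonneg_right ?_ hw0
    have e2 : |t ^ 2 * ‖x‖ ^ 2| ≤ C ^ 2 := by
      rw [abs_of_nonneg (by positivity)]
      exact htx
    have e3 : |u * ‖x‖ ^ 2| ≤ C ^ 2 := by
      rcases hx2 with h | h
      · rw [h.2]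
        simp only [zero_mul, abs_zero]
        positivity
      · rw [abs_mul, abs_of_nonneg (by positivity : (0:ℝ) ≤ ‖x‖ ^ 2)]
        have h1 := mul_le_mul huC h (by positivity) hC.le
        linarith only [hCC, h1]
    have e4 : |z * (u * ‖x‖ ^ 2)| ≤ C ^ 2 := by
      rw [abs_mul, abs_of_nonneg hz0]
      have := mul_le_mul hz1 e3 (abs_nonneg _) zero_le_one
      linarith only [this]
    have e5 : |z * (t * d)| ≤ C ^ 2 := by
      rw [abs_of_nonneg (by positivity)]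
      have h1 : t * d ≤ C := by
        have := mul_le_mul (le_of_abs_le htC) hdle hd0.le hC.le
        linarith only [this]
      have := mul_le_mul hz1 h1 (by positivity) zero_le_one
      linarith only [hCC, this]
    have hn0 : (0:ℝ) ≤ n := by linarith only [hn', hab, hb, ha0]
    have hnn : (0:ℝ) ≤ 4 * n * (n - 1) := mul_nonneg (by linarith only [hn', hab, hb, ha0]) (by linarith only [hn', hab, hb, ha0])
    have e6 : |4 * n * z * (u * ‖x‖ ^ 2) + 4 * n * (n - 1) * (t ^ 2 * ‖x‖ ^ 2) - 6 * n * z * t * d| ≤ 10 * n ^ 2 * C ^ 2 := by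
      have f1 : |4 * n * z * (u * ‖x‖ ^ 2) + 4 * n * (n - 1) * (t ^ 2 * ‖x‖ ^ 2) - 6 * n * z * t * d| ≤
          4 * n * |z * (u * ‖x‖ ^ 2)| + 4 * n * (n - 1) * |t ^ 2 * ‖x‖ ^ 2| + 6 * n * |z * (t * d)| := by
        have g1 : 4 * n * |z * (u * ‖x‖ ^ 2)| = |4 * n * z * (u * ‖x‖ ^ 2)| := by
          rw [← abs_of_nonneg (by linarith only [hn', hab, hb, ha0] : (0:ℝ) ≤ 4 * n), ← abs_mul, abs_of_nonneg (by linarith only [hn', hab, hb, ha0] : (0:ℝ) ≤ 4 * n)]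
          ring_nf
        have g2 : 4 * n * (n - 1) * |t ^ 2 * ‖x‖ ^ 2| = |4 * n * (n - 1) * (t ^ 2 * ‖x‖ ^ 2)| := by
          rw [abs_mul (4 * (n:ℝ) * (n - 1)), abs_of_nonneg hnn]
        have g3 : 6 * n * |z * (t * d)| = |6 * n * z * t * d| := by
          rw [← abs_of_nonneg (by linarith only [hn', hab, hb, ha0] : (0:ℝ) ≤ 6 * n), ← abs_mul, abs_of_nonneg (by linarith only [hn', hab, hb, ha0] : (0:ℝ) ≤ 6 * n)]
          ring_nf
        rw [g1, g2, g3]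
        exact (abs_sub _ _).trans (add_le_add (abs_add_le _ _) le_rfl)
      have f2 := mul_le_mul_of_nonneg_left e4 (by linarith only [hn', hab, hb, ha0] : (0:ℝ) ≤ 4 * n)
      have f3 := mul_le_mul_of_nonneg_left e2 hnn
      have f4 := mul_le_mul_of_nonneg_left e5 (by linarith only [hn', hab, hb, ha0] : (0:ℝ) ≤ 6 * n)
      have f5 : (6 * (n:ℝ)) * C ^ 2 ≤ 6 * n ^ 2 * C ^ 2 :=
        mul_le_mul_of_nonneg_right (by nlinarith only [hn']) (sq_nonneg C)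
      calc _ ≤ _ := f1
        _ ≤ 4 * n * C ^ 2 + 4 * n * (n - 1) * C ^ 2 + 6 * n * C ^ 2 := add_le_add (add_le_add f2 f3) f4
        _ ≤ 10 * n ^ 2 * C ^ 2 := by linarith only [f5]
    rw [abs_mul, abs_of_nonneg (by positivity : 0 ≤ 1 / d ^ 2)]
    calc _ ≤ (10 * n ^ 2 * C ^ 2) * (16 / (b - a) ^ 2) :=
          mul_le_mul e6 hin2 (by positivity) (by positivity)
      _ = 160 * n ^ 2 * C ^ 2 / (b - a) ^ 2 := by ring
  · rw [hR]
    linarith
  · rw [hR, abs_neg, abs_of_nonneg hR0]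
    exact hRle

end Pool.Agent.H72.CC
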