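/-
ROW Ib (MP_09540e_CC). Integrations by parts. PROOF. All from `∫ pd i h = 0` for `h ∈ C¹_c` (LevX_int in H87/NS/LevX.lean) and the product rule (LevX_pd_mul); everything is smooth with compact support.
ib_lap: `lap f η = ∑ pd i (pd i f η) - ∑ pd i f pd i η`, and again `pd i f pd i η = pd i (f pd i η) - f pd i (pd i η)`.
ib_rd0: `∫ rdr f · g = - ∫ f (2 g + rdr g)` for `g ∈ C¹_c`: `x_k pd k f g = pd k (f x_k g) - f g - f x_k pd k g`, `k = 0, 1`.
ib_sadv: `sadv P f η = (2 P + rdr P) f_z η - P_z rdr f η`. By ib_rd0 with `g = f_z η`: `∫ rdr P f_z η = - ∫ P (2 f_z η + rdr f_z η + f_z rdr η)`, so `∫ (2P + rdr P) f_z η = - ∫ P (rdr f_z η + f_z rdr η)`;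
`- ∫ P_z rdr f η = ∫ P ((rdr f)_z η + rdr f η_z)` and `(rdr f)_z = rdr (f_z)` (symmetry of second derivatives; `x₀, x₁` do not depend on z). Sum: `- ∫ P (f_z rdr η - rdr f η_z)`.
ib_rdr: for `ε > 0` ib_rd0 with `g = 2/(rsq+ε) η`: `∫ 2/(rsq+ε) rdr f η = - ∫ f (2/(rsq+ε) rdr η + 4ε/(rsq+ε)² η)` (`rdr (2/(rsq+ε)) = - 4 rsq/(rsq+ε)²`, `rdr rsq = 2 rsq`). Let `ε → 0`, dominated
convergence on the compact support of `η`: `|f| 4ε/(rsq+ε)² ≤ 4C rsq ε/(rsq+ε)² ≤ 4C` and it tends to 0 off the axis; the axis `{rsq = 0}` is a null set (axis_null in H87/NS/S1.lean).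
-/
import Pool.Agent.H72.CC.Defs
import Pool.Agent.H87.NS.LevX
import Pool.Agent.H87.NS.S1

set_option autoImplicit false

open Set Filter Topology MeasureTheory
open scoped ContDiff

namespace Pool.Agent.H72.CC

open Pool.Agent.H16 Pool.Agent.H87.NS

variable {f P η : E3 → ℝ}

theorem Ib_cs_pd {G : E3 → ℝ} (hc : HasCompactSupport G) (i : Fin 3) : HasCompactSupport (pd i G) :=
  hc.fderiv_apply ℝ (e i)

theorem Ib_dif {g : E3 → ℝ} (hg : ContDiff ℝ ∞ g) (x : E3) : DifferentiableAt ℝ g x :=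
  (hg.differentiable (by simp)) x

theorem Ib_int {F G : E3 → ℝ} (hF : ContDiff ℝ ∞ F) (hG : ContDiff ℝ ∞ G) (hc : HasCompactSupport G) :
    Integrable (fun x => F x * G x) :=
  (hF.continuous.mul hG.continuous).integrable_of_hasCompactSupport hc.mul_left

theorem Ib_ibp {F G : E3 → ℝ} (hF : ContDiff ℝ ∞ F) (hG : ContDiff ℝ ∞ G) (hc : HasCompactSupport G) (i : Fin 3) :
    ∫ x, pd i F x * G x = - ∫ x, F x * pd i G x := by
  have h1 : ContDiff ℝ ∞ (fun x => F x * G x) := hF.mul hG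
  have h2 : HasCompactSupport (fun x => F x * G x) := hc.mul_left
  have h3 := (LevX_int (h1.of_le (by simp)) h2 i).2
  have h4 : ∀ x, pd i (fun y => F y * G y) x = pd i F x * G x + F x * pd i G x := fun x =>
    LevX_pd_mul (Ib_dif hF x) (Ib_dif hG x) i
  simp_rw [h4] at h3
  rw [integral_add (Ib_int (pd_smooth hF i) hG hc) (Ib_int hF (pd_smooth hG i) (Ib_cs_pd hc i))] at h3
  linarith

theorem Ib_comm (hf : ContDiff ℝ ∞ f) (i j : Fin 3) (x : E3) : pd i (pd j f) x = pd j (pd i f) x := by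
  have hs : IsSymmSndFDerivAt ℝ f x := by
    apply ContDiffAt.isSymmSndFDerivAt hf.contDiffAt
    simp only [minSmoothness_of_isRCLikeNormedField]
    exact ENat.LEInfty.out
  have hd : DifferentiableAt ℝ (fderiv ℝ f) x :=
    ((hf.fderiv_right (m := ∞) (by simp)).differentiable (by simp)) x
  have key : ∀ a b : Fin 3, pd a (pd b f) x = fderiv ℝ (fderiv ℝ f) x (e a) (e b) := by
    intro a b
    have h : pd b f = fun y => fderiv ℝ f y (e b) := rfl
    unfold pd
    rw [fderiv_clm_apply hd (differentiableAt_const _)]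
    simp
  rw [key i j, key j i]
  exact hs.eq (e i) (e j)

theorem Ib_rdr_smooth (hf : ContDiff ℝ ∞ f) : ContDiff ℝ ∞ (rdr f) := by
  have h : rdr f = fun x => x 0 * pd 0 f x + x 1 * pd 1 f x := by funext x; rfl
  rw [h]
  exact ((LevX_coord_cd 0).mul (pd_smooth hf 0)).add ((LevX_coord_cd 1).mul (pd_smooth hf 1))

theorem Ib_cs_rdr {G : E3 → ℝ} (hc : HasCompactSupport G) : HasCompactSupport (rdr G) := by
  have h : rdr G = fun x => x 0 * pd 0 G x + x 1 * pd 1 G x := by funext x; rfl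
  rw [h]
  exact ((Ib_cs_pd hc 0).mul_left).add ((Ib_cs_pd hc 1).mul_left)

theorem Ib_rd0 {f g : E3 → ℝ} (hf : ContDiff ℝ ∞ f) (hg : ContDiff ℝ ∞ g) (hc : HasCompactSupport g) :
    ∫ x, rdr f x * g x = - ∫ x, f x * (2 * g x + rdr g x) := by
  have hk : ∀ k : Fin 3, ∫ x, pd k f x * (x k * g x) = - ∫ x, f x * (g x + x k * pd k g x) := by
    intro k
    have hG : ContDiff ℝ ∞ (fun x : E3 => x k * g x) := (LevX_coord_cd k).mul hg
    have hGc : HasCompactSupport (fun x : E3 => x k * g x) := hc.mul_left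
    rw [Ib_ibp hf hG hGc k]
    congr 1
    apply integral_congr_ae
    filter_upwards with x
    have := LevX_pd_mul (x := x) (Ib_dif (LevX_coord_cd k) x) (Ib_dif hg x) k
    rw [this, LevX_pd_coord]
    simp
  have hi : ∀ k : Fin 3, Integrable (fun x => pd k f x * (x k * g x)) := fun k =>
    Ib_int (pd_smooth hf k) ((LevX_coord_cd k).mul hg) hc.mul_left
  have hj : ∀ k : Fin 3, Integrable (fun x => f x * (g x + x k * pd k g x)) := fun k =>
    Ib_int hf (hg.add ((LevX_coord_cd k).mul (pd_smooth hg k))) (hc.add (Ib_cs_pd hc k).mul_left)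
  calc ∫ x, rdr f x * g x = ∫ x, (pd 0 f x * (x 0 * g x) + pd 1 f x * (x 1 * g x)) := by
        congr 1; funext x; unfold rdr; ring
    _ = - ((∫ x, f x * (g x + x 0 * pd 0 g x)) + ∫ x, f x * (g x + x 1 * pd 1 g x)) := by
        rw [integral_add (hi 0) (hi 1), hk 0, hk 1]; ring
    _ = - ∫ x, f x * (2 * g x + rdr g x) := by
        rw [← integral_add (hj 0) (hj 1)]
        congr 2; funext x; unfold rdr; ring

theorem ib_lap (hf : ContDiff ℝ ∞ f) (hη : ContDiff ℝ ∞ η) (hc : HasCompactSupport η) :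
    ∫ x, lap f x * η x = - ∫ x, ∑ i, pd i f x * pd i η x ∧ ∫ x, lap f x * η x = ∫ x, f x * lap η x := by
  have h0 : ∫ x, lap f x * η x = ∑ i, ∫ x, pd i (pd i f) x * η x := by
    rw [← integral_finsetSum _ (fun i _ => Ib_int (pd_smooth (pd_smooth hf i) i) hη hc)]
    congr 1; funext x; unfold lap; rw [Finset.sum_mul]
  have h1 : ∀ i : Fin 3, ∫ x, pd i (pd i f) x * η x = - ∫ x, pd i f x * pd i η x := fun i =>
    Ib_ibp (pd_smooth hf i) hη hc i
  have h2 : ∀ i : Fin 3, ∫ x, pd i f x * pd i η x = - ∫ x, f x * pd i (pd i η) x := fun i =>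
    Ib_ibp hf (pd_smooth hη i) (Ib_cs_pd hc i) i
  constructor
  · rw [h0, integral_finsetSum _ (fun i _ => Ib_int (pd_smooth hf i) (pd_smooth hη i) (Ib_cs_pd hc i)),
      ← Finset.sum_neg_distrib]
    exact Finset.sum_congr rfl fun i _ => h1 i
  · have h3 : ∫ x, f x * lap η x = ∑ i, ∫ x, f x * pd i (pd i η) x := by
      rw [← integral_finsetSum _ (fun i _ => Ib_int hf (pd_smooth (pd_smooth hη i) i) (Ib_cs_pd (Ib_cs_pd hc i) i))]
      congr 1; funext x; unfold lap; rw [Finset.mul_sum]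
    rw [h0, h3]
    refine Finset.sum_congr rfl fun i _ => ?_
    rw [h1 i, h2 i, neg_neg]

theorem ib_sadv (hP : ContDiff ℝ ∞ P) (hf : ContDiff ℝ ∞ f) (hη : ContDiff ℝ ∞ η) (hc : HasCompactSupport η) :
    ∫ x, sadv P f x * η x = - ∫ x, P x * crs f η x := by
  have hg : ContDiff ℝ ∞ (fun x => pd 2 f x * η x) := (pd_smooth hf 2).mul hη
  have hgc : HasCompactSupport (fun x => pd 2 f x * η x) := hc.mul_left
  have hk : ContDiff ℝ ∞ (fun x => rdr f x * η x) := (Ib_rdr_smooth hf).mul hη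
  have hkc : HasCompactSupport (fun x => rdr f x * η x) := hc.mul_left
  have e1 := Ib_rd0 hP hg hgc
  have e2 := Ib_ibp hP hk hkc 2
  have r1 : ∀ x, rdr (fun x => pd 2 f x * η x) x = rdr (pd 2 f) x * η x + pd 2 f x * rdr η x := by
    intro x
    unfold rdr
    rw [LevX_pd_mul (Ib_dif (pd_smooth hf 2) x) (Ib_dif hη x), LevX_pd_mul (Ib_dif (pd_smooth hf 2) x) (Ib_dif hη x)]
    ring
  have r2 : ∀ x, pd 2 (fun x => rdr f x * η x) x = rdr (pd 2 f) x * η x + rdr f x * pd 2 η x := by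
    intro x
    rw [LevX_pd_mul (Ib_dif (Ib_rdr_smooth hf) x) (Ib_dif hη x)]
    have h : pd 2 (rdr f) x = rdr (pd 2 f) x := by
      have h0 : rdr f = fun x => (fun y : E3 => y 0 * pd 0 f y) x + (fun y : E3 => y 1 * pd 1 f y) x := by
        funext x; rfl
      have c0 : ContDiff ℝ ∞ (fun y : E3 => y 0 * pd 0 f y) := (LevX_coord_cd 0).mul (pd_smooth hf 0)
      have c1 : ContDiff ℝ ∞ (fun y : E3 => y 1 * pd 1 f y) := (LevX_coord_cd 1).mul (pd_smooth hf 1)
      rw [h0, LevX_pd_add (Ib_dif c0 x) (Ib_dif c1 x), LevX_pd_mul (Ib_dif (LevX_coord_cd 0) x) (Ib_dif (pd_smooth hf 0) x),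
        LevX_pd_mul (Ib_dif (LevX_coord_cd 1) x) (Ib_dif (pd_smooth hf 1) x), LevX_pd_coord, LevX_pd_coord,
        Ib_comm hf 2 0, Ib_comm hf 2 1]
      unfold rdr
      simp
    rw [h]
  simp_rw [r1] at e1
  simp_rw [r2] at e2
  have i1 : Integrable (fun x => P x * (2 * (pd 2 f x * η x))) :=
    Ib_int hP (contDiff_const.mul hg) hgc.mul_left
  have i2 : Integrable (fun x => P x * (rdr (pd 2 f) x * η x)) :=
    Ib_int hP ((Ib_rdr_smooth (pd_smooth hf 2)).mul hη) hc.mul_left
  have i3 : Integrable (fun x => P x * (pd 2 f x * rdr η x)) :=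
    Ib_int hP ((pd_smooth hf 2).mul (Ib_rdr_smooth hη)) (Ib_cs_rdr hc).mul_left
  have i4 : Integrable (fun x => P x * (rdr f x * pd 2 η x)) :=
    Ib_int hP ((Ib_rdr_smooth hf).mul (pd_smooth hη 2)) (Ib_cs_pd hc 2).mul_left
  have i5 : Integrable (fun x => rdr P x * (pd 2 f x * η x)) := Ib_int (Ib_rdr_smooth hP) hg hgc
  have i6 : Integrable (fun x => pd 2 P x * (rdr f x * η x)) := Ib_int (pd_smooth hP 2) hk hkc
  have s1 : ∫ x, P x * (2 * (pd 2 f x * η x) + (rdr (pd 2 f) x * η x + pd 2 f x * rdr η x))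
      = (∫ x, P x * (2 * (pd 2 f x * η x))) + ((∫ x, P x * (rdr (pd 2 f) x * η x)) + ∫ x, P x * (pd 2 f x * rdr η x)) := by
    have i23 : Integrable (fun x => P x * (rdr (pd 2 f) x * η x) + P x * (pd 2 f x * rdr η x)) := i2.add i3
    rw [← integral_add i2 i3, ← integral_add i1 i23]
    congr 1; funext x; ring
  have s2 : ∫ x, P x * (rdr (pd 2 f) x * η x + rdr f x * pd 2 η x)
      = (∫ x, P x * (rdr (pd 2 f) x * η x)) + ∫ x, P x * (rdr f x * pd 2 η x) := by
    rw [← integral_add i2 i4]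
    congr 1; funext x; ring
  have s3 : ∫ x, sadv P f x * η x
      = (∫ x, P x * (2 * (pd 2 f x * η x))) + (∫ x, rdr P x * (pd 2 f x * η x)) - ∫ x, pd 2 P x * (rdr f x * η x) := by
    have i15 : Integrable (fun x => P x * (2 * (pd 2 f x * η x)) + rdr P x * (pd 2 f x * η x)) := i1.add i5
    rw [← integral_add i1 i5, ← integral_sub i15 i6]
    congr 1; funext x; unfold sadv; ring
  have s4 : ∫ x, P x * crs f η x = (∫ x, P x * (pd 2 f x * rdr η x)) - ∫ x, P x * (rdr f x * pd 2 η x) := by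
    rw [← integral_sub i3 i4]
    congr 1; funext x; unfold crs; ring
  rw [s3, s4, e1, e2, s1, s2]
  ring

theorem Ib_pdc (hη : ContDiff ℝ ∞ η) {ε : ℝ} (hε : 0 < ε) (x : E3) :
    rdr (fun y => 2 / (rsq y + ε) * η y) x = 2 / (rsq x + ε) * rdr η x - 4 * rsq x / (rsq x + ε) ^ 2 * η x := by
  have hp : ∀ y : E3, 0 < rsq y + ε := fun y => by
    have : 0 ≤ rsq y := by unfold rsq; positivity
    linarith
  have hr : ContDiff ℝ ∞ (fun y : E3 => rsq y + ε) := LevX_rsq_cd.add contDiff_const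
  have hg : ContDiff ℝ ∞ (fun y : E3 => 2 / (rsq y + ε)) := contDiff_const.div hr (fun y => (hp y).ne')
  have hpd : ∀ k : Fin 3, pd k (fun y : E3 => 2 / (rsq y + ε)) x = - 2 * pd k rsq x / (rsq x + ε) ^ 2 := by
    intro k
    have h := LevX_pd_div (f := fun _ : E3 => (2 : ℝ)) (g := fun y : E3 => rsq y + ε) (x := x)
      (differentiableAt_const _) (Ib_dif hr x) (hp x).ne' k
    rw [h]
    have h1 : pd k (fun _ : E3 => (2 : ℝ)) x = 0 := by unfold pd; simp
    have h2 : pd k (fun y : E3 => rsq y + ε) x = pd k rsq x := by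
      rw [LevX_pd_add (Ib_dif LevX_rsq_cd x) (differentiableAt_const _)]
      have h1 : pd k (fun _ : E3 => ε) x = 0 := by unfold pd; simp
      rw [h1, add_zero]
    rw [h1, h2]
    ring
  unfold rdr
  rw [LevX_pd_mul (Ib_dif hg x) (Ib_dif hη x), LevX_pd_mul (Ib_dif hg x) (Ib_dif hη x), hpd, hpd,
    LevX_pd_rsq, LevX_pd_rsq]
  have hx := (hp x).ne'
  have hq : rsq x = x 0 ^ 2 + x 1 ^ 2 := rfl
  simp only [if_true, Fin.isValue, zero_ne_one, one_ne_zero, if_false]
  field_simp
  rw [hq]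
  ring

theorem ib_rdr (hf : ContDiff ℝ ∞ f) (hη : ContDiff ℝ ∞ η) (hc : HasCompactSupport η) {C : ℝ}
    (h1 : ∀ x ∈ tsupport η, |f x| ≤ C * rsq x ∧ |rdr f x| ≤ C * rsq x) (h2 : ∀ x, |rdr η x| ≤ C * rsq x) :
    ∫ x, 2 / rsq x * rdr f x * η x = - ∫ x, f x * (2 / rsq x * rdr η x) := by
  have hr0 : ∀ y : E3, 0 ≤ rsq y := fun y => by unfold rsq; positivity
  have hz : ∀ y : E3, rsq y = 0 → ∀ g : E3 → ℝ, rdr g y = 0 := by
    intro y hy g
    have hq : y 0 ^ 2 + y 1 ^ 2 = 0 := hy
    have a0 : y 0 = 0 := by nlinarith [sq_nonneg (y 0), sq_nonneg (y 1)]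
    have a1 : y 1 = 0 := by nlinarith [sq_nonneg (y 0), sq_nonneg (y 1)]
    unfold rdr; rw [a0, a1]; ring
  have hηrd : ∀ x, x ∉ tsupport η → η x = 0 ∧ rdr η x = 0 := by
    intro x hx
    refine ⟨image_eq_zero_of_notMem_tsupport hx, ?_⟩
    have hk : ∀ k : Fin 3, pd k η x = 0 := fun k => LevX_pd_zero (notMem_tsupport_iff_eventuallyEq.1 hx) k
    unfold rdr; rw [hk, hk]; ring
  set ε : ℕ → ℝ := fun n => 1 / ((n : ℝ) + 1) with hε
  have hεp : ∀ n, 0 < ε n := fun n => by simp only [hε]; positivity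
  have hεt : Tendsto ε atTop (𝓝 0) := tendsto_one_div_add_atTop_nhds_zero_nat
  have hcd : ∀ n, ContDiff ℝ ∞ (fun y : E3 => 2 / (rsq y + ε n)) := fun n =>
    contDiff_const.div (LevX_rsq_cd.add contDiff_const) (fun y => by have := hr0 y; have := hεp n; positivity)
  have hgs : ∀ n, ContDiff ℝ ∞ (fun y : E3 => 2 / (rsq y + ε n) * η y) := fun n => (hcd n).mul hη
  have hgc : ∀ n, HasCompactSupport (fun y : E3 => 2 / (rsq y + ε n) * η y) := fun n => hc.mul_left
  have hcd2 : ∀ n, ContDiff ℝ ∞ (fun y : E3 => 4 * ε n / (rsq y + ε n) ^ 2) := fun n =>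
    contDiff_const.div ((LevX_rsq_cd.add contDiff_const).pow 2) (fun y => by have := hr0 y; have := hεp n; positivity)
  have ib : ∀ n, Integrable (fun x => f x * (2 / (rsq x + ε n) * rdr η x)) := fun n =>
    Ib_int hf ((hcd n).mul (Ib_rdr_smooth hη)) (Ib_cs_rdr hc).mul_left
  have ic : ∀ n, Integrable (fun x => f x * (4 * ε n / (rsq x + ε n) ^ 2 * η x)) := fun n =>
    Ib_int hf ((hcd2 n).mul hη) hc.mul_left
  have key : ∀ n, ∫ x, 2 / (rsq x + ε n) * rdr f x * η x
      = - ((∫ x, f x * (2 / (rsq x + ε n) * rdr η x)) + ∫ x, f x * (4 * ε n / (rsq x + ε n) ^ 2 * η x)) := by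
    intro n
    have e := Ib_rd0 hf (hgs n) (hgc n)
    simp_rw [Ib_pdc hη (hεp n)] at e
    rw [← integral_add (ib n) (ic n)]
    calc ∫ x, 2 / (rsq x + ε n) * rdr f x * η x = ∫ x, rdr f x * (2 / (rsq x + ε n) * η x) := by
          congr 1; funext x; ring
      _ = _ := e
      _ = _ := by
          congr 2; funext x
          have := hr0 x
          have := hεp n
          have hne : rsq x + ε n ≠ 0 := by positivity
          field_simp
          ring
  -- the limits
  have hη1 : Integrable (fun x => 2 * |C| * |η x|) :=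
    ((hη.continuous.integrable_of_hasCompactSupport hc).norm).const_mul _
  have hη2 : Integrable (fun x => 2 * |C| * |rdr η x|) :=
    (((Ib_rdr_smooth hη).continuous.integrable_of_hasCompactSupport (Ib_cs_rdr hc)).norm).const_mul _
  have hη3 : Integrable (fun x => 4 * |C| * |η x|) :=
    ((hη.continuous.integrable_of_hasCompactSupport hc).norm).const_mul _
  have hCa : ∀ x, C * rsq x ≤ |C| * rsq x := fun x => mul_le_mul_of_nonneg_right (le_abs_self C) (hr0 x)
  have l1 : Tendsto (fun n => ∫ x, 2 / (rsq x + ε n) * rdr f x * η x) atTop (𝓝 (∫ x, 2 / rsq x * rdr f x * η x)) := by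
    refine tendsto_integral_of_dominated_convergence (fun x => 2 * |C| * |η x|) ?_ hη1 ?_ ?_
    · intro n
      exact (((hcd n).continuous.mul (Ib_rdr_smooth hf).continuous).mul hη.continuous).aestronglyMeasurable
    · intro n
      filter_upwards with x
      by_cases hx : x ∈ tsupport η
      · have a := (h1 x hx).2.trans (hCa x)
        have b := hr0 x
        have c := hεp n
        have d : 0 < rsq x + ε n := by linarith
        rw [Real.norm_eq_abs, abs_mul, abs_mul, abs_of_pos (show 0 < 2 / (rsq x + ε n) by positivity)]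
        refine mul_le_mul_of_nonneg_right ?_ (abs_nonneg _)
        rw [div_mul_eq_mul_div, div_le_iff₀ d]
        have : |C| * rsq x ≤ |C| * (rsq x + ε n) := by
          apply mul_le_mul_of_nonneg_left _ (abs_nonneg _); linarith
        nlinarith
      · rw [(hηrd x hx).1]; simp
    · filter_upwards with x
      rcases (hr0 x).eq_or_lt with h | h
      · rw [hz x h.symm f]; simp
      · refine (Tendsto.mul_const _ (Tendsto.mul_const _ ?_))
        refine Tendsto.div tendsto_const_nhds ?_ h.ne'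
        simpa using (tendsto_const_nhds (x := rsq x)).add hεt
  have l2 : Tendsto (fun n => ∫ x, f x * (2 / (rsq x + ε n) * rdr η x)) atTop (𝓝 (∫ x, f x * (2 / rsq x * rdr η x))) := by
    refine tendsto_integral_of_dominated_convergence (fun x => 2 * |C| * |rdr η x|) ?_ hη2 ?_ ?_
    · intro n
      exact (ib n).aestronglyMeasurable
    · intro n
      filter_upwards with x
      by_cases hx : x ∈ tsupport η
      · have a := (h1 x hx).1.trans (hCa x)
        have b := hr0 x
        have c := hεp n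
        have d : 0 < rsq x + ε n := by linarith
        rw [Real.norm_eq_abs, abs_mul, abs_mul, abs_of_pos (show 0 < 2 / (rsq x + ε n) by positivity), ← mul_assoc]
        refine mul_le_mul_of_nonneg_right ?_ (abs_nonneg _)
        rw [mul_div_assoc', div_le_iff₀ d]
        have : |C| * rsq x ≤ |C| * (rsq x + ε n) := by
          apply mul_le_mul_of_nonneg_left _ (abs_nonneg _); linarith
        nlinarith
      · rw [(hηrd x hx).2]; simp
    · filter_upwards with x
      rcases (hr0 x).eq_or_lt with h | h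
      · rw [hz x h.symm η]; simp
      · refine Tendsto.const_mul _ (Tendsto.mul_const _ ?_)
        refine Tendsto.div tendsto_const_nhds ?_ h.ne'
        simpa using (tendsto_const_nhds (x := rsq x)).add hεt
  have l3 : Tendsto (fun n => ∫ x, f x * (4 * ε n / (rsq x + ε n) ^ 2 * η x)) atTop (𝓝 (∫ _ : E3, (0 : ℝ))) := by
    refine tendsto_integral_of_dominated_convergence (fun x => 4 * |C| * |η x|) ?_ hη3 ?_ ?_
    · intro n
      exact (ic n).aestronglyMeasurable
    · intro n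
      filter_upwards with x
      by_cases hx : x ∈ tsupport η
      · have a := (h1 x hx).1.trans (hCa x)
        have b := hr0 x
        have c := hεp n
        have d : 0 < rsq x + ε n := by linarith
        rw [Real.norm_eq_abs, abs_mul, abs_mul, abs_of_pos (show 0 < 4 * ε n / (rsq x + ε n) ^ 2 by positivity), ← mul_assoc]
        refine mul_le_mul_of_nonneg_right ?_ (abs_nonneg _)
        rw [mul_div_assoc', div_le_iff₀ (by positivity)]
        have h3 : |f x| * (4 * ε n) ≤ |C| * rsq x * (4 * ε n) := mul_le_mul_of_nonneg_right a (by positivity)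
        have h4 : rsq x * ε n ≤ (rsq x + ε n) ^ 2 := by nlinarith [mul_nonneg b c.le, sq_nonneg (rsq x), sq_nonneg (ε n)]
        have h5 : |C| * (rsq x * ε n) ≤ |C| * (rsq x + ε n) ^ 2 := mul_le_mul_of_nonneg_left h4 (abs_nonneg _)
        nlinarith
      · rw [(hηrd x hx).1]; simp
    · filter_upwards with x
      rcases (hr0 x).eq_or_lt with h | h
      · by_cases hx : x ∈ tsupport η
        · have a := (h1 x hx).1
          rw [← h, mul_zero] at a
          have : f x = 0 := abs_eq_zero.1 (le_antisymm a (abs_nonneg _))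
          rw [this]; simp
        · rw [(hηrd x hx).1]; simp
      · have e1 : Tendsto (fun n => 4 * ε n / (rsq x + ε n) ^ 2) atTop (𝓝 (4 * 0 / (rsq x + 0) ^ 2)) := by
          refine Tendsto.div (hεt.const_mul 4) (((tendsto_const_nhds (x := rsq x)).add hεt).pow 2) ?_
          positivity
        have e2 := (e1.mul_const (η x)).const_mul (f x)
        simpa using e2
  have l4 : Tendsto (fun n => - ((∫ x, f x * (2 / (rsq x + ε n) * rdr η x)) + ∫ x, f x * (4 * ε n / (rsq x + ε n) ^ 2 * η x)))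
      atTop (𝓝 (- ((∫ x, f x * (2 / rsq x * rdr η x)) + ∫ _ : E3, (0 : ℝ)))) := (l2.add l3).neg
  have l5 := tendsto_nhds_unique l1 (l4.congr fun n => (key n).symm)
  rw [l5]
  simp

end Pool.Agent.H72.CC
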