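/-
ROW Newt (MP_09540e_CC). The regularised Newton potential. PROOF. `Kε z = (‖z‖² + ε²)^(-1/2)` is smooth (KInt_rpow_smooth), `pd i Kε = - MK ε i` (MK ε i z = z_i (‖z‖²+ε²)^(-3/2), Defs.lean of H87/NS), and `∑ pd i (MK ε i) = 3 ε² (‖z‖² + ε²)^(-5/2)` (MK_div),
so `lap Kε = - 3 ε² (‖z‖²+ε²)^(-5/2)`. For `η y = Kε (x - y)`: `pd i η y = - (pd i Kε) (x - y)`, `lap η y = (lap Kε) (x - y)` (KId_pd in H87/NS/KId.lean). By ib_lap (Ib.lean) with `f = η` and the compactly supported test function `g`: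
`∫ lap η g = ∫ η lap g`. newt_pd: the formula for `pd i η`.
newt_lim: kernel_limit (H87/NS/KLim.lean) applied to `g` (continuous, bounded since compactly supported).
-/
import Pool.Agent.H72.CC.PDefs
import Pool.Agent.H72.CC.Ib
import Pool.Agent.H87.NS.KInt
import Pool.Agent.H87.NS.KId
import Pool.Agent.H87.NS.KLim

set_option autoImplicit false

open Set Filter Topology MeasureTheory
open scoped ContDiff

namespace Pool.Agent.H72.CC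

open Pool.Agent.H16 Pool.Agent.H87.NS

theorem Newt_K {ε : ℝ} (hε : 0 < ε) (i : Fin 3) (z : E3) :
    pd i (fun z : E3 => (‖z‖ ^ 2 + ε ^ 2) ^ (-(1/2) : ℝ)) z = - MK ε i z := by
  have hP := KInt_P_pos hε z
  have h2 : HasFDerivAt (fun z : E3 => ‖z‖ ^ 2) (2 • (innerSL ℝ z : E3 →L[ℝ] ℝ)) z :=
    (hasStrictFDerivAt_norm_sq z).hasFDerivAt
  have h3 : HasFDerivAt (fun z : E3 => ‖z‖ ^ 2 + ε ^ 2) (2 • (innerSL ℝ z : E3 →L[ℝ] ℝ)) z :=
    h2.add_const _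
  have h4 := h3.rpow_const (p := -(1/2 : ℝ)) (Or.inl hP.ne')
  have hpow : (-(1/2 : ℝ)) - 1 = -(3/2 : ℝ) := by norm_num
  unfold pd MK
  rw [h4.fderiv]
  simp only [hpow]
  have h7 : inner ℝ z (e i) = z i := by
    simp [e, EuclideanSpace.inner_single_right]
  simp only [smul_apply, smul_eq_mul, innerSL_apply_apply, nsmul_eq_mul, h7]
  push_cast
  ring

theorem newt_smooth {ε : ℝ} (hε : 0 < ε) (x : E3) : ContDiff ℝ ∞ (fun y : E3 => (‖x - y‖ ^ 2 + ε ^ 2) ^ (-(1/2) : ℝ)) :=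
  (KInt_rpow_smooth hε _).comp (contDiff_const.sub contDiff_id)

theorem Newt_pd {ε : ℝ} (hε : 0 < ε) (x : E3) (i : Fin 3) (y : E3) :
    pd i (fun y : E3 => (‖x - y‖ ^ 2 + ε ^ 2) ^ (-(1/2) : ℝ)) y = MK ε i (x - y) := by
  have h := KId_pd (KInt_rpow_smooth hε (-(1/2) : ℝ)) x i y
  rw [Newt_K hε, neg_neg] at h
  exact h

theorem newt_pd {ε : ℝ} (hε : 0 < ε) (x : E3) (i : Fin 3) (y : E3) :
    pd i (fun y : E3 => (‖x - y‖ ^ 2 + ε ^ 2) ^ (-(1/2) : ℝ)) y = (x i - y i) * (‖x - y‖ ^ 2 + ε ^ 2) ^ (-(3/2) : ℝ) :=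
  Newt_pd hε x i y

theorem Newt_lap {ε : ℝ} (hε : 0 < ε) (x : E3) (y : E3) :
    lap (fun y : E3 => (‖x - y‖ ^ 2 + ε ^ 2) ^ (-(1/2) : ℝ)) y =
      - (3 * ε ^ 2 * (‖x - y‖ ^ 2 + ε ^ 2) ^ (-(5/2) : ℝ)) := by
  have h1 : ∀ i : Fin 3, pd i (pd i (fun y : E3 => (‖x - y‖ ^ 2 + ε ^ 2) ^ (-(1/2) : ℝ))) y =
      - pd i (MK ε i) (x - y) := by
    intro i
    have h2 : pd i (fun y : E3 => (‖x - y‖ ^ 2 + ε ^ 2) ^ (-(1/2) : ℝ)) =
        fun y => MK ε i (x - y) := funext fun y => Newt_pd hε x i y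
    rw [h2]
    exact KId_pd (MK_smooth hε i) x i y
  unfold lap
  rw [Finset.sum_congr rfl (fun i _ => h1 i), Finset.sum_neg_distrib, MK_div hε]

theorem newt {g : E3 → ℝ} (hg : ContDiff ℝ ∞ g) (hc : HasCompactSupport g) {ε : ℝ} (hε : 0 < ε) (x : E3) :
    ∫ y, g y * (3 * ε ^ 2 * (‖x - y‖ ^ 2 + ε ^ 2) ^ (-(5/2) : ℝ)) = - ∫ y, lap g y * (‖x - y‖ ^ 2 + ε ^ 2) ^ (-(1/2) : ℝ) := by
  have h1 := (ib_lap (newt_smooth hε x) hg hc).2
  have h2 : ∫ y, g y * (3 * ε ^ 2 * (‖x - y‖ ^ 2 + ε ^ 2) ^ (-(5/2) : ℝ)) =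
      - ∫ y, lap (fun y : E3 => (‖x - y‖ ^ 2 + ε ^ 2) ^ (-(1/2) : ℝ)) y * g y := by
    rw [← integral_neg]
    refine integral_congr_ae (Eventually.of_forall fun y => ?_)
    simp only
    rw [Newt_lap hε x y]
    ring
  rw [h2, h1]
  congr 1
  refine integral_congr_ae (Eventually.of_forall fun y => ?_)
  simp only
  ring

theorem newt_lim {g : E3 → ℝ} (hg : ContDiff ℝ ∞ g) (hc : HasCompactSupport g) {B : ℝ} (x : E3)
    (h : ∀ ε > 0, |∫ y, lap g y * (‖x - y‖ ^ 2 + ε ^ 2) ^ (-(1/2) : ℝ)| ≤ B) : c0 * |g x| ≤ B := by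
  obtain ⟨K, hK⟩ := hg.continuous.bounded_above_of_compact_support hc
  refine kernel_limit hg.continuous (K := K) (fun y => ?_) x (fun ε hε => ?_)
  · rw [← Real.norm_eq_abs]
    exact hK y
  · rw [newt hg hc hε x, abs_neg]
    exact h ε hε

end Pool.Agent.H72.CC
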