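/-
ROW Itr (MP_09540e_CC). Two lemmas on sequences (Mathlib only). PROOF of itr. `1 - exp (-q) ≤ exp (- exp (-q))` (`1 - y ≤ exp (-y)`), so by induction `g k ≤ g 0 * exp (- ∑_{j<k} exp (-q j))` and `exp (-q j) ≥ exp (-a) (j+1)^(-1/2)`, `∑_{j<k} 1/√(j+1) ≥ √k`
(induction: `√k + 1/√(k+1) ≥ √(k+1)`). (`g k ≥ 0` by induction since `q j ≥ 0`.)
PROOF of fin: for `0 < r < ρ₀` there is `k` with `ρ₀ (1/4)^(k+1) ≤ r < ρ₀ (1/4)^k` (exists_nat_pow_near_of_lt_one or Nat.find), and `k → ∞` as `r → 0`: precisely for each `k₀`, `r < ρ₀ (1/4)^(k₀+1)` implies `k > k₀`. `|log r| ≤ |log ρ₀| + (k+1) log 4 =: a_k`, `|log r| ≥ 1` for `r < 1/3`,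
so for `α ≥ 0` (for `α < 0` replace α by 0: `|log r|^(-α) ≥ 1`) `|log r|^(-α) ≥ a_k^(-α)`, and `G exp (-δ √k) a_k^α → 0` as `k → ∞` (exponential beats powers: Real.tendsto_pow_mul_exp_neg_atTop_nhds_zero with `√k`), so it is `≤ 1` for `k ≥ k₀`.
-/
import Mathlib

set_option autoImplicit false

open Set Filter Topology

namespace Pool.Agent.H72.CC

theorem itr {g q : ℕ → ℝ} {a : ℝ} (hg : ∀ k, g (k + 1) = (1 - Real.exp (- q k)) * g k) (h0 : 0 ≤ g 0) (hq0 : ∀ k, 0 ≤ q k)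
    (hq : ∀ k : ℕ, q k ≤ a + (1/2) * Real.log ((k : ℝ) + 1)) (k : ℕ) :
    0 ≤ g k ∧ g k ≤ g 0 * Real.exp (- (Real.exp (-a) * √k)) := by
  induction k with
  | zero =>
    refine ⟨h0, ?_⟩
    simp
  | succ k ih =>
    obtain ⟨ih0, ih1⟩ := ih
    have hk0 : (0 : ℝ) ≤ (k : ℝ) := Nat.cast_nonneg k
    have hk1 : (0 : ℝ) < (k : ℝ) + 1 := by linarith
    have e1 : 0 ≤ 1 - Real.exp (- q k) := by
      have h1 : Real.exp (- q k) ≤ 1 := Real.exp_le_one_iff.mpr (by linarith [hq0 k])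
      linarith
    have e2 : 1 - Real.exp (- q k) ≤ Real.exp (- Real.exp (- q k)) := by
      have h1 := Real.add_one_le_exp (- Real.exp (- q k))
      linarith
    have hs1 : 0 < √((k : ℝ) + 1) := Real.sqrt_pos.mpr hk1
    have hsq1 : √((k : ℝ) + 1) * √((k : ℝ) + 1) = (k : ℝ) + 1 := Real.mul_self_sqrt hk1.le
    have hsq0 : √(k : ℝ) * √(k : ℝ) = (k : ℝ) := Real.mul_self_sqrt hk0
    have hle : √(k : ℝ) ≤ √((k : ℝ) + 1) := Real.sqrt_le_sqrt (by linarith)
    have e3 : Real.exp (-a) / √((k : ℝ) + 1) ≤ Real.exp (- q k) := by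
      have h1 : Real.log (√((k : ℝ) + 1)) = (1 / 2) * Real.log ((k : ℝ) + 1) := by
        rw [Real.log_sqrt hk1.le]
        ring
      have h2 : Real.exp (-a) / √((k : ℝ) + 1) = Real.exp (-a - (1 / 2) * Real.log ((k : ℝ) + 1)) := by
        rw [Real.exp_sub, ← h1, Real.exp_log hs1]
      rw [h2]
      exact Real.exp_le_exp.mpr (by linarith [hq k])
    have e4 : √((k : ℝ) + 1) ≤ √(k : ℝ) + 1 / √((k : ℝ) + 1) := by
      have h1 : √(k : ℝ) + 1 / √((k : ℝ) + 1) = (√(k : ℝ) * √((k : ℝ) + 1) + 1) / √((k : ℝ) + 1) := by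
        field_simp
      rw [h1, le_div_iff₀ hs1, hsq1]
      have h2 : √(k : ℝ) * √(k : ℝ) ≤ √(k : ℝ) * √((k : ℝ) + 1) :=
        mul_le_mul_of_nonneg_left hle (Real.sqrt_nonneg _)
      linarith
    constructor
    · rw [hg]
      exact mul_nonneg e1 ih0
    · rw [hg]
      have hE : 0 < Real.exp (-a) := Real.exp_pos _
      calc (1 - Real.exp (- q k)) * g k
          ≤ Real.exp (- Real.exp (- q k)) * (g 0 * Real.exp (- (Real.exp (-a) * √(k : ℝ)))) :=
            mul_le_mul e2 ih1 ih0 (Real.exp_pos _).le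
        _ = g 0 * Real.exp (- Real.exp (- q k) + - (Real.exp (-a) * √(k : ℝ))) := by
            rw [Real.exp_add]
            ring
        _ ≤ g 0 * Real.exp (- (Real.exp (-a) * √(((k + 1 : ℕ) : ℕ) : ℝ))) := by
            refine mul_le_mul_of_nonneg_left (Real.exp_le_exp.mpr ?_) h0
            push_cast
            have h5 : Real.exp (-a) * √((k : ℝ) + 1) ≤
                Real.exp (-a) * (√(k : ℝ) + 1 / √((k : ℝ) + 1)) :=
              mul_le_mul_of_nonneg_left e4 hE.le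
            have h6 : Real.exp (-a) * (√(k : ℝ) + 1 / √((k : ℝ) + 1)) =
                Real.exp (-a) * √(k : ℝ) + Real.exp (-a) / √((k : ℝ) + 1) := by ring
            linarith

theorem fin {G δ ρ₀ : ℝ} (hδ : 0 < δ) (hρ : 0 < ρ₀) (α : ℝ) : ∃ r₁ : ℝ, 0 < r₁ ∧ r₁ < 1 ∧ ∀ r : ℝ, 0 < r → r < r₁ →
    ∃ k : ℕ, r < ρ₀ * (1/4) ^ k ∧ G * Real.exp (- (δ * √k)) ≤ |Real.log r| ^ (-α) := by
  -- exponent and constants
  obtain ⟨m, hm⟩ := exists_nat_ge (max α 0)
  have hα0 : 0 ≤ max α 0 := le_max_right _ _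
  have hL4 : (1 : ℝ) < Real.log 4 := by
    have h1 : Real.log 4 = 2 * Real.log 2 := by
      have : (4 : ℝ) = 2 ^ 2 := by norm_num
      rw [this, Real.log_pow]
      push_cast
      ring
    rw [h1]
    linarith [Real.log_two_gt_d9]
  set A : ℝ := |Real.log ρ₀| with hA
  set C : ℝ := A + 2 * Real.log 4 with hC
  have hA0 : 0 ≤ A := abs_nonneg _
  have hC0 : 0 < C := by rw [hC]; linarith
  -- the limit
  have hlim : Tendsto (fun u : ℝ => (|G| * C ^ m * Real.exp δ / δ ^ (2 * m)) *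
      ((δ * u) ^ (2 * m) * Real.exp (- (δ * u)))) atTop (𝓝 0) := by
    have h1 : Tendsto (fun u : ℝ => δ * u) atTop atTop := tendsto_id.const_mul_atTop hδ
    have h2 := (Real.tendsto_pow_mul_exp_neg_atTop_nhds_zero (2 * m)).comp h1
    have h3 := h2.const_mul (|G| * C ^ m * Real.exp δ / δ ^ (2 * m))
    rw [mul_zero] at h3
    exact h3
  have hev : ∀ᶠ u : ℝ in atTop, (|G| * C ^ m * Real.exp δ / δ ^ (2 * m)) *
      ((δ * u) ^ (2 * m) * Real.exp (- (δ * u))) ≤ 1 :=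
    hlim.eventually (Iic_mem_nhds (by norm_num : (0 : ℝ) < 1))
  obtain ⟨U, hU⟩ := eventually_atTop.mp hev
  obtain ⟨N, hN⟩ := exists_nat_ge ((max U 0) ^ 2)
  have hkey : ∀ n : ℕ, N ≤ n → G * Real.exp (- (δ * √(n : ℝ))) * (A + ((n : ℝ) + 2) * Real.log 4) ^ (max α 0) ≤ 1 := by
    intro n hn
    have hn0 : (0 : ℝ) ≤ (n : ℝ) := Nat.cast_nonneg n
    have hs0 : 0 ≤ √(n : ℝ) := Real.sqrt_nonneg _
    have hss : √(n : ℝ) * √(n : ℝ) = (n : ℝ) := Real.mul_self_sqrt hn0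
    have hUn : U ≤ √(n : ℝ) + 1 := by
      have h1 : max U 0 ≤ √(n : ℝ) := by
        apply Real.le_sqrt_of_sq_le
        exact hN.trans (by exact_mod_cast hn)
      linarith [le_max_left U 0]
    have h1 := hU _ hUn
    have ha1 : 1 ≤ A + ((n : ℝ) + 2) * Real.log 4 := by nlinarith
    have ha2 : A + ((n : ℝ) + 2) * Real.log 4 ≤ C * (√(n : ℝ) + 1) ^ 2 := by
      have e1 : (√(n : ℝ) + 1) ^ 2 = (n : ℝ) + 2 * √(n : ℝ) + 1 := by nlinarith
      rw [e1, hC]
      nlinarith [mul_nonneg hA0 hn0, mul_nonneg hA0 hs0, mul_nonneg hn0 (by linarith : (0:ℝ) ≤ Real.log 4),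
        mul_nonneg hs0 (by linarith : (0:ℝ) ≤ Real.log 4)]
    have ha3 : (A + ((n : ℝ) + 2) * Real.log 4) ^ (max α 0) ≤ (C * (√(n : ℝ) + 1) ^ 2) ^ m := by
      calc (A + ((n : ℝ) + 2) * Real.log 4) ^ (max α 0)
          ≤ (A + ((n : ℝ) + 2) * Real.log 4) ^ (m : ℝ) := Real.rpow_le_rpow_of_exponent_le ha1 hm
        _ = (A + ((n : ℝ) + 2) * Real.log 4) ^ m := Real.rpow_natCast _ _
        _ ≤ (C * (√(n : ℝ) + 1) ^ 2) ^ m := pow_le_pow_left₀ (by linarith) ha2 m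
    have hpos : 0 ≤ (A + ((n : ℝ) + 2) * Real.log 4) ^ (max α 0) :=
      Real.rpow_nonneg (by linarith) _
    calc G * Real.exp (- (δ * √(n : ℝ))) * (A + ((n : ℝ) + 2) * Real.log 4) ^ (max α 0)
        ≤ |G| * Real.exp (- (δ * √(n : ℝ))) * (A + ((n : ℝ) + 2) * Real.log 4) ^ (max α 0) := by
          refine mul_le_mul_of_nonneg_right ?_ hpos
          exact mul_le_mul_of_nonneg_right (le_abs_self G) (Real.exp_pos _).le
      _ ≤ |G| * Real.exp (- (δ * √(n : ℝ))) * (C * (√(n : ℝ) + 1) ^ 2) ^ m :=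
          mul_le_mul_of_nonneg_left ha3 (mul_nonneg (abs_nonneg _) (Real.exp_pos _).le)
      _ = (|G| * C ^ m * Real.exp δ / δ ^ (2 * m)) *
          ((δ * (√(n : ℝ) + 1)) ^ (2 * m) * Real.exp (- (δ * (√(n : ℝ) + 1)))) := by
          have e1 : Real.exp (- (δ * √(n : ℝ))) = Real.exp δ * Real.exp (- (δ * (√(n : ℝ) + 1))) := by
            rw [← Real.exp_add]
            congr 1
            ring
          have e2 : δ ^ (2 * m) ≠ 0 := pow_ne_zero _ hδ.ne'
          rw [e1, mul_pow C, ← pow_mul, mul_pow δ]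
          field_simp
      _ ≤ 1 := h1
  refine ⟨min (Real.exp (-1)) (ρ₀ * (1/4) ^ (N + 1) / 4), ?_, ?_, ?_⟩
  · exact lt_min (Real.exp_pos _) (by positivity)
  · exact lt_of_le_of_lt (min_le_left _ _) (Real.exp_lt_one_iff.mpr (by norm_num))
  · intro r hr0 hr
    have hr1 : r < Real.exp (-1) := lt_of_lt_of_le hr (min_le_left _ _)
    have hr2 : r < ρ₀ * (1/4) ^ (N + 1) / 4 := lt_of_lt_of_le hr (min_le_right _ _)
    have hx0 : 0 < 4 * r / ρ₀ := by positivity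
    have hxN : 4 * r / ρ₀ < (1/4) ^ (N + 1) := by
      rw [div_lt_iff₀ hρ]
      linarith
    have hx1 : 4 * r / ρ₀ ≤ 1 := hxN.le.trans (pow_le_one₀ (by norm_num) (by norm_num))
    obtain ⟨n, hn1, hn2⟩ := exists_nat_pow_near_of_lt_one hx0 hx1
      (by norm_num : (0 : ℝ) < 1/4) (by norm_num : (1/4 : ℝ) < 1)
    have hNn : N ≤ n := by
      have h1 : ((1 : ℝ)/4) ^ (n + 1) < (1/4) ^ (N + 1) := hn1.trans hxN
      have h2 := (pow_lt_pow_iff_right_of_lt_one₀ (by norm_num : (0 : ℝ) < 1/4)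
        (by norm_num : (1/4 : ℝ) < 1)).mp h1
      omega
    refine ⟨n, ?_, ?_⟩
    · rw [div_le_iff₀ hρ] at hn2
      have h1 : 0 < ρ₀ * (1/4 : ℝ) ^ n := by positivity
      linarith
    · have hlog1 : 1 ≤ |Real.log r| := by
        have h1 : Real.log r < -1 := by
          have h2 := Real.log_lt_log hr0 hr1
          rwa [Real.log_exp] at h2
        rw [abs_of_neg (by linarith)]
        linarith
      have hlog2 : |Real.log r| ≤ A + ((n : ℝ) + 2) * Real.log 4 := by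
        have h1 : Real.log r < 0 := by
          have h2 := Real.log_lt_log hr0 hr1
          rw [Real.log_exp] at h2
          linarith
        rw [abs_of_neg h1]
        have h3 : ρ₀ * (1/4 : ℝ) ^ (n + 2) < r := by
          rw [lt_div_iff₀ hρ] at hn1
          have h4 : ρ₀ * (1/4 : ℝ) ^ (n + 2) = ((1/4 : ℝ) ^ (n + 1) * ρ₀) / 4 := by
            rw [pow_succ (1/4 : ℝ) (n + 1)]
            ring
          rw [h4]
          linarith
        have h5 := Real.log_lt_log (by positivity) h3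
        rw [Real.log_mul hρ.ne' (by positivity), Real.log_pow, one_div, Real.log_inv] at h5
        push_cast at h5
        have h6 : - Real.log ρ₀ ≤ A := neg_le_abs _
        linarith
      have h7 : |Real.log r| ^ (- max α 0) ≤ |Real.log r| ^ (-α) :=
        Real.rpow_le_rpow_of_exponent_le hlog1 (neg_le_neg (le_max_left _ _))
      have h8 : (A + ((n : ℝ) + 2) * Real.log 4) ^ (- max α 0) ≤ |Real.log r| ^ (- max α 0) :=
        Real.rpow_le_rpow_of_nonpos (by linarith) hlog2 (by linarith)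
      refine le_trans ?_ (h8.trans h7)
      have h9 : 0 < A + ((n : ℝ) + 2) * Real.log 4 := by linarith
      rw [Real.rpow_neg h9.le, ← one_div, le_div_iff₀ (Real.rpow_pos_of_pos h9 _)]
      exact hkey n hNn

end Pool.Agent.H72.CC
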