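/-
ROW A4s (MP_09540e_CC). Change of variables `x = axp z + ρ • y`. PROOF. `rsq (axp z + ρ • y) = ρ² rsq y`, so `rsq y ^ 2 * (ρ P x)^4 = rsq x ^ 2 * P x ^ 4`. For every `g`: `∫ y in ball 0 1, g (axp z + ρ • y) = ρ⁻¹ ^ 3 * ∫ x in ball (axp z) ρ, g x`:
write both as integrals of indicators; `x ∈ ball (axp z) ρ ↔ y ∈ ball 0 1`; MeasureTheory.Measure.integral_comp_smul (finrank = 3, `|(ρ^3)⁻¹|`) and translation invariance (integral_add_left_eq_self).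
-/
import Pool.Agent.H72.CC.PDefs

set_option autoImplicit false

open Set Filter Topology MeasureTheory
open scoped ContDiff

namespace Pool.Agent.H72.CC

open scoped Pointwise
open Pool.Agent.H16 Pool.Agent.H87.NS

theorem A4s_gen (g : E3 → ℝ) {ρ : ℝ} (hρ : 0 < ρ) (z a : ℝ) :
    ∫ y in Metric.ball (0 : E3) a, g (axp z + ρ • y) = ρ⁻¹ ^ 3 * ∫ x in Metric.ball (axp z) (ρ * a), g x := by
  have h1 := Measure.setIntegral_comp_smul_of_pos (volume : Measure E3) (fun x => g (axp z + x))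
    (Metric.ball (0 : E3) a) hρ
  have hfr : Module.finrank ℝ E3 = 3 := by simp
  have h2 : ρ • Metric.ball (0 : E3) a = Metric.ball (0 : E3) (ρ * a) := by
    rw [smul_ball hρ.ne', smul_zero, Real.norm_of_nonneg hρ.le]
  have h3 : (fun x : E3 => axp z + x) ⁻¹' Metric.ball (axp z) (ρ * a) = Metric.ball (0 : E3) (ρ * a) := by
    ext x
    rw [Set.mem_preimage, mem_ball_iff_norm, mem_ball_zero_iff, add_sub_cancel_left]
  have h4 := (measurePreserving_add_left (volume : Measure E3) (axp z)).setIntegral_preimage_emb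
    (measurableEmbedding_addLeft (axp z)) g (Metric.ball (axp z) (ρ * a))
  rw [h3] at h4
  rw [h2, hfr, h4, smul_eq_mul] at h1
  rw [h1, inv_pow]

theorem ball_cov (g : E3 → ℝ) {ρ : ℝ} (hρ : 0 < ρ) (z : ℝ) :
    ∫ y in Metric.ball (0 : E3) 1, g (axp z + ρ • y) = ρ⁻¹ ^ 3 * ∫ x in Metric.ball (axp z) ρ, g x := by
  rw [A4s_gen g hρ z 1, mul_one]

theorem ball_cov2 (g : E3 → ℝ) {ρ : ℝ} (hρ : 0 < ρ) (z : ℝ) :
    ∫ y in Metric.ball (0 : E3) (1/2), g (axp z + ρ • y) = ρ⁻¹ ^ 3 * ∫ x in Metric.ball (axp z) (ρ / 2), g x := by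
  rw [A4s_gen g hρ z (1 / 2)]
  have : ρ * (1 / 2) = ρ / 2 := by ring
  rw [this]

theorem A4s_rsq {ρ : ℝ} (z : ℝ) (y : E3) : rsq (axp z + ρ • y) = ρ ^ 2 * rsq y := by
  have e0 : (axp z + ρ • y) 0 = ρ * y 0 := by simp [axp]
  have e1 : (axp z + ρ • y) 1 = ρ * y 1 := by simp [axp]
  rw [rsq, rsq, e0, e1]
  ring

theorem a4s (P : E3 → ℝ) {ρ : ℝ} (hρ : 0 < ρ) (z : ℝ) :
    A4 (fun y => ρ * P (axp z + ρ • y)) = ρ⁻¹ ^ 3 * ∫ x in Metric.ball (axp z) ρ, rsq x ^ 2 * P x ^ 4 := by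
  rw [← ball_cov (fun x => rsq x ^ 2 * P x ^ 4) hρ z, A4]
  congr 1
  funext y
  rw [A4s_rsq]
  ring

end Pool.Agent.H72.CC
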