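/-
ROW JenL (MP_09540e_CC). PROOF. `σ = T - (t + ρ² s) ∈ [T - t, T)` for `s ∈ [-1, 0]`, `σ ≥ ρ² |s|`. The integrand is continuous on `[-1,0]` (`σ ≥ T - t > 0`, `2 + |log σ| ≥ 2`, `ll σ ≥ log 2 > 0`). For `s < 0`: if `σ ≥ 1` then `|log σ| = log σ ≤ log T ≤ |log T|`;
if `σ < 1` then `|log σ| = - log σ ≤ - log (ρ² |s|) = 2 log (1/ρ) + |log |s||`. So `ll σ ≤ log (A + |log |s||) ≤ log A + |log |s||` with `A = 2 + |log T| + 2 log (1/ρ) ≥ 2` (`log (A + b) ≤ log A + b/A`). Let `B = log A + 1`. Tangent line: for `x ≥ 0`: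
`x^(5/9) ≤ (5/9) B^(-4/9) x + (4/9) B^(5/9)` (weighted AM-GM: Real.geom_mean_le_arith_mean2_weighted, or inner_le_nnorm_mul_nnorm; or concavity). `∫_{-1}^0 |log |s|| ds = 1` (integral_log: ∫_0^1 log = -1). So the integral is at most
`(5/9) B^(-4/9) (log A + 1) + (4/9) B^(5/9) = B^(5/9)`.
-/
import Pool.Agent.H72.CC.PDefs

set_option autoImplicit false

open Set Filter Topology MeasureTheory
open scoped ContDiff

namespace Pool.Agent.H72.CC

open Pool.Agent.H16 Pool.Agent.H87.NS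

theorem JenL_ll {A b σ : ℝ} (hA : 2 ≤ A) (hb : 0 ≤ b) (h : 2 + |Real.log σ| ≤ A + b) :
    ll σ ≤ Real.log A + b := by
  unfold ll
  have h0 : 0 < 2 + |Real.log σ| := by positivity
  have hA0 : 0 < A := by linarith
  refine (Real.log_le_log h0 h).trans ?_
  have h1 : Real.log (A + b) = Real.log A + Real.log (1 + b / A) := by
    rw [← Real.log_mul hA0.ne' (by positivity)]
    congr 1
    field_simp
  rw [h1]
  have h2 : Real.log (1 + b / A) ≤ b / A := by
    have := Real.log_le_sub_one_of_pos (x := 1 + b / A) (by positivity)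
    linarith
  have h3 : b / A ≤ b := div_le_self hb (by linarith)
  linarith

theorem JenL_abs {T t ρ s : ℝ} (ht : t < T) (hρ : 0 < ρ) (hρ1 : ρ ≤ 1) (hρt : ρ ^ 2 < t) (hs : s ∈ Ioo (-1 : ℝ) 0) :
    2 + |Real.log (T - (t + ρ ^ 2 * s))| ≤ (2 + |Real.log T| + 2 * Real.log (1 / ρ)) + -Real.log s := by
  obtain ⟨hs1, hs0⟩ := hs
  have hρ2 : 0 < ρ ^ 2 := by positivity
  have hσ : 0 < T - (t + ρ ^ 2 * s) := by nlinarith
  have hσT : T - (t + ρ ^ 2 * s) ≤ T := by nlinarith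
  have hlρ : 0 ≤ Real.log (1 / ρ) := Real.log_nonneg (by rw [le_div_iff₀ hρ]; linarith)
  have hls : 0 ≤ -Real.log s := by
    have h1 : Real.log s = Real.log (-s) := (Real.log_neg_eq_log s).symm
    rw [h1, neg_nonneg]
    exact Real.log_nonpos (by linarith) (by linarith)
  rcases le_or_gt 1 (T - (t + ρ ^ 2 * s)) with h | h
  · rw [abs_of_nonneg (Real.log_nonneg h)]
    have h1 := Real.log_le_log hσ hσT
    have h2 := le_abs_self (Real.log T)
    linarith
  · rw [abs_of_nonpos (Real.log_nonpos hσ.le h.le)]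
    have h1 : ρ ^ 2 * (-s) ≤ T - (t + ρ ^ 2 * s) := by linarith
    have h2 : 0 < ρ ^ 2 * (-s) := mul_pos hρ2 (by linarith)
    have h3 := Real.log_le_log h2 h1
    rw [Real.log_mul hρ2.ne' (by linarith), Real.log_pow, Real.log_neg_eq_log] at h3
    have h4 : Real.log (1 / ρ) = -Real.log ρ := by
      rw [one_div, Real.log_inv]
    have h5 := abs_nonneg (Real.log T)
    push_cast at h3
    rw [h4]
    linarith

theorem jenL {T t ρ : ℝ} (ht : t < T) (hρ : 0 < ρ) (hρ1 : ρ ≤ 1) (hρt : ρ ^ 2 < t) :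
    ContinuousOn (fun s => ll (T - (t + ρ ^ 2 * s)) ^ (5/9 : ℝ)) (Icc (-1) 0) ∧
    ∫ s in (-1 : ℝ)..0, ll (T - (t + ρ ^ 2 * s)) ^ (5/9 : ℝ) ≤
      (Real.log (2 + |Real.log T| + 2 * Real.log (1 / ρ)) + 1) ^ (5/9 : ℝ) := by
  have hρ2 : 0 < ρ ^ 2 := by positivity
  have hcont : ContinuousOn (fun s => ll (T - (t + ρ ^ 2 * s)) ^ (5/9 : ℝ)) (Icc (-1) 0) := by
    refine ContinuousOn.rpow_const ?_ (fun s _ => Or.inr (by norm_num))
    unfold ll
    refine ContinuousOn.log ?_ (fun s _ => ?_)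
    · refine continuousOn_const.add (ContinuousOn.abs (ContinuousOn.log (by fun_prop) fun s hs => ?_))
      have : 0 < T - (t + ρ ^ 2 * s) := by nlinarith [hs.2]
      exact this.ne'
    · have := abs_nonneg (Real.log (T - (t + ρ ^ 2 * s)))
      positivity
  refine ⟨hcont, ?_⟩
  obtain ⟨A, hA⟩ : ∃ A : ℝ, A = 2 + |Real.log T| + 2 * Real.log (1 / ρ) := ⟨_, rfl⟩
  have hlρ : 0 ≤ Real.log (1 / ρ) := Real.log_nonneg (by rw [le_div_iff₀ hρ]; linarith)
  have hA2 : 2 ≤ A := by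
    have := abs_nonneg (Real.log T)
    rw [hA]
    linarith
  rw [← hA]
  obtain ⟨B, hB⟩ : ∃ B : ℝ, B = Real.log A + 1 := ⟨_, rfl⟩
  rw [← hB]
  have hlA : 0 ≤ Real.log A := Real.log_nonneg (by linarith)
  have hB0 : 0 < B := by rw [hB]; linarith
  have hll : ∀ σ : ℝ, 0 ≤ ll σ := fun σ => by
    unfold ll
    refine Real.log_nonneg ?_
    have := abs_nonneg (Real.log σ)
    linarith
  have htan : ∀ x : ℝ, 0 ≤ x → x ^ (5/9 : ℝ) ≤ (5/9 * x + 4/9 * B) * B ^ (-(4/9) : ℝ) := by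
    intro x hx
    have h1 := Real.geom_mean_le_arith_mean2_weighted (w₁ := 5/9) (w₂ := 4/9) (by norm_num) (by norm_num) hx
      hB0.le (by norm_num)
    have h2 := mul_le_mul_of_nonneg_right h1 (Real.rpow_nonneg hB0.le (-(4/9) : ℝ))
    rw [mul_assoc, ← Real.rpow_add hB0, show (4/9 : ℝ) + -(4/9) = 0 by norm_num, Real.rpow_zero, mul_one] at h2
    exact h2
  have hmono : ∫ s in (-1 : ℝ)..0, ll (T - (t + ρ ^ 2 * s)) ^ (5/9 : ℝ) ≤
      ∫ s in (-1 : ℝ)..0, ((5/9 * Real.log A + 4/9 * B) * B ^ (-(4/9) : ℝ) -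
        5/9 * B ^ (-(4/9) : ℝ) * Real.log s) := by
    refine intervalIntegral.integral_mono_on_of_le_Ioo (by norm_num) ?_ ?_ fun s hs => ?_
    · exact ContinuousOn.intervalIntegrable_of_Icc (by norm_num) hcont
    · exact intervalIntegrable_const.sub (intervalIntegral.intervalIntegrable_log'.const_mul _)
    · have hls : 0 ≤ -Real.log s := by
        rw [← Real.log_neg_eq_log s, neg_nonneg]
        exact Real.log_nonpos (by linarith [hs.2]) (by linarith [hs.1])
      have h1 := JenL_abs ht hρ hρ1 hρt hs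
      rw [← hA] at h1
      have h2 := JenL_ll hA2 hls h1
      have h3 := htan _ (hll (T - (t + ρ ^ 2 * s)))
      refine h3.trans ?_
      have h4 : (5/9 * ll (T - (t + ρ ^ 2 * s)) + 4/9 * B) * B ^ (-(4/9) : ℝ) ≤
          (5/9 * (Real.log A + -Real.log s) + 4/9 * B) * B ^ (-(4/9) : ℝ) :=
        mul_le_mul_of_nonneg_right (by linarith) (Real.rpow_nonneg hB0.le _)
      refine h4.trans (le_of_eq ?_)
      ring
  refine hmono.trans (le_of_eq ?_)
  rw [intervalIntegral.integral_sub intervalIntegrable_const (intervalIntegral.intervalIntegrable_log'.const_mul _),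
    intervalIntegral.integral_const, intervalIntegral.integral_const_mul, integral_log]
  have e1 : B ^ (5/9 : ℝ) = B * B ^ (-(4/9) : ℝ) := by
    rw [← Real.rpow_one_add' hB0.le (by norm_num)]
    norm_num
  rw [e1, Real.log_zero, Real.log_neg_eq_log, Real.log_one, smul_eq_mul]
  have e2 : Real.log A = B - 1 := by rw [hB]; ring
  rw [e2]
  ring

end Pool.Agent.H72.CC
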