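/-
ROW Psi (MP_09540e_CC). The stream function `sP v = avk 1 (fun y => v y 2)` of an axially symmetric field. PROOF. Models: NS/VRep.lean, NS/AxId.lean, NS/Quot.lean, NS/Avk.lean (proof of avk_BL for the L² bound).
sP_smooth: avk_smooth. sP_rot: as sV_rot (`v (rot θ x) 2 = v x 2`, VRep_sq_rot). sP_two: `d/ds (s² f(s x₀, s x₁, x₂)) = 2 s f + s rdr f (sq s x)`, integrate over `[0,1]`: `f = 2 avk 1 f + avk 1 (rdr f)` and `rdr (avk 1 f) = avk 1 (rdr f)`
(avk_pd_hor: `x_i pd i (avk 1 f) = x_i avk 2 (pd i f)` and `(sq s x) i = s x_i`). sW_sP: `sW v = avk 1 (fun y => - fderiv ℝ v y (e 2) 2)`, `fderiv ℝ v y (e 2) 2 = pd 2 (fun y => v y 2) y` (pd_comp), avk_pd_two.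
rot_inv: differentiate `f (rot θ x) = f x` at `θ = 0`: `x₀ pd 1 f = x₁ pd 0 f`; multiply by `x₀` resp. `x₁`: `rsq pd 0 f = x₀ rdr f`, `rsq pd 1 f = x₁ rdr f`. Differentiate once more: with `D f = x₀ pd 1 f - x₁ pd 0 f` and `R f = rdr f` one has the
identity `R (R f) + D (D f) = rsq (pd 0 (pd 0 f) + pd 1 (pd 1 f))` for every smooth f, and `D f = 0` here.
sO_sP: `rsq sO v = circ (curl v)` (om_eq) and `circ (curl v) x = x₀ (∂₂ v₀ - ∂₀ v₂) - x₁ (∂₁ v₂ - ∂₂ v₁) = pd 2 (radFlux v) x - rdr (v 2) x`, `radFlux v = rsq sW v = - rsq pd 2 (sP v)` (flux_eq), `v 2 = 2 sP + rdr sP`, so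
`rsq sO = - rsq pd 2 (pd 2 sP) - 2 rdr sP - rdr (rdr sP) = - rsq lap sP - 2 rdr sP` (rot_inv). sP_lap: `lap (y_i g) = y_i lap g + 2 pd i g` and `rsq pd i g = y_i rdr g`: off the axis `lap (y_i sP) = y_i (lap sP + 2/rsq rdr sP) = - y_i sO`;
on the axis by continuity (the complement of the axis is dense: axis_null, or Dense from a.e.; both sides continuous). adv_sP: off the axis `pd i f = x_i rdr f / rsq` for `i = 0,1`, so `adv (v x) f = radFlux v x rdr f / rsq + v₂ pd 2 f = sW rdr f + (2 sP + rdr sP) pd 2 f`;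
both sides continuous in x. sP_L2: `(∫₀¹ s f(sq s x) ds)² ≤ ∫₀¹ s² f(sq s x)² ds` (Avk_jensen) and `∫ f(sq s x)² dx = s^(-2) ∫ f²` (Avk_lint); see the proof of avk_BL.
-/
import Pool.Agent.H72.CC.PDefs
import Pool.Agent.H87.NS.VRep
import Pool.Agent.H87.NS.AxId
import Pool.Agent.H87.NS.Quot
import Pool.Agent.H87.NS.Avk
import Pool.Agent.H87.NS.S1

set_option autoImplicit false

open Set Filter Topology MeasureTheory
open scoped ContDiff

namespace Pool.Agent.H72.CC

open Pool.Agent.H16 Pool.Agent.H87.NS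


/-! ### auxiliary calculus -/

theorem Psi_mul {f g : E3 → ℝ} {x : E3} (hf : DifferentiableAt ℝ f x) (hg : DifferentiableAt ℝ g x)
    (i : Fin 3) : pd i (fun y => f y * g y) x = pd i f x * g x + f x * pd i g x := by
  have h : HasFDerivAt (fun y => f y * g y) _ x := hf.hasFDerivAt.mul hg.hasFDerivAt
  unfold pd
  rw [h.fderiv]
  show f x * (fderiv ℝ g x) (e i) + g x * (fderiv ℝ f x) (e i) = _
  ring

theorem Psi_add {f g : E3 → ℝ} {x : E3} (hf : DifferentiableAt ℝ f x) (hg : DifferentiableAt ℝ g x)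
    (i : Fin 3) : pd i (fun y => f y + g y) x = pd i f x + pd i g x := by
  have h : HasFDerivAt (fun y => f y + g y) _ x := hf.hasFDerivAt.add hg.hasFDerivAt
  unfold pd
  rw [h.fderiv]
  rfl

theorem Psi_dmul {f g : E3 → ℝ} {x : E3} (hf : DifferentiableAt ℝ f x) (hg : DifferentiableAt ℝ g x) :
    DifferentiableAt ℝ (fun y => f y * g y) x := hf.mul hg

theorem Psi_const (c : ℝ) (x : E3) (i : Fin 3) : pd i (fun _ : E3 => c) x = 0 := by
  unfold pd
  simp

theorem Psi_cm {f : E3 → ℝ} {x : E3} (hf : DifferentiableAt ℝ f x) (c : ℝ)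
    (i : Fin 3) : pd i (fun y => c * f y) x = c * pd i f x := by
  rw [Psi_mul (differentiableAt_const c) hf, Psi_const]
  ring

theorem Psi_dc (j : Fin 3) : Differentiable ℝ (fun y : E3 => y j) :=
  (EuclideanSpace.proj j : E3 →L[ℝ] ℝ).differentiable

theorem Psi_coord (i j : Fin 3) (x : E3) :
    pd i (fun y : E3 => y j) x = if j = i then 1 else 0 := by
  unfold pd
  have h : HasFDerivAt (fun y : E3 => y j) (EuclideanSpace.proj j : E3 →L[ℝ] ℝ) x :=
    (EuclideanSpace.proj j : E3 →L[ℝ] ℝ).hasFDerivAt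
  rw [h.fderiv]
  change (e i) j = _
  unfold e
  simp

theorem Psi_diff {f : E3 → ℝ} (hf : ContDiff ℝ ∞ f) : Differentiable ℝ f := hf.differentiable (by simp)

theorem Psi_cont_coord (k : Fin 3) : Continuous (fun y : E3 => y k) :=
  (EuclideanSpace.proj (𝕜 := ℝ) k : E3 →L[ℝ] ℝ).continuous

theorem Psi_rdr_cont {f : E3 → ℝ} (hf : ContDiff ℝ ∞ f) : Continuous (rdr f) := by
  unfold rdr
  exact ((Psi_cont_coord 0).mul (pd_smooth hf 0).continuous).add ((Psi_cont_coord 1).mul (pd_smooth hf 1).continuous)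

theorem Psi_rdr_smooth {f : E3 → ℝ} (hf : ContDiff ℝ ∞ f) : ContDiff ℝ ∞ (rdr f) := by
  unfold rdr
  exact ((VRep_x 0).mul (pd_smooth hf 0)).add ((VRep_x 1).mul (pd_smooth hf 1))

theorem Psi_lap_cont {f : E3 → ℝ} (hf : ContDiff ℝ ∞ f) : Continuous (lap f) := by
  have h : lap f = fun x => pd 0 (pd 0 f) x + pd 1 (pd 1 f) x + pd 2 (pd 2 f) x := by
    funext x
    unfold lap
    rw [Fin.sum_univ_three]
  rw [h]
  exact (((pd_smooth (pd_smooth hf 0) 0).continuous).add ((pd_smooth (pd_smooth hf 1) 1).continuous)).add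
    ((pd_smooth (pd_smooth hf 2) 2).continuous)

/-- two continuous functions equal off the axis are equal -/
theorem Psi_off {f g : E3 → ℝ} (hf : Continuous f) (hg : Continuous g)
    (h : ∀ x, 0 < rsq x → f x = g x) (x : E3) : f x = g x := by
  have hclosed : IsClosed {x : E3 | f x = g x} := isClosed_eq hf hg
  have hdense : Dense {x : E3 | 0 < rad x} := Measure.dense_of_ae axis_null
  have h3 : closure {x : E3 | 0 < rad x} ⊆ {x : E3 | f x = g x} :=
    closure_minimal (fun x hx => h x (rsq_pos hx)) hclosed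
  rw [hdense.closure_eq] at h3
  exact h3 (mem_univ x)

theorem Psi_rsq (i : Fin 3) (x : E3) : pd i rsq x = if i = 2 then 0 else 2 * x i := by
  have h0 : rsq = fun y : E3 => y 0 * y 0 + y 1 * y 1 := by
    funext y
    unfold rsq
    ring
  have hd : ∀ k : Fin 3, DifferentiableAt ℝ (fun y : E3 => y k * y k) x :=
    fun k => (Psi_dc k x).mul (Psi_dc k x)
  rw [h0, Psi_add (hd 0) (hd 1),
    Psi_mul (Psi_dc 0 x) (Psi_dc 0 x), Psi_mul (Psi_dc 1 x) (Psi_dc 1 x)]
  simp only [Psi_coord]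
  fin_cases i
  · simp; ring
  · simp; ring
  · simp

theorem Psi_rsq_diff : Differentiable ℝ (rsq : E3 → ℝ) := by
  unfold rsq
  exact ((Psi_dc 0).pow 2).add ((Psi_dc 1).pow 2)

theorem Psi_v2 {v : E3 → E3} (hv : AxF v) : ContDiff ℝ ∞ (fun y => v y 2) := VRep_coord hv.smooth 2

theorem sP_smooth {v : E3 → E3} (hv : AxF v) : ContDiff ℝ ∞ (sP v) := by
  exact avk_smooth (Psi_v2 hv) 1

theorem sP_rot {v : E3 → E3} (hv : AxF v) (θ : ℝ) (x : E3) : sP v (rot θ x) = sP v x := by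
  unfold sP avk
  simp only [VRep_sq_rot, hv.ax, rot_two']

theorem sP_two {v : E3 → E3} (hv : AxF v) (x : E3) : v x 2 = 2 * sP v x + rdr (sP v) x := by
  obtain ⟨f, hf⟩ : ∃ f : E3 → ℝ, f = fun y => v y 2 := ⟨_, rfl⟩
  have hfs : ContDiff ℝ ∞ f := by
    rw [hf]
    exact Psi_v2 hv
  have hP : sP v = avk 1 f := by
    funext y
    rw [hf]
    rfl
  have h1 : sq 1 x = x := by
    apply ext3
    · show 1 * x 0 = x 0
      ring
    · show 1 * x 1 = x 1
      ring
    · rfl
  have hcf : Continuous (fun s : ℝ => f (sq s x)) := hfs.continuous.comp (VRep_sq_cont x)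
  have hc0 : Continuous (fun s : ℝ => pd 0 f (sq s x)) := (pd_smooth hfs 0).continuous.comp (VRep_sq_cont x)
  have hc1 : Continuous (fun s : ℝ => pd 1 f (sq s x)) := (pd_smooth hfs 1).continuous.comp (VRep_sq_cont x)
  have hd : ∀ s ∈ uIcc (0 : ℝ) 1, HasDerivAt (fun s => s ^ 2 * f (sq s x))
      (2 * (s ^ 1 * f (sq s x)) + (x 0 * (s ^ 2 * pd 0 f (sq s x)) + x 1 * (s ^ 2 * pd 1 f (sq s x)))) s := by
    intro s _
    have h2 := ((hfs.differentiable (by simp)) (sq s x)).hasFDerivAt.comp_hasDerivAt s (VRep_sq_deriv x s)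
    have h3 := (hasDerivAt_pow 2 s).mul h2
    refine h3.congr_deriv ?_
    rw [VRep_hor]
    show (2 : ℕ) * s ^ (2 - 1) * f (sq s x) + s ^ 2 * (x 0 * pd 0 f (sq s x) + x 1 * pd 1 f (sq s x)) = _
    push_cast
    ring
  have hi1 : IntervalIntegrable (fun s : ℝ => 2 * (s ^ 1 * f (sq s x))) volume 0 1 :=
    (continuous_const.mul ((continuous_id.pow 1).mul hcf)).intervalIntegrable 0 1
  have hi2 : IntervalIntegrable (fun s : ℝ => x 0 * (s ^ 2 * pd 0 f (sq s x))) volume 0 1 :=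
    (continuous_const.mul ((continuous_id.pow 2).mul hc0)).intervalIntegrable 0 1
  have hi3 : IntervalIntegrable (fun s : ℝ => x 1 * (s ^ 2 * pd 1 f (sq s x))) volume 0 1 :=
    (continuous_const.mul ((continuous_id.pow 2).mul hc1)).intervalIntegrable 0 1
  have h5 := intervalIntegral.integral_eq_sub_of_hasDerivAt hd (hi1.add (hi2.add hi3))
  rw [intervalIntegral.integral_add hi1 (hi2.add hi3), intervalIntegral.integral_add hi2 hi3,
    intervalIntegral.integral_const_mul, intervalIntegral.integral_const_mul,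
    intervalIntegral.integral_const_mul, h1] at h5
  have h6 : rdr (sP v) x = x 0 * avk 2 (pd 0 f) x + x 1 * avk 2 (pd 1 f) x := by
    unfold rdr
    rw [hP, avk_pd_hor hfs 1 (by decide), avk_pd_hor hfs 1 (by decide)]
  have h7 : v x 2 = f x := by
    rw [hf]
  rw [h6, hP, h7]
  unfold avk
  have h8 : (1 : ℝ) ^ 2 * f x - 0 ^ 2 * f (sq 0 x) = f x := by ring
  rw [h8] at h5
  exact h5.symm

theorem sW_sP {v : E3 → E3} (hv : AxF v) (x : E3) : sW v x = - pd 2 (sP v) x := by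
  have h1 : pd 2 (sP v) = avk 1 (pd 2 (fun y => v y 2)) := avk_pd_two (Psi_v2 hv) 1
  rw [h1]
  unfold sW avk
  rw [← intervalIntegral.integral_neg]
  refine intervalIntegral.integral_congr fun s _ => ?_
  show s ^ 1 * (- fderiv ℝ v (sq s x) (e 2) 2) = -(s ^ 1 * pd 2 (fun y => v y 2) (sq s x))
  rw [pd_comp hv.smooth]
  ring

theorem Psi_zero {f : E3 → ℝ} (hf : ContDiff ℝ ∞ f) (hr : ∀ θ x, f (rot θ x) = f x) (x : E3) :
    x 0 * pd 1 f x = x 1 * pd 0 f x := by
  have h0 : rot 0 x = x := by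
    apply ext3 <;> simp
  have h1 := ((Psi_diff hf) (rot 0 x)).hasFDerivAt.comp_hasDerivAt (0:ℝ) (hasDerivAt_rot 0 x)
  have h2 : (f ∘ fun s => rot s x) = fun _ : ℝ => f x := by
    funext s
    exact hr s x
  rw [h2, h0] at h1
  have h3 := h1.unique (hasDerivAt_const (0 : ℝ) (f x))
  have h4 : rotGen x = (- x 1) • e 0 + x 0 • e 1 := by
    apply ext3 <;> simp [e_apply]
  rw [h4, map_add, map_smul, map_smul] at h3
  have h5 : - x 1 * pd 0 f x + x 0 * pd 1 f x = 0 := h3
  linarith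

theorem rot_inv {f : E3 → ℝ} (hf : ContDiff ℝ ∞ f) (hr : ∀ θ x, f (rot θ x) = f x) (x : E3) :
    rsq x * pd 0 f x = x 0 * rdr f x ∧ rsq x * pd 1 f x = x 1 * rdr f x ∧
    rdr (rdr f) x = rsq x * (pd 0 (pd 0 f) x + pd 1 (pd 1 f) x) := by
  have hz := Psi_zero hf hr x
  have d0 : DifferentiableAt ℝ (pd 0 f) x := Psi_diff (pd_smooth hf 0) x
  have d1 : DifferentiableAt ℝ (pd 1 f) x := Psi_diff (pd_smooth hf 1) x
  have c0 : DifferentiableAt ℝ (fun y : E3 => y 0) x := Psi_dc 0 x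
  have c1 : DifferentiableAt ℝ (fun y : E3 => y 1) x := Psi_dc 1 x
  have hfun : (fun y : E3 => y 0 * pd 1 f y) = fun y => y 1 * pd 0 f y := by
    funext y
    exact Psi_zero hf hr y
  have e0 := congrArg (fun g : E3 → ℝ => pd 0 g x) hfun
  have e1 := congrArg (fun g : E3 → ℝ => pd 1 g x) hfun
  simp only [] at e0 e1
  rw [Psi_mul c0 d1, Psi_mul c1 d0, Psi_coord, Psi_coord] at e0 e1
  have k0 : pd 0 (rdr f) x = pd 0 f x + x 0 * pd 0 (pd 0 f) x + x 1 * pd 0 (pd 1 f) x := by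
    unfold rdr
    rw [Psi_add (Psi_dmul c0 d0) (Psi_dmul c1 d1), Psi_mul c0 d0, Psi_mul c1 d1, Psi_coord, Psi_coord]
    simp only [Fin.isValue, if_true, Fin.reduceEq, if_false]
    ring
  have k1 : pd 1 (rdr f) x = pd 1 f x + x 0 * pd 1 (pd 0 f) x + x 1 * pd 1 (pd 1 f) x := by
    unfold rdr
    rw [Psi_add (Psi_dmul c0 d0) (Psi_dmul c1 d1), Psi_mul c0 d0, Psi_mul c1 d1, Psi_coord, Psi_coord]
    simp only [Fin.isValue, if_true, Fin.reduceEq, if_false]
    ring
  simp only [Fin.isValue, if_true, Fin.reduceEq, if_false] at e0 e1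
  refine ⟨?_, ?_, ?_⟩
  · unfold rsq rdr
    linear_combination (- x 1) * hz
  · unfold rsq rdr
    linear_combination x 0 * hz
  · show x 0 * pd 0 (rdr f) x + x 1 * pd 1 (rdr f) x = _
    rw [k0, k1]
    unfold rsq
    linear_combination x 1 * e0 - x 0 * e1

theorem sO_sP {v : E3 → E3} (hv : AxF v) (x : E3) :
    rsq x * sO v x = - (rsq x * lap (sP v) x) - 2 * rdr (sP v) x := by
  have hP := sP_smooth hv
  have a1 : circ (curl v) x = pd 2 (radFlux v) x - rdr (fun y => v y 2) x := by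
    have hd0 : DifferentiableAt ℝ (fun y => v y 0) x := Psi_diff (VRep_coord hv.smooth 0) x
    have hd1 : DifferentiableAt ℝ (fun y => v y 1) x := Psi_diff (VRep_coord hv.smooth 1) x
    have b1 : pd 2 (radFlux v) x = x 0 * fderiv ℝ v x (e 2) 0 + x 1 * fderiv ℝ v x (e 2) 1 := by
      have b2 : radFlux v = fun y => y 0 * v y 0 + y 1 * v y 1 := rfl
      rw [b2, Psi_add (Psi_dmul (Psi_dc 0 x) hd0) (Psi_dmul (Psi_dc 1 x) hd1), Psi_mul (Psi_dc 0 x) hd0,
        Psi_mul (Psi_dc 1 x) hd1, Psi_coord, Psi_coord, pd_comp hv.smooth, pd_comp hv.smooth]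
      simp only [Fin.isValue, Fin.reduceEq, if_false]
      ring
    have b3 : rdr (fun y => v y 2) x = x 0 * fderiv ℝ v x (e 0) 2 + x 1 * fderiv ℝ v x (e 1) 2 := by
      unfold rdr
      rw [pd_comp hv.smooth, pd_comp hv.smooth]
    rw [b1, b3]
    show x 0 * (fderiv ℝ v x (e 2) 0 - fderiv ℝ v x (e 0) 2) -
      x 1 * (fderiv ℝ v x (e 1) 2 - fderiv ℝ v x (e 2) 1) = _
    ring
  have a2 : radFlux v = fun y => rsq y * (-1 * pd 2 (sP v) y) := by
    funext y
    rw [flux_eq hv, sW_sP hv]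
    ring
  have d2 : DifferentiableAt ℝ (pd 2 (sP v)) x := Psi_diff (pd_smooth hP 2) x
  have a3 : pd 2 (radFlux v) x = - (rsq x * pd 2 (pd 2 (sP v)) x) := by
    rw [a2, Psi_mul (Psi_rsq_diff x) (d2.const_mul (-1)), Psi_cm d2, Psi_rsq, if_pos rfl]
    ring
  have a4 : (fun y => v y 2) = fun y => 2 * sP v y + rdr (sP v) y := by
    funext y
    exact sP_two hv y
  have dP : DifferentiableAt ℝ (sP v) x := Psi_diff hP x
  have dR : DifferentiableAt ℝ (rdr (sP v)) x := Psi_diff (Psi_rdr_smooth hP) x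
  have a5 : rdr (fun y => v y 2) x = 2 * rdr (sP v) x + rdr (rdr (sP v)) x := by
    rw [a4]
    have b : ∀ i, pd i (fun y => 2 * sP v y + rdr (sP v) y) x = 2 * pd i (sP v) x + pd i (rdr (sP v)) x := by
      intro i
      rw [Psi_add (dP.const_mul 2) dR, Psi_cm dP]
    show x 0 * pd 0 (fun y => 2 * sP v y + rdr (sP v) y) x + x 1 * pd 1 (fun y => 2 * sP v y + rdr (sP v) y) x =
      2 * (x 0 * pd 0 (sP v) x + x 1 * pd 1 (sP v) x) +
        (x 0 * pd 0 (rdr (sP v)) x + x 1 * pd 1 (rdr (sP v)) x)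
    rw [b, b]
    ring
  have a6 := (rot_inv hP (sP_rot hv) x).2.2
  have a7 : lap (sP v) x = pd 0 (pd 0 (sP v)) x + pd 1 (pd 1 (sP v)) x + pd 2 (pd 2 (sP v)) x := by
    unfold lap
    rw [Fin.sum_univ_three]
  rw [← om_eq hv, a1, a3, a5, a6, a7]
  ring

theorem Psi_lap_mul {g : E3 → ℝ} (hg : ContDiff ℝ ∞ g) (i : Fin 3) (x : E3) :
    lap (fun y => y i * g y) x = x i * lap g x + 2 * pd i g x := by
  have dg : ∀ y, DifferentiableAt ℝ g y := fun y => Psi_diff hg y
  have dp : ∀ k y, DifferentiableAt ℝ (pd k g) y := fun k y => Psi_diff (pd_smooth hg k) y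
  have h1 : ∀ k, pd k (fun y : E3 => y i * g y) = fun y => (if i = k then 1 else 0) * g y + y i * pd k g y := by
    intro k
    funext y
    rw [Psi_mul (Psi_dc i y) (dg y), Psi_coord]
  have h2 : ∀ k, pd k (pd k (fun y : E3 => y i * g y)) x = 2 * (if i = k then pd k g x else 0) + x i * pd k (pd k g) x := by
    intro k
    rw [h1 k, Psi_add ((dg x).const_mul _) (Psi_dmul (Psi_dc i x) (dp k x)), Psi_cm (dg x),
      Psi_mul (Psi_dc i x) (dp k x), Psi_coord]
    split_ifs <;> ring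
  unfold lap
  simp only [h2]
  rw [Finset.sum_add_distrib, ← Finset.mul_sum, ← Finset.mul_sum, Finset.sum_ite_eq Finset.univ i, if_pos (Finset.mem_univ i)]
  ring

theorem sP_lap {v : E3 → E3} (hv : AxF v) (i : Fin 3) (hi : i ≠ 2) (x : E3) :
    lap (fun y => y i * sP v y) x = - (x i * sO v x) := by
  have hP := sP_smooth hv
  have hO : ContDiff ℝ ∞ (sO v) := avk_smooth (VRep_coord (curl_smooth (curl_smooth hv.smooth)) 2) 1
  have hG : ContDiff ℝ ∞ (fun y : E3 => y i * sP v y) := (VRep_x i).mul hP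
  refine Psi_off (f := lap (fun y => y i * sP v y)) (g := fun x => - (x i * sO v x)) (Psi_lap_cont hG)
    ((Psi_cont_coord i).mul hO.continuous).neg ?_ x
  intro x hx
  have h1 := Psi_lap_mul hP i x
  have h2 := sO_sP hv x
  obtain ⟨r0, r1, _⟩ := rot_inv hP (sP_rot hv) x
  have h3 : rsq x * pd i (sP v) x = x i * rdr (sP v) x := by
    have hcase : i = 0 ∨ i = 1 := by
      revert hi
      fin_cases i <;> simp
    rcases hcase with h | h
    · rw [h]
      exact r0
    · rw [h]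
      exact r1
  have h4 : rsq x * lap (fun y => y i * sP v y) x = rsq x * (- (x i * sO v x)) := by
    rw [h1]
    linear_combination 2 * h3 + x i * h2
  exact mul_left_cancel₀ hx.ne' h4

theorem adv_sP {v : E3 → E3} (hv : AxF v) {f : E3 → ℝ} (hf : ContDiff ℝ ∞ f) (hr : ∀ θ x, f (rot θ x) = f x) (x : E3) :
    adv (v x) f x = sadv (sP v) f x := by
  have hP := sP_smooth hv
  have hadv : ∀ y, adv (v y) f y = v y 0 * pd 0 f y + v y 1 * pd 1 f y + v y 2 * pd 2 f y := by
    intro y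
    unfold adv
    rw [Fin.sum_univ_three]
  refine Psi_off (f := fun x => adv (v x) f x) (g := sadv (sP v) f) ?_ ?_ ?_ x
  · simp only [hadv]
    exact (((VRep_coord hv.smooth 0).continuous.mul (pd_smooth hf 0).continuous).add
      ((VRep_coord hv.smooth 1).continuous.mul (pd_smooth hf 1).continuous)).add
      ((VRep_coord hv.smooth 2).continuous.mul (pd_smooth hf 2).continuous)
  · unfold sadv
    exact (((continuous_const.mul hP.continuous).add (Psi_rdr_cont hP)).mul (pd_smooth hf 2).continuous).sub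
      ((pd_smooth hP 2).continuous.mul (Psi_rdr_cont hf))
  · intro x hx
    obtain ⟨r0, r1, _⟩ := rot_inv hf hr x
    have h1 := flux_eq hv x
    have h2 := sW_sP hv x
    have h3 := sP_two hv x
    have h4 : radFlux v x = x 0 * v x 0 + x 1 * v x 1 := rfl
    rw [h4, h2] at h1
    have h5 : rsq x * adv (v x) f x = rsq x * sadv (sP v) f x := by
      rw [hadv]
      unfold sadv
      rw [← h3]
      linear_combination v x 0 * r0 + v x 1 * r1 + rdr f x * h1
    exact mul_left_cancel₀ hx.ne' h5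

theorem Psi_L2 {f : E3 → ℝ} (hf : Continuous f) (hint : Integrable (fun x => f x ^ 2)) :
    Integrable (fun x => avk 1 f x ^ 2) ∧ ∫ x, avk 1 f x ^ 2 ≤ ∫ x, f x ^ 2 := by
  have hc : Continuous (avk 1 f) :=
    intervalIntegral.continuous_parametric_intervalIntegral_of_continuous'
      (f := fun x s => s ^ 1 * f (sq s x)) (Avk_cont hf 1) 0 1
  have hcs : ∀ x : E3, Continuous fun s : ℝ => f (sq s x) := fun x =>
    hf.comp (VRep_sq_cont x)
  have hpt : ∀ x, avk 1 f x ^ 2 ≤ ∫ s in (0:ℝ)..1, s ^ 2 * f (sq s x) ^ 2 := by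
    intro x
    have hg : Continuous fun s : ℝ => s ^ 1 * f (sq s x) := (continuous_id.pow 1).mul (hcs x)
    refine (Avk_jensen hg).trans (le_of_eq ?_)
    refine intervalIntegral.integral_congr fun s _ => ?_
    show (s ^ 1 * f (sq s x)) ^ 2 = s ^ 2 * f (sq s x) ^ 2
    ring
  have hlint : ∫⁻ x, ENNReal.ofReal (avk 1 f x ^ 2) ≤ ENNReal.ofReal (∫ x, f x ^ 2) := by
    calc ∫⁻ x, ENNReal.ofReal (avk 1 f x ^ 2)
        ≤ ∫⁻ x, ∫⁻ s in Ioc (0:ℝ) 1, ENNReal.ofReal (s ^ 2 * f (sq s x) ^ 2) := by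
          refine lintegral_mono fun x => ?_
          have hcc : Continuous fun s : ℝ => s ^ 2 * f (sq s x) ^ 2 :=
            (continuous_id.pow 2).mul ((hcs x).pow 2)
          rw [← ofReal_integral_eq_lintegral_ofReal (hcc.intervalIntegrable 0 1).1
            (Eventually.of_forall fun s => by positivity), ← intervalIntegral.integral_of_le zero_le_one]
          exact ENNReal.ofReal_le_ofReal (hpt x)
      _ = ∫⁻ s in Ioc (0:ℝ) 1, ∫⁻ x, ENNReal.ofReal (s ^ 2 * f (sq s x) ^ 2) := by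
          refine lintegral_lintegral_swap ?_
          refine Measurable.aemeasurable ?_
          refine ENNReal.measurable_ofReal.comp (Continuous.measurable ?_)
          exact (continuous_snd.pow 2).mul ((hf.comp Avk_sq_cont).pow 2)
      _ = ∫⁻ s in Ioc (0:ℝ) 1, ∫⁻ x, ENNReal.ofReal (f x ^ 2) := by
          refine setLIntegral_congr_fun measurableSet_Ioc fun s hs => ?_
          have hG : Measurable fun x : E3 => ENNReal.ofReal (f x ^ 2) :=
            ENNReal.measurable_ofReal.comp (hf.pow 2).measurable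
          show ∫⁻ x, ENNReal.ofReal (s ^ 2 * f (sq s x) ^ 2) = ∫⁻ x, ENNReal.ofReal (f x ^ 2)
          rw [← Avk_lint hs.1 hG, ← lintegral_const_mul]
          · refine lintegral_congr fun x => ?_
            rw [ENNReal.ofReal_mul (by positivity)]
          · exact hG.comp (Avk_C s).continuous.measurable
      _ = ∫⁻ x, ENNReal.ofReal (f x ^ 2) := by
          rw [lintegral_const]
          simp
      _ = ENNReal.ofReal (∫ x, f x ^ 2) := by
          rw [ofReal_integral_eq_lintegral_ofReal hint (Eventually.of_forall fun x => sq_nonneg _)]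
  have hnn : 0 ≤ᵐ[volume] fun x => avk 1 f x ^ 2 := Eventually.of_forall fun x => sq_nonneg _
  have hi : Integrable fun x => avk 1 f x ^ 2 := by
    refine ⟨(hc.pow 2).aestronglyMeasurable, ?_⟩
    rw [hasFiniteIntegral_iff_ofReal hnn]
    exact hlint.trans_lt ENNReal.ofReal_lt_top
  refine ⟨hi, ?_⟩
  rw [← ofReal_integral_eq_lintegral_ofReal hi hnn] at hlint
  exact (ENNReal.ofReal_le_ofReal_iff (integral_nonneg fun x => sq_nonneg _)).1 hlint

theorem sP_L2 {v : E3 → E3} (hv : AxF v) (hi : Integrable (fun x => ‖v x‖ ^ 2)) :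
    Integrable (fun x => sP v x ^ 2) ∧ ∫ x, sP v x ^ 2 ≤ ∫ x, ‖v x‖ ^ 2 := by
  have hc : Continuous (fun y => v y 2) := (Psi_v2 hv).continuous
  have hle : ∀ x, v x 2 ^ 2 ≤ ‖v x‖ ^ 2 := by
    intro x
    have h : |v x 2| ≤ ‖v x‖ := PiLp.norm_apply_le (v x) 2
    rw [← sq_abs (v x 2)]
    exact pow_le_pow_left₀ (abs_nonneg _) h 2
  have h2 : Integrable (fun x => v x 2 ^ 2) := by
    refine hi.mono' (hc.pow 2).aestronglyMeasurable (Eventually.of_forall fun x => ?_)
    rw [Real.norm_eq_abs, abs_of_nonneg (sq_nonneg _)]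
    exact hle x
  obtain ⟨h3, h4⟩ := Psi_L2 hc h2
  exact ⟨h3, h4.trans (integral_mono h2 hi hle)⟩

end Pool.Agent.H72.CC
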