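/-
ROW NsC (MP_09540e_CC). The rescaled circulation satisfies Crc. PROOF. Let `X y = axp z + ρ • y` (affine, smooth, `rsq (X y) = ρ² rsq y`, `(X y) i = ρ y i` for `i = 0, 1`), `τ s = t + ρ² s ∈ (0, T)` for `s ∈ [-1, 0]` (`t - ρ² > 0`).
Chain rule: `pd i (f ∘ X) y = ρ (pd i f) (X y)` for differentiable f, so `lap (f ∘ X) = ρ² (lap f) ∘ X`, `rdr (f ∘ X) y = (rdr f) (X y)`, and `deriv (fun s => g (τ s)) s = ρ² deriv g (τ s)` (deriv_comp_add / HasDerivAt.scomp; g differentiable at τ s, or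
deriv_comp_mul_left and deriv_comp_const_add). smG: circ (u q.1) q.2 is a polynomial in the components of `u` and `x`; `u` is jointly smooth on the open set `Ioo 0 T ×ˢ univ` (smooth_u; ContDiffOn.contDiffAt), composed with the affine map `(s, y) ↦ (τ s, X y)`.
smK, smP: svw_smooth (NS/Bds1.lean), sP_smooth (axF_of). conP: `JC T (fun t => sP (u t))`: avk_JC and js_u 2, JS_JC (NS/AvkC.lean, Bds1.lean), composed with the continuous map. fac: circ_eq (NS/VRep.lean): `circ v x = rsq x * sV v x`.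
eq: circ_ns (NS/VEq.lean) at time `τ s`, point `X y`; `adv (u t x) (circ (u t)) x = sadv (sP (u t)) (circ (u t)) x` (adv_sP, circ_rot in AxId.lean); `curl₂ = 2 sV + rdr sV`: from rdr_circ `rsq curl₂ = rdr (circ v) = rdr (rsq sV) = rsq (rdr sV + 2 sV)`
(rdr_rsq), so it holds off the axis, and on the axis by continuity (axis_null / density). Then multiply by `ρ²`: `sadv (ρ P ∘ X) (Γ ∘ X) y = ρ² (sadv P Γ) (X y)`, `lap (Γ∘X) = ρ² (lap Γ)∘X`, `4 ρ² K + 2 rdr (ρ² K ∘ X) = ρ² (4 K + 2 rdr K) ∘ X`.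
-/
import Pool.Agent.H72.CC.Psi
import Pool.Agent.H87.NS.Bds1
import Pool.Agent.H87.NS.AvkC
import Pool.Agent.H87.NS.VEq

set_option autoImplicit false

open Set Filter Topology MeasureTheory
open scoped ContDiff

namespace Pool.Agent.H72.CC

open Pool.Agent.H16 Pool.Agent.H87.NS

private noncomputable def Xm (ρ z : ℝ) (y : E3) : E3 := axp z + ρ • y

private theorem Xm_zero (ρ z : ℝ) (y : E3) : Xm ρ z y 0 = ρ * y 0 := by
  simp [Xm, axp]

private theorem Xm_one (ρ z : ℝ) (y : E3) : Xm ρ z y 1 = ρ * y 1 := by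
  simp [Xm, axp]

private theorem Xm_rsq (ρ z : ℝ) (y : E3) : rsq (Xm ρ z y) = ρ ^ 2 * rsq y := by
  unfold rsq
  rw [Xm_zero, Xm_one]
  ring

private theorem Xm_smooth (ρ z : ℝ) : ContDiff ℝ ∞ (Xm ρ z) := by
  unfold Xm
  exact contDiff_const.add (contDiff_id.const_smul ρ)

private theorem Xm_deriv (ρ z : ℝ) (y : E3) :
    HasFDerivAt (Xm ρ z) (ρ • ContinuousLinearMap.id ℝ E3) y := by
  unfold Xm
  exact ((hasFDerivAt_id y).const_smul ρ).const_add (axp z)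

private theorem Xm_pd {f : E3 → ℝ} (hf : ContDiff ℝ ∞ f) (ρ z c : ℝ) (i : Fin 3) :
    pd i (fun y => c * f (Xm ρ z y)) = fun y => (c * ρ) * pd i f (Xm ρ z y) := by
  funext y
  have h1 : HasFDerivAt f (fderiv ℝ f (Xm ρ z y)) (Xm ρ z y) :=
    (hf.differentiable (by simp) _).hasFDerivAt
  have h2 := (h1.comp y (Xm_deriv ρ z y)).const_mul c
  have h3 : fderiv ℝ (fun y => c * f (Xm ρ z y)) y = _ := h2.fderiv
  unfold pd
  rw [h3]
  change c * (fderiv ℝ f (Xm ρ z y)) (ρ • e i) = _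
  rw [map_smul, smul_eq_mul]
  ring

private theorem Xm_rdr {f : E3 → ℝ} (hf : ContDiff ℝ ∞ f) (ρ z c : ℝ) (y : E3) :
    rdr (fun y => c * f (Xm ρ z y)) y = c * rdr f (Xm ρ z y) := by
  unfold rdr
  rw [Xm_pd hf, Xm_pd hf, Xm_zero, Xm_one]
  ring

private theorem Xm_lap {f : E3 → ℝ} (hf : ContDiff ℝ ∞ f) (ρ z : ℝ) (y : E3) :
    lap (fun y => 1 * f (Xm ρ z y)) y = ρ ^ 2 * lap f (Xm ρ z y) := by
  unfold lap
  rw [Finset.mul_sum]
  refine Finset.sum_congr rfl fun i _ => ?_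
  rw [Xm_pd hf, Xm_pd (pd_smooth hf i)]
  ring

private theorem Xm_sadv {P f : E3 → ℝ} (hP : ContDiff ℝ ∞ P) (hf : ContDiff ℝ ∞ f) (ρ z : ℝ)
    (y : E3) :
    sadv (fun y => ρ * P (Xm ρ z y)) (fun y => 1 * f (Xm ρ z y)) y
      = ρ ^ 2 * sadv P f (Xm ρ z y) := by
  unfold sadv
  rw [Xm_rdr hP, Xm_rdr hf, Xm_pd hf, Xm_pd hP]
  ring

theorem ns_crc {T : ℝ} {u : ℝ → E3 → E3} {p : ℝ → E3 → ℝ} (h : IsAxisymNS T u p) {t ρ : ℝ} (ht : t < T) (hρ : 0 < ρ) (hρt : ρ ^ 2 < t) (z : ℝ) :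
    Crc (fun s y => circ (u (t + ρ ^ 2 * s)) (axp z + ρ • y)) (fun s y => ρ ^ 2 * sV (u (t + ρ ^ 2 * s)) (axp z + ρ • y))
      (fun s y => ρ * sP (u (t + ρ ^ 2 * s)) (axp z + ρ • y)) := by
  have hρ2 : 0 < ρ ^ 2 := by positivity
  have hτ : ∀ s ∈ Icc (-1 : ℝ) 0, t + ρ ^ 2 * s ∈ Ioo 0 T := by
    intro s hs
    constructor
    · nlinarith [hs.1]
    · nlinarith [hs.2]
  have hτ' : ∀ s ∈ Icc (-1 : ℝ) 0, t + ρ ^ 2 * s ∈ Ico 0 T := fun s hs =>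
    ⟨(hτ s hs).1.le, (hτ s hs).2⟩
  have hA : ContDiff ℝ ∞ (fun q : ℝ × E3 => (t + ρ ^ 2 * q.1, Xm ρ z q.2)) :=
    (contDiff_const.add (contDiff_const.mul contDiff_fst)).prodMk
      ((Xm_smooth ρ z).comp contDiff_snd)
  have hco : ∀ j : Fin 3, ∀ s ∈ Icc (-1 : ℝ) 0, ∀ x : E3,
      ContDiffAt ℝ ∞ (fun q : ℝ × E3 => u (t + ρ ^ 2 * q.1) (Xm ρ z q.2) j) (s, x) := by
    intro j s hs x
    have h1 : ContDiffAt ℝ ∞ (fun q : ℝ × E3 => u q.1 q.2 j) (t + ρ ^ 2 * s, Xm ρ z x) := by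
      have h0 : ContDiffOn ℝ ∞ (fun q : ℝ × E3 => u q.1 q.2 j) (Ico 0 T ×ˢ univ) := js_u h j
      exact h0.contDiffAt (prod_mem_nhds (Ico_mem_nhds (hτ s hs).1 (hτ s hs).2) univ_mem)
    exact ContDiffAt.comp (s, x) (g := fun q : ℝ × E3 => u q.1 q.2 j)
      (f := fun q : ℝ × E3 => (t + ρ ^ 2 * q.1, Xm ρ z q.2)) h1 hA.contDiffAt
  have hXj : ∀ j : Fin 3, ContDiff ℝ ∞ (fun q : ℝ × E3 => Xm ρ z q.2 j) := fun j =>
    (EuclideanSpace.proj j : E3 →L[ℝ] ℝ).contDiff.comp ((Xm_smooth ρ z).comp contDiff_snd)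
  refine ⟨?_, ?_, ?_, ?_, ?_, ?_⟩
  · intro s hs x
    exact ((hXj 0).contDiffAt.mul (hco 1 s hs x)).sub ((hXj 1).contDiffAt.mul (hco 0 s hs x))
  · intro s hs
    exact contDiff_const.mul ((svw_smooth h (hτ' s hs)).1.comp (Xm_smooth ρ z))
  · intro s hs
    exact contDiff_const.mul ((sP_smooth (axF_of h (hτ' s hs))).comp (Xm_smooth ρ z))
  · have h1 : JC T (fun t => sP (u t)) := avk_JC (JS_JC (js_u h 2)) 1
    have h2 : ContinuousOn (fun q : ℝ × E3 => sP (u (t + ρ ^ 2 * q.1)) (Xm ρ z q.2))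
        (Icc (-1) 0 ×ˢ univ) :=
      ContinuousOn.comp (g := fun q : ℝ × E3 => sP (u q.1) q.2)
        (f := fun q : ℝ × E3 => (t + ρ ^ 2 * q.1, Xm ρ z q.2)) h1 hA.continuous.continuousOn
        (fun q hq => ⟨hτ' q.1 hq.1, mem_univ _⟩)
    exact continuousOn_const.mul h2
  · intro s hs x
    change circ (u (t + ρ ^ 2 * s)) (Xm ρ z x) = rsq x * (ρ ^ 2 * sV (u (t + ρ ^ 2 * s)) (Xm ρ z x))
    rw [circ_eq (axF_of h (hτ' s hs)), Xm_rsq]
    ring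
  · intro s hs x
    have hs' : s ∈ Icc (-1 : ℝ) 0 := ⟨hs.1.le, hs.2.le⟩
    have hax := axF_of h (hτ' s hs')
    have hsm := h.slice (hτ' s hs')
    have hci : ContDiff ℝ ∞ (circ (u (t + ρ ^ 2 * s))) := VRep_circ_smooth hsm
    have hP := sP_smooth hax
    have hK := (svw_smooth h (hτ' s hs')).1
    have e1 := circ_ns h (hτ s hs') (Xm ρ z x)
    have e2 := adv_sP hax hci (circ_rot hax) (Xm ρ z x)
    have e3 : curl (u (t + ρ ^ 2 * s)) (Xm ρ z x) 2 =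
        2 * sV (u (t + ρ ^ 2 * s)) (Xm ρ z x) + rdr (sV (u (t + ρ ^ 2 * s))) (Xm ρ z x) :=
      sP_two (curl_axF hax) (Xm ρ z x)
    have e4 := Xm_sadv hP hci ρ z x
    have e5 := Xm_lap hci ρ z x
    have e6 := Xm_rdr hK ρ z (ρ ^ 2) x
    simp only [one_mul] at e4 e5
    have hd : DifferentiableAt ℝ (fun r => circ (u r) (Xm ρ z x)) (t + ρ ^ 2 * s) := by
      have hc : ∀ j : Fin 3, DifferentiableAt ℝ (fun r => u r (Xm ρ z x) j) (t + ρ ^ 2 * s) := by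
        intro j
        have h0 : ContDiffOn ℝ ∞ (fun q : ℝ × E3 => u q.1 q.2 j) (Ico 0 T ×ˢ univ) := js_u h j
        have h1 : ContDiffAt ℝ ∞ (fun q : ℝ × E3 => u q.1 q.2 j) (t + ρ ^ 2 * s, Xm ρ z x) :=
          h0.contDiffAt (prod_mem_nhds (Ico_mem_nhds (hτ s hs').1 (hτ s hs').2) univ_mem)
        have h2 : DifferentiableAt ℝ (fun q : ℝ × E3 => u q.1 q.2 j)
            (t + ρ ^ 2 * s, Xm ρ z x) := h1.differentiableAt (by simp)
        have h3 : DifferentiableAt ℝ (fun r : ℝ => (r, Xm ρ z x)) (t + ρ ^ 2 * s) := by fun_prop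
        exact DifferentiableAt.comp (f := fun r : ℝ => (r, Xm ρ z x)) _ h2 h3
      exact ((hc 1).const_mul _).sub ((hc 0).const_mul _)
    have hd2 : HasDerivAt (fun r : ℝ => t + ρ ^ 2 * r) (ρ ^ 2) s := by
      have := ((hasDerivAt_id s).const_mul (ρ ^ 2)).const_add t
      rwa [mul_one] at this
    have e7 : deriv (fun r => circ (u (t + ρ ^ 2 * r)) (Xm ρ z x)) s =
        deriv (fun r => circ (u r) (Xm ρ z x)) (t + ρ ^ 2 * s) * ρ ^ 2 :=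
      (HasDerivAt.comp s (h₂ := fun r => circ (u r) (Xm ρ z x))
        (h := fun r : ℝ => t + ρ ^ 2 * r) hd.hasDerivAt hd2).deriv
    change deriv (fun r => circ (u (t + ρ ^ 2 * r)) (Xm ρ z x)) s +
      sadv (fun y => ρ * sP (u (t + ρ ^ 2 * s)) (Xm ρ z y))
        (fun y => circ (u (t + ρ ^ 2 * s)) (Xm ρ z y)) x =
      lap (fun y => circ (u (t + ρ ^ 2 * s)) (Xm ρ z y)) x -
        4 * (ρ ^ 2 * sV (u (t + ρ ^ 2 * s)) (Xm ρ z x)) -
        2 * rdr (fun y => ρ ^ 2 * sV (u (t + ρ ^ 2 * s)) (Xm ρ z y)) x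
    rw [e4, e5, e6, e7]
    rw [e2, e3] at e1
    linear_combination ρ ^ 2 * e1

end Pool.Agent.H72.CC
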