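/-
ROW EnS (MP_09540e_CC). The energy identity at a fixed time. PROOF. `f = F ∘ G` is smooth, `pd i f = F'(G) pd i G`, `lap f = F'(G) lap G + F''(G) gsq G`, `rdr f = F'(G) rdr G`, `sadv P f = F'(G) sadv P G`, `crs f η = F'(G) crs G η`.
`rdr G = 2 rsq k + rsq rdr k` (rdr_rsq in H87/NS/Quot.lean or by hand), so `F'(G)(4 k + 2 rdr k) = 2/rsq rdr f` off the axis (a null set: axis_null). Hence the integrand is
`(lap f - F''(G) gsq G) η - 2/rsq rdr f η - sadv P f η`. Now ib_lap, ib_rdr, ib_sadv (Ib.lean). Hypothesis of ib_rdr: on the compact `tsupport η`: `|F (G)| = |F(rsq k) - F 0| ≤ L rsq |k|` (`F'` bounded on the compact range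
`[-R, R]` of `G`), `|rdr f| ≤ L rsq (2|k| + |rdr k|)`. All integrals converge: continuous with compact support, except `F(G) 2/rsq rdr η`, which is measurable, bounded and vanishes off `tsupport η`.
-/
import Pool.Agent.H72.CC.Ib
import Pool.Agent.H87.NS.Quot

set_option autoImplicit false

open Set Filter Topology MeasureTheory
open scoped ContDiff

namespace Pool.Agent.H72.CC

open Pool.Agent.H16 Pool.Agent.H87.NS

theorem EnS_cut {g η : E3 → ℝ} (hg : Continuous g) (hη : Continuous η) (hc : HasCompactSupport η) :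
    Integrable (fun x => g x * η x) := by
  have h1 : HasCompactSupport (fun x => g x * η x) := hc.mul_left
  exact (hg.mul hη).integrable_of_hasCompactSupport h1

theorem EnS_coord (i : Fin 3) : Continuous (fun x : E3 => x i) := (LevX_coord_cd i).continuous

theorem EnS_rdr_cont {g : E3 → ℝ} (hg : ContDiff ℝ ∞ g) : Continuous (rdr g) := by
  unfold rdr
  exact ((EnS_coord 0).mul (pd_smooth hg 0).continuous).add
    ((EnS_coord 1).mul (pd_smooth hg 1).continuous)

theorem EnS_lap_cont {g : E3 → ℝ} (hg : ContDiff ℝ ∞ g) : Continuous (lap g) := by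
  unfold lap
  exact continuous_finsetSum _ fun i _ => (pd_smooth (pd_smooth hg i) i).continuous

theorem EnS_gsq_cont {g : E3 → ℝ} (hg : ContDiff ℝ ∞ g) : Continuous (gsq g) := by
  unfold gsq
  exact continuous_finsetSum _ fun i _ => (pd_smooth hg i).continuous.pow 2

theorem EnS_sadv_cont {P g : E3 → ℝ} (hP : ContDiff ℝ ∞ P) (hg : ContDiff ℝ ∞ g) :
    Continuous (sadv P g) := by
  unfold sadv
  exact (((continuous_const.mul hP.continuous).add (EnS_rdr_cont hP)).mul
    (pd_smooth hg 2).continuous).sub ((pd_smooth hP 2).continuous.mul (EnS_rdr_cont hg))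

theorem EnS_pd_supp {η : E3 → ℝ} (hc : HasCompactSupport η) (i : Fin 3) :
    HasCompactSupport (pd i η) := hc.fderiv_apply ℝ (e i)

theorem EnS_off {η : E3 → ℝ} {x : E3} (hx : x ∉ tsupport η) : rdr η x = 0 := by
  have h1 : ∀ᶠ y in 𝓝 x, η y = 0 := notMem_tsupport_iff_eventuallyEq.1 hx
  unfold rdr
  rw [LevX_pd_zero h1, LevX_pd_zero h1]
  ring

theorem EnS_bd {r R : ℝ} {D : ℝ} (hr : 0 ≤ r) (hD : 0 ≤ D) (h : |R| ≤ D * r) :
    |2 / r * R| ≤ 2 * D := by
  rcases hr.eq_or_lt with h0 | h0
  · rw [← h0]
    simpa using hD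
  · rw [abs_mul, abs_of_pos (by positivity)]
    calc 2 / r * |R| ≤ 2 / r * (D * r) := mul_le_mul_of_nonneg_left h (by positivity)
      _ = 2 * D := by field_simp

theorem enS {G k P η : E3 → ℝ} (hG : ContDiff ℝ ∞ G) (hk : ContDiff ℝ ∞ k) (hP : ContDiff ℝ ∞ P)
    (hη : ContDiff ℝ ∞ η) (hc : HasCompactSupport η) {C : ℝ} (hr : ∀ x, |rdr η x| ≤ C * rsq x)
    (hfac : ∀ x, G x = rsq x * k x) {F : ℝ → ℝ} (hF : ContDiff ℝ ∞ F) (hF0 : F 0 = 0) :
    ∫ x, deriv F (G x) * (lap G x - 4 * k x - 2 * rdr k x - sadv P G x) * η x = En F G P η := by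
  have hF1 : ContDiff ℝ ∞ (deriv F) := ((contDiff_infty_iff_deriv).1 hF).2
  have hF2 : ContDiff ℝ ∞ (deriv (deriv F)) := ((contDiff_infty_iff_deriv).1 hF1).2
  have hG1 : ContDiff ℝ 1 G := hG.of_le (by exact_mod_cast le_top)
  obtain ⟨f, hfd⟩ : ∃ f : E3 → ℝ, f = fun x => F (G x) := ⟨_, rfl⟩
  have hf : ContDiff ℝ ∞ f := by
    rw [hfd]
    exact hF.comp hG
  have hfx : ∀ x, f x = F (G x) := fun x => by rw [hfd]
  have pdf : ∀ i x, pd i f x = deriv F (G x) * pd i G x := by
    intro i x
    rw [hfd]
    exact comp_pd hG1 (hF.of_le (by exact_mod_cast le_top)) i x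
  have pdF1 : ∀ i x, pd i (fun y => deriv F (G y)) x = deriv (deriv F) (G x) * pd i G x :=
    fun i x => comp_pd hG1 (hF1.of_le (by exact_mod_cast le_top)) i x
  have ppf : ∀ i x, pd i (pd i f) x =
      deriv (deriv F) (G x) * pd i G x * pd i G x + deriv F (G x) * pd i (pd i G) x := by
    intro i x
    have h1 : pd i f = fun y => deriv F (G y) * pd i G y := funext (pdf i)
    have h2 : ContDiff ℝ ∞ (fun y => deriv F (G y)) := hF1.comp hG
    rw [h1, LevX_pd_mul ((h2.differentiable (by simp)) x)
      (((pd_smooth hG i).differentiable (by simp)) x), pdF1]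
  have lapf : ∀ x, lap f x = deriv (deriv F) (G x) * gsq G x + deriv F (G x) * lap G x := by
    intro x
    unfold lap gsq
    rw [Fin.sum_univ_three, Fin.sum_univ_three, Fin.sum_univ_three, ppf, ppf, ppf]
    ring
  have rdrf : ∀ x, rdr f x = deriv F (G x) * rdr G x := by
    intro x
    unfold rdr
    rw [pdf, pdf]
    ring
  have sadvf : ∀ x, sadv P f x = deriv F (G x) * sadv P G x := by
    intro x
    unfold sadv
    rw [rdrf, pdf]
    ring
  have crsf : ∀ x, crs f η x = deriv F (G x) * crs G η x := by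
    intro x
    unfold crs
    rw [rdrf, pdf]
    ring
  have rdrG : ∀ x, rdr G x = rsq x * rdr k x + 2 * rsq x * k x := by
    intro x
    have h1 : G = fun y => rsq y * k y := funext hfac
    rw [h1]
    exact rdr_rsq hk x
  have hrsq0 : ∀ x : E3, 0 ≤ rsq x := fun x => by
    unfold rsq
    positivity
  have cη := hη.continuous
  -- constants on the support
  obtain ⟨R, hR⟩ := IsCompact.exists_bound_of_continuousOn (s := tsupport η) hc
    hG.continuous.continuousOn
  obtain ⟨L, hL⟩ := IsCompact.exists_bound_of_continuousOn (s := Icc (-R) R) isCompact_Icc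
    hF1.continuous.continuousOn
  obtain ⟨M, hM⟩ := IsCompact.exists_bound_of_continuousOn (s := tsupport η) hc
    hk.continuous.continuousOn
  obtain ⟨M', hM'⟩ := IsCompact.exists_bound_of_continuousOn (s := tsupport η) hc
    (EnS_rdr_cont hk).continuousOn
  simp only [Real.norm_eq_abs] at hR hL hM hM'
  obtain ⟨D, hD⟩ : ∃ D, D = max |C| (|L| * (|M'| + 2 * |M|)) := ⟨_, rfl⟩
  have hD0 : 0 ≤ D := by
    rw [hD]
    exact le_max_of_le_left (abs_nonneg _)
  have hD1 : |C| ≤ D := by
    rw [hD]
    exact le_max_left _ _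
  have hD2 : |L| * (|M'| + 2 * |M|) ≤ D := by
    rw [hD]
    exact le_max_right _ _
  have hr' : ∀ x, |rdr η x| ≤ D * rsq x := fun x =>
    (hr x).trans (mul_le_mul_of_nonneg_right ((le_abs_self C).trans hD1) (hrsq0 x))
  have hsup : ∀ x ∈ tsupport η, |f x| ≤ D * rsq x ∧ |rdr f x| ≤ D * rsq x := by
    intro x hx
    have hRx := abs_le.1 (hR x hx)
    have hR0 : 0 ≤ R := (abs_nonneg _).trans (hR x hx)
    have hLx : |deriv F (G x)| ≤ |L| := (hL (G x) ⟨hRx.1, hRx.2⟩).trans (le_abs_self L)
    have hMx : |k x| ≤ |M| := (hM x hx).trans (le_abs_self M)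
    have hM'x : |rdr k x| ≤ |M'| := (hM' x hx).trans (le_abs_self M')
    constructor
    · have h1 := Convex.norm_image_sub_le_of_norm_deriv_le (f := F) (C := |L|)
        (s := Icc (-R) R) (x := 0) (y := G x)
        (fun y _ => (hF.differentiable (by simp)) y)
        (fun y hy => by
          rw [Real.norm_eq_abs]
          exact (hL y hy).trans (le_abs_self L)) (convex_Icc _ _)
        ⟨by linarith, hR0⟩ ⟨hRx.1, hRx.2⟩
      rw [hF0, sub_zero, sub_zero, Real.norm_eq_abs, Real.norm_eq_abs, ← hfx] at h1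
      refine h1.trans ?_
      rw [hfac x, abs_mul, abs_of_nonneg (hrsq0 x)]
      calc |L| * (rsq x * |k x|) = (|L| * |k x|) * rsq x := by ring
        _ ≤ D * rsq x := by
            refine mul_le_mul_of_nonneg_right (le_trans ?_ hD2) (hrsq0 x)
            refine mul_le_mul_of_nonneg_left ?_ (abs_nonneg _)
            have := abs_nonneg M'
            have := abs_nonneg M
            linarith
    · rw [rdrf, rdrG, abs_mul]
      have h2 : |rsq x * rdr k x + 2 * rsq x * k x| ≤ (|M'| + 2 * |M|) * rsq x := by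
        have e : rsq x * rdr k x + 2 * rsq x * k x = rsq x * (rdr k x + 2 * k x) := by ring
        rw [e, abs_mul, abs_of_nonneg (hrsq0 x), mul_comm]
        refine mul_le_mul_of_nonneg_right ((abs_add_le _ _).trans ?_) (hrsq0 x)
        rw [abs_mul, abs_of_pos (by norm_num : (0 : ℝ) < 2)]
        linarith
      calc |deriv F (G x)| * |rsq x * rdr k x + 2 * rsq x * k x|
          ≤ |L| * ((|M'| + 2 * |M|) * rsq x) :=
            mul_le_mul hLx h2 (abs_nonneg _) (abs_nonneg _)
        _ = |L| * (|M'| + 2 * |M|) * rsq x := by ring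
        _ ≤ D * rsq x := mul_le_mul_of_nonneg_right hD2 (hrsq0 x)
  -- the integrations by parts
  have A1 := (ib_lap hf hη hc).2
  have A2 := ib_sadv hP hf hη hc
  have A3 := ib_rdr hf hη hc hsup hr'
  -- integrability
  have I1 : Integrable (fun x => lap f x * η x) := EnS_cut (EnS_lap_cont hf) cη hc
  have I2 : Integrable (fun x => deriv (deriv F) (G x) * gsq G x * η x) :=
    EnS_cut ((hF2.continuous.comp hG.continuous).mul (EnS_gsq_cont hG)) cη hc
  have I3' : Integrable (fun x => deriv F (G x) * (4 * k x + 2 * rdr k x) * η x) :=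
    EnS_cut ((hF1.continuous.comp hG.continuous).mul ((continuous_const.mul hk.continuous).add
      (continuous_const.mul (EnS_rdr_cont hk)))) cη hc
  have k3 : ∀ᵐ x : E3, deriv F (G x) * (4 * k x + 2 * rdr k x) * η x =
      2 / rsq x * rdr f x * η x := by
    filter_upwards [axis_null] with x hx
    have hr : rsq x ≠ 0 := (rsq_pos hx).ne'
    rw [rdrf, rdrG]
    field_simp
    ring
  have I3 : Integrable (fun x => 2 / rsq x * rdr f x * η x) := I3'.congr k3
  have I4 : Integrable (fun x => sadv P f x * η x) := EnS_cut (EnS_sadv_cont hP hf) cη hc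
  have I5 : Integrable (fun x => f x * lap η x) := by
    have e1 : (fun x => f x * lap η x) = fun x => ∑ i : Fin 3, f x * pd i (pd i η) x := by
      funext x
      unfold lap
      rw [Finset.mul_sum]
    rw [e1]
    exact integrable_finsetSum _ fun i _ => EnS_cut hf.continuous
      (pd_smooth (pd_smooth hη i) i).continuous (EnS_pd_supp (EnS_pd_supp hc i) i)
  have I6 : Integrable (fun x => f x * (2 / rsq x * rdr η x)) := by
    have g1 : Integrable ((tsupport η).indicator (fun x => |f x| * (2 * D))) := by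
      refine IntegrableOn.integrable_indicator ?_ (isClosed_tsupport η).measurableSet
      exact ContinuousOn.integrableOn_compact hc
        (hf.continuous.abs.mul continuous_const).continuousOn
    refine g1.mono' ?_ (Eventually.of_forall fun x => ?_)
    · exact (hf.continuous.measurable.mul ((measurable_const.div
        LevX_rsq_cd.continuous.measurable).mul (EnS_rdr_cont hη).measurable)).aestronglyMeasurable
    · by_cases hx : x ∈ tsupport η
      · rw [Set.indicator_of_mem hx, Real.norm_eq_abs, abs_mul]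
        exact mul_le_mul_of_nonneg_left (EnS_bd (hrsq0 x) hD0 (hr' x)) (abs_nonneg _)
      · rw [Set.indicator_of_notMem hx, EnS_off hx]
        simp
  have I7 : Integrable (fun x => P x * crs f η x) := by
    have e1 : (fun x => P x * crs f η x) = fun x => P x * pd 2 f x * x 0 * pd 0 η x +
        P x * pd 2 f x * x 1 * pd 1 η x - P x * rdr f x * pd 2 η x := by
      funext x
      unfold crs
      rw [show rdr η x = x 0 * pd 0 η x + x 1 * pd 1 η x from rfl]
      ring
    rw [e1]
    have c1 : Continuous (fun x => P x * pd 2 f x) := hP.continuous.mul (pd_smooth hf 2).continuous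
    exact ((EnS_cut (c1.mul (EnS_coord 0)) (pd_smooth hη 0).continuous (EnS_pd_supp hc 0)).add
      (EnS_cut (c1.mul (EnS_coord 1)) (pd_smooth hη 1).continuous (EnS_pd_supp hc 1))).sub
      (EnS_cut (hP.continuous.mul (EnS_rdr_cont hf)) (pd_smooth hη 2).continuous
        (EnS_pd_supp hc 2))
  -- the left side
  have key : ∀ᵐ x : E3, deriv F (G x) * (lap G x - 4 * k x - 2 * rdr k x - sadv P G x) * η x =
      lap f x * η x - deriv (deriv F) (G x) * gsq G x * η x - 2 / rsq x * rdr f x * η x -
        sadv P f x * η x := by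
    filter_upwards [k3] with x hx
    rw [← hx, lapf, sadvf]
    ring
  have J1 : Integrable (fun x => lap f x * η x - deriv (deriv F) (G x) * gsq G x * η x) := I1.sub I2
  have J2 : Integrable (fun x => lap f x * η x - deriv (deriv F) (G x) * gsq G x * η x -
      2 / rsq x * rdr f x * η x) := J1.sub I3
  rw [integral_congr_ae key, integral_sub J2 I4, integral_sub J1 I3, integral_sub I1 I2, A1, A2, A3]
  -- the right side
  have eR : En F G P η = ∫ x, (-(deriv (deriv F) (G x) * gsq G x * η x) + (f x * lap η x +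
      (f x * (2 / rsq x * rdr η x) + P x * crs f η x))) := by
    unfold En
    congr 1
    funext x
    rw [crsf, hfx]
    ring
  have K0 : Integrable (fun x => -(deriv (deriv F) (G x) * gsq G x * η x)) := I2.neg
  have K1 : Integrable (fun x => f x * (2 / rsq x * rdr η x) + P x * crs f η x) := I6.add I7
  have K2 : Integrable (fun x => f x * lap η x +
      (f x * (2 / rsq x * rdr η x) + P x * crs f η x)) := I5.add K1
  rw [eR, integral_add K0 K2, integral_add I5 K1, integral_add I6 I7, integral_neg]
  ring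

end Pool.Agent.H72.CC
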