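/-
ROW EnT (MP_09540e_CC). Time regularity. PROOF. From smG: `Γ` and all its derivatives (in `t` and `x`) are continuous at the points of `[-1,0] × ℝ³`: for `q₀ = (t,x)` the map is `C^∞` in a neighbourhood of `q₀`, so
`fun q => fderiv ℝ (uncurry Γ) q` is continuous at `q₀`; `pd i (Γ t) x = fderiv (uncurry Γ) (t,x) (0, e i)`, `deriv (fun s => Γ s x) t = fderiv (uncurry Γ) (t,x) (1, 0)`. This gives crc_cont.
int_cont: dominated convergence with the constant bound on the compact `[-1,0] × closedBall 0 R` (continuousOn_of_dominated, or continuousWithinAt_of_dominated).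
enT_deriv: hasDerivAt_integral_of_dominated_loc_of_deriv_le with a ball around `t` inside `(-1,0)` and the bound `sup |F'(Γ) ∂_t Γ η|` on a compact set, times the indicator of `tsupport η`.
enT_En: the three terms; the middle one is `F(Γ) (lap η + 2/rsq rdr η)` with a fixed bounded measurable compactly supported factor. crs is a polynomial in `x₀, x₁`, `pd i Γ`, `pd i η`.
-/
import Pool.Agent.H72.CC.Defs

set_option autoImplicit false

open Set Filter Topology MeasureTheory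
open scoped ContDiff

namespace Pool.Agent.H72.CC

open Pool.Agent.H16 Pool.Agent.H87.NS

variable {Γ K P : ℝ → E3 → ℝ}

private theorem EnT_fd (h : Crc Γ K P) {t : ℝ} (ht : t ∈ Icc (-1 : ℝ) 0) (x : E3) :
    HasFDerivAt (fun q : ℝ × E3 => Γ q.1 q.2) (fderiv ℝ (fun q : ℝ × E3 => Γ q.1 q.2) (t, x)) (t, x) :=
  ((h.smG t ht x).differentiableAt (by simp)).hasFDerivAt

private theorem EnT_pd (h : Crc Γ K P) {t : ℝ} (ht : t ∈ Icc (-1 : ℝ) 0) (x : E3) (i : Fin 3) :
    pd i (Γ t) x = fderiv ℝ (fun q : ℝ × E3 => Γ q.1 q.2) (t, x) (0, e i) := by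
  have h1 : HasFDerivAt (Γ t) ((fderiv ℝ (fun q : ℝ × E3 => Γ q.1 q.2) (t, x)).comp
      (ContinuousLinearMap.inr ℝ ℝ E3)) x :=
    (EnT_fd h ht x).comp x (hasFDerivAt_prodMk_right t x)
  unfold pd
  rw [h1.fderiv]
  rfl

private theorem EnT_dt (h : Crc Γ K P) {t : ℝ} (ht : t ∈ Icc (-1 : ℝ) 0) (x : E3) :
    HasDerivAt (fun s => Γ s x) (fderiv ℝ (fun q : ℝ × E3 => Γ q.1 q.2) (t, x) (1, 0)) t := by
  have h1 : HasFDerivAt (fun s : ℝ => Γ s x) ((fderiv ℝ (fun q : ℝ × E3 => Γ q.1 q.2) (t, x)).comp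
      (ContinuousLinearMap.inl ℝ ℝ E3)) t :=
    HasFDerivAt.comp (g := fun q : ℝ × E3 => Γ q.1 q.2) (f := fun s : ℝ => (s, x)) t (EnT_fd h ht x)
      (hasFDerivAt_prodMk_left (𝕜 := ℝ) t x)
  have h2 := h1.hasDerivAt
  exact h2

private theorem EnT_fdc (h : Crc Γ K P) (v : ℝ × E3) :
    ContinuousOn (fun q : ℝ × E3 => fderiv ℝ (fun q : ℝ × E3 => Γ q.1 q.2) q v) (Icc (-1) 0 ×ˢ univ) := by
  intro q hq
  have h1 : ContDiffAt ℝ 0 (fderiv ℝ (fun q : ℝ × E3 => Γ q.1 q.2)) q :=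
    (h.smG q.1 hq.1 q.2).fderiv_right (m := 0) (by simp)
  exact (h1.continuousAt.clm_apply continuousAt_const).continuousWithinAt

theorem crc_cont (h : Crc Γ K P) : ContinuousOn (fun q : ℝ × E3 => Γ q.1 q.2) (Icc (-1) 0 ×ˢ univ) ∧
    (∀ i, ContinuousOn (fun q : ℝ × E3 => pd i (Γ q.1) q.2) (Icc (-1) 0 ×ˢ univ)) ∧
    ∀ t ∈ Icc (-1 : ℝ) 0, ContDiff ℝ ∞ (Γ t) := by
  refine ⟨fun q hq => (h.smG q.1 hq.1 q.2).continuousAt.continuousWithinAt, fun i => ?_, fun t ht => ?_⟩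
  · refine (EnT_fdc h (0, e i)).congr fun q hq => ?_
    exact EnT_pd h hq.1 q.2 i
  · rw [contDiff_iff_contDiffAt]
    intro x
    have h1 : ContDiffAt ℝ ∞ (fun y : E3 => (t, y)) x := (contDiff_const.prodMk contDiff_id).contDiffAt
    exact (h.smG t ht x).comp x h1

private theorem EnT_slice {Φ : ℝ → E3 → ℝ} (hΦ : ContinuousOn (fun q : ℝ × E3 => Φ q.1 q.2) (Icc (-1) 0 ×ˢ univ))
    {t : ℝ} (ht : t ∈ Icc (-1 : ℝ) 0) : Continuous (Φ t) := by
  rw [← continuousOn_univ]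
  exact hΦ.comp (f := fun x : E3 => (t, x)) (by fun_prop) fun x _ => ⟨ht, mem_univ _⟩

private theorem EnT_slice' {Φ : ℝ → E3 → ℝ} (hΦ : ContinuousOn (fun q : ℝ × E3 => Φ q.1 q.2) (Icc (-1) 0 ×ˢ univ))
    (x : E3) : ContinuousOn (fun t => Φ t x) (Icc (-1) 0) :=
  hΦ.comp (f := fun t : ℝ => (t, x)) (by fun_prop) fun t ht => ⟨ht, mem_univ _⟩

private theorem EnT_bd {Φ : ℝ → E3 → ℝ} (hΦ : ContinuousOn (fun q : ℝ × E3 => Φ q.1 q.2) (Icc (-1) 0 ×ˢ univ))
    (R : ℝ) : ∃ C : ℝ, 0 ≤ C ∧ ∀ t ∈ Icc (-1 : ℝ) 0, ∀ x ∈ Metric.closedBall (0 : E3) R, |Φ t x| ≤ C := by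
  have hc : IsCompact (Icc (-1 : ℝ) 0 ×ˢ Metric.closedBall (0 : E3) R) :=
    isCompact_Icc.prod (isCompact_closedBall _ _)
  obtain ⟨C, hC⟩ := hc.exists_bound_of_continuousOn (hΦ.mono (prod_mono le_rfl (subset_univ _)))
  refine ⟨max C 0, le_max_right _ _, fun t ht x hx => ?_⟩
  exact (hC (t, x) ⟨ht, hx⟩).trans (le_max_left _ _)

private theorem EnT_int {Φ Ψ : ℝ → E3 → ℝ} (hΦ : ContinuousOn (fun q : ℝ × E3 => Φ q.1 q.2) (Icc (-1) 0 ×ˢ univ))
    (hΨ : ContinuousOn (fun q : ℝ × E3 => Ψ q.1 q.2) (Icc (-1) 0 ×ˢ univ)) {w : E3 → ℝ} (hw : Measurable w)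
    {R Cw : ℝ} {S : Set E3} (hS : MeasurableSet S) (hSb : S ⊆ Metric.closedBall 0 R) (hwb : ∀ x ∈ S, |w x| ≤ Cw) :
    ContinuousOn (fun t => ∫ x in S, (Φ t x + Ψ t x * w x)) (Icc (-1) 0) := by
  obtain ⟨C1, hC1, h1⟩ := EnT_bd hΦ R
  obtain ⟨C2, hC2, h2⟩ := EnT_bd hΨ R
  have hfin : volume S < ⊤ := (measure_mono hSb).trans_lt (isCompact_closedBall _ _).measure_lt_top
  haveI : IsFiniteMeasure (volume.restrict S) := ⟨by rwa [Measure.restrict_apply_univ]⟩
  refine continuousOn_of_dominated (bound := fun _ => C1 + C2 * Cw) ?_ ?_ (integrable_const _) ?_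
  · intro t ht
    have c1 := EnT_slice hΦ ht
    have c2 := EnT_slice hΨ ht
    exact (c1.measurable.add (c2.measurable.mul hw)).aestronglyMeasurable
  · intro t ht
    refine (ae_restrict_iff' hS).2 (Eventually.of_forall fun x hx => ?_)
    rw [Real.norm_eq_abs]
    refine (abs_add_le _ _).trans (add_le_add (h1 t ht x (hSb hx)) ?_)
    rw [abs_mul]
    exact mul_le_mul (h2 t ht x (hSb hx)) (hwb x hx) (abs_nonneg _) hC2
  · refine Eventually.of_forall fun x => ?_
    exact (EnT_slice' hΦ x).add ((EnT_slice' hΨ x).mul continuousOn_const)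

theorem int_cont {Φ : ℝ → E3 → ℝ} (hΦ : ContinuousOn (fun q : ℝ × E3 => Φ q.1 q.2) (Icc (-1) 0 ×ˢ univ)) {S : Set E3}
    (hS : MeasurableSet S) (hSb : S ⊆ Metric.closedBall 0 1) : ContinuousOn (fun t => ∫ x in S, Φ t x) (Icc (-1) 0) := by
  have h := EnT_int (Ψ := fun _ _ => 0) hΦ continuousOn_const (w := fun _ => 0) measurable_const (Cw := 0) hS hSb
    (fun x _ => by simp)
  simpa using h

/-- a compactly supported integrand: the integral is over a ball -/
private theorem EnT_ball {η : E3 → ℝ} (hc : HasCompactSupport η) : ∃ R : ℝ,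
    ∀ f : E3 → ℝ, (∀ x, x ∉ tsupport η → f x = 0) → ∫ x, f x = ∫ x in Metric.closedBall (0 : E3) R, f x := by
  obtain ⟨R, hR⟩ := hc.isCompact.isBounded.subset_closedBall (0 : E3)
  refine ⟨R, fun f hf => ?_⟩
  exact (setIntegral_eq_integral_of_forall_compl_eq_zero fun x hx => hf x fun h => hx (hR h)).symm

theorem enT_cont (h : Crc Γ K P) {F : ℝ → ℝ} (hF : ContDiff ℝ ∞ F) {η : E3 → ℝ} (hη : ContDiff ℝ ∞ η)
    (hc : HasCompactSupport η) : ContinuousOn (fun t => ∫ x, F (Γ t x) * η x) (Icc (-1) 0) := by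
  obtain ⟨R, hR⟩ := EnT_ball hc
  have h1 : ContinuousOn (fun q : ℝ × E3 => F (Γ q.1 q.2) * η q.2) (Icc (-1) 0 ×ˢ univ) :=
    (hF.continuous.comp_continuousOn (crc_cont h).1).mul (hη.continuous.comp continuous_snd).continuousOn
  have h2 := EnT_int (Φ := fun t x => F (Γ t x) * η x) (Ψ := fun _ _ => 0) h1 continuousOn_const
    (w := fun _ => 0) measurable_const (Cw := 0) (S := Metric.closedBall (0 : E3) R) measurableSet_closedBall
    le_rfl (fun x _ => by simp)
  refine h2.congr fun t _ => ?_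
  change ∫ x, F (Γ t x) * η x = ∫ x in Metric.closedBall (0 : E3) R, (F (Γ t x) * η x + 0 * 0)
  rw [hR _ fun x hx => by rw [image_eq_zero_of_notMem_tsupport hx, mul_zero]]
  simp

theorem enT_deriv (h : Crc Γ K P) {F : ℝ → ℝ} (hF : ContDiff ℝ ∞ F) {η : E3 → ℝ} (hη : ContDiff ℝ ∞ η)
    (hc : HasCompactSupport η) {t : ℝ} (ht : t ∈ Ioo (-1 : ℝ) 0) :
    HasDerivAt (fun t => ∫ x, F (Γ t x) * η x) (∫ x, deriv F (Γ t x) * deriv (fun s => Γ s x) t * η x) t := by
  obtain ⟨R, hR⟩ := EnT_ball hc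
  have hF1 : Continuous (deriv F) := (hF.continuous_deriv (by simp))
  set D : ℝ → E3 → ℝ := fun s x => fderiv ℝ (fun q : ℝ × E3 => Γ q.1 q.2) (s, x) (1, 0) with hD
  have hDc : ContinuousOn (fun q : ℝ × E3 => D q.1 q.2) (Icc (-1) 0 ×ˢ univ) := EnT_fdc h (1, 0)
  have hηc : ContinuousOn (fun q : ℝ × E3 => η q.2) (Icc (-1) 0 ×ˢ univ) :=
    (hη.continuous.comp continuous_snd).continuousOn
  have c1 : ContinuousOn (fun q : ℝ × E3 => F (Γ q.1 q.2) * η q.2) (Icc (-1) 0 ×ˢ univ) :=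
    (hF.continuous.comp_continuousOn (crc_cont h).1).mul hηc
  have c2 : ContinuousOn (fun q : ℝ × E3 => deriv F (Γ q.1 q.2) * D q.1 q.2 * η q.2) (Icc (-1) 0 ×ˢ univ) :=
    ((hF1.comp_continuousOn (crc_cont h).1).mul hDc).mul hηc
  obtain ⟨C, hC, hb⟩ := EnT_bd (Φ := fun s x => deriv F (Γ s x) * D s x * η x) c2 R
  have hIcc : Icc (-1 : ℝ) 0 ∈ 𝓝 t := Icc_mem_nhds ht.1 ht.2
  have htI : t ∈ Icc (-1 : ℝ) 0 := ⟨ht.1.le, ht.2.le⟩
  haveI : IsFiniteMeasure (volume.restrict (Metric.closedBall (0 : E3) R)) :=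
    ⟨by rw [Measure.restrict_apply_univ]; exact (isCompact_closedBall _ _).measure_lt_top⟩
  have key := hasDerivAt_integral_of_dominated_loc_of_deriv_le
    (μ := volume.restrict (Metric.closedBall (0 : E3) R)) (x₀ := t) (s := Icc (-1 : ℝ) 0)
    (F := fun s x => F (Γ s x) * η x) (F' := fun s x => deriv F (Γ s x) * D s x * η x) (bound := fun _ => C)
    hIcc
    (by
      filter_upwards [hIcc] with s hs
      exact (EnT_slice (Φ := fun s x => F (Γ s x) * η x) c1 hs).aestronglyMeasurable)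
    ((EnT_slice (Φ := fun s x => F (Γ s x) * η x) c1 htI).continuousOn.integrableOn_compact
      (isCompact_closedBall _ _))
    ((EnT_slice (Φ := fun s x => deriv F (Γ s x) * D s x * η x) c2 htI).aestronglyMeasurable)
    (by
      refine (ae_restrict_iff' measurableSet_closedBall).2 (Eventually.of_forall fun x hx s hs => ?_)
      rw [Real.norm_eq_abs]
      exact hb s hs x hx)
    (integrable_const _)
    (by
      refine Eventually.of_forall fun x s hs => ?_
      have h1 : HasDerivAt F (deriv F (Γ s x)) (Γ s x) :=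
        (hF.differentiable (by simp)).differentiableAt.hasDerivAt
      exact (h1.comp s (EnT_dt h hs x)).mul_const (η x))
  have e1 : (fun s => ∫ x, F (Γ s x) * η x) =
      fun s => ∫ x in Metric.closedBall (0 : E3) R, F (Γ s x) * η x := by
    funext s
    exact hR _ fun x hx => by rw [image_eq_zero_of_notMem_tsupport hx, mul_zero]
  have e2 : ∫ x, deriv F (Γ t x) * deriv (fun s => Γ s x) t * η x =
      ∫ x in Metric.closedBall (0 : E3) R, deriv F (Γ t x) * D t x * η x := by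
    rw [hR _ fun x hx => by rw [image_eq_zero_of_notMem_tsupport hx, mul_zero]]
    refine setIntegral_congr_fun measurableSet_closedBall fun x _ => ?_
    change deriv F (Γ t x) * deriv (fun s => Γ s x) t * η x = deriv F (Γ t x) * D t x * η x
    rw [(EnT_dt h htI x).deriv]
  rw [e1, e2]
  exact key.2

private theorem EnT_pd0 {η : E3 → ℝ} (i : Fin 3) {x : E3} (hx : x ∉ tsupport η) : pd i η x = 0 := by
  unfold pd
  rw [fderiv_of_notMem_tsupport ℝ hx]
  rfl

private theorem EnT_lap0 {η : E3 → ℝ} {x : E3} (hx : x ∉ tsupport η) : lap η x = 0 := by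
  unfold lap
  refine Finset.sum_eq_zero fun i _ => ?_
  refine EnT_pd0 i fun h => hx ?_
  refine closure_minimal ?_ (isClosed_tsupport η) h
  intro y hy
  by_contra hy'
  exact hy (EnT_pd0 i hy')

private theorem EnT_rsq_cont : Continuous rsq := by
  unfold rsq
  fun_prop

private theorem EnT_rdr_cont {η : E3 → ℝ} (hη : ContDiff ℝ ∞ η) : Continuous (rdr η) := by
  have h1 := pd_cont (hη.of_le (by simp) : ContDiff ℝ 1 η)
  unfold rdr
  have h2 := h1 0
  have h3 := h1 1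
  fun_prop

theorem enT_En (h : Crc Γ K P) {F : ℝ → ℝ} (hF : ContDiff ℝ ∞ F) {η : E3 → ℝ} (hη : ContDiff ℝ ∞ η)
    (hc : HasCompactSupport η) {C : ℝ} (hr : ∀ x, |rdr η x| ≤ C * rsq x) :
    ContinuousOn (fun t => En F (Γ t) (P t) η) (Icc (-1) 0) := by
  obtain ⟨R, hR⟩ := EnT_ball hc
  obtain ⟨cG, cpd, _⟩ := crc_cont h
  have hη1 : ContDiff ℝ 1 η := hη.of_le (by simp)
  have hF1 : ContDiff ℝ ∞ (deriv F) := (contDiff_infty_iff_deriv.1 hF).2
  have hF2 : Continuous (deriv (deriv F)) := hF1.continuous_deriv (by simp)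
  have hlap : Continuous (lap η) := by
    unfold lap
    exact continuous_finsetSum _ fun i _ => pd_cont ((pd_smooth hη i).of_le (by simp)) i
  have hrdr := EnT_rdr_cont hη
  have hpd := pd_cont hη1
  have sn : ∀ {g : E3 → ℝ}, Continuous g → ContinuousOn (fun q : ℝ × E3 => g q.2) (Icc (-1) 0 ×ˢ univ) :=
    fun hg => (hg.comp continuous_snd).continuousOn
  have cgsq : ContinuousOn (fun q : ℝ × E3 => gsq (Γ q.1) q.2) (Icc (-1) 0 ×ˢ univ) := by
    unfold gsq
    exact continuousOn_finsetSum _ fun i _ => (cpd i).pow 2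
  have crdr : ContinuousOn (fun q : ℝ × E3 => rdr (Γ q.1) q.2) (Icc (-1) 0 ×ˢ univ) := by
    unfold rdr
    exact ((sn (g := fun x : E3 => x 0) (by fun_prop)).mul (cpd 0)).add
      ((sn (g := fun x : E3 => x 1) (by fun_prop)).mul (cpd 1))
  have ccrs : ContinuousOn (fun q : ℝ × E3 => crs (Γ q.1) η q.2) (Icc (-1) 0 ×ˢ univ) := by
    unfold crs
    exact ((cpd 2).mul (sn hrdr)).sub (crdr.mul (sn (hpd 2)))
  set w : E3 → ℝ := fun x => lap η x + 2 / rsq x * rdr η x with hw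
  have hwm : Measurable w :=
    hlap.measurable.add ((measurable_const.div EnT_rsq_cont.measurable).mul hrdr.measurable)
  obtain ⟨C1, hC1⟩ := (isCompact_closedBall (0 : E3) R).exists_bound_of_continuousOn hlap.continuousOn
  have hwb : ∀ x ∈ Metric.closedBall (0 : E3) R, |w x| ≤ C1 + 2 * |C| := by
    intro x hx
    refine (abs_add_le _ _).trans (add_le_add (hC1 x hx) ?_)
    have hr0 : 0 ≤ rsq x := by
      unfold rsq
      positivity
    rcases hr0.eq_or_lt with h0 | h0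
    · rw [← h0]
      simp
    · rw [abs_mul, abs_of_pos (div_pos two_pos h0)]
      calc 2 / rsq x * |rdr η x| ≤ 2 / rsq x * (C * rsq x) :=
            mul_le_mul_of_nonneg_left (hr x) (by positivity)
        _ = 2 * C := by field_simp
        _ ≤ 2 * |C| := by linarith [le_abs_self C]
  have cΦ : ContinuousOn (fun q : ℝ × E3 => - deriv (deriv F) (Γ q.1 q.2) * gsq (Γ q.1) q.2 * η q.2 +
      P q.1 q.2 * deriv F (Γ q.1 q.2) * crs (Γ q.1) η q.2) (Icc (-1) 0 ×ˢ univ) :=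
    (((hF2.comp_continuousOn cG).neg.mul cgsq).mul (sn hη.continuous)).add
      ((h.conP.mul (hF1.continuous.comp_continuousOn cG)).mul ccrs)
  have cΨ : ContinuousOn (fun q : ℝ × E3 => F (Γ q.1 q.2)) (Icc (-1) 0 ×ˢ univ) :=
    hF.continuous.comp_continuousOn cG
  have key := EnT_int
    (Φ := fun t x => - deriv (deriv F) (Γ t x) * gsq (Γ t) x * η x + P t x * deriv F (Γ t x) * crs (Γ t) η x)
    (Ψ := fun t x => F (Γ t x)) cΦ cΨ hwm (S := Metric.closedBall (0 : E3) R) measurableSet_closedBall le_rfl hwb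
  refine key.congr fun t _ => ?_
  change En F (Γ t) (P t) η = _
  unfold En
  rw [hR _ fun x hx => ?_]
  · refine setIntegral_congr_fun measurableSet_closedBall fun x _ => ?_
    change _ = (- deriv (deriv F) (Γ t x) * gsq (Γ t) x * η x + P t x * deriv F (Γ t x) * crs (Γ t) η x) +
      F (Γ t x) * (lap η x + 2 / rsq x * rdr η x)
    ring
  · have a1 : rdr η x = 0 := by
      unfold rdr
      rw [EnT_pd0 0 hx, EnT_pd0 1 hx]
      ring
    have a2 : crs (Γ t) η x = 0 := by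
      unfold crs
      rw [a1, EnT_pd0 2 hx]
      ring
    rw [image_eq_zero_of_notMem_tsupport hx, EnT_lap0 hx, a1, a2]
    ring

end Pool.Agent.H72.CC
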