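/-
En1. The energy identity (assembly of EnS and EnT).
-/
import Pool.Agent.H72.CC.EnS
import Pool.Agent.H72.CC.EnT

set_option autoImplicit false

open Set Filter Topology MeasureTheory
open scoped ContDiff

namespace Pool.Agent.H72.CC

open Pool.Agent.H16 Pool.Agent.H87.NS

variable {Γ K P : ℝ → E3 → ℝ}

theorem en1 (h : Crc Γ K P) {F : ℝ → ℝ} (hF : ContDiff ℝ ∞ F) (hF0 : F 0 = 0) {η : E3 → ℝ} (hη : ContDiff ℝ ∞ η)
    (hc : HasCompactSupport η) {C : ℝ} (hr : ∀ x, |rdr η x| ≤ C * rsq x) {t : ℝ} (ht : t ∈ Ioo (-1 : ℝ) 0) :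
    HasDerivAt (fun t => ∫ x, F (Γ t x) * η x) (En F (Γ t) (P t) η) t := by
  have ht' : t ∈ Icc (-1 : ℝ) 0 := ⟨ht.1.le, ht.2.le⟩
  have h1 := enT_deriv h hF hη hc ht
  have h2 := enS ((crc_cont h).2.2 t ht') (h.smK t ht') (h.smP t ht') hη hc hr (h.fac t ht') hF hF0
  rw [← h2]
  convert h1 using 1
  refine integral_congr_ae (Eventually.of_forall fun x => ?_)
  show deriv F (Γ t x) * (lap (Γ t) x - 4 * K t x - 2 * rdr (K t) x - sadv (P t) (Γ t) x) * η x =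
    deriv F (Γ t x) * deriv (fun s => Γ s x) t * η x
  have h3 := h.eq t ht x
  have h4 : lap (Γ t) x - 4 * K t x - 2 * rdr (K t) x - sadv (P t) (Γ t) x = deriv (fun s => Γ s x) t := by linarith
  rw [h4]

end Pool.Agent.H72.CC
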