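/-
ROW Ext (MP_09540e_CC). Smooth extension, and two functions (Mathlib only). PROOF of ext: `b < b' < b'' < 1` (e.g. `b' = (1+2b)/3`, `b'' = (2+b)/3`), `F s = φ s (1 - smoothTransition ((s - b')/(b'' - b')))` for `s < 1`, `0` for `s ≥ b''`. It is smooth (on
`Iio 1` as a product, near `s ≥ 1` it is 0), and `F = φ` on the open set `Iio b'`, which contains `Iic b`: all derivatives agree there (Filter.EventuallyEq.deriv_eq).
lg: `φ s = - log (1 - s) - s`: `φ' = 1/(1-s) - 1 = s/(1-s)`, `φ'' = 1/(1-s)²`, `φ'² = s² φ'' ≤ φ''` for `|s| < 1`, `φ ≥ 0` (`log (1-s) ≤ -s`). sqr: `φ s = 1 - √(1-s)`: `φ' = 1/(2√(1-s))`, `φ'' = (1/4)(1-s)^(-3/2)`,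
`φ'² = (1/4)(1-s)⁻¹ ≤ 2 φ'' = (1/2) (1-s)^(-3/2)` since `(1-s)^(1/2) ≤ √2 ≤ 2` for `|s| < 1`; `|φ| ≤ 1`.
-/
import Mathlib

set_option autoImplicit false

open Set Filter Topology MeasureTheory
open scoped ContDiff

namespace Pool.Agent.H72.CC

theorem ext {φ : ℝ → ℝ} (hφ : ContDiffOn ℝ ∞ φ (Iio 1)) {b : ℝ} (hb : b < 1) : ∃ F : ℝ → ℝ, ContDiff ℝ ∞ F ∧
    ∀ s ≤ b, F s = φ s ∧ deriv F s = deriv φ s ∧ deriv (deriv F) s = deriv (deriv φ) s := by
  obtain ⟨b1, hb1⟩ : ∃ b1 : ℝ, b1 = (1 + 2 * b) / 3 := ⟨_, rfl⟩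
  obtain ⟨b2, hb2⟩ : ∃ b2 : ℝ, b2 = (2 + b) / 3 := ⟨_, rfl⟩
  have h1 : b < b1 := by linarith
  have h2 : b1 < b2 := by linarith
  have h3 : b2 < 1 := by linarith
  have h12 : 0 < b2 - b1 := by linarith
  obtain ⟨F, hF⟩ : ∃ F : ℝ → ℝ, ∀ s, F s = if s < 1 then
      φ s * (1 - Real.smoothTransition ((s - b1) / (b2 - b1))) else 0 := ⟨_, fun _ => rfl⟩
  have hF0 : ∀ s, b2 < s → F s = 0 := by
    intro s hs
    rw [hF]
    split_ifs with h
    · rw [Real.smoothTransition.one_of_one_le, sub_self, mul_zero]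
      rw [one_le_div h12]
      linarith
    · rfl
  have hFb : ∀ s, s < b1 → F s = φ s := by
    intro s hs
    rw [hF, if_pos (by linarith), Real.smoothTransition.zero_of_nonpos, sub_zero, mul_one]
    exact div_nonpos_of_nonpos_of_nonneg (by linarith) h12.le
  refine ⟨F, ?_, ?_⟩
  · rw [contDiff_iff_contDiffAt]
    intro s
    by_cases hs : s < 1
    · have h4 : ContDiffAt ℝ ∞ (fun s => φ s * (1 - Real.smoothTransition ((s - b1) / (b2 - b1)))) s := by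
        refine (hφ.contDiffAt (Iio_mem_nhds hs)).mul (contDiffAt_const.sub ?_)
        have h5 : ContDiff ℝ ∞ (fun s : ℝ => (s - b1) / (b2 - b1)) :=
          (contDiff_id.sub contDiff_const).div_const _
        exact (Real.smoothTransition.contDiff.comp h5).contDiffAt
      refine h4.congr_of_eventuallyEq ?_
      filter_upwards [Iio_mem_nhds hs] with y hy
      have hy2 : y < 1 := hy
      rw [hF, if_pos hy2]
    · have h4 : F =ᶠ[𝓝 s] fun _ => (0:ℝ) := by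
        have h5 : b2 < s := by
          rw [not_lt] at hs
          linarith
        filter_upwards [Ioi_mem_nhds h5] with y hy
        exact hF0 y hy
      exact contDiffAt_const.congr_of_eventuallyEq h4
  · intro s hs
    have h4 : F =ᶠ[𝓝 s] φ := by
      have h5 : s < b1 := by linarith
      filter_upwards [Iio_mem_nhds h5] with y hy
      exact hFb y hy
    exact ⟨h4.eq_of_nhds, h4.deriv_eq, h4.deriv.deriv_eq⟩

/-- The logarithm. -/
theorem lg {b : ℝ} (hb : b < 1) (hb0 : 0 ≤ b) : ∃ F : ℝ → ℝ, ContDiff ℝ ∞ F ∧ F 0 = 0 ∧ ∀ s : ℝ, |s| ≤ b →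
    F s = - Real.log (1 - s) - s ∧ 0 ≤ F s ∧ 0 ≤ deriv (deriv F) s ∧ deriv F s ^ 2 ≤ deriv (deriv F) s := by
  have hφ : ContDiffOn ℝ ∞ (fun s : ℝ => - Real.log (1 - s) - s) (Iio 1) := by
    intro s hs
    have h1 : (1 - s) ≠ 0 := by
      have : s < 1 := hs
      linarith
    have h2 : ContDiffAt ℝ ∞ (fun s : ℝ => 1 - s) s := contDiffAt_const.sub contDiffAt_id
    exact ((h2.log h1).neg.sub contDiffAt_id).contDiffWithinAt
  obtain ⟨F, hF, h⟩ := ext hφ hb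
  have hd1 : ∀ s : ℝ, s < 1 → HasDerivAt (fun s : ℝ => - Real.log (1 - s) - s) ((1 - s)⁻¹ - 1) s := by
    intro s hs
    have h1 : (1 - s) ≠ 0 := by linarith
    have h2 : HasDerivAt (fun s : ℝ => 1 - s) (-1) s := by
      simpa using (hasDerivAt_id s).const_sub 1
    have h3 := ((h2.log h1).neg.sub (hasDerivAt_id s))
    refine h3.congr_deriv ?_
    field_simp
  have hd2 : ∀ s : ℝ, s < 1 → HasDerivAt (fun s : ℝ => (1 - s)⁻¹ - 1) (((1 - s) ^ 2)⁻¹) s := by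
    intro s hs
    have h1 : (1 - s) ≠ 0 := by linarith
    have h2 : HasDerivAt (fun s : ℝ => 1 - s) (-1) s := by
      simpa using (hasDerivAt_id s).const_sub 1
    have h3 := (h2.inv h1).sub_const 1
    refine h3.congr_deriv ?_
    field_simp
  refine ⟨F, hF, ?_, ?_⟩
  · rw [(h 0 hb0).1]
    simp
  · intro s hs
    obtain ⟨hs1, hs2⟩ := abs_le.1 hs
    have hs3 : s < 1 := by linarith
    obtain ⟨e0, e1, e2⟩ := h s hs2
    have e3 : deriv (fun s : ℝ => - Real.log (1 - s) - s) s = (1 - s)⁻¹ - 1 := (hd1 s hs3).deriv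
    have e4 : deriv (deriv (fun s : ℝ => - Real.log (1 - s) - s)) s = ((1 - s) ^ 2)⁻¹ := by
      have h1 : deriv (fun s : ℝ => - Real.log (1 - s) - s) =ᶠ[𝓝 s] fun s => (1 - s)⁻¹ - 1 := by
        filter_upwards [Iio_mem_nhds hs3] with y hy
        exact (hd1 y hy).deriv
      rw [h1.deriv_eq]
      exact (hd2 s hs3).deriv
    have hu : 0 < 1 - s := by linarith
    refine ⟨e0, ?_, ?_, ?_⟩
    · rw [e0]
      have := Real.log_le_sub_one_of_pos hu
      linarith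
    · rw [e2, e4]
      positivity
    · rw [e1, e2, e3, e4]
      have h1 : ((1 - s)⁻¹ - 1) ^ 2 = s ^ 2 * ((1 - s) ^ 2)⁻¹ := by
        field_simp
        ring
      rw [h1]
      have h2 : s ^ 2 ≤ 1 := by
        rw [sq_le_one_iff_abs_le_one]
        linarith
      have h3 : 0 ≤ ((1 - s) ^ 2)⁻¹ := by positivity
      nlinarith

/-- The square root. -/
theorem sqr {b : ℝ} (hb : b < 1) (hb0 : 0 ≤ b) : ∃ F : ℝ → ℝ, ContDiff ℝ ∞ F ∧ F 0 = 0 ∧ ∀ s : ℝ, |s| ≤ b →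
    |F s| ≤ 1 ∧ deriv (deriv F) s = (1/4) * (1 - s) ^ (-(3/2) : ℝ) ∧ deriv F s ^ 2 ≤ 2 * deriv (deriv F) s := by
  have hφ : ContDiffOn ℝ ∞ (fun s : ℝ => 1 - (1 - s) ^ (1 / 2 : ℝ)) (Iio 1) := by
    intro s hs
    have h1 : (1 - s) ≠ 0 := by
      have : s < 1 := hs
      linarith
    have h2 : ContDiffAt ℝ ∞ (fun s : ℝ => 1 - s) s := contDiffAt_const.sub contDiffAt_id
    exact (contDiffAt_const.sub (h2.rpow_const_of_ne h1)).contDiffWithinAt
  obtain ⟨F, hF, h⟩ := ext hφ hb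
  have hd1 : ∀ s : ℝ, s < 1 → HasDerivAt (fun s : ℝ => 1 - (1 - s) ^ (1 / 2 : ℝ))
      (1 / 2 * (1 - s) ^ (-(1 / 2) : ℝ)) s := by
    intro s hs
    have h1 : (1 - s) ≠ 0 := by linarith
    have h2 : HasDerivAt (fun s : ℝ => 1 - s) (-1) s := by
      simpa using (hasDerivAt_id s).const_sub 1
    have h3 := (h2.rpow_const (p := 1 / 2) (Or.inl h1)).const_sub 1
    refine h3.congr_deriv ?_
    have h4 : (1 / 2 : ℝ) - 1 = -(1 / 2) := by norm_num
    rw [h4]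
    ring
  have hd2 : ∀ s : ℝ, s < 1 → HasDerivAt (fun s : ℝ => 1 / 2 * (1 - s) ^ (-(1 / 2) : ℝ))
      (1 / 4 * (1 - s) ^ (-(3 / 2) : ℝ)) s := by
    intro s hs
    have h1 : (1 - s) ≠ 0 := by linarith
    have h2 : HasDerivAt (fun s : ℝ => 1 - s) (-1) s := by
      simpa using (hasDerivAt_id s).const_sub 1
    have h3 := (h2.rpow_const (p := -(1 / 2)) (Or.inl h1)).const_mul (1 / 2)
    refine h3.congr_deriv ?_
    have h4 : (-(1 / 2) : ℝ) - 1 = -(3 / 2) := by norm_num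
    rw [h4]
    ring
  refine ⟨F, hF, ?_, ?_⟩
  · rw [(h 0 hb0).1]
    simp
  · intro s hs
    obtain ⟨hs1, hs2⟩ := abs_le.1 hs
    have hs3 : s < 1 := by linarith
    obtain ⟨e0, e1, e2⟩ := h s hs2
    have e3 : deriv (fun s : ℝ => 1 - (1 - s) ^ (1 / 2 : ℝ)) s = 1 / 2 * (1 - s) ^ (-(1 / 2) : ℝ) :=
      (hd1 s hs3).deriv
    have e4 : deriv (deriv (fun s : ℝ => 1 - (1 - s) ^ (1 / 2 : ℝ))) s =
        1 / 4 * (1 - s) ^ (-(3 / 2) : ℝ) := by
      have h1 : deriv (fun s : ℝ => 1 - (1 - s) ^ (1 / 2 : ℝ)) =ᶠ[𝓝 s]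
          fun s => 1 / 2 * (1 - s) ^ (-(1 / 2) : ℝ) := by
        filter_upwards [Iio_mem_nhds hs3] with y hy
        exact (hd1 y hy).deriv
      rw [h1.deriv_eq]
      exact (hd2 s hs3).deriv
    have hu : 0 < 1 - s := by linarith
    have hu2 : 1 - s ≤ 4 := by linarith
    have hw0 : 0 < (1 - s) ^ (1 / 2 : ℝ) := Real.rpow_pos_of_pos hu _
    have hw : (1 - s) ^ (1 / 2 : ℝ) ≤ 2 := by
      have h1 : (1 - s) ^ (1 / 2 : ℝ) ≤ 4 ^ (1 / 2 : ℝ) :=
        Real.rpow_le_rpow hu.le hu2 (by norm_num)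
      have h2 : (4:ℝ) ^ (1 / 2 : ℝ) = 2 := by
        rw [← Real.sqrt_eq_rpow]
        rw [show (4:ℝ) = 2 ^ 2 by norm_num]
        exact Real.sqrt_sq (by norm_num)
      linarith
    refine ⟨?_, ?_, ?_⟩
    · rw [e0, abs_le]
      constructor <;> linarith
    · rw [e2, e4]
    · rw [e1, e2, e3, e4]
      have h1 : (1 / 2 * (1 - s) ^ (-(1 / 2) : ℝ)) ^ 2 =
          1 / 4 * ((1 - s) ^ (-(3 / 2) : ℝ) * (1 - s) ^ (1 / 2 : ℝ)) := by
        rw [mul_pow, ← Real.rpow_natCast ((1 - s) ^ (-(1 / 2) : ℝ)) 2, ← Real.rpow_mul hu.le,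
          ← Real.rpow_add hu]
        norm_num
      rw [h1]
      have h2 : 0 < (1 - s) ^ (-(3 / 2) : ℝ) := Real.rpow_pos_of_pos hu _
      have h3 : (1 - s) ^ (-(3 / 2) : ℝ) * (1 - s) ^ (1 / 2 : ℝ) ≤ (1 - s) ^ (-(3 / 2) : ℝ) * 2 :=
        mul_le_mul_of_nonneg_left hw h2.le
      linarith

end Pool.Agent.H72.CC
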