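/-
ROW InA (MP_09540e_CC). The drift term in the mass supply argument, at a fixed time. PROOF. `η₀ = zc (1/4) (1/2)`, supported in `closedBall 0 (1/2)`, where `et = 1`; `|crs G (η₀²)| ≤ √rsq √(gsq G) √(gsq (η₀²)) ≤ C √rsq √(gsq G) 1_B`,
`B = closedBall 0 (1/2)` (Cut.lean, zc_pow n = 2; on the complement the gradient of `η₀²` vanishes). `h = 1 - G ∈ (0, 2)` on `closedBall 0 (3/4)`. Cauchy-Schwarz:
`∫_B |P| √rsq √(gsq G) ≤ (∫_B h^(-3/2) gsq G)^(1/2) (∫_B rsq P² h^(3/2))^(1/2)`, and `∫_B rsq P² h^(3/2) ≤ (∫_B rsq² P⁴)^(1/2) (∫_B h³)^(1/2) ≤ (A4 P)^(1/2) (4 ∫ h et²)^(1/2)` (`h³ ≤ 4 h`, `et = 1` on `B`, `h et² ≥ 0`).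
`∫_B h^(-3/2) gsq G ≤ ∫ h^(-3/2) gsq G et²`. (h is bounded below by a positive constant on the compact closedBall 0 (3/4).)
-/
import Pool.Agent.H72.CC.Cut

set_option autoImplicit false

open Set Filter Topology MeasureTheory
open scoped ContDiff

namespace Pool.Agent.H72.CC

open Pool.Agent.H16 Pool.Agent.H87.NS

private theorem InA_rsq_nonneg (x : E3) : 0 ≤ rsq x := by
  unfold rsq; positivity

private theorem InA_rsq_cont : Continuous (rsq : E3 → ℝ) := by
  unfold rsq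
  fun_prop

private theorem InA_gsq_cont {f : E3 → ℝ} (hf : ContDiff ℝ 1 f) : Continuous (gsq f) := by
  unfold gsq
  exact continuous_finsetSum _ fun i _ => (pd_cont hf i).pow 2

private theorem InA_alg (x0 x1 a0 a1 a2 b0 b1 b2 : ℝ) :
    (a2 * (x0 * b0 + x1 * b1) - (x0 * a0 + x1 * a1) * b2) ^ 2 ≤
      (x0 ^ 2 + x1 ^ 2) * (a0 ^ 2 + a1 ^ 2 + a2 ^ 2) * (b0 ^ 2 + b1 ^ 2 + b2 ^ 2) := by
  have h1 : (x0 * (a2 * b0 - a0 * b2) + x1 * (a2 * b1 - a1 * b2)) ^ 2 ≤
      (x0 ^ 2 + x1 ^ 2) * ((a2 * b0 - a0 * b2) ^ 2 + (a2 * b1 - a1 * b2) ^ 2) := by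
    linarith only [sq_nonneg (x0 * (a2 * b1 - a1 * b2) - x1 * (a2 * b0 - a0 * b2))]
  have h2 : (a2 * b0 - a0 * b2) ^ 2 + (a2 * b1 - a1 * b2) ^ 2 ≤
      (a0 ^ 2 + a1 ^ 2 + a2 ^ 2) * (b0 ^ 2 + b1 ^ 2 + b2 ^ 2) := by
    linarith only [sq_nonneg (a0 * b1 - a1 * b0), sq_nonneg (a0 * b0 + a1 * b1 + a2 * b2)]
  have h3 : (a2 * (x0 * b0 + x1 * b1) - (x0 * a0 + x1 * a1) * b2) =
      x0 * (a2 * b0 - a0 * b2) + x1 * (a2 * b1 - a1 * b2) := by ring
  rw [h3, mul_assoc]
  exact h1.trans (mul_le_mul_of_nonneg_left h2 (by positivity))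

private theorem InA_crs (G η : E3 → ℝ) (x : E3) :
    |crs G η x| ≤ √(rsq x) * √(gsq G x) * √(gsq η x) := by
  have h : crs G η x ^ 2 ≤ rsq x * gsq G x * gsq η x := by
    have h := InA_alg (x 0) (x 1) (pd 0 G x) (pd 1 G x) (pd 2 G x) (pd 0 η x) (pd 1 η x) (pd 2 η x)
    simp only [crs, rdr, rsq, gsq, Fin.sum_univ_three]
    exact h
  have h2 := Real.abs_le_sqrt h
  rwa [Real.sqrt_mul (mul_nonneg (InA_rsq_nonneg x) (gsq_nonneg G x)), Real.sqrt_mul (InA_rsq_nonneg x)] at h2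

private theorem InA_cs {B : Set E3} (hB : IsCompact B) {f g : E3 → ℝ} (hf : ContinuousOn f B)
    (hg : ContinuousOn g B) (hf0 : ∀ x ∈ B, 0 ≤ f x) (hg0 : ∀ x ∈ B, 0 ≤ g x) :
    ∫ x in B, f x * g x ≤ √(∫ x in B, f x ^ 2) * √(∫ x in B, g x ^ 2) := by
  have hm := hB.measurableSet
  have mf : MemLp f 2 (volume.restrict B) :=
    (memLp_two_iff_integrable_sq (hf.aestronglyMeasurable hm)).2 ((hf.pow 2).integrableOn_compact hB)
  have mg : MemLp g 2 (volume.restrict B) :=
    (memLp_two_iff_integrable_sq (hg.aestronglyMeasurable hm)).2 ((hg.pow 2).integrableOn_compact hB)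
  have h := integral_mul_le_Lp_mul_Lq_of_nonneg (μ := volume.restrict B) Real.HolderConjugate.two_two
    (f := f) (g := g) ((ae_restrict_iff' hm).2 (Eventually.of_forall hf0))
    ((ae_restrict_iff' hm).2 (Eventually.of_forall hg0)) (by simpa using mf) (by simpa using mg)
  simp only [Real.rpow_two] at h
  rwa [← Real.sqrt_eq_rpow, ← Real.sqrt_eq_rpow] at h

private theorem InA_int {B : Set E3} (hB : IsCompact B) {f : E3 → ℝ} (hf : ContinuousOn f B)
    (h0 : ∀ x, x ∉ B → f x = 0) : Integrable f := by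
  refine (integrableOn_iff_integrable_of_support_subset ?_).1 (hf.integrableOn_compact hB)
  intro x hx
  by_contra h
  exact hx (h0 x h)

private theorem InA_mono {B : Set E3} (hB : MeasurableSet B) {f g : E3 → ℝ} (hf : IntegrableOn f B) (hg : Integrable g)
    (h0 : ∀ x, 0 ≤ g x) (h : ∀ x ∈ B, f x ≤ g x) : ∫ x in B, f x ≤ ∫ x, g x :=
  (setIntegral_mono_on hf hg.integrableOn hB h).trans
    (setIntegral_le_integral hg (Eventually.of_forall h0))

private theorem InA_rt {a b : ℝ} (ha : 0 ≤ a) (hb : 0 ≤ b) : √(√a * √(4 * b)) = √2 * (a * b) ^ (1/4 : ℝ) := by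
  have h1 : √(4 * b) = 2 * √b := by
    rw [Real.sqrt_mul (by norm_num), show (4 : ℝ) = 2 ^ 2 by norm_num, Real.sqrt_sq (by norm_num)]
  have h2 : √a * √(4 * b) = 2 * √(a * b) := by
    rw [h1, Real.sqrt_mul ha]; ring
  rw [h2, Real.sqrt_mul (by norm_num), Real.sqrt_eq_rpow (a * b), Real.sqrt_eq_rpow ((a * b) ^ _),
    ← Real.rpow_mul (mul_nonneg ha hb)]
  norm_num

private theorem InA_A4 {B : Set E3} {P : E3 → ℝ} (hP : Continuous P)
    (h : B ⊆ Metric.ball (0 : E3) 1) : ∫ x in B, rsq x ^ 2 * P x ^ 4 ≤ A4 P := by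
  unfold A4
  have hc : Continuous fun x : E3 => rsq x ^ 2 * P x ^ 4 := (InA_rsq_cont.pow 2).mul (hP.pow 4)
  refine setIntegral_mono_set ?_ (Eventually.of_forall fun x => by positivity) h.eventuallyLE
  exact (hc.continuousOn.integrableOn_compact (isCompact_closedBall (0 : E3) 1)).mono_set
    Metric.ball_subset_closedBall

theorem inA : ∃ C : ℝ, 0 < C ∧ ∀ G P : E3 → ℝ, ContDiff ℝ ∞ G → Continuous P →
    (∀ x ∈ Metric.closedBall (0 : E3) (3/4), |G x| < 1) →
    |∫ x, P x * crs G (fun y => zc (1/4) (1/2) y ^ 2) x| ≤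
      C * √(∫ x, (1 - G x) ^ (-(3/2) : ℝ) * gsq G x * et x ^ 2) * (A4 P * ∫ x, (1 - G x) * et x ^ 2) ^ (1/4 : ℝ) := by
  obtain ⟨C, hC, hz⟩ := zc_pow 2 le_rfl
  have hK : 0 < C / (1/2 - 1/4) ^ 2 := by positivity
  refine ⟨√(C / (1/2 - 1/4) ^ 2) * √2, by positivity, ?_⟩
  intro G P hG hP hG1
  set K := √(C / (1/2 - 1/4) ^ 2) with hKd
  set η : E3 → ℝ := fun y => zc (1/4) (1/2) y ^ 2 with hη
  have hz' := fun x => (hz (1/4) (1/2) (by norm_num) (by norm_num) (by norm_num) x).2.1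
  have hGc : ContDiff ℝ 1 G := hG.of_le (by exact_mod_cast le_top)
  -- the two balls
  have hB : IsCompact (Metric.closedBall (0 : E3) (1/2)) := isCompact_closedBall _ _
  have hD : IsCompact (Metric.closedBall (0 : E3) (3/4)) := isCompact_closedBall _ _
  have hBD : Metric.closedBall (0 : E3) (1/2) ⊆ Metric.closedBall (0 : E3) (3/4) :=
    Metric.closedBall_subset_closedBall (by norm_num)
  set B := Metric.closedBall (0 : E3) (1/2) with hBdef
  set D := Metric.closedBall (0 : E3) (3/4) with hDdef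
  have hh : ∀ x ∈ D, 0 < 1 - G x ∧ 1 - G x < 2 := by
    intro x hx
    have := abs_lt.1 (hG1 x hx)
    constructor <;> linarith [this.1, this.2]
  have het1 : ∀ x ∈ B, et x = 1 := by
    intro x hx
    exact zc_one (by norm_num) (by norm_num) (by simpa [hBdef] using hx)
  have het0 : ∀ x, x ∉ D → et x = 0 := by
    intro x hx
    refine zc_zero (by norm_num) (by norm_num) ?_
    simp only [hDdef, Metric.mem_closedBall, dist_zero_right, not_le] at hx
    exact hx.le
  have hetc : Continuous et := (zc_smooth (1/2) (3/4)).continuous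
  -- pointwise
  have hpt : ∀ x, |P x * crs G η x| ≤ K * (|P x| * (√(rsq x) * √(gsq G x))) := by
    intro x
    have h1 := InA_crs G η x
    have h2 : gsq η x ≤ C / (1/2 - 1/4) ^ 2 := by
      refine (hz' x).trans ?_
      have h3 := zc_nonneg (1/4) (1/2) x
      have h4 := zc_le (1/4) (1/2) x
      have h5 : zc (1/4) (1/2) x ^ (2 * 2 - 2) ≤ 1 := pow_le_one₀ h3 h4
      exact mul_le_of_le_one_right hK.le h5
    have h3 : √(gsq η x) ≤ K := Real.sqrt_le_sqrt h2
    rw [abs_mul]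
    calc |P x| * |crs G η x| ≤ |P x| * (√(rsq x) * √(gsq G x) * K) := by
          refine mul_le_mul_of_nonneg_left (h1.trans ?_) (abs_nonneg _)
          exact mul_le_mul_of_nonneg_left h3 (by positivity)
      _ = _ := by ring
  have hout : ∀ x, x ∉ B → P x * crs G η x = 0 := by
    intro x hx
    simp only [hBdef, Metric.mem_closedBall, dist_zero_right, not_le] at hx
    have h1 := InA_crs G η x
    have h2 : gsq η x ≤ 0 := by
      refine (hz' x).trans ?_
      rw [zc_zero (by norm_num) (by norm_num) hx.le]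
      simp
    rw [Real.sqrt_eq_zero_of_nonpos h2, mul_zero] at h1
    rw [abs_nonpos_iff.1 h1, mul_zero]
  -- the functions in Cauchy-Schwarz
  set f : E3 → ℝ := fun x => (1 - G x) ^ (-(3/4) : ℝ) * √(gsq G x) with hf
  set g : E3 → ℝ := fun x => (|P x| * √(rsq x)) * (1 - G x) ^ (3/4 : ℝ) with hg
  have hGcont : Continuous fun x => 1 - G x := continuous_const.sub hG.continuous
  have hgsc := InA_gsq_cont hGc
  have hfc : ContinuousOn f D :=
    (hGcont.continuousOn.rpow_const fun x hx => Or.inl (hh x hx).1.ne').mul hgsc.sqrt.continuousOn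
  have hgc : ContinuousOn g D :=
    ((hP.abs.mul InA_rsq_cont.sqrt).continuousOn).mul
      (hGcont.continuousOn.rpow_const fun x hx => Or.inl (hh x hx).1.ne')
  have hf0 : ∀ x ∈ D, 0 ≤ f x := fun x hx =>
    mul_nonneg (Real.rpow_nonneg (hh x hx).1.le _) (Real.sqrt_nonneg _)
  have hg0 : ∀ x ∈ D, 0 ≤ g x := fun x hx =>
    mul_nonneg (by positivity) (Real.rpow_nonneg (hh x hx).1.le _)
  have hfg : ∀ x ∈ D, |P x| * (√(rsq x) * √(gsq G x)) = f x * g x := by
    intro x hx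
    have h1 : (1 - G x) ^ (-(3/4) : ℝ) * (1 - G x) ^ (3/4 : ℝ) = 1 := by
      rw [← Real.rpow_add (hh x hx).1]; norm_num
    simp only [hf, hg]
    calc |P x| * (√(rsq x) * √(gsq G x)) = |P x| * (√(rsq x) * √(gsq G x)) *
          ((1 - G x) ^ (-(3/4) : ℝ) * (1 - G x) ^ (3/4 : ℝ)) := by rw [h1, mul_one]
      _ = _ := by ring
  have hf2 : ∀ x ∈ D, f x ^ 2 = (1 - G x) ^ (-(3/2) : ℝ) * gsq G x := by
    intro x hx
    simp only [hf]
    rw [mul_pow, Real.sq_sqrt (gsq_nonneg G x), ← Real.rpow_natCast, ← Real.rpow_mul (hh x hx).1.le]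
    norm_num
  have hg2 : ∀ x ∈ D, g x ^ 2 = (rsq x * P x ^ 2) * (1 - G x) ^ (3/2 : ℝ) := by
    intro x hx
    simp only [hg]
    rw [mul_pow, mul_pow, Real.sq_sqrt (InA_rsq_nonneg x), sq_abs, ← Real.rpow_natCast ((1 - G x) ^ (3/4 : ℝ)),
      ← Real.rpow_mul (hh x hx).1.le]
    norm_num
    left
    ring
  -- step 1
  have s1 : |∫ x, P x * crs G η x| ≤ K * ∫ x in B, f x * g x := by
    have e1 : ∫ x, P x * crs G η x = ∫ x in B, P x * crs G η x :=
      (setIntegral_eq_integral_of_forall_compl_eq_zero hout).symm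
    rw [e1, ← integral_const_mul, ← Real.norm_eq_abs]
    refine norm_integral_le_of_norm_le ?_ ?_
    · exact (((hfc.mono hBD).mul (hgc.mono hBD)).const_smul K).integrableOn_compact hB
    · refine (ae_restrict_iff' hB.measurableSet).2 (Eventually.of_forall fun x hx => ?_)
      rw [Real.norm_eq_abs, ← hfg x (hBD hx)]
      exact hpt x
  -- step 2
  have s2 := InA_cs hB (hfc.mono hBD) (hgc.mono hBD) (fun x hx => hf0 x (hBD hx)) (fun x hx => hg0 x (hBD hx))
  set I1 := ∫ x, (1 - G x) ^ (-(3/2) : ℝ) * gsq G x * et x ^ 2 with hI1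
  set J := ∫ x, (1 - G x) * et x ^ 2 with hJ
  have s3 : ∫ x in B, f x ^ 2 ≤ I1 := by
    refine InA_mono hB.measurableSet (((hfc.mono hBD).pow 2).integrableOn_compact hB) ?_ ?_ ?_
    · refine InA_int hD ?_ ?_
      · exact ((hGcont.continuousOn.rpow_const fun x hx => Or.inl (hh x hx).1.ne').mul hgsc.continuousOn).mul
          (hetc.pow 2).continuousOn
      · intro x hx
        rw [het0 x hx]; simp
    · intro x
      by_cases hx : x ∈ D
      · exact mul_nonneg (mul_nonneg (Real.rpow_nonneg (hh x hx).1.le _) (gsq_nonneg G x)) (sq_nonneg _)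
      · rw [het0 x hx]; simp
    · intro x hx
      rw [hf2 x (hBD hx), het1 x hx]; simp
  have s4 : ∫ x in B, g x ^ 2 ≤ √(A4 P) * √(4 * J) := by
    have e1 : ∫ x in B, g x ^ 2 = ∫ x in B, (rsq x * P x ^ 2) * (1 - G x) ^ (3/2 : ℝ) :=
      setIntegral_congr_fun hB.measurableSet fun x hx => hg2 x (hBD hx)
    rw [e1]
    have c2 : ContinuousOn (fun x => (1 - G x) ^ (3/2 : ℝ)) B :=
      (hGcont.continuousOn.rpow_const fun x hx => Or.inl (hh x (hBD hx)).1.ne')
    have h1 := InA_cs hB ((InA_rsq_cont.mul (hP.pow 2)).continuousOn) c2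
      (fun x _ => mul_nonneg (InA_rsq_nonneg x) (sq_nonneg _)) (fun x hx => Real.rpow_nonneg (hh x (hBD hx)).1.le _)
    refine h1.trans (mul_le_mul (Real.sqrt_le_sqrt ?_) (Real.sqrt_le_sqrt ?_) (Real.sqrt_nonneg _) (Real.sqrt_nonneg _))
    · have e2 : ∫ x in B, (rsq x * P x ^ 2) ^ 2 = ∫ x in B, rsq x ^ 2 * P x ^ 4 :=
        setIntegral_congr_fun hB.measurableSet fun x _ => by ring
      refine e2.le.trans (InA_A4 hP ?_)
      exact Metric.closedBall_subset_ball (by norm_num)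
    · rw [hJ, ← integral_const_mul]
      refine InA_mono hB.measurableSet ((c2.pow 2).integrableOn_compact hB) ?_ ?_ ?_
      · refine InA_int hD ?_ ?_
        · exact (continuous_const.mul (hGcont.mul (hetc.pow 2))).continuousOn
        · intro x hx
          rw [het0 x hx]; simp
      · intro x
        by_cases hx : x ∈ D
        · have := (hh x hx).1
          positivity
        · rw [het0 x hx]; simp
      · intro x hx
        obtain ⟨h3, h4⟩ := hh x (hBD hx)
        have e3 : ((1 - G x) ^ (3/2 : ℝ)) ^ 2 = (1 - G x) ^ 3 := by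
          rw [← Real.rpow_natCast, ← Real.rpow_mul h3.le, ← Real.rpow_natCast]
          norm_num
        rw [e3, het1 x hx]
        have h5 : (1 - G x) ^ 2 ≤ 4 := by nlinarith only [h3, h4]
        nlinarith
  have hA : 0 ≤ A4 P := by
    unfold A4
    exact integral_nonneg fun x => by positivity
  have hJ0 : 0 ≤ J := by
    refine integral_nonneg fun x => ?_
    by_cases hx : x ∈ D
    · have := (hh x hx).1
      exact mul_nonneg this.le (sq_nonneg _)
    · simp [het0 x hx]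
  have s5 : √(∫ x in B, g x ^ 2) ≤ √2 * (A4 P * J) ^ (1/4 : ℝ) := by
    rw [← InA_rt hA hJ0]
    exact Real.sqrt_le_sqrt s4
  calc |∫ x, P x * crs G η x| ≤ K * ∫ x in B, f x * g x := s1
    _ ≤ K * (√I1 * (√2 * (A4 P * J) ^ (1/4 : ℝ))) := by
        refine mul_le_mul_of_nonneg_left (s2.trans ?_) (Real.sqrt_nonneg _)
        exact mul_le_mul (Real.sqrt_le_sqrt s3) s5 (Real.sqrt_nonneg _) (Real.sqrt_nonneg _)
    _ = _ := by ring

end Pool.Agent.H72.CC
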