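/-
ROW LoA (MP_09540e_CC). Two energy inequalities at a fixed time with the weight `et²`. Note `et` is supported in `closedBall 0 (3/4)`, `gsq et ≤ C`, `rdr (et²) ≤ 0`, `|lap (et²)| ≤ C`, `|rdr (et²)| ≤ C rsq` (Cut.lean). Let `f = F ∘ G`.
PROOF of loA. `- F''(G) gsq G et² ≤ - gsq f et²` (`gsq f = F'(G)² gsq G`, `F'² ≤ F''` on the support). `∫ f lap (et²) = - ∫ ∑ pd i f pd i (et²)` (ib_lap), `|.| ≤ ∫ √(gsq f) 2 et √(gsq et) ≤ (1/4) ∫ gsq f et² + 4 ∫ gsq et`. `∫ f 2/rsq rdr (et²) ≤ 0`
(`f ≥ 0` on the support). `|P F'(G) crs G (et²)| = |P crs f (et²)| ≤ |P| √rsq √(gsq f) 2 et √(gsq et) ≤ (1/4) gsq f et² + 4 rsq P² gsq et` (`|crs f η| ≤ √rsq √(gsq f) √(gsq η)`), and `∫_{ball 0 1} rsq P² ≤ √(vol) √(A4 P)` (Cauchy-Schwarz).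
PROOF of enB. `|F(G) (lap + 2/rsq rdr)(et²)| ≤ M C` on the ball; `|P F'(G) crs G (et²)| ≤ |P| √rsq √(M F''(G)) √(gsq G) 2 et √(gsq et) ≤ (1/2) F''(G) gsq G et² + 2 M rsq P² gsq et`.
Integrability: continuous with compact support, and the factor `2/rsq rdr (et²)` is measurable and bounded.
-/
import Pool.Agent.H72.CC.Cut
import Pool.Agent.H72.CC.Ib

set_option autoImplicit false

open Set Filter Topology MeasureTheory
open scoped ContDiff

namespace Pool.Agent.H72.CC

open Pool.Agent.H16 Pool.Agent.H87.NS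

theorem LoA_rsq_nonneg (x : E3) : 0 ≤ rsq x := by unfold rsq; positivity

theorem LoA_gsq_cont {f : E3 → ℝ} (hf : ContDiff ℝ ∞ f) : Continuous (gsq f) := by
  have h : gsq f = fun x => ∑ i, pd i f x ^ 2 := by funext x; rfl
  rw [h]
  exact continuous_finsetSum _ fun i _ => ((pd_smooth hf i).continuous.pow 2)

theorem LoA_lap_cont {f : E3 → ℝ} (hf : ContDiff ℝ ∞ f) : Continuous (lap f) := by
  have h : lap f = fun x => ∑ i, pd i (pd i f) x := by funext x; rfl
  rw [h]
  exact continuous_finsetSum _ fun i _ => (pd_smooth (pd_smooth hf i) i).continuous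

theorem LoA_crs (f g : E3 → ℝ) (x : E3) : crs f g x ^ 2 ≤ rsq x * gsq f x * gsq g x := by
  have h : rsq x * gsq f x * gsq g x - crs f g x ^ 2 =
      (x 0 ^ 2 + x 1 ^ 2) * ((pd 0 f x * pd 0 g x + pd 1 f x * pd 1 g x + pd 2 f x * pd 2 g x) ^ 2 +
        (pd 0 f x * pd 1 g x - pd 1 f x * pd 0 g x) ^ 2) +
      (x 0 * (pd 2 f x * pd 1 g x - pd 1 f x * pd 2 g x) -
        x 1 * (pd 2 f x * pd 0 g x - pd 0 f x * pd 2 g x)) ^ 2 := by
    unfold crs rdr rsq gsq
    simp only [Fin.sum_univ_three]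
    ring
  have h2 : 0 ≤ rsq x * gsq f x * gsq g x - crs f g x ^ 2 := by
    rw [h]; positivity
  linarith

/-- the facts on the cut-off that are used -/
structure LoA_H (C : ℝ) : Prop where
  pos : 0 < C
  sm : ContDiff ℝ ∞ (fun x => et x ^ 2)
  cs : HasCompactSupport (fun x => et x ^ 2)
  g : ∀ x, gsq (fun x => et x ^ 2) x ≤ C * et x ^ 2
  l : ∀ x, |lap (fun x => et x ^ 2) x| ≤ C
  r : ∀ x, rdr (fun x => et x ^ 2) x ≤ 0
  ra : ∀ x, |rdr (fun x => et x ^ 2) x| ≤ C * rsq x
  z : ∀ x, x ∉ Metric.closedBall (0 : E3) (3/4) → et x = 0 ∧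
    (∀ i, pd i (fun x => et x ^ 2) x = 0) ∧ lap (fun x => et x ^ 2) x = 0 ∧ rdr (fun x => et x ^ 2) x = 0

theorem LoA_et : ∃ C : ℝ, LoA_H C := by
  obtain ⟨C, hC, h⟩ := zc_pow 2 le_rfl
  have h1 : ∀ x : E3, gsq (zc (1/2) (3/4)) x ≤ C / (3/4 - 1/2) ^ 2 ∧
      gsq (fun y => zc (1/2) (3/4) y ^ 2) x ≤ C / (3/4 - 1/2) ^ 2 * zc (1/2) (3/4) x ^ (2 * 2 - 2) ∧
      |lap (fun y => zc (1/2) (3/4) y ^ 2) x| ≤ C / (3/4 - 1/2) ^ 2 * zc (1/2) (3/4) x ^ (2 - 2) ∧
      rdr (fun y => zc (1/2) (3/4) y ^ 2) x ≤ 0 ∧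
      |rdr (fun y => zc (1/2) (3/4) y ^ 2) x| ≤ C / (3/4 - 1/2) * rsq x :=
    fun x => h (1/2) (3/4) (by norm_num) (by norm_num) (by norm_num) x
  obtain ⟨hcs, hts⟩ := zc_supp (a := 1/2) (b := 3/4) (by norm_num) (by norm_num) (n := 2) (by norm_num)
  have hη : (fun x => et x ^ 2) = fun x => zc (1/2) (3/4) x ^ 2 := rfl
  have hc1 : C / (3/4 - 1/2) ^ 2 = 16 * C := by ring
  have hc2 : C / (3/4 - 1/2 : ℝ) = 4 * C := by ring
  refine ⟨16 * C, by positivity, ?_, ?_, ?_, ?_, ?_, ?_, ?_⟩
  · rw [hη]; exact (zc_smooth _ _).pow 2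
  · rw [hη]; exact hcs
  · intro x
    have h2 := (h1 x).2.1
    rw [hc1] at h2
    exact h2
  · intro x
    have h2 := (h1 x).2.2.1
    rw [hc1, Nat.sub_self, pow_zero, mul_one] at h2
    exact h2
  · intro x
    exact (h1 x).2.2.2.1
  · intro x
    have h2 := (h1 x).2.2.2.2
    rw [hc2] at h2
    refine le_trans h2 ?_
    have := LoA_rsq_nonneg x
    nlinarith [mul_nonneg hC.le this]
  · intro x hx
    have hx1 : (3/4 : ℝ) < ‖x‖ := by
      rw [mem_closedBall_zero_iff, not_le] at hx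
      exact hx
    have hev : ∀ᶠ y in 𝓝 x, (fun x => et x ^ 2) y = 0 := by
      have : ∀ᶠ y : E3 in 𝓝 x, (3/4 : ℝ) < ‖y‖ := continuous_norm.continuousAt.eventually (lt_mem_nhds hx1)
      filter_upwards [this] with y hy
      have : et y = 0 := zc_zero (by norm_num) (by norm_num) hy.le
      simp [this]
    have hev2 : ∀ᶠ y in 𝓝 x, ∀ᶠ z in 𝓝 y, (fun x => et x ^ 2) z = 0 := hev.eventually_nhds
    have hpd : ∀ i, pd i (fun x => et x ^ 2) x = 0 := fun i => LevX_pd_zero hev i
    refine ⟨zc_zero (by norm_num) (by norm_num) hx1.le, hpd, ?_, ?_⟩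
    · unfold lap
      refine Finset.sum_eq_zero fun i _ => ?_
      refine LevX_pd_zero ?_ i
      filter_upwards [hev2] with y hy
      exact LevX_pd_zero hy i
    · unfold rdr
      rw [hpd, hpd]; ring

section
variable {C : ℝ}

theorem LoA_i1 (H : LoA_H C) {g : E3 → ℝ} (hg : Continuous g) : Integrable (fun x => g x * et x ^ 2) :=
  (hg.mul H.sm.continuous).integrable_of_hasCompactSupport H.cs.mul_left

theorem LoA_cs_lap (H : LoA_H C) : HasCompactSupport (lap (fun x => et x ^ 2)) := by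
  refine HasCompactSupport.intro (isCompact_closedBall (0 : E3) (3/4)) fun x hx => (H.z x hx).2.2.1

theorem LoA_i2 (H : LoA_H C) {g : E3 → ℝ} (hg : Continuous g) :
    Integrable (fun x => g x * lap (fun x => et x ^ 2) x) :=
  (hg.mul (LoA_lap_cont H.sm)).integrable_of_hasCompactSupport (LoA_cs_lap H).mul_left

theorem LoA_i3 (H : LoA_H C) {g : E3 → ℝ} (hg : Continuous g) :
    Integrable (fun x => g x * (2 / rsq x * rdr (fun x => et x ^ 2) x)) := by
  have hb : Integrable ((Metric.closedBall (0 : E3) (3/4)).indicator (fun x => 2 * C * |g x|)) := by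
    rw [integrable_indicator_iff Metric.isClosed_closedBall.measurableSet]
    exact (continuous_const.mul hg.abs).continuousOn.integrableOn_compact (isCompact_closedBall _ _)
  refine hb.mono' ?_ ?_
  · refine Measurable.aestronglyMeasurable ?_
    exact hg.measurable.mul ((measurable_const.div LevX_rsq_cd.continuous.measurable).mul
      (Ib_rdr_smooth H.sm).continuous.measurable)
  · filter_upwards with x
    by_cases hx : x ∈ Metric.closedBall (0 : E3) (3/4)
    · rw [indicator_of_mem hx, Real.norm_eq_abs, abs_mul, abs_mul]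
      have h1 := H.ra x
      have h2 := LoA_rsq_nonneg x
      have h3 := H.pos
      have h4 : |2 / rsq x| * |rdr (fun x => et x ^ 2) x| ≤ 2 * C := by
        rcases h2.eq_or_lt with h | h
        · rw [← h]; simp; exact h3.le
        · rw [abs_of_pos (by positivity), div_mul_eq_mul_div, div_le_iff₀ h]
          nlinarith
      calc |g x| * (|2 / rsq x| * |rdr (fun x => et x ^ 2) x|) ≤ |g x| * (2 * C) :=
            mul_le_mul_of_nonneg_left h4 (abs_nonneg _)
        _ = 2 * C * |g x| := by ring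
    · rw [indicator_of_notMem hx, (H.z x hx).2.2.2]
      simp

theorem LoA_i4 (H : LoA_H C) {g G : E3 → ℝ} (hg : Continuous g) (hG : ContDiff ℝ ∞ G) :
    Integrable (fun x => g x * crs G (fun x => et x ^ 2) x) := by
  have h1 : Integrable (fun x => (g x * pd 2 G x) * rdr (fun x => et x ^ 2) x) :=
    ((hg.mul (pd_smooth hG 2).continuous).mul (Ib_rdr_smooth H.sm).continuous).integrable_of_hasCompactSupport
      (Ib_cs_rdr H.cs).mul_left
  have h2 : Integrable (fun x => (g x * rdr G x) * pd 2 (fun x => et x ^ 2) x) :=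
    ((hg.mul (Ib_rdr_smooth hG).continuous).mul (pd_smooth H.sm 2).continuous).integrable_of_hasCompactSupport
      (Ib_cs_pd H.cs 2).mul_left
  have h3 := h1.sub h2
  refine h3.congr ?_
  filter_upwards with x
  simp only [Pi.sub_apply]
  unfold crs
  ring

/-- the dominating function -/
noncomputable def LoA_B (P : E3 → ℝ) (x : E3) : ℝ :=
  (Metric.ball (0 : E3) 1).indicator (fun x => 1 + (1 + √(A4 P)) / 2 + 1 / (2 * (1 + √(A4 P))) * (rsq x ^ 2 * P x ^ 4)) x

theorem LoA_B_nonneg (P : E3 → ℝ) (x : E3) : 0 ≤ LoA_B P x := by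
  unfold LoA_B
  refine indicator_nonneg (fun y _ => ?_) x
  have := Real.sqrt_nonneg (A4 P)
  positivity

theorem LoA_B_le {P : E3 → ℝ} {x : E3} (hx : x ∈ Metric.closedBall (0 : E3) (3/4)) :
    1 + rsq x * P x ^ 2 ≤ LoA_B P x := by
  have hx1 : x ∈ Metric.ball (0 : E3) 1 := by
    rw [mem_closedBall_zero_iff] at hx
    rw [mem_ball_zero_iff]
    linarith
  unfold LoA_B
  rw [indicator_of_mem hx1]
  have h1 := Real.sqrt_nonneg (A4 P)
  set s := 1 + √(A4 P) with hs
  have hs1 : 0 < s := by linarith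
  have h2 : 0 ≤ (rsq x * P x ^ 2 - s) ^ 2 := sq_nonneg _
  have h3 : rsq x * P x ^ 2 ≤ s / 2 + 1 / (2 * s) * (rsq x ^ 2 * P x ^ 4) := by
    have h4 : s / 2 + 1 / (2 * s) * (rsq x ^ 2 * P x ^ 4) - rsq x * P x ^ 2 = (rsq x * P x ^ 2 - s) ^ 2 / (2 * s) := by
      field_simp
      ring
    have h5 : 0 ≤ (rsq x * P x ^ 2 - s) ^ 2 / (2 * s) := by positivity
    linarith
  linarith

theorem LoA_B_int {P : E3 → ℝ} (hP : Continuous P) : Integrable (LoA_B P) ∧
    ∫ x, LoA_B P x ≤ 2 * (1 + volume.real (Metric.ball (0 : E3) 1)) * (1 + √(A4 P)) := by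
  have hcont : Continuous (fun x : E3 => rsq x ^ 2 * P x ^ 4) := (LevX_rsq_cd.continuous.pow 2).mul (hP.pow 4)
  have hi0 : IntegrableOn (fun x : E3 => rsq x ^ 2 * P x ^ 4) (Metric.ball (0 : E3) 1) :=
    (hcont.continuousOn.integrableOn_compact (isCompact_closedBall (0 : E3) 1)).mono_set Metric.ball_subset_closedBall
  have hfin : volume (Metric.ball (0 : E3) 1) ≠ ⊤ := measure_ball_lt_top.ne
  have hic : ∀ c : ℝ, IntegrableOn (fun _ : E3 => c) (Metric.ball (0 : E3) 1) := fun c =>
    integrableOn_const (hs := hfin)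
  have h1 := Real.sqrt_nonneg (A4 P)
  set s := 1 + √(A4 P) with hs
  have hs1 : 1 ≤ s := by linarith
  have hi1 : IntegrableOn (fun x => 1 + s / 2 + 1 / (2 * s) * (rsq x ^ 2 * P x ^ 4)) (Metric.ball (0 : E3) 1) :=
    (hic (1 + s / 2)).add (hi0.const_mul _)
  have hB : LoA_B P = (Metric.ball (0 : E3) 1).indicator (fun x => 1 + s / 2 + 1 / (2 * s) * (rsq x ^ 2 * P x ^ 4)) := by
    funext x; rfl
  constructor
  · rw [hB, integrable_indicator_iff Metric.isOpen_ball.measurableSet]
    exact hi1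
  · rw [hB, integral_indicator Metric.isOpen_ball.measurableSet, integral_add (hic (1 + s / 2)) (hi0.const_mul _),
      integral_const_mul, setIntegral_const]
    have hA0 : 0 ≤ A4 P := by
      unfold A4
      refine setIntegral_nonneg Metric.isOpen_ball.measurableSet fun x _ => ?_
      positivity
    have hA : ∫ x in Metric.ball (0 : E3) 1, rsq x ^ 2 * P x ^ 4 = A4 P := rfl
    rw [hA, smul_eq_mul]
    have hA2 : A4 P ≤ s ^ 2 := by
      have := Real.sq_sqrt hA0
      nlinarith
    have hV : 0 ≤ volume.real (Metric.ball (0 : E3) 1) := measureReal_nonneg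
    have h5 : 1 / (2 * s) * A4 P ≤ s / 2 := by
      rw [div_mul_eq_mul_div, div_le_div_iff₀ (by positivity) (by norm_num)]
      nlinarith
    linarith only [mul_nonneg hV (by linarith : 0 ≤ s - 1), h1, hV, h5]

end

theorem loA : ∃ C : ℝ, 0 < C ∧ ∀ (F : ℝ → ℝ) (G P : E3 → ℝ), ContDiff ℝ ∞ F → ContDiff ℝ ∞ G → Continuous P →
    (∀ x ∈ Metric.closedBall (0 : E3) (3/4), 0 ≤ F (G x) ∧ deriv F (G x) ^ 2 ≤ deriv (deriv F) (G x)) →
    En F G P (fun x => et x ^ 2) ≤ - (1/2) * (∫ x, gsq (fun y => F (G y)) x * et x ^ 2) + C * (1 + √(A4 P)) := by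
  obtain ⟨C, H⟩ := LoA_et
  have hCp := H.pos
  refine ⟨C * (2 * (1 + volume.real (Metric.ball (0 : E3) 1))), by positivity, ?_⟩
  intro F G P hF hG hP hyp
  have hf : ContDiff ℝ ∞ (fun y => F (G y)) := hF.comp hG
  have hF1 : ContDiff ℝ ∞ (deriv F) := (contDiff_infty_iff_deriv.1 hF).2
  have hF2 : ContDiff ℝ ∞ (deriv (deriv F)) := (contDiff_infty_iff_deriv.1 hF1).2
  have hgsqf : ∀ x, gsq (fun y => F (G y)) x = deriv F (G x) ^ 2 * gsq G x := fun x =>
    comp_gsq (hG.of_le (by simp)) (hF.of_le (by simp)) x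
  have j1 : Integrable (fun x => (- deriv (deriv F) (G x) * gsq G x) * et x ^ 2) :=
    LoA_i1 H ((hF2.continuous.comp hG.continuous).neg.mul (LoA_gsq_cont hG))
  have j2 : Integrable (fun x => F (G x) * lap (fun x => et x ^ 2) x) := LoA_i2 H hf.continuous
  have j3 : Integrable (fun x => F (G x) * (2 / rsq x * rdr (fun x => et x ^ 2) x)) := LoA_i3 H hf.continuous
  have j4 : Integrable (fun x => (P x * deriv F (G x)) * crs G (fun x => et x ^ 2) x) :=
    LoA_i4 H (hP.mul (hF1.continuous.comp hG.continuous)) hG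
  have j5 : Integrable (fun x => ∑ i, pd i (fun y => F (G y)) x * pd i (fun x => et x ^ 2) x) :=
    integrable_finsetSum _ fun i _ => Ib_int (pd_smooth hf i) (pd_smooth H.sm i) (Ib_cs_pd H.cs i)
  have j6 : Integrable (fun x => gsq (fun y => F (G y)) x * et x ^ 2) := LoA_i1 H (LoA_gsq_cont hf)
  obtain ⟨j7, hB⟩ := LoA_B_int hP
  have e2 : ∫ x, F (G x) * lap (fun x => et x ^ 2) x =
      - ∫ x, ∑ i, pd i (fun y => F (G y)) x * pd i (fun x => et x ^ 2) x := by
    have h := ib_lap hf H.sm H.cs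
    rw [← h.1, h.2]
  have j134 : Integrable (fun x => (- deriv (deriv F) (G x) * gsq G x) * et x ^ 2 +
      F (G x) * (2 / rsq x * rdr (fun x => et x ^ 2) x) + (P x * deriv F (G x)) * crs G (fun x => et x ^ 2) x) :=
    (j1.add j3).add j4
  have e1 : En F G P (fun x => et x ^ 2) =
      ∫ x, ((- deriv (deriv F) (G x) * gsq G x) * et x ^ 2 +
      F (G x) * (2 / rsq x * rdr (fun x => et x ^ 2) x) + (P x * deriv F (G x)) * crs G (fun x => et x ^ 2) x -
        ∑ i, pd i (fun y => F (G y)) x * pd i (fun x => et x ^ 2) x) := by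
    rw [integral_sub j134 j5, sub_eq_add_neg, ← e2, ← integral_add j134 j2]
    unfold En
    congr 1
    funext x
    ring
  have hmono : ∫ x, ((- deriv (deriv F) (G x) * gsq G x) * et x ^ 2 +
      F (G x) * (2 / rsq x * rdr (fun x => et x ^ 2) x) + (P x * deriv F (G x)) * crs G (fun x => et x ^ 2) x -
        ∑ i, pd i (fun y => F (G y)) x * pd i (fun x => et x ^ 2) x) ≤
      ∫ x, (-(1/2) * (gsq (fun y => F (G y)) x * et x ^ 2) + C * LoA_B P x) := by
    refine integral_mono (j134.sub j5) ((j6.const_mul _).add (j7.const_mul _)) fun x => ?_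
    simp only []
    by_cases hx : x ∈ Metric.closedBall (0 : E3) (3/4)
    · obtain ⟨hFx, hFx2⟩ := hyp x hx
      set u := gsq (fun y => F (G y)) x * et x ^ 2 with hu
      have hg0 := gsq_nonneg (fun y => F (G y)) x
      have hgG := gsq_nonneg G x
      have hu0 : 0 ≤ u := by positivity
      have hr0 := LoA_rsq_nonneg x
      have t1 : (- deriv (deriv F) (G x) * gsq G x) * et x ^ 2 ≤ - u := by
        rw [hu, hgsqf]
        have := mul_le_mul_of_nonneg_right hFx2 (mul_nonneg hgG (sq_nonneg (et x)))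
        linarith only [this]
      have t3 : F (G x) * (2 / rsq x * rdr (fun x => et x ^ 2) x) ≤ 0 := by
        refine mul_nonpos_of_nonneg_of_nonpos hFx ?_
        exact mul_nonpos_of_nonneg_of_nonpos (by positivity) (H.r x)
      have t5 : |∑ i, pd i (fun y => F (G y)) x * pd i (fun x => et x ^ 2) x| ≤ u / 4 + C := by
        refine abs_le_of_sq_le_sq ?_ (by positivity)
        have h1 : (∑ i, pd i (fun y => F (G y)) x * pd i (fun x => et x ^ 2) x) ^ 2 ≤
            gsq (fun y => F (G y)) x * gsq (fun x => et x ^ 2) x := Finset.sum_mul_sq_le_sq_mul_sq _ _ _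
        have h2 : gsq (fun y => F (G y)) x * gsq (fun x => et x ^ 2) x ≤ u * C := by
          calc gsq (fun y => F (G y)) x * gsq (fun x => et x ^ 2) x ≤
              gsq (fun y => F (G y)) x * (C * et x ^ 2) := mul_le_mul_of_nonneg_left (H.g x) hg0
            _ = u * C := by rw [hu]; ring
        linarith only [sq_nonneg (u / 4 - C), h1, h2]
      have t4 : |(P x * deriv F (G x)) * crs G (fun x => et x ^ 2) x| ≤ u / 4 + C * (rsq x * P x ^ 2) := by
        refine abs_le_of_sq_le_sq ?_ (by positivity)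
        have h1 := LoA_crs G (fun x => et x ^ 2) x
        have h2 : ((P x * deriv F (G x)) * crs G (fun x => et x ^ 2) x) ^ 2 ≤ u * (C * (rsq x * P x ^ 2)) := by
          calc ((P x * deriv F (G x)) * crs G (fun x => et x ^ 2) x) ^ 2
              = (P x * deriv F (G x)) ^ 2 * crs G (fun x => et x ^ 2) x ^ 2 := by ring
            _ ≤ (P x * deriv F (G x)) ^ 2 * (rsq x * gsq G x * gsq (fun x => et x ^ 2) x) :=
                mul_le_mul_of_nonneg_left h1 (sq_nonneg _)
            _ ≤ (P x * deriv F (G x)) ^ 2 * (rsq x * gsq G x * (C * et x ^ 2)) := by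
                refine mul_le_mul_of_nonneg_left ?_ (sq_nonneg _)
                exact mul_le_mul_of_nonneg_left (H.g x) (mul_nonneg hr0 hgG)
            _ = u * (C * (rsq x * P x ^ 2)) := by rw [hu, hgsqf]; ring
        linarith only [sq_nonneg (u / 4 - C * (rsq x * P x ^ 2)), h2]
      have t6 := mul_le_mul_of_nonneg_left (LoA_B_le (P := P) hx) hCp.le
      have t7 := neg_abs_le (∑ i, pd i (fun y => F (G y)) x * pd i (fun x => et x ^ 2) x)
      have t8 := le_abs_self ((P x * deriv F (G x)) * crs G (fun x => et x ^ 2) x)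
      linarith
    · obtain ⟨z1, z2, z3, z4⟩ := H.z x hx
      have z5 : crs G (fun x => et x ^ 2) x = 0 := by unfold crs; rw [z2, z4]; ring
      have z6 := LoA_B_nonneg P x
      rw [z5, z4]
      simp only [z2, z1]
      simp
      positivity
  rw [e1]
  refine hmono.trans ?_
  rw [integral_add (j6.const_mul _) (j7.const_mul _), integral_const_mul, integral_const_mul]
  have := mul_le_mul_of_nonneg_left hB hCp.le
  linarith

theorem enB : ∃ C : ℝ, 0 < C ∧ ∀ (M : ℝ), 1 ≤ M → ∀ (F : ℝ → ℝ) (G P : E3 → ℝ), ContDiff ℝ ∞ F → ContDiff ℝ ∞ G → Continuous P →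
    (∀ x ∈ Metric.closedBall (0 : E3) (3/4), |F (G x)| ≤ M ∧ deriv F (G x) ^ 2 ≤ M * deriv (deriv F) (G x)) →
    En F G P (fun x => et x ^ 2) ≤
      - (1/2) * (∫ x, deriv (deriv F) (G x) * gsq G x * et x ^ 2) + C * M * (1 + √(A4 P)) := by
  obtain ⟨C, H⟩ := LoA_et
  have hCp := H.pos
  refine ⟨3 * C * (2 * (1 + volume.real (Metric.ball (0 : E3) 1))), by positivity, ?_⟩
  intro M hM F G P hF hG hP hyp
  have hf : ContDiff ℝ ∞ (fun y => F (G y)) := hF.comp hG
  have hF1 : ContDiff ℝ ∞ (deriv F) := (contDiff_infty_iff_deriv.1 hF).2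
  have hF2 : ContDiff ℝ ∞ (deriv (deriv F)) := (contDiff_infty_iff_deriv.1 hF1).2
  have j1 : Integrable (fun x => (- deriv (deriv F) (G x) * gsq G x) * et x ^ 2) :=
    LoA_i1 H ((hF2.continuous.comp hG.continuous).neg.mul (LoA_gsq_cont hG))
  have j2 : Integrable (fun x => F (G x) * lap (fun x => et x ^ 2) x) := LoA_i2 H hf.continuous
  have j3 : Integrable (fun x => F (G x) * (2 / rsq x * rdr (fun x => et x ^ 2) x)) := LoA_i3 H hf.continuous
  have j4 : Integrable (fun x => (P x * deriv F (G x)) * crs G (fun x => et x ^ 2) x) :=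
    LoA_i4 H (hP.mul (hF1.continuous.comp hG.continuous)) hG
  have j6 : Integrable (fun x => deriv (deriv F) (G x) * gsq G x * et x ^ 2) :=
    LoA_i1 H ((hF2.continuous.comp hG.continuous).mul (LoA_gsq_cont hG))
  obtain ⟨j7, hB⟩ := LoA_B_int hP
  have jall : Integrable (fun x => - deriv (deriv F) (G x) * gsq G x * et x ^ 2 +
      F (G x) * (lap (fun x => et x ^ 2) x + 2 / rsq x * rdr (fun x => et x ^ 2) x) +
      P x * deriv F (G x) * crs G (fun x => et x ^ 2) x) := by
    refine (((j1.add j2).add j3).add j4).congr ?_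
    filter_upwards with x
    simp only [Pi.add_apply]
    ring
  have hmono : En F G P (fun x => et x ^ 2) ≤
      ∫ x, (-(1/2) * (deriv (deriv F) (G x) * gsq G x * et x ^ 2) + 3 * C * M * LoA_B P x) := by
    unfold En
    refine integral_mono jall ((j6.const_mul _).add (j7.const_mul _)) fun x => ?_
    simp only []
    by_cases hx : x ∈ Metric.closedBall (0 : E3) (3/4)
    · obtain ⟨hFx, hFx2⟩ := hyp x hx
      have hgG := gsq_nonneg G x
      have hr0 := LoA_rsq_nonneg x
      have hM0 : 0 < M := by linarith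
      have hF20 : 0 ≤ deriv (deriv F) (G x) := by
        have := (sq_nonneg (deriv F (G x))).trans hFx2
        exact nonneg_of_mul_nonneg_right this hM0
      set u := deriv (deriv F) (G x) * gsq G x * et x ^ 2 with hu
      have hu0 : 0 ≤ u := by positivity
      have t1 : - deriv (deriv F) (G x) * gsq G x * et x ^ 2 = - u := by rw [hu]; ring
      have h4 : |2 / rsq x| * |rdr (fun x => et x ^ 2) x| ≤ 2 * C := by
        have h1 := H.ra x
        rcases hr0.eq_or_lt with h | h
        · rw [← h]; simp; exact hCp.le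
        · rw [abs_of_pos (by positivity), div_mul_eq_mul_div, div_le_iff₀ h]
          nlinarith
      have t2 : F (G x) * (lap (fun x => et x ^ 2) x + 2 / rsq x * rdr (fun x => et x ^ 2) x) ≤ M * (3 * C) := by
        refine (le_abs_self _).trans ?_
        rw [abs_mul]
        refine mul_le_mul hFx ?_ (abs_nonneg _) hM0.le
        refine (abs_add_le _ _).trans ?_
        rw [abs_mul]
        have := H.l x
        linarith
      have t4 : |P x * deriv F (G x) * crs G (fun x => et x ^ 2) x| ≤ u / 2 + C * M * (rsq x * P x ^ 2) / 2 := by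
        refine abs_le_of_sq_le_sq ?_ (by positivity)
        have h1 := LoA_crs G (fun x => et x ^ 2) x
        have h2 : (P x * deriv F (G x) * crs G (fun x => et x ^ 2) x) ^ 2 ≤ u * (C * M * (rsq x * P x ^ 2)) := by
          calc (P x * deriv F (G x) * crs G (fun x => et x ^ 2) x) ^ 2
              = (P x ^ 2 * deriv F (G x) ^ 2) * crs G (fun x => et x ^ 2) x ^ 2 := by ring
            _ ≤ (P x ^ 2 * deriv F (G x) ^ 2) * (rsq x * gsq G x * gsq (fun x => et x ^ 2) x) :=
                mul_le_mul_of_nonneg_left h1 (by positivity)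
            _ ≤ (P x ^ 2 * deriv F (G x) ^ 2) * (rsq x * gsq G x * (C * et x ^ 2)) := by
                refine mul_le_mul_of_nonneg_left ?_ (by positivity)
                exact mul_le_mul_of_nonneg_left (H.g x) (mul_nonneg hr0 hgG)
            _ ≤ (P x ^ 2 * (M * deriv (deriv F) (G x))) * (rsq x * gsq G x * (C * et x ^ 2)) := by
                refine mul_le_mul_of_nonneg_right ?_ (by positivity)
                exact mul_le_mul_of_nonneg_left hFx2 (by positivity)
            _ = u * (C * M * (rsq x * P x ^ 2)) := by rw [hu]; ring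
        linarith only [sq_nonneg (u / 2 - C * M * (rsq x * P x ^ 2) / 2), h2]
      have t6 := mul_le_mul_of_nonneg_left (LoA_B_le (P := P) hx) (mul_nonneg (mul_nonneg (by norm_num : (0 : ℝ) ≤ 3) hCp.le) hM0.le)
      have t8 := le_abs_self (P x * deriv F (G x) * crs G (fun x => et x ^ 2) x)
      have t9 : 0 ≤ C * M * (rsq x * P x ^ 2) := by positivity
      rw [t1]
      linarith only [t2, t4, t6, t8, t9]
    · obtain ⟨z1, z2, z3, z4⟩ := H.z x hx
      have z5 : crs G (fun x => et x ^ 2) x = 0 := by unfold crs; rw [z2, z4]; ring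
      have z6 := LoA_B_nonneg P x
      rw [z5, z4, z3, z1]
      simp
      positivity
  refine hmono.trans ?_
  rw [integral_add (j6.const_mul _) (j7.const_mul _), integral_const_mul, integral_const_mul]
  have := mul_le_mul_of_nonneg_left hB (mul_nonneg (mul_nonneg (by norm_num : (0 : ℝ) ≤ 3) hCp.le) (by linarith : (0 : ℝ) ≤ M))
  linarith

end Pool.Agent.H72.CC
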