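/-
ROW InB (MP_09540e_CC). The axis supplies mass to `1 - Γ`. PROOF. `b₀ = max |Γ|` over the compact `[-1,0] × closedBall 0 (3/4)`, `b₀ < 1`. Write `H t = ∫ (1 - Γ t) et²`, `A t = A4 (P t)` (continuous, int_cont), `∫_{-1}^0 A ≤ Λ` (Jensen/Hoelder from `∫ A⁵ ≤ Λ⁵`),
`∫_{-1}^0 √A ≤ √Λ`. STEP 1: `F` from sqr (Ext.lean) for `b₀`; en1 and enB (M = 2) integrated over `[-1,-1/2]`: with `D t = ∫ (1-Γ)^(-3/2) gsq Γ et²` (so `∫ F''(Γ) gsq Γ et² = D/4`):
`(1/8) ∫_{-1}^{-1/2} D ≤ ∫ F(Γ(-1)) et² - ∫ F(Γ(-1/2)) et² + 2 C ∫ (1 + √A) ≤ C √Λ` (`Λ ≥ 1`). STEP 2: en1 with `F = id`, `η = zc (1/4) (1/2) ^ 2 =: η₁`: `m t = ∫ Γ η₁`, `m' = ∫ Γ (lap η₁ + 2/rsq rdr η₁) + ∫ P crs Γ η₁`. Let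
`κ₀ = - ∫ (lap η₁ + 2/rsq rdr η₁) = - ∫ 2/rsq rdr η₁ > 0` (`∫ lap η₁ = 0`; `rdr η₁ ≤ 0` and `2/rsq rdr η₁ = 4 × (derivative of the profile in ‖x‖²)` is negative on a set of positive measure: if `κ₀ = 0` then `rdr η₁ = 0` everywhere by continuity,
so `η₁` would be constant along `(s, 0, 0)`, but it is 1 at `s = 0` and 0 at `s = 1`). `τ t = - (t+1)(t+1/2) ≥ 0` on `[-1,-1/2]`, zero at both ends, `∫ τ = 1/48`. `0 = ∫ (τ m)' = ∫ τ' m + ∫ τ m'`. With `Γ = 1 - h`: `∫ τ' m = - ∫ τ' ∫ h η₁`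
(`∫ τ' = 0`), `∫ Γ (lap η₁ + ..) = - κ₀ - ∫ h (lap η₁ + ..)`. So `κ₀/48 ≤ C ∫_{-1}^{-1/2} ∫ h 1_{ball 0 1/2} + ∫ τ |∫ P crs Γ η₁| ≤ C S + C ∫ √D (A H)^(1/4)`, `S = ∫_{-1}^{-1/2} H` (`et = 1` on the support of `η₁`, `h ≥ 0` there and `h et² ≥ 0`), inA.
`∫ √D (A H)^(1/4) ≤ (∫ D)^(1/2) (∫ (A H)^(1/2))^(1/2) ≤ C Λ^(1/4) ((∫ A)^(1/2) S^(1/2))^(1/2) ≤ C Λ^(1/2) S^(1/4)`. So `c₁ ≤ C S + C Λ^(1/2) S^(1/4)`: either `S ≥ c` or `S^(1/4) ≥ c Λ^(-1/2)`, in both cases `S ≥ c Λ^(-2)`.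
-/
import Pool.Agent.H72.CC.En1
import Pool.Agent.H72.CC.LoA
import Pool.Agent.H72.CC.InA
import Pool.Agent.H72.CC.Ext

set_option autoImplicit false

open Set Filter Topology MeasureTheory
open scoped ContDiff

namespace Pool.Agent.H72.CC

open Pool.Agent.H16 Pool.Agent.H87.NS

/-- the cut-off -/
noncomputable def InB_e (x : E3) : ℝ := zc (1/4) (1/2) x ^ 2

/-- the weight of the drift free part -/
noncomputable def InB_g (x : E3) : ℝ := lap InB_e x + 2 / rsq x * rdr InB_e x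

theorem InB_e_smooth : ContDiff ℝ ∞ InB_e := (zc_smooth _ _).pow 2

theorem InB_e_supp : HasCompactSupport InB_e ∧ tsupport InB_e ⊆ Metric.closedBall (0 : E3) (1/2) :=
  zc_supp (by norm_num) (by norm_num) two_ne_zero

theorem InB_rdr_cont {f : E3 → ℝ} (hf : ContDiff ℝ ∞ f) : Continuous (rdr f) := by
  unfold rdr
  exact ((LevX_coord_cd 0).continuous.mul (pd_smooth hf 0).continuous).add
    ((LevX_coord_cd 1).continuous.mul (pd_smooth hf 1).continuous)

theorem InB_lap_cont {f : E3 → ℝ} (hf : ContDiff ℝ ∞ f) : Continuous (lap f) := by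
  unfold lap
  exact continuous_finsetSum _ fun i _ => (pd_smooth (pd_smooth hf i) i).continuous

theorem InB_gsq_cont {f : E3 → ℝ} (hf : ContDiff ℝ ∞ f) : Continuous (gsq f) := by
  unfold gsq
  exact continuous_finsetSum _ fun i _ => (pd_smooth hf i).continuous.pow 2

theorem InB_ev {f : E3 → ℝ} {x : E3} (hx : x ∉ tsupport f) : ∀ᶠ y in 𝓝 x, f y = 0 := by
  have h1 : (tsupport f)ᶜ ∈ 𝓝 x := (isClosed_tsupport f).isOpen_compl.mem_nhds hx
  filter_upwards [h1] with y hy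
  exact image_eq_zero_of_notMem_tsupport hy

theorem InB_pd0 {f : E3 → ℝ} {x : E3} (hx : x ∉ tsupport f) (i : Fin 3) : pd i f x = 0 :=
  LevX_pd_zero (InB_ev hx) i

theorem InB_lap0 {f : E3 → ℝ} {x : E3} (hx : x ∉ tsupport f) : lap f x = 0 := by
  unfold lap
  refine Finset.sum_eq_zero fun i _ => ?_
  refine LevX_pd_zero ?_ i
  have h1 : (tsupport f)ᶜ ∈ 𝓝 x := (isClosed_tsupport f).isOpen_compl.mem_nhds hx
  filter_upwards [h1] with y hy
  exact InB_pd0 hy i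

theorem InB_out {x : E3} (hx : 1/2 < ‖x‖) : x ∉ tsupport InB_e := by
  intro h
  have h1 := InB_e_supp.2 h
  rw [Metric.mem_closedBall, dist_zero_right] at h1
  linarith

theorem InB_g0 {x : E3} (hx : 1/2 < ‖x‖) : InB_g x = 0 := by
  have h := InB_out hx
  rw [InB_g, InB_lap0 h, rdr, InB_pd0 h, InB_pd0 h]
  ring

theorem InB_g_meas : Measurable InB_g := by
  unfold InB_g
  exact (InB_lap_cont InB_e_smooth).measurable.add
    ((measurable_const.div LevX_rsq_cd.continuous.measurable).mul (InB_rdr_cont InB_e_smooth).measurable)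

/-- the bounds from the cut-off estimates -/
theorem InB_bd : ∃ C : ℝ, 0 < C ∧ ∀ x : E3, |lap InB_e x| ≤ C ∧ rdr InB_e x ≤ 0 ∧ |rdr InB_e x| ≤ C * rsq x := by
  obtain ⟨C, hC, h⟩ := zc_pow 2 le_rfl
  refine ⟨16 * C, by positivity, fun x => ?_⟩
  obtain ⟨-, -, h1, h2, h3⟩ := h (1/4) (1/2) (by norm_num) (by norm_num) (by norm_num) x
  have hr : 0 ≤ rsq x := by unfold rsq; positivity
  refine ⟨?_, h2, ?_⟩
  · refine h1.trans (le_of_eq ?_)
    norm_num
    ring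
  · refine h3.trans ?_
    have h4 : C / ((1:ℝ) / 2 - 1 / 4) = 4 * C := by
      norm_num
      ring
    rw [h4]
    nlinarith [mul_nonneg hC.le hr]

theorem InB_g_bd : ∃ C : ℝ, 0 < C ∧ ∀ x : E3, |InB_g x| ≤ C := by
  obtain ⟨C, hC, h⟩ := InB_bd
  refine ⟨3 * C, by positivity, fun x => ?_⟩
  obtain ⟨h1, -, h2⟩ := h x
  have hr : 0 ≤ rsq x := by unfold rsq; positivity
  have h3 : |2 / rsq x * rdr InB_e x| ≤ 2 * C := by
    rw [abs_mul, abs_div, abs_of_nonneg hr, abs_two]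
    rcases hr.eq_or_lt with h0 | h0
    · rw [← h0]
      simp
      exact hC.le
    · rw [div_mul_eq_mul_div, div_le_iff₀ h0]
      linarith
  unfold InB_g
  calc |lap InB_e x + 2 / rsq x * rdr InB_e x| ≤ |lap InB_e x| + |2 / rsq x * rdr InB_e x| := abs_add_le _ _
    _ ≤ 3 * C := by linarith

theorem InB_int {f g : E3 → ℝ} (hf : Continuous f) (hg : Measurable g) {C : ℝ} (hC : ∀ x, |g x| ≤ C) {R : ℝ}
    (h0 : ∀ x, R < ‖x‖ → g x = 0) : Integrable (fun x => f x * g x) := by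
  have h1 : IntegrableOn (fun x => f x * g x) (Metric.closedBall (0 : E3) R) := by
    obtain ⟨M, hM⟩ := (isCompact_closedBall (0 : E3) R).exists_bound_of_continuousOn hf.continuousOn
    refine Measure.integrableOn_of_bounded (M := M * C) ?_ (hf.measurable.mul hg).aestronglyMeasurable ?_
    · exact (isCompact_closedBall (0 : E3) R).measure_lt_top.ne
    · refine (ae_restrict_iff' measurableSet_closedBall).2 (Eventually.of_forall fun x hx => ?_)
      rw [norm_mul]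
      have h2 := hM x hx
      have h3 := hC x
      exact mul_le_mul h2 h3 (abs_nonneg _) ((norm_nonneg _).trans h2)
  refine (integrableOn_iff_integrable_of_support_subset ?_).1 h1
  intro x hx
  by_contra hn
  rw [Metric.mem_closedBall, dist_zero_right, not_le] at hn
  exact hx (by simp [h0 x hn])

theorem InB_g_int {f : E3 → ℝ} (hf : Continuous f) : Integrable (fun x => f x * InB_g x) := by
  obtain ⟨C, hC, h⟩ := InB_g_bd
  exact InB_int hf InB_g_meas h fun x hx => InB_g0 hx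

/-- continuous with support in the ball -/
theorem InB_ci {f : E3 → ℝ} (hf : Continuous f) {R : ℝ} (h0 : ∀ x, R < ‖x‖ → f x = 0) : Integrable f := by
  refine hf.integrable_of_hasCompactSupport (HasCompactSupport.intro (isCompact_closedBall (0 : E3) R) fun x hx => ?_)
  rw [Metric.mem_closedBall, dist_zero_right, not_le] at hx
  exact h0 x hx

theorem InB_neg : ∫ x, InB_g x < 0 := by
  obtain ⟨C, hC, h⟩ := InB_bd
  have hl : ∫ x, lap InB_e x = 0 := by
    have h1 := (ib_lap (f := fun _ => (1 : ℝ)) contDiff_const InB_e_smooth InB_e_supp.1).2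
    have h2 : ∀ x : E3, lap (fun _ : E3 => (1 : ℝ)) x = 0 := by
      intro x
      unfold lap pd
      simp
    simp only [h2, zero_mul, integral_zero, one_mul] at h1
    exact h1.symm
  have hli : Integrable (lap InB_e) := InB_ci (InB_lap_cont InB_e_smooth) (R := 1/2) fun x hx => InB_lap0 (InB_out hx)
  have hgi : Integrable InB_g := by
    have := InB_g_int (f := fun _ => (1 : ℝ)) continuous_const
    simpa using this
  have hu : Integrable (fun x : E3 => -(2 / rsq x * rdr InB_e x)) := by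
    have h1 := (hli.sub hgi)
    refine h1.congr (Eventually.of_forall fun x => ?_)
    simp only [Pi.sub_apply, InB_g]
    ring
  have h0 : ∀ x : E3, 0 ≤ -(2 / rsq x * rdr InB_e x) := by
    intro x
    have hr : 0 ≤ rsq x := by unfold rsq; positivity
    have h1 := (h x).2.1
    have h2 : 0 ≤ 2 / rsq x := by positivity
    nlinarith [mul_nonneg h2 (neg_nonneg.2 h1)]
  have hex : ∃ x : E3, rdr InB_e x ≠ 0 := by
    by_contra hn
    push Not at hn
    have hd : ∀ s : ℝ, HasDerivAt (fun s : ℝ => InB_e (s • e 0)) (pd 0 InB_e (s • e 0)) s := by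
      intro s
      have h1 : HasFDerivAt InB_e (fderiv ℝ InB_e (s • e 0)) (s • e 0) :=
        (InB_e_smooth.differentiable (by simp) _).hasFDerivAt
      have h2 : HasDerivAt (fun s : ℝ => s • e 0) (e 0) s := by
        have := (hasDerivAt_id s).smul_const (e 0)
        simpa using this
      exact h1.comp_hasDerivAt s h2
    obtain ⟨c, hc, hc2⟩ := exists_hasDerivAt_eq_slope (fun s : ℝ => InB_e (s • e 0)) _ (show (0:ℝ) < 1 by norm_num)
      (fun s _ => (hd s).continuousAt.continuousWithinAt) (fun s _ => hd s)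
    have h3 : rdr InB_e (c • e 0) = c * pd 0 InB_e (c • e 0) := by
      unfold rdr
      simp [e]
    have h4 : pd 0 InB_e (c • e 0) = 0 := by
      have h5 := hn (c • e 0)
      rw [h3] at h5
      rcases mul_eq_zero.1 h5 with h6 | h6
      · exact absurd h6 hc.1.ne'
      · exact h6
    rw [h4] at hc2
    have h5 : InB_e ((1:ℝ) • e 0) = 0 := by
      unfold InB_e
      rw [zc_zero (by norm_num) (by norm_num) (by simp [e]; norm_num)]
      norm_num
    have h6 : InB_e ((0:ℝ) • e 0) = 1 := by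
      unfold InB_e
      rw [zc_one (by norm_num) (by norm_num) (by simp)]
      norm_num
    rw [h5, h6] at hc2
    norm_num at hc2
  have hsupp : Function.support (fun x : E3 => -(2 / rsq x * rdr InB_e x)) = {x | rdr InB_e x ≠ 0} := by
    ext x
    rw [Function.mem_support, mem_ofPred_eq, neg_ne_zero]
    constructor
    · intro h1 h2
      exact h1 (by rw [h2, mul_zero])
    · intro h1
      have h2 : rsq x ≠ 0 := by
        intro h3
        have h4 := (h x).2.2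
        rw [h3, mul_zero] at h4
        exact h1 (abs_eq_zero.1 (le_antisymm h4 (abs_nonneg _)))
      exact mul_ne_zero (div_ne_zero two_ne_zero h2) h1
  have hpos : 0 < ∫ x : E3, -(2 / rsq x * rdr InB_e x) := by
    rw [integral_pos_iff_support_of_nonneg h0 hu, hsupp]
    refine IsOpen.measure_pos _ ?_ hex
    exact isOpen_ne_fun (InB_rdr_cont InB_e_smooth) continuous_const
  have h1 : ∫ x, InB_g x = (∫ x, lap InB_e x) - ∫ x : E3, -(2 / rsq x * rdr InB_e x) := by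
    rw [← integral_sub hli hu]
    refine integral_congr_ae (Eventually.of_forall fun x => ?_)
    simp only [InB_g]
    ring
  rw [h1, hl]
  linarith

theorem InB_et_cont : Continuous et := (zc_smooth _ _).continuous

theorem InB_et0 {x : E3} (hx : 3/4 < ‖x‖) : et x = 0 := zc_zero (by norm_num) (by norm_num) hx.le

theorem InB_e_et (x : E3) : 0 ≤ InB_e x ∧ InB_e x ≤ et x ^ 2 := by
  refine ⟨by unfold InB_e; positivity, ?_⟩
  rcases le_total ‖x‖ (1/2) with h | h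
  · have h1 : et x = 1 := zc_one (by norm_num) (by norm_num) h
    rw [h1]
    unfold InB_e
    have h2 := zc_nonneg (1/4) (1/2) x
    have h3 := zc_le (1/4) (1/2) x
    nlinarith
  · unfold InB_e
    rw [zc_zero (by norm_num) (by norm_num) h, zero_pow two_ne_zero]
    positivity

theorem InB_g_et {C : ℝ} (h : ∀ x, |InB_g x| ≤ C) (x : E3) : |InB_g x| ≤ C * et x ^ 2 := by
  have hC : 0 ≤ C := (abs_nonneg _).trans (h x)
  rcases le_or_gt ‖x‖ (1/2) with h1 | h1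
  · have h2 : et x = 1 := zc_one (by norm_num) (by norm_num) h1
    rw [h2]
    linarith [h x]
  · rw [InB_g0 h1, abs_zero]
    positivity

theorem InB_fix {Cg : ℝ} (hCg : ∀ x, |InB_g x| ≤ Cg) {G P : E3 → ℝ} (hG : ContDiff ℝ ∞ G) (hP : Continuous P)
    (hb : ∀ x ∈ Metric.closedBall (0 : E3) (3/4), |G x| < 1) :
    0 ≤ ∫ x, (1 - G x) * et x ^ 2 ∧
    (∫ x, InB_e x) - (∫ x, (1 - G x) * et x ^ 2) ≤ ∫ x, G x * InB_e x ∧ ∫ x, G x * InB_e x ≤ ∫ x, InB_e x ∧
    En (fun s => s) G P InB_e ≤ (∫ x, InB_g x) + Cg * (∫ x, (1 - G x) * et x ^ 2) +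
      |∫ x, P x * crs G InB_e x| := by
  have hGc := hG.continuous
  have hec := InB_e_smooth.continuous
  have hetc := InB_et_cont
  have hpos : ∀ x : E3, ‖x‖ ≤ 3/4 → 0 ≤ 1 - G x := by
    intro x hx
    have h1 := hb x (by rw [Metric.mem_closedBall, dist_zero_right]; exact hx)
    have h2 := (abs_lt.1 h1).2
    linarith
  have hH0 : ∀ x : E3, 0 ≤ (1 - G x) * et x ^ 2 := by
    intro x
    rcases le_or_gt ‖x‖ (3/4) with h | h
    · exact mul_nonneg (hpos x h) (sq_nonneg _)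
    · rw [InB_et0 h]
      simp
  have hHi : Integrable (fun x : E3 => (1 - G x) * et x ^ 2) := by
    refine InB_ci ((continuous_const.sub hGc).mul (hetc.pow 2)) (R := 3/4) fun x hx => ?_
    rw [InB_et0 hx]
    simp
  have he0 : ∀ x : E3, 3/4 < ‖x‖ → InB_e x = 0 := by
    intro x hx
    have h1 := InB_e_et x
    rw [InB_et0 hx] at h1
    have h2 : InB_e x ≤ 0 := by simpa using h1.2
    exact le_antisymm h2 h1.1
  have hei : Integrable InB_e := InB_ci hec he0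
  have hGei : Integrable (fun x => G x * InB_e x) := InB_ci (hGc.mul hec) (R := 3/4) fun x hx => by rw [he0 x hx, mul_zero]
  have hle : ∀ x : E3, 0 ≤ InB_e x - G x * InB_e x ∧ InB_e x - G x * InB_e x ≤ (1 - G x) * et x ^ 2 := by
    intro x
    rcases le_or_gt ‖x‖ (3/4) with h | h
    · have h1 := hpos x h
      have h2 := InB_e_et x
      have h3 : InB_e x - G x * InB_e x = (1 - G x) * InB_e x := by ring
      rw [h3]
      exact ⟨mul_nonneg h1 h2.1, mul_le_mul_of_nonneg_left h2.2 h1⟩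
    · rw [he0 x h, InB_et0 h]
      simp
  have h1 : (∫ x, InB_e x) - (∫ x, G x * InB_e x) = ∫ x, (InB_e x - G x * InB_e x) := (integral_sub hei hGei).symm
  have h2 : 0 ≤ ∫ x, (InB_e x - G x * InB_e x) := integral_nonneg fun x => (hle x).1
  have h3 : ∫ x, (InB_e x - G x * InB_e x) ≤ ∫ x, (1 - G x) * et x ^ 2 :=
    integral_mono (hei.sub hGei) hHi fun x => (hle x).2
  refine ⟨integral_nonneg hH0, by linarith, by linarith, ?_⟩
  have hcc : Continuous (crs G InB_e) := by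
    unfold crs
    exact ((pd_smooth hG 2).continuous.mul (InB_rdr_cont InB_e_smooth)).sub
      ((InB_rdr_cont hG).mul (pd_smooth InB_e_smooth 2).continuous)
  have hci : Integrable (fun x => P x * crs G InB_e x) := by
    refine InB_ci (hP.mul hcc) (R := 1/2) fun x hx => ?_
    have h := InB_out hx
    rw [crs, rdr, InB_pd0 h, InB_pd0 h, InB_pd0 h]
    ring
  have hgi : Integrable InB_g := by
    have := InB_g_int (f := fun _ => (1 : ℝ)) continuous_const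
    simpa using this
  have hEn : En (fun s => s) G P InB_e = (∫ x, G x * InB_g x) + ∫ x, P x * crs G InB_e x := by
    rw [← integral_add (InB_g_int hGc) hci]
    unfold En
    refine integral_congr_ae (Eventually.of_forall fun x => ?_)
    have d1 : deriv (fun s : ℝ => s) = fun _ => 1 := by
      funext s
      exact deriv_id s
    simp only [d1, deriv_const, InB_g]
    ring
  have h4 : ∫ x, G x * InB_g x ≤ (∫ x, InB_g x) + Cg * (∫ x, (1 - G x) * et x ^ 2) := by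
    rw [← integral_const_mul, ← integral_add hgi (hHi.const_mul Cg)]
    refine integral_mono (InB_g_int hGc) (hgi.add (hHi.const_mul Cg)) fun x => ?_
    simp only
    have h5 := InB_g_et hCg x
    have h6 : -(Cg * et x ^ 2) ≤ InB_g x := by
      have := neg_abs_le (InB_g x)
      linarith
    rcases le_or_gt ‖x‖ (3/4) with h | h
    · have h7 := mul_le_mul_of_nonneg_left h6 (hpos x h)
      linarith only [h7]
    · rw [InB_g0 (by linarith), InB_et0 h]
      simp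
  rw [hEn]
  have h5 := le_abs_self (∫ x, P x * crs G InB_e x)
  linarith

theorem InB_young {d a h lam mu : ℝ} (hd : 0 ≤ d) (ha : 0 ≤ a) (hh : 0 ≤ h) (hl : 0 < lam) (hm : 0 < mu) :
    √d * (a * h) ^ (1/4 : ℝ) ≤ lam * d + (4 * lam)⁻¹ * (mu * a + (4 * mu)⁻¹ * h) := by
  have hah : 0 ≤ a * h := mul_nonneg ha hh
  obtain ⟨w, hw⟩ : ∃ w : ℝ, w = (a * h) ^ (1/4 : ℝ) := ⟨_, rfl⟩
  have hw2 : w ^ 2 = √a * √h := by
    rw [hw, ← Real.rpow_natCast, ← Real.rpow_mul hah, ← Real.sqrt_mul ha, Real.sqrt_eq_rpow]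
    norm_num
  have key : ∀ {x y l : ℝ}, 0 < l → x * y ≤ l * x ^ 2 + (4 * l)⁻¹ * y ^ 2 := by
    intro x y l hl0
    have h1 : l * x ^ 2 + (4 * l)⁻¹ * y ^ 2 - x * y = (4 * l)⁻¹ * (2 * l * x - y) ^ 2 := by
      field_simp
      ring
    have h2 : 0 ≤ (4 * l)⁻¹ * (2 * l * x - y) ^ 2 := by positivity
    linarith
  have h1 := key (x := √d) (y := w) hl
  have h2 := key (x := √a) (y := √h) hm
  rw [Real.sq_sqrt ha, Real.sq_sqrt hh] at h2
  rw [Real.sq_sqrt hd, hw2] at h1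
  rw [← hw]
  refine h1.trans ?_
  have h3 : 0 ≤ (4 * lam)⁻¹ := by positivity
  linarith [mul_le_mul_of_nonneg_left h2 h3]

theorem InB_pow {a L : ℝ} (ha : 0 ≤ a) (hL : 0 < L) : √a ≤ √L * (1 + a ^ 5 / L ^ 5) ∧ a ≤ L * (1 + a ^ 5 / L ^ 5) := by
  obtain ⟨u, hu⟩ : ∃ u : ℝ, u = a / L := ⟨_, rfl⟩
  have hu0 : 0 ≤ u := by rw [hu]; positivity
  have hau : a = L * u := by rw [hu]; field_simp
  have h5 : a ^ 5 / L ^ 5 = u ^ 5 := by rw [hu, div_pow]
  have h1 : √u ≤ 1 + u ^ 5 ∧ u ≤ 1 + u ^ 5 := by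
    have hu5 : 0 ≤ u ^ 5 := by positivity
    rcases le_total u 1 with h | h
    · have h2 : √u ≤ 1 := by
        have := Real.sqrt_le_sqrt h
        rwa [Real.sqrt_one] at this
      constructor <;> linarith
    · have h2 : √u ≤ u := by
        rw [Real.sqrt_le_left hu0]
        nlinarith
      have h3 : u ≤ u ^ 5 := le_self_pow₀ h (by norm_num)
      constructor <;> linarith
  rw [h5]
  constructor
  · rw [hau, Real.sqrt_mul hL.le]
    exact mul_le_mul_of_nonneg_left h1.1 (Real.sqrt_nonneg _)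
  · rw [hau]
    exact mul_le_mul_of_nonneg_left h1.2 hL.le

theorem InB_ic {Φ : ℝ → E3 → ℝ} (hΦ : ContinuousOn (fun q : ℝ × E3 => Φ q.1 q.2) (Icc (-1) 0 ×ˢ univ)) :
    ContinuousOn (fun t => ∫ x, Φ t x * et x ^ 2) (Icc (-1) 0) := by
  have h0 : ContinuousOn (fun q : ℝ × E3 => Φ q.1 q.2 * et q.2 ^ 2) (Icc (-1) 0 ×ˢ univ) :=
    hΦ.mul ((InB_et_cont.comp continuous_snd).pow 2).continuousOn
  have h1 := int_cont (Φ := fun t x => Φ t x * et x ^ 2) h0 (S := Metric.closedBall 0 1)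
    measurableSet_closedBall le_rfl
  refine h1.congr fun t _ => ?_
  refine (setIntegral_eq_integral_of_forall_compl_eq_zero fun x hx => ?_).symm
  rw [Metric.mem_closedBall, dist_zero_right, not_le] at hx
  rw [InB_et0 (by linarith)]
  simp

theorem InB_lin1 {f k : ℝ → ℝ} (a : ℝ) (hf : IntervalIntegrable f volume (-1) (-(1/2)))
    (hk : IntervalIntegrable k volume (-1) (-(1/2))) :
    ∫ t in (-1 : ℝ)..(-(1/2)), (a * f t + k t) =
      a * (∫ t in (-1 : ℝ)..(-(1/2)), f t) + ∫ t in (-1 : ℝ)..(-(1/2)), k t := by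
  rw [intervalIntegral.integral_add (hf.const_mul a) hk, intervalIntegral.integral_const_mul]

theorem InB_lin2 {g : ℝ → ℝ} (c d : ℝ) (hg : IntervalIntegrable g volume (-1) (-(1/2))) :
    ∫ t in (-1 : ℝ)..(-(1/2)), (c + d * g t) = c / 2 + d * ∫ t in (-1 : ℝ)..(-(1/2)), g t := by
  rw [intervalIntegral.integral_add intervalIntegrable_const (hg.const_mul d), intervalIntegral.integral_const_mul,
    intervalIntegral.integral_const, smul_eq_mul]
  ring

/-- the gradient is square integrable in time -/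
theorem InB_one {CB : ℝ} (hB : ∀ (M : ℝ), 1 ≤ M → ∀ (F : ℝ → ℝ) (G P : E3 → ℝ), ContDiff ℝ ∞ F → ContDiff ℝ ∞ G → Continuous P →
    (∀ x ∈ Metric.closedBall (0 : E3) (3/4), |F (G x)| ≤ M ∧ deriv F (G x) ^ 2 ≤ M * deriv (deriv F) (G x)) →
    En F G P (fun x => et x ^ 2) ≤
      - (1/2) * (∫ x, deriv (deriv F) (G x) * gsq G x * et x ^ 2) + CB * M * (1 + √(A4 P))) (hCB : 0 < CB)
    {Γ K P : ℝ → E3 → ℝ} (h : Crc Γ K P) {L : ℝ} (hL : 1 ≤ L) (hA5 : ∫ t in (-1 : ℝ)..(-(1/2)), A4 (P t) ^ 5 ≤ L ^ 5)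
    (hAc : ContinuousOn (fun t => A4 (P t)) (Icc (-1) 0)) (hA0 : ∀ t, 0 ≤ A4 (P t))
    {F : ℝ → ℝ} (hF : ContDiff ℝ ∞ F) (hF0 : F 0 = 0)
    (hFb : ∀ t ∈ Icc (-1 : ℝ) 0, ∀ x ∈ Metric.closedBall (0 : E3) (3/4), |F (Γ t x)| ≤ 1 ∧
      deriv F (Γ t x) ^ 2 ≤ 2 * deriv (deriv F) (Γ t x))
    (hQc : ContinuousOn (fun t => ∫ x, deriv (deriv F) (Γ t x) * gsq (Γ t) x * et x ^ 2) (Icc (-1) 0)) :
    ∫ t in (-1 : ℝ)..(-(1/2)), (∫ x, deriv (deriv F) (Γ t x) * gsq (Γ t) x * et x ^ 2) ≤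
      (4 * (∫ x, et x ^ 2) + 8 * CB) * √L := by
  have hsub : Icc (-1 : ℝ) (-(1/2)) ⊆ Icc (-1) 0 := Icc_subset_Icc le_rfl (by norm_num)
  have hab : (-1 : ℝ) ≤ -(1/2) := by norm_num
  have hη : ContDiff ℝ ∞ (fun x : E3 => et x ^ 2) := (zc_smooth _ _).pow 2
  have hc : HasCompactSupport (fun x : E3 => et x ^ 2) := (zc_supp (by norm_num) (by norm_num) two_ne_zero).1
  obtain ⟨C, hC, hz⟩ := zc_pow 2 le_rfl
  have hr : ∀ x : E3, |rdr (fun x : E3 => et x ^ 2) x| ≤ C / (3/4 - 1/2) * rsq x := fun x =>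
    (hz (1/2) (3/4) (by norm_num) (by norm_num) (by norm_num) x).2.2.2.2
  obtain ⟨Q, hQ⟩ : ∃ Q : ℝ → ℝ, Q = fun t => ∫ x, deriv (deriv F) (Γ t x) * gsq (Γ t) x * et x ^ 2 := ⟨_, rfl⟩
  obtain ⟨A, hA⟩ : ∃ A : ℝ → ℝ, A = fun t => A4 (P t) := ⟨_, rfl⟩
  have hFT := intervalIntegral.integral_eq_sub_of_hasDerivAt_of_le (f := fun t => ∫ x, F (Γ t x) * et x ^ 2)
    (f' := fun t => En F (Γ t) (P t) (fun x => et x ^ 2)) hab ((enT_cont h hF hη hc).mono hsub)
    (fun t ht => en1 h hF hF0 hη hc hr ⟨ht.1, by linarith [ht.2]⟩)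
    (((enT_En h hF hη hc hr).mono hsub).intervalIntegrable_of_Icc hab)
  have hQc' : ContinuousOn Q (Icc (-1) (-(1/2))) := by rw [hQ]; exact hQc.mono hsub
  have hAc' : ContinuousOn A (Icc (-1) (-(1/2))) := by rw [hA]; exact hAc.mono hsub
  have hQi := hQc'.intervalIntegrable_of_Icc hab (μ := volume)
  have hAi : IntervalIntegrable (fun t => A t ^ 5) volume (-1) (-(1/2)) :=
    (hAc'.pow 5).intervalIntegrable_of_Icc hab
  have hL0 : 0 < L := by linarith
  have hpt : ∀ t ∈ Icc (-1 : ℝ) (-(1/2)), En F (Γ t) (P t) (fun x => et x ^ 2) ≤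
      -(1/2) * Q t + (2 * CB * (1 + √L) + 2 * CB * √L / L ^ 5 * A t ^ 5) := by
    intro t ht
    have ht' := hsub ht
    have h1 := hB 2 (by norm_num) F (Γ t) (P t) hF ((crc_cont h).2.2 t ht') (h.smP t ht').continuous
      (fun x hx => ⟨(hFb t ht' x hx).1.trans (by norm_num), (hFb t ht' x hx).2⟩)
    have h2 := (InB_pow (hA0 t) hL0).1
    have h3 : CB * 2 * (1 + √(A4 (P t))) ≤ CB * 2 * (1 + √L * (1 + A4 (P t) ^ 5 / L ^ 5)) :=
      mul_le_mul_of_nonneg_left (by linarith) (by positivity)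
    rw [hQ, hA]
    refine h1.trans ?_
    have h4 : CB * 2 * (1 + √L * (1 + A4 (P t) ^ 5 / L ^ 5)) =
        2 * CB * (1 + √L) + 2 * CB * √L / L ^ 5 * A4 (P t) ^ 5 := by ring
    rw [h4] at h3
    linarith only [h3]
  have hint := intervalIntegral.integral_mono_on hab
    (((enT_En h hF hη hc hr).mono hsub).intervalIntegrable_of_Icc hab)
    ((hQi.const_mul (-(1/2))).add (intervalIntegrable_const.add (hAi.const_mul (2 * CB * √L / L ^ 5)))) hpt
  rw [hFT] at hint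
  rw [InB_lin1 _ hQi (intervalIntegrable_const.add (hAi.const_mul (2 * CB * √L / L ^ 5))),
    InB_lin2 _ _ hAi] at hint
  have hA5' : ∫ t in (-1 : ℝ)..(-(1/2)), A t ^ 5 ≤ L ^ 5 := by rw [hA]; exact hA5
  have h5 : 2 * CB * √L / L ^ 5 * ∫ t in (-1 : ℝ)..(-(1/2)), A t ^ 5 ≤ 2 * CB * √L := by
    have h6 := mul_le_mul_of_nonneg_left hA5' (show 0 ≤ 2 * CB * √L / L ^ 5 by positivity)
    refine h6.trans (le_of_eq ?_)
    field_simp
  have hFI : ∀ t ∈ Icc (-1 : ℝ) 0, |∫ x, F (Γ t x) * et x ^ 2| ≤ ∫ x, et x ^ 2 := by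
    intro t ht
    have hi : Integrable (fun x : E3 => et x ^ 2) := InB_ci (InB_et_cont.pow 2) (R := 3/4) fun x hx => by
      rw [InB_et0 hx]
      simp
    rw [← Real.norm_eq_abs]
    refine norm_integral_le_of_norm_le hi (Eventually.of_forall fun x => ?_)
    rw [norm_mul, Real.norm_eq_abs, Real.norm_eq_abs, abs_of_nonneg (sq_nonneg (et x))]
    rcases le_or_gt ‖x‖ (3/4) with hx | hx
    · have h1 := (hFb t ht x (by rw [Metric.mem_closedBall, dist_zero_right]; exact hx)).1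
      nlinarith only [sq_nonneg (et x), h1]
    · rw [InB_et0 hx]
      simp
  have h6 := abs_le.1 (hFI (-(1/2)) ⟨by norm_num, by norm_num⟩)
  have h7 := abs_le.1 (hFI (-1) ⟨by norm_num, by norm_num⟩)
  have hs1 : 1 ≤ √L := by rw [Real.one_le_sqrt]; exact hL
  have hI0 : 0 ≤ ∫ x : E3, et x ^ 2 := integral_nonneg fun x => sq_nonneg _
  rw [hQ] at hint
  have h9 := mul_le_mul_of_nonneg_left hs1 hI0
  have h10 := mul_le_mul_of_nonneg_left hs1 hCB.le
  linarith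

theorem inB : ∃ c : ℝ, 0 < c ∧ ∀ (Γ K P : ℝ → E3 → ℝ), Crc Γ K P → ∀ Λ : ℝ, 1 ≤ Λ → ∫ t in (-1 : ℝ)..0, A4 (P t) ^ 5 ≤ Λ ^ 5 →
    (∀ t ∈ Icc (-1 : ℝ) 0, ∀ x ∈ Metric.closedBall (0 : E3) (3/4), |Γ t x| < 1) →
    c / Λ ^ 2 ≤ ∫ t in (-1 : ℝ)..(-(1/2)), ∫ x, (1 - Γ t x) * et x ^ 2 := by
  obtain ⟨CB, hCB, hB⟩ := enB
  obtain ⟨CA, hCA, hA⟩ := inA
  obtain ⟨Cg, hCg, hg⟩ := InB_g_bd
  obtain ⟨Cr, hCr, hr⟩ := InB_bd
  obtain ⟨κ, hκ⟩ : ∃ κ : ℝ, κ = -∫ x, InB_g x := ⟨_, rfl⟩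
  have hκ0 : 0 < κ := by rw [hκ]; linarith [InB_neg]
  obtain ⟨C1, hC1⟩ : ∃ C1 : ℝ, C1 = 4 * (4 * (∫ x : E3, et x ^ 2) + 8 * CB) := ⟨_, rfl⟩
  have hI0 : 0 ≤ ∫ x : E3, et x ^ 2 := integral_nonneg fun x => sq_nonneg _
  have hC10 : 0 < C1 := by rw [hC1]; positivity
  obtain ⟨ε, hε⟩ : ∃ ε : ℝ, ε = κ / (96 * CA * (C1 + 1/2)) := ⟨_, rfl⟩
  have hε0 : 0 < ε := by rw [hε]; positivity
  have hε1 : CA * (C1 + 1/2) * ε = κ / 96 := by
    rw [hε]
    field_simp
  obtain ⟨C2, hC2⟩ : ∃ C2 : ℝ, C2 = 1/2 + Cg + CA / (16 * ε ^ 3) := ⟨_, rfl⟩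
  have hC20 : 0 < C2 := by rw [hC2]; positivity
  refine ⟨κ / (96 * C2), by positivity, ?_⟩
  intro Γ K P h L hL hA5 hb
  have hL0 : 0 < L := by linarith
  have hsub : Icc (-1 : ℝ) (-(1/2)) ⊆ Icc (-1) 0 := Icc_subset_Icc le_rfl (by norm_num)
  have hab : (-1 : ℝ) ≤ -(1/2) := by norm_num
  obtain ⟨hGc, hpc, hGs⟩ := crc_cont h
  -- A
  have hA0 : ∀ t, 0 ≤ A4 (P t) := by
    intro t
    unfold A4
    exact integral_nonneg fun x => by positivity
  have hAc : ContinuousOn (fun t => A4 (P t)) (Icc (-1) 0) := by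
    unfold A4
    refine int_cont (Φ := fun t x => rsq x ^ 2 * P t x ^ 4) ?_ measurableSet_ball Metric.ball_subset_closedBall
    exact ((LevX_rsq_cd.continuous.comp continuous_snd).pow 2).continuousOn.mul (h.conP.pow 4)
  have hA5' : ∫ t in (-1 : ℝ)..(-(1/2)), A4 (P t) ^ 5 ≤ L ^ 5 := by
    have h1 : IntervalIntegrable (fun t => A4 (P t) ^ 5) volume (-1) (-(1/2)) :=
      ((hAc.mono hsub).pow 5).intervalIntegrable_of_Icc hab
    have h2 : IntervalIntegrable (fun t => A4 (P t) ^ 5) volume (-(1/2)) 0 :=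
      ((hAc.mono (Icc_subset_Icc (by norm_num) le_rfl)).pow 5).intervalIntegrable_of_Icc (by norm_num)
    have h3 := intervalIntegral.integral_add_adjacent_intervals h1 h2
    have h4 : 0 ≤ ∫ t in (-(1/2) : ℝ)..0, A4 (P t) ^ 5 :=
      intervalIntegral.integral_nonneg (by norm_num) fun t _ => pow_nonneg (hA0 t) 5
    linarith
  -- the bound for Γ
  obtain ⟨b, hb0, hb1, hbb⟩ : ∃ b : ℝ, 0 ≤ b ∧ b < 1 ∧ ∀ t ∈ Icc (-1 : ℝ) 0, ∀ x ∈ Metric.closedBall (0 : E3) (3/4), |Γ t x| ≤ b := by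
    have hcomp : IsCompact (Icc (-1 : ℝ) 0 ×ˢ Metric.closedBall (0 : E3) (3/4)) :=
      isCompact_Icc.prod (isCompact_closedBall _ _)
    have hne : (Icc (-1 : ℝ) 0 ×ˢ Metric.closedBall (0 : E3) (3/4)).Nonempty :=
      ⟨(0, 0), ⟨⟨by norm_num, le_rfl⟩, by simp; norm_num⟩⟩
    obtain ⟨q, hq, hmax⟩ := hcomp.exists_isMaxOn hne
      (f := fun q : ℝ × E3 => |Γ q.1 q.2|) ((hGc.mono (prod_mono le_rfl (subset_univ _))).abs)
    refine ⟨|Γ q.1 q.2|, abs_nonneg _, hb q.1 hq.1 q.2 hq.2, fun t ht x hx => ?_⟩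
    exact hmax (show (t, x) ∈ Icc (-1 : ℝ) 0 ×ˢ Metric.closedBall (0 : E3) (3/4) from ⟨ht, hx⟩)
  obtain ⟨F, hF, hF0, hFb⟩ := sqr hb1 hb0
  have hF2 : Continuous (deriv (deriv F)) := by
    have h1 : ContDiff ℝ ∞ (deriv F) := ContDiff.iterate_deriv 1 hF
    exact (h1.iterate_deriv 1).continuous
  -- Q
  have hQc : ContinuousOn (fun t => ∫ x, deriv (deriv F) (Γ t x) * gsq (Γ t) x * et x ^ 2) (Icc (-1) 0) := by
    refine InB_ic (Φ := fun t x => deriv (deriv F) (Γ t x) * gsq (Γ t) x) ?_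
    refine (hF2.comp_continuousOn hGc).mul ?_
    unfold gsq
    exact continuousOn_finsetSum _ fun i _ => (hpc i).pow 2
  have hQ := InB_one hB hCB h hL hA5' hAc hA0 hF hF0
    (fun t ht x hx => ⟨(hFb _ (hbb t ht x hx)).1, (hFb _ (hbb t ht x hx)).2.2⟩) hQc
  -- H
  have hHc : ContinuousOn (fun t => ∫ x, (1 - Γ t x) * et x ^ 2) (Icc (-1) 0) :=
    InB_ic (Φ := fun t x => 1 - Γ t x) (continuousOn_const.sub hGc)
  obtain ⟨H, hH⟩ : ∃ H : ℝ → ℝ, H = fun t => ∫ x, (1 - Γ t x) * et x ^ 2 := ⟨_, rfl⟩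
  obtain ⟨A, hAd⟩ : ∃ A : ℝ → ℝ, A = fun t => A4 (P t) := ⟨_, rfl⟩
  obtain ⟨Q, hQd⟩ : ∃ Q : ℝ → ℝ, Q = fun t => ∫ x, deriv (deriv F) (Γ t x) * gsq (Γ t) x * et x ^ 2 := ⟨_, rfl⟩
  obtain ⟨m, hm⟩ : ∃ m : ℝ → ℝ, m = fun t => ∫ x, Γ t x * InB_e x := ⟨_, rfl⟩
  obtain ⟨I1, hI1⟩ : ∃ I1 : ℝ, I1 = ∫ x, InB_e x := ⟨_, rfl⟩
  have hHi : IntervalIntegrable H volume (-1) (-(1/2)) := by
    rw [hH]
    exact (hHc.mono hsub).intervalIntegrable_of_Icc hab
  have hQi : IntervalIntegrable Q volume (-1) (-(1/2)) := by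
    rw [hQd]
    exact (hQc.mono hsub).intervalIntegrable_of_Icc hab
  have hAi : IntervalIntegrable (fun t => A t ^ 5) volume (-1) (-(1/2)) := by
    rw [hAd]
    exact ((hAc.mono hsub).pow 5).intervalIntegrable_of_Icc hab
  have hfix := fun (t : ℝ) (ht : t ∈ Icc (-1 : ℝ) 0) =>
    InB_fix hg (hGs t ht) (h.smP t ht).continuous (hb t ht)
  have hid : ContDiff ℝ ∞ (fun s : ℝ => s) := contDiff_id
  have hrr : ∀ x, |rdr InB_e x| ≤ Cr * rsq x := fun x => (hr x).2.2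
  have hmc : ContinuousOn m (Icc (-1) 0) := by
    rw [hm]
    exact enT_cont h hid InB_e_smooth InB_e_supp.1
  have hEc : ContinuousOn (fun t => En (fun s => s) (Γ t) (P t) InB_e) (Icc (-1) 0) :=
    enT_En h hid InB_e_smooth InB_e_supp.1 hrr
  have hmd : ∀ t ∈ Ioo (-1 : ℝ) 0, HasDerivAt m (En (fun s => s) (Γ t) (P t) InB_e) t := by
    intro t ht
    rw [hm]
    exact en1 h hid rfl InB_e_smooth InB_e_supp.1 hrr ht
  -- lam, mu
  have hsL : 0 < √L := Real.sqrt_pos.2 hL0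
  have hsL2 : √L * √L = L := Real.mul_self_sqrt hL0.le
  obtain ⟨lam, hlam⟩ : ∃ lam : ℝ, lam = ε / √L := ⟨_, rfl⟩
  obtain ⟨mu, hmu⟩ : ∃ mu : ℝ, mu = ε ^ 2 / (L * √L) := ⟨_, rfl⟩
  have hlam0 : 0 < lam := by rw [hlam]; positivity
  have hmu0 : 0 < mu := by rw [hmu]; positivity
  have hFT := intervalIntegral.integral_eq_sub_of_hasDerivAt_of_le
    (f := fun t => -((t + 1) * (t + 1/2)) * (m t - I1) + κ * -(t ^ 3 / 3 + 3 * t ^ 2 / 4 + t / 2))
    (f' := fun t => -(2 * t + 3/2) * (m t - I1) + -((t + 1) * (t + 1/2)) * (En (fun s => s) (Γ t) (P t) InB_e + κ))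
    hab ?_ ?_ ?_
  rotate_left
  · refine ContinuousOn.add (ContinuousOn.mul (by fun_prop) ((hmc.mono hsub).sub continuousOn_const)) (by fun_prop)
  · intro t ht
    have h1 := hmd t ⟨ht.1, by linarith [ht.2]⟩
    have h2 : HasDerivAt (fun t : ℝ => -((t + 1) * (t + 1/2))) (-(1 * (t + 1/2) + (t + 1) * 1)) t :=
      (((hasDerivAt_id t).add_const 1).mul ((hasDerivAt_id t).add_const (1/2))).neg
    have h3 : HasDerivAt (fun t : ℝ => κ * -(t ^ 3 / 3 + 3 * t ^ 2 / 4 + t / 2))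
        (κ * -((3 : ℕ) * t ^ (3 - 1) / 3 + 3 * ((2 : ℕ) * t ^ (2 - 1)) / 4 + 1 / 2)) t :=
      ((((hasDerivAt_pow 3 t).div_const 3).add (((hasDerivAt_pow 2 t).const_mul 3).div_const 4)).add
        ((hasDerivAt_id t).div_const 2)).neg.const_mul κ
    refine ((h2.mul (h1.sub_const I1)).add h3).congr_deriv ?_
    push_cast
    ring
  · refine ContinuousOn.intervalIntegrable_of_Icc hab ?_
    exact (ContinuousOn.mul (by fun_prop) ((hmc.mono hsub).sub continuousOn_const)).add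
      (ContinuousOn.mul (by fun_prop) ((hEc.mono hsub).add continuousOn_const))
  have hpt : ∀ t ∈ Icc (-1 : ℝ) (-(1/2)),
      -(2 * t + 3/2) * (m t - I1) + -((t + 1) * (t + 1/2)) * (En (fun s => s) (Γ t) (P t) InB_e + κ) ≤
      (1/2 + Cg + CA * (4 * lam)⁻¹ * (4 * mu)⁻¹) * H t + (CA * (4 * lam) * Q t +
        (CA * (4 * lam)⁻¹ * mu * L + CA * (4 * lam)⁻¹ * mu * L / L ^ 5 * A t ^ 5)) := by
    intro t ht
    have ht' := hsub ht
    obtain ⟨f1, f2, f3, f4⟩ := hfix t ht'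
    have hJ := hA (Γ t) (P t) (hGs t ht') (h.smP t ht').continuous (hb t ht')
    have hD : ∫ x, (1 - Γ t x) ^ (-(3/2) : ℝ) * gsq (Γ t) x * et x ^ 2 = 4 * Q t := by
      rw [hQd, ← integral_const_mul]
      refine integral_congr_ae (Eventually.of_forall fun x => ?_)
      simp only
      rcases le_or_gt ‖x‖ (3/4) with hx | hx
      · rw [(hFb _ (hbb t ht' x (by rw [Metric.mem_closedBall, dist_zero_right]; exact hx))).2.1]
        ring
      · rw [InB_et0 hx]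
        simp
    have hQ0 : 0 ≤ Q t := by
      rw [hQd]
      refine integral_nonneg fun x => ?_
      simp only [Pi.zero_apply]
      rcases le_or_gt ‖x‖ (3/4) with hx | hx
      · obtain ⟨-, -, g3⟩ := hFb _ (hbb t ht' x (by rw [Metric.mem_closedBall, dist_zero_right]; exact hx))
        have g4 : 0 ≤ deriv (deriv F) (Γ t x) := by linarith only [sq_nonneg (deriv F (Γ t x)), g3]
        exact mul_nonneg (mul_nonneg g4 (gsq_nonneg _ _)) (sq_nonneg _)
      · rw [InB_et0 hx]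
        simp
    have hHt : ∫ x, (1 - Γ t x) * et x ^ 2 = H t := by rw [hH]
    have hAt : A4 (P t) = A t := by rw [hAd]
    have hmt : ∫ x, Γ t x * InB_e x = m t := by rw [hm]
    have hA0' : 0 ≤ A t := hAt ▸ hA0 t
    rw [hHt] at f1 f2 f4 hJ
    rw [hmt, ← hI1] at f2 f3
    rw [hD, hAt] at hJ
    have hκ' : ∫ x, InB_g x = -κ := by rw [hκ]; ring
    rw [hκ'] at f4
    have hJ' : |∫ x, P t x * crs (Γ t) InB_e x| ≤ CA * √(4 * Q t) * (A t * H t) ^ (1/4 : ℝ) := hJ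
    have hY := InB_young (d := 4 * Q t) (a := A t) (h := H t) (by positivity) hA0' f1 hlam0 hmu0
    have hAp := (InB_pow hA0' hL0).2
    have hi1 : 0 ≤ (4 * lam)⁻¹ := by positivity
    have hJ2 : |∫ x, P t x * crs (Γ t) InB_e x| ≤
        CA * (lam * (4 * Q t) + (4 * lam)⁻¹ * (mu * (L * (1 + A t ^ 5 / L ^ 5)) + (4 * mu)⁻¹ * H t)) := by
      refine hJ'.trans ?_
      rw [mul_assoc]
      refine mul_le_mul_of_nonneg_left (hY.trans ?_) hCA.le
      have h1 := mul_le_mul_of_nonneg_left hAp hmu0.le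
      have h2 := mul_le_mul_of_nonneg_left h1 hi1
      linarith only [h2]
    have hτ0 : 0 ≤ -((t + 1) * (t + 1/2)) := by nlinarith only [ht.1, ht.2]
    have hτ1 : -((t + 1) * (t + 1/2)) ≤ 1 := by nlinarith only [ht.1, ht.2]
    have hp1 : -(2 * t + 3/2) * (m t - I1) ≤ 1/2 * H t := by
      have h1 : 0 ≤ I1 - m t := by linarith only [f3]
      have h2 : I1 - m t ≤ H t := by linarith only [f2]
      have h3 : (2 * t + 3/2) ≤ 1/2 := by linarith only [ht.2]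
      nlinarith only [f2, f3, h3]
    have hp2 : -((t + 1) * (t + 1/2)) * (En (fun s => s) (Γ t) (P t) InB_e + κ) ≤
        Cg * H t + |∫ x, P t x * crs (Γ t) InB_e x| := by
      have h1 : En (fun s => s) (Γ t) (P t) InB_e + κ ≤ Cg * H t + |∫ x, P t x * crs (Γ t) InB_e x| := by linarith only [f4]
      have h2 : 0 ≤ Cg * H t + |∫ x, P t x * crs (Γ t) InB_e x| := by positivity
      have h3 := mul_le_mul_of_nonneg_left h1 hτ0
      have h4 := mul_le_mul_of_nonneg_right hτ1 h2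
      linarith only [h3, h4]
    have e1 : CA * (lam * (4 * Q t) + (4 * lam)⁻¹ * (mu * (L * (1 + A t ^ 5 / L ^ 5)) + (4 * mu)⁻¹ * H t)) =
        CA * (4 * lam)⁻¹ * (4 * mu)⁻¹ * H t + (CA * (4 * lam) * Q t +
        (CA * (4 * lam)⁻¹ * mu * L + CA * (4 * lam)⁻¹ * mu * L / L ^ 5 * A t ^ 5)) := by ring
    rw [e1] at hJ2
    linarith only [hJ2, hp1, hp2]
  have hNi : IntervalIntegrable (fun t => -(2 * t + 3/2) * (m t - I1) +
      -((t + 1) * (t + 1/2)) * (En (fun s => s) (Γ t) (P t) InB_e + κ)) volume (-1) (-(1/2)) := by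
    refine ContinuousOn.intervalIntegrable_of_Icc hab ?_
    exact (ContinuousOn.mul (by fun_prop) ((hmc.mono hsub).sub continuousOn_const)).add
      (ContinuousOn.mul (by fun_prop) ((hEc.mono hsub).add continuousOn_const))
  have hint := intervalIntegral.integral_mono_on hab hNi
    ((hHi.const_mul _).add ((hQi.const_mul _).add (intervalIntegrable_const.add (hAi.const_mul _)))) hpt
  rw [hFT, InB_lin1 _ hHi ((hQi.const_mul _).add (intervalIntegrable_const.add (hAi.const_mul _))),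
    InB_lin1 _ hQi (intervalIntegrable_const.add (hAi.const_mul _)), InB_lin2 _ _ hAi] at hint
  have hQ' : ∫ t in (-1 : ℝ)..(-(1/2)), Q t ≤ C1 / 4 * √L := by
    rw [hQd, hC1]
    refine hQ.trans (le_of_eq ?_)
    ring
  have hA5'' : ∫ t in (-1 : ℝ)..(-(1/2)), A t ^ 5 ≤ L ^ 5 := by rw [hAd]; exact hA5'
  have hS : ∫ t in (-1 : ℝ)..(-(1/2)), ∫ x, (1 - Γ t x) * et x ^ 2 = ∫ t in (-1 : ℝ)..(-(1/2)), H t := by rw [hH]
  obtain ⟨S, hSd⟩ : ∃ S : ℝ, S = ∫ t in (-1 : ℝ)..(-(1/2)), H t := ⟨_, rfl⟩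
  have hS0 : 0 ≤ S := by
    rw [hSd, hH]
    exact intervalIntegral.integral_nonneg hab fun t ht => (hfix t (hsub ht)).1
  rw [hS, ← hSd]
  rw [← hSd] at hint
  have hi1 : (4 * lam)⁻¹ = √L / (4 * ε) := by
    rw [hlam]
    field_simp
  have hi2 : (4 * mu)⁻¹ = L * √L / (4 * ε ^ 2) := by
    rw [hmu]
    field_simp
  have q1 : CA * (4 * lam) * (∫ t in (-1 : ℝ)..(-(1/2)), Q t) ≤ CA * C1 * ε := by
    have h1 := mul_le_mul_of_nonneg_left hQ' (show 0 ≤ CA * (4 * lam) by positivity)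
    refine h1.trans (le_of_eq ?_)
    rw [hlam]
    field_simp
  have q3 : CA * (4 * lam)⁻¹ * mu * L = CA * ε / 4 := by
    rw [hi1, hmu]
    field_simp
  have q2 : CA * (4 * lam)⁻¹ * mu * L / L ^ 5 * (∫ t in (-1 : ℝ)..(-(1/2)), A t ^ 5) ≤ CA * ε / 4 := by
    have h1 := mul_le_mul_of_nonneg_left hA5'' (show 0 ≤ CA * (4 * lam)⁻¹ * mu * L / L ^ 5 by positivity)
    refine h1.trans (le_of_eq ?_)
    rw [q3]
    field_simp
  have q4 : CA * (4 * lam)⁻¹ * (4 * mu)⁻¹ = CA / (16 * ε ^ 3) * L ^ 2 := by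
    rw [hi1, hi2]
    have h1 : √L / (4 * ε) * (L * √L / (4 * ε ^ 2)) = 1 / (16 * ε ^ 3) * (L * (√L * √L)) := by
      field_simp
      ring
    rw [mul_assoc, h1, hsL2]
    ring
  rw [q4, q3] at hint
  have hL2 : 1 ≤ L ^ 2 := one_le_pow₀ hL
  have q5 : (1/2 + Cg + CA / (16 * ε ^ 3) * L ^ 2) * S ≤ C2 * L ^ 2 * S := by
    refine mul_le_mul_of_nonneg_right ?_ hS0
    rw [hC2]
    nlinarith only [hCg, hL2]
  have q6 : CA * (C1 + 1/2) * ε = CA * C1 * ε + CA * ε / 2 := by ring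
  have q7 : κ / 96 ≤ C2 * L ^ 2 * S := by
    rw [q3] at q2
    norm_num at hint
    linarith only [mul_pos hCA hε0, hCA, hε0, hε1, q1, q2, q5, hint]
  rw [div_div, div_le_iff₀ (by positivity)]
  linarith only [q7]

end Pool.Agent.H72.CC
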