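/-
ROW Poi (MP_09540e_CC). A weighted inequality of Poincare type. PROOF. Let `w = et²`, `0 ≤ w ≤ 1`, `w = 0` off the ball `B` of radius `3/4`, and `w y ≤ w x` if `‖x‖ ≤ ‖y‖` (zc_anti). For `s ∈ [0,1]` and `z = y + s (x - y)`:
`‖z‖ ≤ max ‖x‖ ‖y‖`, so `w z ≥ min (w x) (w y) ≥ w x w y`. `|f x - f y| ≤ ∫_0^1 ‖fderiv f (y + s(x-y))‖ ‖x - y‖ ds`, `‖fderiv f‖ ≤ √(gsq f)` (Sob_fd in H87/NS/Sob.lean), `‖x-y‖ ≤ 2` for `x, y ∈ B`. So the left side is at most
`2 ∫_0^1 ∫_{y∈B} ∫_{x∈B} √(gsq f z) w z dx dy ds`. For `s ≥ 1/2` and fixed `y` the substitution `x ↦ z = (1-s) y + s x` (factor `s^(-3) ≤ 8`, Measure.integral_comp_smul / addHaar) gives `≤ 8 vol(B) ∫ √(gsq f) w`;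
for `s < 1/2` fix `x` and substitute `y ↦ z`, factor `(1-s)^(-3) ≤ 8`. Total `C = 32 vol(B)`. It is convenient to work with lintegrals of nonnegative measurable functions (Tonelli), everything is continuous with
compact support. `MeasureTheory.Measure.addHaar_smul`, finrank = 3.
-/
import Pool.Agent.H72.CC.Cut

set_option autoImplicit false

open Set Filter Topology MeasureTheory
open scoped ContDiff

namespace Pool.Agent.H72.CC

open Pool.Agent.H16 Pool.Agent.H87.NS

theorem poi_nn (x : E3) : 0 ≤ et x := zc_nonneg _ _ _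

theorem poi_le (x : E3) : et x ≤ 1 := zc_le _ _ _

theorem poi_cont : Continuous et := (zc_smooth (1/2) (3/4)).continuous

theorem poi_zero {x : E3} (hx : 3/4 ≤ ‖x‖) : et x = 0 :=
  zc_zero (by norm_num) (by norm_num) hx

theorem poi_w {x y z : E3} (h : ‖z‖ ≤ max ‖x‖ ‖y‖) : et x ^ 2 * et y ^ 2 ≤ et z ^ 2 := by
  have h1 : et x * et y ≤ et z := by
    rcases le_max_iff.1 h with h | h
    · have h2 : et x ≤ et z := zc_anti (by norm_num) (by norm_num) h
      calc et x * et y ≤ et x * 1 := mul_le_mul_of_nonneg_left (poi_le y) (poi_nn x)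
        _ ≤ et z := by rw [mul_one]; exact h2
    · have h2 : et y ≤ et z := zc_anti (by norm_num) (by norm_num) h
      calc et x * et y ≤ 1 * et y := mul_le_mul_of_nonneg_right (poi_le x) (poi_nn y)
        _ ≤ et z := by rw [one_mul]; exact h2
  rw [← mul_pow]
  exact pow_le_pow_left₀ (mul_nonneg (poi_nn x) (poi_nn y)) h1 2

/-- the density on the right-hand side -/
noncomputable def poi_h (f : E3 → ℝ) (x : E3) : ℝ := √(gsq f x) * et x ^ 2

theorem poi_h_nn (f : E3 → ℝ) (x : E3) : 0 ≤ poi_h f x :=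
  mul_nonneg (Real.sqrt_nonneg _) (sq_nonneg _)

theorem poi_h_cont {f : E3 → ℝ} (hf : ContDiff ℝ 1 f) : Continuous (poi_h f) := by
  have h1 : Continuous (fderiv ℝ f) := hf.continuous_fderiv (by norm_num)
  have h2 : ∀ i, Continuous fun x => pd i f x := fun i => h1.clm_apply continuous_const
  unfold poi_h gsq
  exact ((continuous_finset_sum _ fun i _ => (h2 i).pow 2).sqrt).mul (poi_cont.pow 2)

theorem poi_h_supp (f : E3 → ℝ) : HasCompactSupport (poi_h f) := by
  have h1 : HasCompactSupport fun x : E3 => et x ^ 2 :=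
    (zc_supp (a := 1/2) (b := 3/4) (by norm_num) (by norm_num) (n := 2) (by norm_num)).1
  exact h1.mul_left

theorem poi_seg {f : E3 → ℝ} (hf : ContDiff ℝ 1 f) (x y : E3) :
    |f x - f y| * (et x ^ 2 * et y ^ 2) ≤ ∫ s in (0:ℝ)..1, 2 * poi_h f (y + s • (x - y)) := by
  have h0 : 0 ≤ ∫ s in (0:ℝ)..1, 2 * poi_h f (y + s • (x - y)) :=
    intervalIntegral.integral_nonneg zero_le_one fun s _ => mul_nonneg zero_le_two (poi_h_nn f _)
  by_cases hx : 3/4 ≤ ‖x‖
  · rw [poi_zero hx]
    simpa using h0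
  by_cases hy : 3/4 ≤ ‖y‖
  · rw [poi_zero hy]
    simpa using h0
  push Not at hx hy
  have hd : ∀ s : ℝ, HasDerivAt (fun s : ℝ => f (y + s • (x - y))) (fderiv ℝ f (y + s • (x - y)) (x - y)) s := by
    intro s
    have h1 : HasDerivAt (fun s : ℝ => y + s • (x - y)) (x - y) s := by
      have := ((hasDerivAt_id s).smul_const (x - y)).const_add y
      simpa using this
    exact ((hf.differentiable (by norm_num) _).hasFDerivAt).comp_hasDerivAt s h1
  have hl : Continuous fun s : ℝ => y + s • (x - y) := by fun_prop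
  have hc : Continuous fun s : ℝ => fderiv ℝ f (y + s • (x - y)) (x - y) :=
    ((hf.continuous_fderiv (by norm_num)).comp hl).clm_apply continuous_const
  have h1 : ∫ s in (0:ℝ)..1, fderiv ℝ f (y + s • (x - y)) (x - y) = f x - f y := by
    rw [intervalIntegral.integral_eq_sub_of_hasDerivAt (fun s _ => hd s) (hc.intervalIntegrable _ _)]
    simp
  have h2 : |f x - f y| ≤ ∫ s in (0:ℝ)..1, |fderiv ℝ f (y + s • (x - y)) (x - y)| := by
    rw [← h1]
    exact intervalIntegral.abs_integral_le_integral_abs zero_le_one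
  calc |f x - f y| * (et x ^ 2 * et y ^ 2)
      ≤ (∫ s in (0:ℝ)..1, |fderiv ℝ f (y + s • (x - y)) (x - y)|) * (et x ^ 2 * et y ^ 2) :=
        mul_le_mul_of_nonneg_right h2 (by positivity)
    _ = ∫ s in (0:ℝ)..1, |fderiv ℝ f (y + s • (x - y)) (x - y)| * (et x ^ 2 * et y ^ 2) := by
        rw [intervalIntegral.integral_mul_const]
    _ ≤ _ := by
        refine intervalIntegral.integral_mono_on zero_le_one ?_ ?_ fun s hs => ?_
        · exact (hc.abs.mul continuous_const).intervalIntegrable _ _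
        · exact (continuous_const.mul ((poi_h_cont hf).comp hl)).intervalIntegrable _ _
        · set z := y + s • (x - y) with hzd
          have hz : ‖z‖ ≤ max ‖x‖ ‖y‖ := by
            have e1 : z = (1 - s) • y + s • x := by
              rw [hzd]
              module
            rw [e1]
            calc ‖(1 - s) • y + s • x‖ ≤ ‖(1 - s) • y‖ + ‖s • x‖ := norm_add_le _ _
              _ = (1 - s) * ‖y‖ + s * ‖x‖ := by
                  rw [norm_smul, norm_smul, Real.norm_of_nonneg (by linarith [hs.2] : (0:ℝ) ≤ 1 - s),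
                    Real.norm_of_nonneg hs.1]
              _ ≤ (1 - s) * max ‖x‖ ‖y‖ + s * max ‖x‖ ‖y‖ :=
                  add_le_add (mul_le_mul_of_nonneg_left (le_max_right _ _) (by linarith [hs.2]))
                    (mul_le_mul_of_nonneg_left (le_max_left _ _) hs.1)
              _ = _ := by ring
          have h3 := poi_w hz
          have h4 : |fderiv ℝ f z (x - y)| ≤ √(gsq f z) * 2 := by
            have h6 := (fderiv ℝ f z).le_opNorm (x - y)
            rw [Real.norm_eq_abs] at h6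
            have h5 : ‖x - y‖ ≤ 2 := (norm_sub_le x y).trans (by linarith)
            exact h6.trans (mul_le_mul (Sob_fd f z) h5 (norm_nonneg _) (Real.sqrt_nonneg _))
          unfold poi_h
          calc _ ≤ (√(gsq f z) * 2) * et z ^ 2 := mul_le_mul h4 h3 (by positivity) (by positivity)
            _ = _ := by ring

theorem poi_scale {H : E3 → ENNReal} (hH : Measurable H) {s : ℝ} (hs : 1/2 ≤ s) (a : E3) :
    ∫⁻ x, H (a + s • x) ≤ 8 * ∫⁻ x, H x := by
  have hs0 : s ≠ 0 := by
    rintro rfl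
    norm_num at hs
  have hs1 : 0 < s := by linarith
  have h1 : ∫⁻ x, H (a + s • x) = ∫⁻ u, H (a + u) ∂(Measure.map (s • ·) (volume : Measure E3)) := by
    exact (lintegral_map (f := fun u => H (a + u)) (hH.comp (measurable_const_add a)) (measurable_const_smul s)).symm
  rw [h1, Measure.map_addHaar_smul _ hs0, lintegral_smul_measure, lintegral_add_left_eq_self, smul_eq_mul]
  gcongr
  rw [finrank_euclideanSpace_fin, show (8 : ENNReal) = ENNReal.ofReal 8 by norm_num]
  refine ENNReal.ofReal_le_ofReal ?_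
  rw [abs_of_pos (by positivity)]
  have h2 : (1/2 : ℝ) ^ 3 ≤ s ^ 3 := pow_le_pow_left₀ (by norm_num) hs 3
  rw [inv_le_comm₀ (by positivity) (by norm_num)]
  linarith

/-- the integrand -/
noncomputable def poi_G (χ H : E3 → ENNReal) (s : ℝ) (x y : E3) : ENNReal := χ x * χ y * H (y + s • (x - y))

theorem poi_Gm {χ H : E3 → ENNReal} (hχ : Measurable χ) (hH : Measurable H) :
    Measurable fun q : (ℝ × E3) × E3 => 2 * poi_G χ H q.1.1 q.1.2 q.2 := by
  unfold poi_G
  have hc : Continuous fun q : (ℝ × E3) × E3 => q.2 + q.1.1 • (q.1.2 - q.2) := by fun_prop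
  have h1 : Measurable fun q : (ℝ × E3) × E3 => χ q.1.2 := hχ.comp (measurable_snd.comp measurable_fst)
  have h2 : Measurable fun q : (ℝ × E3) × E3 => χ q.2 := hχ.comp measurable_snd
  have h3 : Measurable fun q : (ℝ × E3) × E3 => H (q.2 + q.1.1 • (q.1.2 - q.2)) := hH.comp hc.measurable
  exact ((h1.mul h2).mul h3).const_mul 2

theorem poi_Gm1 {χ H : E3 → ENNReal} (hχ : Measurable χ) (hH : Measurable H) (s : ℝ) :
    Measurable fun q : E3 × E3 => poi_G χ H s q.1 q.2 := by
  unfold poi_G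
  have hc : Continuous fun q : E3 × E3 => q.2 + s • (q.1 - q.2) := by fun_prop
  have h1 : Measurable fun q : E3 × E3 => χ q.1 := hχ.comp measurable_fst
  have h2 : Measurable fun q : E3 × E3 => χ q.2 := hχ.comp measurable_snd
  have h3 : Measurable fun q : E3 × E3 => H (q.2 + s • (q.1 - q.2)) := hH.comp hc.measurable
  exact (h1.mul h2).mul h3

theorem poi_Gm2 {χ H : E3 → ENNReal} (hχ : Measurable χ) (hH : Measurable H) (x : E3) :
    Measurable fun q : E3 × ℝ => 2 * poi_G χ H q.2 x q.1 := by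
  unfold poi_G
  have hc : Continuous fun q : E3 × ℝ => q.1 + q.2 • (x - q.1) := by fun_prop
  have h2 : Measurable fun q : E3 × ℝ => χ q.1 := hχ.comp measurable_fst
  have h3 : Measurable fun q : E3 × ℝ => H (q.1 + q.2 • (x - q.1)) := hH.comp hc.measurable
  exact ((h2.const_mul (χ x)).mul h3).const_mul 2

theorem poi_Gm3 {χ H : E3 → ENNReal} (hχ : Measurable χ) (hH : Measurable H) (s : ℝ) (x : E3) :
    Measurable fun y => poi_G χ H s x y := by
  unfold poi_G
  have hc : Continuous fun y : E3 => y + s • (x - y) := by fun_prop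
  have h3 : Measurable fun y : E3 => H (y + s • (x - y)) := hH.comp hc.measurable
  exact (hχ.const_mul (χ x)).mul h3

theorem poi_swap {χ H : E3 → ENNReal} (hχ : Measurable χ) (hH : Measurable H) (s : ℝ) :
    ∫⁻ x, ∫⁻ y, poi_G χ H s x y = ∫⁻ y, ∫⁻ x, poi_G χ H s x y :=
  lintegral_lintegral_swap (f := fun x y => poi_G χ H s x y) (poi_Gm1 hχ hH s).aemeasurable

theorem poi_swap3 {χ H : E3 → ENNReal} (hχ : Measurable χ) (hH : Measurable H) :
    ∫⁻ x, ∫⁻ y, ∫⁻ s in Ioc (0:ℝ) 1, 2 * poi_G χ H s x y =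
      ∫⁻ s in Ioc (0:ℝ) 1, 2 * ∫⁻ x, ∫⁻ y, poi_G χ H s x y := by
  calc ∫⁻ x, ∫⁻ y, ∫⁻ s in Ioc (0:ℝ) 1, 2 * poi_G χ H s x y
      = ∫⁻ x, ∫⁻ s in Ioc (0:ℝ) 1, ∫⁻ y, 2 * poi_G χ H s x y := by
        refine lintegral_congr fun x => ?_
        exact lintegral_lintegral_swap (f := fun y s => 2 * poi_G χ H s x y) (poi_Gm2 hχ hH x).aemeasurable
    _ = ∫⁻ s in Ioc (0:ℝ) 1, ∫⁻ x, ∫⁻ y, 2 * poi_G χ H s x y := by
        have h1 : Measurable fun q : (ℝ × E3) => ∫⁻ y, 2 * poi_G χ H q.1 q.2 y :=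
          Measurable.lintegral_prod_right' (f := fun q : (ℝ × E3) × E3 => 2 * poi_G χ H q.1.1 q.1.2 q.2) (poi_Gm hχ hH)
        have h2 : Measurable fun q : (E3 × ℝ) => ∫⁻ y, 2 * poi_G χ H q.2 q.1 y := h1.comp measurable_swap
        exact lintegral_lintegral_swap (f := fun x s => ∫⁻ y, 2 * poi_G χ H s x y) h2.aemeasurable
    _ = ∫⁻ s in Ioc (0:ℝ) 1, 2 * ∫⁻ x, ∫⁻ y, poi_G χ H s x y := by
        refine lintegral_congr fun s => ?_
        have h2 : Measurable fun x => ∫⁻ y, poi_G χ H s x y :=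
          Measurable.lintegral_prod_right' (f := fun q : E3 × E3 => poi_G χ H s q.1 q.2) (poi_Gm1 hχ hH s)
        rw [← lintegral_const_mul _ h2]
        refine lintegral_congr fun x => ?_
        rw [lintegral_const_mul _ (poi_Gm3 hχ hH s x)]

theorem poi : ∃ C : ℝ, 0 < C ∧ ∀ f : E3 → ℝ, ContDiff ℝ 1 f →
    ∫ x, ∫ y, |f x - f y| * (et x ^ 2 * et y ^ 2) ≤ C * ∫ x, √(gsq f x) * et x ^ 2 := by
  set B : Set E3 := Metric.closedBall 0 (3/4) with hB
  have hBm : MeasurableSet B := Metric.isClosed_closedBall.measurableSet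
  have hBf : volume B ≠ ⊤ := (measure_closedBall_lt_top).ne
  set V : ℝ := (volume B).toReal with hV
  have hV0 : 0 ≤ V := ENNReal.toReal_nonneg
  refine ⟨16 * V + 1, by positivity, fun f hf => ?_⟩
  change _ ≤ _ * ∫ x, poi_h f x
  set H : E3 → ENNReal := fun z => ENNReal.ofReal (poi_h f z) with hHd
  have hH : Measurable H := (poi_h_cont hf).measurable.ennreal_ofReal
  have hhi : Integrable (poi_h f) := (poi_h_cont hf).integrable_of_hasCompactSupport (poi_h_supp f)
  have hI : ∫⁻ z, H z = ENNReal.ofReal (∫ z, poi_h f z) :=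
    (ofReal_integral_eq_lintegral_ofReal hhi (Eventually.of_forall (poi_h_nn f))).symm
  set χ : E3 → ENNReal := B.indicator (fun _ => 1) with hχ
  have hχm : Measurable χ := measurable_const.indicator hBm
  have hχ1 : ∀ x, χ x ≤ 1 := by
    intro x
    rw [hχ]
    exact indicator_le (fun _ _ => le_rfl) x
  have hχi : ∫⁻ x, χ x = volume B := by
    rw [hχ, lintegral_indicator hBm]
    simp
  have hF : ∀ x y, ‖|f x - f y| * (et x ^ 2 * et y ^ 2)‖ₑ ≤ ∫⁻ s in Ioc (0:ℝ) 1, 2 * poi_G χ H s x y := by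
    intro x y
    by_cases hx : x ∈ B
    · by_cases hy : y ∈ B
      · have hl : Continuous fun s : ℝ => y + s • (x - y) := by fun_prop
        have h1 : ∀ s : ℝ, 2 * poi_G χ H s x y = ENNReal.ofReal (2 * poi_h f (y + s • (x - y))) := by
          intro s
          rw [poi_G, ENNReal.ofReal_mul zero_le_two]
          simp [hχ, hx, hy, hHd]
        rw [Real.enorm_of_nonneg (by positivity)]
        simp only [h1]
        rw [← ofReal_integral_eq_lintegral_ofReal]
        · rw [← intervalIntegral.integral_of_le zero_le_one]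
          exact ENNReal.ofReal_le_ofReal (poi_seg hf x y)
        · exact ((continuous_const.mul ((poi_h_cont hf).comp hl)).integrableOn_Icc).mono_set Ioc_subset_Icc_self
        · exact Eventually.of_forall fun s => mul_nonneg zero_le_two (poi_h_nn f _)
      · have h1 : et y = 0 := by
          refine poi_zero ?_
          rw [hB, mem_closedBall_zero_iff] at hy
          linarith
        rw [h1]
        simp
    · have h1 : et x = 0 := by
        refine poi_zero ?_
        rw [hB, mem_closedBall_zero_iff] at hx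
        linarith
      rw [h1]
      simp
  have hs : ∀ s ∈ Ioc (0:ℝ) 1, ∫⁻ x, ∫⁻ y, poi_G χ H s x y ≤ volume B * (8 * ∫⁻ z, H z) := by
    intro s hs
    by_cases hs2 : s ≤ 1/2
    · have h1 : ∀ x, ∫⁻ y, poi_G χ H s x y ≤ χ x * (8 * ∫⁻ z, H z) := by
        intro x
        calc ∫⁻ y, poi_G χ H s x y ≤ ∫⁻ y, χ x * H (s • x + (1 - s) • y) := by
              refine lintegral_mono fun y => ?_
              have e1 : y + s • (x - y) = s • x + (1 - s) • y := by module
              rw [poi_G, e1]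
              gcongr
              calc χ x * χ y ≤ χ x * 1 := by gcongr; exact hχ1 y
                _ = χ x := mul_one _
          _ = χ x * ∫⁻ y, H (s • x + (1 - s) • y) := by
              rw [lintegral_const_mul]
              exact hH.comp (by fun_prop)
          _ ≤ _ := by
              gcongr
              exact poi_scale hH (by linarith) _
      calc ∫⁻ x, ∫⁻ y, poi_G χ H s x y ≤ ∫⁻ x, χ x * (8 * ∫⁻ z, H z) := lintegral_mono h1
        _ = _ := by rw [lintegral_mul_const _ hχm, hχi]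
    · push Not at hs2
      have h1 : ∀ y, ∫⁻ x, poi_G χ H s x y ≤ χ y * (8 * ∫⁻ z, H z) := by
        intro y
        calc ∫⁻ x, poi_G χ H s x y ≤ ∫⁻ x, χ y * H ((1 - s) • y + s • x) := by
              refine lintegral_mono fun x => ?_
              have e1 : y + s • (x - y) = (1 - s) • y + s • x := by module
              rw [poi_G, e1]
              gcongr
              calc χ x * χ y ≤ 1 * χ y := by gcongr; exact hχ1 x
                _ = χ y := one_mul _
          _ = χ y * ∫⁻ x, H ((1 - s) • y + s • x) := by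
              rw [lintegral_const_mul]
              exact hH.comp (by fun_prop)
          _ ≤ _ := by
              gcongr
              exact poi_scale hH hs2.le _
      rw [poi_swap hχm hH]
      calc ∫⁻ y, ∫⁻ x, poi_G χ H s x y ≤ ∫⁻ y, χ y * (8 * ∫⁻ z, H z) := lintegral_mono h1
        _ = _ := by rw [lintegral_mul_const _ hχm, hχi]
  have hmain : ‖∫ x, ∫ y, |f x - f y| * (et x ^ 2 * et y ^ 2)‖ₑ ≤ 2 * (volume B * (8 * ∫⁻ z, H z)) := by
    calc ‖∫ x, ∫ y, |f x - f y| * (et x ^ 2 * et y ^ 2)‖ₑ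
        ≤ ∫⁻ x, ‖∫ y, |f x - f y| * (et x ^ 2 * et y ^ 2)‖ₑ := enorm_integral_le_lintegral_enorm _
      _ ≤ ∫⁻ x, ∫⁻ y, ‖|f x - f y| * (et x ^ 2 * et y ^ 2)‖ₑ :=
          lintegral_mono fun x => enorm_integral_le_lintegral_enorm _
      _ ≤ ∫⁻ x, ∫⁻ y, ∫⁻ s in Ioc (0:ℝ) 1, 2 * poi_G χ H s x y :=
          lintegral_mono fun x => lintegral_mono fun y => hF x y
      _ = ∫⁻ s in Ioc (0:ℝ) 1, 2 * ∫⁻ x, ∫⁻ y, poi_G χ H s x y := poi_swap3 hχm hH
      _ ≤ ∫⁻ s in Ioc (0:ℝ) 1, 2 * (volume B * (8 * ∫⁻ z, H z)) := by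
          refine setLIntegral_mono measurable_const fun s hs' => ?_
          gcongr
          exact hs s hs'
      _ = _ := by
          rw [setLIntegral_const]
          simp
  have hn : 0 ≤ ∫ x, ∫ y, |f x - f y| * (et x ^ 2 * et y ^ 2) :=
    integral_nonneg fun x => integral_nonneg fun y => by positivity
  have hn2 : 0 ≤ ∫ z, poi_h f z := integral_nonneg (poi_h_nn f)
  have e1 : 2 * (volume B * (8 * ∫⁻ z, H z)) = ENNReal.ofReal (16 * V * ∫ z, poi_h f z) := by
    rw [hI, ENNReal.ofReal_mul (by positivity), ENNReal.ofReal_mul (by norm_num), hV, ENNReal.ofReal_toReal hBf]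
    rw [show ENNReal.ofReal 16 = 16 by norm_num]
    ring
  rw [e1, Real.enorm_of_nonneg hn, ENNReal.ofReal_le_ofReal_iff (by positivity)] at hmain
  nlinarith

end Pool.Agent.H72.CC
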