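/-
ROW LoB (MP_09540e_CC). Lower bound of the dissipation of the logarithm. PROOF. `f = F ∘ G`, `h = 1 - G ∈ (0, 2)` on `closedBall 0 (3/4)`, `w = et²`, `μ = ∫ f w`, `H = ∫ h w`, `W = ∫ w ≤ C`. For `x, y` in the support:
`(f x - f y) h y w x w y ≤ 2 |f x - f y| w x w y`. Integrate over `x, y`: `μ H - W ∫ f h w ≤ 2 C_P ∫ √(gsq f) w` (poi), and `f h = (- log h - 1 + h) h ≤ 3` for `h ∈ (0,2)` (`- h log h ≤ 1`, from `log h ≥ 1 - 1/h`; `h² - h ≤ 2`). So
`μ H ≤ 3 W² + 2 C_P √W √D`, `D = ∫ gsq f w` (Cauchy-Schwarz), and `(μ H)² ≤ C (1 + D)` since `μ H ≥ 0` (`f ≥ 0`: `log h ≤ h - 1`).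
-/
import Pool.Agent.H72.CC.Poi

set_option autoImplicit false

open Set Filter Topology MeasureTheory
open scoped ContDiff

namespace Pool.Agent.H72.CC

open Pool.Agent.H16 Pool.Agent.H87.NS

theorem LoB_pt {g : ℝ} (hg : |g| < 1) :
    0 ≤ -Real.log (1 - g) - g ∧ (-Real.log (1 - g) - g) * (1 - g) ≤ 1 := by
  have h1 := abs_lt.1 hg
  have hp : 0 < 1 - g := by linarith [h1.2]
  constructor
  · have := Real.log_le_sub_one_of_pos hp
    linarith
  · have h2 := Real.one_sub_inv_le_log_of_pos hp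
    have h3 : (1 - g) * (1 - (1 - g)⁻¹) ≤ (1 - g) * Real.log (1 - g) :=
      mul_le_mul_of_nonneg_left h2 hp.le
    have h4 : (1 - g) * (1 - (1 - g)⁻¹) = -g := by
      field_simp
      ring
    have h5 : g ^ 2 ≤ 1 := by nlinarith [h1.1, h1.2]
    nlinarith

theorem LoB_intm {u w : E3 → ℝ} (hu : Continuous u) (hw : Continuous w) (hwc : HasCompactSupport w) :
    Integrable (fun x => u x * w x) := by
  have h1 : Continuous (fun x => u x * w x) := hu.mul hw
  have h2 : HasCompactSupport (fun x => u x * w x) := hwc.mul_left (f := u)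
  exact h1.integrable_of_hasCompactSupport h2

theorem LoB_cs {u w : E3 → ℝ} (hu : Continuous u) (hw : Continuous w) (hwc : HasCompactSupport w)
    (hw0 : ∀ x, 0 ≤ w x) :
    (∫ x, u x * w x) ^ 2 ≤ (∫ x, w x) * ∫ x, u x ^ 2 * w x := by
  have hi1 : Integrable (fun x => u x * w x) := LoB_intm hu hw hwc
  have hi2 : Integrable w := hw.integrable_of_hasCompactSupport hwc
  have hu2 : Continuous (fun x => u x ^ 2) := hu.pow 2
  have hi3 : Integrable (fun x => u x ^ 2 * w x) := LoB_intm hu2 hw hwc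
  obtain ⟨W, hW⟩ : ∃ W, W = ∫ x, w x := ⟨_, rfl⟩
  obtain ⟨I, hI⟩ : ∃ I, I = ∫ x, u x * w x := ⟨_, rfl⟩
  obtain ⟨D, hD⟩ : ∃ D, D = ∫ x, u x ^ 2 * w x := ⟨_, rfl⟩
  have key : ∀ t : ℝ, 0 ≤ W * (t * t) + (-2 * I) * t + D := by
    intro t
    have h1 : 0 ≤ ∫ x, (u x - t) ^ 2 * w x :=
      integral_nonneg fun x => mul_nonneg (sq_nonneg _) (hw0 x)
    have h2 : (fun x => (u x - t) ^ 2 * w x) =
        fun x => (u x ^ 2 * w x + (-2 * t) * (u x * w x)) + t * t * w x := by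
      funext x
      ring
    have h3 : Integrable (fun x => (-2 * t) * (u x * w x)) := hi1.const_mul _
    have h4 : Integrable (fun x => u x ^ 2 * w x + (-2 * t) * (u x * w x)) := hi3.add h3
    have h5 : Integrable (fun x => t * t * w x) := hi2.const_mul _
    rw [h2, integral_add h4 h5, integral_add hi3 h3, integral_const_mul, integral_const_mul,
      ← hW, ← hI, ← hD] at h1
    linarith
  rw [← hW, ← hI, ← hD]
  have h := discrim_le_zero key
  unfold discrim at h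
  nlinarith

theorem loB : ∃ C : ℝ, 0 < C ∧ ∀ (F : ℝ → ℝ) (G : E3 → ℝ), ContDiff ℝ ∞ F → ContDiff ℝ ∞ G →
    (∀ x ∈ Metric.closedBall (0 : E3) (3/4), |G x| < 1 ∧ F (G x) = - Real.log (1 - G x) - G x) →
    (∫ x, F (G x) * et x ^ 2) ^ 2 * (∫ x, (1 - G x) * et x ^ 2) ^ 2 ≤
      C * (1 + ∫ x, gsq (fun y => F (G y)) x * et x ^ 2) := by
  obtain ⟨CP, hCP, hpoi⟩ := poi
  have hsup := zc_supp (a := 1 / 2) (b := 3 / 4) (by norm_num) (by norm_num) (n := 2) two_ne_zero
  have hwc : HasCompactSupport (fun x : E3 => et x ^ 2) := hsup.1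
  have hw : Continuous (fun x : E3 => et x ^ 2) := ((zc_smooth (1 / 2) (3 / 4)).continuous).pow 2
  have hw0 : ∀ x : E3, 0 ≤ et x ^ 2 := fun x => sq_nonneg _
  have hwz : ∀ x : E3, x ∉ Metric.closedBall (0 : E3) (3 / 4) → et x ^ 2 = 0 := by
    intro x hx
    have h1 : 3 / 4 ≤ ‖x‖ := by
      rw [mem_closedBall_zero_iff] at hx
      linarith
    have h2 : et x = 0 := zc_zero (a := 1 / 2) (b := 3 / 4) (by norm_num) (by norm_num) h1
    rw [h2]
    norm_num
  have hW0 : 0 ≤ ∫ x, et x ^ 2 := integral_nonneg hw0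
  refine ⟨8 * CP ^ 2 * (∫ x, et x ^ 2) + 18 * (∫ x, et x ^ 2) ^ 4 + 1, by positivity, ?_⟩
  intro F G hF hG hFG
  have hf : ContDiff ℝ ∞ (fun x => F (G x)) := hF.comp hG
  have hf1 : ContDiff ℝ 1 (fun x => F (G x)) := hf.of_le (by exact_mod_cast le_top)
  have hfc : Continuous (fun x => F (G x)) := hf.continuous
  have hgc : Continuous (gsq (fun x => F (G x))) := by
    unfold gsq
    exact continuous_finsetSum _ fun i _ => (pd_cont hf1 i).pow 2
  have hGc : Continuous G := hG.continuous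
  have hhc : Continuous (fun x => 1 - G x) := continuous_const.sub hGc
  have hiw : Integrable (fun x : E3 => et x ^ 2) := hw.integrable_of_hasCompactSupport hwc
  have hifw : Integrable (fun x : E3 => F (G x) * et x ^ 2) := LoB_intm hfc hw hwc
  have hihw : Integrable (fun x : E3 => (1 - G x) * et x ^ 2) := LoB_intm hhc hw hwc
  -- pointwise facts
  have hpt : ∀ x : E3, et x ^ 2 ≠ 0 → 0 ≤ F (G x) ∧ F (G x) * (1 - G x) ≤ 1 ∧ 0 ≤ 1 - G x ∧ 1 - G x ≤ 2 := by
    intro x hx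
    have hxb : x ∈ Metric.closedBall (0 : E3) (3 / 4) := by
      by_contra hcon
      exact hx (hwz x hcon)
    obtain ⟨h1, h2⟩ := hFG x hxb
    have h3 := abs_lt.1 h1
    obtain ⟨h4, h5⟩ := LoB_pt h1
    rw [h2]
    exact ⟨h4, h5, by linarith [h3.2], by linarith [h3.1]⟩
  have hμ0 : 0 ≤ ∫ x, F (G x) * et x ^ 2 := by
    refine integral_nonneg fun x => ?_
    by_cases hx : et x ^ 2 = 0
    · show 0 ≤ F (G x) * et x ^ 2
      rw [hx, mul_zero]
    · exact mul_nonneg (hpt x hx).1 (hw0 x)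
  have hH0 : 0 ≤ ∫ x, (1 - G x) * et x ^ 2 := by
    refine integral_nonneg fun x => ?_
    by_cases hx : et x ^ 2 = 0
    · show 0 ≤ (1 - G x) * et x ^ 2
      rw [hx, mul_zero]
    · exact mul_nonneg (hpt x hx).2.2.1 (hw0 x)
  -- the double integral
  have hcp : Continuous (fun q : E3 × E3 => |F (G q.1) - F (G q.2)| * (et q.1 ^ 2 * et q.2 ^ 2)) :=
    (((hfc.comp continuous_fst).sub (hfc.comp continuous_snd)).abs).mul
      ((hw.comp continuous_fst).mul (hw.comp continuous_snd))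
  have hK : IsCompact (Metric.closedBall (0 : E3) (3 / 4) ×ˢ Metric.closedBall (0 : E3) (3 / 4)) :=
    (isCompact_closedBall _ _).prod (isCompact_closedBall _ _)
  have hcs : HasCompactSupport
      (fun q : E3 × E3 => |F (G q.1) - F (G q.2)| * (et q.1 ^ 2 * et q.2 ^ 2)) := by
    refine HasCompactSupport.intro hK fun q hq => ?_
    rw [mem_prod, not_and_or] at hq
    rcases hq with h | h
    · rw [hwz _ h]
      ring
    · rw [hwz _ h]
      ring
  have hip : Integrable (fun q : E3 × E3 => |F (G q.1) - F (G q.2)| * (et q.1 ^ 2 * et q.2 ^ 2))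
      (volume.prod volume) := hcp.integrable_of_hasCompactSupport hcs
  have hix : Integrable (fun x : E3 => ∫ y, |F (G x) - F (G y)| * (et x ^ 2 * et y ^ 2)) :=
    hip.integral_prod_left
  have hiy : ∀ x : E3, Integrable (fun y : E3 => |F (G x) - F (G y)| * (et x ^ 2 * et y ^ 2)) := by
    intro x
    have h1 : Continuous (fun y : E3 => |F (G x) - F (G y)| * (et x ^ 2 * et y ^ 2)) :=
      ((continuous_const.sub hfc).abs).mul (continuous_const.mul hw)
    refine h1.integrable_of_hasCompactSupport ?_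
    refine HasCompactSupport.intro (isCompact_closedBall (0 : E3) (3 / 4)) fun y hy => ?_
    rw [hwz _ hy]
    ring
  have hdbl : (∫ x, F (G x) * et x ^ 2) * (∫ x, (1 - G x) * et x ^ 2) ≤
      2 * (∫ x, ∫ y, |F (G x) - F (G y)| * (et x ^ 2 * et y ^ 2)) + 3 * (∫ x, et x ^ 2) ^ 2 := by
    have e1 : (∫ x, F (G x) * et x ^ 2) * (∫ x, (1 - G x) * et x ^ 2) =
        ∫ x, ∫ y, (F (G x) * et x ^ 2) * ((1 - G y) * et y ^ 2) := by
      rw [← integral_mul_const]
      refine integral_congr_ae (Filter.Eventually.of_forall fun x => ?_)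
      exact (integral_const_mul _ _).symm
    have hix2 : Integrable (fun x : E3 =>
        2 * (∫ y, |F (G x) - F (G y)| * (et x ^ 2 * et y ^ 2))) := hix.const_mul 2
    have hiw3 : Integrable (fun x : E3 => 3 * ((∫ y : E3, et y ^ 2) * et x ^ 2)) :=
      (hiw.const_mul _).const_mul 3
    have e2 : 2 * (∫ x, ∫ y, |F (G x) - F (G y)| * (et x ^ 2 * et y ^ 2)) +
        3 * (∫ x, et x ^ 2) ^ 2 =
        ∫ x, (2 * (∫ y, |F (G x) - F (G y)| * (et x ^ 2 * et y ^ 2)) +
          3 * ((∫ y, et y ^ 2) * et x ^ 2)) := by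
      rw [integral_add hix2 hiw3, integral_const_mul, integral_const_mul, integral_const_mul]
      ring
    rw [e1, e2]
    refine integral_mono ?_ (hix2.add hiw3) ?_
    · have : (fun x => ∫ y, (F (G x) * et x ^ 2) * ((1 - G y) * et y ^ 2)) =
          fun x => (∫ y, (1 - G y) * et y ^ 2) * (F (G x) * et x ^ 2) := by
        funext x
        rw [integral_const_mul, mul_comm]
      rw [this]
      exact hifw.const_mul _
    · intro x
      show ∫ y, (F (G x) * et x ^ 2) * ((1 - G y) * et y ^ 2) ≤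
        2 * (∫ y, |F (G x) - F (G y)| * (et x ^ 2 * et y ^ 2)) + 3 * ((∫ y, et y ^ 2) * et x ^ 2)
      have hiy2 : Integrable (fun y : E3 =>
          2 * (|F (G x) - F (G y)| * (et x ^ 2 * et y ^ 2))) := (hiy x).const_mul 2
      have hiw4 : Integrable (fun y : E3 => 3 * et x ^ 2 * et y ^ 2) := hiw.const_mul _
      have e3 : 2 * (∫ y, |F (G x) - F (G y)| * (et x ^ 2 * et y ^ 2)) +
          3 * ((∫ y, et y ^ 2) * et x ^ 2) =
          ∫ y, (2 * (|F (G x) - F (G y)| * (et x ^ 2 * et y ^ 2)) + 3 * et x ^ 2 * et y ^ 2) := by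
        rw [integral_add hiy2 hiw4, integral_const_mul, integral_const_mul]
        ring
      rw [e3]
      refine integral_mono (hihw.const_mul _) (hiy2.add hiw4) ?_
      intro y
      show (F (G x) * et x ^ 2) * ((1 - G y) * et y ^ 2) ≤
        2 * (|F (G x) - F (G y)| * (et x ^ 2 * et y ^ 2)) + 3 * et x ^ 2 * et y ^ 2
      by_cases hy : et y ^ 2 = 0
      · rw [hy]
        simp
      · obtain ⟨h1, h2, h3, h4⟩ := hpt y hy
        have h5 : (F (G x) - F (G y)) * (1 - G y) ≤ 2 * |F (G x) - F (G y)| := by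
          calc (F (G x) - F (G y)) * (1 - G y) ≤ |F (G x) - F (G y)| * (1 - G y) :=
                mul_le_mul_of_nonneg_right (le_abs_self _) h3
            _ ≤ |F (G x) - F (G y)| * 2 := mul_le_mul_of_nonneg_left h4 (abs_nonneg _)
            _ = _ := mul_comm _ _
        have h6 : F (G x) * (1 - G y) ≤ 2 * |F (G x) - F (G y)| + 3 := by
          have : F (G x) * (1 - G y) = (F (G x) - F (G y)) * (1 - G y) + F (G y) * (1 - G y) := by
            ring
          linarith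
        have h7 : 0 ≤ et x ^ 2 * et y ^ 2 := mul_nonneg (hw0 x) (hw0 y)
        calc (F (G x) * et x ^ 2) * ((1 - G y) * et y ^ 2) =
              (F (G x) * (1 - G y)) * (et x ^ 2 * et y ^ 2) := by ring
          _ ≤ (2 * |F (G x) - F (G y)| + 3) * (et x ^ 2 * et y ^ 2) :=
              mul_le_mul_of_nonneg_right h6 h7
          _ = _ := by ring
  have hp := hpoi (fun x => F (G x)) hf1
  have hcsq := LoB_cs (u := fun x => √(gsq (fun y => F (G y)) x)) (w := fun x => et x ^ 2)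
    hgc.sqrt hw hwc hw0
  have e4 : (∫ x, √(gsq (fun y => F (G y)) x) ^ 2 * et x ^ 2) =
      ∫ x, gsq (fun y => F (G y)) x * et x ^ 2 := by
    refine integral_congr_ae (Filter.Eventually.of_forall fun x => ?_)
    show √(gsq (fun y => F (G y)) x) ^ 2 * et x ^ 2 = gsq (fun y => F (G y)) x * et x ^ 2
    rw [Real.sq_sqrt (gsq_nonneg _ _)]
  have hD0 : 0 ≤ ∫ x, gsq (fun y => F (G y)) x * et x ^ 2 :=
    integral_nonneg fun x => mul_nonneg (gsq_nonneg _ _) (hw0 x)
  have hI0 : 0 ≤ ∫ x, √(gsq (fun y => F (G y)) x) * et x ^ 2 :=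
    integral_nonneg fun x => mul_nonneg (Real.sqrt_nonneg _) (hw0 x)
  rw [e4] at hcsq
  generalize (∫ x, √(gsq (fun y => F (G y)) x) * et x ^ 2) = I at hcsq hp hI0
  generalize (∫ x, gsq (fun y => F (G y)) x * et x ^ 2) = D at hcsq hD0 ⊢
  generalize (∫ x, ∫ y, |F (G x) - F (G y)| * (et x ^ 2 * et y ^ 2)) = Z at hp hdbl
  generalize (∫ x, F (G x) * et x ^ 2) = μ at hμ0 hdbl ⊢
  generalize (∫ x, (1 - G x) * et x ^ 2) = H at hH0 hdbl ⊢
  generalize (∫ x, et x ^ 2) = W at hW0 hcsq hdbl ⊢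
  have h1 : 0 ≤ μ * H := mul_nonneg hμ0 hH0
  have h2 : μ * H ≤ 2 * CP * I + 3 * W ^ 2 := by linarith
  have h3 : (μ * H) ^ 2 ≤ (2 * CP * I + 3 * W ^ 2) ^ 2 := pow_le_pow_left₀ h1 h2 2
  have h4 : (2 * CP * I + 3 * W ^ 2) ^ 2 ≤ 8 * CP ^ 2 * I ^ 2 + 18 * W ^ 4 := by
    nlinarith [sq_nonneg (2 * CP * I - 3 * W ^ 2)]
  have h5 : 8 * CP ^ 2 * I ^ 2 ≤ 8 * CP ^ 2 * (W * D) :=
    mul_le_mul_of_nonneg_left hcsq (by positivity)
  have h6 : 0 ≤ 18 * W ^ 4 * D := by positivity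
  have h7 : 0 ≤ 8 * CP ^ 2 * W := by positivity
  calc μ ^ 2 * H ^ 2 = (μ * H) ^ 2 := by ring
    _ ≤ 8 * CP ^ 2 * (W * D) + 18 * W ^ 4 := by linarith
    _ ≤ _ := by nlinarith

end Pool.Agent.H72.CC
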