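/-
ROW Hol (MP_09540e_CC). Hoelder + Sobolev + Young. PROOF. Let `Z = zc a b`, `B = ball 0 b`, `v = w Z¹⁰ ≥ 0` (smooth, compact support, so `DB 1 K v` for some K). For `w ≥ 0`: `w² Z¹⁸ = v^(9/5) w^(1/5)` (real powers). Hoelder with exponents
`2, 10/3, 5` on `B` (`1/2 + 3/10 + 1/5 = 1`; ENNReal.lintegral_prod_norm_pow_le or two applications of integral_mul_le_Lp_mul_Lq_of_nonneg), `g = 1 + rsq P²`:
`∫ g w² Z¹⁸ ≤ (∫_B g²)^(1/2) (∫ v⁶)^(3/10) (∫_B w)^(1/5)`. `∫_B g² ≤ 2 vol(B) + 2 ∫_B rsq² P⁴ ≤ C₁ (1 + A4 P)` (`B ⊆ ball 0 1`, nonnegative integrand), SB_spec: `∫ v⁶ ≤ (SB D)³`, `D = ∫ gsq v`. So the left side is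
`≤ D^(9/10) · b₀`, `b₀ = (C₁(1+A4 P))^(1/2) SB^(9/10) Y^(1/5)`, `Y = ∫_B w`. Young: for `κ > 0`, `D^(9/10) b₀ ≤ κ D + κ^(-9) b₀^(10)` (`xy ≤ x^(10/9)·(9/10) + y^(10)/10` with `x = (κ D)^(9/10)`, `y = κ^(-9/10) b₀`). `b₀^(10) = (C₁ (1+A4))^5 SB^9 Y²`,
`(1+A4)^5 ≤ 16 (1 + A4^5)`.
-/
import Pool.Agent.H72.CC.Cut

set_option autoImplicit false

open Set Filter Topology MeasureTheory
open scoped ContDiff

namespace Pool.Agent.H72.CC

open Pool.Agent.H16 Pool.Agent.H87.NS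

theorem Hol_BL {f : E3 → ℝ} (hf : Continuous f) (hc : HasCompactSupport f) : ∃ K, BL K f := by
  obtain ⟨K, hK⟩ := hf.bounded_above_of_compact_support hc
  have h2 : Integrable (fun x => f x ^ 2) := by
    refine (hf.pow 2).integrable_of_hasCompactSupport ?_
    have h3 : f ^ 2 = f * f := pow_two f
    rw [h3]
    exact hc.mul_right
  refine ⟨max K (∫ x, f x ^ 2), fun x => ?_, h2, le_max_right _ _⟩
  have h4 := hK x
  rw [Real.norm_eq_abs] at h4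
  exact h4.trans (le_max_left _ _)

theorem Hol_DB {f : E3 → ℝ} (hf : ContDiff ℝ 1 f) (hc : HasCompactSupport f) : ∃ K, DB 1 K f := by
  obtain ⟨K, hK⟩ := Hol_BL hf.continuous hc
  have h1 : ∀ i, ∃ K, BL K (pd i f) := by
    intro i
    refine Hol_BL (pd_cont hf i) ?_
    have h2 : HasCompactSupport (fun x => fderiv ℝ f x (e i)) := hc.fderiv_apply ℝ (e i)
    exact h2
  choose K' hK' using h1
  have hK0 := BL_nonneg hK
  have hK'0 : ∀ i, 0 ≤ K' i := fun i => BL_nonneg (hK' i)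
  have hsum : ∀ i, K' i ≤ ∑ j, K' j := fun i =>
    Finset.single_le_sum (fun j _ => hK'0 j) (Finset.mem_univ i)
  have hs0 : 0 ≤ ∑ j, K' j := Finset.sum_nonneg (fun j _ => hK'0 j)
  refine ⟨K + ∑ j, K' j, BL_mono hK (by linarith), fun i => ?_⟩
  exact BL_mono (hK' i) (by linarith [hsum i])

theorem Hol_young {I D M κ : ℝ} (hD : 0 ≤ D) (hM : 0 ≤ M) (hκ : 0 < κ) (h : I ^ 10 ≤ D ^ 9 * M) :
    I ≤ κ * D + κ⁻¹ ^ 9 * M := by
  by_contra hc
  rw [not_le] at hc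
  have hA0 : 0 ≤ κ * D := by positivity
  have hB0 : 0 ≤ κ⁻¹ ^ 9 * M := by positivity
  have h1 : (κ * D + κ⁻¹ ^ 9 * M) ^ 10 < I ^ 10 := pow_lt_pow_left₀ hc (by positivity) (by norm_num)
  have h2 : (κ * D) ^ 9 * (κ⁻¹ ^ 9 * M) ≤ (κ * D + κ⁻¹ ^ 9 * M) ^ 10 := by
    calc (κ * D) ^ 9 * (κ⁻¹ ^ 9 * M) ≤ (κ * D + κ⁻¹ ^ 9 * M) ^ 9 * (κ * D + κ⁻¹ ^ 9 * M) :=
          mul_le_mul (pow_le_pow_left₀ hA0 (by linarith) 9) (by linarith) hB0 (by positivity)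
      _ = (κ * D + κ⁻¹ ^ 9 * M) ^ 10 := by ring
  have h3 : (κ * D) ^ 9 * (κ⁻¹ ^ 9 * M) = D ^ 9 * M := by
    rw [mul_pow, inv_pow]
    field_simp
  linarith

theorem Hol_memLp {f : E3 → ℝ} (hf : Continuous f) (b : ℝ) (p : ENNReal) :
    MemLp f p (volume.restrict (Metric.ball (0 : E3) b)) := by
  have : IsFiniteMeasure (volume.restrict (Metric.ball (0 : E3) b)) :=
    ⟨by rw [Measure.restrict_apply_univ]; exact measure_ball_lt_top⟩
  obtain ⟨K, hK⟩ := (isCompact_closedBall (0 : E3) b).exists_bound_of_continuousOn hf.continuousOn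
  refine MemLp.of_bound hf.aestronglyMeasurable K ?_
  filter_upwards [ae_restrict_mem measurableSet_ball] with x hx
  exact hK x (Metric.ball_subset_closedBall hx)

theorem Hol_int {f : E3 → ℝ} (hf : Continuous f) (b : ℝ) : IntegrableOn f (Metric.ball (0 : E3) b) :=
  memLp_one_iff_integrable.1 (Hol_memLp hf b 1)

theorem Hol_cs {μ : Measure E3} {g h : E3 → ℝ} (hg0 : 0 ≤ᵐ[μ] g) (hh0 : 0 ≤ᵐ[μ] h)
    (hg : MemLp g (ENNReal.ofReal 2) μ) (hh : MemLp h (ENNReal.ofReal 2) μ) :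
    (∫ x, g x * h x ∂μ) ^ 2 ≤ (∫ x, g x ^ 2 ∂μ) * ∫ x, h x ^ 2 ∂μ := by
  have h1 := integral_mul_le_Lp_mul_Lq_of_nonneg (Real.holderConjugate_iff.2 ⟨by norm_num, by norm_num⟩ :
    (2 : ℝ).HolderConjugate 2) hg0 hh0 hg hh
  simp only [Real.rpow_ofNat] at h1
  have h0 : 0 ≤ ∫ x, g x * h x ∂μ := by
    refine integral_nonneg_of_ae ?_
    filter_upwards [hg0, hh0] with x h2 h3
    exact mul_nonneg h2 h3
  have hG : 0 ≤ ∫ x, g x ^ 2 ∂μ := integral_nonneg fun x => sq_nonneg _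
  have hH : 0 ≤ ∫ x, h x ^ 2 ∂μ := integral_nonneg fun x => sq_nonneg _
  have h2 := pow_le_pow_left₀ h0 h1 2
  refine h2.trans (le_of_eq ?_)
  rw [mul_pow, ← Real.rpow_natCast, ← Real.rpow_natCast, ← Real.rpow_mul hG, ← Real.rpow_mul hH]
  norm_num

theorem Hol_h2 {μ : Measure E3} {v w : E3 → ℝ} (hv0 : 0 ≤ᵐ[μ] v) (hw0 : 0 ≤ᵐ[μ] w)
    (hv : MemLp (fun x => v x ^ (18/5 : ℝ)) (ENNReal.ofReal (5/3)) μ)
    (hw : MemLp (fun x => w x ^ (2/5 : ℝ)) (ENNReal.ofReal (5/2)) μ) :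
    (∫ x, v x ^ (18/5 : ℝ) * w x ^ (2/5 : ℝ) ∂μ) ^ 5 ≤ (∫ x, v x ^ 6 ∂μ) ^ 3 * (∫ x, w x ∂μ) ^ 2 := by
  have hv1 : 0 ≤ᵐ[μ] fun x => v x ^ (18/5 : ℝ) := by
    filter_upwards [hv0] with x hx
    exact Real.rpow_nonneg hx _
  have hw1 : 0 ≤ᵐ[μ] fun x => w x ^ (2/5 : ℝ) := by
    filter_upwards [hw0] with x hx
    exact Real.rpow_nonneg hx _
  have h1 := integral_mul_le_Lp_mul_Lq_of_nonneg (Real.holderConjugate_iff.2 ⟨by norm_num, by norm_num⟩ :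
    (5/3 : ℝ).HolderConjugate (5/2)) hv1 hw1 hv hw
  have e1 : ∫ x, (v x ^ (18/5 : ℝ)) ^ (5/3 : ℝ) ∂μ = ∫ x, v x ^ 6 ∂μ := by
    refine integral_congr_ae ?_
    filter_upwards [hv0] with x hx
    rw [← Real.rpow_mul hx, show (18/5 : ℝ) * (5/3) = ((6 : ℕ) : ℝ) by norm_num, Real.rpow_natCast]
  have e2 : ∫ x, (w x ^ (2/5 : ℝ)) ^ (5/2 : ℝ) ∂μ = ∫ x, w x ∂μ := by
    refine integral_congr_ae ?_
    filter_upwards [hw0] with x hx
    rw [← Real.rpow_mul hx, show (2/5 : ℝ) * (5/2) = 1 by norm_num, Real.rpow_one]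
  rw [e1, e2] at h1
  have h0 : 0 ≤ ∫ x, v x ^ (18/5 : ℝ) * w x ^ (2/5 : ℝ) ∂μ := by
    refine integral_nonneg_of_ae ?_
    filter_upwards [hv1, hw1] with x h2 h3
    exact mul_nonneg h2 h3
  have hV : 0 ≤ ∫ x, v x ^ 6 ∂μ := integral_nonneg fun x => Even.pow_nonneg (by decide) _
  have hW : 0 ≤ ∫ x, w x ∂μ := integral_nonneg_of_ae hw0
  have h2 := pow_le_pow_left₀ h0 h1 5
  refine h2.trans (le_of_eq ?_)
  rw [mul_pow, ← Real.rpow_natCast, ← Real.rpow_natCast, ← Real.rpow_mul hV, ← Real.rpow_mul hW,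
    ← Real.rpow_natCast _ 3, ← Real.rpow_natCast _ 2]
  norm_num

theorem Hol_pt {w Z : ℝ} (hw : 0 ≤ w) (hZ : 0 ≤ Z) :
    (w ^ 2 * Z ^ 18) ^ 2 = (w * Z ^ 10) ^ (18/5 : ℝ) * w ^ (2/5 : ℝ) := by
  rw [Real.mul_rpow hw (by positivity), ← Real.rpow_natCast Z 10, ← Real.rpow_mul hZ,
    show ((10 : ℕ) : ℝ) * (18/5) = ((36 : ℕ) : ℝ) by norm_num, Real.rpow_natCast]
  have h1 : w ^ (18/5 : ℝ) * w ^ (2/5 : ℝ) = w ^ 4 := by
    rw [← Real.rpow_add_of_nonneg hw (by norm_num) (by norm_num),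
      show (18/5 : ℝ) + 2/5 = ((4 : ℕ) : ℝ) by norm_num, Real.rpow_natCast]
  calc (w ^ 2 * Z ^ 18) ^ 2 = w ^ 4 * Z ^ 36 := by ring
    _ = (w ^ (18/5 : ℝ) * w ^ (2/5 : ℝ)) * Z ^ 36 := by rw [h1]
    _ = _ := by ring

theorem Hol_rsq_cont : Continuous rsq := by
  unfold rsq
  fun_prop

theorem Hol_rsq_nonneg (x : E3) : 0 ≤ rsq x := by
  unfold rsq
  positivity

theorem Hol_G {P : E3 → ℝ} (hP : Continuous P) {b : ℝ} (hb : b ≤ 1) :
    ∫ x in Metric.ball (0 : E3) b, (1 + rsq x * P x ^ 2) ^ 2 ≤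
      (2 * (volume (Metric.ball (0 : E3) 1)).toReal + 2) * (1 + A4 P) := by
  have hc : Continuous fun x => rsq x ^ 2 * P x ^ 4 := (Hol_rsq_cont.pow 2).mul (hP.pow 4)
  have hc1 : Continuous fun x => (1 + rsq x * P x ^ 2) ^ 2 :=
    (continuous_const.add (Hol_rsq_cont.mul (hP.pow 2))).pow 2
  have hc2 : Continuous fun x => 2 + 2 * (rsq x ^ 2 * P x ^ 4) := continuous_const.add (hc.const_mul 2)
  have hnn : ∀ x, 0 ≤ rsq x ^ 2 * P x ^ 4 := fun x =>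
    mul_nonneg (sq_nonneg _) (Even.pow_nonneg (by decide) _)
  have hA : 0 ≤ A4 P := by
    unfold A4
    exact integral_nonneg hnn
  have hsub : Metric.ball (0 : E3) b ⊆ Metric.ball (0 : E3) 1 := Metric.ball_subset_ball hb
  calc ∫ x in Metric.ball (0 : E3) b, (1 + rsq x * P x ^ 2) ^ 2
      ≤ ∫ x in Metric.ball (0 : E3) 1, (1 + rsq x * P x ^ 2) ^ 2 :=
        setIntegral_mono_set (Hol_int hc1 1) (Eventually.of_forall fun x => sq_nonneg _) hsub.eventuallyLE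
    _ ≤ ∫ x in Metric.ball (0 : E3) 1, (2 + 2 * (rsq x ^ 2 * P x ^ 4)) := by
        refine integral_mono (Hol_int hc1 1) (Hol_int hc2 1) fun x => ?_
        simp only
        nlinarith [sq_nonneg (1 - rsq x * P x ^ 2)]
    _ = 2 * (volume (Metric.ball (0 : E3) 1)).toReal + 2 * A4 P := by
        rw [integral_add (Hol_int continuous_const 1) ((Hol_int hc 1).const_mul 2), integral_const_mul,
          setIntegral_const, smul_eq_mul, mul_comm, Measure.real]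
        rfl
    _ ≤ (2 * (volume (Metric.ball (0 : E3) 1)).toReal + 2) * (1 + A4 P) := by
        have h0 : 0 ≤ (volume (Metric.ball (0 : E3) 1)).toReal := ENNReal.toReal_nonneg
        nlinarith [mul_nonneg h0 hA]

theorem Hol_five {A : ℝ} (hA : 0 ≤ A) : (1 + A) ^ 5 ≤ 16 * (1 + A ^ 5) := by
  have h := add_pow_le (zero_le_one) hA 5
  norm_num at h
  linarith

theorem hol : ∃ C : ℝ, 0 < C ∧ ∀ a b : ℝ, 1/8 ≤ a → a < b → b ≤ 3/4 → ∀ w P : E3 → ℝ, ContDiff ℝ ∞ w → Continuous P →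
    (∀ x ∈ Metric.closedBall (0 : E3) b, 0 ≤ w x) → ∀ κ : ℝ, 0 < κ →
    ∫ x, (1 + rsq x * P x ^ 2) * w x ^ 2 * zc a b x ^ 18 ≤ κ * (∫ x, gsq (fun y => w y * zc a b y ^ 10) x) +
      C * κ⁻¹ ^ 9 * (1 + A4 P ^ 5) * (∫ x in Metric.ball (0 : E3) b, w x) ^ 2 := by
  set C₁ : ℝ := 2 * (volume (Metric.ball (0 : E3) 1)).toReal + 2 with hC₁
  have hvol : 0 ≤ (volume (Metric.ball (0 : E3) 1)).toReal := ENNReal.toReal_nonneg
  have hC₁0 : 0 < C₁ := by linarith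
  have hSB := SB_pos
  refine ⟨16 * C₁ ^ 5 * SB ^ 9, by positivity, ?_⟩
  intro a b ha hab hb w P hw hP hwn κ hκ
  have ha0 : 0 < a := by linarith
  have hZc : Continuous (zc a b) := (zc_smooth a b).continuous
  have hwc : Continuous w := hw.continuous
  have hvs : ContDiff ℝ ∞ (fun y => w y * zc a b y ^ 10) := hw.mul ((zc_smooth a b).pow 10)
  have hvc : HasCompactSupport (fun y => w y * zc a b y ^ 10) :=
    (zc_supp ha0 hab (by norm_num : (10 : ℕ) ≠ 0)).1.mul_left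
  obtain ⟨K, hK⟩ := Hol_DB (hvs.of_le (by simp)) hvc
  obtain ⟨hV6i, hV6⟩ := SB_spec (hvs.of_le (by simp)) hK
  set D : ℝ := ∫ x, gsq (fun y => w y * zc a b y ^ 10) x with hD
  have hD0 : 0 ≤ D := integral_nonneg fun x => by
    unfold gsq
    positivity
  have hV60 : 0 ≤ ∫ x, (w x * zc a b x ^ 10) ^ 6 := integral_nonneg fun x => Even.pow_nonneg (by decide) _
  have hV63 : ∫ x, (w x * zc a b x ^ 10) ^ 6 ≤ (SB * D) ^ 3 := by
    have h1 := pow_le_pow_left₀ (Real.rpow_nonneg hV60 _) hV6 3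
    refine le_trans (le_of_eq ?_) h1
    rw [← Real.rpow_natCast, ← Real.rpow_mul hV60]
    norm_num
  set B : Set E3 := Metric.ball (0 : E3) b with hB
  have hwB : ∀ x ∈ B, 0 ≤ w x := fun x hx => hwn x (Metric.ball_subset_closedBall hx)
  have hae : ∀ᵐ x ∂(volume.restrict B), 0 ≤ w x := by
    filter_upwards [ae_restrict_mem measurableSet_ball] with x hx
    exact hwB x hx
  have hV6B : ∫ x in B, (w x * zc a b x ^ 10) ^ 6 ≤ (SB * D) ^ 3 :=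
    (setIntegral_le_integral hV6i (Eventually.of_forall fun x => Even.pow_nonneg (by decide) _)).trans hV63
  have hV6B0 : 0 ≤ ∫ x in B, (w x * zc a b x ^ 10) ^ 6 := integral_nonneg fun x => Even.pow_nonneg (by decide) _
  have hY0 : 0 ≤ ∫ x in B, w x := integral_nonneg_of_ae hae
  have hI : ∫ x, (1 + rsq x * P x ^ 2) * w x ^ 2 * zc a b x ^ 18 =
      ∫ x in B, (1 + rsq x * P x ^ 2) * (w x ^ 2 * zc a b x ^ 18) := by
    rw [← setIntegral_eq_integral_of_forall_compl_eq_zero (s := B)]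
    · refine integral_congr_ae (Eventually.of_forall fun x => ?_)
      simp only
      ring
    · intro x hx
      have h1 : b ≤ ‖x‖ := by
        by_contra h
        exact hx (mem_ball_zero_iff.2 (not_le.1 h))
      rw [zc_zero ha0 hab h1]
      norm_num
  have hcg : Continuous fun x => 1 + rsq x * P x ^ 2 := continuous_const.add (Hol_rsq_cont.mul (hP.pow 2))
  have hch : Continuous fun x => w x ^ 2 * zc a b x ^ 18 := (hwc.pow 2).mul (hZc.pow 18)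
  have hg0 : ∀ x, 0 ≤ 1 + rsq x * P x ^ 2 := fun x => by
    have := Hol_rsq_nonneg x
    positivity
  have hh0 : ∀ x, 0 ≤ w x ^ 2 * zc a b x ^ 18 := fun x => by
    have := zc_nonneg a b x
    positivity
  have hCS := Hol_cs (μ := volume.restrict B) (Eventually.of_forall hg0) (Eventually.of_forall hh0)
    (Hol_memLp hcg b _) (Hol_memLp hch b _)
  have hG := Hol_G hP (b := b) (by linarith)
  have hG0 : 0 ≤ ∫ x in B, (1 + rsq x * P x ^ 2) ^ 2 := integral_nonneg fun x => sq_nonneg _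
  have hJ0 : 0 ≤ ∫ x in B, (w x ^ 2 * zc a b x ^ 18) ^ 2 := integral_nonneg fun x => sq_nonneg _
  have hJ : ∫ x in B, (w x ^ 2 * zc a b x ^ 18) ^ 2 =
      ∫ x in B, (w x * zc a b x ^ 10) ^ (18/5 : ℝ) * w x ^ (2/5 : ℝ) := by
    refine integral_congr_ae ?_
    filter_upwards [hae] with x hx
    exact Hol_pt hx (zc_nonneg a b x)
  have hH := Hol_h2 (μ := volume.restrict B) (v := fun x => w x * zc a b x ^ 10) (w := w)
    (by
      filter_upwards [hae] with x hx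
      have := zc_nonneg a b x
      simp only [Pi.zero_apply]
      positivity) hae
    (Hol_memLp ((hwc.mul (hZc.pow 10)).rpow_const fun x => Or.inr (by norm_num)) b _)
    (Hol_memLp (hwc.rpow_const fun x => Or.inr (by norm_num)) b _)
  rw [← hJ] at hH
  have hA0 : 0 ≤ A4 P := by
    unfold A4
    exact integral_nonneg fun x => mul_nonneg (sq_nonneg _) (Even.pow_nonneg (by decide) _)
  rw [hI]
  set I : ℝ := ∫ x in B, (1 + rsq x * P x ^ 2) * (w x ^ 2 * zc a b x ^ 18) with hIdef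
  set Y : ℝ := ∫ x in B, w x with hYdef
  have hmain : I ^ 10 ≤ D ^ 9 * (16 * C₁ ^ 5 * SB ^ 9 * (1 + A4 P ^ 5) * Y ^ 2) := by
    have h1 : (I ^ 2) ^ 5 ≤ ((C₁ * (1 + A4 P)) * ∫ x in B, (w x ^ 2 * zc a b x ^ 18) ^ 2) ^ 5 :=
      pow_le_pow_left₀ (sq_nonneg I) (hCS.trans (mul_le_mul_of_nonneg_right hG hJ0)) 5
    have h2 : (∫ x in B, (w x ^ 2 * zc a b x ^ 18) ^ 2) ^ 5 ≤ ((SB * D) ^ 3) ^ 3 * Y ^ 2 :=
      hH.trans (mul_le_mul_of_nonneg_right (pow_le_pow_left₀ hV6B0 hV6B 3) (sq_nonneg _))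
    have h3 := Hol_five hA0
    calc I ^ 10 = (I ^ 2) ^ 5 := by ring
      _ ≤ ((C₁ * (1 + A4 P)) * ∫ x in B, (w x ^ 2 * zc a b x ^ 18) ^ 2) ^ 5 := h1
      _ = C₁ ^ 5 * (1 + A4 P) ^ 5 * (∫ x in B, (w x ^ 2 * zc a b x ^ 18) ^ 2) ^ 5 := by ring
      _ ≤ C₁ ^ 5 * (16 * (1 + A4 P ^ 5)) * (((SB * D) ^ 3) ^ 3 * Y ^ 2) := by
          refine mul_le_mul (mul_le_mul_of_nonneg_left h3 (by positivity)) h2 (by positivity) (by positivity)
      _ = D ^ 9 * (16 * C₁ ^ 5 * SB ^ 9 * (1 + A4 P ^ 5) * Y ^ 2) := by ring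
  have hfin := Hol_young hD0 (by positivity) hκ hmain
  refine hfin.trans (le_of_eq ?_)
  ring

end Pool.Agent.H72.CC
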