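/-
ROW MoA (MP_09540e_CC). The energy inequality for powers, at a fixed time. PROOF. `Z = zc a b`, `δ = b - a`, `F₂ = F^(2n)`, `w = F(G)^n` (smooth, `≥ 0` on closedBall 0 b, which contains the support of `Z`).
(1) `F₂'' = 2n(2n-1) F^(2n-2) F'^2 + 2n F^(2n-1) F'' ≥ 2 n² F^(2n-2) F'^2` where `F, F'' ≥ 0`, so `F₂''(G) gsq G ≥ 2 gsq w`. (2) `F₂(G) = w²`, `F₂'(G) pd i G = 2 w pd i w`.
(3) `lap (Z²⁰) + 2/rsq rdr (Z²⁰) ≤ |lap (Z²⁰)| ≤ C δ⁻² Z¹⁸` (zc_pow with n = 20). (4) `crs G (Z²⁰)`: `P F₂'(G) crs G (Z²⁰) = 4 P w Z¹⁰ crs w (Z¹⁰)`, and `|crs w η| ≤ √rsq √(gsq w) √(gsq η)` (Cauchy: `|rdr η| ≤ √rsq |∇_h η|`),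
`gsq (Z¹⁰) ≤ C δ⁻² Z¹⁸`: `|4 P w Z¹⁰ crs w (Z¹⁰)| ≤ gsq w Z²⁰ + 4 C δ⁻² rsq P² w² Z¹⁸`. Sum: `En ≤ - ∫ gsq w Z²⁰ + C₁ δ⁻² ∫ (1 + rsq P²) w² Z¹⁸`.
(5) `v = w Z¹⁰`: `gsq v ≤ 2 gsq w Z²⁰ + 2 w² gsq (Z¹⁰)`, so `- ∫ gsq w Z²⁰ ≤ - (1/2) ∫ gsq v + C δ⁻² ∫ w² Z¹⁸`. (6) hol with `κ = δ²/(4 C₂)`: `C₂ δ⁻² ∫ (1+rsq P²) w² Z¹⁸ ≤ (1/4) ∫ gsq v + C₃ δ⁻²⁰ (1+A4⁵) (∫_{ball 0 b} w)²`.
-/
import Pool.Agent.H72.CC.Hol

set_option autoImplicit false

open Set Filter Topology MeasureTheory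
open scoped ContDiff

namespace Pool.Agent.H72.CC

open Pool.Agent.H16 Pool.Agent.H87.NS

theorem MoA_comp {H : ℝ → ℝ} {f : E3 → ℝ} {x : E3} (hH : DifferentiableAt ℝ H (f x))
    (hf : DifferentiableAt ℝ f x) (i : Fin 3) : pd i (fun y => H (f y)) x = deriv H (f x) * pd i f x := by
  have h : HasFDerivAt (fun y => H (f y)) _ x := hH.hasDerivAt.comp_hasFDerivAt x hf.hasFDerivAt
  unfold pd
  rw [h.fderiv]
  rfl

theorem MoA_mul {f g : E3 → ℝ} {x : E3} (hf : DifferentiableAt ℝ f x) (hg : DifferentiableAt ℝ g x)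
    (i : Fin 3) : pd i (fun y => f y * g y) x = pd i f x * g x + f x * pd i g x := by
  have h : HasFDerivAt (fun y => f y * g y) _ x := hf.hasFDerivAt.mul hg.hasFDerivAt
  unfold pd
  rw [h.fderiv]
  show f x * (fderiv ℝ g x) (e i) + g x * (fderiv ℝ f x) (e i) = _
  ring

theorem MoA_pow {f : E3 → ℝ} {x : E3} (hf : DifferentiableAt ℝ f x) (k : ℕ)
    (i : Fin 3) : pd i (fun y => f y ^ k) x = k * f x ^ (k - 1) * pd i f x := by
  have h := MoA_comp (H := fun t : ℝ => t ^ k) (f := f) (x := x) (differentiableAt_pow k) hf i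
  rw [h]
  congr 1
  simp

theorem MoA_d1 {F : ℝ → ℝ} (hF : ContDiff ℝ ∞ F) (m : ℕ) (s : ℝ) :
    deriv (fun t => F t ^ (2 * (m + 1))) s = 2 * ((m : ℝ) + 1) * (F s ^ m) ^ 2 * F s * deriv F s := by
  have hd : HasDerivAt F (deriv F s) s := (hF.differentiable (by simp) s).hasDerivAt
  have h : HasDerivAt (fun t => F t ^ (2 * (m + 1))) _ s := hd.fun_pow (2 * (m + 1))
  rw [h.deriv]
  have e1 : 2 * (m + 1) - 1 = 2 * m + 1 := by omega
  rw [e1, pow_succ, pow_mul']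
  push_cast
  ring

theorem MoA_d2 {F : ℝ → ℝ} (hF : ContDiff ℝ ∞ F) (m : ℕ) (s : ℝ) :
    deriv (deriv (fun t => F t ^ (2 * (m + 1)))) s =
      2 * ((m : ℝ) + 1) * (2 * m + 1) * (F s ^ m) ^ 2 * deriv F s ^ 2 +
      2 * ((m : ℝ) + 1) * (F s ^ m) ^ 2 * F s * deriv (deriv F) s := by
  have hF' : ContDiff ℝ ∞ (deriv F) := by
    have h : ContDiff ℝ ((⊤ : ℕ∞) + 1) F := by
      simpa using hF
    exact (contDiff_succ_iff_deriv.1 h).2.2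
  have hd : HasDerivAt F (deriv F s) s := (hF.differentiable (by simp) s).hasDerivAt
  have hd2 : HasDerivAt (deriv F) (deriv (deriv F) s) s := (hF'.differentiable (by simp) s).hasDerivAt
  have h0 : deriv (fun t => F t ^ (2 * (m + 1))) =
      fun t => 2 * ((m : ℝ) + 1) * (F t ^ (2 * m + 1) * deriv F t) := by
    funext t
    have e0 : F t ^ (2 * m + 1) = (F t ^ m) ^ 2 * F t := by rw [pow_succ, pow_mul']
    rw [MoA_d1 hF m t, e0]
    ring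
  rw [h0]
  have h1 : HasDerivAt (fun t => 2 * ((m : ℝ) + 1) * (F t ^ (2 * m + 1) * deriv F t)) _ s :=
    ((hd.fun_pow (2 * m + 1)).mul hd2).const_mul (2 * ((m : ℝ) + 1))
  rw [h1.deriv]
  have e1 : 2 * m + 1 - 1 = 2 * m := by omega
  rw [e1, pow_succ, pow_mul']
  push_cast
  ring

theorem MoA_cs (X Y a0 a1 a2 b0 b1 b2 : ℝ) :
    (a2 * (X * b0 + Y * b1) - (X * a0 + Y * a1) * b2) ^ 2 ≤
      (X ^ 2 + Y ^ 2) * (a0 ^ 2 + a1 ^ 2 + a2 ^ 2) * (b0 ^ 2 + b1 ^ 2 + b2 ^ 2) := by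
  have h1 : (a2 * (X * b0 + Y * b1) - (X * a0 + Y * a1) * b2) ^ 2 ≤
      (X ^ 2 + Y ^ 2) * ((a2 * b0 - a0 * b2) ^ 2 + (a2 * b1 - a1 * b2) ^ 2) := by
    have : (X ^ 2 + Y ^ 2) * ((a2 * b0 - a0 * b2) ^ 2 + (a2 * b1 - a1 * b2) ^ 2) -
      (a2 * (X * b0 + Y * b1) - (X * a0 + Y * a1) * b2) ^ 2 =
      (X * (a2 * b1 - a1 * b2) - Y * (a2 * b0 - a0 * b2)) ^ 2 := by ring
    have h2 := sq_nonneg (X * (a2 * b1 - a1 * b2) - Y * (a2 * b0 - a0 * b2))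
    linarith
  have h3 : (a2 * b0 - a0 * b2) ^ 2 + (a2 * b1 - a1 * b2) ^ 2 ≤
      (a0 ^ 2 + a1 ^ 2 + a2 ^ 2) * (b0 ^ 2 + b1 ^ 2 + b2 ^ 2) := by
    have : (a0 ^ 2 + a1 ^ 2 + a2 ^ 2) * (b0 ^ 2 + b1 ^ 2 + b2 ^ 2) -
      ((a2 * b0 - a0 * b2) ^ 2 + (a2 * b1 - a1 * b2) ^ 2) =
      (a0 * b0 + a1 * b1 + a2 * b2) ^ 2 + (a0 * b1 - a1 * b0) ^ 2 := by ring
    have h4 := sq_nonneg (a0 * b0 + a1 * b1 + a2 * b2)
    have h5 := sq_nonneg (a0 * b1 - a1 * b0)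
    linarith
  calc (a2 * (X * b0 + Y * b1) - (X * a0 + Y * a1) * b2) ^ 2
      ≤ (X ^ 2 + Y ^ 2) * ((a2 * b0 - a0 * b2) ^ 2 + (a2 * b1 - a1 * b2) ^ 2) := h1
    _ ≤ (X ^ 2 + Y ^ 2) * ((a0 ^ 2 + a1 ^ 2 + a2 ^ 2) * (b0 ^ 2 + b1 ^ 2 + b2 ^ 2)) :=
        mul_le_mul_of_nonneg_left h3 (by positivity)
    _ = _ := by ring

theorem MoA_am {s t c A M : ℝ} (hA : 0 ≤ A) (hM : 0 ≤ M) (hc : c ^ 2 ≤ M * A) :
    4 * s * t * c ≤ t ^ 2 * A + 4 * s ^ 2 * M := by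
  have h0 : 0 ≤ t ^ 2 * A + 4 * s ^ 2 * M := by positivity
  have h1 : (4 * s * t * c) ^ 2 ≤ (t ^ 2 * A + 4 * s ^ 2 * M) ^ 2 := by
    have e1 : (4 * s * t * c) ^ 2 = 16 * s ^ 2 * t ^ 2 * c ^ 2 := by ring
    have e2 : 16 * s ^ 2 * t ^ 2 * c ^ 2 ≤ 16 * s ^ 2 * t ^ 2 * (M * A) :=
      mul_le_mul_of_nonneg_left hc (by positivity)
    have e3 : (t ^ 2 * A + 4 * s ^ 2 * M) ^ 2 - 16 * s ^ 2 * t ^ 2 * (M * A) =
      (t ^ 2 * A - 4 * s ^ 2 * M) ^ 2 := by ring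
    have e4 := sq_nonneg (t ^ 2 * A - 4 * s ^ 2 * M)
    linarith
  exact (abs_le_of_sq_le_sq h1 h0 |> le_of_abs_le)

theorem MoA_gsq (f : E3 → ℝ) (x : E3) : gsq f x = pd 0 f x ^ 2 + pd 1 f x ^ 2 + pd 2 f x ^ 2 := by
  unfold gsq
  rw [Fin.sum_univ_three]

/-- the algebra of the pointwise inequality -/
theorem MoA_alg {m f q f1 f2 Z r p L R D C1 C2 : ℝ} {g z : Fin 3 → ℝ} {X Y : ℝ} (hm : 0 ≤ m)
    (hD : 0 ≤ D) (hC1 : 0 ≤ C1) (hC2 : 0 ≤ C2)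
    (hr : r = X ^ 2 + Y ^ 2)
    (h0 : (0 ≤ f ∧ 0 ≤ f2) ∨ Z = 0) (hL : |L| ≤ C2 * D * Z ^ 18) (hR : R ≤ 0) (hZ : 0 ≤ Z)
    (hz : z 0 ^ 2 + z 1 ^ 2 + z 2 ^ 2 ≤ C1 * D * Z ^ 18) :
    - (2 * (m + 1) * (2 * m + 1) * q ^ 2 * f1 ^ 2 + 2 * (m + 1) * q ^ 2 * f * f2) *
        (g 0 ^ 2 + g 1 ^ 2 + g 2 ^ 2) * Z ^ 20 + (q * f) ^ 2 * (L + 2 / r * R) +
      p * (2 * (m + 1) * q ^ 2 * f * f1) *
        (g 2 * (X * (2 * Z ^ 10 * z 0) + Y * (2 * Z ^ 10 * z 1)) - (X * g 0 + Y * g 1) * (2 * Z ^ 10 * z 2)) ≤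
      -(1 / 2) * (((m + 1) * q * f1 * g 0 * Z ^ 10 + q * f * z 0) ^ 2 +
        ((m + 1) * q * f1 * g 1 * Z ^ 10 + q * f * z 1) ^ 2 +
        ((m + 1) * q * f1 * g 2 * Z ^ 10 + q * f * z 2) ^ 2) +
      (C2 + 5 * C1) * D * ((1 + r * p ^ 2) * (q * f) ^ 2 * Z ^ 18) := by
  have hr0 : 0 ≤ r := by rw [hr]; positivity
  obtain ⟨Γ, hΓ⟩ : ∃ Γ, Γ = g 0 ^ 2 + g 1 ^ 2 + g 2 ^ 2 := ⟨_, rfl⟩
  obtain ⟨A, hA⟩ : ∃ A, A = (m + 1) ^ 2 * q ^ 2 * f1 ^ 2 * Γ := ⟨_, rfl⟩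
  obtain ⟨B, hB⟩ : ∃ B, B = z 0 ^ 2 + z 1 ^ 2 + z 2 ^ 2 := ⟨_, rfl⟩
  obtain ⟨w, hw⟩ : ∃ w, w = q * f := ⟨_, rfl⟩
  have hΓ0 : 0 ≤ Γ := by rw [hΓ]; positivity
  have hA0 : 0 ≤ A := by rw [hA]; positivity
  have hB0 : 0 ≤ B := by rw [hB]; positivity
  have hZ18 : 0 ≤ Z ^ 18 := by positivity
  -- first term
  have t1 : - (2 * (m + 1) * (2 * m + 1) * q ^ 2 * f1 ^ 2 + 2 * (m + 1) * q ^ 2 * f * f2) * Γ * Z ^ 20 ≤
      - 2 * A * Z ^ 20 := by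
    rcases h0 with ⟨hf, hf2⟩ | h0
    · have e1 : 0 ≤ 2 * (m + 1) * q ^ 2 * f * f2 * Γ := by positivity
      have e2 : 0 ≤ 2 * (m + 1) * m * q ^ 2 * f1 ^ 2 * Γ := by positivity
      have e3 : - (2 * (m + 1) * (2 * m + 1) * q ^ 2 * f1 ^ 2 + 2 * (m + 1) * q ^ 2 * f * f2) * Γ ≤ - 2 * A := by
        rw [hA]
        have e4 : - 2 * ((m + 1) ^ 2 * q ^ 2 * f1 ^ 2 * Γ) -
          (- (2 * (m + 1) * (2 * m + 1) * q ^ 2 * f1 ^ 2 + 2 * (m + 1) * q ^ 2 * f * f2) * Γ) =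
          2 * (m + 1) * m * q ^ 2 * f1 ^ 2 * Γ + 2 * (m + 1) * q ^ 2 * f * f2 * Γ := by ring
        linarith
      exact mul_le_mul_of_nonneg_right e3 (by positivity)
    · rw [h0]
      norm_num
  -- second term
  have t2 : w ^ 2 * (L + 2 / r * R) ≤ C2 * D * (w ^ 2 * Z ^ 18) := by
    have e1 : 2 / r * R ≤ 0 := mul_nonpos_of_nonneg_of_nonpos (by positivity) hR
    have e2 : L + 2 / r * R ≤ C2 * D * Z ^ 18 := by
      have := le_abs_self L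
      linarith
    calc w ^ 2 * (L + 2 / r * R) ≤ w ^ 2 * (C2 * D * Z ^ 18) :=
          mul_le_mul_of_nonneg_left e2 (by positivity)
      _ = _ := by ring
  -- third term
  obtain ⟨c, hc⟩ : ∃ c, c = ((m + 1) * q * f1 * g 2) * (X * z 0 + Y * z 1) -
      (X * ((m + 1) * q * f1 * g 0) + Y * ((m + 1) * q * f1 * g 1)) * z 2 := ⟨_, rfl⟩
  have hcc : c ^ 2 ≤ (r * B) * A := by
    have e1 := MoA_cs X Y ((m + 1) * q * f1 * g 0) ((m + 1) * q * f1 * g 1) ((m + 1) * q * f1 * g 2)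
      (z 0) (z 1) (z 2)
    rw [← hc] at e1
    refine e1.trans (le_of_eq ?_)
    rw [hr, hB, hA, hΓ]
    ring
  have t3 : 4 * (p * w) * Z ^ 10 * c ≤ (Z ^ 10) ^ 2 * A + 4 * (p * w) ^ 2 * (r * B) :=
    MoA_am hA0 (by positivity) hcc
  have t3' : p * (2 * (m + 1) * q ^ 2 * f * f1) *
        (g 2 * (X * (2 * Z ^ 10 * z 0) + Y * (2 * Z ^ 10 * z 1)) - (X * g 0 + Y * g 1) * (2 * Z ^ 10 * z 2)) =
      4 * (p * w) * Z ^ 10 * c := by
    rw [hc, hw]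
    ring
  have hBle : B ≤ C1 * D * Z ^ 18 := by rw [hB]; exact hz
  have t4 : 4 * (p * w) ^ 2 * (r * B) ≤ 4 * C1 * D * (r * p ^ 2 * w ^ 2 * Z ^ 18) := by
    calc 4 * (p * w) ^ 2 * (r * B) = (4 * (p * w) ^ 2 * r) * B := by ring
      _ ≤ (4 * (p * w) ^ 2 * r) * (C1 * D * Z ^ 18) := mul_le_mul_of_nonneg_left hBle (by positivity)
      _ = _ := by ring
  -- v
  have t5 : ((m + 1) * q * f1 * g 0 * Z ^ 10 + w * z 0) ^ 2 +
        ((m + 1) * q * f1 * g 1 * Z ^ 10 + w * z 1) ^ 2 +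
        ((m + 1) * q * f1 * g 2 * Z ^ 10 + w * z 2) ^ 2 ≤ 2 * A * Z ^ 20 + 2 * w ^ 2 * B := by
    have e1 : 2 * A * Z ^ 20 + 2 * w ^ 2 * B - (((m + 1) * q * f1 * g 0 * Z ^ 10 + w * z 0) ^ 2 +
        ((m + 1) * q * f1 * g 1 * Z ^ 10 + w * z 1) ^ 2 +
        ((m + 1) * q * f1 * g 2 * Z ^ 10 + w * z 2) ^ 2) =
        ((m + 1) * q * f1 * g 0 * Z ^ 10 - w * z 0) ^ 2 +
        ((m + 1) * q * f1 * g 1 * Z ^ 10 - w * z 1) ^ 2 +
        ((m + 1) * q * f1 * g 2 * Z ^ 10 - w * z 2) ^ 2 := by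
      rw [hA, hΓ, hB]
      ring
    have e2 := sq_nonneg ((m + 1) * q * f1 * g 0 * Z ^ 10 - w * z 0)
    have e3 := sq_nonneg ((m + 1) * q * f1 * g 1 * Z ^ 10 - w * z 1)
    have e4 := sq_nonneg ((m + 1) * q * f1 * g 2 * Z ^ 10 - w * z 2)
    linarith
  have t6 : w ^ 2 * B ≤ C1 * D * (w ^ 2 * Z ^ 18) := by
    calc w ^ 2 * B ≤ w ^ 2 * (C1 * D * Z ^ 18) := mul_le_mul_of_nonneg_left hBle (by positivity)
      _ = _ := by ring
  have t7 : C2 * D * (w ^ 2 * Z ^ 18) + 4 * C1 * D * (r * p ^ 2 * w ^ 2 * Z ^ 18) + C1 * D * (w ^ 2 * Z ^ 18) ≤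
      (C2 + 5 * C1) * D * ((1 + r * p ^ 2) * w ^ 2 * Z ^ 18) := by
    have e1 : 0 ≤ C2 * D * (r * p ^ 2 * w ^ 2 * Z ^ 18) := by positivity
    have e2 : 0 ≤ C1 * D * (r * p ^ 2 * w ^ 2 * Z ^ 18) := by positivity
    have e3 : 0 ≤ C1 * D * (w ^ 2 * Z ^ 18) := by positivity
    have e4 : (C2 + 5 * C1) * D * ((1 + r * p ^ 2) * w ^ 2 * Z ^ 18) =
      C2 * D * (w ^ 2 * Z ^ 18) + C2 * D * (r * p ^ 2 * w ^ 2 * Z ^ 18) + 5 * (C1 * D * (w ^ 2 * Z ^ 18)) +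
      5 * (C1 * D * (r * p ^ 2 * w ^ 2 * Z ^ 18)) := by ring
    rw [e4]
    linarith
  have hZ20 : (Z ^ 10) ^ 2 * A = A * Z ^ 20 := by ring
  rw [hZ20] at t3
  rw [← hΓ, ← hw, t3']
  linarith

theorem MoA_zd {a b : ℝ} (x : E3) : DifferentiableAt ℝ (zc a b) x :=
  (zc_smooth a b).differentiable (by simp) x

theorem MoA_zpow {a b : ℝ} (k : ℕ) : ContDiff ℝ ∞ (fun y => zc a b y ^ k) := (zc_smooth a b).pow k

/-- the pointwise inequality -/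
theorem MoA_pt {F : ℝ → ℝ} {G P : E3 → ℝ} (m : ℕ) (hF : ContDiff ℝ ∞ F) (hG : ContDiff ℝ ∞ G)
    {a b C1 C2 : ℝ} (ha : 0 < a) (hab : a < b) (hC1 : 0 ≤ C1) (hC2 : 0 ≤ C2) (x : E3)
    (hpos : x ∈ Metric.closedBall (0 : E3) b → 0 ≤ F (G x) ∧ 0 ≤ deriv (deriv F) (G x))
    (hL : |lap (fun y => zc a b y ^ 20) x| ≤ C2 / (b - a) ^ 2 * zc a b x ^ 18)
    (hR : rdr (fun y => zc a b y ^ 20) x ≤ 0)
    (hz : gsq (fun y => zc a b y ^ 10) x ≤ C1 / (b - a) ^ 2 * zc a b x ^ 18) :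
    - deriv (deriv (fun s => F s ^ (2 * (m + 1)))) (G x) * gsq G x * zc a b x ^ 20 +
      F (G x) ^ (2 * (m + 1)) * (lap (fun y => zc a b y ^ 20) x + 2 / rsq x * rdr (fun y => zc a b y ^ 20) x) +
      P x * deriv (fun s => F s ^ (2 * (m + 1))) (G x) * crs G (fun y => zc a b y ^ 20) x ≤
    -(1 / 2) * gsq (fun y => F (G y) ^ (m + 1) * zc a b y ^ 10) x +
      ((C2 + 5 * C1) / (b - a) ^ 2) * ((1 + rsq x * P x ^ 2) * (F (G x) ^ (m + 1)) ^ 2 * zc a b x ^ 18) := by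
  have hFd : Differentiable ℝ F := hF.differentiable (by simp)
  have hGd : Differentiable ℝ G := hG.differentiable (by simp)
  have hwd : DifferentiableAt ℝ (fun y => F (G y) ^ (m + 1)) x :=
    ((hF.comp hG).pow (m + 1)).differentiable (by simp) x
  have hzd : DifferentiableAt ℝ (fun y => zc a b y ^ 10) x := (MoA_zpow 10).differentiable (by simp) x
  have hw : ∀ i, pd i (fun y => F (G y) ^ (m + 1)) x =
      ((m : ℝ) + 1) * F (G x) ^ m * deriv F (G x) * pd i G x := by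
    intro i
    have h1 := MoA_comp (H := fun s => F s ^ (m + 1)) (f := G) (x := x) ((hF.pow (m + 1)).differentiable (by simp) _)
      (hGd x) i
    rw [h1]
    have h2 : HasDerivAt (fun s => F s ^ (m + 1)) _ (G x) := (hFd (G x)).hasDerivAt.fun_pow (m + 1)
    rw [h2.deriv, Nat.add_sub_cancel]
    push_cast
    ring
  have hv : ∀ i, pd i (fun y => F (G y) ^ (m + 1) * zc a b y ^ 10) x =
      ((m : ℝ) + 1) * F (G x) ^ m * deriv F (G x) * pd i G x * zc a b x ^ 10 +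
      F (G x) ^ m * F (G x) * pd i (fun y => zc a b y ^ 10) x := by
    intro i
    rw [MoA_mul hwd hzd, hw, pow_succ (F (G x)) m]
  have h20 : ∀ i, pd i (fun y => zc a b y ^ 20) x = 2 * zc a b x ^ 10 * pd i (fun y => zc a b y ^ 10) x := by
    intro i
    have e : (fun y => zc a b y ^ 20) = fun y => zc a b y ^ 10 * zc a b y ^ 10 := by
      funext y
      ring
    rw [e, MoA_mul hzd hzd]
    ring
  have hcrs : crs G (fun y => zc a b y ^ 20) x =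
      pd 2 G x * (x 0 * (2 * zc a b x ^ 10 * pd 0 (fun y => zc a b y ^ 10) x) +
        x 1 * (2 * zc a b x ^ 10 * pd 1 (fun y => zc a b y ^ 10) x)) -
      (x 0 * pd 0 G x + x 1 * pd 1 G x) * (2 * zc a b x ^ 10 * pd 2 (fun y => zc a b y ^ 10) x) := by
    unfold crs rdr
    rw [h20, h20, h20]
  have hF2 : F (G x) ^ (2 * (m + 1)) = (F (G x) ^ m * F (G x)) ^ 2 := by
    rw [← pow_succ, ← pow_mul, Nat.mul_comm]
  have h0 : (0 ≤ F (G x) ∧ 0 ≤ deriv (deriv F) (G x)) ∨ zc a b x = 0 := by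
    rcases le_or_gt ‖x‖ b with hx | hx
    · exact Or.inl (hpos (by rw [mem_closedBall_zero_iff]; exact hx))
    · exact Or.inr (zc_zero ha hab hx.le)
  rw [MoA_gsq G, MoA_gsq (fun y => F (G y) ^ (m + 1) * zc a b y ^ 10), hv, hv, hv, hcrs, hF2, MoA_d1 hF, MoA_d2 hF]
  rw [MoA_gsq] at hz
  have hfin := MoA_alg (m := (m : ℝ)) (f := F (G x)) (q := F (G x) ^ m) (f1 := deriv F (G x))
    (f2 := deriv (deriv F) (G x)) (Z := zc a b x) (r := rsq x) (p := P x)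
    (L := lap (fun y => zc a b y ^ 20) x) (R := rdr (fun y => zc a b y ^ 20) x) (D := 1 / (b - a) ^ 2)
    (C1 := C1) (C2 := C2) (g := fun i => pd i G x) (z := fun i => pd i (fun y => zc a b y ^ 10) x)
    (X := x 0) (Y := x 1) (Nat.cast_nonneg m) (by positivity) hC1 hC2 rfl h0
    (by
      refine hL.trans (le_of_eq ?_)
      ring) hR (zc_nonneg a b x)
    (by
      refine hz.trans (le_of_eq ?_)
      ring)
  refine le_trans (le_of_eq ?_) (hfin.trans (le_of_eq ?_))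
  · ring
  · rw [← pow_succ]
    ring

theorem MoA_gsq_cont {f : E3 → ℝ} (hf : ContDiff ℝ ∞ f) : Continuous (gsq f) := by
  have h : gsq f = fun x => pd 0 f x ^ 2 + pd 1 f x ^ 2 + pd 2 f x ^ 2 := funext fun x => MoA_gsq f x
  rw [h]
  exact (((pd_smooth hf 0).continuous.pow 2).add ((pd_smooth hf 1).continuous.pow 2)).add
    ((pd_smooth hf 2).continuous.pow 2)

theorem MoA_lap_cont {f : E3 → ℝ} (hf : ContDiff ℝ ∞ f) : Continuous (lap f) := by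
  have h : lap f = fun x => pd 0 (pd 0 f) x + pd 1 (pd 1 f) x + pd 2 (pd 2 f) x := by
    funext x
    unfold lap
    rw [Fin.sum_univ_three]
  rw [h]
  exact (((pd_smooth (pd_smooth hf 0) 0).continuous).add ((pd_smooth (pd_smooth hf 1) 1).continuous)).add
    ((pd_smooth (pd_smooth hf 2) 2).continuous)

theorem MoA_coord (k : Fin 3) : Continuous (fun y : E3 => y k) :=
  (EuclideanSpace.proj (𝕜 := ℝ) k : E3 →L[ℝ] ℝ).continuous

theorem MoA_rdr_cont {f : E3 → ℝ} (hf : ContDiff ℝ ∞ f) : Continuous (rdr f) := by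
  unfold rdr
  exact ((MoA_coord 0).mul (pd_smooth hf 0).continuous).add ((MoA_coord 1).mul (pd_smooth hf 1).continuous)

theorem MoA_rsq_cont : Continuous (rsq : E3 → ℝ) := by
  unfold rsq
  exact ((MoA_coord 0).pow 2).add ((MoA_coord 1).pow 2)

theorem MoA_crs_cont {f g : E3 → ℝ} (hf : ContDiff ℝ ∞ f) (hg : ContDiff ℝ ∞ g) : Continuous (crs f g) := by
  unfold crs
  exact ((pd_smooth hf 2).continuous.mul (MoA_rdr_cont hg)).sub ((MoA_rdr_cont hf).mul (pd_smooth hg 2).continuous)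

/-- continuous functions vanishing off a ball are integrable -/
theorem MoA_intc {f : E3 → ℝ} (hf : Continuous f) {b : ℝ} (h : ∀ x : E3, b < ‖x‖ → f x = 0) : Integrable f := by
  refine hf.integrable_of_hasCompactSupport ?_
  refine HasCompactSupport.of_support_subset_isCompact (isCompact_closedBall (0 : E3) b) ?_
  intro x hx
  rw [mem_closedBall_zero_iff]
  by_contra hc
  exact hx (h x (not_le.1 hc))

theorem MoA_int {f g h : E3 → ℝ} (hf : Continuous f) {b K : ℝ} (hg : Measurable h)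
    (h0 : ∀ x : E3, b < ‖x‖ → g x = 0) (hK : ∀ x, |h x| ≤ K) (hgh : ∀ x, g x = f x * h x)
    (hK0 : 0 ≤ K) : Integrable g := by
  have h1 : Integrable (fun x => (Metric.closedBall (0 : E3) b).indicator (fun x => |f x| * K) x) := by
    rw [integrable_indicator_iff measurableSet_closedBall]
    exact ((hf.abs.mul continuous_const).continuousOn).integrableOn_compact (isCompact_closedBall _ _)
  have hm : Measurable g := by
    have : g = fun x => f x * h x := funext hgh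
    rw [this]
    exact hf.measurable.mul hg
  refine Integrable.mono' h1 hm.aestronglyMeasurable (Filter.Eventually.of_forall fun x => ?_)
  by_cases hx : x ∈ Metric.closedBall (0 : E3) b
  · rw [Set.indicator_of_mem hx, hgh, Real.norm_eq_abs, abs_mul]
    exact mul_le_mul_of_nonneg_left (hK x) (abs_nonneg _)
  · rw [Set.indicator_of_notMem hx, h0 x (by
      rw [mem_closedBall_zero_iff] at hx
      exact not_le.1 hx), norm_zero]

theorem moA : ∃ C : ℝ, 0 < C ∧ ∀ a b : ℝ, 1/8 ≤ a → a < b → b ≤ 3/4 → ∀ (F : ℝ → ℝ) (G P : E3 → ℝ) (n : ℕ), 1 ≤ n →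
    ContDiff ℝ ∞ F → ContDiff ℝ ∞ G → Continuous P →
    (∀ x ∈ Metric.closedBall (0 : E3) b, 0 ≤ F (G x) ∧ 0 ≤ deriv (deriv F) (G x)) →
    En (fun s => F s ^ (2 * n)) G P (fun x => zc a b x ^ 20) ≤
      - (1/4) * (∫ x, gsq (fun y => F (G y) ^ n * zc a b y ^ 10) x) +
      C * (b - a)⁻¹ ^ 20 * (1 + A4 P ^ 5) * (∫ x in Metric.ball (0 : E3) b, F (G x) ^ n) ^ 2 := by
  obtain ⟨C1, hC1, h1⟩ := zc_pow 10 (by norm_num)
  obtain ⟨C2, hC2, h2⟩ := zc_pow 20 (by norm_num)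
  obtain ⟨C3, hC3, h3⟩ := hol
  refine ⟨C3 * 4 ^ 9 * (C2 + 5 * C1) ^ 10, by positivity, ?_⟩
  intro a b ha hab hb F G P n hn hF hG hP hpos
  obtain ⟨m, rfl⟩ : ∃ m, n = m + 1 := ⟨n - 1, by omega⟩
  have ha0 : 0 < a := by linarith
  have hd : 0 < b - a := by linarith
  have hb1 : b ≤ 1 := by linarith
  have q1 := fun x => (h1 a b ha hab hb1 x).2.1
  have q2 := fun x => (h2 a b ha hab hb1 x).2.2.1
  have q3 := fun x => (h2 a b ha hab hb1 x).2.2.2.1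
  have q4 := fun x => (h2 a b ha hab hb1 x).2.2.2.2
  have hpt := fun x => MoA_pt (P := P) m hF hG ha0 hab hC1.le hC2.le x (hpos x) (q2 x) (q3 x) (q1 x)
  have hη : ContDiff ℝ ∞ (fun y => zc a b y ^ 20) := MoA_zpow 20
  have hζ : ContDiff ℝ ∞ (fun y => zc a b y ^ 10) := MoA_zpow 10
  have hw : ContDiff ℝ ∞ (fun y => F (G y) ^ (m + 1)) := (hF.comp hG).pow (m + 1)
  have hv : ContDiff ℝ ∞ (fun y => F (G y) ^ (m + 1) * zc a b y ^ 10) := hw.mul hζ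
  -- outside the ball
  have o1 : ∀ x : E3, b < ‖x‖ → zc a b x = 0 := fun x hx => zc_zero ha0 hab hx.le
  have o2 : ∀ x : E3, b < ‖x‖ → ∀ i, pd i (fun y => zc a b y ^ 20) x = 0 := by
    intro x hx i
    rw [MoA_pow (MoA_zd x) 20 i, o1 x hx]
    norm_num
  have o3 : ∀ x : E3, b < ‖x‖ → lap (fun y => zc a b y ^ 20) x = 0 := by
    intro x hx
    have h := q2 x
    rw [o1 x hx] at h
    norm_num at h
    exact h
  have o4 : ∀ x : E3, b < ‖x‖ → rdr (fun y => zc a b y ^ 20) x = 0 := by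
    intro x hx
    unfold rdr
    rw [o2 x hx, o2 x hx]
    ring
  have o5 : ∀ x : E3, b < ‖x‖ → crs G (fun y => zc a b y ^ 20) x = 0 := by
    intro x hx
    unfold crs
    rw [o4 x hx, o2 x hx]
    ring
  have o6 : ∀ x : E3, b < ‖x‖ → gsq (fun y => F (G y) ^ (m + 1) * zc a b y ^ 10) x = 0 := by
    intro x hx
    have hp : ∀ i, pd i (fun y => F (G y) ^ (m + 1) * zc a b y ^ 10) x = 0 := by
      intro i
      rw [MoA_mul (hw.differentiable (by simp) x) (hζ.differentiable (by simp) x), MoA_pow (MoA_zd x) 10 i,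
        o1 x hx]
      norm_num
    rw [MoA_gsq, hp, hp, hp]
    norm_num
  -- integrability
  have hF2 : ContDiff ℝ ∞ (fun s => F s ^ (2 * (m + 1))) := hF.pow _
  have hF2' : ContDiff ℝ ∞ (deriv (fun s => F s ^ (2 * (m + 1)))) := by
    have h : ContDiff ℝ ((⊤ : ℕ∞) + 1) (fun s => F s ^ (2 * (m + 1))) := by simpa using hF2
    exact (contDiff_succ_iff_deriv.1 h).2.2
  have hF2'' : ContDiff ℝ ∞ (deriv (deriv (fun s => F s ^ (2 * (m + 1))))) := by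
    have h : ContDiff ℝ ((⊤ : ℕ∞) + 1) (deriv (fun s => F s ^ (2 * (m + 1)))) := by simpa using hF2'
    exact (contDiff_succ_iff_deriv.1 h).2.2
  have i1 : Integrable (fun x => - deriv (deriv (fun s => F s ^ (2 * (m + 1)))) (G x) * gsq G x * zc a b x ^ 20 +
      F (G x) ^ (2 * (m + 1)) * lap (fun y => zc a b y ^ 20) x +
      P x * deriv (fun s => F s ^ (2 * (m + 1))) (G x) * crs G (fun y => zc a b y ^ 20) x) := by
    refine MoA_intc (b := b) ?_ ?_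
    · exact (((((hF2''.continuous.comp hG.continuous).neg).mul (MoA_gsq_cont hG)).mul hη.continuous).add
        ((hF2.continuous.comp hG.continuous).mul (MoA_lap_cont hη))).add
        ((hP.mul (hF2'.continuous.comp hG.continuous)).mul (MoA_crs_cont hG hη))
    · intro x hx
      rw [o1 x hx, o3 x hx, o5 x hx]
      norm_num
  have hrs : ∀ x : E3, 0 ≤ rsq x := by
    intro x
    unfold rsq
    positivity
  have i2 : Integrable (fun x => F (G x) ^ (2 * (m + 1)) * (2 / rsq x * rdr (fun y => zc a b y ^ 20) x)) := by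
    refine MoA_int (f := fun x => F (G x) ^ (2 * (m + 1))) (b := b) (K := 2 * (C2 / (b - a)))
      (h := fun x => 2 / rsq x * rdr (fun y => zc a b y ^ 20) x)
      (hF2.continuous.comp hG.continuous) ?_ ?_ ?_ (fun x => rfl) (by positivity)
    · exact (measurable_const.div MoA_rsq_cont.measurable).mul (MoA_rdr_cont hη).measurable
    · intro x hx
      rw [o4 x hx]
      ring
    · intro x
      rcases (hrs x).lt_or_eq with h | h
      · rw [abs_mul, abs_of_nonneg (by positivity)]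
        calc 2 / rsq x * |rdr (fun y => zc a b y ^ 20) x| ≤ 2 / rsq x * (C2 / (b - a) * rsq x) :=
              mul_le_mul_of_nonneg_left (q4 x) (by positivity)
          _ = 2 * (C2 / (b - a)) := by field_simp
      · rw [← h]
        norm_num
        positivity
  have i3 : Integrable (fun x => gsq (fun y => F (G y) ^ (m + 1) * zc a b y ^ 10) x) :=
    MoA_intc (b := b) (MoA_gsq_cont hv) o6
  have i4 : Integrable (fun x => (1 + rsq x * P x ^ 2) * (F (G x) ^ (m + 1)) ^ 2 * zc a b x ^ 18) := by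
    refine MoA_intc (b := b) ?_ ?_
    · exact ((continuous_const.add (MoA_rsq_cont.mul (hP.pow 2))).mul (hw.continuous.pow 2)).mul
        (MoA_zpow 18).continuous
    · intro x hx
      rw [o1 x hx]
      norm_num
  have hle : En (fun s => F s ^ (2 * (m + 1))) G P (fun x => zc a b x ^ 20) ≤
      ∫ x, (-(1 / 2) * gsq (fun y => F (G y) ^ (m + 1) * zc a b y ^ 10) x +
      ((C2 + 5 * C1) / (b - a) ^ 2) * ((1 + rsq x * P x ^ 2) * (F (G x) ^ (m + 1)) ^ 2 * zc a b x ^ 18)) := by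
    unfold En
    refine integral_mono ?_ ((i3.const_mul _).add (i4.const_mul _)) hpt
    refine (i1.add i2).congr (Filter.Eventually.of_forall fun x => ?_)
    simp only [Pi.add_apply]
    ring
  rw [integral_add (i3.const_mul _) (i4.const_mul _), integral_const_mul, integral_const_mul] at hle
  have hC4 : 0 < C2 + 5 * C1 := by positivity
  have h5 := h3 a b ha hab hb (fun x => F (G x) ^ (m + 1)) P hw hP
    (fun x hx => pow_nonneg (hpos x hx).1 _) ((b - a) ^ 2 / (4 * (C2 + 5 * C1))) (by positivity)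
  obtain ⟨D, hD⟩ : ∃ D, D = ∫ x, gsq (fun y => F (G y) ^ (m + 1) * zc a b y ^ 10) x := ⟨_, rfl⟩
  obtain ⟨Y, hY⟩ : ∃ Y, Y = ∫ x in Metric.ball (0 : E3) b, F (G x) ^ (m + 1) := ⟨_, rfl⟩
  obtain ⟨I, hI⟩ : ∃ I, I = ∫ x, (1 + rsq x * P x ^ 2) * (F (G x) ^ (m + 1)) ^ 2 * zc a b x ^ 18 := ⟨_, rfl⟩
  rw [← hD, ← hI] at hle
  rw [← hD, ← hY, ← hI] at h5
  rw [← hD, ← hY]
  have h6 : (C2 + 5 * C1) / (b - a) ^ 2 * I ≤ (C2 + 5 * C1) / (b - a) ^ 2 *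
      ((b - a) ^ 2 / (4 * (C2 + 5 * C1)) * D +
      C3 * ((b - a) ^ 2 / (4 * (C2 + 5 * C1)))⁻¹ ^ 9 * (1 + A4 P ^ 5) * Y ^ 2) :=
    mul_le_mul_of_nonneg_left h5 (by positivity)
  have h7 : (C2 + 5 * C1) / (b - a) ^ 2 *
      ((b - a) ^ 2 / (4 * (C2 + 5 * C1)) * D +
      C3 * ((b - a) ^ 2 / (4 * (C2 + 5 * C1)))⁻¹ ^ 9 * (1 + A4 P ^ 5) * Y ^ 2) =
      1 / 4 * D + C3 * 4 ^ 9 * (C2 + 5 * C1) ^ 10 * (b - a)⁻¹ ^ 20 * (1 + A4 P ^ 5) * Y ^ 2 := by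
    have hd' := hd.ne'
    have hC4' := hC4.ne'
    rw [inv_div]
    field_simp
  rw [h7] at h6
  linarith only [hle, h6]

end Pool.Agent.H72.CC
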