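/-
ROW MoC (MP_09540e_CC). The iteration. PROOF. `ρ k = 1/4 + (1/2)^(k+2)` (`ρ 0 = 1/2`), `ρ k - ρ (k+1) = (1/2)^(k+3)`. By induction with moB (`n = 2^k`): for `t ∈ [-ρ k, 0]`, `∫_{ball 0 (ρ k)} F(Γ t)^(2^k) ≤ Y k` where `Y 0 = M`,
`Y (k+1) = A B^k (Y k)²`, `A = C 8^20 Λ⁵` (with `C ≥ 1` without loss), `B = 2^20`. Then `Y k ≤ (A B M)^(2^k) / (A B^(k+1))`: induction: `A B^k ((ABM)^(2^k)/(A B^(k+1)))² = (ABM)^(2^(k+1)) / (A B^(k+2))`. So `Y k ≤ (A B M)^(2^k)` (`A, B ≥ 1`).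
Let `t ∈ [-1/4, 0]`, `x ∈ ball 0 (1/4)` and suppose `c := F(Γ t x) > A B M`. By continuity `F(Γ t ·) ≥ c' := (c + ABM)/2` on a ball `B'` around `x` inside `ball 0 (1/4)`, volume `v > 0`: `c'^(2^k) v ≤ ∫_{ball 0 (ρ k)} F^(2^k) ≤ (ABM)^(2^k)`
for all `k`, a contradiction as `(c'/(ABM))^(2^k) → ∞`. So the constant is `C 8^20 2^20`.
-/
import Pool.Agent.H72.CC.MoB

set_option autoImplicit false

open Set Filter Topology MeasureTheory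
open scoped ContDiff

namespace Pool.Agent.H72.CC

open Pool.Agent.H16 Pool.Agent.H87.NS

theorem moC_alg (A B Q : ℝ) (hA : 0 < A) (hB : 0 < B) (k : ℕ) :
    A * B ^ k * (Q ^ (2 ^ k) / (A * B ^ (k + 1))) ^ 2 = Q ^ (2 ^ (k + 1)) / (A * B ^ (k + 1 + 1)) := by
  have e1 : Q ^ (2 ^ (k + 1)) = (Q ^ (2 ^ k)) ^ 2 := by
    rw [← pow_mul, pow_succ]
  rw [e1]
  have hA' : A ≠ 0 := hA.ne'
  have hB' : B ≠ 0 := hB.ne'
  field_simp
  ring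

theorem moC_unb (c' Q v : ℝ) (hQ : 0 < Q) (hc : Q < c') (hv : 0 < v)
    (h : ∀ k : ℕ, c' ^ (2 ^ k) * v ≤ Q ^ (2 ^ k)) : False := by
  have h1 : 1 < c' / Q := by rw [lt_div_iff₀ hQ]; linarith
  obtain ⟨m, hm⟩ := pow_unbounded_of_one_lt (1 / v) h1
  have h2 : (c' / Q) ^ m ≤ (c' / Q) ^ (2 ^ m) := pow_le_pow_right₀ h1.le (Nat.lt_two_pow_self).le
  have h3 := h m
  have hQm : 0 < Q ^ (2 ^ m) := by positivity
  have h4 : (c' / Q) ^ (2 ^ m) * v ≤ 1 := by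
    rw [div_pow, div_mul_eq_mul_div, div_le_one hQm]
    exact h3
  have h5 : 1 < (c' / Q) ^ (2 ^ m) * v := by
    have h6 : 1 / v < (c' / Q) ^ (2 ^ m) := lt_of_lt_of_le hm h2
    rw [div_lt_iff₀ hv] at h6
    exact h6
  linarith

theorem moC : ∃ C : ℝ, 0 < C ∧ ∀ (Γ K P : ℝ → E3 → ℝ), Crc Γ K P → ∀ Λ : ℝ, 1 ≤ Λ → ∫ t in (-1 : ℝ)..0, A4 (P t) ^ 5 ≤ Λ ^ 5 →
    ∀ F : ℝ → ℝ, ContDiff ℝ ∞ F → F 0 = 0 →
    (∀ t ∈ Icc (-1 : ℝ) 0, ∀ x ∈ Metric.closedBall (0 : E3) (3/4), 0 ≤ F (Γ t x) ∧ 0 ≤ deriv (deriv F) (Γ t x)) →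
    ∀ M : ℝ, 0 < M → (∀ t ∈ Icc (-(1/2) : ℝ) 0, ∫ x in Metric.ball (0 : E3) (1/2), F (Γ t x) ≤ M) →
    ∀ t ∈ Icc (-(1/4) : ℝ) 0, ∀ x ∈ Metric.ball (0 : E3) (1/4), F (Γ t x) ≤ C * Λ ^ 5 * M := by
  obtain ⟨C₀, hC₀, hB⟩ := moB
  obtain ⟨C1, hC1', hC01⟩ : ∃ C1 : ℝ, 1 ≤ C1 ∧ C₀ ≤ C1 := ⟨max C₀ 1, le_max_right _ _, le_max_left _ _⟩
  have hC1p : 0 < C1 := by linarith
  refine ⟨C1 * 8 ^ 20 * 2 ^ 20, by positivity, ?_⟩
  intro Γ K P hc Λ hΛ hA F hF hF0 hpos M hM hM1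
  have hcont : ∀ t ∈ Icc (-1 : ℝ) 0, Continuous fun x : E3 => F (Γ t x) := by
    intro t ht
    refine hF.continuous.comp ?_
    rw [continuous_iff_continuousAt]
    intro x
    have h1 : ContinuousAt (fun q : ℝ × E3 => Γ q.1 q.2) (t, x) := (hc.smG t ht x).continuousAt
    have h2 : ContinuousAt (fun y : E3 => ((t, y) : ℝ × E3)) x := by fun_prop
    exact ContinuousAt.comp (f := fun y : E3 => ((t, y) : ℝ × E3)) (x := x) h1 h2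
  have hΛp : 0 < Λ := by linarith
  have hΛ5 : 1 ≤ Λ ^ 5 := one_le_pow₀ hΛ
  obtain ⟨A, hAdef⟩ : ∃ A : ℝ, A = C1 * 8 ^ 20 * Λ ^ 5 := ⟨_, rfl⟩
  obtain ⟨B, hBdef⟩ : ∃ B : ℝ, B = 2 ^ 20 := ⟨_, rfl⟩
  have hA1 : 1 ≤ A := by
    rw [hAdef]
    have : (1 : ℝ) ≤ 8 ^ 20 := by norm_num
    have h2 : 1 ≤ C1 * 8 ^ 20 := by nlinarith
    nlinarith
  have hB1 : 1 ≤ B := by rw [hBdef]; norm_num
  have hAp : 0 < A := by linarith
  have hBp : 0 < B := by linarith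
  obtain ⟨Q, hQdef⟩ : ∃ Q : ℝ, Q = A * B * M := ⟨_, rfl⟩
  have hQ : 0 < Q := by rw [hQdef]; positivity
  have key : ∀ k : ℕ, ∀ t ∈ Icc (-(1 / 4 + (1 / 2 : ℝ) ^ (k + 2))) 0,
      ∫ x in Metric.ball (0 : E3) (1 / 4 + (1 / 2 : ℝ) ^ (k + 2)), F (Γ t x) ^ (2 ^ k) ≤ Q ^ (2 ^ k) / (A * B ^ (k + 1)) := by
    intro k
    induction k with
    | zero =>
      intro t ht
      have h0 : (1 / 4 + (1 / 2 : ℝ) ^ (0 + 2)) = 1 / 2 := by norm_num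
      rw [h0] at ht ⊢
      have h1 := hM1 t ht
      have e : Q ^ (2 ^ 0) / (A * B ^ (0 + 1)) = M := by
        rw [hQdef]
        simp only [pow_zero, pow_one, zero_add]
        field_simp
      rw [e]
      simpa only [pow_zero, pow_one] using h1
    | succ k ih =>
      intro t ht
      have p1 : (0 : ℝ) < (1 / 2 : ℝ) ^ (k + 2) := by positivity
      have p2 : (1 / 2 : ℝ) ^ (k + 1 + 2) = (1 / 2) ^ (k + 2) / 2 := by
        rw [show k + 1 + 2 = (k + 2) + 1 by ring, pow_succ]; ring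
      have p3 : (1 / 2 : ℝ) ^ (k + 2) ≤ 1 / 4 := by
        have : (1 / 2 : ℝ) ^ (k + 2) ≤ (1 / 2) ^ 2 := pow_le_pow_of_le_one (by norm_num) (by norm_num) (by omega)
        calc (1 / 2 : ℝ) ^ (k + 2) ≤ (1 / 2) ^ 2 := this
          _ = 1 / 4 := by norm_num
      have hY : 0 ≤ Q ^ (2 ^ k) / (A * B ^ (k + 1)) := by positivity
      have hh := hB Γ K P hc Λ hΛ hA F hF hF0 hpos (1 / 4 + (1 / 2 : ℝ) ^ (k + 1 + 2)) (1 / 4 + (1 / 2 : ℝ) ^ (k + 2))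
        (by rw [p2]; linarith) (by rw [p2]; linarith) (by linarith) (2 ^ k) (Nat.one_le_two_pow)
        (Q ^ (2 ^ k) / (A * B ^ (k + 1))) hY ih t ht
      have e2 : 2 * 2 ^ k = 2 ^ (k + 1) := by rw [pow_succ]; ring
      rw [e2] at hh
      refine hh.trans ?_
      rw [← moC_alg A B Q hAp hBp k]
      have e3 : ((1 / 4 + (1 / 2 : ℝ) ^ (k + 2)) - (1 / 4 + (1 / 2 : ℝ) ^ (k + 1 + 2)))⁻¹ ^ 20 = 8 ^ 20 * B ^ k := by
        have e4 : ((1 / 4 + (1 / 2 : ℝ) ^ (k + 2)) - (1 / 4 + (1 / 2 : ℝ) ^ (k + 1 + 2))) = (1 / 2) ^ k * (1 / 8) := by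
          rw [p2, pow_add]; ring
        rw [e4, mul_inv, mul_pow, hBdef]
        rw [← pow_mul, ← inv_pow, ← pow_mul, mul_comm 20 k]
        norm_num
        ring
      rw [e3]
      have e5 : C₀ * (8 ^ 20 * B ^ k) * Λ ^ 5 * (Q ^ (2 ^ k) / (A * B ^ (k + 1))) ^ 2
          ≤ C1 * (8 ^ 20 * B ^ k) * Λ ^ 5 * (Q ^ (2 ^ k) / (A * B ^ (k + 1))) ^ 2 := by gcongr
      refine e5.trans (le_of_eq ?_)
      rw [hAdef]; ring
  intro t ht x hx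
  by_contra hcon
  push Not at hcon
  have hcon' : Q < F (Γ t x) := by
    have : Q = C1 * 8 ^ 20 * 2 ^ 20 * Λ ^ 5 * M := by rw [hQdef, hAdef, hBdef]; ring
    rw [this]; exact hcon
  have ht1 : t ∈ Icc (-1 : ℝ) 0 := ⟨by linarith [ht.1], ht.2⟩
  have hct := hcont t ht1
  obtain ⟨c', hc'⟩ : ∃ c' : ℝ, c' = (F (Γ t x) + Q) / 2 := ⟨_, rfl⟩
  have hc1 : Q < c' := by rw [hc']; linarith
  have hc2 : c' < F (Γ t x) := by rw [hc']; linarith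
  have hopen : IsOpen ({y : E3 | c' < F (Γ t y)} ∩ Metric.ball (0 : E3) (1 / 4)) :=
    (isOpen_lt continuous_const hct).inter Metric.isOpen_ball
  obtain ⟨ε, hε, hsub⟩ := Metric.isOpen_iff.1 hopen x ⟨hc2, hx⟩
  have hv : 0 < (volume (Metric.ball x ε)).toReal :=
    ENNReal.toReal_pos (Metric.measure_ball_pos volume x hε).ne' (measure_ball_lt_top).ne
  refine moC_unb c' Q _ hQ hc1 hv ?_
  intro k
  have p1 : (0 : ℝ) < (1 / 2 : ℝ) ^ (k + 2) := by positivity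
  have p3 : (1 / 2 : ℝ) ^ (k + 2) ≤ 1 / 4 := by
    have : (1 / 2 : ℝ) ^ (k + 2) ≤ (1 / 2) ^ 2 := pow_le_pow_of_le_one (by norm_num) (by norm_num) (by omega)
    calc (1 / 2 : ℝ) ^ (k + 2) ≤ (1 / 2) ^ 2 := this
      _ = 1 / 4 := by norm_num
  have h1 := key k t ⟨by linarith [ht.1], ht.2⟩
  have hint : IntegrableOn (fun y : E3 => F (Γ t y) ^ (2 ^ k)) (Metric.ball (0 : E3) (1 / 4 + (1 / 2 : ℝ) ^ (k + 2))) := by
    have : Continuous fun y : E3 => F (Γ t y) ^ (2 ^ k) := hct.pow _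
    exact (this.continuousOn.integrableOn_compact (isCompact_closedBall _ _)).mono_set Metric.ball_subset_closedBall
  have hsub2 : Metric.ball x ε ⊆ Metric.ball (0 : E3) (1 / 4 + (1 / 2 : ℝ) ^ (k + 2)) := by
    intro y hy
    exact Metric.ball_subset_ball (by linarith) (hsub hy).2
  have h2 : ∫ y in Metric.ball x ε, F (Γ t y) ^ (2 ^ k) ≤ ∫ y in Metric.ball (0 : E3) (1 / 4 + (1 / 2 : ℝ) ^ (k + 2)), F (Γ t y) ^ (2 ^ k) := by
    refine setIntegral_mono_set hint ?_ (LE.le.eventuallyLE hsub2)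
    refine (ae_restrict_iff' Metric.isOpen_ball.measurableSet).2 (Filter.Eventually.of_forall ?_)
    intro y hy
    have hy' : y ∈ Metric.closedBall (0 : E3) (3 / 4) :=
      Metric.closedBall_subset_closedBall (by linarith) (Metric.ball_subset_closedBall hy)
    exact pow_nonneg (hpos t ht1 y hy').1 _
  have h3 : c' ^ (2 ^ k) * (volume (Metric.ball x ε)).toReal ≤ ∫ y in Metric.ball x ε, F (Γ t y) ^ (2 ^ k) := by
    have h4 : ∫ y in Metric.ball x ε, c' ^ (2 ^ k) ≤ ∫ y in Metric.ball x ε, F (Γ t y) ^ (2 ^ k) := by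
      refine setIntegral_mono_on ?_ (hint.mono_set hsub2) Metric.isOpen_ball.measurableSet ?_
      · exact integrableOn_const (measure_ball_lt_top).ne
      · intro y hy
        have h5 : c' < F (Γ t y) := (hsub hy).1
        have h6 : 0 < c' := by linarith
        exact pow_le_pow_left₀ h6.le h5.le _
    rw [setIntegral_const, smul_eq_mul, mul_comm] at h4
    exact h4
  have h7 : Q ^ (2 ^ k) / (A * B ^ (k + 1)) ≤ Q ^ (2 ^ k) := by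
    apply div_le_self (by positivity)
    have : 1 ≤ B ^ (k + 1) := one_le_pow₀ hB1
    nlinarith only [hC1', hΛ5, hAdef, hA1, p1, p3, this]
  linarith

end Pool.Agent.H72.CC
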