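/-
ROW OdeL (MP_09540e_CC). A Riccati inequality (Mathlib only). PROOF. `κ t = ∫_{-1}^t k`, `ν = μ - κ`. On `(-1,0)`: `ν' = μ' - k ≤ - c μ² H² ≤ 0`, so `ν` is antitone on `[-1,0]` (antitoneOn_of_deriv_nonpos). If `ν(-1/2) ≤ 0` then
`μ t = ν t + κ t ≤ κ 0` for `t ≥ -1/2`. Otherwise `ν ≥ ν(-1/2) > 0` on `[-1,-1/2]`, `μ ≥ ν > 0` (`κ ≥ 0`), `ν' ≤ - c ν² H²`, `(1/ν)' = - ν'/ν² ≥ c H²`, so `1/ν(-1/2) ≥ 1/ν(-1/2) - 1/ν(-1) ≥ c ∫_{-1}^{-1/2} H²`, and
`Hb² ≤ (∫ H)² ≤ (1/2) ∫ H²` (Cauchy-Schwarz, or `∫ (H - 2 m)² ≥ 0` with `m = ∫ H`). So `ν(-1/2) ≤ 1/(2 c Hb²)`, and for `t ∈ [-1/2, 0]`: `μ t ≤ ν(-1/2) + κ 0`. To get the integral inequality for `1/ν` consider the function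
`1/ν t - c ∫_{-1}^t H²`, continuous on `[-1,-1/2]` with nonnegative derivative inside (monotoneOn_of_deriv_nonneg).
-/
import Mathlib

set_option autoImplicit false

open Set Filter Topology MeasureTheory

namespace Pool.Agent.H72.CC

theorem odeL {c : ℝ} (hc : 0 < c) {μ μ' H k : ℝ → ℝ} (hμ : ContinuousOn μ (Icc (-1) 0)) (hH : ContinuousOn H (Icc (-1) 0))
    (hk : ContinuousOn k (Icc (-1) 0)) (hk0 : ∀ t ∈ Icc (-1 : ℝ) 0, 0 ≤ k t)
    (hd : ∀ t ∈ Ioo (-1 : ℝ) 0, HasDerivAt μ (μ' t) t)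
    (hle : ∀ t ∈ Ioo (-1 : ℝ) 0, μ' t ≤ - c * (μ t ^ 2 * H t ^ 2) + k t) {Hb : ℝ} (hHb : 0 < Hb)
    (hint : Hb ≤ ∫ t in (-1 : ℝ)..(-(1/2)), H t) :
    ∀ t ∈ Icc (-(1/2) : ℝ) 0, μ t ≤ (∫ s in (-1 : ℝ)..0, k s) + 1 / (c * Hb ^ 2) := by
  have h0 : (-1 : ℝ) ≤ 0 := by norm_num
  have hki : IntervalIntegrable k volume (-1) 0 := by
    apply ContinuousOn.intervalIntegrable
    rwa [uIcc_of_le h0]
  have hH2 : ContinuousOn (fun t => H t ^ 2) (Icc (-1) 0) := hH.pow 2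
  have sub : ∀ {f : ℝ → ℝ} {a b : ℝ}, ContinuousOn f (Icc (-1) 0) → a ∈ Icc (-1 : ℝ) 0 → b ∈ Icc (-1 : ℝ) 0 → IntervalIntegrable f volume a b := by
    intro f a b hf ha hb
    apply ContinuousOn.intervalIntegrable
    exact hf.mono (Set.OrdConnected.uIcc_subset ordConnected_Icc ha hb)
  have der : ∀ {f : ℝ → ℝ} {t : ℝ}, ContinuousOn f (Icc (-1) 0) → t ∈ Ioo (-1 : ℝ) 0 → HasDerivAt (fun s => ∫ x in (-1 : ℝ)..s, f x) (f t) t := by
    intro f t hf ht
    have h1 : (-1 : ℝ) ∈ Icc (-1 : ℝ) 0 := ⟨le_refl _, h0⟩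
    apply intervalIntegral.integral_hasDerivAt_right (sub hf h1 (Ioo_subset_Icc_self ht))
    · exact ContinuousOn.stronglyMeasurableAtFilter isOpen_Ioo (hf.mono Ioo_subset_Icc_self) t ht
    · exact hf.continuousAt (Icc_mem_nhds ht.1 ht.2)
  have prim : ∀ {f : ℝ → ℝ}, ContinuousOn f (Icc (-1) 0) → ContinuousOn (fun s => ∫ x in (-1 : ℝ)..s, f x) (Icc (-1) 0) := by
    intro f hf
    have h2 := intervalIntegral.continuousOn_primitive_interval (μ := volume) (a := (-1 : ℝ)) (b := 0) (f := f) (by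
      rw [uIcc_of_le h0]
      exact hf.integrableOn_Icc)
    rwa [uIcc_of_le h0] at h2
  have m1 : (-1 : ℝ) ∈ Icc (-1 : ℝ) 0 := ⟨le_refl _, h0⟩
  have m0 : (0 : ℝ) ∈ Icc (-1 : ℝ) 0 := ⟨h0, le_refl _⟩
  have mh : (-(1/2) : ℝ) ∈ Icc (-1 : ℝ) 0 := ⟨by norm_num, by norm_num⟩
  have kap0 : ∀ t ∈ Icc (-1 : ℝ) 0, 0 ≤ ∫ x in (-1 : ℝ)..t, k x := by
    intro t ht
    apply intervalIntegral.integral_nonneg ht.1
    intro u hu
    exact hk0 u ⟨hu.1, hu.2.trans ht.2⟩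
  have kap1 : ∀ t ∈ Icc (-1 : ℝ) 0, (∫ x in (-1 : ℝ)..t, k x) ≤ ∫ x in (-1 : ℝ)..0, k x := by
    intro t ht
    have h3 := intervalIntegral.integral_add_adjacent_intervals (sub hk m1 ht) (sub hk ht m0)
    have h4 : 0 ≤ ∫ x in t..0, k x := by
      apply intervalIntegral.integral_nonneg ht.2
      intro u hu
      exact hk0 u ⟨ht.1.trans hu.1, hu.2⟩
    linarith
  have hνc : ContinuousOn (fun t => μ t - ∫ x in (-1 : ℝ)..t, k x) (Icc (-1) 0) := hμ.sub (prim hk)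
  have hνd : ∀ t ∈ Ioo (-1 : ℝ) 0, HasDerivAt (fun t => μ t - ∫ x in (-1 : ℝ)..t, k x) (μ' t - k t) t := by
    intro t ht
    exact (hd t ht).sub (der hk ht)
  have anti : AntitoneOn (fun t => μ t - ∫ x in (-1 : ℝ)..t, k x) (Icc (-1) 0) := by
    apply antitoneOn_of_deriv_nonpos (convex_Icc _ _) hνc
    · rw [interior_Icc]
      intro t ht
      exact (hνd t ht).differentiableAt.differentiableWithinAt
    · rw [interior_Icc]
      intro t ht
      rw [(hνd t ht).deriv]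
      have h5 := hle t ht
      have h6 : 0 ≤ c * (μ t ^ 2 * H t ^ 2) := by positivity
      linarith
  intro t ht
  have ht' : t ∈ Icc (-1 : ℝ) 0 := ⟨by linarith [ht.1], ht.2⟩
  have h7 := anti mh ht' ht.1
  simp only at h7
  have h8 := kap1 t ht'
  have h9 : 0 < 1 / (c * Hb ^ 2) := by positivity
  by_cases hneg : μ (-(1/2)) - (∫ x in (-1 : ℝ)..(-(1/2)), k x) ≤ 0
  · linarith
  · push Not at hneg
    have key : μ (-(1/2)) - (∫ x in (-1 : ℝ)..(-(1/2)), k x) ≤ 1 / (c * Hb ^ 2) := by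
      have posn : ∀ s ∈ Icc (-1 : ℝ) (-(1/2)), 0 < μ s - ∫ x in (-1 : ℝ)..s, k x := by
        intro s hs
        have hs' : s ∈ Icc (-1 : ℝ) 0 := ⟨hs.1, by linarith [hs.2]⟩
        have h10 := anti hs' mh hs.2
        simp only at h10
        linarith
      have hsub : Icc (-1 : ℝ) (-(1/2)) ⊆ Icc (-1) 0 := Icc_subset_Icc_right (by norm_num)
      have mono : MonotoneOn (fun s => (μ s - ∫ x in (-1 : ℝ)..s, k x)⁻¹ - c * ∫ x in (-1 : ℝ)..s, H x ^ 2) (Icc (-1) (-(1/2))) := by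
        have hdv : ∀ s ∈ Ioo (-1 : ℝ) (-(1/2)), HasDerivAt (fun s => (μ s - ∫ x in (-1 : ℝ)..s, k x)⁻¹ - c * ∫ x in (-1 : ℝ)..s, H x ^ 2)
            (-(μ' s - k s) / (μ s - ∫ x in (-1 : ℝ)..s, k x) ^ 2 - c * H s ^ 2) s := by
          intro s hs
          have hs0 : s ∈ Ioo (-1 : ℝ) 0 := ⟨hs.1, by linarith [hs.2]⟩
          exact ((hνd s hs0).inv (posn s (Ioo_subset_Icc_self hs)).ne').sub ((der hH2 hs0).const_mul c)
        apply monotoneOn_of_deriv_nonneg (convex_Icc _ _)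
        · apply ContinuousOn.sub
          · apply (hνc.mono hsub).inv₀
            intro s hs
            exact (posn s hs).ne'
          · exact ((prim hH2).mono hsub).const_smul c
        · rw [interior_Icc]
          intro s hs
          exact (hdv s hs).differentiableAt.differentiableWithinAt
        · rw [interior_Icc]
          intro s hs
          rw [(hdv s hs).deriv]
          have hs0 : s ∈ Ioo (-1 : ℝ) 0 := ⟨hs.1, by linarith [hs.2]⟩
          have p1 := posn s (Ioo_subset_Icc_self hs)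
          have p2 := kap0 s (Ioo_subset_Icc_self hs0)
          have p3 := hle s hs0
          have p4 : (μ s - ∫ x in (-1 : ℝ)..s, k x) ^ 2 ≤ μ s ^ 2 := by
            apply pow_le_pow_left₀ p1.le
            linarith
          have p5 : c * ((μ s - ∫ x in (-1 : ℝ)..s, k x) ^ 2 * H s ^ 2) ≤ c * (μ s ^ 2 * H s ^ 2) := by
            apply mul_le_mul_of_nonneg_left _ hc.le
            exact mul_le_mul_of_nonneg_right p4 (sq_nonneg _)
          rw [sub_nonneg, le_div_iff₀ (by positivity)]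
          nlinarith [p5, p3]
      have ma : (-1 : ℝ) ∈ Icc (-1 : ℝ) (-(1/2)) := ⟨le_refl _, by norm_num⟩
      have mb : (-(1/2) : ℝ) ∈ Icc (-1 : ℝ) (-(1/2)) := ⟨by norm_num, le_refl _⟩
      have q1 := mono ma mb (by norm_num)
      simp only [intervalIntegral.integral_same, mul_zero, sub_zero] at q1
      have q2 := posn (-1) ma
      simp only [intervalIntegral.integral_same, sub_zero] at q2
      have q3 : 0 < (μ (-1))⁻¹ := inv_pos.mpr q2
      -- Cauchy-Schwarz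
      have q4 : 0 ≤ ∫ x in (-1 : ℝ)..(-(1/2)), (H x - 2 * ∫ y in (-1 : ℝ)..(-(1/2)), H y) ^ 2 := by
        apply intervalIntegral.integral_nonneg (by norm_num)
        intro u _
        positivity
      have q5 : (∫ x in (-1 : ℝ)..(-(1/2)), (H x - 2 * ∫ y in (-1 : ℝ)..(-(1/2)), H y) ^ 2)
          = (∫ x in (-1 : ℝ)..(-(1/2)), H x ^ 2) - 2 * (∫ y in (-1 : ℝ)..(-(1/2)), H y) ^ 2 := by
        set M : ℝ := ∫ y in (-1 : ℝ)..(-(1/2)), H y with hM
        have e1 : (fun x => (H x - 2 * M) ^ 2) = fun x => (H x ^ 2 - 4 * M * H x) + 4 * M ^ 2 := by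
          funext x
          ring
        rw [e1, intervalIntegral.integral_add, intervalIntegral.integral_sub, intervalIntegral.integral_const_mul, intervalIntegral.integral_const, ← hM]
        · simp only [smul_eq_mul]
          ring
        · exact sub hH2 m1 mh
        · exact (sub hH m1 mh).const_mul _
        · exact (sub hH2 m1 mh).sub ((sub hH m1 mh).const_mul _)
        · exact intervalIntegrable_const
      have q6 : Hb ^ 2 ≤ (∫ y in (-1 : ℝ)..(-(1/2)), H y) ^ 2 := pow_le_pow_left₀ hHb.le hint 2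
      have q7 : c * Hb ^ 2 ≤ (μ (-(1/2)) - ∫ x in (-1 : ℝ)..(-(1/2)), k x)⁻¹ := by
        have q8 : 2 * Hb ^ 2 ≤ ∫ x in (-1 : ℝ)..(-(1/2)), H x ^ 2 := by linarith
        have q9 : c * (2 * Hb ^ 2) ≤ c * ∫ x in (-1 : ℝ)..(-(1/2)), H x ^ 2 := mul_le_mul_of_nonneg_left q8 hc.le
        have q10 : 0 < c * Hb ^ 2 := by positivity
        nlinarith
      have q11 : 0 < c * Hb ^ 2 := by positivity
      have q12 := (le_inv_comm₀ q11 hneg).mp q7
      rwa [← one_div (c * Hb ^ 2)] at q12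
    linarith

end Pool.Agent.H72.CC
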