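/-
ROW RingC (MP_09540e_CC). PROOF. Let `s = rad y`, `z' = y 2`. For x with `rad x ≠ s`, `x 2 ≠ z'` (a.e. x, ringB_null with the roles exchanged for the second; for `rad x ≠ s` use cyl, or note that both sides may be compared inside the (r, z) integral below):
`rD x y ≥ |rad x - s|`, `≥ |x 2 - z'|`, so `rD^(-4/3) ≤ |rad x - s|^(-2/3) |x 2 - z'|^(-2/3)`. `x ∈ ball (axp z) ρ` implies `rad x < ρ`, `|x 2 - z| < ρ`. By cyl (Cyl.lean) with the function `1_{r<ρ} 1_{|z₁ - z| < ρ} ofReal (((r-s)² + (z₁-z')²)^(-2/3))`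
(`rD^(-4/3) = (rD²)^(-2/3)`), the integral is at most `2π ρ (∫⁻ r in Ioo 0 ρ, |r-s|^(-2/3)) (∫⁻_{|z₁-z|<ρ} |z₁-z'|^(-2/3))`. One dimensional lemma: for an interval `(m-h, m+h)` and any s: `∫⁻_{|t-m|<h} |t-s|^(-2/3) dt ≤ 8 h^(1/3)`: on `|t-s| < h` it is
`≤ 2 ∫_0^h t^(-2/3) = 6 h^(1/3)`, on `|t-s| ≥ h` the integrand is `≤ h^(-2/3)` and the length is 2h. Total `≤ 2π ρ · 8 ρ^(1/3) · 8 ρ^(1/3) = C ρ^(5/3)`.
-/
import Pool.Agent.H72.CC.Cyl

set_option autoImplicit false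

open Set Filter Topology MeasureTheory
open scoped ContDiff

namespace Pool.Agent.H72.CC

open Pool.Agent.H16 Pool.Agent.H87.NS

theorem RingC_int {h : ℝ} (hh : 0 < h) :
    ∫⁻ t in Ioo 0 h, ENNReal.ofReal (t ^ (-(2/3) : ℝ)) = ENNReal.ofReal (3 * h ^ (1/3 : ℝ)) := by
  have h1 : IntervalIntegrable (fun x : ℝ => x ^ (-(2/3) : ℝ)) volume 0 h :=
    intervalIntegral.intervalIntegrable_rpow' (by norm_num)
  have h2 : ∫ x in (0:ℝ)..h, x ^ (-(2/3) : ℝ) = 3 * h ^ (1/3 : ℝ) := by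
    rw [integral_rpow (Or.inl (by norm_num))]
    have h3 : (-(2/3) : ℝ) + 1 = 1/3 := by norm_num
    rw [h3, Real.zero_rpow (by norm_num)]
    ring
  rw [← h2, intervalIntegral.integral_of_le hh.le]
  have h3 : IntegrableOn (fun x : ℝ => x ^ (-(2/3) : ℝ)) (Ioc 0 h) volume :=
    (intervalIntegrable_iff_integrableOn_Ioc_of_le hh.le).1 h1
  rw [ofReal_integral_eq_lintegral_ofReal h3]
  · exact setLIntegral_congr Ioo_ae_eq_Ioc
  · filter_upwards [ae_restrict_mem measurableSet_Ioc] with x hx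
    exact Real.rpow_nonneg hx.1.le _

theorem RingC_abs {h : ℝ} (hh : 0 < h) :
    ∫⁻ t : ℝ, (Ioo (-h) h).indicator (fun t => ENNReal.ofReal (|t| ^ (-(2/3) : ℝ))) t ≤
      ENNReal.ofReal (6 * h ^ (1/3 : ℝ)) := by
  have hm : Measurable fun t : ℝ => (Ioo 0 h).indicator
      (fun t => ENNReal.ofReal (t ^ (-(2/3) : ℝ))) t :=
    (ENNReal.measurable_ofReal.comp (measurable_id.pow_const _)).indicator measurableSet_Ioo
  have h1 : ∀ t : ℝ, (Ioo (-h) h).indicator (fun t => ENNReal.ofReal (|t| ^ (-(2/3) : ℝ))) t ≤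
      (Ioo 0 h).indicator (fun t => ENNReal.ofReal (t ^ (-(2/3) : ℝ))) t +
      (Ioo 0 h).indicator (fun t => ENNReal.ofReal (t ^ (-(2/3) : ℝ))) (-t) := by
    intro t
    by_cases ht : t ∈ Ioo (-h) h
    · rw [indicator_of_mem ht]
      rcases lt_trichotomy t 0 with h0 | h0 | h0
      · have h2 : -t ∈ Ioo 0 h := ⟨by linarith, by linarith [ht.1]⟩
        rw [indicator_of_mem h2, abs_of_neg h0]
        exact le_add_self
      · rw [h0, abs_zero, Real.zero_rpow (by norm_num), ENNReal.ofReal_zero]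
        exact bot_le
      · have h2 : t ∈ Ioo 0 h := ⟨h0, ht.2⟩
        rw [indicator_of_mem h2, abs_of_pos h0]
        exact le_self_add
    · rw [indicator_of_notMem ht]
      exact bot_le
  refine (lintegral_mono h1).trans ?_
  rw [lintegral_add_left hm, lintegral_neg_eq_self
    ((Ioo 0 h).indicator (fun t => ENNReal.ofReal (t ^ (-(2/3) : ℝ)))),
    lintegral_indicator measurableSet_Ioo, RingC_int hh,
    ← ENNReal.ofReal_add (by positivity) (by positivity)]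
  refine ENNReal.ofReal_le_ofReal (le_of_eq ?_)
  ring

theorem RingC_one {h : ℝ} (hh : 0 < h) (m s : ℝ) :
    ∫⁻ t in Ioo (m - h) (m + h), ENNReal.ofReal (|t - s| ^ (-(2/3) : ℝ)) ≤
      ENNReal.ofReal (8 * h ^ (1/3 : ℝ)) := by
  have h1 : ∀ t : ℝ, ENNReal.ofReal (|t - s| ^ (-(2/3) : ℝ)) ≤
      (Ioo (-h) h).indicator (fun t => ENNReal.ofReal (|t| ^ (-(2/3) : ℝ))) (t - s) +
      ENNReal.ofReal (h ^ (-(2/3) : ℝ)) := by
    intro t
    by_cases ht : t - s ∈ Ioo (-h) h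
    · rw [indicator_of_mem ht]
      exact le_self_add
    · have h2 : h ≤ |t - s| := by
        by_contra h3
        rw [not_le, abs_lt] at h3
        exact ht h3
      exact (ENNReal.ofReal_le_ofReal
        (Real.rpow_le_rpow_of_nonpos hh h2 (by norm_num))).trans le_add_self
  calc ∫⁻ t in Ioo (m - h) (m + h), ENNReal.ofReal (|t - s| ^ (-(2/3) : ℝ))
      ≤ ∫⁻ t in Ioo (m - h) (m + h),
        ((Ioo (-h) h).indicator (fun t => ENNReal.ofReal (|t| ^ (-(2/3) : ℝ))) (t - s) +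
          ENNReal.ofReal (h ^ (-(2/3) : ℝ))) := lintegral_mono fun t => h1 t
    _ = (∫⁻ t in Ioo (m - h) (m + h),
        (Ioo (-h) h).indicator (fun t => ENNReal.ofReal (|t| ^ (-(2/3) : ℝ))) (t - s)) +
        ENNReal.ofReal (h ^ (-(2/3) : ℝ)) * ENNReal.ofReal (2 * h) := by
        rw [lintegral_add_right _ measurable_const, lintegral_const,
          Measure.restrict_apply MeasurableSet.univ, univ_inter, Real.volume_Ioo]
        have h2 : m + h - (m - h) = 2 * h := by ring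
        rw [h2]
    _ ≤ ENNReal.ofReal (6 * h ^ (1/3 : ℝ)) + ENNReal.ofReal (2 * h ^ (1/3 : ℝ)) := by
        refine add_le_add ?_ ?_
        · refine (setLIntegral_le_lintegral _ _).trans ?_
          rw [lintegral_sub_right_eq_self]
          exact RingC_abs hh
        · rw [← ENNReal.ofReal_mul (by positivity)]
          refine ENNReal.ofReal_le_ofReal (le_of_eq ?_)
          have h2 : h ^ (-(2/3) : ℝ) * h = h ^ (1/3 : ℝ) := by
            nth_rewrite 2 [← Real.rpow_one h]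
            rw [← Real.rpow_add hh]
            norm_num
          rw [← h2]
          ring
    _ = ENNReal.ofReal (8 * h ^ (1/3 : ℝ)) := by
        rw [← ENNReal.ofReal_add (by positivity) (by positivity)]
        refine congrArg _ ?_
        ring

/-- pointwise bound of the kernel -/
theorem RingC_pt {a b : ℝ} (ha : a ≠ 0) (hb : b ≠ 0) :
    (a ^ 2 + b ^ 2) ^ (-(2/3) : ℝ) ≤ |a| ^ (-(2/3) : ℝ) * |b| ^ (-(2/3) : ℝ) := by
  have ha' : 0 < |a| := abs_pos.2 ha
  have hb' : 0 < |b| := abs_pos.2 hb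
  rw [← Real.mul_rpow ha'.le hb'.le]
  refine Real.rpow_le_rpow_of_nonpos (mul_pos ha' hb') ?_ (by norm_num)
  nlinarith [sq_nonneg (|a| - |b|), sq_abs a, sq_abs b, mul_pos ha' hb']

theorem RingC_ball {x : E3} {z ρ : ℝ} (hx : x ∈ Metric.ball (axp z) ρ) :
    rad x < ρ ∧ |x 2 - z| < ρ := by
  have hρ : 0 < ρ := Metric.pos_of_mem_ball hx
  rw [Metric.mem_ball, EuclideanSpace.dist_eq, Real.sqrt_lt' hρ, Fin.sum_univ_three] at hx
  have h0 : (axp z) 0 = 0 := rfl
  have h1 : (axp z) 1 = 0 := rfl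
  have h2 : (axp z) 2 = z := rfl
  rw [h0, h1, h2, Real.dist_eq, Real.dist_eq, Real.dist_eq, sq_abs, sq_abs, sq_abs, sub_zero,
    sub_zero] at hx
  constructor
  · unfold rad
    rw [Real.sqrt_lt' hρ]
    nlinarith [sq_nonneg (x 2 - z)]
  · refine abs_lt_of_sq_lt_sq ?_ hρ.le
    nlinarith [sq_nonneg (x 0), sq_nonneg (x 1)]

theorem RingC_rD (x y : E3) : rD x y ^ (-(4/3) : ℝ) =
    ((rad x - rad y) ^ 2 + (x 2 - y 2) ^ 2) ^ (-(2/3) : ℝ) := by
  unfold rD
  rw [Real.sqrt_eq_rpow, ← Real.rpow_mul (by positivity)]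
  norm_num

theorem ringC : ∃ C : ℝ, 0 < C ∧ ∀ ρ : ℝ, 0 < ρ → ∀ (z : ℝ) (y : E3),
    ∫⁻ x in Metric.ball (axp z) ρ, ENNReal.ofReal (rD x y ^ (-(4/3) : ℝ)) ≤ ENNReal.ofReal (C * ρ ^ (5/3 : ℝ)) := by
  refine ⟨128 * Real.pi, by positivity, ?_⟩
  intro ρ hρ z y
  obtain ⟨s, hs⟩ : ∃ s : ℝ, s = rad y := ⟨_, rfl⟩
  obtain ⟨z', hz'⟩ : ∃ z' : ℝ, z' = y 2 := ⟨_, rfl⟩
  obtain ⟨A, hA⟩ : ∃ A : Set (ℝ × ℝ), A = Iio ρ ×ˢ Ioo (z - ρ) (z + ρ) := ⟨_, rfl⟩
  have hAm : MeasurableSet A := by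
    rw [hA]
    exact measurableSet_Iio.prod measurableSet_Ioo
  obtain ⟨k, hk⟩ : ∃ k : ℝ × ℝ → ENNReal, k = fun q =>
      ENNReal.ofReal (((q.1 - s) ^ 2 + (q.2 - z') ^ 2) ^ (-(2/3) : ℝ)) := ⟨_, rfl⟩
  have hkm : Measurable k := by
    rw [hk]
    refine ENNReal.measurable_ofReal.comp (Measurable.pow_const ?_ _)
    fun_prop
  have hfm : Measurable (A.indicator k) := hkm.indicator hAm
  -- pass to the cylindrical coordinates
  have h1 : ∫⁻ x in Metric.ball (axp z) ρ, ENNReal.ofReal (rD x y ^ (-(4/3) : ℝ)) ≤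
      ∫⁻ x : E3, A.indicator k (rad x, x 2) := by
    rw [← lintegral_indicator Metric.isOpen_ball.measurableSet]
    refine lintegral_mono fun x => ?_
    by_cases hx : x ∈ Metric.ball (axp z) ρ
    · obtain ⟨hx1, hx2⟩ := RingC_ball hx
      have hx3 : (rad x, x 2) ∈ A := by
        rw [hA]
        obtain ⟨a, b⟩ := abs_lt.1 hx2
        exact ⟨hx1, by constructor <;> linarith⟩
      rw [indicator_of_mem hx, indicator_of_mem hx3, RingC_rD, hk, hs, hz']
    · rw [indicator_of_notMem hx]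
      exact bot_le
  refine h1.trans ?_
  rw [cyl hfm]
  -- the inner integral
  have hin : ∀ r : ℝ, r ≠ s → ∫⁻ w : ℝ, ENNReal.ofReal r * A.indicator k (r, w) ≤
      (Iio ρ).indicator (fun r => ENNReal.ofReal ρ * ENNReal.ofReal (8 * ρ ^ (1/3 : ℝ)) *
        ENNReal.ofReal (|r - s| ^ (-(2/3) : ℝ))) r := by
    intro r hr
    by_cases hrρ : r ∈ Iio ρ
    · rw [indicator_of_mem hrρ]
      have hc : ENNReal.ofReal ρ * ENNReal.ofReal (|r - s| ^ (-(2/3) : ℝ)) ≠ ⊤ :=
        ENNReal.mul_ne_top ENNReal.ofReal_ne_top ENNReal.ofReal_ne_top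
      calc ∫⁻ w : ℝ, ENNReal.ofReal r * A.indicator k (r, w)
          ≤ ∫⁻ w : ℝ, (ENNReal.ofReal ρ * ENNReal.ofReal (|r - s| ^ (-(2/3) : ℝ))) *
            (Ioo (z - ρ) (z + ρ)).indicator
              (fun w => ENNReal.ofReal (|w - z'| ^ (-(2/3) : ℝ))) w := by
            refine lintegral_mono_ae ?_
            filter_upwards [(Set.countable_singleton z').ae_notMem volume] with w hw
            by_cases hwA : w ∈ Ioo (z - ρ) (z + ρ)
            · have hwA2 : (r, w) ∈ A := by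
                rw [hA]
                exact ⟨hrρ, hwA⟩
              rw [indicator_of_mem hwA, indicator_of_mem hwA2, hk]
              have h2 := RingC_pt (sub_ne_zero.2 hr) (sub_ne_zero.2 (show w ≠ z' from hw))
              calc ENNReal.ofReal r * ENNReal.ofReal (((r - s) ^ 2 + (w - z') ^ 2) ^ (-(2/3) : ℝ))
                  ≤ ENNReal.ofReal ρ * ENNReal.ofReal (|r - s| ^ (-(2/3) : ℝ) *
                    |w - z'| ^ (-(2/3) : ℝ)) :=
                    mul_le_mul' (ENNReal.ofReal_le_ofReal (le_of_lt hrρ))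
                      (ENNReal.ofReal_le_ofReal h2)
                _ = _ := by
                    rw [ENNReal.ofReal_mul (Real.rpow_nonneg (abs_nonneg _) _), mul_assoc]
            · have hwA2 : (r, w) ∉ A := by
                rw [hA]
                exact fun h => hwA h.2
              rw [indicator_of_notMem hwA2, mul_zero]
              exact bot_le
        _ = (ENNReal.ofReal ρ * ENNReal.ofReal (|r - s| ^ (-(2/3) : ℝ))) *
            ∫⁻ w in Ioo (z - ρ) (z + ρ), ENNReal.ofReal (|w - z'| ^ (-(2/3) : ℝ)) := by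
            rw [lintegral_const_mul' _ _ hc, lintegral_indicator measurableSet_Ioo]
        _ ≤ (ENNReal.ofReal ρ * ENNReal.ofReal (|r - s| ^ (-(2/3) : ℝ))) *
            ENNReal.ofReal (8 * ρ ^ (1/3 : ℝ)) := mul_le_mul' le_rfl (RingC_one hρ z z')
        _ = _ := by ring
    · rw [indicator_of_notMem hrρ]
      refine le_of_eq ?_
      have h2 : ∀ w, ENNReal.ofReal r * A.indicator k (r, w) = 0 := by
        intro w
        have hwA2 : (r, w) ∉ A := by
          rw [hA]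
          exact fun h => hrρ h.1
        rw [indicator_of_notMem hwA2, mul_zero]
      simp only [h2, lintegral_zero]
  have hc2 : ENNReal.ofReal ρ * ENNReal.ofReal (8 * ρ ^ (1/3 : ℝ)) ≠ ⊤ :=
    ENNReal.mul_ne_top ENNReal.ofReal_ne_top ENNReal.ofReal_ne_top
  have hout : ∫⁻ r in Ioi (0 : ℝ), ∫⁻ w : ℝ, ENNReal.ofReal r * A.indicator k (r, w) ≤
      ENNReal.ofReal ρ * ENNReal.ofReal (8 * ρ ^ (1/3 : ℝ)) * ENNReal.ofReal (8 * ρ ^ (1/3 : ℝ)) := by
    calc ∫⁻ r in Ioi (0 : ℝ), ∫⁻ w : ℝ, ENNReal.ofReal r * A.indicator k (r, w)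
        ≤ ∫⁻ r in Ioi (0 : ℝ), (Iio ρ).indicator (fun r => ENNReal.ofReal ρ *
          ENNReal.ofReal (8 * ρ ^ (1/3 : ℝ)) * ENNReal.ofReal (|r - s| ^ (-(2/3) : ℝ))) r := by
          refine lintegral_mono_ae ?_
          filter_upwards [ae_restrict_of_ae ((Set.countable_singleton s).ae_notMem volume)] with r hr
          exact hin r hr
      _ = ∫⁻ r in Ioo 0 ρ, ENNReal.ofReal ρ *
          ENNReal.ofReal (8 * ρ ^ (1/3 : ℝ)) * ENNReal.ofReal (|r - s| ^ (-(2/3) : ℝ)) := by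
          rw [lintegral_indicator measurableSet_Iio, Measure.restrict_restrict measurableSet_Iio,
            inter_comm, Ioi_inter_Iio]
      _ = ENNReal.ofReal ρ * ENNReal.ofReal (8 * ρ ^ (1/3 : ℝ)) *
          ∫⁻ r in Ioo 0 ρ, ENNReal.ofReal (|r - s| ^ (-(2/3) : ℝ)) := lintegral_const_mul' _ _ hc2
      _ ≤ _ := by
          refine mul_le_mul' le_rfl ((lintegral_mono_set ?_).trans (RingC_one hρ 0 s))
          exact Ioo_subset_Ioo (by linarith) (by linarith)
  refine (mul_le_mul' le_rfl hout).trans ?_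
  rw [← ENNReal.ofReal_mul hρ.le, ← ENNReal.ofReal_mul (by positivity),
    ← ENNReal.ofReal_mul (by positivity)]
  refine ENNReal.ofReal_le_ofReal (le_of_eq ?_)
  have h3 : ρ ^ (5/3 : ℝ) = ρ * ρ ^ (1/3 : ℝ) * ρ ^ (1/3 : ℝ) := by
    nth_rewrite 2 [← Real.rpow_one ρ]
    rw [← Real.rpow_add hρ, ← Real.rpow_add hρ]
    norm_num
  rw [h3]
  ring

end Pool.Agent.H72.CC
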