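/-
ROW RingA (MP_09540e_CC). Averages over circles. PROOF of ringA: for every θ the map `rot θ` (a linear isometry, rotL in H16/AxiNS.lean, measure preserving: LinearIsometryEquiv.measurePreserving) gives `∫⁻ f y * g y = ∫⁻ f (rot θ y) * g (rot θ y) = ∫⁻ f y * g (rot θ y)`.
Integrate over `θ ∈ Ioc 0 (2π)` and use Tonelli (lintegral_lintegral_swap; `(θ, y) ↦ rot θ y` is continuous).
PROOF of ringB: write `y = (r cos α, r sin α, y₂)`, `r = rad y`, `α ∈ (-π, π]` (Complex.arg of y₀ + i y₁), then `rot θ y 1 = r sin (θ + α)`. For `φ ∈ (-π, 3π]` and `φ ∉ π ℤ`: `|sin φ|^(-2/3) ≤ ∑_{k=-1}^{3} ((2/π) |φ - kπ|)^(-2/3)` (for the nearest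
`kπ` one has `|sin φ| = |sin (φ - kπ)| ≥ (2/π) |φ - kπ|`, Real.mul_le_sin). Each term has integral at most `C ∫_{-5π}^{5π} |s|^(-2/3) ds < ∞` (intervalIntegral.integrableOn_rpow or integrableOn_Ioo_rpow_iff, exponent > -1). `(r |sin φ|)^(-2/3) = r^(-2/3) |sin φ|^(-2/3)`.
ringB_null: `{y | y 0 = 0 ∧ y 1 = 0}`: axis_null (H87/NS/S1.lean). For `{y | rD x y = 0} ⊆ {y | y 2 = x 2}`, a hyperplane (Measure.addHaar_affineSubspace or the preimage of a point under the coordinate, or use EuclideanSpace product structure).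
-/
import Pool.Agent.H72.CC.PDefs
import Pool.Agent.H87.NS.S1

set_option autoImplicit false

open Set Filter Topology MeasureTheory
open scoped ContDiff

namespace Pool.Agent.H72.CC

open Pool.Agent.H16 Pool.Agent.H87.NS

theorem rot_meas (θ : ℝ) : MeasurePreserving (rot θ) (volume : Measure E3) volume := by
  have h := (rotL θ).measurePreserving
  exact h

theorem RingA_cont : Continuous (fun p : ℝ × E3 => rot p.1 p.2) := by
  have hc : ∀ i : Fin 3, Continuous (fun p : ℝ × E3 => p.2 i) := fun i =>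
    ((EuclideanSpace.proj (𝕜 := ℝ) i : E3 →L[ℝ] ℝ).continuous).comp continuous_snd
  have h1 : Continuous (fun p : ℝ × E3 =>
      (![Real.cos p.1 * p.2 0 - Real.sin p.1 * p.2 1,
        Real.sin p.1 * p.2 0 + Real.cos p.1 * p.2 1, p.2 2] : Fin 3 → ℝ)) := by
    refine continuous_pi fun i => ?_
    have c1 : Continuous (fun p : ℝ × E3 => Real.cos p.1) := Real.continuous_cos.comp continuous_fst
    have c2 : Continuous (fun p : ℝ × E3 => Real.sin p.1) := Real.continuous_sin.comp continuous_fst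
    fin_cases i
    · exact (c1.mul (hc 0)).sub (c2.mul (hc 1))
    · exact (c2.mul (hc 0)).add (c1.mul (hc 1))
    · exact hc 2
  exact (PiLp.continuous_toLp 2 (fun _ : Fin 3 => ℝ)).comp h1

theorem ringA {f g : E3 → ENNReal} (hf : Measurable f) (hg : Measurable g) (hr : ∀ θ x, f (rot θ x) = f x) :
    ENNReal.ofReal (2 * Real.pi) * ∫⁻ y, f y * g y = ∫⁻ y, f y * (∫⁻ θ in Ioc (0 : ℝ) (2 * Real.pi), g (rot θ y)) := by
  have key : ∀ θ : ℝ, ∫⁻ y, f y * g y = ∫⁻ y, f y * g (rot θ y) := by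
    intro θ
    have hfg : Measurable (fun y : E3 => f y * g y) := hf.mul hg
    have h1 : ∫⁻ y, f (rot θ y) * g (rot θ y) = ∫⁻ y, f y * g y :=
      (rot_meas θ).lintegral_comp hfg
    rw [← h1]
    refine lintegral_congr fun y => ?_
    rw [hr]
  have hm : Measurable (fun p : ℝ × E3 => g (rot p.1 p.2)) := hg.comp RingA_cont.measurable
  have hm2 : Measurable (fun p : ℝ × E3 => f p.2 * g (rot p.1 p.2)) :=
    (hf.comp measurable_snd).mul hm
  have hm3 : ∀ y : E3, Measurable (fun θ : ℝ => g (rot θ y)) := by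
    intro y
    have h4 : Measurable (fun θ : ℝ => (θ, y)) := measurable_prodMk_right
    have h5 := hm.comp h4
    exact h5
  have e1 : ENNReal.ofReal (2 * Real.pi) * ∫⁻ y, f y * g y =
      ∫⁻ _θ in Ioc (0 : ℝ) (2 * Real.pi), (∫⁻ y, f y * g y) := by
    rw [lintegral_const, Measure.restrict_apply_univ, Real.volume_Ioc, sub_zero, mul_comm]
  have e2 : ∫⁻ _θ in Ioc (0 : ℝ) (2 * Real.pi), (∫⁻ y, f y * g y) =
      ∫⁻ θ in Ioc (0 : ℝ) (2 * Real.pi), ∫⁻ y, f y * g (rot θ y) :=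
    lintegral_congr fun θ => key θ
  have e3 : ∫⁻ θ in Ioc (0 : ℝ) (2 * Real.pi), ∫⁻ y, f y * g (rot θ y) =
      ∫⁻ y, ∫⁻ θ in Ioc (0 : ℝ) (2 * Real.pi), f y * g (rot θ y) :=
    lintegral_lintegral_swap (f := fun (θ : ℝ) (y : E3) => f y * g (rot θ y)) hm2.aemeasurable
  have e4 : ∫⁻ y, ∫⁻ θ in Ioc (0 : ℝ) (2 * Real.pi), f y * g (rot θ y) =
      ∫⁻ y, f y * (∫⁻ θ in Ioc (0 : ℝ) (2 * Real.pi), g (rot θ y)) := by
    refine lintegral_congr fun y => ?_
    exact lintegral_const_mul (f y) (hm3 y)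
  rw [e1, e2, e3, e4]

/-- the function to be integrated -/
noncomputable def RingA_h (φ : ℝ) : ℝ := |Real.sin φ| ^ (-(2/3) : ℝ)

theorem RingA_h_nonneg (φ : ℝ) : 0 ≤ RingA_h φ := Real.rpow_nonneg (abs_nonneg _) _

theorem RingA_h_per : Function.Periodic RingA_h Real.pi := by
  intro φ
  unfold RingA_h
  rw [Real.sin_add_pi, abs_neg]

theorem RingA_h_per2 : Function.Periodic RingA_h (2 * Real.pi) := by
  intro φ
  unfold RingA_h
  rw [Real.sin_add_two_pi]

theorem RingA_h_le {s φ : ℝ} (hs0 : 0 < s) (hs : s ≤ Real.pi / 2) (h : Real.sin φ = Real.sin s) :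
    RingA_h φ ≤ (2 / Real.pi) ^ (-(2/3) : ℝ) * s ^ (-(2/3) : ℝ) := by
  have hp := Real.pi_pos
  have h1 := Real.mul_le_sin hs0.le hs
  have h2 : 0 < 2 / Real.pi * s := by positivity
  unfold RingA_h
  rw [h, abs_of_pos (h2.trans_le h1), ← Real.mul_rpow (by positivity) hs0.le]
  exact Real.rpow_le_rpow_of_nonpos h2 h1 (by norm_num)

theorem RingA_h_int : IntervalIntegrable RingA_h volume 0 Real.pi := by
  have hp := Real.pi_pos
  have h1 : IntervalIntegrable (fun x : ℝ => x ^ (-(2/3) : ℝ)) volume 0 Real.pi :=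
    intervalIntegral.intervalIntegrable_rpow' (by norm_num)
  have h2 : IntervalIntegrable (fun x : ℝ => (Real.pi - x) ^ (-(2/3) : ℝ)) volume 0 Real.pi := by
    have h3 := (h1.comp_sub_left Real.pi).symm
    simpa using h3
  have h4 := (h1.add h2).const_mul ((2 / Real.pi) ^ (-(2/3) : ℝ))
  refine h4.mono_fun' ?_ ?_
  · exact (Real.continuous_sin.abs.measurable.pow_const _).aestronglyMeasurable
  · rw [uIoc_of_le hp.le]
    refine (ae_restrict_iff' measurableSet_Ioc).2 (Eventually.of_forall fun x hx => ?_)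
    have hn : ‖RingA_h x‖ = RingA_h x := by
      rw [Real.norm_eq_abs, abs_of_nonneg (RingA_h_nonneg x)]
    have hc : 0 ≤ (2 / Real.pi) ^ (-(2/3) : ℝ) := Real.rpow_nonneg (by positivity) _
    have ha : 0 ≤ x ^ (-(2/3) : ℝ) := Real.rpow_nonneg hx.1.le _
    have hb : 0 ≤ (Real.pi - x) ^ (-(2/3) : ℝ) := Real.rpow_nonneg (by linarith [hx.2]) _
    show ‖RingA_h x‖ ≤ (2 / Real.pi) ^ (-(2/3) : ℝ) * (x ^ (-(2/3) : ℝ) + (Real.pi - x) ^ (-(2/3) : ℝ))
    rw [hn]
    rcases le_or_gt x (Real.pi / 2) with h5 | h5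
    · refine (RingA_h_le hx.1 h5 rfl).trans ?_
      exact mul_le_mul_of_nonneg_left (by linarith) hc
    · rcases hx.2.lt_or_eq with h6 | h6
      · refine (RingA_h_le (s := Real.pi - x) (by linarith) (by linarith)
          (Real.sin_pi_sub x).symm).trans ?_
        exact mul_le_mul_of_nonneg_left (by linarith) hc
      · have h7 : RingA_h x = 0 := by
          unfold RingA_h
          rw [h6, Real.sin_pi, abs_zero]
          exact Real.zero_rpow (by norm_num)
        rw [h7]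
        positivity

theorem RingA_h_int' (a b : ℝ) : IntervalIntegrable RingA_h volume a b :=
  RingA_h_per.intervalIntegrable₀ Real.pi_pos.ne' RingA_h_int a b

theorem RingA_polar (y : E3) : ∃ α : ℝ, y 0 = rad y * Real.cos α ∧ y 1 = rad y * Real.sin α := by
  refine ⟨Complex.arg ⟨y 0, y 1⟩, ?_, ?_⟩
  · have h1 := Complex.norm_mul_cos_arg ⟨y 0, y 1⟩
    rw [Complex.norm_eq_sqrt_sq_add_sq] at h1
    exact h1.symm
  · have h1 := Complex.norm_mul_sin_arg ⟨y 0, y 1⟩
    rw [Complex.norm_eq_sqrt_sq_add_sq] at h1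
    exact h1.symm

theorem ringB : ∃ C : ℝ, 0 < C ∧ ∀ y : E3, 0 < rad y →
    ∫⁻ θ in Ioc (0 : ℝ) (2 * Real.pi), ENNReal.ofReal (|rot θ y 1| ^ (-(2/3) : ℝ)) ≤ ENNReal.ofReal (C * rad y ^ (-(2/3) : ℝ)) := by
  have hp := Real.pi_pos
  have hC : 0 ≤ ∫ φ in (0 : ℝ)..(2 * Real.pi), RingA_h φ :=
    intervalIntegral.integral_nonneg (by positivity) fun φ _ => RingA_h_nonneg φ
  refine ⟨(∫ φ in (0 : ℝ)..(2 * Real.pi), RingA_h φ) + 1, by linarith, ?_⟩
  intro y hy
  obtain ⟨α, h0, h1⟩ := RingA_polar y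
  have h2 : ∀ θ : ℝ, |rot θ y 1| ^ (-(2/3) : ℝ) = rad y ^ (-(2/3) : ℝ) * RingA_h (θ + α) := by
    intro θ
    have h3 : rot θ y 1 = rad y * Real.sin (θ + α) := by
      rw [rot_one', Real.sin_add]
      have e0 := h0
      have e1 := h1
      calc Real.sin θ * y 0 + Real.cos θ * y 1
          = Real.sin θ * (rad y * Real.cos α) + Real.cos θ * (rad y * Real.sin α) := by
            rw [← e0, ← e1]
        _ = _ := by ring
    unfold RingA_h
    rw [h3, abs_mul, abs_of_pos hy, Real.mul_rpow hy.le (abs_nonneg _)]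
  have h4 : IntervalIntegrable (fun θ => RingA_h (θ + α)) volume 0 (2 * Real.pi) := by
    have h5 := (RingA_h_int' (0 + α) (2 * Real.pi + α)).comp_add_right α
    simpa using h5
  have h6 : IntegrableOn (fun θ => RingA_h (θ + α)) (Ioc 0 (2 * Real.pi)) volume :=
    (intervalIntegrable_iff_integrableOn_Ioc_of_le (by positivity)).1 h4
  have h7 : IntegrableOn (fun θ => rad y ^ (-(2/3) : ℝ) * RingA_h (θ + α))
      (Ioc 0 (2 * Real.pi)) volume := h6.const_mul _
  have h8 : ∫⁻ θ in Ioc (0 : ℝ) (2 * Real.pi), ENNReal.ofReal (|rot θ y 1| ^ (-(2/3) : ℝ)) =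
      ENNReal.ofReal (∫ θ in Ioc (0 : ℝ) (2 * Real.pi),
        rad y ^ (-(2/3) : ℝ) * RingA_h (θ + α)) := by
    rw [ofReal_integral_eq_lintegral_ofReal h7 (Eventually.of_forall fun θ =>
      mul_nonneg (Real.rpow_nonneg hy.le _) (RingA_h_nonneg _))]
    exact lintegral_congr fun θ => by rw [h2]
  have h9 : ∫ θ in Ioc (0 : ℝ) (2 * Real.pi), rad y ^ (-(2/3) : ℝ) * RingA_h (θ + α) =
      rad y ^ (-(2/3) : ℝ) * ∫ φ in (0 : ℝ)..(2 * Real.pi), RingA_h φ := by
    rw [integral_const_mul, ← intervalIntegral.integral_of_le (by positivity),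
      intervalIntegral.integral_comp_add_right (fun φ => RingA_h φ)]
    congr 1
    have h10 := RingA_h_per2.intervalIntegral_add_eq α 0
    rw [zero_add] at h10
    rw [← h10]
    congr 1
    · ring
    · ring
  rw [h8, h9]
  apply ENNReal.ofReal_le_ofReal
  rw [mul_comm]
  exact mul_le_mul_of_nonneg_right (by linarith) (Real.rpow_nonneg hy.le _)

theorem RingA_hyp (i : Fin 3) (c : ℝ) : ∀ᵐ y : E3, y i ≠ c := by
  have h1 : LinearMap.ker ((EuclideanSpace.proj i : E3 →L[ℝ] ℝ) : E3 →ₗ[ℝ] ℝ) ≠ ⊤ := by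
    intro h
    have h2 : (e i : E3) ∈ LinearMap.ker ((EuclideanSpace.proj i : E3 →L[ℝ] ℝ) : E3 →ₗ[ℝ] ℝ) := by
      rw [h]; exact Submodule.mem_top
    rw [LinearMap.mem_ker] at h2
    simp [e] at h2
  have h2 := Measure.addHaar_submodule (volume : Measure E3) _ h1
  have h3 := (measurePreserving_sub_right (volume : Measure E3)
    (EuclideanSpace.single i c)).quasiMeasurePreserving.preimage_null h2
  rw [ae_iff]
  refine measure_mono_null ?_ h3
  intro y hy
  have hy' : y i = c := not_not.1 hy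
  show y - EuclideanSpace.single i c ∈
    LinearMap.ker ((EuclideanSpace.proj i : E3 →L[ℝ] ℝ) : E3 →ₗ[ℝ] ℝ)
  rw [LinearMap.mem_ker]
  simp [hy']

theorem ringB_null (x : E3) : ∀ᵐ y : E3, y 1 ≠ 0 ∧ y 2 ≠ x 2 ∧ 0 < rad y ∧ 0 < rD x y := by
  filter_upwards [RingA_hyp 1 0, RingA_hyp 2 (x 2), axis_null] with y h1 h2 h3
  refine ⟨h1, h2, h3, ?_⟩
  unfold rD
  apply Real.sqrt_pos.2
  have h4 : x 2 - y 2 ≠ 0 := sub_ne_zero.2 (Ne.symm h2)
  have h5 : 0 < (x 2 - y 2) ^ 2 := by positivity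
  have h6 := sq_nonneg (rad x - rad y)
  linarith

end Pool.Agent.H72.CC
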