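/-
ROW RingN (MP_09540e_CC). The potential of an axially symmetric mass distribution. PROOF. There is θ₀ with `x' = rot θ₀ x = (rad x, 0, x 2)` (KSym_rot in H87/NS/KSym.lean with `z = !₂[rad x, 0, x 2]`). Since `rot θ₀` is an isometry preserving the measure and μ:
`∫⁻ μ y ofReal ‖x - y‖⁻¹ = ∫⁻ μ y ofReal ‖x' - y‖⁻¹` (substitute `y ↦ rot θ₀ y` in the second), and `rad`, the third coordinate, so rD, are invariant. Let `D y = rD x y`. `‖x' - y‖ ≥ D y` (`‖x'-y‖² = rsq x' + rsq y - 2 rad x y 0 + (x₂-y₂)²`, `y 0 ≤ rad y`) and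
`‖x' - y‖ ≥ |y 1|` (coordinate; `x' 1 = 0`). A.e. y satisfies `y 1 ≠ 0`, `D y > 0`, `rad y > 0` (ringB_null).
(1) If `rad y < rad x / 2` then `D y ≥ rad x / 2`, `‖x'-y‖⁻¹ ≤ (D y)⁻¹ = (D y)^(-1/3) (D y)^(-2/3) ≤ (D y)^(-1/3) (rad x / 2)^(-2/3)`. (2) In general `‖x'-y‖⁻¹ = (‖x'-y‖⁻¹)^(1/3) (‖x'-y‖⁻¹)^(2/3) ≤ (D y)^(-1/3) |y 1|^(-2/3)`.
On `A = {rad y < rad x/2}` use (1). On `Aᶜ` use (2) and ringA with `f = μ · 1_{Aᶜ} · ofReal (D y ^ (-1/3))` (invariant under rotations, measurable), `g y = ofReal (|y 1| ^ (-2/3))`, then ringB: `∫⁻_{Aᶜ} μ D^(-1/3) |y 1|^(-2/3) ≤ (2π)⁻¹ C ∫⁻_{Aᶜ} μ D^(-1/3) rad y^(-2/3)`,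
and `rad y^(-2/3) ≤ (rad x / 2)^(-2/3) ≤ 2 rad x^(-2/3)`.
-/
import Pool.Agent.H72.CC.RingA
import Pool.Agent.H87.NS.KSym

set_option autoImplicit false

open Set Filter Topology MeasureTheory
open scoped ContDiff

namespace Pool.Agent.H72.CC

open Pool.Agent.H16 Pool.Agent.H87.NS

theorem RingN_rad_rot (θ : ℝ) (y : E3) : rad (rot θ y) = rad y := by
  have h := rsq_rot θ y
  unfold rad
  unfold rsq at h
  rw [h]

theorem RingN_rad_cont : Continuous rad := by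
  unfold rad
  fun_prop

theorem RingN_rD_cont (x : E3) : Continuous (fun y => rD x y) := by
  have h1 := RingN_rad_cont
  unfold rD
  fun_prop

theorem RingN_rD_rot (x : E3) (θ : ℝ) (y : E3) : rD x (rot θ y) = rD x y := by
  unfold rD
  rw [RingN_rad_rot, rot_two']

theorem RingN_rot (x : E3) (hx : 0 < rad x) : ∃ θ : ℝ, rot θ x = !₂[rad x, 0, x 2] := by
  have hr : rad x ^ 2 = rsq x := by
    unfold rad rsq
    exact Real.sq_sqrt (by positivity)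
  have h1 : 0 < rsq x := by rw [← hr]; positivity
  obtain ⟨θ, h, -, -⟩ := KSym_rot (y := x) (z := !₂[rad x, 0, x 2]) h1 (by
    rw [← hr]
    unfold rsq
    simp) (by simp)
  exact ⟨θ, h⟩

theorem RingN_geo (x y : E3) : rD x y ≤ ‖(!₂[rad x, 0, x 2] : E3) - y‖ ∧
    |y 1| ≤ ‖(!₂[rad x, 0, x 2] : E3) - y‖ := by
  have h0 : ‖(!₂[rad x, 0, x 2] : E3) - y‖ ^ 2 =
      (rad x - y 0) ^ 2 + (0 - y 1) ^ 2 + (x 2 - y 2) ^ 2 := by
    rw [norm_sq_eq]
    simp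
  have hrx : 0 ≤ rad x := Real.sqrt_nonneg _
  have hry : 0 ≤ rad y := Real.sqrt_nonneg _
  have hr2 : rad y ^ 2 = y 0 ^ 2 + y 1 ^ 2 := by
    unfold rad
    exact Real.sq_sqrt (by positivity)
  have hy0 : y 0 ≤ rad y := by
    unfold rad
    exact Real.le_sqrt_of_sq_le (by nlinarith [sq_nonneg (y 1)])
  constructor
  · unfold rD
    rw [← Real.sqrt_sq (norm_nonneg ((!₂[rad x, 0, x 2] : E3) - y)), h0]
    apply Real.sqrt_le_sqrt
    nlinarith [mul_nonneg hrx (sub_nonneg.2 hy0)]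
  · apply abs_le_of_sq_le_sq _ (norm_nonneg _)
    rw [h0]
    nlinarith [sq_nonneg (rad x - y 0), sq_nonneg (x 2 - y 2)]

theorem RingN_pt1 {x y : E3} (hx : 0 < rad x) (hy : rad y < rad x / 2) (hD : 0 < rD x y) :
    ‖(!₂[rad x, 0, x 2] : E3) - y‖⁻¹ ≤ (rad x / 2) ^ (-(2/3) : ℝ) * rD x y ^ (-(1/3) : ℝ) := by
  obtain ⟨h1, -⟩ := RingN_geo x y
  have h2 : rad x / 2 ≤ rD x y := by
    unfold rD
    apply Real.le_sqrt_of_sq_le
    nlinarith [sq_nonneg (x 2 - y 2)]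
  have h3 : ‖(!₂[rad x, 0, x 2] : E3) - y‖⁻¹ ≤ (rD x y)⁻¹ := inv_anti₀ hD h1
  have h4 : (rD x y)⁻¹ = rD x y ^ (-(2/3) : ℝ) * rD x y ^ (-(1/3) : ℝ) := by
    rw [← Real.rpow_add hD, ← Real.rpow_neg_one]
    congr 1
    norm_num
  have h5 : rD x y ^ (-(2/3) : ℝ) ≤ (rad x / 2) ^ (-(2/3) : ℝ) :=
    Real.rpow_le_rpow_of_nonpos (by positivity) h2 (by norm_num)
  rw [h4] at h3
  exact h3.trans (mul_le_mul_of_nonneg_right h5 (Real.rpow_nonneg hD.le _))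

theorem RingN_pt2 {x y : E3} (hy : y 1 ≠ 0) (hD : 0 < rD x y) :
    ‖(!₂[rad x, 0, x 2] : E3) - y‖⁻¹ ≤ rD x y ^ (-(1/3) : ℝ) * |y 1| ^ (-(2/3) : ℝ) := by
  obtain ⟨h1, h2⟩ := RingN_geo x y
  have hn : 0 < ‖(!₂[rad x, 0, x 2] : E3) - y‖ := lt_of_lt_of_le hD h1
  have h4 : ‖(!₂[rad x, 0, x 2] : E3) - y‖⁻¹ =
      ‖(!₂[rad x, 0, x 2] : E3) - y‖ ^ (-(1/3) : ℝ) * ‖(!₂[rad x, 0, x 2] : E3) - y‖ ^ (-(2/3) : ℝ) := by
    rw [← Real.rpow_add hn, ← Real.rpow_neg_one]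
    congr 1
    norm_num
  rw [h4]
  exact mul_le_mul (Real.rpow_le_rpow_of_nonpos hD h1 (by norm_num))
    (Real.rpow_le_rpow_of_nonpos (abs_pos.2 hy) h2 (by norm_num))
    (Real.rpow_nonneg hn.le _) (Real.rpow_nonneg hD.le _)

theorem ringN : ∃ C : ℝ, 0 < C ∧ ∀ μ : E3 → ENNReal, Measurable μ → (∀ θ x, μ (rot θ x) = μ x) → ∀ x : E3, 0 < rad x →
    ∫⁻ y, μ y * ENNReal.ofReal (‖x - y‖⁻¹) ≤
      ENNReal.ofReal (C * rad x ^ (-(2/3) : ℝ)) * ∫⁻ y, μ y * ENNReal.ofReal (rD x y ^ (-(1/3) : ℝ)) := by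
  obtain ⟨C, hC, hB⟩ := ringB
  refine ⟨(1 + C) * (1 / 2 : ℝ) ^ (-(2/3) : ℝ), by positivity, ?_⟩
  intro μ hμ hinv x hx
  obtain ⟨θ₀, hθ⟩ := RingN_rot x hx
  set X : E3 := !₂[rad x, 0, x 2] with hX
  -- rotate
  have hFm : Measurable (fun y : E3 => μ y * ENNReal.ofReal (‖X - y‖⁻¹)) :=
    hμ.mul (measurable_const.sub measurable_id).norm.inv.ennreal_ofReal
  have hA : ∫⁻ y, μ y * ENNReal.ofReal (‖x - y‖⁻¹) = ∫⁻ y, μ y * ENNReal.ofReal (‖X - y‖⁻¹) := by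
    rw [← (rot_meas θ₀).lintegral_comp hFm]
    refine lintegral_congr fun y => ?_
    rw [hinv, ← hθ]
    have h1 : rot θ₀ x - rot θ₀ y = rotL θ₀ (x - y) := by
      rw [map_sub]; rfl
    rw [h1, LinearIsometryEquiv.norm_map]
  rw [hA]
  -- the function f
  have hDm : Measurable (fun y : E3 => ENNReal.ofReal (rD x y ^ (-(1/3) : ℝ))) :=
    ((RingN_rD_cont x).measurable.pow_const _).ennreal_ofReal
  have hmD : Measurable (fun y : E3 => μ y * ENNReal.ofReal (rD x y ^ (-(1/3) : ℝ))) := hμ.mul hDm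
  have hSm : MeasurableSet {y : E3 | rad x / 2 ≤ rad y} :=
    measurableSet_le measurable_const RingN_rad_cont.measurable
  set f : E3 → ENNReal := {y : E3 | rad x / 2 ≤ rad y}.indicator
    (fun y => μ y * ENNReal.ofReal (rD x y ^ (-(1/3) : ℝ))) with hf
  have hfm : Measurable f := (hμ.mul hDm).indicator hSm
  have hfr : ∀ θ y, f (rot θ y) = f y := by
    intro θ y
    rw [hf]
    by_cases h : rad x / 2 ≤ rad y
    · rw [indicator_of_mem (show rot θ y ∈ {y : E3 | rad x / 2 ≤ rad y} by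
        rw [mem_ofPred_eq, RingN_rad_rot]; exact h), indicator_of_mem (show y ∈ {y : E3 | rad x / 2 ≤ rad y} from h)]
      simp only [hinv, RingN_rD_rot]
    · rw [indicator_of_notMem (show rot θ y ∉ {y : E3 | rad x / 2 ≤ rad y} by
        rw [mem_ofPred_eq, RingN_rad_rot]; exact h), indicator_of_notMem (show y ∉ {y : E3 | rad x / 2 ≤ rad y} from h)]
  have hfle : ∀ y, f y ≤ μ y * ENNReal.ofReal (rD x y ^ (-(1/3) : ℝ)) := by
    intro y
    rw [hf]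
    exact indicator_le_self _ _ y
  have hc1 : Continuous (fun y : E3 => y 1) := by fun_prop
  set g : E3 → ENNReal := fun y => ENNReal.ofReal (|y 1| ^ (-(2/3) : ℝ)) with hg
  have hgm : Measurable g := (hc1.abs.measurable.pow_const _).ennreal_ofReal
  set J := ∫⁻ y, μ y * ENNReal.ofReal (rD x y ^ (-(1/3) : ℝ)) with hJ
  set K : ℝ := (rad x / 2) ^ (-(2/3) : ℝ) with hK
  have hK0 : 0 ≤ K := Real.rpow_nonneg (by positivity) _
  -- the second part
  have h2 : ∫⁻ y, f y * g y ≤ ENNReal.ofReal (C * K) * J := by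
    have h3 := ringA hfm hgm hfr
    have h4 : ∫⁻ y, f y * g y ≤ ENNReal.ofReal (2 * Real.pi) * ∫⁻ y, f y * g y := by
      have h5 : (1 : ENNReal) ≤ ENNReal.ofReal (2 * Real.pi) := by
        rw [ENNReal.one_le_ofReal]
        nlinarith [Real.pi_gt_three]
      calc ∫⁻ y, f y * g y = 1 * ∫⁻ y, f y * g y := (one_mul _).symm
        _ ≤ _ := by gcongr
    refine h4.trans ?_
    rw [h3, hJ, ← lintegral_const_mul _ hmD]
    refine lintegral_mono fun y => ?_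
    by_cases h : rad x / 2 ≤ rad y
    · have hy : 0 < rad y := lt_of_lt_of_le (by positivity) h
      have h6 := hB y hy
      have h7 : ENNReal.ofReal (C * rad y ^ (-(2/3) : ℝ)) ≤ ENNReal.ofReal (C * K) := by
        apply ENNReal.ofReal_le_ofReal
        apply mul_le_mul_of_nonneg_left _ hC.le
        exact Real.rpow_le_rpow_of_nonpos (by positivity) h (by norm_num)
      calc f y * (∫⁻ θ in Ioc (0 : ℝ) (2 * Real.pi), g (rot θ y))
          ≤ (μ y * ENNReal.ofReal (rD x y ^ (-(1/3) : ℝ))) * ENNReal.ofReal (C * K) :=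
            mul_le_mul' (hfle y) (h6.trans h7)
        _ = _ := mul_comm _ _
    · have h8 : f y = 0 := by
        rw [hf]
        exact indicator_of_notMem (show y ∉ {y : E3 | rad x / 2 ≤ rad y} from h) _
      rw [h8, zero_mul]
      exact zero_le
  -- the pointwise bound
  have hpt : ∀ᵐ y : E3, μ y * ENNReal.ofReal (‖X - y‖⁻¹) ≤
      ENNReal.ofReal K * (μ y * ENNReal.ofReal (rD x y ^ (-(1/3) : ℝ))) + f y * g y := by
    filter_upwards [ringB_null x] with y hy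
    obtain ⟨hy1, -, -, hD⟩ := hy
    have hD' : 0 ≤ rD x y ^ (-(1/3) : ℝ) := Real.rpow_nonneg hD.le _
    by_cases h : rad x / 2 ≤ rad y
    · refine le_trans ?_ le_add_self
      have h8 : f y = μ y * ENNReal.ofReal (rD x y ^ (-(1/3) : ℝ)) := by
        rw [hf]
        exact indicator_of_mem (show y ∈ {y : E3 | rad x / 2 ≤ rad y} from h) _
      rw [h8, hg, mul_assoc, ← ENNReal.ofReal_mul hD']
      exact mul_le_mul' le_rfl (ENNReal.ofReal_le_ofReal (RingN_pt2 hy1 hD))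
    · refine le_trans ?_ le_self_add
      have h9 := RingN_pt1 hx (not_le.1 h) hD
      calc μ y * ENNReal.ofReal (‖X - y‖⁻¹) ≤ μ y * ENNReal.ofReal (K * rD x y ^ (-(1/3) : ℝ)) :=
            mul_le_mul' le_rfl (ENNReal.ofReal_le_ofReal h9)
        _ = ENNReal.ofReal K * (μ y * ENNReal.ofReal (rD x y ^ (-(1/3) : ℝ))) := by
            rw [ENNReal.ofReal_mul hK0]
            ring
  have hKx : K = (1 / 2 : ℝ) ^ (-(2/3) : ℝ) * rad x ^ (-(2/3) : ℝ) := by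
    rw [hK, ← Real.mul_rpow (by norm_num) hx.le]
    congr 1
    ring
  calc ∫⁻ y, μ y * ENNReal.ofReal (‖X - y‖⁻¹)
      ≤ ∫⁻ y, (ENNReal.ofReal K * (μ y * ENNReal.ofReal (rD x y ^ (-(1/3) : ℝ))) + f y * g y) :=
        lintegral_mono_ae hpt
    _ = ENNReal.ofReal K * J + ∫⁻ y, f y * g y := by
        rw [lintegral_add_left (hmD.const_mul _), lintegral_const_mul _ hmD]
    _ ≤ ENNReal.ofReal K * J + ENNReal.ofReal (C * K) * J := by gcongr
    _ = ENNReal.ofReal ((1 + C) * (1 / 2 : ℝ) ^ (-(2/3) : ℝ) * rad x ^ (-(2/3) : ℝ)) * J := by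
        rw [← add_mul, ← ENNReal.ofReal_add hK0 (by positivity)]
        congr 2
        rw [hKx]
        ring

end Pool.Agent.H72.CC
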