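/-
ROW A4b (MP_09540e_CC). PROOF. Let `I = ∫⁻ μ`. If `I = ⊤` the right side is `⊤` (`C ρ³ > 0`), so assume `I < ⊤`. For `rad x > 0` (a.e. x) ringN: `ofReal (rad x) * N x ≤ ofReal (C rad x^(1/3)) * J x`, `J x = ∫⁻ μ y h y`, `h y = ofReal (rD x y ^ (-1/3))`,
`rad x^(1/3) ≤ ρ^(1/3)` on the ball. Hoelder for the measure with density μ: `J⁴ ≤ I³ ∫⁻ μ y (h y)^4` (ENNReal.lintegral_mul_le_Lp_mul_Lq with μ = μ^(3/4) μ^(1/4), or twice Cauchy-Schwarz), `(h y)^4 = ofReal (rD^(-4/3))`.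
So the left side is `≤ ofReal (C⁴ ρ^(4/3)) I³ ∫⁻_{x ∈ ball} ∫⁻ μ y ofReal (rD x y^(-4/3)) dy dx = .. ∫⁻ μ y (∫⁻_{ball} ofReal (rD x y^(-4/3)) dx) dy ≤ ofReal (C⁴ ρ^(4/3)) I³ ofReal (C' ρ^(5/3)) I` (Tonelli, ringC), and `ρ^(4/3) ρ^(5/3) = ρ³`.
-/
import Pool.Agent.H72.CC.RingN
import Pool.Agent.H72.CC.RingC

set_option autoImplicit false

open Set Filter Topology MeasureTheory
open scoped ContDiff

namespace Pool.Agent.H72.CC

open Pool.Agent.H16 Pool.Agent.H87.NS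

private theorem A4b_rad_cont : Continuous rad := by
  unfold rad
  fun_prop

private theorem A4b_rD_meas : Measurable fun p : E3 × E3 => rD p.1 p.2 := by
  have h1 := A4b_rad_cont
  unfold rD
  have h2 : Continuous fun p : E3 × E3 => √((rad p.1 - rad p.2) ^ 2 + (p.1 2 - p.2 2) ^ 2) := by fun_prop
  exact h2.measurable

private theorem A4b_rad_lt {x : E3} {z ρ : ℝ} (hx : x ∈ Metric.ball (axp z) ρ) : rad x < ρ := by
  rw [Metric.mem_ball, dist_eq_norm] at hx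
  have h1 : ‖x - axp z‖ = √(x 0 ^ 2 + x 1 ^ 2 + (x 2 - z) ^ 2) := by
    rw [EuclideanSpace.norm_eq]
    congr 1
    rw [Fin.sum_univ_three]
    simp [axp]
  refine lt_of_le_of_lt ?_ hx
  rw [h1]
  unfold rad
  exact Real.sqrt_le_sqrt (by linarith [sq_nonneg (x 2 - z)])

/-- Hoelder's inequality with exponents `4/3`, `4` for the measure with density `μ` -/
private theorem A4b_holder {μ h : E3 → ENNReal} (hμ : Measurable μ) (hh : Measurable h) :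
    (∫⁻ y, μ y * h y) ^ 4 ≤ (∫⁻ y, μ y) ^ 3 * ∫⁻ y, μ y * h y ^ 4 := by
  have hpq : (4 / 3 : ℝ).HolderConjugate 4 := by
    rw [Real.holderConjugate_iff]
    norm_num
  have h1 := ENNReal.lintegral_mul_le_Lp_mul_Lq (volume.withDensity μ) hpq
    (f := fun _ => 1) (g := h) aemeasurable_const hh.aemeasurable
  have e1 : ∫⁻ a, ((fun _ : E3 => (1 : ENNReal)) * h) a ∂(volume.withDensity μ) = ∫⁻ y, μ y * h y := by
    rw [lintegral_withDensity_eq_lintegral_mul _ hμ (by exact measurable_const.mul hh)]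
    refine lintegral_congr fun y => ?_
    simp [Pi.mul_apply]
  have e2 : ∫⁻ a, (fun _ : E3 => (1 : ENNReal)) a ^ (4 / 3 : ℝ) ∂(volume.withDensity μ) = ∫⁻ y, μ y := by
    rw [lintegral_withDensity_eq_lintegral_mul _ hμ (by exact measurable_const.pow_const _)]
    refine lintegral_congr fun y => ?_
    simp [Pi.mul_apply]
  have e3 : ∫⁻ a, h a ^ (4 : ℝ) ∂(volume.withDensity μ) = ∫⁻ y, μ y * h y ^ 4 := by
    rw [lintegral_withDensity_eq_lintegral_mul _ hμ (hh.pow_const _)]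
    refine lintegral_congr fun y => ?_
    rw [Pi.mul_apply]
    congr 1
    exact_mod_cast ENNReal.rpow_natCast (h y) 4
  rw [e1, e2, e3] at h1
  have h2 := pow_le_pow_left₀ (zero_le (a := ∫⁻ y, μ y * h y)) h1 4
  refine h2.trans (le_of_eq ?_)
  rw [mul_pow, ← ENNReal.rpow_natCast, ← ENNReal.rpow_natCast, ← ENNReal.rpow_mul, ← ENNReal.rpow_mul]
  norm_num

theorem a4b : ∃ C : ℝ, 0 < C ∧ ∀ μ : E3 → ENNReal, Measurable μ → (∀ θ x, μ (rot θ x) = μ x) → ∀ ρ : ℝ, 0 < ρ → ∀ z : ℝ,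
    ∫⁻ x in Metric.ball (axp z) ρ, (ENNReal.ofReal (rad x) * ∫⁻ y, μ y * ENNReal.ofReal (‖x - y‖⁻¹)) ^ 4 ≤
      ENNReal.ofReal (C * ρ ^ 3) * (∫⁻ y, μ y) ^ 4 := by
  obtain ⟨C, hC, hN⟩ := ringN
  obtain ⟨C', hC', hR⟩ := ringC
  refine ⟨C ^ 4 * C', by positivity, ?_⟩
  intro μ hμ hrot ρ hρ z
  have hrDx : ∀ x : E3, Measurable fun y => rD x y := fun x =>
    Measurable.comp (g := fun p : E3 × E3 => rD p.1 p.2) (f := fun y : E3 => ((x, y) : E3 × E3)) A4b_rD_meas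
      (measurable_const.prodMk measurable_id)
  have hhm : ∀ x : E3, Measurable fun y => ENNReal.ofReal (rD x y ^ (-(1/3) : ℝ)) := fun x =>
    ((hrDx x).pow_const _).ennreal_ofReal
  have hrD0 : ∀ x y : E3, 0 ≤ rD x y := fun x y => Real.sqrt_nonneg _
  have h4 : ∀ x y : E3, ENNReal.ofReal (rD x y ^ (-(1/3) : ℝ)) ^ 4 = ENNReal.ofReal (rD x y ^ (-(4/3) : ℝ)) := by
    intro x y
    rw [← ENNReal.ofReal_pow (Real.rpow_nonneg (hrD0 x y) _), ← Real.rpow_natCast, ← Real.rpow_mul (hrD0 x y)]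
    norm_num
  set I := ∫⁻ y, μ y with hI
  -- the pointwise bound
  have hpt : ∀ x ∈ Metric.ball (axp z) ρ,
      (ENNReal.ofReal (rad x) * ∫⁻ y, μ y * ENNReal.ofReal (‖x - y‖⁻¹)) ^ 4 ≤
        (ENNReal.ofReal (C ^ 4 * ρ ^ (4/3 : ℝ)) * I ^ 3) * ∫⁻ y, μ y * ENNReal.ofReal (rD x y ^ (-(4/3) : ℝ)) := by
    intro x hx
    have hrx := A4b_rad_lt hx
    rcases (Real.sqrt_nonneg (x 0 ^ 2 + x 1 ^ 2)).eq_or_lt with h0 | h0
    · have h1 : rad x = 0 := h0.symm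
      rw [h1, ENNReal.ofReal_zero, zero_mul, zero_pow (by norm_num)]
      exact zero_le
    · have hr0 : 0 < rad x := h0
      have h1 : ENNReal.ofReal (rad x) * ∫⁻ y, μ y * ENNReal.ofReal (‖x - y‖⁻¹) ≤
          ENNReal.ofReal (C * ρ ^ (1/3 : ℝ)) * ∫⁻ y, μ y * ENNReal.ofReal (rD x y ^ (-(1/3) : ℝ)) := by
        refine (mul_le_mul_right (hN μ hμ hrot x hr0) _).trans ?_
        rw [← mul_assoc, ← ENNReal.ofReal_mul hr0.le]
        refine mul_le_mul_left (ENNReal.ofReal_le_ofReal ?_) _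
        have h2 : rad x * (C * rad x ^ (-(2/3) : ℝ)) = C * rad x ^ (1/3 : ℝ) := by
          have h3 : rad x ^ (1/3 : ℝ) = rad x * rad x ^ (-(2/3) : ℝ) := by
            conv_rhs => rw [← Real.rpow_one (rad x), ← Real.rpow_mul hr0.le, ← Real.rpow_add hr0]
            norm_num
          rw [h3]
          ring
        rw [h2]
        exact mul_le_mul_of_nonneg_left (Real.rpow_le_rpow hr0.le hrx.le (by norm_num)) hC.le
      refine (pow_le_pow_left₀ zero_le h1 4).trans ?_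
      rw [mul_pow, ← ENNReal.ofReal_pow (by positivity)]
      have e1 : (C * ρ ^ (1/3 : ℝ)) ^ 4 = C ^ 4 * ρ ^ (4/3 : ℝ) := by
        rw [mul_pow, ← Real.rpow_natCast (ρ ^ (1/3 : ℝ)), ← Real.rpow_mul hρ.le]
        norm_num
      rw [e1, mul_assoc]
      refine mul_le_mul_right ?_ _
      refine (A4b_holder hμ (hhm x)).trans (le_of_eq ?_)
      congr 1
      refine lintegral_congr fun y => ?_
      rw [h4]
  have hF : Measurable fun p : E3 × E3 => μ p.2 * ENNReal.ofReal (rD p.1 p.2 ^ (-(4/3) : ℝ)) :=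
    (hμ.comp measurable_snd).mul (A4b_rD_meas.pow_const _).ennreal_ofReal
  have hFm : Measurable fun x : E3 => ∫⁻ y, μ y * ENNReal.ofReal (rD x y ^ (-(4/3) : ℝ)) :=
    hF.lintegral_prod_right'
  calc ∫⁻ x in Metric.ball (axp z) ρ, (ENNReal.ofReal (rad x) * ∫⁻ y, μ y * ENNReal.ofReal (‖x - y‖⁻¹)) ^ 4
      ≤ ∫⁻ x in Metric.ball (axp z) ρ, (ENNReal.ofReal (C ^ 4 * ρ ^ (4/3 : ℝ)) * I ^ 3) *
          ∫⁻ y, μ y * ENNReal.ofReal (rD x y ^ (-(4/3) : ℝ)) :=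
        setLIntegral_mono' Metric.isOpen_ball.measurableSet hpt
    _ = (ENNReal.ofReal (C ^ 4 * ρ ^ (4/3 : ℝ)) * I ^ 3) *
          ∫⁻ x in Metric.ball (axp z) ρ, ∫⁻ y, μ y * ENNReal.ofReal (rD x y ^ (-(4/3) : ℝ)) :=
        lintegral_const_mul _ hFm
    _ = (ENNReal.ofReal (C ^ 4 * ρ ^ (4/3 : ℝ)) * I ^ 3) *
          ∫⁻ y, ∫⁻ x in Metric.ball (axp z) ρ, μ y * ENNReal.ofReal (rD x y ^ (-(4/3) : ℝ)) := by
        rw [lintegral_lintegral_swap hF.aemeasurable]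
    _ ≤ (ENNReal.ofReal (C ^ 4 * ρ ^ (4/3 : ℝ)) * I ^ 3) * ∫⁻ y, μ y * ENNReal.ofReal (C' * ρ ^ (5/3 : ℝ)) := by
        refine mul_le_mul_right (lintegral_mono fun y => ?_) _
        have hm : Measurable fun x : E3 => ENNReal.ofReal (rD x y ^ (-(4/3) : ℝ)) :=
          ((Measurable.comp (g := fun p : E3 × E3 => rD p.1 p.2) (f := fun x : E3 => ((x, y) : E3 × E3)) A4b_rD_meas
            (measurable_id.prodMk measurable_const)).pow_const _).ennreal_ofReal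
        change ∫⁻ x in Metric.ball (axp z) ρ, μ y * ENNReal.ofReal (rD x y ^ (-(4/3) : ℝ)) ≤
          μ y * ENNReal.ofReal (C' * ρ ^ (5/3 : ℝ))
        rw [lintegral_const_mul _ hm]
        exact mul_le_mul_right (hR ρ hρ z y) _
    _ = (ENNReal.ofReal (C ^ 4 * ρ ^ (4/3 : ℝ)) * I ^ 3) * (I * ENNReal.ofReal (C' * ρ ^ (5/3 : ℝ))) := by
        rw [lintegral_mul_const _ hμ]
    _ = ENNReal.ofReal (C ^ 4 * C' * ρ ^ 3) * I ^ 4 := by
        have e2 : C ^ 4 * C' * ρ ^ 3 = (C ^ 4 * ρ ^ (4/3 : ℝ)) * (C' * ρ ^ (5/3 : ℝ)) := by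
          have e3 : ρ ^ 3 = ρ ^ (4/3 : ℝ) * ρ ^ (5/3 : ℝ) := by
            rw [← Real.rpow_add hρ, ← Real.rpow_natCast]
            norm_num
          rw [e3]
          ring
        rw [e2, ENNReal.ofReal_mul (by positivity : 0 ≤ C ^ 4 * ρ ^ (4/3 : ℝ))]
        ring

end Pool.Agent.H72.CC
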