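/-
ROW PotB (MP_09540e_CC). The scale invariant L⁴ bound of the stream function. PROOF. `F = ∫_{B_R} |sO v|`, `E = (√R)⁻¹ √(∫ ‖v‖²)`, `B_s = ball (axp z) s`; sO v is continuous (`sO v = avk 1 ..` of a smooth function: avk_smooth, curl_smooth). For `x ∈ B_ρ ⊆ B_(R/4)` potA:
`rad x |sP v x| ≤ C (F + rad x N x + E)`, `N x = ∫_{B_R} |sO v y| / ‖x - y‖` (split with potA_int). So `rsq x ^ 2 * sP v x ^ 4 = (rad x |sP v x|)^4 ≤ 27 C⁴ (F⁴ + (rad x N x)⁴ + E⁴)`. Integrate over `B_ρ` (volume `≤ 8 ρ³`; Crit.lean or EuclideanSpace.volume_ball):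
a4b with `μ y = (B_R).indicator (fun y => ofReal |sO v y|) y` (invariant: sO_rot in NS/VRep.lean and `rot θ` maps the ball around `axp z` to itself: `rot θ (axp z) = axp z`, isometry) gives `∫⁻_{B_ρ} ofReal ((rad x N x)^4) ≤ ofReal (C' ρ³) (ofReal F)^4`
(ofReal_integral_eq_lintegral_ofReal, ENNReal.ofReal_mul, ofReal_pow). The left side integral converges: continuous function on a ball. Sum: `≤ C'' ρ³ (F⁴ + E⁴) ≤ C'' ρ³ (F+E)⁴`.
-/
import Pool.Agent.H72.CC.PotA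
import Pool.Agent.H72.CC.A4b

set_option autoImplicit false

open Set Filter Topology MeasureTheory
open scoped ContDiff

namespace Pool.Agent.H72.CC

open Pool.Agent.H16 Pool.Agent.H87.NS

theorem PotB_ball (θ z R : ℝ) (x : E3) : rot θ x ∈ Metric.ball (axp z) R ↔ x ∈ Metric.ball (axp z) R := by
  have h : ‖rot θ x - axp z‖ = ‖x - axp z‖ := by
    rw [EuclideanSpace.norm_eq, EuclideanSpace.norm_eq]
    congr 1
    simp only [Fin.sum_univ_three, Real.norm_eq_abs, sq_abs, PiLp.sub_apply, axp, rot_zero', rot_one', rot_two']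
    simp
    have := Real.sin_sq_add_cos_sq θ
    linear_combination (x 0 ^ 2 + x 1 ^ 2) * this
  rw [Metric.mem_ball, Metric.mem_ball, dist_eq_norm, dist_eq_norm, h]

theorem PotB_four (a b c : ℝ) :
    (a + b + c) ^ 4 ≤ 27 * (a ^ 4 + b ^ 4 + c ^ 4) := by
  have h1 : (a + b + c) ^ 2 ≤ 3 * (a ^ 2 + b ^ 2 + c ^ 2) := by
    nlinarith [sq_nonneg (a - b), sq_nonneg (b - c), sq_nonneg (a - c)]
  have h2 : (a ^ 2 + b ^ 2 + c ^ 2) ^ 2 ≤ 3 * (a ^ 4 + b ^ 4 + c ^ 4) := by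
    nlinarith [sq_nonneg (a ^ 2 - b ^ 2), sq_nonneg (b ^ 2 - c ^ 2), sq_nonneg (a ^ 2 - c ^ 2)]
  have h3 : ((a + b + c) ^ 2) ^ 2 ≤ (3 * (a ^ 2 + b ^ 2 + c ^ 2)) ^ 2 :=
    pow_le_pow_left₀ (by positivity) h1 2
  nlinarith

theorem PotB_sO_cont {v : E3 → E3} (hv : AxF v) : Continuous (sO v) := by
  unfold sO
  exact (avk_smooth (VRep_coord (curl_smooth (curl_smooth hv.smooth)) 2) 1).continuous

theorem potB : ∃ C : ℝ, 0 < C ∧ ∀ v : E3 → E3, AxF v → Integrable (fun x => ‖v x‖ ^ 2) → ∀ R ρ : ℝ, 0 < ρ → ρ ≤ R / 4 → ∀ z : ℝ,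
    ρ⁻¹ ^ 3 * (∫ x in Metric.ball (axp z) ρ, rsq x ^ 2 * sP v x ^ 4) ≤
      C * ((∫ y in Metric.ball (axp z) R, |sO v y|) + (√R)⁻¹ * √(∫ y, ‖v y‖ ^ 2)) ^ 4 := by
  obtain ⟨C, hC, hA⟩ := potA
  obtain ⟨C', hC', hB⟩ := a4b
  refine ⟨27 * C ^ 4 * (5 + C'), by positivity, ?_⟩
  intro v hv hi R ρ hρ hρR z
  have hR : 0 < R := by linarith
  have hO := PotB_sO_cont hv
  obtain ⟨F, hF⟩ : ∃ F : ℝ, F = ∫ y in Metric.ball (axp z) R, |sO v y| := ⟨_, rfl⟩
  obtain ⟨E, hE⟩ : ∃ E : ℝ, E = (√R)⁻¹ * √(∫ y, ‖v y‖ ^ 2) := ⟨_, rfl⟩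
  have hF0 : 0 ≤ F := by
    rw [hF]
    exact integral_nonneg fun _ => abs_nonneg _
  have hE0 : 0 ≤ E := by rw [hE]; positivity
  have hA' := hA v hv hi R hR z
  rw [← hE] at hA'
  rw [← hF, ← hE]
  obtain ⟨N, hN⟩ : ∃ N : E3 → ℝ, N = fun x => ∫ y in Metric.ball (axp z) R, |sO v y| / ‖x - y‖ := ⟨_, rfl⟩
  have hN0 : ∀ x, 0 ≤ N x := by
    intro x
    rw [hN]
    exact integral_nonneg fun _ => by positivity
  have hOi : IntegrableOn (fun y => |sO v y|) (Metric.ball (axp z) R) := Crit_ball hO.abs _ _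
  -- the pointwise bound
  have hpt : ∀ x ∈ Metric.ball (axp z) ρ, rsq x ^ 2 * sP v x ^ 4 ≤
      27 * C ^ 4 * (F ^ 4 + E ^ 4) + 27 * C ^ 4 * (rad x * N x) ^ 4 := by
    intro x hx
    have hx' : x ∈ Metric.ball (axp z) (R / 4) := Metric.ball_subset_ball hρR hx
    have h1 := hA' x hx'
    have h2 : ∫ y in Metric.ball (axp z) R, |sO v y| * (1 + rad x / ‖x - y‖) = F + rad x * N x := by
      rw [hF, hN, ← integral_const_mul, ← integral_add hOi ((potA_int hO (axp z) x R).2.const_mul _)]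
      refine integral_congr_ae (Eventually.of_forall fun y => ?_)
      simp only
      ring
    rw [h2] at h1
    have hr0 : 0 ≤ rad x := Real.sqrt_nonneg _
    have h3 : rsq x ^ 2 * sP v x ^ 4 = (rad x * |sP v x|) ^ 4 := by
      have h4 : rad x ^ 2 = rsq x := rad_sq' x
      have h5 : |sP v x| ^ 2 = sP v x ^ 2 := sq_abs _
      calc rsq x ^ 2 * sP v x ^ 4 = rsq x ^ 2 * (sP v x ^ 2) ^ 2 := by ring
        _ = (rad x ^ 2) ^ 2 * (|sP v x| ^ 2) ^ 2 := by rw [h4, h5]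
        _ = (rad x * |sP v x|) ^ 4 := by ring
    rw [h3]
    have h4 : (rad x * |sP v x|) ^ 4 ≤ (C * (F + rad x * N x + E)) ^ 4 :=
      pow_le_pow_left₀ (by positivity) h1 4
    have h5 := PotB_four F (rad x * N x) E
    rw [mul_pow] at h4
    have h6 := mul_le_mul_of_nonneg_left h5 (show 0 ≤ C ^ 4 by positivity)
    linarith
  -- the measure
  obtain ⟨μ, hμ⟩ : ∃ μ : E3 → ENNReal, μ = (Metric.ball (axp z) R).indicator (fun y => ENNReal.ofReal |sO v y|) := ⟨_, rfl⟩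
  have hμm : Measurable μ := by
    rw [hμ]
    exact (hO.abs.measurable.ennreal_ofReal).indicator measurableSet_ball
  have hμr : ∀ θ x, μ (rot θ x) = μ x := by
    intro θ x
    rw [hμ]
    by_cases h : x ∈ Metric.ball (axp z) R
    · rw [indicator_of_mem h, indicator_of_mem ((PotB_ball θ z R x).2 h), sO_rot hv]
    · rw [indicator_of_notMem h, indicator_of_notMem (fun h' => h ((PotB_ball θ z R x).1 h'))]
  have hμF : ∫⁻ y, μ y = ENNReal.ofReal F := by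
    rw [hμ, lintegral_indicator measurableSet_ball, hF,
      ofReal_integral_eq_lintegral_ofReal hOi (Eventually.of_forall fun _ => abs_nonneg _)]
  have hμN : ∀ x, ∫⁻ y, μ y * ENNReal.ofReal (‖x - y‖⁻¹) = ENNReal.ofReal (N x) := by
    intro x
    have h1 : ∀ y, μ y * ENNReal.ofReal (‖x - y‖⁻¹) =
        (Metric.ball (axp z) R).indicator (fun y => ENNReal.ofReal (|sO v y| / ‖x - y‖)) y := by
      intro y
      rw [hμ]
      by_cases h : y ∈ Metric.ball (axp z) R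
      · rw [indicator_of_mem h, indicator_of_mem h, ← ENNReal.ofReal_mul (abs_nonneg _), div_eq_mul_inv]
      · rw [indicator_of_notMem h, indicator_of_notMem h, zero_mul]
    simp only [h1]
    rw [lintegral_indicator measurableSet_ball, hN]
    exact (ofReal_integral_eq_lintegral_ofReal (potA_int hO (axp z) x R).2
      (Eventually.of_forall fun _ => by positivity)).symm
  have hB' := hB μ hμm hμr ρ hρ z
  simp only [hμN, hμF] at hB'
  have hLi : IntegrableOn (fun x => rsq x ^ 2 * sP v x ^ 4) (Metric.ball (axp z) ρ) :=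
    Crit_ball ((LevX_rsq_cd.continuous.pow 2).mul ((sP_smooth hv).continuous.pow 4)) _ _
  have hL0 : 0 ≤ ∫ x in Metric.ball (axp z) ρ, rsq x ^ 2 * sP v x ^ 4 := integral_nonneg fun x => by positivity
  have key : ENNReal.ofReal (∫ x in Metric.ball (axp z) ρ, rsq x ^ 2 * sP v x ^ 4) ≤
      ENNReal.ofReal (27 * C ^ 4 * (F ^ 4 + E ^ 4) * (5 * ρ ^ 3) + 27 * C ^ 4 * (C' * ρ ^ 3 * F ^ 4)) := by
    rw [ofReal_integral_eq_lintegral_ofReal hLi (Eventually.of_forall fun x => by positivity)]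
    have h1 : ∫⁻ x in Metric.ball (axp z) ρ, ENNReal.ofReal (rsq x ^ 2 * sP v x ^ 4) ≤
        ∫⁻ x in Metric.ball (axp z) ρ, (ENNReal.ofReal (27 * C ^ 4 * (F ^ 4 + E ^ 4)) +
          ENNReal.ofReal (27 * C ^ 4) * (ENNReal.ofReal (rad x) * ENNReal.ofReal (N x)) ^ 4) := by
      refine setLIntegral_mono' measurableSet_ball fun x hx => ?_
      have hr0 : 0 ≤ rad x := Real.sqrt_nonneg _
      rw [← ENNReal.ofReal_mul hr0, ← ENNReal.ofReal_pow (mul_nonneg hr0 (hN0 x)),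
        ← ENNReal.ofReal_mul (by positivity), ← ENNReal.ofReal_add (by positivity) (by positivity)]
      exact ENNReal.ofReal_le_ofReal (hpt x hx)
    refine h1.trans ?_
    rw [lintegral_add_left measurable_const, setLIntegral_const, lintegral_const_mul' _ _ ENNReal.ofReal_ne_top]
    have h2 : (volume : Measure E3) (Metric.ball (axp z) ρ) ≤ ENNReal.ofReal (5 * ρ ^ 3) := by
      rw [EuclideanSpace.volume_ball_fin_three, ← ENNReal.ofReal_pow hρ.le, ← ENNReal.ofReal_mul (by positivity)]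
      refine ENNReal.ofReal_le_ofReal ?_
      have h3 : Real.pi * 4 / 3 ≤ 5 := by
        have := Real.pi_lt_d2
        linarith
      have h4 : 0 ≤ ρ ^ 3 := by positivity
      nlinarith
    have h3 : ENNReal.ofReal (27 * C ^ 4 * (F ^ 4 + E ^ 4)) * (volume : Measure E3) (Metric.ball (axp z) ρ) ≤
        ENNReal.ofReal (27 * C ^ 4 * (F ^ 4 + E ^ 4) * (5 * ρ ^ 3)) := by
      rw [ENNReal.ofReal_mul (p := 27 * C ^ 4 * (F ^ 4 + E ^ 4)) (by positivity)]
      exact mul_le_mul_right h2 _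
    have h4 : ENNReal.ofReal (27 * C ^ 4) * ∫⁻ x in Metric.ball (axp z) ρ,
        (ENNReal.ofReal (rad x) * ENNReal.ofReal (N x)) ^ 4 ≤ ENNReal.ofReal (27 * C ^ 4 * (C' * ρ ^ 3 * F ^ 4)) := by
      rw [ENNReal.ofReal_mul (p := 27 * C ^ 4) (q := C' * ρ ^ 3 * F ^ 4) (by positivity),
        ENNReal.ofReal_mul (p := C' * ρ ^ 3) (by positivity), ENNReal.ofReal_pow hF0]
      exact mul_le_mul_right hB' _
    rw [ENNReal.ofReal_add (by positivity) (by positivity)]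
    exact add_le_add h3 h4
  have key2 := (ENNReal.ofReal_le_ofReal_iff (by positivity)).1 key
  have hFE : F ^ 4 + E ^ 4 ≤ (F + E) ^ 4 := by
    have h1 : (F + E) ^ 4 = F ^ 4 + E ^ 4 + F * E * (4 * F ^ 2 + 6 * F * E + 4 * E ^ 2) := by ring
    have h2 : 0 ≤ F * E * (4 * F ^ 2 + 6 * F * E + 4 * E ^ 2) := by positivity
    linarith
  have hF4 : F ^ 4 ≤ (F + E) ^ 4 := pow_le_pow_left₀ hF0 (by linarith) 4
  have key3 : ∫ x in Metric.ball (axp z) ρ, rsq x ^ 2 * sP v x ^ 4 ≤ ρ ^ 3 * (27 * C ^ 4 * (5 + C') * (F + E) ^ 4) := by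
    refine key2.trans ?_
    have h1 := mul_le_mul_of_nonneg_left hFE (show 0 ≤ 27 * C ^ 4 * (5 * ρ ^ 3) by positivity)
    have h2 := mul_le_mul_of_nonneg_left hF4 (show 0 ≤ 27 * C ^ 4 * (C' * ρ ^ 3) by positivity)
    nlinarith
  have h7 := mul_le_mul_of_nonneg_left key3 (show 0 ≤ ρ⁻¹ ^ 3 by positivity)
  refine h7.trans (le_of_eq ?_)
  rw [← mul_assoc, ← mul_pow, inv_mul_cancel₀ hρ.ne', one_pow, one_mul]

end Pool.Agent.H72.CC
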