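/-
LamA. The drift at scale ρ (assembly).
-/
import Pool.Agent.H72.CC.Osc0
import Pool.Agent.H72.CC.PotB
import Pool.Agent.H72.CC.A4s
import Pool.Agent.H72.CC.NsC
import Pool.Agent.H72.CC.JenL

set_option autoImplicit false

open Set Filter Topology MeasureTheory
open scoped ContDiff

namespace Pool.Agent.H72.CC

open Pool.Agent.H16 Pool.Agent.H87.NS

/-- The size of the drift at scale `ρ`. -/
noncomputable def Lm (T c E ρ : ℝ) : ℝ :=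
  1 + c ^ 36 * (Real.log (2 + |Real.log T| + 2 * Real.log (1 / ρ)) + 1) + E ^ 36

theorem LamA_B {T ρ : ℝ} (hρ : 0 < ρ) (hρ1 : ρ ≤ 1) : 0 ≤ Real.log (2 + |Real.log T| + 2 * Real.log (1 / ρ)) + 1 := by
  have h1 : 0 ≤ Real.log (1 / ρ) := Real.log_nonneg (by rw [le_div_iff₀ hρ]; linarith)
  have h2 := abs_nonneg (Real.log T)
  have : 0 ≤ Real.log (2 + |Real.log T| + 2 * Real.log (1 / ρ)) := Real.log_nonneg (by linarith)
  linarith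

theorem LamA_Lm {T c E ρ : ℝ} (hρ : 0 < ρ) (hρ1 : ρ ≤ 1) : 1 ≤ Lm T c E ρ := by
  have h1 := LamA_B (T := T) hρ hρ1
  have h2 : 0 ≤ c ^ 36 := by positivity
  have h3 : 0 ≤ E ^ 36 := by positivity
  have h4 := mul_nonneg h2 h1
  unfold Lm
  linarith

theorem LamA_energy {T : ℝ} {u : ℝ → E3 → E3} {p : ℝ → E3 → ℝ} (h : IsHInfAxisymNS T u p) {t : ℝ} (ht : t ∈ Ico 0 T) :
    Integrable (fun x => ‖u t x‖ ^ 2) ∧ ∫ x, ‖u t x‖ ^ 2 ≤ ∫ x, ‖u 0 x‖ ^ 2 := by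
  refine ⟨?_, ?_⟩
  · obtain ⟨K, hK⟩ := h.reg t ht.2 0
    have := (hK t ⟨ht.1, le_rfl⟩).2.1
    simpa using this
  · have h1 := h.energy t ht
    have h2 : 0 ≤ ∫ s in (0:ℝ)..t, ∫ x, ∑ i, ‖fderiv ℝ (u s) x (e i)‖ ^ 2 := by
      refine intervalIntegral.integral_nonneg ht.1 fun s _ => integral_nonneg fun x => ?_
      positivity
    linarith

theorem LamA_pt {C₁ F E' c E L A : ℝ} (hC : 0 ≤ C₁) (hA0 : 0 ≤ A) (hA : A ≤ C₁ * (F + E') ^ 4) (hF0 : 0 ≤ F) (hF : F ≤ c * L ^ (1/36 : ℝ))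
    (hL : 0 ≤ L) (hE0 : 0 ≤ E') (hE : E' ≤ E) :
    A ^ 5 ≤ C₁ ^ 5 * 2 ^ 19 * (c ^ 20 * L ^ (5/9 : ℝ) + E ^ 20) := by
  have h1 : A ^ 5 ≤ (C₁ * (F + E') ^ 4) ^ 5 := pow_le_pow_left₀ hA0 hA 5
  have h2 : (F + E') ^ 20 ≤ (c * L ^ (1/36 : ℝ) + E) ^ 20 := pow_le_pow_left₀ (by positivity) (by linarith) 20
  have h3 : (c * L ^ (1/36 : ℝ) + E) ^ 20 ≤ 2 ^ 19 * ((c * L ^ (1/36 : ℝ)) ^ 20 + E ^ 20) :=
    add_pow_le (by linarith) (by linarith) 20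
  have h4 : (c * L ^ (1/36 : ℝ)) ^ 20 = c ^ 20 * L ^ (5/9 : ℝ) := by
    rw [mul_pow, ← Real.rpow_natCast (L ^ (1/36 : ℝ)) 20, ← Real.rpow_mul hL]
    norm_num
  calc A ^ 5 ≤ (C₁ * (F + E') ^ 4) ^ 5 := h1
    _ = C₁ ^ 5 * (F + E') ^ 20 := by ring
    _ ≤ C₁ ^ 5 * (2 ^ 19 * (c ^ 20 * L ^ (5/9 : ℝ) + E ^ 20)) := by
        rw [h4] at h3
        gcongr
        exact h2.trans h3
    _ = _ := by ring

theorem lamA : ∃ C : ℝ, 1 ≤ C ∧ ∀ (T : ℝ) (u : ℝ → E3 → E3) (p : ℝ → E3 → ℝ), IsHInfAxisymNS T u p → ∀ (R c E t ρ z : ℝ), 0 < R → 0 ≤ c →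
    (√R)⁻¹ * √(∫ x, ‖u 0 x‖ ^ 2) ≤ E → t < T → 0 < ρ → ρ ≤ 1 → ρ ≤ R / 4 → ρ ^ 2 < t →
    (∀ t' ∈ Ico 0 T, t - ρ ^ 2 ≤ t' → ∀ z : ℝ, ∫ x in Metric.ball (axp z) R, |sO (u t') x| ≤ c * ll (T - t') ^ (1/36 : ℝ)) →
    ∫ s in (-1 : ℝ)..0, A4 (fun y => ρ * sP (u (t + ρ ^ 2 * s)) (axp z + ρ • y)) ^ 5 ≤ (C * Lm T c E ρ) ^ (5/9 : ℝ) := by
  obtain ⟨C₁, hC₁, H1⟩ := potB
  set C₂ := C₁ ^ 5 * 2 ^ 19 with hC₂
  have hC₂0 : 0 < C₂ := by positivity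
  refine ⟨max 1 ((2 * C₂) ^ (9/5 : ℝ)), le_max_left _ _, ?_⟩
  intro T u p h R c E t ρ z hR hc hE ht hρ hρ1 hρR hρt hyp
  have hE0 : 0 ≤ E := le_trans (by positivity) hE
  obtain ⟨hjc, hji⟩ := jenL (T := T) ht hρ hρ1 hρt
  set B := Real.log (2 + |Real.log T| + 2 * Real.log (1 / ρ)) + 1 with hB
  have hB0 : 0 ≤ B := LamA_B hρ hρ1
  have hcrc := ns_crc h.ns ht hρ hρt z
  have hcA : ContinuousOn (fun s => A4 (fun y => ρ * sP (u (t + ρ ^ 2 * s)) (axp z + ρ • y))) (Icc (-1) 0) := osc0_A4 hcrc.conP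
  have hpt : ∀ s ∈ Icc (-1 : ℝ) 0, A4 (fun y => ρ * sP (u (t + ρ ^ 2 * s)) (axp z + ρ • y)) ^ 5 ≤
      C₂ * (c ^ 20 * ll (T - (t + ρ ^ 2 * s)) ^ (5/9 : ℝ) + E ^ 20) := by
    intro s hs
    have hρ2 : 0 < ρ ^ 2 := by positivity
    have h0 : 0 ≤ t + ρ ^ 2 * s := by nlinarith [hs.1]
    have hT : t + ρ ^ 2 * s < T := by nlinarith [hs.2]
    have hm : t + ρ ^ 2 * s ∈ Ico 0 T := ⟨h0, hT⟩
    have hge : t - ρ ^ 2 ≤ t + ρ ^ 2 * s := by nlinarith [hs.1]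
    obtain ⟨hi, hle⟩ := LamA_energy h hm
    have a1 := H1 (u (t + ρ ^ 2 * s)) (axF_of h.ns hm) hi R ρ hρ hρR z
    rw [← a4s _ hρ z] at a1
    refine LamA_pt hC₁.le (osc0_A4_nonneg _) a1 ?_ (hyp _ hm hge z) ?_ (by positivity) ?_
    · exact integral_nonneg fun x => abs_nonneg _
    · exact Real.log_nonneg (by linarith [abs_nonneg (Real.log (T - (t + ρ ^ 2 * s)))])
    · refine le_trans ?_ hE
      gcongr
  have hint : ∫ s in (-1 : ℝ)..0, A4 (fun y => ρ * sP (u (t + ρ ^ 2 * s)) (axp z + ρ • y)) ^ 5 ≤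
      C₂ * (c ^ 20 * B ^ (5/9 : ℝ) + E ^ 20) := by
    have hci : IntervalIntegrable (fun s => c ^ 20 * ll (T - (t + ρ ^ 2 * s)) ^ (5/9 : ℝ)) volume (-1) 0 :=
      (continuousOn_const.mul hjc).intervalIntegrable_of_Icc (by norm_num)
    calc ∫ s in (-1 : ℝ)..0, A4 (fun y => ρ * sP (u (t + ρ ^ 2 * s)) (axp z + ρ • y)) ^ 5
        ≤ ∫ s in (-1 : ℝ)..0, C₂ * (c ^ 20 * ll (T - (t + ρ ^ 2 * s)) ^ (5/9 : ℝ) + E ^ 20) := by
          refine intervalIntegral.integral_mono_on (by norm_num) ?_ ?_ hpt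
          · exact (hcA.pow 5).intervalIntegrable_of_Icc (by norm_num)
          · exact (continuousOn_const.mul ((continuousOn_const.mul hjc).add continuousOn_const)).intervalIntegrable_of_Icc (by norm_num)
      _ = C₂ * (c ^ 20 * (∫ s in (-1 : ℝ)..0, ll (T - (t + ρ ^ 2 * s)) ^ (5/9 : ℝ)) + E ^ 20) := by
          rw [intervalIntegral.integral_const_mul, intervalIntegral.integral_add hci intervalIntegrable_const,
            intervalIntegral.integral_const_mul, intervalIntegral.integral_const]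
          simp
      _ ≤ _ := by gcongr
  refine hint.trans ?_
  have e1 : c ^ 20 * B ^ (5/9 : ℝ) = (c ^ 36 * B) ^ (5/9 : ℝ) := by
    rw [Real.mul_rpow (by positivity) hB0, ← Real.rpow_natCast c 36, ← Real.rpow_mul hc]
    norm_num
  have e2 : E ^ 20 = (E ^ 36) ^ (5/9 : ℝ) := by
    rw [← Real.rpow_natCast E 36, ← Real.rpow_mul hE0, ← Real.rpow_natCast E 20]
    norm_num
  have hcB : 0 ≤ c ^ 36 * B := by positivity
  have hE36 : 0 ≤ E ^ 36 := by positivity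
  have hL : Lm T c E ρ = 1 + c ^ 36 * B + E ^ 36 := rfl
  have hL0 : 0 ≤ Lm T c E ρ := by rw [hL]; positivity
  have l1 : (c ^ 36 * B) ^ (5/9 : ℝ) ≤ Lm T c E ρ ^ (5/9 : ℝ) := Real.rpow_le_rpow hcB (by rw [hL]; linarith) (by norm_num)
  have l2 : (E ^ 36) ^ (5/9 : ℝ) ≤ Lm T c E ρ ^ (5/9 : ℝ) := Real.rpow_le_rpow hE36 (by rw [hL]; linarith) (by norm_num)
  have e3 : (2 * C₂) = ((2 * C₂) ^ (9/5 : ℝ)) ^ (5/9 : ℝ) := by
    rw [← Real.rpow_mul (by positivity)]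
    norm_num
  calc C₂ * (c ^ 20 * B ^ (5/9 : ℝ) + E ^ 20) ≤ C₂ * (Lm T c E ρ ^ (5/9 : ℝ) + Lm T c E ρ ^ (5/9 : ℝ)) := by
        rw [e1, e2]; gcongr
    _ = (2 * C₂) * Lm T c E ρ ^ (5/9 : ℝ) := by ring
    _ = ((2 * C₂) ^ (9/5 : ℝ) * Lm T c E ρ) ^ (5/9 : ℝ) := by
        rw [Real.mul_rpow (by positivity) hL0, ← e3]
    _ ≤ _ := by
        refine Real.rpow_le_rpow (by positivity) ?_ (by norm_num)
        gcongr
        exact le_max_right _ _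

end Pool.Agent.H72.CC
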