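/-
ROW Osc (MP_09540e_CC). The oscillation lemma from its normalised form. PROOF. If `g' > g`, `g' > 0`, then `(Γ/g', K/g', P)` and `(-Γ/g', -K/g', P)` satisfy Crc (the equation is linear in `Γ, K`: deriv_const_mul / deriv_neg, sadv, lap, rdr linear;
pd of `c • f`), and `|Γ/g'| < 1` on `[-1,0] × ball 0 1 ⊇ closedBall 0 (3/4)`. osc0 for both: `|Γ| ≤ (1 - exp(-CΛ⁹)) g'` on `[-1/4,0] × ball 0 (1/4)`, and `Icc (-(1/16)) 0 ⊆ Icc (-(1/4)) 0`. Let `g' → g` (le_of_forall_pos_le_add or ge_of_tendsto).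
-/
import Pool.Agent.H72.CC.Osc0

set_option autoImplicit false

open Set Filter Topology MeasureTheory
open scoped ContDiff

namespace Pool.Agent.H72.CC

open Pool.Agent.H16 Pool.Agent.H87.NS

theorem osc_pd (c : ℝ) (f : E3 → ℝ) (i : Fin 3) :
    pd i (fun x => c * f x) = fun x => c * pd i f x := by
  funext x
  unfold pd
  have h : fderiv ℝ (fun x => c * f x) x = c • fderiv ℝ f x := by
    have h1 : (fun x => c * f x) = c • f := rfl
    rw [h1, fderiv_const_smul_field]; rfl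
  rw [h]
  simp

theorem osc_rdr (c : ℝ) (f : E3 → ℝ) (x : E3) :
    rdr (fun x => c * f x) x = c * rdr f x := by
  unfold rdr
  rw [osc_pd, osc_pd]; ring

theorem osc_lap (c : ℝ) (f : E3 → ℝ) (x : E3) :
    lap (fun x => c * f x) x = c * lap f x := by
  unfold lap
  rw [Finset.mul_sum]
  refine Finset.sum_congr rfl fun i _ => ?_
  rw [osc_pd, osc_pd]

theorem osc_sadv (c : ℝ) (P f : E3 → ℝ) (x : E3) :
    sadv P (fun x => c * f x) x = c * sadv P f x := by
  unfold sadv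
  rw [osc_rdr, osc_pd]; ring

theorem osc_scale {Γ K P : ℝ → E3 → ℝ} (h : Crc Γ K P) (c : ℝ) :
    Crc (fun t x => c * Γ t x) (fun t x => c * K t x) P where
  smG := fun t ht x => contDiffAt_const.mul (h.smG t ht x)
  smK := fun t ht => contDiff_const.mul (h.smK t ht)
  smP := h.smP
  conP := h.conP
  fac := fun t ht x => by rw [h.fac t ht x]; ring
  eq := fun t ht x => by
    have e := h.eq t ht x
    have e1 : (fun s => c * Γ s x) = fun s => c * (fun s => Γ s x) s := rfl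
    have hd : deriv (fun s => c * Γ s x) t = c * deriv (fun s => Γ s x) t := by
      exact deriv_const_mul_field c
    rw [hd, osc_sadv, osc_lap, osc_rdr, ← mul_add, e]; ring

theorem osc : ∃ C : ℝ, 0 < C ∧ ∀ (Γ K P : ℝ → E3 → ℝ), Crc Γ K P → ∀ Λ : ℝ, 1 ≤ Λ → ∫ t in (-1 : ℝ)..0, A4 (P t) ^ 5 ≤ Λ ^ 5 →
    ∀ g : ℝ, (∀ t ∈ Icc (-1 : ℝ) 0, ∀ x ∈ Metric.ball (0 : E3) 1, |Γ t x| ≤ g) →
    ∀ t ∈ Icc (-(1/16) : ℝ) 0, ∀ x ∈ Metric.ball (0 : E3) (1/4), |Γ t x| ≤ (1 - Real.exp (- (C * Λ ^ 9))) * g := by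
  obtain ⟨C, hC, H⟩ := osc0
  refine ⟨C, hC, fun Γ K P h Λ hΛ hI g hg t ht x hx => ?_⟩
  have hg0 : 0 ≤ g := (abs_nonneg _).trans
    (hg 0 ⟨by norm_num, le_refl _⟩ 0 (Metric.mem_ball_self one_pos))
  have key : ∀ g' : ℝ, g < g' → |Γ t x| ≤ (1 - Real.exp (- (C * Λ ^ 9))) * g' := by
    intro g' hg'
    have hp : 0 < g' := lt_of_le_of_lt hg0 hg'
    have ht' : t ∈ Icc (-(1/4) : ℝ) 0 := ⟨by linarith [ht.1], ht.2⟩
    have hcb : ∀ c : ℝ, |c| = 1 / g' → ∀ t ∈ Icc (-1 : ℝ) 0,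
        ∀ x ∈ Metric.closedBall (0 : E3) (3/4), |c * Γ t x| < 1 := by
      intro c hc s hs y hy
      have hy' : y ∈ Metric.ball (0 : E3) 1 := by
        rw [Metric.mem_closedBall] at hy
        rw [Metric.mem_ball]; linarith
      have := hg s hs y hy'
      rw [abs_mul, hc, one_div, inv_mul_lt_iff₀ hp]
      linarith
    have cl : ∀ c : ℝ, |c| = 1 / g' → c * Γ t x ≤ 1 - Real.exp (- (C * Λ ^ 9)) := by
      intro c hc
      have := H _ _ P (osc_scale h c) Λ hΛ hI (hcb c hc) t ht' x hx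
      simpa using this
    have h1 := cl (1 / g') (by rw [abs_of_pos (by positivity)])
    have h2 := cl (-(1 / g')) (by rw [abs_neg, abs_of_pos (by positivity)])
    have h1' : Γ t x ≤ (1 - Real.exp (- (C * Λ ^ 9))) * g' := by
      rw [one_div, inv_mul_le_iff₀ hp] at h1; linarith
    have h2' : - Γ t x ≤ (1 - Real.exp (- (C * Λ ^ 9))) * g' := by
      have : (1 / g') * (- Γ t x) ≤ 1 - Real.exp (- (C * Λ ^ 9)) := by linarith
      rw [one_div, inv_mul_le_iff₀ hp] at this; linarith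
    exact abs_le'.2 ⟨h1', h2'⟩
  set a := (1 - Real.exp (- (C * Λ ^ 9))) with ha
  have htend : Tendsto (fun g' : ℝ => a * g') (𝓝[>] g) (𝓝 (a * g)) :=
    ((continuous_const.mul continuous_id).tendsto g).mono_left nhdsWithin_le_nhds
  refine ge_of_tendsto htend ?_
  filter_upwards [self_mem_nhdsWithin] with g' hg'
  exact key g' hg'

end Pool.Agent.H72.CC
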