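/-
StepA. One step of the iteration, and the first bound of the circulation (assembly).
-/
import Pool.Agent.H72.CC.LamA
import Pool.Agent.H72.CC.Osc

set_option autoImplicit false

open Set Filter Topology MeasureTheory
open scoped ContDiff

namespace Pool.Agent.H72.CC

open Pool.Agent.H16 Pool.Agent.H87.NS

/-- The hypothesis on `ω_θ / r`. -/
def HypA (T : ℝ) (u : ℝ → E3 → E3) (R c a : ℝ) : Prop :=
  ∀ t ∈ Ico 0 T, a ≤ t → ∀ z : ℝ, ∫ x in Metric.ball (axp z) R, |sO (u t) x| ≤ c * ll (T - t) ^ (1/36 : ℝ)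

theorem StepA_sc {T : ℝ} {u : ℝ → E3 → E3} {t ρ z τ : ℝ} (hρ : 0 < ρ) {r : ℝ}
    {P : ℝ → Prop} (hr : 0 < r) :
    (∀ s ∈ Icc (-τ) 0, ∀ y ∈ Metric.ball (0 : E3) r, P (circ (u (t + ρ ^ 2 * s)) (axp z + ρ • y))) →
    ∀ t' ∈ Icc (t - ρ ^ 2 * τ) t, ∀ x ∈ Metric.ball (axp z) (r * ρ), P (circ (u t') x) := by
  intro H t' ht' x hx
  have hρ2 : 0 < ρ ^ 2 := by positivity
  have h1 : (t' - t) / ρ ^ 2 ∈ Icc (-τ) 0 := by
    constructor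
    · rw [le_div_iff₀ hρ2]; nlinarith [ht'.1]
    · rw [div_le_iff₀ hρ2]; linarith [ht'.2]
  have h2 : ρ⁻¹ • (x - axp z) ∈ Metric.ball (0 : E3) r := by
    rw [mem_ball_zero_iff, norm_smul, norm_inv, Real.norm_of_nonneg hρ.le, inv_mul_lt_iff₀ hρ]
    rw [Metric.mem_ball, dist_eq_norm] at hx
    linarith [mul_comm r ρ]
  have h3 := H _ h1 _ h2
  have e1 : t + ρ ^ 2 * ((t' - t) / ρ ^ 2) = t' := by field_simp; ring
  have e2 : axp z + ρ • (ρ⁻¹ • (x - axp z)) = x := by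
    rw [smul_smul, mul_inv_cancel₀ hρ.ne', one_smul]; abel
  rwa [e1, e2] at h3

theorem StepA_rad (x : E3) (z : ℝ) : rad x ≤ ‖x - axp z‖ := by
  have h1 : ‖x - axp z‖ ^ 2 = x 0 ^ 2 + x 1 ^ 2 + (x 2 - z) ^ 2 := by
    rw [norm_sq_eq]
    simp [axp]
  unfold rad
  rw [show ‖x - axp z‖ = √(‖x - axp z‖ ^ 2) from (Real.sqrt_sq (norm_nonneg _)).symm, h1]
  exact Real.sqrt_le_sqrt (by nlinarith [sq_nonneg (x 2 - z)])

theorem StepA_L {C₀ L : ℝ} (hC : 1 ≤ C₀) (hL : 1 ≤ L) : 1 ≤ (C₀ * L) ^ (1/9 : ℝ) ∧ ((C₀ * L) ^ (1/9 : ℝ)) ^ 5 = (C₀ * L) ^ (5/9 : ℝ) ∧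
    ((C₀ * L) ^ (1/9 : ℝ)) ^ 9 = C₀ * L := by
  have h0 : 1 ≤ C₀ * L := by nlinarith
  have h1 : 0 ≤ C₀ * L := by linarith
  refine ⟨Real.one_le_rpow h0 (by norm_num), ?_, ?_⟩
  · rw [← Real.rpow_natCast, ← Real.rpow_mul h1]; norm_num
  · rw [← Real.rpow_natCast, ← Real.rpow_mul h1]; norm_num

theorem stepA : ∃ C : ℝ, 0 < C ∧ ∀ (T : ℝ) (u : ℝ → E3 → E3) (p : ℝ → E3 → ℝ), IsHInfAxisymNS T u p → ∀ (R c E a t ρ z : ℝ), 0 < R → 0 ≤ c →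
    (√R)⁻¹ * √(∫ x, ‖u 0 x‖ ^ 2) ≤ E → t < T → 0 < ρ → ρ ≤ 1 → ρ ≤ R / 4 → ρ ^ 2 < t → a ≤ t - ρ ^ 2 → HypA T u R c a →
    ∀ g : ℝ, (∀ t' ∈ Icc (t - ρ ^ 2) t, ∀ x ∈ Metric.ball (axp z) ρ, |circ (u t') x| ≤ g) →
    ∀ t' ∈ Icc (t - ρ ^ 2 / 16) t, ∀ x ∈ Metric.ball (axp z) (ρ / 4), |circ (u t') x| ≤ (1 - Real.exp (- (C * Lm T c E ρ))) * g := by
  obtain ⟨C₀, hC₀, H0⟩ := lamA
  obtain ⟨C₁, hC₁, H1⟩ := osc
  refine ⟨C₁ * C₀, by positivity, ?_⟩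
  intro T u p h R c E a t ρ z hR hc hE ht hρ hρ1 hρR hρt ha hyp g hg
  have hL1 : 1 ≤ Lm T c E ρ := LamA_Lm hρ hρ1
  obtain ⟨l1, l2, l3⟩ := StepA_L hC₀ hL1
  have h1 := H0 T u p h R c E t ρ z hR hc hE ht hρ hρ1 hρR hρt
    (fun t' ht' hge => hyp t' ht' (ha.trans hge))
  rw [← l2] at h1
  have hcrc := ns_crc h.ns ht hρ hρt z
  have hρ2 : 0 < ρ ^ 2 := by positivity
  have h2 := H1 _ _ _ hcrc _ l1 h1 g (by
    intro s hs y hy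
    refine hg _ ⟨by nlinarith only [hs.1], by nlinarith only [hs.2]⟩ _ ?_
    rw [Metric.mem_ball, dist_eq_norm, add_sub_cancel_left, norm_smul, Real.norm_of_nonneg hρ.le]
    rw [mem_ball_zero_iff] at hy
    nlinarith only [hρ, hy])
  rw [l3] at h2
  intro t' ht' x hx
  have h3 := StepA_sc (T := T) (u := u) (t := t) (z := z) (τ := 1/16) (r := 1/4) hρ
    (P := fun s => |s| ≤ (1 - Real.exp (-(C₁ * (C₀ * Lm T c E ρ)))) * g) (by norm_num) h2 t'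
    (by convert ht' using 2; ring) x (by convert hx using 2; ring)
  rwa [mul_assoc]

theorem stepI {T : ℝ} {u : ℝ → E3 → E3} {p : ℝ → E3 → ℝ} (h : IsHInfAxisymNS T u p) {R c E a ρ : ℝ} (hR : 0 < R) (hc : 0 ≤ c)
    (hE : (√R)⁻¹ * √(∫ x, ‖u 0 x‖ ^ 2) ≤ E) (hρ : 0 < ρ) (hρ1 : ρ ≤ 1) (hρR : ρ ≤ R / 4) (ha : 0 ≤ a) (hyp : HypA T u R c a) :
    ∃ G : ℝ, 0 ≤ G ∧ ∀ t z : ℝ, t < T → ρ ^ 2 < t → a ≤ t - ρ ^ 2 → ∀ t' ∈ Icc (t - (ρ / 4) ^ 2) t, ∀ x ∈ Metric.ball (axp z) (ρ / 4),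
      |circ (u t') x| ≤ G := by
  obtain ⟨C₀, hC₀, H0⟩ := lamA
  obtain ⟨C₁, hC₁, H1⟩ := moC
  set E₀ := ∫ x, ‖u 0 x‖ ^ 2 with hE₀
  have hE₀0 : 0 ≤ E₀ := integral_nonneg fun x => by positivity
  set M := ρ⁻¹ ^ 3 * ((ρ / 2) ^ 2 * E₀) + 1 with hM
  have hM0 : 0 < M := by positivity
  set Q := C₁ * (C₀ * Lm T c E ρ) ^ (5/9 : ℝ) * M with hQ
  refine ⟨√Q, Real.sqrt_nonneg _, ?_⟩
  intro t z ht hρt hat
  have hL1 : 1 ≤ Lm T c E ρ := LamA_Lm hρ hρ1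
  obtain ⟨l1, l2, l3⟩ := StepA_L hC₀ hL1
  have h1 := H0 T u p h R c E t ρ z hR hc hE ht hρ hρ1 hρR hρt
    (fun t' ht' hge => hyp t' ht' (hat.trans hge))
  rw [← l2] at h1
  have hcrc := ns_crc h.ns ht hρ hρt z
  have hρ2 : 0 < ρ ^ 2 := by positivity
  have hdd : ∀ s : ℝ, deriv (deriv fun s : ℝ => s ^ 2) s = 2 := by
    intro s
    have : deriv (fun s : ℝ => s ^ 2) = fun s => 2 * s := by
      funext s; simp
    rw [this]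
    simp
  have h2 := H1 _ _ _ hcrc _ l1 h1 (fun s => s ^ 2) (by fun_prop) (by norm_num)
    (fun s _ y _ => ⟨sq_nonneg _, by rw [hdd]; norm_num⟩) M hM0 (by
      intro s hs
      have h0 : 0 ≤ t + ρ ^ 2 * s := by nlinarith only [hs.1, hρt, hρ2]
      have hT : t + ρ ^ 2 * s < T := by nlinarith only [hs.2, ht]
      have hm : t + ρ ^ 2 * s ∈ Ico 0 T := ⟨h0, hT⟩
      obtain ⟨hi, hle⟩ := LamA_energy h hm
      have e1 := ball_cov2 (fun x => circ (u (t + ρ ^ 2 * s)) x ^ 2) hρ z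
      show ∫ x in Metric.ball (0 : E3) (1/2), circ (u (t + ρ ^ 2 * s)) (axp z + ρ • x) ^ 2 ≤ M
      rw [e1]
      have hcc : Continuous (circ (u (t + ρ ^ 2 * s))) := (VRep_circ_smooth (axF_of h.ns hm).smooth).continuous
      have e2 : ∫ x in Metric.ball (axp z) (ρ / 2), circ (u (t + ρ ^ 2 * s)) x ^ 2 ≤
          ∫ x in Metric.ball (axp z) (ρ / 2), (ρ / 2) ^ 2 * ‖u (t + ρ ^ 2 * s) x‖ ^ 2 := by
        refine setIntegral_mono_on ?_ ?_ Metric.isOpen_ball.measurableSet fun x hx => ?_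
        · exact Crit_ball (hcc.pow 2) _ _
        · exact (hi.const_mul _).integrableOn
        · have b1 := circ_le (u (t + ρ ^ 2 * s)) x
          have b2 := StepA_rad x z
          rw [Metric.mem_ball, dist_eq_norm] at hx
          have b3 : |circ (u (t + ρ ^ 2 * s)) x| ≤ (ρ / 2) * ‖u (t + ρ ^ 2 * s) x‖ :=
            b1.trans (by gcongr; linarith)
          calc circ (u (t + ρ ^ 2 * s)) x ^ 2 = |circ (u (t + ρ ^ 2 * s)) x| ^ 2 := (sq_abs _).symm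
            _ ≤ ((ρ / 2) * ‖u (t + ρ ^ 2 * s) x‖) ^ 2 := pow_le_pow_left₀ (abs_nonneg _) b3 2
            _ = _ := by ring
      have e3 : ∫ x in Metric.ball (axp z) (ρ / 2), (ρ / 2) ^ 2 * ‖u (t + ρ ^ 2 * s) x‖ ^ 2 ≤ (ρ / 2) ^ 2 * E₀ := by
        calc _ ≤ ∫ x, (ρ / 2) ^ 2 * ‖u (t + ρ ^ 2 * s) x‖ ^ 2 :=
              setIntegral_le_integral (hi.const_mul _) (Eventually.of_forall fun x => by positivity)
          _ = (ρ / 2) ^ 2 * ∫ x, ‖u (t + ρ ^ 2 * s) x‖ ^ 2 := integral_const_mul _ _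
          _ ≤ _ := by gcongr
      have e4 : ρ⁻¹ ^ 3 * ∫ x in Metric.ball (axp z) (ρ / 2), circ (u (t + ρ ^ 2 * s)) x ^ 2 ≤ ρ⁻¹ ^ 3 * ((ρ / 2) ^ 2 * E₀) := by
        gcongr
        exact e2.trans e3
      rw [hM]
      linarith)
  rw [l2] at h2
  intro t' ht' x hx
  have h3 := StepA_sc (T := T) (u := u) (t := t) (z := z) (τ := 1/4) (r := 1/4) hρ
    (P := fun s => s ^ 2 ≤ Q) (by norm_num) h2 t'
    ⟨by linarith only [ht'.1, hρ2], ht'.2⟩ x (by convert hx using 2; ring)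
  rw [← Real.sqrt_sq_eq_abs]
  exact Real.sqrt_le_sqrt h3

end Pool.Agent.H72.CC
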