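/-
MainA. The criterion on `ω_θ / r` (assembly).
-/
import Pool.Agent.H72.CC.StepA
import Pool.Agent.H72.CC.Itr

set_option autoImplicit false

open Set Filter Topology MeasureTheory
open scoped ContDiff

namespace Pool.Agent.H72.CC

open Pool.Agent.H16 Pool.Agent.H87.NS

/-- The circulation satisfies the hypothesis of the known criterion, for every exponent. -/
def Small (T : ℝ) (u : ℝ → E3 → E3) : Prop :=
  ∀ α : ℝ, ∃ r₁ : ℝ, 0 < r₁ ∧ r₁ < 1 ∧ ∀ t ∈ Ico 0 T, ∀ x : E3, 0 < rad x → rad x < r₁ → |circ (u t) x| ≤ |Real.log (rad x)| ^ (-α)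

theorem MainA_q {C c E T ρ₁ : ℝ} (hC : 0 < C) (hc : 0 ≤ c) (hcC : C * c ^ 36 ≤ 1/2) (hE : 0 ≤ E) (hρ : 0 < ρ₁) (hρ1 : ρ₁ ≤ 1) :
    ∃ a : ℝ, ∀ k : ℕ, 0 ≤ C * Lm T c E (ρ₁ * (1/4) ^ k) ∧
      C * Lm T c E (ρ₁ * (1/4) ^ k) ≤ a + (1/2) * Real.log ((k : ℝ) + 1) := by
  set A := 2 + |Real.log T| + 2 * Real.log (1 / ρ₁) + 2 * Real.log 4 with hA
  have hl : 0 ≤ Real.log (1 / ρ₁) := Real.log_nonneg (by rw [le_div_iff₀ hρ]; linarith)
  have hl4 : 0 ≤ Real.log 4 := Real.log_nonneg (by norm_num)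
  have hA1 : 1 ≤ A := by have := abs_nonneg (Real.log T); rw [hA]; linarith
  have hA0 : 0 < A := by linarith
  refine ⟨C * (1 + c ^ 36 * (Real.log A + 1) + E ^ 36), fun k => ?_⟩
  have hk : (0:ℝ) < (1/4) ^ k := by positivity
  have hk1 : ((1:ℝ)/4) ^ k ≤ 1 := pow_le_one₀ (by norm_num) (by norm_num)
  have hρk : 0 < ρ₁ * (1/4) ^ k := by positivity
  have hρk1 : ρ₁ * (1/4) ^ k ≤ 1 := by nlinarith
  have hL := LamA_Lm (T := T) (c := c) (E := E) hρk hρk1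
  refine ⟨by positivity, ?_⟩
  have e1 : Real.log (1 / (ρ₁ * (1/4) ^ k)) = Real.log (1 / ρ₁) + k * Real.log 4 := by
    rw [Real.log_div one_ne_zero hρk.ne', Real.log_mul hρ.ne' hk.ne', Real.log_pow, Real.log_div one_ne_zero (by norm_num),
      Real.log_div one_ne_zero hρ.ne']
    simp
    ring
  have hk0 : (0:ℝ) ≤ k := Nat.cast_nonneg k
  have e2 : Real.log (2 + |Real.log T| + 2 * Real.log (1 / (ρ₁ * (1/4) ^ k))) ≤ Real.log A + Real.log ((k : ℝ) + 1) := by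
    rw [← Real.log_mul hA0.ne' (by positivity)]
    refine Real.log_le_log ?_ ?_
    · have := abs_nonneg (Real.log T)
      rw [e1]; positivity
    · rw [e1, hA]
      have := abs_nonneg (Real.log T)
      linarith only [mul_nonneg hk0 hl, mul_nonneg hk0 hl4, mul_nonneg hk0 this, hl, hl4, hk0, this]
  have hc36 : 0 ≤ c ^ 36 := by positivity
  have hlk : 0 ≤ Real.log ((k : ℝ) + 1) := Real.log_nonneg (by linarith)
  have e3 : Lm T c E (ρ₁ * (1/4) ^ k) ≤ 1 + c ^ 36 * (Real.log A + 1) + E ^ 36 + c ^ 36 * Real.log ((k : ℝ) + 1) := by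
    unfold Lm
    linarith only [mul_le_mul_of_nonneg_left e2 hc36, e2, hc36]
  calc C * Lm T c E (ρ₁ * (1/4) ^ k) ≤ C * (1 + c ^ 36 * (Real.log A + 1) + E ^ 36 + c ^ 36 * Real.log ((k : ℝ) + 1)) := by gcongr
    _ = C * (1 + c ^ 36 * (Real.log A + 1) + E ^ 36) + (C * c ^ 36) * Real.log ((k : ℝ) + 1) := by ring
    _ ≤ _ := by gcongr

theorem MainA_sq {K : ℝ} (α : ℝ) : ∃ r₂ : ℝ, 0 < r₂ ∧ r₂ < 1 ∧ ∀ r : ℝ, 0 < r → r < r₂ → K * r ^ 2 ≤ |Real.log r| ^ (-α) := by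
  have h1 : Tendsto (fun r : ℝ => r * |Real.log r| ^ α) (𝓝[>] 0) (𝓝 0) := by
    have h2 : Tendsto (fun s : ℝ => s ^ α * Real.exp (-s)) atTop (𝓝 0) := by
      have := tendsto_rpow_mul_exp_neg_mul_atTop_nhds_zero α 1 one_pos
      simpa using this
    have h3 : Tendsto (fun r : ℝ => - Real.log r) (𝓝[>] 0) atTop := tendsto_neg_atBot_atTop.comp Real.tendsto_log_nhdsGT_zero
    have h4 := h2.comp h3
    refine h4.congr' ?_
    filter_upwards [Ioo_mem_nhdsGT (show (0:ℝ) < 1 by norm_num)] with r hr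
    have hl : Real.log r ≤ 0 := Real.log_nonpos hr.1.le hr.2.le
    simp only [Function.comp, neg_neg]
    rw [Real.exp_log hr.1, abs_of_nonpos hl, mul_comm]
  have h2 : ∀ᶠ r in 𝓝[>] (0:ℝ), r * |Real.log r| ^ α < 1 / (|K| + 1) := h1.eventually (gt_mem_nhds (by positivity))
  rw [eventually_nhdsWithin_iff, Metric.eventually_nhds_iff] at h2
  obtain ⟨ε, hε, h3⟩ := h2
  refine ⟨min ε (1/2), by positivity, lt_of_le_of_lt (min_le_right _ _) (by norm_num), fun r hr hr2 => ?_⟩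
  have hr3 : r < ε := lt_of_lt_of_le hr2 (min_le_left _ _)
  have hr4 : r < 1/2 := lt_of_lt_of_le hr2 (min_le_right _ _)
  have h4 := h3 (y := r) (by rw [Real.dist_eq, sub_zero, abs_of_pos hr]; exact hr3) hr
  have hl : Real.log r < 0 := Real.log_neg hr (by linarith)
  have hl0 : 0 < |Real.log r| := abs_pos.2 hl.ne
  have hp : 0 < |Real.log r| ^ α := Real.rpow_pos_of_pos hl0 α
  rw [Real.rpow_neg hl0.le]
  rw [← one_div, le_div_iff₀ hp]
  have hK : K ≤ |K| + 1 := by linarith [le_abs_self K]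
  have hK0 : 0 < |K| + 1 := by positivity
  rw [lt_div_iff₀ hK0] at h4
  calc K * r ^ 2 * |Real.log r| ^ α ≤ (|K| + 1) * r ^ 2 * |Real.log r| ^ α := by gcongr
    _ = r * (r * |Real.log r| ^ α * (|K| + 1)) := by ring
    _ ≤ r * 1 := by gcongr
    _ ≤ 1 := by linarith

theorem mainA : ∃ c : ℝ, 0 < c ∧ ∀ (T : ℝ) (u : ℝ → E3 → E3) (p : ℝ → E3 → ℝ), IsHInfAxisymNS T u p →
    ∀ R a : ℝ, 0 < R → a < T → HypA T u R c a → Small T u := by
  obtain ⟨C, hC, HS⟩ := stepA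
  refine ⟨(1 / (2 * C)) ^ (1/36 : ℝ), by positivity, ?_⟩
  set c := (1 / (2 * C)) ^ (1/36 : ℝ) with hc
  have hc0 : 0 < c := by positivity
  have hc36 : C * c ^ 36 ≤ 1/2 := by
    have : c ^ 36 = 1 / (2 * C) := by
      rw [hc, ← Real.rpow_natCast, ← Real.rpow_mul (by positivity)]; norm_num
    rw [this]
    have : C * (1 / (2 * C)) = 1/2 := by field_simp
    linarith
  intro T u p h R a hR haT hyp
  rcases le_or_gt T 0 with hT | hT
  · intro α
    exact ⟨1/2, by norm_num, by norm_num, fun t ht => absurd ht.2 (by linarith [ht.1])⟩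
  -- a positive starting time
  set a' := max a (T / 2) with ha'
  have ha'T : a' < T := max_lt haT (by linarith)
  have ha'0 : 0 < a' := lt_of_lt_of_le (by linarith) (le_max_right _ _)
  have hyp' : HypA T u R c a' := fun t ht hat => hyp t ht ((le_max_left _ _).trans hat)
  set E := (√R)⁻¹ * √(∫ x, ‖u 0 x‖ ^ 2) with hE
  have hE0 : 0 ≤ E := by positivity
  set ρ₀ := min (min 1 (R / 4)) (√((T - a') / 2)) with hρ₀
  have hd : 0 < (T - a') / 2 := by linarith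
  have hρ0 : 0 < ρ₀ := lt_min (lt_min one_pos (by positivity)) (Real.sqrt_pos.2 hd)
  have hρ1 : ρ₀ ≤ 1 := (min_le_left _ _).trans (min_le_left _ _)
  have hρR : ρ₀ ≤ R / 4 := (min_le_left _ _).trans (min_le_right _ _)
  have hρT : ρ₀ ^ 2 ≤ (T - a') / 2 := by
    calc ρ₀ ^ 2 ≤ √((T - a') / 2) ^ 2 := pow_le_pow_left₀ hρ0.le (min_le_right _ _) 2
      _ = _ := Real.sq_sqrt hd.le
  obtain ⟨G, hG0, hG⟩ := stepI h hR hc0.le (le_refl E) hρ0 hρ1 hρR ha'0.le hyp'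
  set ρ₁ := ρ₀ / 4 with hρ₁
  have hρ₁0 : 0 < ρ₁ := by positivity
  have hρ₁1 : ρ₁ ≤ 1 := by linarith
  obtain ⟨d, hd'⟩ := MainA_q (T := T) hC hc0.le hc36 hE0 hρ₁0 hρ₁1
  -- the sequence
  set q : ℕ → ℝ := fun k => C * Lm T c E (ρ₁ * (1/4) ^ k) with hq
  set g : ℕ → ℝ := fun k => Nat.rec G (fun k y => (1 - Real.exp (- q k)) * y) k with hg
  have hg0 : g 0 = G := rfl
  have hgs : ∀ k, g (k + 1) = (1 - Real.exp (- q k)) * g k := fun k => rfl
  have hiter : ∀ t z : ℝ, a' + ρ₀ ^ 2 ≤ t → t < T → ∀ k : ℕ, ∀ t' ∈ Icc (t - (ρ₁ * (1/4) ^ k) ^ 2) t,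
      ∀ x ∈ Metric.ball (axp z) (ρ₁ * (1/4) ^ k), |circ (u t') x| ≤ g k := by
    intro t z hat htT k
    induction k with
    | zero =>
      intro t' ht' x hx
      rw [hg0]
      refine hG t z htT (by linarith only [ha'0, hat]) (by linarith) t' ?_ x ?_
      · simpa [hρ₁] using ht'
      · simpa [hρ₁] using hx
    | succ k ih =>
      have hk : (0:ℝ) < (1/4) ^ k := by positivity
      have hk1 : ((1:ℝ)/4) ^ k ≤ 1 := pow_le_one₀ (by norm_num) (by norm_num)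
      have hρk : 0 < ρ₁ * (1/4) ^ k := by positivity
      have hρk1 : ρ₁ * (1/4) ^ k ≤ ρ₁ := by nlinarith only [hρ0, hρ₁, hk, hk1]
      have hsq : (ρ₁ * (1/4) ^ k) ^ 2 ≤ ρ₀ ^ 2 := pow_le_pow_left₀ hρk.le (by linarith) 2
      have h1 := HS T u p h R c E a' t (ρ₁ * (1/4) ^ k) z hR hc0.le (le_refl E) htT hρk (by linarith) (by linarith)
        (by linarith) (by linarith) hyp' (g k) ih
      intro t' ht' x hx
      rw [hgs]
      refine h1 t' ?_ x ?_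
      · convert ht' using 2; ring
      · convert hx using 2; ring
  have hbd := itr hgs (by rw [hg0]; exact hG0) (fun k => (hd' k).1) (fun k => (hd' k).2)
  have hl4 : a' + ρ₀ ^ 2 < T := by linarith
  obtain ⟨K, hK⟩ := svwDB h hl4
  intro α
  obtain ⟨r₁, hr₁0, hr₁1, hr₁⟩ := fin (G := g 0) (δ := Real.exp (-d)) (ρ₀ := ρ₁) (Real.exp_pos _) hρ₁0 α
  obtain ⟨r₂, hr₂0, hr₂1, hr₂⟩ := MainA_sq (K := K) α
  refine ⟨min r₁ r₂, lt_min hr₁0 hr₂0, lt_of_le_of_lt (min_le_left _ _) hr₁1, ?_⟩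
  intro t ht x hx hxr
  rcases le_or_gt (a' + ρ₀ ^ 2) t with hta | hta
  · obtain ⟨k, hk1, hk2⟩ := hr₁ (rad x) hx (lt_of_lt_of_le hxr (min_le_left _ _))
    have h1 := hiter t (x 2) hta ht.2 k t ⟨by linarith [sq_nonneg (ρ₁ * (1/4) ^ k)], le_rfl⟩ x (by
      rw [Metric.mem_ball, dist_eq_norm, Crit_axp]; exact hk1)
    exact h1.trans ((hbd k).2.trans hk2)
  · have hv := axF_of h.ns ht
    have h1 : |sV (u t) x| ≤ K := (DB_BL (hK t ⟨ht.1, hta.le⟩).1).1 x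
    have h2 := hr₂ (rad x) hx (lt_of_lt_of_le hxr (min_le_right _ _))
    have hrs : rad x ^ 2 = rsq x := rad_sq' x
    rw [circ_eq hv, abs_mul, ← hrs, abs_of_nonneg (by positivity)]
    calc rad x ^ 2 * |sV (u t) x| ≤ rad x ^ 2 * K := by gcongr
      _ = K * rad x ^ 2 := mul_comm _ _
      _ ≤ _ := h2

end Pool.Agent.H72.CC
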