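import Pool.Agent.H72.CC.Defs

/-! The balance of `∫ |ω_θ / r|`: definitions. -/

set_option autoImplicit false

open Set Filter Topology MeasureTheory
open scoped ContDiff

namespace Pool.Agent.H72.CC

open Pool.Agent.H16 Pool.Agent.H87.NS

/-- Perturbations. -/
structure Pert (θ q : E3 → ℝ) : Prop where
  sm : ContDiff ℝ ∞ θ
  cq : Continuous q
  rd : ∀ x, rdr θ x = q x / 2 * rsq x
  db : ∃ K, DB 1 K θ ∧ BL K (lap θ) ∧ BL K q
  l1 : Integrable θ
  l1p : ∀ i, Integrable (pd i θ)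
  l1l : Integrable (lap θ)
  l1q : Integrable q

/-- The source created by a perturbation. -/
noncomputable def pG (u : ℝ → E3 → E3) (θ q : E3 → ℝ) (t : ℝ) (x : E3) : ℝ := adv (u t x) θ x - lap θ x - q x

/-- `(1 + |x|²)⁻²`. -/
noncomputable def th1 (x : E3) : ℝ := ((1 + ‖x‖ ^ 2) ^ 2)⁻¹

/-- `x₂ (1 + |x|²)⁻³`. -/
noncomputable def th2 (x : E3) : ℝ := x 2 * ((1 + ‖x‖ ^ 2) ^ 3)⁻¹

/-- The functions used to approximate the positive part. -/
structure JP (j : ℝ → ℝ) : Prop where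
  jf : JFun j
  d0 : ∀ s, 0 ≤ deriv j s
  d1 : ∀ s, deriv j s ≤ 1
  z : ∀ s ≤ 0, j s = 0 ∧ deriv j s = 0
  le : ∀ s, j s ≤ max s 0

/-- `V ∂_z V`, twice. -/
noncomputable def src (v : E3 → E3) (x : E3) : ℝ := 2 * sV v x * pd 2 (sV v) x

/-- Reflection in the plane `x₂ = 0`. -/
noncomputable def mir (x : E3) : E3 := !₂[x 0, x 1, - x 2]

/-- Rotation by the angle `π` about the `x₀` axis. -/
noncomputable def hlf (x : E3) : E3 := !₂[x 0, - x 1, - x 2]

end Pool.Agent.H72.CC
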