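/-
ROW HalW (MP_09540e_CC). Weights in the half space. PROOF. `cz δ x = Real.smoothTransition (x 2 / δ - 1)`: smooth, between 0 and 1, `= 0` for `x 2 ≤ δ`, `= 1` for `x 2 ≥ 2δ`; `pd i = 0` for `i = 0,1`, `pd 2 (cz δ) x = δ⁻¹ θ'(x 2/δ - 1)`, `lap = δ⁻² θ''(x 2/δ - 1)`, `|θ'|, |θ''| ≤ C` (Cut_bd in NS/Cut.lean),
both vanish unless `δ ≤ x 2 ≤ 2δ`. `rdr (cz δ) = 0`. θ' ≥ 0 (θ monotone). Wg: immediate. cz_lim: for `x 2 > 0` eventually `x 2 ≥ 2 δ n`; for `x 2 ≤ 0` it is 0.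
-/
import Pool.Agent.H72.CC.VDefs
import Pool.Agent.H87.NS.Cut

set_option autoImplicit false

open Set Filter Topology MeasureTheory
open scoped ContDiff

namespace Pool.Agent.H72.CC

open Pool.Agent.H16 Pool.Agent.H87.NS

noncomputable def cz (δ : ℝ) (x : E3) : ℝ := Real.smoothTransition (x 2 / δ - 1)

theorem HalW_bd : ∃ C : ℝ, 1 ≤ C ∧ (∀ y, |deriv Real.smoothTransition y| ≤ C) ∧
    (∀ y, |deriv (deriv Real.smoothTransition) y| ≤ C) ∧
    (∀ y, 1 < y → deriv Real.smoothTransition y = 0 ∧ deriv (deriv Real.smoothTransition) y = 0) ∧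
    (∀ y, y < 0 → deriv Real.smoothTransition y = 0 ∧ deriv (deriv Real.smoothTransition) y = 0) := by
  have hs : ContDiff ℝ ∞ Real.smoothTransition := Real.smoothTransition.contDiff
  have hs1 : ContDiff ℝ ∞ (deriv Real.smoothTransition) := (contDiff_infty_iff_deriv.1 hs).2
  have hs2 : ContDiff ℝ ∞ (deriv (deriv Real.smoothTransition)) := (contDiff_infty_iff_deriv.1 hs1).2
  have h1 : ∀ y : ℝ, 1 < y → deriv Real.smoothTransition y = 0 ∧ deriv (deriv Real.smoothTransition) y = 0 := by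
    intro y hy
    have e1 : Real.smoothTransition =ᶠ[𝓝 y] fun _ => 1 := by
      filter_upwards [lt_mem_nhds hy] with z hz
      exact Real.smoothTransition.one_of_one_le hz.le
    have e2 := e1.deriv
    have e3 : deriv Real.smoothTransition =ᶠ[𝓝 y] fun _ => 0 := by
      filter_upwards [e2] with z hz
      rw [hz]
      simp
    refine ⟨e3.eq_of_nhds, ?_⟩
    rw [e3.deriv_eq]
    simp
  have h0 : ∀ y : ℝ, y < 0 → deriv Real.smoothTransition y = 0 ∧ deriv (deriv Real.smoothTransition) y = 0 := by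
    intro y hy
    have e1 : Real.smoothTransition =ᶠ[𝓝 y] fun _ => 0 := by
      filter_upwards [gt_mem_nhds hy] with z hz
      exact Real.smoothTransition.zero_of_nonpos (le_of_lt hz)
    have e2 := e1.deriv
    have e3 : deriv Real.smoothTransition =ᶠ[𝓝 y] fun _ => 0 := by
      filter_upwards [e2] with z hz
      rw [hz]
      simp
    refine ⟨e3.eq_of_nhds, ?_⟩
    rw [e3.deriv_eq]
    simp
  obtain ⟨A, hA⟩ := isCompact_Icc.exists_bound_of_continuousOn (s := Icc (0:ℝ) 1) hs1.continuous.continuousOn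
  obtain ⟨B, hB⟩ := isCompact_Icc.exists_bound_of_continuousOn (s := Icc (0:ℝ) 1) hs2.continuous.continuousOn
  have hC0 : (0:ℝ) ≤ max 1 (max A B) := zero_le_one.trans (le_max_left _ _)
  refine ⟨max 1 (max A B), le_max_left _ _, fun y => ?_, fun y => ?_, h1, h0⟩
  · rcases lt_or_ge y 0 with hy | hy
    · rw [(h0 y hy).1, abs_zero]
      exact hC0
    · rcases lt_or_ge 1 y with hy' | hy'
      · rw [(h1 y hy').1, abs_zero]
        exact hC0
      · exact (hA y ⟨hy, hy'⟩).trans ((le_max_left _ _).trans (le_max_right _ _))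
  · rcases lt_or_ge y 0 with hy | hy
    · rw [(h0 y hy).2, abs_zero]
      exact hC0
    · rcases lt_or_ge 1 y with hy' | hy'
      · rw [(h1 y hy').2, abs_zero]
        exact hC0
      · exact (hB y ⟨hy, hy'⟩).trans ((le_max_right _ _).trans (le_max_right _ _))

noncomputable def HalW_H (δ y : ℝ) : ℝ := Real.smoothTransition (y / δ - 1)

theorem HalW_H_smooth (δ : ℝ) : ContDiff ℝ ∞ (HalW_H δ) := by
  unfold HalW_H
  exact Real.smoothTransition.contDiff.comp ((contDiff_id.div_const _).sub contDiff_const)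

theorem HalW_dH (δ : ℝ) : deriv (HalW_H δ) = fun y => deriv Real.smoothTransition (y / δ - 1) / δ := by
  funext y
  have h1 : HasDerivAt (fun y : ℝ => y / δ - 1) (1 / δ) y := by
    simpa using ((hasDerivAt_id y).div_const δ).sub_const 1
  have h2 : HasDerivAt Real.smoothTransition (deriv Real.smoothTransition (y / δ - 1)) (y / δ - 1) :=
    ((Real.smoothTransition.contDiff (n := 1)).differentiable (by norm_num) _).hasDerivAt
  have h3 := h2.comp y h1
  have h4 : HasDerivAt (HalW_H δ) (deriv Real.smoothTransition (y / δ - 1) * (1 / δ)) y := h3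
  rw [h4.deriv]
  ring

theorem HalW_ddH (δ y : ℝ) : deriv (deriv (HalW_H δ)) y =
    deriv (deriv Real.smoothTransition) (y / δ - 1) / δ ^ 2 := by
  rw [HalW_dH]
  have h1 : HasDerivAt (fun y : ℝ => y / δ - 1) (1 / δ) y := by
    simpa using ((hasDerivAt_id y).div_const δ).sub_const 1
  have hs : ContDiff ℝ ∞ Real.smoothTransition := Real.smoothTransition.contDiff
  have hs1 : ContDiff ℝ ∞ (deriv Real.smoothTransition) := (contDiff_infty_iff_deriv.1 hs).2
  have h2 : HasDerivAt (deriv Real.smoothTransition) (deriv (deriv Real.smoothTransition) (y / δ - 1)) (y / δ - 1) :=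
    (hs1.differentiable (by simp) _).hasDerivAt
  have h3 := (h2.comp y h1).div_const δ
  have h4 : HasDerivAt (fun y => deriv Real.smoothTransition (y / δ - 1) / δ)
    (deriv (deriv Real.smoothTransition) (y / δ - 1) * (1 / δ) / δ) y := h3
  rw [h4.deriv, mul_one_div, div_div, pow_two]

theorem HalW_c2 : ContDiff ℝ ∞ (fun x : E3 => x 2) := by
  fun_prop

theorem HalW_pd2 (i : Fin 3) (x : E3) : pd i (fun y : E3 => y 2) x = e i 2 := by
  have h : HasFDerivAt (fun y : E3 => y 2) (EuclideanSpace.proj (𝕜 := ℝ) (2 : Fin 3) : E3 →L[ℝ] ℝ) x :=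
    (EuclideanSpace.proj (𝕜 := ℝ) (2 : Fin 3) : E3 →L[ℝ] ℝ).hasFDerivAt
  unfold pd
  rw [h.fderiv]
  rfl

theorem HalW_pd (δ : ℝ) (i : Fin 3) (x : E3) :
    pd i (cz δ) x = deriv Real.smoothTransition (x 2 / δ - 1) / δ * e i 2 := by
  have h := comp_pd (HalW_c2.of_le (by simp)) ((HalW_H_smooth δ).of_le (by simp) : ContDiff ℝ 1 (HalW_H δ)) i x
  rw [HalW_pd2, HalW_dH] at h
  exact h

theorem HalW_pdd (δ : ℝ) (i : Fin 3) (x : E3) :
    pd i (pd i (cz δ)) x = deriv (deriv Real.smoothTransition) (x 2 / δ - 1) / δ ^ 2 * e i 2 * e i 2 := by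
  have h0 : pd i (cz δ) = fun x : E3 => (fun s : ℝ => deriv (HalW_H δ) s * e i 2) (x 2) := by
    funext y
    rw [HalW_pd]
    show _ = deriv (HalW_H δ) (y 2) * e i 2
    rw [HalW_dH]
  have hs : ContDiff ℝ ∞ (deriv (HalW_H δ)) := (contDiff_infty_iff_deriv.1 (HalW_H_smooth δ)).2
  have hs1 : ContDiff ℝ 1 (fun s : ℝ => deriv (HalW_H δ) s * e i 2) :=
    (hs.mul contDiff_const).of_le (by simp)
  have h := comp_pd (HalW_c2.of_le (by simp)) hs1 i x
  rw [HalW_pd2] at h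
  have h2 : deriv (fun s : ℝ => deriv (HalW_H δ) s * e i 2) (x 2) =
      deriv (deriv (HalW_H δ)) (x 2) * e i 2 := by
    have h3 : HasDerivAt (deriv (HalW_H δ)) (deriv (deriv (HalW_H δ)) (x 2)) (x 2) :=
      (hs.differentiable (by simp) _).hasDerivAt
    exact (h3.mul_const (e i 2)).deriv
  rw [h2, HalW_ddH] at h
  rw [h0]
  exact h

theorem HalW_lap (δ : ℝ) (x : E3) :
    lap (cz δ) x = deriv (deriv Real.smoothTransition) (x 2 / δ - 1) / δ ^ 2 := by
  unfold lap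
  rw [Fin.sum_univ_three, HalW_pdd, HalW_pdd, HalW_pdd, e_apply, e_apply, e_apply]
  simp

theorem HalW_rdr (δ : ℝ) (x : E3) : rdr (cz δ) x = 0 := by
  unfold rdr
  rw [HalW_pd, HalW_pd, e_apply, e_apply]
  simp

theorem cz_zero {δ : ℝ} (hδ : 0 < δ) {x : E3} (hx : x 2 ≤ δ) : cz δ x = 0 := by
  unfold cz
  refine Real.smoothTransition.zero_of_nonpos ?_
  have : x 2 / δ ≤ 1 := (div_le_one hδ).2 hx
  linarith

theorem cz_one {δ : ℝ} (hδ : 0 < δ) {x : E3} (hx : 2 * δ ≤ x 2) : cz δ x = 1 := by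
  unfold cz
  refine Real.smoothTransition.one_of_one_le ?_
  have : 2 ≤ x 2 / δ := (le_div_iff₀ hδ).2 hx
  linarith

theorem cz_bd : ∃ C : ℝ, 0 < C ∧ ∀ δ : ℝ, 0 < δ → ∀ x : E3,
    (∀ i, i ≠ 2 → pd i (cz δ) x = 0) ∧ 0 ≤ pd 2 (cz δ) x ∧ pd 2 (cz δ) x ≤ C / δ ∧ |lap (cz δ) x| ≤ C / δ ^ 2 ∧ rdr (cz δ) x = 0 ∧
    (¬ (δ ≤ x 2 ∧ x 2 ≤ 2 * δ) → pd 2 (cz δ) x = 0 ∧ lap (cz δ) x = 0) := by
  obtain ⟨C, hC1, hb1, hb2, hg, hl⟩ := HalW_bd
  refine ⟨C, by linarith, fun δ hδ x => ?_⟩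
  have hδ2 : 0 < δ ^ 2 := by positivity
  have h2 : pd 2 (cz δ) x = deriv Real.smoothTransition (x 2 / δ - 1) / δ := by
    rw [HalW_pd, e_apply]
    simp
  have h0 : 0 ≤ deriv Real.smoothTransition (x 2 / δ - 1) := Real.smoothTransition.monotone.deriv_nonneg
  refine ⟨?_, ?_, ?_, ?_, HalW_rdr δ x, ?_⟩
  · intro i hi
    rw [HalW_pd, e_apply, if_neg (fun h => hi h.symm), mul_zero]
  · rw [h2]
    exact div_nonneg h0 hδ.le
  · rw [h2]
    exact div_le_div_of_nonneg_right ((le_abs_self _).trans (hb1 _)) hδ.le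
  · rw [HalW_lap, abs_div, abs_of_pos hδ2]
    exact div_le_div_of_nonneg_right (hb2 _) hδ2.le
  · intro hn
    rw [h2, HalW_lap]
    rcases lt_or_ge (x 2) δ with h3 | h3
    · have h4 : x 2 / δ - 1 < 0 := by
        have : x 2 / δ < 1 := (div_lt_one hδ).2 h3
        linarith
      rw [(hl _ h4).1, (hl _ h4).2]
      simp
    · have h5 : 2 * δ < x 2 := by
        by_contra hcon
        exact hn ⟨h3, not_lt.1 hcon⟩
      have h4 : 1 < x 2 / δ - 1 := by
        have : 2 < x 2 / δ := (lt_div_iff₀ hδ).2 h5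
        linarith
      rw [(hg _ h4).1, (hg _ h4).2]
      simp

theorem cz_wg {δ : ℝ} (hδ : 0 < δ) : Wg (cz δ) := by
  obtain ⟨C, hC0, hC⟩ := cz_bd
  have hδ2 : 0 < δ ^ 2 := by positivity
  refine ⟨(HalW_H_smooth δ).comp HalW_c2, fun x => Real.smoothTransition.nonneg _,
    fun x => Real.smoothTransition.le_one _, C / δ + C / δ ^ 2, fun x => ?_⟩
  obtain ⟨h1, h2, h3, h4, h5, -⟩ := hC δ hδ x
  have p1 : 0 < C / δ := by positivity
  have p2 : 0 < C / δ ^ 2 := by positivity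
  refine ⟨fun i => ?_, by linarith, ?_⟩
  · by_cases hi : i = 2
    · rw [hi, abs_of_nonneg h2]
      linarith
    · rw [h1 i hi, abs_zero]
      linarith
  · rw [h5, abs_zero]
    have : 0 ≤ rsq x := by
      unfold rsq
      positivity
    positivity

theorem cz_lim {δ : ℕ → ℝ} (hδ : ∀ n, 0 < δ n) (hl : Tendsto δ atTop (𝓝 0)) (x : E3) :
    Tendsto (fun n => cz (δ n) x) atTop (𝓝 (({x : E3 | 0 < x 2}.indicator (fun _ => (1 : ℝ))) x)) := by
  by_cases hx : 0 < x 2
  · rw [indicator_of_mem (show x ∈ {x : E3 | 0 < x 2} from hx)]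
    refine tendsto_const_nhds.congr' ?_
    have h1 : ∀ᶠ n in atTop, δ n < x 2 / 2 := hl.eventually_lt_const (by linarith)
    filter_upwards [h1] with n hn
    exact (cz_one (hδ n) (by linarith)).symm
  · rw [indicator_of_notMem (show x ∉ {x : E3 | 0 < x 2} from hx)]
    refine tendsto_const_nhds.congr fun n => ?_
    exact (cz_zero (hδ n) (by linarith [hδ n])).symm

end Pool.Agent.H72.CC
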