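/-
ROW PoiZ (MP_09540e_CC). Inequalities in the slab. PROOF of poiZ. For fixed horizontal part the function `w z = f (x₀, x₁, z)` satisfies `w 0 = 0`, `w' z = pd 2 f`, so `w z ^2 ≤ z ∫_0^z w'² ≤ d ∫_0^d w'²` for `0 < z < d` (Cauchy-Schwarz), and integrating over z: `∫_0^d w² ≤ d² ∫_0^d w'²`; integrate over `(x₀, x₁)`:
Fubini/Tonelli after splitting off the last coordinate (EuclideanSpace.volume_preserving_symm_measurableEquiv_toLp and MeasureTheory.volume_preserving_piFinSuccAbove (fun _ => ℝ) 2), best with lintegrals.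
PROOF of slab_lim: `x ↦ 1_{0 < x 2 < d} g x → 0` pointwise as `d → 0⁺` along the sequence, dominated by `|g|`.
-/
import Pool.Agent.H72.CC.VDefs

set_option autoImplicit false

open Set Filter Topology MeasureTheory
open scoped ContDiff

namespace Pool.Agent.H72.CC

open Pool.Agent.H16 Pool.Agent.H87.NS

private theorem pz_cs {g : ℝ → ℝ} (hg : Continuous g) {a : ℝ} (ha : 0 < a) :
    (∫ r in (0:ℝ)..a, g r) ^ 2 ≤ a * ∫ r in (0:ℝ)..a, g r ^ 2 := by
  set I := ∫ r in (0:ℝ)..a, g r with hI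
  set m := I / a with hm
  have h1 : 0 ≤ ∫ r in (0:ℝ)..a, (g r - m) ^ 2 :=
    intervalIntegral.integral_nonneg ha.le fun r _ => sq_nonneg _
  have h2 : ∫ r in (0:ℝ)..a, (g r - m) ^ 2 =
      (∫ r in (0:ℝ)..a, g r ^ 2) - 2 * m * I + m ^ 2 * a := by
    have e1 : ∀ r, (g r - m) ^ 2 = (g r ^ 2 - 2 * m * g r) + m ^ 2 := fun r => by ring
    simp_rw [e1]
    have c1 : Continuous fun r => g r ^ 2 := hg.pow 2
    have c2 : Continuous fun r => 2 * m * g r := continuous_const.mul hg
    have c3 : Continuous fun r => g r ^ 2 - 2 * m * g r := c1.sub c2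
    have c4 : Continuous fun _ : ℝ => m ^ 2 := continuous_const
    rw [intervalIntegral.integral_add (c3.intervalIntegrable _ _) (c4.intervalIntegrable _ _),
      intervalIntegral.integral_sub (c1.intervalIntegrable _ _) (c2.intervalIntegrable _ _),
      intervalIntegral.integral_const_mul, intervalIntegral.integral_const]
    simp only [sub_zero, smul_eq_mul]
    ring
  rw [h2] at h1
  have h3 : m * a = I := by rw [hm]; field_simp
  have h4 : 0 ≤ a * ((∫ r in (0:ℝ)..a, g r ^ 2) - 2 * m * I + m ^ 2 * a) := mul_nonneg ha.le h1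
  have h5 : a * ((∫ r in (0:ℝ)..a, g r ^ 2) - 2 * m * I + m ^ 2 * a) =
      a * (∫ r in (0:ℝ)..a, g r ^ 2) - I ^ 2 := by
    have : a * ((∫ r in (0:ℝ)..a, g r ^ 2) - 2 * m * I + m ^ 2 * a) =
      a * (∫ r in (0:ℝ)..a, g r ^ 2) - 2 * (m * a) * I + (m * a) ^ 2 := by ring
    rw [this, h3]; ring
  rw [h5] at h4
  linarith

private theorem pz_meas (d : ℝ) : MeasurableSet {x : E3 | 0 < x 2 ∧ x 2 < d} := by
  have hc : Continuous fun x : E3 => x 2 := continuous_coord 2
  exact ((isOpen_lt continuous_const hc).inter (isOpen_lt hc continuous_const)).measurableSet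

private theorem pz_coord (x : E3) (r : ℝ) : (x - r • e 2) 2 = x 2 - r := by
  simp [e]

private theorem pz_pt {f : E3 → ℝ} (hf : ContDiff ℝ 1 f) (h0 : ∀ x : E3, x 2 = 0 → f x = 0)
    {x : E3} (hx : 0 < x 2) :
    f x ^ 2 ≤ x 2 * ∫ r in (0:ℝ)..(x 2), pd 2 f (x - r • e 2) ^ 2 := by
  have hline : ∀ r : ℝ, HasDerivAt (fun r : ℝ => x - r • e 2) (-(e 2)) r := by
    intro r
    have := ((hasDerivAt_id r).smul_const (e 2)).const_sub x
    simpa using this
  have hd : ∀ r : ℝ, HasDerivAt (fun r : ℝ => - f (x - r • e 2)) (pd 2 f (x - r • e 2)) r := by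
    intro r
    have h1 := ((hf.differentiable (by norm_num) _).hasFDerivAt).comp_hasDerivAt r (hline r)
    have h2 := h1.neg
    have h3 : -(fderiv ℝ f (x - r • e 2)) (-(e 2)) = pd 2 f (x - r • e 2) := by
      rw [map_neg, neg_neg]; rfl
    rw [h3] at h2
    exact h2
  have hl : Continuous fun r : ℝ => x - r • e 2 := by fun_prop
  have hc : Continuous fun r : ℝ => pd 2 f (x - r • e 2) :=
    ((hf.continuous_fderiv (by norm_num)).comp hl).clm_apply continuous_const
  have h1 : ∫ r in (0:ℝ)..(x 2), pd 2 f (x - r • e 2) = f x := by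
    rw [intervalIntegral.integral_eq_sub_of_hasDerivAt (fun r _ => hd r)
      (hc.intervalIntegrable _ _)]
    have h2 : f (x - x 2 • e 2) = 0 := by
      apply h0
      rw [pz_coord, sub_self]
    rw [h2, zero_smul, sub_zero]
    ring
  calc f x ^ 2 = (∫ r in (0:ℝ)..(x 2), pd 2 f (x - r • e 2)) ^ 2 := by rw [h1]
    _ ≤ _ := pz_cs hc hx

theorem poiZ {f : E3 → ℝ} {K : ℝ} (hf : ContDiff ℝ 1 f) (h : DB 1 K f) (h0 : ∀ x : E3, x 2 = 0 → f x = 0) {d : ℝ} (hd : 0 < d) :
    ∫ x in {x : E3 | 0 < x 2 ∧ x 2 < d}, f x ^ 2 ≤ d ^ 2 * ∫ x in {x : E3 | 0 < x 2 ∧ x 2 < d}, pd 2 f x ^ 2 := by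
  set S : Set E3 := {x : E3 | 0 < x 2 ∧ x 2 < d} with hS
  have hSm : MeasurableSet S := pz_meas d
  have hi1 : Integrable (fun x => f x ^ 2) := h.1.2.1
  have hi2 : Integrable (fun x => pd 2 f x ^ 2) := (h.2 2).2.1
  have hpc : Continuous fun x => pd 2 f x :=
    (hf.continuous_fderiv (by norm_num)).clm_apply continuous_const
  have hGm : Measurable fun x => ENNReal.ofReal (pd 2 f x ^ 2) :=
    ENNReal.measurable_ofReal.comp (hpc.pow 2).measurable
  set H : E3 → ENNReal := S.indicator fun x => ENNReal.ofReal (pd 2 f x ^ 2) with hH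
  have hHm : Measurable H := hGm.indicator hSm
  have key : ∀ x ∈ S, ENNReal.ofReal (f x ^ 2) ≤
      ENNReal.ofReal d * ∫⁻ r in Ioo 0 d, H (x - r • e 2) := by
    intro x hx
    have hl : Continuous fun r : ℝ => x - r • e 2 := by fun_prop
    have hc : Continuous fun r : ℝ => pd 2 f (x - r • e 2) ^ 2 := (hpc.comp hl).pow 2
    have hnn : 0 ≤ ∫ r in (0:ℝ)..(x 2), pd 2 f (x - r • e 2) ^ 2 :=
      intervalIntegral.integral_nonneg hx.1.le fun r _ => sq_nonneg _
    have h1 : f x ^ 2 ≤ d * ∫ r in (0:ℝ)..(x 2), pd 2 f (x - r • e 2) ^ 2 :=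
      (pz_pt hf h0 hx.1).trans (mul_le_mul_of_nonneg_right hx.2.le hnn)
    refine (ENNReal.ofReal_le_ofReal h1).trans ?_
    rw [ENNReal.ofReal_mul hd.le]
    refine mul_le_mul_right ?_ _
    rw [intervalIntegral.integral_of_le hx.1.le, integral_Ioc_eq_integral_Ioo,
      ofReal_integral_eq_lintegral_ofReal
        ((hc.integrableOn_Icc (a := 0) (b := x 2)).mono_set Ioo_subset_Icc_self)
        (Eventually.of_forall fun r => sq_nonneg _)]
    calc ∫⁻ r in Ioo 0 (x 2), ENNReal.ofReal (pd 2 f (x - r • e 2) ^ 2)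
        = ∫⁻ r in Ioo 0 (x 2), H (x - r • e 2) := by
          refine setLIntegral_congr_fun measurableSet_Ioo fun r hr => ?_
          have hin : x - r • e 2 ∈ S := by
            constructor
            · rw [pz_coord]; linarith [hr.2]
            · rw [pz_coord]; linarith [hr.1, hx.2]
          rw [hH]
          exact (Set.indicator_of_mem hin (fun x => ENNReal.ofReal (pd 2 f x ^ 2))).symm
      _ ≤ _ := lintegral_mono_set (Ioo_subset_Ioo_right hx.2.le)
  have hsub : Measurable fun q : E3 × ℝ => H (q.1 - q.2 • e 2) := by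
    have hc : Continuous fun q : E3 × ℝ => q.1 - q.2 • e 2 := by fun_prop
    exact hHm.comp hc.measurable
  have main : ∫⁻ x in S, ENNReal.ofReal (f x ^ 2) ≤
      ENNReal.ofReal d * (ENNReal.ofReal d * ∫⁻ x in S, ENNReal.ofReal (pd 2 f x ^ 2)) := by
    calc ∫⁻ x in S, ENNReal.ofReal (f x ^ 2)
        ≤ ∫⁻ x in S, ENNReal.ofReal d * ∫⁻ r in Ioo 0 d, H (x - r • e 2) :=
          setLIntegral_mono' hSm key
      _ ≤ ∫⁻ x, ENNReal.ofReal d * ∫⁻ r in Ioo 0 d, H (x - r • e 2) :=
          setLIntegral_le_lintegral _ _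
      _ = ENNReal.ofReal d * ∫⁻ x, ∫⁻ r in Ioo 0 d, H (x - r • e 2) :=
          lintegral_const_mul' _ _ ENNReal.ofReal_ne_top
      _ = ENNReal.ofReal d * ∫⁻ r in Ioo 0 d, ∫⁻ x, H (x - r • e 2) := by
          rw [lintegral_lintegral_swap]
          exact hsub.aemeasurable
      _ = ENNReal.ofReal d * ∫⁻ r in Ioo 0 d, ∫⁻ x, H x := by
          congr 1
          refine lintegral_congr fun r => ?_
          exact lintegral_sub_right_eq_self H (r • e 2)
      _ = ENNReal.ofReal d * (ENNReal.ofReal d * ∫⁻ x in S, ENNReal.ofReal (pd 2 f x ^ 2)) := by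
          rw [lintegral_const, Measure.restrict_apply_univ, Real.volume_Ioo, sub_zero, hH,
            lintegral_indicator hSm, mul_comm (∫⁻ x in S, _)]
  rw [← ofReal_integral_eq_lintegral_ofReal hi1.integrableOn
      (Eventually.of_forall fun r => sq_nonneg _),
    ← ofReal_integral_eq_lintegral_ofReal hi2.integrableOn
      (Eventually.of_forall fun r => sq_nonneg _), ← mul_assoc,
    ← ENNReal.ofReal_mul hd.le, ← ENNReal.ofReal_mul (mul_nonneg hd.le hd.le)] at main
  have hnn : 0 ≤ ∫ x in S, pd 2 f x ^ 2 := setIntegral_nonneg hSm fun x _ => sq_nonneg _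
  rw [ENNReal.ofReal_le_ofReal_iff (mul_nonneg (mul_nonneg hd.le hd.le) hnn)] at main
  rw [_root_.sq d]
  exact main

theorem slab_lim {g : E3 → ℝ} (hg : Integrable g) {d : ℕ → ℝ} (hd : ∀ n, 0 < d n) (hl : Tendsto d atTop (𝓝 0)) :
    Tendsto (fun n => ∫ x in {x : E3 | 0 < x 2 ∧ x 2 < d n}, g x) atTop (𝓝 0) := by
  have h1 : ∀ n, ∫ x in {x : E3 | 0 < x 2 ∧ x 2 < d n}, g x =
      ∫ x, ({x : E3 | 0 < x 2 ∧ x 2 < d n}).indicator g x := fun n =>
    (integral_indicator (pz_meas (d n))).symm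
  simp_rw [h1]
  have h2 : Tendsto (fun n => ∫ x, ({x : E3 | 0 < x 2 ∧ x 2 < d n}).indicator g x) atTop
      (𝓝 (∫ x : E3, (0 : ℝ))) := by
    refine tendsto_integral_of_dominated_convergence (fun x => ‖g x‖) ?_ hg.norm ?_ ?_
    · intro n
      exact (hg.indicator (pz_meas (d n))).aestronglyMeasurable
    · intro n
      exact Eventually.of_forall fun x => norm_indicator_le_norm_self g x
    · refine Eventually.of_forall fun x => ?_
      rcases le_or_gt (x 2) 0 with hx | hx
      · refine tendsto_const_nhds.congr fun n => ?_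
        rw [Set.indicator_of_notMem]
        rintro ⟨h3, _⟩
        linarith
      · refine tendsto_const_nhds.congr' ?_
        filter_upwards [hl.eventually (gt_mem_nhds hx)] with n hn
        rw [Set.indicator_of_notMem]
        rintro ⟨_, h3⟩
        linarith
  simpa using h2

end Pool.Agent.H72.CC
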