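/-
ROW HalE (MP_09540e_CC). Evolution in the half space `H = {0 < x 2}`. PROOF. Let `δ n = 1/(n+1)`, `χ = cz (δ n)`, evg (NC/EVg.lean): `∫ j(f b) χ ≤ ∫ j(f a) χ + ∫_a^b ∫ evJ j (u t) (f t) (G t) χ`, and
`evJ = - j'' gsq f χ + j'(f) G χ + j(f) (adv u χ + lap χ - 2/rsq rdr χ) ≤ j'(f) G χ + |j(f)| (|u₂| |pd 2 χ| + |lap χ|)` (cz_bd). `|f t| ≤ K`, so `|j(f)| ≤ C f²` (jfun_bd in NS/JF.lean), on `δ ≤ x 2 ≤ 2δ` `|u₂| |pd 2 χ| ≤ K₂ 2δ C/δ`, `|lap χ| ≤ C/δ²`. So the error is at most `C' δ⁻² ∫_{0<x 2<3δ} f² ≤ 9 C' ∫_{0 < x 2 < 3δ} (pd 2 f)²`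
(poiZ, `δ ≤ 1`), which tends to 0 for each t (slab_lim) and is bounded by `9 C' K` on `[a,b]`: its time integral tends to 0 (dominated convergence; measurability in time as in BalI/EVg_am). The other terms: `∫ j(f b) χ → ∫_H j(f b)`, `∫_a^b ∫ j'(f) G χ → ∫_a^b ∫_H j'(f) G` by dominated
convergence (cz_lim; `j(f t)`, `j'(f t) G t` are integrable with integral of the absolute value bounded on [a,b]: evo_bd in NS/EvInt.lean; evo_jc for JC; EVg_tail has the model argument). half_int: evo_int, evo_bd, evo_jc, restricted to H.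
-/
import Pool.Agent.H72.CC.PoiZ
import Pool.Agent.H72.CC.HalW
import Pool.Agent.H87.NC.EVg

set_option autoImplicit false

open Set Filter Topology MeasureTheory
open scoped ContDiff

namespace Pool.Agent.H72.CC

open Pool.Agent.H16 Pool.Agent.H87.NS

variable {T : ℝ} {u : ℝ → E3 → E3} {f G : ℝ → E3 → ℝ}

private def HalE_AM (a b : ℝ) (Φ : ℝ → E3 → ℝ) : Prop :=
  AEStronglyMeasurable (fun q : ℝ × E3 => Φ q.1 q.2) ((volume.restrict (Icc a b)).prod volume)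

private theorem HalE_am {Φ : ℝ → E3 → ℝ} (hΦ : JC T Φ) {a b : ℝ} (ha : 0 ≤ a) (hb : b < T) :
    HalE_AM a b Φ := by
  have hsub : Icc a b ×ˢ (univ : Set E3) ⊆ Ico 0 T ×ˢ univ :=
    Set.prod_mono (fun t ht => ⟨ha.trans ht.1, ht.2.trans_lt hb⟩) (le_refl _)
  have h1 : AEStronglyMeasurable (fun q : ℝ × E3 => Φ q.1 q.2)
      ((volume : Measure (ℝ × E3)).restrict (Icc a b ×ˢ univ)) :=
    (ContinuousOn.mono hΦ hsub).aestronglyMeasurable (measurableSet_Icc.prod MeasurableSet.univ)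
  rw [Measure.volume_eq_prod, ← Measure.prod_restrict, Measure.restrict_univ] at h1
  exact h1

private theorem HalE_bound {Φ : E3 → ℝ} {K : ℝ} (h2 : ∫ x, |Φ x| ≤ K) : ‖∫ x, Φ x‖ ≤ K := by
  refine (norm_integral_le_integral_norm _).trans ?_
  simp only [Real.norm_eq_abs]
  exact h2

private theorem HalE_mulb {Φ : E3 → ℝ} {K : ℝ} (hi : Integrable Φ) (hK : ∫ x, |Φ x| ≤ K) {φ : E3 → ℝ}
    (hφ : Measurable φ) (hφ1 : ∀ x, |φ x| ≤ 1) :
    Integrable (fun x => Φ x * φ x) ∧ ∫ x, |Φ x * φ x| ≤ K := by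
  have hle : ∀ x, |Φ x * φ x| ≤ |Φ x| := by
    intro x
    rw [abs_mul]
    exact mul_le_of_le_one_right (abs_nonneg _) (hφ1 x)
  have h1 : Integrable (fun x => Φ x * φ x) :=
    hi.abs.mono' (hi.aestronglyMeasurable.mul hφ.aestronglyMeasurable) (ae_of_all _ fun x => by
      rw [Real.norm_eq_abs]
      exact hle x)
  exact ⟨h1, (integral_mono h1.abs hi.abs hle).trans hK⟩

private theorem HalE_ti {Φ : ℝ → E3 → ℝ} {a b K : ℝ} (hab : a ≤ b) (hΦ : HalE_AM a b Φ)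
    (h : ∀ t ∈ Icc a b, Integrable (Φ t) ∧ ∫ x, |Φ t x| ≤ K) {φ : E3 → ℝ}
    (hφ : Measurable φ) (hφ1 : ∀ x, |φ x| ≤ 1) :
    IntervalIntegrable (fun t => ∫ x, Φ t x * φ x) volume a b := by
  rw [intervalIntegrable_iff_integrableOn_Icc_of_le hab]
  have hm1 : AEStronglyMeasurable (fun q : ℝ × E3 => Φ q.1 q.2 * φ q.2)
      ((volume.restrict (Icc a b)).prod volume) :=
    AEStronglyMeasurable.mul hΦ (hφ.comp measurable_snd).aestronglyMeasurable
  have hm : AEStronglyMeasurable (fun t => ∫ x, Φ t x * φ x) (volume.restrict (Icc a b)) :=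
    AEStronglyMeasurable.integral_prod_right' hm1
  refine Integrable.of_bound hm K ?_
  exact ae_restrict_of_forall_mem measurableSet_Icc fun t ht =>
    HalE_bound (HalE_mulb (h t ht).1 (h t ht).2 hφ hφ1).2

private theorem HalE_tail {Φ : ℝ → E3 → ℝ} {a b K : ℝ} (hab : a ≤ b) (hΦ : HalE_AM a b Φ)
    (h : ∀ t ∈ Icc a b, Integrable (Φ t) ∧ ∫ x, |Φ t x| ≤ K)
    {φ : ℕ → E3 → ℝ} {ψ : E3 → ℝ} (hφ : ∀ n, Measurable (φ n)) (hφ1 : ∀ n x, |φ n x| ≤ 1)
    (hφl : ∀ x, Tendsto (fun n => φ n x) atTop (𝓝 (ψ x))) :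
    Tendsto (fun n => ∫ t in a..b, ∫ x, Φ t x * φ n x) atTop (𝓝 (∫ t in a..b, ∫ x, Φ t x * ψ x)) := by
  refine intervalIntegral.tendsto_integral_filter_of_dominated_convergence (fun _ => K) ?_ ?_ ?_ ?_
  · refine Eventually.of_forall fun n => ?_
    have h1 := (HalE_ti hab hΦ h (hφ n) (hφ1 n)).aestronglyMeasurable
    rw [uIoc_of_le hab]
    exact h1
  · refine Eventually.of_forall fun n => ae_of_all _ fun t ht => ?_
    rw [uIoc_of_le hab] at ht
    have ht' : t ∈ Icc a b := ⟨ht.1.le, ht.2⟩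
    exact HalE_bound (HalE_mulb (h t ht').1 (h t ht').2 (hφ n) (hφ1 n)).2
  · exact intervalIntegrable_const
  · refine ae_of_all _ fun t ht => ?_
    rw [uIoc_of_le hab] at ht
    have ht' : t ∈ Icc a b := ⟨ht.1.le, ht.2⟩
    refine tendsto_integral_of_dominated_convergence (fun x => |Φ t x|) ?_ (h t ht').1.abs ?_ ?_
    · intro n
      exact (h t ht').1.aestronglyMeasurable.mul (hφ n).aestronglyMeasurable
    · intro n
      refine ae_of_all _ fun x => ?_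
      rw [Real.norm_eq_abs, abs_mul]
      exact mul_le_of_le_one_right (abs_nonneg _) (hφ1 n x)
    · exact ae_of_all _ fun x => (hφl x).const_mul (Φ t x)

private theorem HalE_set {S : Set E3} (hS : MeasurableSet S) (g : E3 → ℝ) :
    ∫ x in S, g x = ∫ x, g x * S.indicator (fun _ => (1 : ℝ)) x := by
  rw [← integral_indicator hS]
  refine integral_congr_ae (ae_of_all _ fun x => ?_)
  by_cases hx : x ∈ S
  · simp [hx]
  · simp [hx]

private theorem HalE_ind_meas {S : Set E3} (hS : MeasurableSet S) :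
    Measurable (S.indicator (fun _ => (1 : ℝ))) := measurable_const.indicator hS

private theorem HalE_ind_le (S : Set E3) (x : E3) : |S.indicator (fun _ => (1 : ℝ)) x| ≤ 1 := by
  by_cases hx : x ∈ S
  · simp [hx]
  · simp [hx]

theorem half_int (hf : Evo T u f G) {j : ℝ → ℝ} (hj : JFun j) {S : Set E3} (hS : MeasurableSet S) {a b : ℝ} (ha : 0 ≤ a) (hab : a ≤ b) (hb : b < T) :
    IntegrableOn (fun x => j (f b x)) S ∧ IntervalIntegrable (fun t => ∫ x in S, deriv j (f t x) * G t x) volume a b := by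
  refine ⟨(evo_int hf hj ⟨ha.trans hab, hb⟩).1.integrableOn, ?_⟩
  obtain ⟨K, hK⟩ := evo_bd hf hj hb
  have hJ := (evo_jc hf hj).2.2.1
  simp only [HalE_set hS]
  exact HalE_ti (Φ := fun t x => deriv j (f t x) * G t x) hab (HalE_am hJ ha hb)
    (fun t ht => (hK t ⟨ha.trans ht.1, ht.2⟩).2.2) (HalE_ind_meas hS) (HalE_ind_le S)

private theorem HalE_coord_meas (c d : ℝ) : MeasurableSet {x : E3 | c < x 2 ∧ x 2 < d} := by
  have h2 : Measurable fun x : E3 => x 2 := (continuous_coord 2).measurable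
  exact (measurableSet_lt measurable_const h2).inter (measurableSet_lt h2 measurable_const)

private theorem HalE_half_meas : MeasurableSet {x : E3 | 0 < x 2} :=
  measurableSet_lt measurable_const (continuous_coord 2).measurable

/-- the integrand, pointwise -/
private theorem HalE_pt {C K₂ Cj δ : ℝ} (hC : 0 < C) (hCj : 0 ≤ Cj) (hδ : 0 < δ) (hδ1 : δ ≤ 1)
    {x : E3} (hcz : (∀ i, i ≠ 2 → pd i (cz δ) x = 0) ∧ 0 ≤ pd 2 (cz δ) x ∧ pd 2 (cz δ) x ≤ C / δ ∧
      |lap (cz δ) x| ≤ C / δ ^ 2 ∧ rdr (cz δ) x = 0 ∧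
      (¬ (δ ≤ x 2 ∧ x 2 ≤ 2 * δ) → pd 2 (cz δ) x = 0 ∧ lap (cz δ) x = 0)) (hcz0 : 0 ≤ cz δ x)
    {j : ℝ → ℝ} (hj : JFun j) {v : E3 → E3} (hv : |v x 2| ≤ K₂ * |x 2|) {f G : E3 → ℝ}
    (hjf : j (f x) ≤ Cj * f x ^ 2) :
    evJ j v f G (cz δ) x ≤ deriv j (f x) * G x * cz δ x +
      Cj * (2 * |K₂| * C + C) / δ ^ 2 * (f x ^ 2 * {x : E3 | 0 < x 2 ∧ x 2 < 3 * δ}.indicator (fun _ => (1 : ℝ)) x) := by
  obtain ⟨h1, h2, h3, h4, h5, h6⟩ := hcz
  have hadv : adv (v x) (cz δ) x = v x 2 * pd 2 (cz δ) x := by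
    unfold adv
    rw [Fin.sum_univ_three, h1 0 (by decide), h1 1 (by decide)]
    ring
  have hgs : 0 ≤ deriv (deriv j) (f x) * gsq f x * cz δ x :=
    mul_nonneg (mul_nonneg (hj.convex _) (gsq_nonneg _ _)) hcz0
  have hj0 := jfun_nonneg hj (f x)
  unfold evJ
  rw [hadv, h5, mul_zero, sub_zero]
  have key : j (f x) * (v x 2 * pd 2 (cz δ) x + lap (cz δ) x) ≤
      Cj * (2 * |K₂| * C + C) / δ ^ 2 * (f x ^ 2 * {x : E3 | 0 < x 2 ∧ x 2 < 3 * δ}.indicator (fun _ => (1 : ℝ)) x) := by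
    by_cases hx : δ ≤ x 2 ∧ x 2 ≤ 2 * δ
    · have hmem : x ∈ {x : E3 | 0 < x 2 ∧ x 2 < 3 * δ} := ⟨by linarith [hx.1], by linarith [hx.2]⟩
      rw [indicator_of_mem hmem, mul_one]
      have hx2 : |x 2| ≤ 2 * δ := by
        rw [abs_of_nonneg (by linarith [hx.1])]
        exact hx.2
      have hv2 : |v x 2| ≤ |K₂| * (2 * δ) :=
        hv.trans (mul_le_mul (le_abs_self _) hx2 (abs_nonneg _) (abs_nonneg _))
      have h7 : v x 2 * pd 2 (cz δ) x ≤ 2 * |K₂| * C / δ ^ 2 := by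
        calc v x 2 * pd 2 (cz δ) x ≤ |v x 2| * pd 2 (cz δ) x :=
              mul_le_mul_of_nonneg_right (le_abs_self _) h2
          _ ≤ |K₂| * (2 * δ) * (C / δ) := mul_le_mul hv2 h3 h2 (by positivity)
          _ = 2 * |K₂| * C * 1 := by field_simp
          _ ≤ 2 * |K₂| * C * (1 / δ ^ 2) := by
              refine mul_le_mul_of_nonneg_left ?_ (by positivity)
              rw [le_div_iff₀ (by positivity), one_mul]
              exact pow_le_one₀ hδ.le hδ1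
          _ = 2 * |K₂| * C / δ ^ 2 := by ring
      have h8 : v x 2 * pd 2 (cz δ) x + lap (cz δ) x ≤ (2 * |K₂| * C + C) / δ ^ 2 := by
        rw [add_div]
        exact add_le_add h7 ((le_abs_self _).trans h4)
      calc j (f x) * (v x 2 * pd 2 (cz δ) x + lap (cz δ) x) ≤ j (f x) * ((2 * |K₂| * C + C) / δ ^ 2) :=
            mul_le_mul_of_nonneg_left h8 hj0
        _ ≤ Cj * f x ^ 2 * ((2 * |K₂| * C + C) / δ ^ 2) := mul_le_mul_of_nonneg_right hjf (by positivity)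
        _ = Cj * (2 * |K₂| * C + C) / δ ^ 2 * f x ^ 2 := by ring
    · obtain ⟨h7, h8⟩ := h6 hx
      rw [h7, h8, mul_zero, add_zero, mul_zero]
      refine mul_nonneg (by positivity) (mul_nonneg (sq_nonneg _) ?_)
      exact indicator_nonneg (fun _ _ => zero_le_one) x
  linarith

theorem half_ev (hu : Drift T u) (hf : Evo T u f G) (h0 : ∀ t ∈ Ico 0 T, ∀ x : E3, x 2 = 0 → f t x = 0) {a b K₂ : ℝ}
    (ha : 0 ≤ a) (hab : a ≤ b) (hb : b < T) (hu2 : ∀ t ∈ Icc a b, ∀ x, |u t x 2| ≤ K₂ * |x 2|) {j : ℝ → ℝ} (hj : JFun j) :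
    ∫ x in {x : E3 | 0 < x 2}, j (f b x) ≤ (∫ x in {x : E3 | 0 < x 2}, j (f a x)) +
      ∫ t in a..b, ∫ x in {x : E3 | 0 < x 2}, deriv j (f t x) * G t x := by
  obtain ⟨C, hC, hcz⟩ := cz_bd
  obtain ⟨K, hK⟩ := hf.bd b hb
  obtain ⟨K', hK'⟩ := evo_bd hf hj hb
  obtain ⟨Cj, hCj, hjb⟩ := jfun_bd hj K
  obtain ⟨δ, hδd⟩ : ∃ δ : ℕ → ℝ, δ = fun n : ℕ => 1 / ((n : ℝ) + 1) := ⟨_, rfl⟩
  have hδ : ∀ n, 0 < δ n := fun n => by
    rw [hδd]
    positivity
  have hδ1 : ∀ n, δ n ≤ 1 := fun n => by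
    rw [hδd]
    show 1 / ((n : ℝ) + 1) ≤ 1
    rw [div_le_one (by positivity)]
    have : (0 : ℝ) ≤ n := Nat.cast_nonneg n
    linarith
  have hδl : Tendsto δ atTop (𝓝 0) := by
    rw [hδd]
    exact tendsto_one_div_add_atTop_nhds_zero_nat (𝕜 := ℝ)
  have hIco : ∀ t ∈ Icc a b, t ∈ Ico 0 T := fun t ht => ⟨ha.trans ht.1, ht.2.trans_lt hb⟩
  have hI0 : ∀ t ∈ Icc a b, t ∈ Icc 0 b := fun t ht => ⟨ha.trans ht.1, ht.2⟩
  have hwg : ∀ n, Wg (cz (δ n)) := fun n => cz_wg (hδ n)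
  have hczm : ∀ n, Measurable (cz (δ n)) := fun n => (hwg n).smooth.continuous.measurable
  have hcz1 : ∀ n x, |cz (δ n) x| ≤ 1 := fun n x =>
    abs_le.2 ⟨by linarith [(hwg n).nonneg x], (hwg n).le_one x⟩
  obtain ⟨D, hD⟩ : ∃ D : ℝ, D = Cj * (2 * |K₂| * C + C) := ⟨_, rfl⟩
  have hD0 : 0 ≤ D := by
    rw [hD]
    positivity
  -- the slabs
  have hslm : ∀ n, MeasurableSet {x : E3 | 0 < x 2 ∧ x 2 < 3 * δ n} := fun n => HalE_coord_meas _ _
  have hJ3 := (evo_jc hf hj).2.2.1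
  have hJp : JC T (fun t x => pd 2 (f t) x ^ 2) := JC_comp (hf.contd 2) (H := fun s => s ^ 2) (by fun_prop)
  have hP : ∀ t ∈ Icc a b, Integrable (fun x => pd 2 (f t) x ^ 2) ∧ ∫ x, |pd 2 (f t) x ^ 2| ≤ K := by
    intro t ht
    have h1 := ((hK t (hI0 t ht)).1.2 2).2
    refine ⟨h1.1, ?_⟩
    have h2 : (fun x => |pd 2 (f t) x ^ 2|) = fun x => pd 2 (f t) x ^ 2 :=
      funext fun x => abs_of_nonneg (sq_nonneg _)
    rw [h2]
    exact h1.2
  have hGb : ∀ t ∈ Icc a b, Integrable (fun x => deriv j (f t x) * G t x) ∧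
      ∫ x, |deriv j (f t x) * G t x| ≤ K' := fun t ht => (hK' t (hI0 t ht)).2.2
  have step : ∀ n, (∫ x, j (f b x) * cz (δ n) x) ≤ (∫ x, j (f a x) * cz (δ n) x) +
      ((∫ t in a..b, ∫ x, (deriv j (f t x) * G t x) * cz (δ n) x) +
      9 * D * ∫ t in a..b, ∫ x, pd 2 (f t) x ^ 2 *
        {x : E3 | 0 < x 2 ∧ x 2 < 3 * δ n}.indicator (fun _ => (1 : ℝ)) x) := by
    intro n
    have h1 := evg hu hf hj (hwg n) ha hab hb
    obtain ⟨h2, h3⟩ := evg_ii hu hf hj (hwg n) ha hab hb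
    have i1 : IntervalIntegrable (fun t => ∫ x, (deriv j (f t x) * G t x) * cz (δ n) x) volume a b :=
      HalE_ti (Φ := fun t x => deriv j (f t x) * G t x) hab (HalE_am hJ3 ha hb) hGb (hczm n) (hcz1 n)
    have i2 : IntervalIntegrable (fun t => ∫ x, pd 2 (f t) x ^ 2 *
        {x : E3 | 0 < x 2 ∧ x 2 < 3 * δ n}.indicator (fun _ => (1 : ℝ)) x) volume a b :=
      HalE_ti (Φ := fun t x => pd 2 (f t) x ^ 2) hab (HalE_am hJp ha hb) hP (HalE_ind_meas (hslm n))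
        (HalE_ind_le _)
    refine h1.trans (add_le_add le_rfl ?_)
    rw [← intervalIntegral.integral_const_mul, ← intervalIntegral.integral_add i1 (i2.const_mul _)]
    refine intervalIntegral.integral_mono_on hab h2 (i1.add (i2.const_mul _)) fun t ht => ?_
    have hfd := (hK t (hI0 t ht)).1
    have hfs : ContDiff ℝ 1 (f t) := (hf.smooth t (hIco t ht)).of_le (by simp)
    have hfi : Integrable (fun x => f t x ^ 2) := (DB_BL hfd).2.1
    have hfi2 : Integrable (fun x => f t x ^ 2 *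
        {x : E3 | 0 < x 2 ∧ x 2 < 3 * δ n}.indicator (fun _ => (1 : ℝ)) x) :=
      (HalE_mulb hfi le_rfl (HalE_ind_meas (hslm n)) (HalE_ind_le _)).1
    have hgi := (HalE_mulb (hGb t ht).1 (hGb t ht).2 (hczm n) (hcz1 n)).1
    have hpoi := poiZ hfs hfd (h0 t (hIco t ht)) (d := 3 * δ n) (by have := hδ n; positivity)
    rw [HalE_set (hslm n), HalE_set (hslm n)] at hpoi
    have h4 : (∫ x, evJ j (u t) (f t) (G t) (cz (δ n)) x) ≤ ∫ x, (deriv j (f t x) * G t x * cz (δ n) x +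
        D / δ n ^ 2 * (f t x ^ 2 * {x : E3 | 0 < x 2 ∧ x 2 < 3 * δ n}.indicator (fun _ => (1 : ℝ)) x)) := by
      refine integral_mono (h3 t ht) (hgi.add (hfi2.const_mul _)) fun x => ?_
      rw [hD]
      exact HalE_pt hC hCj (hδ n) (hδ1 n) (hcz (δ n) (hδ n) x) ((hwg n).nonneg x) hj (hu2 t ht x)
        (hjb _ ((DB_BL hfd).1 x)).1
    rw [integral_add hgi (hfi2.const_mul _), integral_const_mul] at h4
    refine h4.trans (add_le_add le_rfl ?_)
    have h5 := mul_le_mul_of_nonneg_left hpoi (show 0 ≤ D / δ n ^ 2 by positivity)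
    refine h5.trans (le_of_eq ?_)
    have h6 : D / δ n ^ 2 * (3 * δ n) ^ 2 = 9 * D := by
      have := (hδ n).ne'
      field_simp
      ring
    rw [← mul_assoc, h6]
  -- limits
  have hl1 : ∀ t ∈ Icc a b, Tendsto (fun n => ∫ x, j (f t x) * cz (δ n) x) atTop
      (𝓝 (∫ x in {x : E3 | 0 < x 2}, j (f t x))) := by
    intro t ht
    rw [HalE_set HalE_half_meas]
    have h1 := (hK' t (hI0 t ht)).1.1
    refine tendsto_integral_of_dominated_convergence (fun x => |j (f t x)|) ?_ h1.abs ?_ ?_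
    · intro n
      exact h1.aestronglyMeasurable.mul (hczm n).aestronglyMeasurable
    · intro n
      refine ae_of_all _ fun x => ?_
      rw [Real.norm_eq_abs, abs_mul]
      exact mul_le_of_le_one_right (abs_nonneg _) (hcz1 n x)
    · exact ae_of_all _ fun x => (cz_lim hδ hδl x).const_mul _
  have hl2 : Tendsto (fun n => ∫ t in a..b, ∫ x, (deriv j (f t x) * G t x) * cz (δ n) x) atTop
      (𝓝 (∫ t in a..b, ∫ x in {x : E3 | 0 < x 2}, deriv j (f t x) * G t x)) := by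
    simp only [HalE_set HalE_half_meas]
    exact HalE_tail (Φ := fun t x => deriv j (f t x) * G t x) hab (HalE_am hJ3 ha hb) hGb hczm hcz1
      (cz_lim hδ hδl)
  have hl3 : Tendsto (fun n => ∫ t in a..b, ∫ x, pd 2 (f t) x ^ 2 *
        {x : E3 | 0 < x 2 ∧ x 2 < 3 * δ n}.indicator (fun _ => (1 : ℝ)) x) atTop (𝓝 0) := by
    have h1 := HalE_tail (Φ := fun t x => pd 2 (f t) x ^ 2) hab (HalE_am hJp ha hb) hP
      (φ := fun n => {x : E3 | 0 < x 2 ∧ x 2 < 3 * δ n}.indicator (fun _ => (1 : ℝ))) (ψ := fun _ => 0)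
      (fun n => HalE_ind_meas (hslm n)) (fun n x => HalE_ind_le _ x) (fun x => ?_)
    · simpa using h1
    · rcases le_or_gt (x 2) 0 with hx | hx
      · refine tendsto_const_nhds.congr fun n => ?_
        rw [indicator_of_notMem]
        rintro ⟨h2, -⟩
        exact absurd h2 (not_lt.2 hx)
      · have h2 : ∀ᶠ n in atTop, 3 * δ n < x 2 := by
          have h3 : Tendsto (fun n => 3 * δ n) atTop (𝓝 (3 * 0)) := hδl.const_mul 3
          rw [mul_zero] at h3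
          exact h3.eventually (gt_mem_nhds hx)
        refine tendsto_const_nhds.congr' ?_
        filter_upwards [h2] with n hn
        rw [indicator_of_notMem]
        rintro ⟨-, h4⟩
        exact absurd h4 (not_lt.2 hn.le)
  have hlim := (hl1 a ⟨le_rfl, hab⟩).add (hl2.add (hl3.const_mul (9 * D)))
  rw [mul_zero, add_zero] at hlim
  exact le_of_tendsto_of_tendsto' (hl1 b ⟨hab, le_rfl⟩) hlim step

end Pool.Agent.H72.CC
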