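/-
ROW BalI (MP_09540e_CC). Measurability in time, and a limit. PROOF. Let `Φ t x = 1_S(x) 1_{f t x < 0} max (- G t x) 0`; `∫ x in {x | x ∈ S ∧ f t x < 0}, max (- G t x) 0 = ∫ x, Φ t x` for `t ∈ [a,b]` (the set is measurable: f t continuous by JC). On `Icc a b ×ˢ univ` the functions `f, G` are continuous (JC),
so `Φ` is measurable there: AEStronglyMeasurable for `(volume.restrict (Icc a b)).prod volume` (as in EVg_am in NC/EVg.lean, TI_meas in NS/TI.lean: extend f, G by indicator of the measurable set `Icc a b ×ˢ univ`). So `t ↦ ∫ Φ t` is AEStronglyMeasurable on `Icc a b`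
(MeasureTheory.AEStronglyMeasurable.integral_prod_right'), and `0 ≤ ∫ Φ t ≤ ∫ |G t| ≤ M`. bal_ii follows (interval integrable: bounded and measurable).
bal_lim: for fixed `t ∈ [a,b]` and each x the integrand tends to `1_{f t x ≤ 0} max (-G) 0` (`f t x ≤ 0`: `j n = 0`; `f t x > 0`: eventually `1 - 1 = 0`), dominated by `|G t|`; so the inner integrals converge, are bounded by M and measurable in t; dominated convergence in t
(intervalIntegral.tendsto_integral_filter_of_dominated_convergence).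
-/
import Pool.Agent.H72.CC.VDefs
import Pool.Agent.H87.NC.EVg
import Pool.Agent.H87.NS.TI

set_option autoImplicit false

open Set Filter Topology MeasureTheory
open scoped ContDiff

namespace Pool.Agent.H72.CC

open Pool.Agent.H16 Pool.Agent.H87.NS

variable {T : ℝ} {f G : ℝ → E3 → ℝ}


/-- measurability in time -/
theorem BalI_meas (hf : JC T f) (hG : JC T G) {a b : ℝ} (ha : 0 ≤ a) (hb : b < T) {S : Set E3}
    (hS : MeasurableSet S) {Ψ : ℝ → ℝ → ℝ} (hΨ : Measurable (fun p : ℝ × ℝ => Ψ p.1 p.2)) :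
    AEStronglyMeasurable (fun t => ∫ x in S, Ψ (f t x) (G t x)) (volume.restrict (Icc a b)) := by
  have hsub : Icc a b ×ˢ S ⊆ Ico 0 T ×ˢ univ :=
    Set.prod_mono (fun t ht => ⟨ha.trans ht.1, ht.2.trans_lt hb⟩) (subset_univ _)
  have h1 : AEStronglyMeasurable (fun q : ℝ × E3 => f q.1 q.2)
      ((volume : Measure (ℝ × E3)).restrict (Icc a b ×ˢ S)) :=
    (ContinuousOn.mono hf hsub).aestronglyMeasurable (measurableSet_Icc.prod hS)
  have h2 : AEStronglyMeasurable (fun q : ℝ × E3 => G q.1 q.2)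
      ((volume : Measure (ℝ × E3)).restrict (Icc a b ×ˢ S)) :=
    (ContinuousOn.mono hG hsub).aestronglyMeasurable (measurableSet_Icc.prod hS)
  have h3 : AEMeasurable (fun q : ℝ × E3 => Ψ (f q.1 q.2) (G q.1 q.2))
      ((volume : Measure (ℝ × E3)).restrict (Icc a b ×ˢ S)) :=
    hΨ.comp_aemeasurable (h1.aemeasurable.prodMk h2.aemeasurable)
  have h4 := h3.aestronglyMeasurable
  rw [Measure.volume_eq_prod, ← Measure.prod_restrict] at h4
  exact h4.integral_prod_right'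

theorem BalI_cont (hf : JC T f) {t : ℝ} (ht : t ∈ Ico 0 T) : Continuous (f t) := by
  have h2 : Continuous fun x : E3 => (t, x) := by fun_prop
  have h1 : ContinuousOn (fun q : ℝ × E3 => f q.1 q.2) (Ico 0 T ×ˢ univ) := hf
  rw [← continuousOn_univ]
  exact h1.comp h2.continuousOn fun x _ => ⟨ht, trivial⟩

theorem BalI_int {t : ℝ} (hft : Continuous (f t)) (hGt : Integrable (G t)) (hGc : Continuous (G t))
    {Ψ : ℝ → ℝ → ℝ} (hΨ : Measurable (fun p : ℝ × ℝ => Ψ p.1 p.2)) (h0 : ∀ s g, 0 ≤ Ψ s g) (h1 : ∀ s g, Ψ s g ≤ |g|) :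
    Integrable (fun x => Ψ (f t x) (G t x)) := by
  refine hGt.abs.mono' ?_ (ae_of_all _ fun x => ?_)
  · have h2 : Measurable (fun x => Ψ (f t x) (G t x)) := hΨ.comp (hft.measurable.prodMk hGc.measurable)
    exact h2.aestronglyMeasurable
  · rw [Real.norm_eq_abs, abs_of_nonneg (h0 _ _)]
    exact h1 _ _

theorem BalI_bd (hf : JC T f) (hG : JC T G) {a b M : ℝ} (ha : 0 ≤ a) (hb : b < T)
    (hM : ∀ t ∈ Icc a b, Integrable (G t) ∧ ∫ x, |G t x| ≤ M) (S : Set E3)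
    {Ψ : ℝ → ℝ → ℝ} (hΨ : Measurable (fun p : ℝ × ℝ => Ψ p.1 p.2)) (h0 : ∀ s g, 0 ≤ Ψ s g) (h1 : ∀ s g, Ψ s g ≤ |g|)
    {t : ℝ} (ht : t ∈ Icc a b) : 0 ≤ ∫ x in S, Ψ (f t x) (G t x) ∧ ∫ x in S, Ψ (f t x) (G t x) ≤ M := by
  have ht' : t ∈ Ico 0 T := ⟨ha.trans ht.1, ht.2.trans_lt hb⟩
  have hi := BalI_int (BalI_cont hf ht') (hM t ht).1 (BalI_cont hG ht') hΨ h0 h1
  refine ⟨integral_nonneg fun x => h0 _ _, ?_⟩
  calc ∫ x in S, Ψ (f t x) (G t x) ≤ ∫ x, Ψ (f t x) (G t x) :=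
        setIntegral_le_integral hi (ae_of_all _ fun x => h0 _ _)
    _ ≤ ∫ x, |G t x| := integral_mono hi (hM t ht).1.abs fun x => h1 _ _
    _ ≤ M := (hM t ht).2

theorem BalI_ii (hf : JC T f) (hG : JC T G) {a b M : ℝ} (ha : 0 ≤ a) (hab : a ≤ b) (hb : b < T)
    (hM : ∀ t ∈ Icc a b, Integrable (G t) ∧ ∫ x, |G t x| ≤ M) {S : Set E3} (hS : MeasurableSet S)
    {Ψ : ℝ → ℝ → ℝ} (hΨ : Measurable (fun p : ℝ × ℝ => Ψ p.1 p.2)) (h0 : ∀ s g, 0 ≤ Ψ s g) (h1 : ∀ s g, Ψ s g ≤ |g|) :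
    IntervalIntegrable (fun t => ∫ x in S, Ψ (f t x) (G t x)) volume a b := by
  rw [intervalIntegrable_iff_integrableOn_Icc_of_le hab]
  refine Integrable.of_bound (BalI_meas hf hG ha hb hS hΨ) M ?_
  refine ae_restrict_of_forall_mem measurableSet_Icc fun t ht => ?_
  obtain ⟨h2, h3⟩ := BalI_bd hf hG ha hb hM S hΨ h0 h1 ht
  rw [Real.norm_eq_abs, abs_of_nonneg h2]
  exact h3

/-- the integrand of the set integral -/
theorem BalI_set {t : ℝ} {B : Set ℝ} (hB : MeasurableSet B) (hft : Continuous (f t)) (S : Set E3) :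
    ∫ x in {x | x ∈ S ∧ f t x ∈ B}, max (- G t x) 0 = ∫ x in S, B.indicator (fun _ => max (- G t x) 0) (f t x) := by
  have h1 : {x | x ∈ S ∧ f t x ∈ B} = S ∩ (f t ⁻¹' B) := rfl
  have h2 : MeasurableSet (f t ⁻¹' B) := hft.measurable hB
  rw [h1, ← setIntegral_indicator h2]
  rfl

theorem BalI_psi {B : Set ℝ} (hB : MeasurableSet B) :
    Measurable (fun p : ℝ × ℝ => (fun s g => B.indicator (fun _ => max (- g) 0) s : ℝ → ℝ → ℝ) p.1 p.2) := by
  have h1 : Measurable (fun p : ℝ × ℝ => (Prod.fst ⁻¹' B).indicator (fun p : ℝ × ℝ => max (- p.2) 0) p) :=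
    (measurable_snd.neg.max measurable_const).indicator (measurable_fst hB)
  exact h1

theorem BalI_psi0 {B : Set ℝ} (s g : ℝ) : 0 ≤ (fun s g => B.indicator (fun _ => max (- g) 0) s : ℝ → ℝ → ℝ) s g := by
  show 0 ≤ B.indicator (fun _ => max (- g) 0) s
  exact Set.indicator_nonneg (fun _ _ => le_max_right _ _) s

theorem BalI_max (g : ℝ) : max (- g) 0 ≤ |g| := max_le (neg_le_abs g) (abs_nonneg g)

theorem BalI_psi1 {B : Set ℝ} (s g : ℝ) : (fun s g => B.indicator (fun _ => max (- g) 0) s : ℝ → ℝ → ℝ) s g ≤ |g| := by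
  show B.indicator (fun _ => max (- g) 0) s ≤ |g|
  by_cases h : s ∈ B
  · rw [Set.indicator_of_mem h]
    exact BalI_max g
  · rw [Set.indicator_of_notMem h]
    exact abs_nonneg g

theorem BalI_congr (hf : JC T f) {a b : ℝ} (ha : 0 ≤ a) (hb : b < T) (S : Set E3) {B : Set ℝ} (hB : MeasurableSet B)
    {t : ℝ} (ht : t ∈ Icc a b) : ∫ x in {x | x ∈ S ∧ f t x ∈ B}, max (- G t x) 0 =
      ∫ x in S, (fun s g => B.indicator (fun _ => max (- g) 0) s : ℝ → ℝ → ℝ) (f t x) (G t x) := by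
  have ht' : t ∈ Ico 0 T := ⟨ha.trans ht.1, ht.2.trans_lt hb⟩
  exact BalI_set hB (BalI_cont hf ht') S

theorem BalI_set_ii (hf : JC T f) (hG : JC T G) {a b M : ℝ} (ha : 0 ≤ a) (hab : a ≤ b) (hb : b < T)
    (hM : ∀ t ∈ Icc a b, Integrable (G t) ∧ ∫ x, |G t x| ≤ M) {S : Set E3} (hS : MeasurableSet S)
    {B : Set ℝ} (hB : MeasurableSet B) :
    IntervalIntegrable (fun t => ∫ x in {x | x ∈ S ∧ f t x ∈ B}, max (- G t x) 0) volume a b := by
  have h1 := BalI_ii hf hG ha hab hb hM hS (BalI_psi hB) BalI_psi0 BalI_psi1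
  refine h1.congr_ae ?_
  refine ae_restrict_of_forall_mem measurableSet_uIoc fun t ht => ?_
  rw [uIoc_of_le hab] at ht
  exact (BalI_congr hf ha hb S hB ⟨ht.1.le, ht.2⟩).symm

theorem bal_ii (hf : JC T f) (hG : JC T G) {a b M : ℝ} (ha : 0 ≤ a) (hab : a ≤ b) (hb : b < T)
    (hM : ∀ t ∈ Icc a b, Integrable (G t) ∧ ∫ x, |G t x| ≤ M) {S : Set E3} (hS : MeasurableSet S) :
    IntervalIntegrable (fun t => ∫ x in {x | x ∈ S ∧ f t x < 0}, max (- G t x) 0) volume a b ∧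
    IntervalIntegrable (fun t => ∫ x in {x | x ∈ S ∧ f t x ≤ 0}, max (- G t x) 0) volume a b ∧
    ∀ t ∈ Icc a b, 0 ≤ ∫ x in {x | x ∈ S ∧ f t x < 0}, max (- G t x) 0 ∧ ∫ x in {x | x ∈ S ∧ f t x < 0}, max (- G t x) 0 ≤ M := by
  refine ⟨BalI_set_ii hf hG ha hab hb hM hS (B := Iio (0 : ℝ)) measurableSet_Iio,
    BalI_set_ii hf hG ha hab hb hM hS (B := Iic (0 : ℝ)) measurableSet_Iic, fun t ht => ?_⟩
  have h1 : ∫ x in {x | x ∈ S ∧ f t x < 0}, max (- G t x) 0 =
      ∫ x in S, (fun s g => (Iio (0 : ℝ)).indicator (fun _ => max (- g) 0) s : ℝ → ℝ → ℝ) (f t x) (G t x) :=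
    BalI_congr hf ha hb S (B := Iio (0 : ℝ)) measurableSet_Iio ht
  rw [h1]
  exact BalI_bd hf hG ha hb hM S (BalI_psi (B := Iio (0 : ℝ)) measurableSet_Iio) BalI_psi0 BalI_psi1 ht

theorem bal_lim (hf : JC T f) (hG : JC T G) {a b M : ℝ} (ha : 0 ≤ a) (hab : a ≤ b) (hb : b < T)
    (hM : ∀ t ∈ Icc a b, Integrable (G t) ∧ ∫ x, |G t x| ≤ M) {S : Set E3} (hS : MeasurableSet S) {j : ℕ → ℝ → ℝ}
    (hj : ∀ n, Continuous (j n)) (hj0 : ∀ n s, 0 ≤ j n s) (hj1 : ∀ n s, j n s ≤ 1) (hjz : ∀ n, ∀ s ≤ 0, j n s = 0)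
    (hjl : ∀ s > 0, ∀ᶠ n in atTop, j n s = 1) :
    (∀ n, IntervalIntegrable (fun t => ∫ x in S, (1 - j n (f t x)) * max (- G t x) 0) volume a b) ∧
    Tendsto (fun n => ∫ t in a..b, ∫ x in S, (1 - j n (f t x)) * max (- G t x) 0) atTop
      (𝓝 (∫ t in a..b, ∫ x in {x | x ∈ S ∧ f t x ≤ 0}, max (- G t x) 0)) := by
  have hm : ∀ n, Measurable (fun p : ℝ × ℝ => (fun s g => (1 - j n s) * max (- g) 0 : ℝ → ℝ → ℝ) p.1 p.2) := fun n =>
    (measurable_const.sub ((hj n).measurable.comp measurable_fst)).mul (measurable_snd.neg.max measurable_const)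
  have h0 : ∀ n s g, 0 ≤ (fun s g => (1 - j n s) * max (- g) 0 : ℝ → ℝ → ℝ) s g := fun n s g =>
    mul_nonneg (sub_nonneg.2 (hj1 n s)) (le_max_right _ _)
  have h1 : ∀ n s g, (fun s g => (1 - j n s) * max (- g) 0 : ℝ → ℝ → ℝ) s g ≤ |g| := by
    intro n s g
    have e1 : (1 - j n s) * max (- g) 0 ≤ 1 * max (- g) 0 :=
      mul_le_mul_of_nonneg_right (by linarith [hj0 n s]) (le_max_right _ _)
    have e2 := BalI_max g
    show (1 - j n s) * max (- g) 0 ≤ |g|
    linarith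
  refine ⟨fun n => BalI_ii hf hG ha hab hb hM hS (Ψ := fun s g => (1 - j n s) * max (- g) 0) (hm n) (h0 n) (h1 n), ?_⟩
  have e : ∫ t in a..b, ∫ x in {x | x ∈ S ∧ f t x ≤ 0}, max (- G t x) 0 =
      ∫ t in a..b, ∫ x in S, (fun s g => (Iic (0 : ℝ)).indicator (fun _ => max (- g) 0) s : ℝ → ℝ → ℝ) (f t x) (G t x) := by
    refine intervalIntegral.integral_congr fun t ht => ?_
    rw [uIcc_of_le hab] at ht
    exact BalI_congr hf ha hb S (B := Iic (0 : ℝ)) measurableSet_Iic ht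
  rw [e]
  refine intervalIntegral.tendsto_integral_filter_of_dominated_convergence (fun _ => M) ?_ ?_ ?_ ?_
  · refine Eventually.of_forall fun n => ?_
    rw [uIoc_of_le hab]
    exact (BalI_meas hf hG ha hb hS (Ψ := fun s g => (1 - j n s) * max (- g) 0) (hm n)).mono_measure (Measure.restrict_mono Ioc_subset_Icc_self le_rfl)
  · refine Eventually.of_forall fun n => ae_of_all _ fun t ht => ?_
    rw [uIoc_of_le hab] at ht
    obtain ⟨h2, h3⟩ := BalI_bd hf hG ha hb hM S (Ψ := fun s g => (1 - j n s) * max (- g) 0) (hm n) (h0 n) (h1 n) ⟨ht.1.le, ht.2⟩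
    rw [Real.norm_eq_abs, abs_of_nonneg h2]
    exact h3
  · exact intervalIntegrable_const
  · refine ae_of_all _ fun t ht => ?_
    rw [uIoc_of_le hab] at ht
    have ht1 : t ∈ Icc a b := ⟨ht.1.le, ht.2⟩
    have ht' : t ∈ Ico 0 T := ⟨ha.trans ht1.1, ht1.2.trans_lt hb⟩
    refine tendsto_integral_of_dominated_convergence (fun x => |G t x|) ?_ (hM t ht1).1.abs.integrableOn ?_ ?_
    · intro n
      exact (BalI_int (BalI_cont hf ht') (hM t ht1).1 (BalI_cont hG ht') (Ψ := fun s g => (1 - j n s) * max (- g) 0) (hm n) (h0 n) (h1 n)).aestronglyMeasurable.restrict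
    · intro n
      refine ae_of_all _ fun x => ?_
      rw [Real.norm_eq_abs, abs_of_nonneg (h0 n _ _)]
      exact h1 n _ _
    · refine ae_of_all _ fun x => ?_
      by_cases h : f t x ≤ 0
      · have h2 : (Iic (0 : ℝ)).indicator (fun _ => max (- G t x) 0) (f t x) = max (- G t x) 0 :=
          Set.indicator_of_mem (mem_Iic.2 h) _
        show Tendsto (fun n => (1 - j n (f t x)) * max (- G t x) 0) atTop
          (𝓝 ((Iic (0 : ℝ)).indicator (fun _ => max (- G t x) 0) (f t x)))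
        rw [h2]
        refine tendsto_const_nhds.congr fun n => ?_
        rw [hjz n _ h]
        ring
      · have h2 : (Iic (0 : ℝ)).indicator (fun _ => max (- G t x) 0) (f t x) = 0 :=
          Set.indicator_of_notMem (fun hh => h (mem_Iic.1 hh)) _
        show Tendsto (fun n => (1 - j n (f t x)) * max (- G t x) 0) atTop
          (𝓝 ((Iic (0 : ℝ)).indicator (fun _ => max (- G t x) 0) (f t x)))
        rw [h2]
        refine tendsto_const_nhds.congr' ?_
        filter_upwards [hjl _ (not_le.1 h)] with n hn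
        rw [hn]
        ring

end Pool.Agent.H72.CC
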