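/-
ROW JPl (MP_09540e_CC). Smooth approximation of the positive part. PROOF. `θ = Real.smoothTransition`, `j s = ∫ x in 0..s, θ (x/ε)`. `deriv j s = θ (s/ε)` (continuous integrand: intervalIntegral FTC), so j is smooth (contDiff_infty_iff_deriv), `j 0 = 0`, `deriv j 0 = θ 0 = 0`,
`deriv (deriv j) s = θ'(s/ε)/ε ≥ 0` since θ is monotone (search Real.smoothTransition monotone, or H87/NS/EVe.lean EVe_th_mono; Monotone.derivWithin_nonneg / derivative of a monotone function is nonnegative). For `s ≤ 0` the integrand vanishes between s and 0. For `s ≥ 0`: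
`0 ≤ θ ≤ 1` gives `j s ≤ s`, and `θ (x/ε) = 1` for `x ≥ ε` gives `j s ≥ s - ε`.
-/
import Pool.Agent.H72.CC.VDefs

set_option autoImplicit false

open Set Filter Topology MeasureTheory
open scoped ContDiff

namespace Pool.Agent.H72.CC

open Pool.Agent.H16 Pool.Agent.H87.NS

theorem jpl {ε : ℝ} (hε : 0 < ε) : ∃ j : ℝ → ℝ, JP j ∧ (∀ s, ε ≤ s → deriv j s = 1) ∧ ∀ s, max s 0 - ε ≤ j s := by
  have hc : Continuous (fun x : ℝ => Real.smoothTransition (x / ε)) :=
    Real.smoothTransition.continuous.comp (continuous_id.div_const ε)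
  have hs : ContDiff ℝ ∞ (fun x : ℝ => Real.smoothTransition (x / ε)) :=
    Real.smoothTransition.contDiff.comp (contDiff_id.div_const ε)
  have hi : ∀ a b : ℝ, IntervalIntegrable (fun x : ℝ => Real.smoothTransition (x / ε)) volume a b :=
    fun a b => hc.intervalIntegrable a b
  have hm : Monotone (fun x : ℝ => Real.smoothTransition (x / ε)) := fun a b h =>
    Real.smoothTransition.monotone (div_le_div_of_nonneg_right h hε.le)
  have h0 : ∀ x : ℝ, 0 ≤ Real.smoothTransition (x / ε) := fun x => Real.smoothTransition.nonneg _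
  have h1 : ∀ x : ℝ, Real.smoothTransition (x / ε) ≤ 1 := fun x => Real.smoothTransition.le_one _
  have hz : ∀ x : ℝ, x ≤ 0 → Real.smoothTransition (x / ε) = 0 := fun x hx =>
    Real.smoothTransition.zero_of_nonpos (div_nonpos_of_nonpos_of_nonneg hx hε.le)
  have ho : ∀ x : ℝ, ε ≤ x → Real.smoothTransition (x / ε) = 1 := fun x hx =>
    Real.smoothTransition.one_of_one_le ((one_le_div hε).2 hx)
  obtain ⟨j, hj⟩ : ∃ j : ℝ → ℝ, j = fun s => ∫ x in (0 : ℝ)..s, Real.smoothTransition (x / ε) := ⟨_, rfl⟩
  have hd : ∀ s, HasDerivAt j (Real.smoothTransition (s / ε)) s := by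
    intro s
    rw [hj]
    exact (hc.integral_hasStrictDerivAt 0 s).hasDerivAt
  have hdj : deriv j = fun s => Real.smoothTransition (s / ε) := by
    funext s
    exact (hd s).deriv
  have jz : ∀ s ≤ 0, j s = 0 := by
    intro s hs0
    rw [hj]
    have e : (∫ x in (0 : ℝ)..s, Real.smoothTransition (x / ε)) = ∫ _ in (0 : ℝ)..s, (0 : ℝ) := by
      apply intervalIntegral.integral_congr
      intro x hx
      rw [uIcc_of_ge hs0] at hx
      exact hz x hx.2
    simp only
    rw [e, intervalIntegral.integral_zero]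
  have jn : ∀ s, 0 ≤ s → 0 ≤ j s := by
    intro s hs0
    rw [hj]
    exact intervalIntegral.integral_nonneg hs0 fun x _ => h0 x
  have jl : ∀ s, 0 ≤ s → j s ≤ s := by
    intro s hs0
    rw [hj]
    have e := intervalIntegral.integral_mono_on hs0 (hi 0 s) (intervalIntegrable_const (c := (1 : ℝ))) fun x _ => h1 x
    rw [intervalIntegral.integral_const, smul_eq_mul, mul_one, sub_zero] at e
    exact e
  have jg : ∀ s, ε ≤ s → s - ε ≤ j s := by
    intro s hse
    have e1 : (∫ x in (0 : ℝ)..ε, Real.smoothTransition (x / ε)) + (∫ x in ε..s, Real.smoothTransition (x / ε)) =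
        ∫ x in (0 : ℝ)..s, Real.smoothTransition (x / ε) := intervalIntegral.integral_add_adjacent_intervals (hi _ _) (hi _ _)
    have e2 : (∫ x in ε..s, Real.smoothTransition (x / ε)) = ∫ _ in ε..s, (1 : ℝ) := by
      apply intervalIntegral.integral_congr
      intro x hx
      rw [uIcc_of_le hse] at hx
      exact ho x hx.1
    rw [intervalIntegral.integral_const, smul_eq_mul, mul_one] at e2
    have e3 := jn ε hε.le
    rw [hj] at e3 ⊢
    simp only at e3 ⊢
    linarith
  refine ⟨j, ⟨⟨?_, ?_, ?_, ?_⟩, ?_, ?_, ?_, ?_⟩, ?_, ?_⟩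
  · rw [contDiff_infty_iff_deriv]
    refine ⟨fun s => (hd s).differentiableAt, ?_⟩
    rw [hdj]
    exact hs
  · exact jz 0 le_rfl
  · rw [hdj]
    exact hz 0 le_rfl
  · intro s
    rw [hdj]
    exact hm.deriv_nonneg
  · intro s
    rw [hdj]
    exact h0 s
  · intro s
    rw [hdj]
    exact h1 s
  · intro s hs0
    refine ⟨jz s hs0, ?_⟩
    rw [hdj]
    exact hz s hs0
  · intro s
    rcases le_total s 0 with h | h
    · rw [jz s h]
      exact le_max_right _ _
    · exact (jl s h).trans (le_max_left _ _)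
  · intro s hs1
    rw [hdj]
    exact ho s hs1
  · intro s
    rcases le_total s 0 with h | h
    · rw [jz s h, max_eq_right h]
      linarith
    · rw [max_eq_left h]
      rcases le_total ε s with h' | h'
      · exact jg s h'
      · have := jn s h
        linarith

end Pool.Agent.H72.CC
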