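/-
ROW LimN (MP_09540e_CC). The negative part. PROOF. `j = j_ε` from jpl, `ε = 1/(n+1)`. `deriv j (- f) (- G) ≤ 1_{f < 0} max (- G) 0` pointwise (`0 ≤ j' ≤ 1`, `j'(-f) = 0` where `f ≥ 0`), so HEV gives
`∫_S j_ε (- f b) ≤ ∫_S max (- f a) 0 + ∫_a^b ∫_{S, f<0} max (- G) 0` for every n (JP.le; bal_ii for the time integrability of the bound). Fatou as `n → ∞` (`max s 0 - ε ≤ j_ε s ≤ max s 0`).
-/
import Pool.Agent.H72.CC.JPl
import Pool.Agent.H72.CC.BalI
import Pool.Agent.H72.CC.LimP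

set_option autoImplicit false

open Set Filter Topology MeasureTheory
open scoped ContDiff

namespace Pool.Agent.H72.CC

open Pool.Agent.H16 Pool.Agent.H87.NS

theorem LimN_slice {S : Set E3} {D f G : E3 → ℝ} (hD : Continuous D) (hD0 : ∀ x, 0 ≤ D x) (hD1 : ∀ x, D x ≤ 1)
    (hDz : ∀ x, 0 ≤ f x → D x = 0) (hf : Continuous f) (hG : Integrable G) :
    ∫ x in S, D x * (- G x) ≤ ∫ x in S, (Iio (0 : ℝ)).indicator (fun _ => max (- G x) 0) (f x) := by
  have i3 : Integrable (fun x => max (- G x) 0) := hG.neg.pos_part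
  have i1 : Integrable (fun x => D x * (- G x)) := by
    refine hG.neg.mono (hD.aestronglyMeasurable.mul hG.neg.aestronglyMeasurable) (Eventually.of_forall fun x => ?_)
    rw [norm_mul, Real.norm_of_nonneg (hD0 x)]
    exact mul_le_of_le_one_left (norm_nonneg _) (hD1 x)
  have hset : MeasurableSet (f ⁻¹' Iio (0 : ℝ)) := hf.measurable measurableSet_Iio
  have i2 : Integrable (fun x => (Iio (0 : ℝ)).indicator (fun _ => max (- G x) 0) (f x)) :=
    i3.indicator hset
  refine integral_mono i1.integrableOn i2.integrableOn fun x => ?_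
  show D x * (- G x) ≤ (Iio (0 : ℝ)).indicator (fun _ => max (- G x) 0) (f x)
  by_cases h : f x ∈ Iio (0 : ℝ)
  · rw [Set.indicator_of_mem h]
    calc D x * (- G x) ≤ D x * max (- G x) 0 := mul_le_mul_of_nonneg_left (le_max_left _ _) (hD0 x)
      _ ≤ 1 * max (- G x) 0 := mul_le_mul_of_nonneg_right (hD1 x) (le_max_right _ _)
      _ = max (- G x) 0 := one_mul _
  · rw [Set.indicator_of_notMem h, hDz x (not_lt.1 h), zero_mul]

theorem limN {T : ℝ} {f G : ℝ → E3 → ℝ} (hf : JC T f) (hG : JC T G) {S : Set E3} (hS : MeasurableSet S)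
    {a b M : ℝ} (ha : 0 ≤ a) (hab : a ≤ b) (hb : b < T)
    (hM : ∀ t ∈ Icc a b, Integrable (G t) ∧ ∫ x, |G t x| ≤ M) (hfa : IntegrableOn (f a) S)
    (HEV : ∀ j : ℝ → ℝ, JP j → IntegrableOn (fun x => j (- f b x)) S ∧
      IntervalIntegrable (fun t => ∫ x in S, deriv j (- f t x) * (- G t x)) volume a b ∧
      ∫ x in S, j (- f b x) ≤ (∫ x in S, j (- f a x)) + ∫ t in a..b, ∫ x in S, deriv j (- f t x) * (- G t x)) :
    IntegrableOn (fun x => max (- f b x) 0) S ∧
    ∫ x in S, max (- f b x) 0 ≤ (∫ x in S, max (- f a x) 0) + ∫ t in a..b, ∫ x in {x | x ∈ S ∧ f t x < 0}, max (- G t x) 0 := by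
  have hbT : b ∈ Ico 0 T := ⟨ha.trans hab, hb⟩
  have hε : ∀ n : ℕ, (0:ℝ) < 1 / ((n : ℝ) + 1) := fun n => by positivity
  choose j hj hj1 hj2 using fun n : ℕ => jpl (hε n)
  have hdc : ∀ n, Continuous (deriv (j n)) := fun n => (hj n).jf.smooth.continuous_deriv (by norm_num)
  have key : ∀ n, ∫ x in S, j n (- f b x) ≤
      (∫ x in S, max (- f a x) 0) + ∫ t in a..b, ∫ x in {x | x ∈ S ∧ f t x < 0}, max (- G t x) 0 := by
    intro n
    obtain ⟨e1, e2, e3⟩ := HEV (j n) (hj n)
    have A : ∫ x in S, j n (- f a x) ≤ ∫ x in S, max (- f a x) 0 := by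
      have m1 : IntegrableOn (fun x => max (- f a x) 0) S := Integrable.pos_part (Integrable.neg hfa)
      exact integral_mono_of_nonneg (Eventually.of_forall fun x => jfun_nonneg (hj n).jf _) m1
        (Eventually.of_forall fun x => (hj n).le _)
    have C : ∫ t in a..b, ∫ x in S, deriv (j n) (- f t x) * (- G t x) ≤
        ∫ t in a..b, ∫ x in {x | x ∈ S ∧ f t x < 0}, max (- G t x) 0 := by
      refine intervalIntegral.integral_mono_on hab e2 (bal_ii hf hG ha hab hb hM hS).1 fun t ht => ?_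
      have htT : t ∈ Ico 0 T := ⟨ha.trans ht.1, ht.2.trans_lt hb⟩
      have h1 : ∫ x in {x | x ∈ S ∧ f t x < 0}, max (- G t x) 0 =
          ∫ x in S, (Iio (0 : ℝ)).indicator (fun _ => max (- G t x) 0) (f t x) :=
        BalI_set measurableSet_Iio (LimP_slc hf htT) S
      rw [h1]
      exact LimN_slice (D := fun x => deriv (j n) (- f t x)) ((hdc n).comp (LimP_slc hf htT).neg)
        (fun x => (hj n).d0 _) (fun x => (hj n).d1 _)
        (fun x hx => ((hj n).z _ (neg_nonpos.2 hx)).2) (LimP_slc hf htT) (hM t ht).1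
    linarith
  refine LimP_fatou (Φ := fun n x => j n (- f b x)) (Bn := fun _ => (∫ x in S, max (- f a x) 0) +
      ∫ t in a..b, ∫ x in {x | x ∈ S ∧ f t x < 0}, max (- G t x) 0) ?_ (fun x => le_max_right _ _) (fun n => ?_)
    (fun n x => jfun_nonneg (hj n).jf _) (fun n => (HEV (j n) (hj n)).1) key tendsto_const_nhds
    (fun x => ?_)
  · exact ((LimP_slc hf hbT).neg.max continuous_const).measurable
  · exact (hj n).jf.smooth.continuous.comp (LimP_slc hf hbT).neg
  · refine tendsto_of_tendsto_of_tendsto_of_le_of_le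
      (g := fun n : ℕ => max (- f b x) 0 - 1 / ((n:ℝ) + 1))
      (h := fun _ => max (- f b x) 0) ?_ tendsto_const_nhds (fun n => hj2 n _) (fun n => (hj n).le _)
    simpa using (tendsto_const_nhds (x := max (- f b x) 0)).sub
      (tendsto_one_div_add_atTop_nhds_zero_nat (𝕜 := ℝ))

end Pool.Agent.H72.CC
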