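/-
ROW LimP (MP_09540e_CC). The positive part: passage to the limit. PROOF. Fix `κ > 0`, let `fk t x = f t x + κ θ x` (JC), `j = j_ε` from jpl (JPl.lean), `ε = 1/(n+1)`. In HEV: `∫_S j'(fk)(G + κ g) = ∫_S j'(fk) G + κ ∫_S j'(fk) g ≤ ∫_S G - ∫_S (1 - j'(fk)) G + κ M'
≤ ∫_S (1 - j'(fk)) max (-G) 0 + κ M'` (hG0, `0 ≤ j' ≤ 1`), and `∫_S j(fk a) ≤ ∫_S max (fk a) 0 ≤ ∫_S max (f a) 0 + κ ∫_S |θ|` (JP.le). So
`∫_S j_ε (fk b) ≤ ∫_S max (f a) 0 + κ ∫ |θ| + κ M' (b - a) + ∫_a^b ∫_S (1 - j_ε'(fk)) max (-G) 0`; monotonicity of the time integral: the integrand `t ↦ ∫_S j'(fk)(G + κ g)` is interval integrable (hypothesis HEV gives it), the bound is interval integrable (bal_lim).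
`n → ∞`: bal_lim (applied to fk, `j n = deriv j_ε`: continuous; `= 1` for `s ≥ ε`), and Fatou on the left (`max s 0 - ε ≤ j_ε s ≤ max s 0`, so `j_ε s → max s 0`; P1_fatou in NS/P1.lean has the shape but for E3-integrals; use lintegral_liminf_le on `volume.restrict S`):
`max (fk b) 0` is integrable on S and `∫_S max (fk b) 0 ≤ ∫_S max (f a) 0 + κ (∫|θ| + M'(b-a)) + ∫_a^b ∫_{S, fk ≤ 0} max (-G) 0`. On S `θ > 0`, so `fk ≤ 0` implies `f < 0`; and `max (f b) 0 ≤ max (fk b) 0` on S. (Both time integrands integrable: bal_ii for fk and f.)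
So `∫_S max (f b) 0 ≤ ∫_S max (f a) 0 + κ (..) + ∫_a^b ∫_{S, f < 0} max (-G) 0` for all `κ > 0`; let `κ → 0` (le_of_forall_pos_le_add).
-/
import Pool.Agent.H72.CC.JPl
import Pool.Agent.H72.CC.BalI
import Pool.Agent.H87.NS.P1

set_option autoImplicit false

open Set Filter Topology MeasureTheory
open scoped ContDiff

namespace Pool.Agent.H72.CC

open Pool.Agent.H16 Pool.Agent.H87.NS

theorem LimP_fatou {S : Set E3} {Φ : ℕ → E3 → ℝ} {g : E3 → ℝ} {Bn : ℕ → ℝ} {B : ℝ} (hg : Measurable g)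
    (hg0 : ∀ x, 0 ≤ g x) (hΦ : ∀ n, Continuous (Φ n)) (hΦ0 : ∀ n x, 0 ≤ Φ n x)
    (hi : ∀ n, IntegrableOn (Φ n) S) (hb : ∀ n, ∫ x in S, Φ n x ≤ Bn n) (hB : Tendsto Bn atTop (𝓝 B))
    (ht : ∀ x, Tendsto (fun n => Φ n x) atTop (𝓝 (g x))) : IntegrableOn g S ∧ ∫ x in S, g x ≤ B := by
  have hB0 : 0 ≤ B := ge_of_tendsto' hB fun n => (integral_nonneg (hΦ0 n)).trans (hb n)
  have h1 : ∫⁻ x in S, ENNReal.ofReal (g x) ≤ ENNReal.ofReal B := by
    have h2 : ∀ x, liminf (fun n => ENNReal.ofReal (Φ n x)) atTop = ENNReal.ofReal (g x) := fun x =>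
      (ENNReal.tendsto_ofReal (ht x)).liminf_eq
    calc ∫⁻ x in S, ENNReal.ofReal (g x) = ∫⁻ x in S, liminf (fun n => ENNReal.ofReal (Φ n x)) atTop := by
          refine lintegral_congr fun x => (h2 x).symm
      _ ≤ liminf (fun n => ∫⁻ x in S, ENNReal.ofReal (Φ n x)) atTop :=
          lintegral_liminf_le fun n => (hΦ n).measurable.ennreal_ofReal
      _ ≤ liminf (fun n => ENNReal.ofReal (Bn n)) atTop := by
          refine liminf_le_liminf (Eventually.of_forall fun n => ?_)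
          rw [← ofReal_integral_eq_lintegral_ofReal (hi n) (Eventually.of_forall (hΦ0 n))]
          exact ENNReal.ofReal_le_ofReal (hb n)
      _ = ENNReal.ofReal B := (ENNReal.tendsto_ofReal hB).liminf_eq
  have h2 : IntegrableOn g S := by
    refine ⟨hg.aestronglyMeasurable, ?_⟩
    rw [hasFiniteIntegral_iff_ofReal (Eventually.of_forall hg0)]
    exact h1.trans_lt ENNReal.ofReal_lt_top
  refine ⟨h2, ?_⟩
  rw [← ofReal_integral_eq_lintegral_ofReal h2 (Eventually.of_forall hg0)] at h1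
  exact (ENNReal.ofReal_le_ofReal_iff hB0).1 h1

theorem LimP_slice {S : Set E3} {D G g : E3 → ℝ} {κ M' : ℝ} (hκ : 0 < κ) (hD : Continuous D)
    (hD0 : ∀ x, 0 ≤ D x) (hD1 : ∀ x, D x ≤ 1) (hG : Integrable G) (hg : Integrable g)
    (hG0 : ∫ x in S, G x ≤ 0) (hM' : ∫ x, |g x| ≤ M') :
    ∫ x in S, D x * (G x + κ * g x) ≤ (∫ x in S, (1 - D x) * max (- G x) 0) + κ * M' := by
  have im : ∀ F : E3 → ℝ, Integrable F → Integrable (fun x => D x * F x) := by
    intro F hF
    refine hF.mono (hD.aestronglyMeasurable.mul hF.aestronglyMeasurable) (Eventually.of_forall fun x => ?_)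
    rw [norm_mul, Real.norm_of_nonneg (hD0 x)]
    exact mul_le_of_le_one_left (norm_nonneg _) (hD1 x)
  have i1 := im G hG
  have i2 := im g hg
  have i3 : Integrable (fun x => max (- G x) 0) := hG.neg.pos_part
  have i4 : Integrable (fun x => (1 - D x) * max (- G x) 0) := by
    refine (i3.sub (im _ i3)).congr (Eventually.of_forall fun x => ?_)
    simp only [Pi.sub_apply]
    ring
  have i5 : Integrable (fun x => κ * |g x|) := hg.abs.const_mul κ
  have i6 : Integrable (fun x => G x + (1 - D x) * max (- G x) 0) := hG.add i4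
  have i7 : Integrable (fun x => D x * (G x + κ * g x)) := by
    refine (i1.add (i2.const_mul κ)).congr (Eventually.of_forall fun x => ?_)
    simp only [Pi.add_apply]
    ring
  have h1 : ∫ x in S, D x * (G x + κ * g x) ≤ ∫ x in S, (G x + (1 - D x) * max (- G x) 0 + κ * |g x|) := by
    refine integral_mono i7.integrableOn (i6.add i5).integrableOn fun x => ?_
    have a1 : (1 - D x) * (-G x) ≤ (1 - D x) * max (- G x) 0 :=
      mul_le_mul_of_nonneg_left (le_max_left _ _) (sub_nonneg.2 (hD1 x))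
    have a2 : D x * g x ≤ |g x| := by
      calc D x * g x ≤ |D x * g x| := le_abs_self _
        _ = D x * |g x| := by rw [abs_mul, abs_of_nonneg (hD0 x)]
        _ ≤ |g x| := mul_le_of_le_one_left (abs_nonneg _) (hD1 x)
    have a3 := mul_le_mul_of_nonneg_left a2 hκ.le
    show D x * (G x + κ * g x) ≤ G x + (1 - D x) * max (- G x) 0 + κ * |g x|
    linarith
  have h2 : ∫ x in S, (G x + (1 - D x) * max (- G x) 0 + κ * |g x|) =
      (∫ x in S, G x) + (∫ x in S, (1 - D x) * max (- G x) 0) + κ * ∫ x in S, |g x| := by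
    rw [integral_add i6.integrableOn i5.integrableOn, integral_add hG.integrableOn i4.integrableOn,
      integral_const_mul]
  have h3 : ∫ x in S, |g x| ≤ M' :=
    (setIntegral_le_integral hg.abs (Eventually.of_forall fun x => abs_nonneg _)).trans hM'
  have h4 := mul_le_mul_of_nonneg_left h3 hκ.le
  linarith

theorem LimP_slc {T : ℝ} {Φ : ℝ → E3 → ℝ} (h : JC T Φ) {t : ℝ} (ht : t ∈ Ico 0 T) : Continuous (Φ t) :=
  h.comp_continuous (f := fun x : E3 => (t, x)) (by fun_prop) fun x => ⟨ht, mem_univ _⟩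

theorem LimP_kap {T : ℝ} {f G g : ℝ → E3 → ℝ} {θ : E3 → ℝ} (hf : JC T f) (hG : JC T G) (hθ : Continuous θ)
    (hθi : Integrable θ) {S : Set E3} (hS : MeasurableSet S) {a b M M' : ℝ} (ha : 0 ≤ a) (hab : a ≤ b) (hb : b < T)
    (hM : ∀ t ∈ Icc a b, Integrable (G t) ∧ ∫ x, |G t x| ≤ M) (hG0 : ∀ t ∈ Icc a b, ∫ x in S, G t x ≤ 0)
    (hM' : ∀ t ∈ Icc a b, Integrable (g t) ∧ ∫ x, |g t x| ≤ M') (hfa : IntegrableOn (f a) S) {κ : ℝ} (hκ : 0 < κ)
    (HEV : ∀ j : ℝ → ℝ, JP j →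
      IntegrableOn (fun x => j (f b x + κ * θ x)) S ∧
      IntervalIntegrable (fun t => ∫ x in S, deriv j (f t x + κ * θ x) * (G t x + κ * g t x)) volume a b ∧
      ∫ x in S, j (f b x + κ * θ x) ≤ (∫ x in S, j (f a x + κ * θ x)) +
        ∫ t in a..b, ∫ x in S, deriv j (f t x + κ * θ x) * (G t x + κ * g t x)) :
    IntegrableOn (fun x => max (f b x + κ * θ x) 0) S ∧
    ∫ x in S, max (f b x + κ * θ x) 0 ≤ (∫ x in S, max (f a x) 0) + κ * ((∫ x, |θ x|) + M' * (b - a)) +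
      ∫ t in a..b, ∫ x in {x | x ∈ S ∧ f t x + κ * θ x ≤ 0}, max (- G t x) 0 := by
  have hbT : b ∈ Ico 0 T := ⟨ha.trans hab, hb⟩
  have hfk : JC T (fun t x => f t x + κ * θ x) := JC_add hf (JC_const (continuous_const.mul hθ))
  have hε : ∀ n : ℕ, (0:ℝ) < 1 / ((n : ℝ) + 1) := fun n => by positivity
  choose j hj hj1 hj2 using fun n : ℕ => jpl (hε n)
  have hdc : ∀ n, Continuous (deriv (j n)) := fun n => (hj n).jf.smooth.continuous_deriv (by norm_num)
  have hev : ∀ s > 0, ∀ᶠ n in atTop, deriv (j n) s = 1 := by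
    intro s hs
    have h0 := (tendsto_one_div_add_atTop_nhds_zero_nat (𝕜 := ℝ)).eventually (gt_mem_nhds hs)
    filter_upwards [h0] with n hn
    exact hj1 n s hn.le
  obtain ⟨bi, bl⟩ := bal_lim hfk hG ha hab hb hM hS (j := fun n => deriv (j n)) hdc (fun n => (hj n).d0)
    (fun n => (hj n).d1) (fun n s hs => ((hj n).z s hs).2) hev
  have key : ∀ n, ∫ x in S, j n (f b x + κ * θ x) ≤
      (∫ x in S, max (f a x) 0) + κ * ((∫ x, |θ x|) + M' * (b - a)) +
      ∫ t in a..b, ∫ x in S, (1 - deriv (j n) (f t x + κ * θ x)) * max (- G t x) 0 := by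
    intro n
    obtain ⟨e1, e2, e3⟩ := HEV (j n) (hj n)
    have A : ∫ x in S, j n (f a x + κ * θ x) ≤ (∫ x in S, max (f a x) 0) + κ * ∫ x, |θ x| := by
      have m1 : IntegrableOn (fun x => max (f a x) 0) S := Integrable.pos_part hfa
      have m2 : IntegrableOn (fun x => κ * |θ x|) S := (hθi.abs.const_mul κ).integrableOn
      have m3 : ∫ x in S, j n (f a x + κ * θ x) ≤ ∫ x in S, (max (f a x) 0 + κ * |θ x|) := by
        refine integral_mono_of_nonneg (Eventually.of_forall fun x => jfun_nonneg (hj n).jf _) (m1.add m2)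
          (Eventually.of_forall fun x => ?_)
        refine ((hj n).le _).trans ?_
        have a1 := mul_le_mul_of_nonneg_left (le_abs_self (θ x)) hκ.le
        have a2 := mul_nonneg hκ.le (abs_nonneg (θ x))
        exact max_le (by linarith [le_max_left (f a x) 0]) (by linarith [le_max_right (f a x) 0])
      have m4 : ∫ x in S, (max (f a x) 0 + κ * |θ x|) = (∫ x in S, max (f a x) 0) + κ * ∫ x in S, |θ x| := by
        rw [integral_add m1 m2, integral_const_mul]
      have m5 : ∫ x in S, |θ x| ≤ ∫ x, |θ x| :=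
        setIntegral_le_integral hθi.abs (Eventually.of_forall fun x => abs_nonneg (θ x))
      have m6 := mul_le_mul_of_nonneg_left m5 hκ.le
      linarith
    have C : ∫ t in a..b, ∫ x in S, deriv (j n) (f t x + κ * θ x) * (G t x + κ * g t x) ≤
        ∫ t in a..b, ((∫ x in S, (1 - deriv (j n) (f t x + κ * θ x)) * max (- G t x) 0) + κ * M') := by
      refine intervalIntegral.integral_mono_on hab e2 ((bi n).add intervalIntegrable_const) fun t ht => ?_
      have htT : t ∈ Ico 0 T := ⟨ha.trans ht.1, ht.2.trans_lt hb⟩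
      exact LimP_slice (D := fun x => deriv (j n) (f t x + κ * θ x)) hκ ((hdc n).comp (LimP_slc hfk htT))
        (fun x => (hj n).d0 _) (fun x => (hj n).d1 _) (hM t ht).1 (hM' t ht).1 (hG0 t ht) (hM' t ht).2
    rw [intervalIntegral.integral_add (bi n) intervalIntegrable_const, intervalIntegral.integral_const,
      smul_eq_mul] at C
    have hc : (b - a) * (κ * M') = κ * (M' * (b - a)) := by ring
    rw [hc] at C
    rw [mul_add κ]
    linarith
  refine LimP_fatou (Φ := fun n x => j n (f b x + κ * θ x)) ?_ (fun x => le_max_right _ _) (fun n => ?_)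
    (fun n x => jfun_nonneg (hj n).jf _) (fun n => (HEV (j n) (hj n)).1) key (tendsto_const_nhds.add bl)
    (fun x => ?_)
  · exact ((LimP_slc hfk hbT).max continuous_const).measurable
  · exact (hj n).jf.smooth.continuous.comp (LimP_slc hfk hbT)
  · refine tendsto_of_tendsto_of_tendsto_of_le_of_le
      (g := fun n : ℕ => max (f b x + κ * θ x) 0 - 1 / ((n:ℝ) + 1))
      (h := fun _ => max (f b x + κ * θ x) 0) ?_ tendsto_const_nhds (fun n => hj2 n _) (fun n => (hj n).le _)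
    simpa using (tendsto_const_nhds (x := max (f b x + κ * θ x) 0)).sub
      (tendsto_one_div_add_atTop_nhds_zero_nat (𝕜 := ℝ))

theorem limP {T : ℝ} {f G g : ℝ → E3 → ℝ} {θ : E3 → ℝ} (hf : JC T f) (hG : JC T G) (hg : JC T g) (hθ : Continuous θ)
    (hθi : Integrable θ) {S : Set E3} (hS : MeasurableSet S) (hpos : ∀ x ∈ S, 0 < θ x) {a b M M' : ℝ} (ha : 0 ≤ a) (hab : a ≤ b) (hb : b < T)
    (hM : ∀ t ∈ Icc a b, Integrable (G t) ∧ ∫ x, |G t x| ≤ M) (hG0 : ∀ t ∈ Icc a b, ∫ x in S, G t x ≤ 0)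
    (hM' : ∀ t ∈ Icc a b, Integrable (g t) ∧ ∫ x, |g t x| ≤ M') (hfa : IntegrableOn (f a) S)
    (HEV : ∀ κ : ℝ, 0 < κ → ∀ j : ℝ → ℝ, JP j →
      IntegrableOn (fun x => j (f b x + κ * θ x)) S ∧
      IntervalIntegrable (fun t => ∫ x in S, deriv j (f t x + κ * θ x) * (G t x + κ * g t x)) volume a b ∧
      ∫ x in S, j (f b x + κ * θ x) ≤ (∫ x in S, j (f a x + κ * θ x)) +
        ∫ t in a..b, ∫ x in S, deriv j (f t x + κ * θ x) * (G t x + κ * g t x)) :
    IntegrableOn (fun x => max (f b x) 0) S ∧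
    ∫ x in S, max (f b x) 0 ≤ (∫ x in S, max (f a x) 0) + ∫ t in a..b, ∫ x in {x | x ∈ S ∧ f t x < 0}, max (- G t x) 0 := by
  have hbT : b ∈ Ico 0 T := ⟨ha.trans hab, hb⟩
  have fbc := LimP_slc hf hbT
  have kap := fun (κ : ℝ) (hκ : 0 < κ) =>
    LimP_kap hf hG hθ hθi hS ha hab hb hM hG0 hM' hfa hκ (HEV κ hκ)
  have hle : ∀ κ : ℝ, 0 < κ → ∀ x ∈ S, max (f b x) 0 ≤ max (f b x + κ * θ x) 0 := fun κ hκ x hx =>
    max_le_max (by have := mul_pos hκ (hpos x hx); linarith) le_rfl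
  have hI : IntegrableOn (fun x => max (f b x) 0) S := by
    refine Integrable.mono (kap 1 one_pos).1 (fbc.max continuous_const).aestronglyMeasurable ?_
    refine (ae_restrict_iff' hS).2 (Eventually.of_forall fun x hx => ?_)
    rw [Real.norm_of_nonneg (le_max_right _ _), Real.norm_of_nonneg (le_max_right _ _)]
    exact hle 1 one_pos x hx
  refine ⟨hI, le_of_forall_pos_le_add fun δ hδ => ?_⟩
  have hM0 : 0 ≤ M' := (integral_nonneg fun x => abs_nonneg _).trans (hM' a ⟨le_rfl, hab⟩).2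
  have hC0 : 0 ≤ (∫ x, |θ x|) + M' * (b - a) :=
    add_nonneg (integral_nonneg fun x => abs_nonneg _) (mul_nonneg hM0 (sub_nonneg.2 hab))
  obtain ⟨C, hC⟩ : ∃ C, C = (∫ x, |θ x|) + M' * (b - a) := ⟨_, rfl⟩
  rw [← hC] at hC0
  obtain ⟨κ, hκe⟩ : ∃ κ, κ = δ / (C + 1) := ⟨_, rfl⟩
  have hκ : 0 < κ := by rw [hκe]; positivity
  obtain ⟨k1, k2⟩ := kap κ hκ
  rw [← hC] at k2
  have h1 : ∫ x in S, max (f b x) 0 ≤ ∫ x in S, max (f b x + κ * θ x) 0 :=
    setIntegral_mono_on hI k1 hS (hle _ hκ)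
  have h2 : κ * C ≤ δ := by
    rw [hκe, div_mul_eq_mul_div, div_le_iff₀ (by positivity)]
    nlinarith
  have hfk : JC T (fun t x => f t x + κ * θ x) := JC_add hf (JC_const (continuous_const.mul hθ))
  have h3 : ∫ t in a..b, ∫ x in {x | x ∈ S ∧ f t x + κ * θ x ≤ 0}, max (- G t x) 0 ≤
      ∫ t in a..b, ∫ x in {x | x ∈ S ∧ f t x < 0}, max (- G t x) 0 := by
    refine intervalIntegral.integral_mono_on hab (bal_ii hfk hG ha hab hb hM hS).2.1
      (bal_ii hf hG ha hab hb hM hS).1 fun t ht => ?_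
    refine setIntegral_mono_set ((hM t ht).1.neg.pos_part).integrableOn
      (Eventually.of_forall fun x => le_max_right _ _) (HasSubset.Subset.eventuallyLE ?_)
    rintro x ⟨hx, hx2⟩
    refine ⟨hx, ?_⟩
    have := mul_pos hκ (hpos x hx)
    linarith
  linarith

end Pool.Agent.H72.CC
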