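/-
ROW PerA (MP_09540e_CC). Perturbed and reflected evolution equations. PROOF of evo_add: smooth, joint (θ is smooth and does not depend on time), cont, contd (`pd i (f t + κ θ) = pd i (f t) + κ pd i θ`), contG: JC_add, JC_const, EVg_adv_jc (NC/EVg.lean) for `adv (u t x) θ x`. bd: for `T' < T` take the
constants of hf.bd, hu.bd (`‖u‖ ≤ Ku`), hθ.db; `DB 1` of the sum: add_BL, smul_BL (NS/IBP.lean); `|adv (u t x) θ x| ≤ Ku √3 √(gsq θ)`: BL of `u_i pd i θ` (mul_BL, `|u_i| ≤ Ku`) and add_BL. eq: both sides linear, `2/rsq rdr θ = q` off the axis (rd),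
`deriv (fun s => f s x + κ θ x) t = deriv (fun s => f s x) t` (deriv_add_const), adv, lap, rdr linear (LevX_pd_add, EVg_pd_add..).
evo_neg: linear. pG_jc, pG_bd: `∫ |pG| ≤ 3 Ku ∑ ∫ |pd i θ| + ∫ |lap θ| + ∫ |q|`; pG is continuous in x (integrable by domination).
-/
import Pool.Agent.H72.CC.VDefs
import Pool.Agent.H87.NC.EVg
import Pool.Agent.H87.NS.LevX
import Pool.Agent.H87.NS.AvkC

set_option autoImplicit false

open Set Filter Topology MeasureTheory
open scoped ContDiff

namespace Pool.Agent.H72.CC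

open Pool.Agent.H16 Pool.Agent.H87.NS

variable {T : ℝ} {u : ℝ → E3 → E3} {f G : ℝ → E3 → ℝ} {θ q : E3 → ℝ}

theorem PerA_lap_cont {χ : E3 → ℝ} (hχ : ContDiff ℝ ∞ χ) : Continuous (lap χ) := by
  unfold lap
  exact continuous_finsetSum _ fun i _ => (pd_smooth (pd_smooth hχ i) i).continuous

theorem PerA_slice {Φ : ℝ → E3 → ℝ} (h : JC T Φ) {t : ℝ} (ht : t ∈ Ico 0 T) :
    Continuous (Φ t) := by
  have h1 : Continuous fun x : E3 => ((t, x) : ℝ × E3) := by fun_prop
  have h2 := ContinuousOn.comp_continuous h h1 (fun x => ⟨ht, mem_univ _⟩)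
  exact h2

theorem PerA_adv_jc (hu : Drift T u) {φ : E3 → ℝ} (hφ : ContDiff ℝ ∞ φ) :
    JC T (fun t x => adv (u t x) φ x) := by
  have h3 : ContinuousOn (fun p : ℝ × E3 => adv (u p.1 p.2) φ p.2) (Ico 0 T ×ˢ univ) := by
    unfold adv
    refine continuousOn_finsetSum _ fun i _ => ?_
    exact ((continuous_coord i).comp_continuousOn hu.cont).mul
      ((pd_smooth hφ i).continuous.comp continuous_snd).continuousOn
  exact h3

theorem PerA_coord_le (x : E3) (i : Fin 3) : |x i| ≤ ‖x‖ := by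
  have h := PiLp.norm_apply_le x i
  rwa [Real.norm_eq_abs] at h

theorem PerA_pd_add {g h : E3 → ℝ} (hg : ContDiff ℝ ∞ g) (hh : ContDiff ℝ ∞ h) (κ : ℝ) (i : Fin 3) :
    pd i (fun y => g y + κ * h y) = fun x => pd i g x + κ * pd i h x := by
  funext x
  have hg1 : DifferentiableAt ℝ g x := (hg.differentiable (by simp)) x
  have hh1 : DifferentiableAt ℝ h x := (hh.differentiable (by simp)) x
  rw [LevX_pd_add hg1 (hh1.const_mul κ)]
  unfold pd
  rw [fderiv_const_mul hh1]
  simp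

theorem PerA_pd_neg (g : E3 → ℝ) (i : Fin 3) :
    pd i (fun y => - g y) = fun x => - pd i g x := by
  funext x
  unfold pd
  rw [fderiv_fun_neg]
  simp

theorem PerA_neg_BL {K : ℝ} {g : E3 → ℝ} (h : BL K g) : BL K (fun x => - g x) := by
  refine ⟨fun x => ?_, ?_, ?_⟩
  · rw [abs_neg]
    exact h.1 x
  · have h1 := h.2.1
    simpa only [neg_sq] using h1
  · have h1 := h.2.2
    simpa only [neg_sq] using h1

theorem pG_jc (hu : Drift T u) (hθ : Pert θ q) : JC T (pG u θ q) := by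
  have h : JC T (fun t x => adv (u t x) θ x - lap θ x - q x) :=
    ContinuousOn.sub (ContinuousOn.sub (PerA_adv_jc hu hθ.sm) (JC_const (PerA_lap_cont hθ.sm)))
      (JC_const hθ.cq)
  exact h

theorem pG_bd (hu : Drift T u) (hθ : Pert θ q) {b : ℝ} (hb : b < T) :
    ∃ M : ℝ, 0 ≤ M ∧ ∀ t ∈ Icc 0 b, Integrable (pG u θ q t) ∧ ∫ x, |pG u θ q t x| ≤ M := by
  obtain ⟨Ku, hKu⟩ := hu.bd b hb
  have hg : Integrable (fun x => |Ku| * (∑ i : Fin 3, |pd i θ x|) + |lap θ x| + |q x|) :=
    (((integrable_finsetSum _ fun i _ => (hθ.l1p i).abs).const_mul _).add hθ.l1l.abs).add hθ.l1q.abs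
  refine ⟨∫ x, (|Ku| * (∑ i : Fin 3, |pd i θ x|) + |lap θ x| + |q x|),
    integral_nonneg fun x => by positivity, fun t ht => ?_⟩
  have ht' : t ∈ Ico 0 T := ⟨ht.1, lt_of_le_of_lt ht.2 hb⟩
  have hc : Continuous (pG u θ q t) := PerA_slice (pG_jc hu hθ) ht'
  have hle : ∀ x, |pG u θ q t x| ≤ |Ku| * (∑ i : Fin 3, |pd i θ x|) + |lap θ x| + |q x| := by
    intro x
    have h1 : |adv (u t x) θ x| ≤ |Ku| * (∑ i : Fin 3, |pd i θ x|) := by
      unfold adv
      refine (Finset.abs_sum_le_sum_abs _ _).trans ?_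
      rw [Finset.mul_sum]
      refine Finset.sum_le_sum fun i _ => ?_
      rw [abs_mul]
      exact mul_le_mul_of_nonneg_right
        (((PerA_coord_le _ i).trans (hKu t ht x)).trans (le_abs_self _)) (abs_nonneg _)
    unfold pG
    have h2 : |adv (u t x) θ x - lap θ x - q x| ≤ |adv (u t x) θ x| + |lap θ x| + |q x| := by
      have h3 := abs_sub (adv (u t x) θ x - lap θ x) (q x)
      have h4 := abs_sub (adv (u t x) θ x) (lap θ x)
      linarith
    linarith
  have hint : Integrable (pG u θ q t) :=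
    Integrable.mono' hg hc.aestronglyMeasurable (Eventually.of_forall fun x => by
      rw [Real.norm_eq_abs]
      exact hle x)
  exact ⟨hint, integral_mono hint.abs hg hle⟩

theorem PerA_adv_add {g h : E3 → ℝ} (hg : ContDiff ℝ ∞ g) (hh : ContDiff ℝ ∞ h) (κ : ℝ) (w x : E3) :
    adv w (fun y => g y + κ * h y) x = adv w g x + κ * adv w h x := by
  unfold adv
  simp only [PerA_pd_add hg hh κ]
  rw [Finset.mul_sum, ← Finset.sum_add_distrib]
  refine Finset.sum_congr rfl fun i _ => ?_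
  ring

theorem PerA_lap_add {g h : E3 → ℝ} (hg : ContDiff ℝ ∞ g) (hh : ContDiff ℝ ∞ h) (κ : ℝ) (x : E3) :
    lap (fun y => g y + κ * h y) x = lap g x + κ * lap h x := by
  unfold lap
  rw [Finset.mul_sum, ← Finset.sum_add_distrib]
  refine Finset.sum_congr rfl fun i _ => ?_
  rw [PerA_pd_add hg hh κ, PerA_pd_add (pd_smooth hg i) (pd_smooth hh i) κ]

theorem PerA_rdr_add {g h : E3 → ℝ} (hg : ContDiff ℝ ∞ g) (hh : ContDiff ℝ ∞ h) (κ : ℝ) (x : E3) :
    rdr (fun y => g y + κ * h y) x = rdr g x + κ * rdr h x := by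
  unfold rdr
  simp only [PerA_pd_add hg hh κ]
  ring

theorem PerA_pG_BL (hu : Drift T u) (hθ : Pert θ q) {b : ℝ} (hb : b < T) :
    ∃ K : ℝ, ∀ t ∈ Icc 0 b, BL K (pG u θ q t) := by
  obtain ⟨Ku, hKu⟩ := hu.bd b hb
  obtain ⟨Kθ, hd, hl, hq⟩ := hθ.db
  refine ⟨2 * (2 * (2 * (2 * ((Ku * Kθ + Ku ^ 2 * Kθ) + (Ku * Kθ + Ku ^ 2 * Kθ)) +
    (Ku * Kθ + Ku ^ 2 * Kθ)) + Kθ) + Kθ), fun t ht => ?_⟩
  have ht' : t ∈ Ico 0 T := ⟨ht.1, lt_of_le_of_lt ht.2 hb⟩
  have huc : Continuous (u t) := (hu.smooth t ht').continuous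
  have hci : ∀ i : Fin 3, Continuous (fun x => u t x i) := fun i => (continuous_coord i).comp huc
  have hpi : ∀ i : Fin 3, Continuous (pd i θ) := fun i => (pd_smooth hθ.sm i).continuous
  have hB : ∀ i : Fin 3, BL (Ku * Kθ + Ku ^ 2 * Kθ) (fun x => u t x i * pd i θ x) := fun i =>
    mul_BL (hpi i) (hci i) (hd.2 i) (fun x => (PerA_coord_le _ i).trans (hKu t ht x))
  have hBc : ∀ i : Fin 3, Continuous (fun x => u t x i * pd i θ x) := fun i => (hci i).mul (hpi i)
  have h1 := add_BL (hBc 0) (hBc 1) (hB 0) (hB 1)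
  have h2 := add_BL ((hBc 0).add (hBc 1)) (hBc 2) h1 (hB 2)
  have h3 := add_BL (((hBc 0).add (hBc 1)).add (hBc 2)) (PerA_lap_cont hθ.sm).neg h2 (PerA_neg_BL hl)
  have h4 := add_BL ((((hBc 0).add (hBc 1)).add (hBc 2)).add (PerA_lap_cont hθ.sm).neg) hθ.cq.neg h3
    (PerA_neg_BL hq)
  have h5 : pG u θ q t = fun x => u t x 0 * pd 0 θ x + u t x 1 * pd 1 θ x + u t x 2 * pd 2 θ x +
      - lap θ x + - q x := by
    funext x
    unfold pG adv
    rw [Fin.sum_univ_three]
    ring
  rw [h5]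
  exact h4

theorem evo_add (hu : Drift T u) (hf : Evo T u f G) (hθ : Pert θ q) (κ : ℝ) :
    Evo T u (fun t x => f t x + κ * θ x) (fun t x => G t x + κ * pG u θ q t x) where
  smooth := fun t ht => (hf.smooth t ht).add (contDiff_const.mul hθ.sm)
  joint := hf.joint.add (contDiffOn_const.mul (hθ.sm.comp contDiff_snd).contDiffOn)
  cont := JC_add hf.cont (JC_const (continuous_const.mul hθ.sm.continuous))
  contd := by
    intro i
    have h : JC T (fun t x => pd i (f t) x + κ * pd i θ x) :=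
      JC_add (hf.contd i) (JC_const (continuous_const.mul (pd_smooth hθ.sm i).continuous))
    refine ContinuousOn.congr h fun p hp => ?_
    exact congrFun (PerA_pd_add (hf.smooth p.1 hp.1) hθ.sm κ i) p.2
  contG := JC_add hf.contG (JC_mul (JC_const continuous_const) (pG_jc hu hθ))
  bd := by
    intro T' hT'
    obtain ⟨K1, hK1⟩ := hf.bd T' hT'
    obtain ⟨Kp, hKp⟩ := PerA_pG_BL hu hθ hT'
    obtain ⟨Kθ, hd, hl, hq⟩ := hθ.db
    refine ⟨max (2 * (K1 + (|κ| + κ ^ 2) * Kθ)) (2 * (K1 + (|κ| + κ ^ 2) * Kp)), fun t ht => ?_⟩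
    have ht' : t ∈ Ico 0 T := ⟨ht.1, lt_of_le_of_lt ht.2 hT'⟩
    obtain ⟨hD, hG⟩ := hK1 t ht
    have hfs := hf.smooth t ht'
    refine ⟨⟨?_, fun i => ?_⟩, ?_⟩
    · exact BL_mono (add_BL hfs.continuous (continuous_const.mul hθ.sm.continuous) hD.1
        (smul_BL hd.1 κ)) (le_max_left _ _)
    · have h1 : BL (2 * (K1 + (|κ| + κ ^ 2) * Kθ)) (fun x => pd i (f t) x + κ * pd i θ x) :=
        add_BL (pd_smooth hfs i).continuous
          (continuous_const.mul (pd_smooth hθ.sm i).continuous) (hD.2 i) (smul_BL (hd.2 i) κ)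
      rw [← PerA_pd_add hfs hθ.sm κ i] at h1
      exact BL_mono h1 (le_max_left _ _)
    · exact BL_mono (add_BL (PerA_slice hf.contG ht')
        (continuous_const.mul (PerA_slice (pG_jc hu hθ) ht')) hG (smul_BL (hKp t ht) κ))
        (le_max_right _ _)
  eq := by
    intro t ht x hx
    have ht' : t ∈ Ico 0 T := ⟨ht.1.le, ht.2⟩
    have hfs := hf.smooth t ht'
    have h1 := hf.eq t ht x hx
    have h2 : deriv (fun s => f s x + κ * θ x) t = deriv (fun s => f s x) t := by
      rw [deriv_add_const]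
    have h3 := PerA_adv_add hfs hθ.sm κ (u t x) x
    have h4 := PerA_lap_add hfs hθ.sm κ x
    have h5 := PerA_rdr_add hfs hθ.sm κ x
    have h6 : 2 / rsq x * rdr θ x = q x := by
      rw [hθ.rd x]
      have hne := hx.ne'
      field_simp
    show deriv (fun s => f s x + κ * θ x) t + adv (u t x) (fun y => f t y + κ * θ y) x =
      lap (fun y => f t y + κ * θ y) x + 2 / rsq x * rdr (fun y => f t y + κ * θ y) x +
        (G t x + κ * pG u θ q t x)
    rw [h2, h3, h4, h5, mul_add]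
    have h7 : 2 / rsq x * (κ * rdr θ x) = κ * q x := by
      rw [← h6]
      ring
    rw [h7]
    unfold pG
    linear_combination h1

theorem evo_neg (hf : Evo T u f G) : Evo T u (fun t x => - f t x) (fun t x => - G t x) where
  smooth := fun t ht => (hf.smooth t ht).neg
  joint := hf.joint.neg
  cont := ContinuousOn.neg hf.cont
  contd := by
    intro i
    refine ContinuousOn.congr (ContinuousOn.neg (hf.contd i)) fun p _ => ?_
    exact congrFun (PerA_pd_neg (f p.1) i) p.2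
  contG := ContinuousOn.neg hf.contG
  bd := by
    intro T' hT'
    obtain ⟨K1, hK1⟩ := hf.bd T' hT'
    refine ⟨K1, fun t ht => ?_⟩
    obtain ⟨hD, hG⟩ := hK1 t ht
    refine ⟨⟨PerA_neg_BL hD.1, fun i => ?_⟩, PerA_neg_BL hG⟩
    have h1 : BL K1 (fun x => - pd i (f t) x) := PerA_neg_BL (hD.2 i)
    rw [← PerA_pd_neg (f t) i] at h1
    exact h1
  eq := by
    intro t ht x hx
    have h1 := hf.eq t ht x hx
    have h2 : deriv (fun s => - f s x) t = - deriv (fun s => f s x) t := by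
      rw [deriv.fun_neg]
    have h3 : adv (u t x) (fun y => - f t y) x = - adv (u t x) (f t) x := by
      unfold adv
      simp only [PerA_pd_neg (f t)]
      rw [← Finset.sum_neg_distrib]
      refine Finset.sum_congr rfl fun i _ => ?_
      ring
    have h4 : lap (fun y => - f t y) x = - lap (f t) x := by
      unfold lap
      rw [← Finset.sum_neg_distrib]
      refine Finset.sum_congr rfl fun i _ => ?_
      rw [PerA_pd_neg (f t) i, PerA_pd_neg (pd i (f t)) i]
    have h5 : rdr (fun y => - f t y) x = - rdr (f t) x := by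
      unfold rdr
      simp only [PerA_pd_neg (f t)]
      ring
    show deriv (fun s => - f s x) t + adv (u t x) (fun y => - f t y) x =
      lap (fun y => - f t y) x + 2 / rsq x * rdr (fun y => - f t y) x + - G t x
    rw [h2, h3, h4, h5]
    linear_combination - h1

end Pool.Agent.H72.CC
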