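/-
ROW PerB (MP_09540e_CC). The perturbations. PROOF. `S = 1 + ‖x‖²` (smooth, ≥ 1), `pd i S = 2 x i`. th1: `θ = S⁻²`, `pd i θ = - 4 x i S⁻³`, `rdr θ = - 4 rsq S⁻³`, so `q = - 8 S⁻³`, `lap θ = - 12 S⁻³ + 24 ‖x‖² S⁻⁴`. th2: `θ = x₂ S⁻³`, `pd i θ = δ_{i2} S⁻³ - 6 x_i x₂ S⁻⁴`,
`rdr θ = - 6 rsq x₂ S⁻⁴`, `q = - 12 x₂ S⁻⁴`, `lap θ = ∑ pd i (pd i θ)` is a combination of `x₂ S⁻⁴` and `x₂ ‖x‖² S⁻⁵`. All of θ, pd i θ, lap θ, q are continuous and bounded by `C S⁻²` in absolute value (`|x i| ≤ S`, `‖x‖² ≤ S`; for th2 use `|x₂| ≤ S`), which is bounded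
and integrable (integrable_rpow_neg_one_add_norm_sq, exponent 4 > 3; or P52_int-like lemmas in NS/KInt.lean), and so is its square (`S⁻⁴ ≤ S⁻²`). DB 1: values and first derivatives.
-/
import Pool.Agent.H72.CC.VDefs
import Pool.Agent.H87.NS.KInt
import Pool.Agent.H87.NS.LevX

set_option autoImplicit false

open Set Filter Topology MeasureTheory
open scoped ContDiff

namespace Pool.Agent.H72.CC

open Pool.Agent.H16 Pool.Agent.H87.NS

/-- `((1 + ‖x‖²)ⁿ)⁻¹` -/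
noncomputable def PerB_I (n : ℕ) (x : E3) : ℝ := ((1 + ‖x‖ ^ 2) ^ n)⁻¹

lemma PerB_S (x : E3) : 1 ≤ 1 + ‖x‖ ^ 2 := by nlinarith [sq_nonneg ‖x‖]

lemma PerB_Ipos (n : ℕ) (x : E3) : 0 < PerB_I n x := by
  unfold PerB_I; positivity

lemma PerB_I_succ (n : ℕ) (x : E3) : (1 + ‖x‖ ^ 2) * PerB_I (n + 1) x = PerB_I n x := by
  unfold PerB_I
  have h : (1 + ‖x‖ ^ 2) ≠ 0 := by positivity
  rw [pow_succ (1 + ‖x‖ ^ 2) n]
  field_simp

lemma PerB_I_anti (n : ℕ) (x : E3) : PerB_I (n + 1) x ≤ PerB_I n x := by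
  have h := PerB_I_succ n x
  have h1 := PerB_S x
  have h2 := PerB_Ipos (n + 1) x
  nlinarith

lemma PerB_cd (n : ℕ) : ContDiff ℝ ∞ (PerB_I n) := by
  have h : ContDiff ℝ ∞ (fun z : E3 => (1 + ‖z‖ ^ 2) ^ n) :=
    (contDiff_const.add (contDiff_norm_sq ℝ)).pow n
  exact h.inv (fun x => by positivity)

lemma PerB_pdI (n : ℕ) (i : Fin 3) (x : E3) :
    pd i (PerB_I n) x = - (2 * n) * x i * PerB_I (n + 1) x := by
  have h2 : HasFDerivAt (fun z : E3 => ‖z‖ ^ 2) (2 • (innerSL ℝ x : E3 →L[ℝ] ℝ)) x :=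
    (hasStrictFDerivAt_norm_sq x).hasFDerivAt
  have h3 : HasFDerivAt (fun z : E3 => 1 + ‖z‖ ^ 2) (2 • (innerSL ℝ x : E3 →L[ℝ] ℝ)) x :=
    h2.const_add _
  have hP : 0 < 1 + ‖x‖ ^ 2 := by positivity
  have h4 : HasDerivAt (fun s : ℝ => (s ^ n)⁻¹) (-(n * (1 + ‖x‖ ^ 2) ^ (n - 1)) / ((1 + ‖x‖ ^ 2) ^ n) ^ 2) (1 + ‖x‖ ^ 2) := by
    have h5 := (hasDerivAt_pow n (1 + ‖x‖ ^ 2)).inv (by positivity)
    exact h5
  have h6 := h4.comp_hasFDerivAt x h3
  have h7 : fderiv ℝ (PerB_I n) x = _ := h6.fderiv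
  unfold pd
  rw [h7]
  have h8 : inner ℝ x (e i) = x i := by
    simp [e, EuclideanSpace.inner_single_right]
  simp only [smul_apply, smul_eq_mul, innerSL_apply_apply, nsmul_eq_mul, h8]
  unfold PerB_I
  rcases Nat.eq_zero_or_pos n with hn | hn
  · subst hn; simp
  · obtain ⟨m, rfl⟩ := Nat.exists_eq_succ_of_ne_zero hn.ne'
    simp only [Nat.succ_eq_add_one, Nat.add_sub_cancel]
    have hS : (1 + ‖x‖ ^ 2) ≠ 0 := hP.ne'
    push_cast
    field_simp
    ring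

lemma PerB_pd_mul {f : E3 → ℝ} (hf : Differentiable ℝ f) (n : ℕ) (i : Fin 3) (x : E3) :
    pd i (fun y => f y * PerB_I n y) x = pd i f x * PerB_I n x - 2 * n * f x * x i * PerB_I (n + 1) x := by
  rw [LevX_pd_mul (hf x) (((PerB_cd n).differentiable (by simp)) x), PerB_pdI]
  ring

lemma PerB_int2 : Integrable (PerB_I 2) := by
  have h := KInt_rpow_int (ε := 1) one_pos (r := 4) (by norm_num)
  refine h.congr (Eventually.of_forall fun z => ?_)
  have hP : 0 ≤ 1 + ‖z‖ ^ 2 := by positivity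
  unfold PerB_I
  simp only
  rw [show (-4 / 2 : ℝ) = -((2 : ℕ) : ℝ) by norm_num, one_pow, add_comm, Real.rpow_neg hP, Real.rpow_natCast]

lemma PerB_main {F : E3 → ℝ} (hF : Continuous F) (hb : ∀ x, |F x| ≤ 100 * PerB_I 2 x) :
    Integrable F ∧ BL (100 + 10000 * ∫ x, PerB_I 2 x) F := by
  have hI1 : ∀ x, PerB_I 2 x ≤ 1 := fun x => by
    have h0 : PerB_I 0 x = 1 := by simp [PerB_I]
    linarith [PerB_I_anti 0 x, PerB_I_anti 1 x]
  have hJ : 0 ≤ ∫ x, PerB_I 2 x := integral_nonneg fun x => (PerB_Ipos 2 x).le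
  have hsq : ∀ x, F x ^ 2 ≤ 10000 * PerB_I 2 x := fun x => by
    have h1 := hb x
    have h2 := PerB_Ipos 2 x
    have h3 := hI1 x
    have h4 : F x ^ 2 = |F x| ^ 2 := (sq_abs _).symm
    have h5 := abs_nonneg (F x)
    rw [h4]
    nlinarith
  have hint : Integrable (fun x => F x ^ 2) := by
    refine (PerB_int2.const_mul 10000).mono' (hF.pow 2).aestronglyMeasurable (Eventually.of_forall fun x => ?_)
    rw [Real.norm_of_nonneg (sq_nonneg _)]
    exact hsq x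
  refine ⟨(PerB_int2.const_mul 100).mono' hF.aestronglyMeasurable (Eventually.of_forall fun x => ?_), ?_, hint, ?_⟩
  · rw [Real.norm_eq_abs]; exact hb x
  · intro x
    have h1 := hb x
    have h3 := hI1 x
    nlinarith
  · have h1 := integral_mono hint (PerB_int2.const_mul 10000) hsq
    rw [integral_const_mul] at h1
    linarith

lemma PerB_coord (x : E3) (i : Fin 3) : x i ^ 2 ≤ ‖x‖ ^ 2 := by
  have hn : ‖x‖ ^ 2 = x 0 ^ 2 + x 1 ^ 2 + x 2 ^ 2 := norm_sq_eq x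
  fin_cases i <;> simp only [Fin.zero_eta, Fin.mk_one, Fin.reduceFinMk, Fin.isValue] <;>
    nlinarith [sq_nonneg (x 0), sq_nonneg (x 1), sq_nonneg (x 2)]

/-- weights: `|a| ≤ C S ^ k` -/
lemma PerB_w {a C : ℝ} {k n : ℕ} {x : E3} (ha : |a| ≤ C * (1 + ‖x‖ ^ 2) ^ k) :
    |a * PerB_I (n + k) x| ≤ C * PerB_I n x := by
  have hp := PerB_Ipos (n + k) x
  rw [abs_mul, abs_of_pos hp]
  have h1 : (1 + ‖x‖ ^ 2) ^ k * PerB_I (n + k) x = PerB_I n x := by
    unfold PerB_I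
    have hS : (1 + ‖x‖ ^ 2) ≠ 0 := by positivity
    rw [pow_add]
    field_simp
  calc |a| * PerB_I (n + k) x ≤ C * (1 + ‖x‖ ^ 2) ^ k * PerB_I (n + k) x :=
        mul_le_mul_of_nonneg_right ha hp.le
    _ = C * PerB_I n x := by rw [mul_assoc, h1]

lemma PerB_abs (x : E3) (i : Fin 3) : |x i| ≤ (1 + ‖x‖ ^ 2) ∧ |x i| ^ 2 ≤ 1 + ‖x‖ ^ 2 := by
  have h1 := PerB_coord x i
  have h2 : |x i| ^ 2 = x i ^ 2 := sq_abs _
  have h3 := abs_nonneg (x i)
  constructor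
  · nlinarith [sq_nonneg (|x i| - 1)]
  · linarith

lemma PerB_cdx (i : Fin 3) : ContDiff ℝ ∞ (fun y : E3 => y i) := LevX_coord_cd i

lemma PerB_pdc (c : ℝ) (k i : Fin 3) (x : E3) : pd i (fun y : E3 => c * y k) x = c * (if k = i then 1 else 0) := by
  rw [LevX_pd_mul (differentiableAt_const _) (((LevX_coord_cd k).differentiable (by simp)) x), LevX_pd_coord]
  simp [pd]

lemma PerB_th1 : th1 = PerB_I 2 := rfl

lemma PerB_pd1 (i : Fin 3) : pd i th1 = fun x => (-4 * x i) * PerB_I 3 x := by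
  funext x
  rw [PerB_th1, PerB_pdI]
  push_cast
  ring

lemma PerB_pd11 (i : Fin 3) (x : E3) :
    pd i (pd i th1) x = -4 * PerB_I 3 x + 24 * x i ^ 2 * PerB_I 4 x := by
  rw [PerB_pd1, PerB_pd_mul ((contDiff_const.mul (PerB_cdx i)).differentiable (n := ∞) (by simp)), PerB_pdc]
  simp only [if_true]
  push_cast
  ring

lemma PerB_lap1 : lap th1 = fun x => -12 * PerB_I 3 x + 24 * ‖x‖ ^ 2 * PerB_I 4 x := by
  funext x
  unfold lap
  simp only [PerB_pd11, Fin.sum_univ_three]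
  rw [norm_sq_eq]
  ring

lemma PerB_th2 : th2 = fun x => x 2 * PerB_I 3 x := rfl

lemma PerB_pd2 (i : Fin 3) : pd i th2 = fun x => (if (2 : Fin 3) = i then 1 else 0) * PerB_I 3 x
    + (-6 * x 2 * x i) * PerB_I 4 x := by
  funext x
  rw [PerB_th2, PerB_pd_mul ((PerB_cdx 2).differentiable (by simp)), LevX_pd_coord]
  push_cast
  ring

lemma PerB_pd22 (i : Fin 3) (x : E3) :
    pd i (pd i th2) x = (if (2 : Fin 3) = i then -18 else -6) * x 2 * PerB_I 4 x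
      + 48 * x 2 * x i ^ 2 * PerB_I 5 x := by
  have hd : ∀ n, Differentiable ℝ (PerB_I n) := fun n => (PerB_cd n).differentiable (by simp)
  have hx : ∀ k : Fin 3, Differentiable ℝ (fun y : E3 => y k) := fun k => (PerB_cdx k).differentiable (by simp)
  have h1 : Differentiable ℝ (fun y : E3 => (if (2 : Fin 3) = i then (1 : ℝ) else 0) * PerB_I 3 y) :=
    (hd 3).const_mul _
  have h2 : Differentiable ℝ (fun y : E3 => (-6 * y 2) * y i) := ((hx 2).const_mul _).mul (hx i)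
  have h3 : Differentiable ℝ (fun y : E3 => (-6 * y 2 * y i) * PerB_I 4 y) := h2.mul (hd 4)
  rw [PerB_pd2, LevX_pd_add (h1 x) (h3 x), PerB_pd_mul (differentiable_const _),
    PerB_pd_mul h2, LevX_pd_mul (((hx 2).const_mul _) x) ((hx i) x), PerB_pdc, LevX_pd_coord]
  have hz : pd i (fun _ : E3 => (if (2 : Fin 3) = i then (1 : ℝ) else 0)) x = 0 := by simp [pd]
  rw [hz]
  by_cases h : (2 : Fin 3) = i
  · subst h
    simp only [if_true]
    push_cast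
    ring
  · simp only [h, if_false, if_true]
    push_cast
    ring

lemma PerB_lap2 : lap th2 = fun x => (-30 * x 2) * PerB_I 4 x + (48 * x 2 * ‖x‖ ^ 2) * PerB_I 5 x := by
  funext x
  unfold lap
  simp only [PerB_pd22, Fin.sum_univ_three]
  rw [norm_sq_eq]
  simp only [Fin.isValue, Fin.reduceEq, if_false, if_true]
  ring

lemma PerB_cI (n : ℕ) : Continuous (PerB_I n) := (PerB_cd n).continuous

lemma PerB_cx (i : Fin 3) : Continuous (fun y : E3 => y i) := (PerB_cdx i).continuous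

lemma PerB_nb (x : E3) : |‖x‖ ^ 2| ≤ 1 + ‖x‖ ^ 2 := by
  rw [abs_of_nonneg (sq_nonneg _)]; linarith

theorem th1_pert : Pert th1 (fun x => - 8 * ((1 + ‖x‖ ^ 2) ^ 3)⁻¹) := by
  have e0 : (fun x : E3 => - 8 * ((1 + ‖x‖ ^ 2) ^ 3)⁻¹) = fun x => -8 * PerB_I 3 x := rfl
  rw [e0]
  have hI0 : ∀ (n : ℕ) (x : E3), PerB_I n x = 1 * PerB_I n x := fun n x => (one_mul _).symm
  have m0 := PerB_main (F := th1) (PerB_cI 2) (fun x => by
    rw [PerB_th1, abs_of_pos (PerB_Ipos 2 x)]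
    nlinarith [PerB_Ipos 2 x])
  have m1 : ∀ i, Integrable (pd i th1) ∧ BL (100 + 10000 * ∫ x, PerB_I 2 x) (pd i th1) := fun i => by
    rw [PerB_pd1]
    refine PerB_main ((continuous_const.mul (PerB_cx i)).mul (PerB_cI 3)) (fun x => ?_)
    have h := PerB_abs x i
    refine PerB_w (n := 2) (k := 1) ?_
    rw [abs_mul, pow_one]
    norm_num
    linarith [h.1, abs_nonneg (x i), PerB_S x]
  have m2 : Integrable (lap th1) ∧ BL (100 + 10000 * ∫ x, PerB_I 2 x) (lap th1) := by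
    rw [PerB_lap1]
    refine PerB_main ((continuous_const.mul (PerB_cI 3)).add
      ((continuous_const.mul (continuous_norm.pow 2)).mul (PerB_cI 4))) (fun x => ?_)
    have h1 : |(-12 : ℝ) * PerB_I 3 x| ≤ 12 * PerB_I 2 x := by
      refine PerB_w (n := 2) (k := 1) ?_
      rw [pow_one]
      norm_num
    have h2 : |(24 * ‖x‖ ^ 2) * PerB_I 4 x| ≤ 24 * PerB_I 2 x := by
      refine PerB_w (n := 2) (k := 2) ?_
      rw [abs_mul]
      have := PerB_nb x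
      have h3 := PerB_S x
      norm_num
      nlinarith [sq_nonneg ‖x‖]
    have h4 := abs_add_le (-12 * PerB_I 3 x) (24 * ‖x‖ ^ 2 * PerB_I 4 x)
    have h5 := PerB_Ipos 2 x
    linarith
  have m3 : Integrable (fun x => -8 * PerB_I 3 x) ∧ BL (100 + 10000 * ∫ x, PerB_I 2 x) (fun x => -8 * PerB_I 3 x) := by
    refine PerB_main (continuous_const.mul (PerB_cI 3)) (fun x => ?_)
    refine PerB_w (n := 2) (k := 1) ?_
    rw [pow_one]
    norm_num
    nlinarith [PerB_S x]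
  refine ⟨PerB_cd 2, continuous_const.mul (PerB_cI 3), fun x => ?_, ⟨_, ⟨m0.2, fun i => (m1 i).2⟩, m2.2, m3.2⟩,
    m0.1, fun i => (m1 i).1, m2.1, m3.1⟩
  unfold rdr rsq
  rw [PerB_pd1, PerB_pd1]
  ring

theorem th1_pos (x : E3) : 0 < th1 x := PerB_Ipos 2 x

theorem th2_pert : Pert th2 (fun x => - 12 * x 2 * ((1 + ‖x‖ ^ 2) ^ 4)⁻¹) := by
  have e0 : (fun x : E3 => - 12 * x 2 * ((1 + ‖x‖ ^ 2) ^ 4)⁻¹) = fun x => (-12 * x 2) * PerB_I 4 x := rfl
  rw [e0]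
  have m0 : Integrable th2 ∧ BL (100 + 10000 * ∫ x, PerB_I 2 x) th2 := by
    rw [PerB_th2]
    refine PerB_main ((PerB_cx 2).mul (PerB_cI 3)) (fun x => ?_)
    have h := PerB_abs x 2
    refine PerB_w (n := 2) (k := 1) ?_
    rw [pow_one]
    nlinarith [h.1, PerB_S x]
  have m1 : ∀ i, Integrable (pd i th2) ∧ BL (100 + 10000 * ∫ x, PerB_I 2 x) (pd i th2) := fun i => by
    rw [PerB_pd2]
    refine PerB_main ((continuous_const.mul (PerB_cI 3)).add
      (((continuous_const.mul (PerB_cx 2)).mul (PerB_cx i)).mul (PerB_cI 4))) (fun x => ?_)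
    have h1 : |(if (2 : Fin 3) = i then (1 : ℝ) else 0) * PerB_I 3 x| ≤ 1 * PerB_I 2 x := by
      refine PerB_w (n := 2) (k := 1) ?_
      rw [pow_one]
      split_ifs <;> norm_num <;> nlinarith [PerB_S x]
    have h2 : |(-6 * x 2 * x i) * PerB_I 4 x| ≤ 6 * PerB_I 2 x := by
      refine PerB_w (n := 2) (k := 2) ?_
      rw [abs_mul, abs_mul]
      have h3 := (PerB_abs x 2).1
      have h4 := (PerB_abs x i).1
      have h5 := mul_le_mul h3 h4 (abs_nonneg _) (by linarith [PerB_S x])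
      norm_num
      nlinarith
    have h4 := abs_add_le ((if (2 : Fin 3) = i then (1 : ℝ) else 0) * PerB_I 3 x) ((-6 * x 2 * x i) * PerB_I 4 x)
    have h5 := PerB_Ipos 2 x
    linarith
  have m2 : Integrable (lap th2) ∧ BL (100 + 10000 * ∫ x, PerB_I 2 x) (lap th2) := by
    rw [PerB_lap2]
    refine PerB_main (((continuous_const.mul (PerB_cx 2)).mul (PerB_cI 4)).add
      (((continuous_const.mul (PerB_cx 2)).mul (continuous_norm.pow 2)).mul (PerB_cI 5))) (fun x => ?_)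
    have hS := PerB_S x
    have h3 := (PerB_abs x 2).1
    have h1 : |(-30 * x 2) * PerB_I 4 x| ≤ 30 * PerB_I 2 x := by
      refine PerB_w (n := 2) (k := 2) ?_
      rw [abs_mul]
      norm_num
      nlinarith [abs_nonneg (x 2)]
    have h2 : |(48 * x 2 * ‖x‖ ^ 2) * PerB_I 5 x| ≤ 48 * PerB_I 2 x := by
      refine PerB_w (n := 2) (k := 3) ?_
      rw [abs_mul, abs_mul]
      have h6 := PerB_nb x
      have h5 := mul_le_mul h3 h6 (abs_nonneg _) (by linarith)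
      have h7 : (1 + ‖x‖ ^ 2) * (1 + ‖x‖ ^ 2) ≤ (1 + ‖x‖ ^ 2) ^ 3 := by nlinarith [mul_nonneg (by linarith : (0:ℝ) ≤ 1 + ‖x‖ ^ 2) (by linarith : (0:ℝ) ≤ 1 + ‖x‖ ^ 2)]
      norm_num
      norm_num at h5
      nlinarith
    have h4 := abs_add_le ((-30 * x 2) * PerB_I 4 x) ((48 * x 2 * ‖x‖ ^ 2) * PerB_I 5 x)
    have h5 := PerB_Ipos 2 x
    linarith
  have m3 : Integrable (fun x : E3 => (-12 * x 2) * PerB_I 4 x) ∧
      BL (100 + 10000 * ∫ x, PerB_I 2 x) (fun x : E3 => (-12 * x 2) * PerB_I 4 x) := by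
    refine PerB_main ((continuous_const.mul (PerB_cx 2)).mul (PerB_cI 4)) (fun x => ?_)
    have hS := PerB_S x
    have h3 := (PerB_abs x 2).1
    refine PerB_w (n := 2) (k := 2) ?_
    rw [abs_mul]
    norm_num
    nlinarith [abs_nonneg (x 2)]
  refine ⟨?_, (continuous_const.mul (PerB_cx 2)).mul (PerB_cI 4), fun x => ?_,
    ⟨_, ⟨m0.2, fun i => (m1 i).2⟩, m2.2, m3.2⟩, m0.1, fun i => (m1 i).1, m2.1, m3.1⟩
  · exact (PerB_cdx 2).mul (PerB_cd 3)
  · unfold rdr rsq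
    rw [PerB_pd2, PerB_pd2]
    simp only [Fin.isValue, Fin.reduceEq, if_false]
    ring

theorem th2_pos (x : E3) (hx : 0 < x 2) : 0 < th2 x := mul_pos hx (PerB_Ipos 3 x)

theorem th2_zero (x : E3) (hx : x 2 = 0) : th2 x = 0 := by
  unfold th2; rw [hx, zero_mul]

end Pool.Agent.H72.CC
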