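/-
BalA. The balance of `∫ |f|`, in the whole space and in the half space (assembly).
-/
import Pool.Agent.H72.CC.LimP
import Pool.Agent.H72.CC.LimN
import Pool.Agent.H72.CC.PerA
import Pool.Agent.H72.CC.PerB
import Pool.Agent.H72.CC.HalE
import Pool.Agent.H87.NS.EV

set_option autoImplicit false

open Set Filter Topology MeasureTheory
open scoped ContDiff

namespace Pool.Agent.H72.CC

open Pool.Agent.H16 Pool.Agent.H87.NS

theorem BalA_comb {S : Set E3} {φ ψ : E3 → ℝ} {I : ℝ} (hφc : Continuous φ) (hψ : IntegrableOn ψ S)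
    (h1 : IntegrableOn (fun x => max (φ x) 0) S ∧ ∫ x in S, max (φ x) 0 ≤ (∫ x in S, max (ψ x) 0) + I)
    (h2 : IntegrableOn (fun x => max (- φ x) 0) S ∧ ∫ x in S, max (- φ x) 0 ≤ (∫ x in S, max (- ψ x) 0) + I) :
    IntegrableOn φ S ∧ ∫ x in S, |φ x| ≤ (∫ x in S, |ψ x|) + 2 * I := by
  have habs : ∀ s : ℝ, |s| = max s 0 + max (- s) 0 := fun s => by
    rcases le_or_gt 0 s with h | h
    · rw [abs_of_nonneg h, max_eq_left h, max_eq_right (by linarith), add_zero]
    · rw [abs_of_neg h, max_eq_right h.le, max_eq_left (by linarith), zero_add]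
  have e1 : ∫ x in S, |φ x| = (∫ x in S, max (φ x) 0) + ∫ x in S, max (- φ x) 0 := by
    rw [← integral_add h1.1 h2.1]
    exact integral_congr_ae (Eventually.of_forall fun x => habs _)
  have p1 : IntegrableOn (fun x => max (ψ x) 0) S := hψ.pos_part
  have p2 : IntegrableOn (fun x => max (- ψ x) 0) S := hψ.neg_part
  have e2 : ∫ x in S, |ψ x| = (∫ x in S, max (ψ x) 0) + ∫ x in S, max (- ψ x) 0 := by
    rw [← integral_add p1 p2]
    exact integral_congr_ae (Eventually.of_forall fun x => habs _)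
  refine ⟨?_, by rw [e1, e2]; linarith [h1.2, h2.2]⟩
  have := h1.1.add h2.1
  refine Integrable.mono this hφc.aestronglyMeasurable (Eventually.of_forall fun x => ?_)
  simp only [Pi.add_apply, ← habs, Real.norm_eq_abs, abs_abs, le_refl]

variable {T : ℝ} {u : ℝ → E3 → E3} {f G : ℝ → E3 → ℝ}

theorem bal_full (hu : Drift T u) (hf : Evo T u f G) {a b M : ℝ} (ha : 0 ≤ a) (hab : a ≤ b) (hb : b < T)
    (hM : ∀ t ∈ Icc a b, Integrable (G t) ∧ ∫ x, |G t x| ≤ M) (hG0 : ∀ t ∈ Icc a b, ∫ x, G t x ≤ 0) (hfa : Integrable (f a)) :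
    Integrable (f b) ∧ ∫ x, |f b x| ≤ (∫ x, |f a x|) + 2 * ∫ t in a..b, ∫ x in {x | f t x < 0}, max (- G t x) 0 := by
  obtain ⟨M', -, hM'⟩ := pG_bd hu th1_pert hb
  have hcb : Continuous (f b) := (hf.smooth b ⟨ha.trans hab, hb⟩).continuous
  have h1 := limP (S := univ) hf.cont hf.contG (pG_jc hu th1_pert) th1_pert.sm.continuous th1_pert.l1 MeasurableSet.univ
    (fun x _ => th1_pos x) ha hab hb hM (fun t ht => by rw [setIntegral_univ]; exact hG0 t ht)
    (fun t ht => hM' t ⟨ha.trans ht.1, ht.2⟩) hfa.integrableOn (by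
      intro κ hκ j hj
      have he := evo_add hu hf th1_pert κ
      obtain ⟨i1, -, -⟩ := evo_int he hj.jf (t := b) ⟨ha.trans hab, hb⟩
      obtain ⟨-, -, i2⟩ := evo_ii he hj.jf ha hab hb
      have i3 := ev1 hu he hj.jf ha hab hb
      simp only [setIntegral_univ, integrableOn_univ]
      refine ⟨i1, i2, ?_⟩
      have i4 : 0 ≤ ∫ t in a..b, ∫ x, deriv (deriv j) (f t x + κ * th1 x) * gsq (fun x => f t x + κ * th1 x) x :=
        intervalIntegral.integral_nonneg hab fun t _ => integral_nonneg fun x =>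
          mul_nonneg (hj.jf.convex _) (gsq_nonneg _ _)
      linarith)
  have h2 := limN (S := univ) hf.cont hf.contG MeasurableSet.univ ha hab hb hM hfa.integrableOn (by
      intro j hj
      have he := evo_neg hf
      obtain ⟨i1, -, -⟩ := evo_int he hj.jf (t := b) ⟨ha.trans hab, hb⟩
      obtain ⟨-, -, i2⟩ := evo_ii he hj.jf ha hab hb
      have i3 := ev1 hu he hj.jf ha hab hb
      simp only [setIntegral_univ, integrableOn_univ]
      refine ⟨i1, i2, ?_⟩
      have i4 : 0 ≤ ∫ t in a..b, ∫ x, deriv (deriv j) (- f t x) * gsq (fun x => - f t x) x :=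
        intervalIntegral.integral_nonneg hab fun t _ => integral_nonneg fun x =>
          mul_nonneg (hj.jf.convex _) (gsq_nonneg _ _)
      linarith)
  have h3 := BalA_comb hcb hfa.integrableOn h1 h2
  simpa only [setIntegral_univ, integrableOn_univ, mem_univ, true_and] using h3

theorem bal_half (hu : Drift T u) (hf : Evo T u f G) (h0 : ∀ t ∈ Ico 0 T, ∀ x : E3, x 2 = 0 → f t x = 0) {a b M K₂ : ℝ}
    (ha : 0 ≤ a) (hab : a ≤ b) (hb : b < T) (hu2 : ∀ t ∈ Icc a b, ∀ x, |u t x 2| ≤ K₂ * |x 2|)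
    (hM : ∀ t ∈ Icc a b, Integrable (G t) ∧ ∫ x, |G t x| ≤ M) (hG0 : ∀ t ∈ Icc a b, ∫ x in {x : E3 | 0 < x 2}, G t x ≤ 0)
    (hfa : IntegrableOn (f a) {x : E3 | 0 < x 2}) :
    IntegrableOn (f b) {x : E3 | 0 < x 2} ∧ ∫ x in {x : E3 | 0 < x 2}, |f b x| ≤ (∫ x in {x : E3 | 0 < x 2}, |f a x|) +
      2 * ∫ t in a..b, ∫ x in {x : E3 | 0 < x 2 ∧ f t x < 0}, max (- G t x) 0 := by
  obtain ⟨M', -, hM'⟩ := pG_bd hu th2_pert hb
  have hcb : Continuous (f b) := (hf.smooth b ⟨ha.trans hab, hb⟩).continuous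
  have hS : MeasurableSet {x : E3 | 0 < x 2} := by
    refine measurableSet_lt measurable_const ?_
    exact (EuclideanSpace.proj (2 : Fin 3) : E3 →L[ℝ] ℝ).continuous.measurable
  have h1 := limP (S := {x : E3 | 0 < x 2}) hf.cont hf.contG (pG_jc hu th2_pert) th2_pert.sm.continuous th2_pert.l1 hS
    (fun x hx => th2_pos x hx) ha hab hb hM hG0
    (fun t ht => hM' t ⟨ha.trans ht.1, ht.2⟩) hfa (by
      intro κ hκ j hj
      have he := evo_add hu hf th2_pert κ
      obtain ⟨i1, i2⟩ := half_int he hj.jf hS ha hab hb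
      exact ⟨i1, i2, half_ev hu he (fun t ht x hx => by rw [h0 t ht x hx, th2_zero x hx]; simp) ha hab hb hu2 hj.jf⟩)
  have h2 := limN (S := {x : E3 | 0 < x 2}) hf.cont hf.contG hS ha hab hb hM hfa (by
      intro j hj
      have he := evo_neg hf
      obtain ⟨i1, i2⟩ := half_int he hj.jf hS ha hab hb
      exact ⟨i1, i2, half_ev hu he (fun t ht x hx => by rw [h0 t ht x hx]; simp) ha hab hb hu2 hj.jf⟩)
  exact BalA_comb hcb hfa h1 h2

end Pool.Agent.H72.CC
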