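/-
ROW Far (MP_09540e_CC). Away from the axis the source is controlled by the energy. PROOF. For `rad x ≥ r₀`, `v = u t`: `rsq |sV v| = |circ v x| ≤ rad x ‖v x‖` (circ_eq in NS/VRep.lean, circ_le in H16/Radial.lean), so `|sV v x| ≤ ‖v x‖ / r₀`. `pd 2 (circ v) x = x₀ (fderiv v x (e 2)) 1 - x₁ (fderiv v x (e 2)) 0`
(AxId_pd_circ) and `pd 2 (circ v) = rsq pd 2 (sV v)` (Quot_pd), so `|pd 2 (sV v) x| ≤ ‖fderiv ℝ v x (e 2)‖ / r₀`. Hence `|src v x| ≤ r₀⁻² (‖v x‖² + ‖fderiv ℝ v x (e 2)‖²) ≤ r₀⁻² (‖v x‖² + ∑ i, ‖fderiv ℝ v x (e i)‖²)`. Integrate over x and over `t ∈ [a,b]`: by the energy inequality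
`∫ ‖u t‖² ≤ E := ∫ ‖u 0‖²` and `2 ∫_0^b ∫ ∑ ‖fderiv (u s) x (e i)‖² ≤ E`; so the total is at most `r₀⁻² (T E + E)`. Time integrability of `t ↦ ∫ ‖u t‖²`, `t ↦ ∫ ∑ ‖..‖²` and of the left side integrand on `[0,b]`: ti_int (NS/TI.lean) and h.reg (for the left side use measurability as in BalI,
or bound `∫ t in a..b, F t ≤ ∫ t in a..b, F' t` through Tail_ii in NS/Tail.lean, which needs integrability of the larger function only).
-/
import Pool.Agent.H72.CC.VDefs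
import Pool.Agent.H87.NS.Tail
import Pool.Agent.H87.NS.VRep
import Pool.Agent.H87.NS.AxId
import Pool.Agent.H87.NS.Quot
import Pool.Agent.H87.NS.TI

set_option autoImplicit false

open Set Filter Topology MeasureTheory
open scoped ContDiff

namespace Pool.Agent.H72.CC

open Pool.Agent.H16 Pool.Agent.H87.NS

theorem Far_coord (k : Fin 3) (x : E3) : HasFDerivAt (fun y : E3 => y k) (EuclideanSpace.proj (𝕜 := ℝ) k : E3 →L[ℝ] ℝ) x :=
  (EuclideanSpace.proj (𝕜 := ℝ) k : E3 →L[ℝ] ℝ).hasFDerivAt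

theorem Far_comp {v : E3 → E3} (hv : ContDiff ℝ ∞ v) (k : Fin 3) (x : E3) :
    HasFDerivAt (fun y : E3 => v y k) ((EuclideanSpace.proj (𝕜 := ℝ) k : E3 →L[ℝ] ℝ).comp (fderiv ℝ v x)) x :=
  (EuclideanSpace.proj (𝕜 := ℝ) k : E3 →L[ℝ] ℝ).hasFDerivAt.comp x ((hv.differentiable (by simp) x).hasFDerivAt)

theorem Far_circ {v : E3 → E3} (hv : ContDiff ℝ ∞ v) (x : E3) :
    pd 2 (circ v) x = circ (fun _ => fderiv ℝ v x (e 2)) x := by
  have h : HasFDerivAt (circ v) _ x :=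
    ((Far_coord 0 x).mul (Far_comp hv 1 x)).sub ((Far_coord 1 x).mul (Far_comp hv 0 x))
  unfold pd
  rw [h.fderiv]
  have e20 : (e 2 : E3) 0 = 0 := by simp [e]
  have e21 : (e 2 : E3) 1 = 0 := by simp [e]
  show (x 0 * fderiv ℝ v x (e 2) 1 + v x 1 * (e 2 : E3) 0) - (x 1 * fderiv ℝ v x (e 2) 0 + v x 0 * (e 2 : E3) 1) = _
  rw [e20, e21, circ]
  ring

theorem Far_rsq {g : E3 → ℝ} {x : E3} (hg : DifferentiableAt ℝ g x) :
    pd 2 (fun y => rsq y * g y) x = rsq x * pd 2 g x := by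
  have h1 : HasFDerivAt (fun y : E3 => y 0 ^ 2 + y 1 ^ 2) _ x := ((Far_coord 0 x).pow 2).add ((Far_coord 1 x).pow 2)
  have h2 : HasFDerivAt rsq _ x := h1
  have h := h2.mul hg.hasFDerivAt
  have h3 : HasFDerivAt (fun y => rsq y * g y) _ x := h
  unfold pd
  rw [h3.fderiv]
  have e20 : (e 2 : E3) 0 = 0 := by simp [e]
  have e21 : (e 2 : E3) 1 = 0 := by simp [e]
  simp [e20, e21]

theorem Far_pt {v : E3 → E3} (hv : AxF v) {r₀ : ℝ} (hr : 0 < r₀) {x : E3} (hx : r₀ ≤ rad x) :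
    |src v x| ≤ (r₀ ^ 2)⁻¹ * (‖v x‖ ^ 2 + dsq v x) := by
  have hrx : 0 < rad x := hr.trans_le hx
  have hsm : ContDiff ℝ ∞ (sV v) := avk_smooth (VRep_coord (curl_smooth hv.smooth) 2) 1
  have hsq : rsq x = rad x * rad x := by rw [← rad_sq' x, pow_two]
  have h1 : |sV v x| ≤ ‖v x‖ / r₀ := by
    have h2 := circ_le v x
    rw [circ_eq hv, hsq, abs_mul, abs_mul, abs_of_pos hrx, mul_assoc] at h2
    have h3 := le_of_mul_le_mul_left h2 hrx
    rw [le_div_iff₀ hr]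
    have h4 := mul_le_mul_of_nonneg_right hx (abs_nonneg (sV v x))
    linarith
  have h5 : |pd 2 (sV v) x| ≤ ‖fderiv ℝ v x (e 2)‖ / r₀ := by
    have h2 := circ_le (fun _ => fderiv ℝ v x (e 2)) x
    rw [← Far_circ hv.smooth] at h2
    have h6 : circ v = fun y => rsq y * sV v y := funext fun y => circ_eq hv y
    rw [h6, Far_rsq (hsm.differentiable (by simp) x), hsq, abs_mul, abs_mul, abs_of_pos hrx, mul_assoc] at h2
    have h3 := le_of_mul_le_mul_left h2 hrx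
    rw [le_div_iff₀ hr]
    have h4 := mul_le_mul_of_nonneg_right hx (abs_nonneg (pd 2 (sV v) x))
    linarith
  have h7 : ‖fderiv ℝ v x (e 2)‖ ^ 2 ≤ dsq v x := by
    unfold dsq
    exact Finset.single_le_sum (f := fun i => ‖fderiv ℝ v x (e i)‖ ^ 2) (fun _ _ => sq_nonneg _) (Finset.mem_univ 2)
  have h8 : |src v x| ≤ 2 * (‖v x‖ / r₀) * (‖fderiv ℝ v x (e 2)‖ / r₀) := by
    unfold src
    rw [abs_mul, abs_mul, abs_two]
    gcongr
  refine h8.trans ?_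
  have h9 : 2 * (‖v x‖ / r₀) * (‖fderiv ℝ v x (e 2)‖ / r₀) = (r₀ ^ 2)⁻¹ * (2 * ‖v x‖ * ‖fderiv ℝ v x (e 2)‖) := by
    field_simp
  rw [h9]
  refine mul_le_mul_of_nonneg_left ?_ (by positivity)
  have h10 := two_mul_le_add_sq ‖v x‖ ‖fderiv ℝ v x (e 2)‖
  linarith

theorem far {T : ℝ} {u : ℝ → E3 → E3} {p : ℝ → E3 → ℝ} (h : IsHInfAxisymNS T u p) {r₀ : ℝ} (hr : 0 < r₀) :
    ∃ C : ℝ, 0 ≤ C ∧ ∀ a b : ℝ, 0 ≤ a → a ≤ b → b < T → ∫ t in a..b, ∫ x in {x | r₀ ≤ rad x}, |src (u t) x| ≤ C := by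
  obtain ⟨E, hE⟩ : ∃ E : ℝ, E = ∫ x, ‖u 0 x‖ ^ 2 := ⟨_, rfl⟩
  have hE0 : 0 ≤ E := by
    rw [hE]
    exact integral_nonneg fun _ => sq_nonneg _
  refine ⟨(r₀ ^ 2)⁻¹ * (|T| * E + E), by positivity, fun a b ha hab hb => ?_⟩
  have hradc : Continuous (rad : E3 → ℝ) := by
    unfold rad
    exact (((EuclideanSpace.proj (𝕜 := ℝ) 0 : E3 →L[ℝ] ℝ).continuous.pow 2).add
      ((EuclideanSpace.proj (𝕜 := ℝ) 1 : E3 →L[ℝ] ℝ).continuous.pow 2)).sqrt
  have hSm : MeasurableSet {x : E3 | r₀ ≤ rad x} := (isClosed_le continuous_const hradc).measurableSet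
  have hd0 : ∀ t, 0 ≤ ∫ x, dsq (u t) x := fun t =>
    integral_nonneg fun x => Finset.sum_nonneg fun _ _ => sq_nonneg _
  have hpt : ∀ t ∈ Icc a b, ∫ x in {x | r₀ ≤ rad x}, |src (u t) x| ≤ (r₀ ^ 2)⁻¹ * (E + ∫ x, dsq (u t) x) := by
    intro t ht
    have ht' : t ∈ Ico 0 T := ⟨ha.trans ht.1, ht.2.trans_lt hb⟩
    obtain ⟨hi1, hi2⟩ := dsq_int h ht'
    have hv := axF_of h.ns ht'
    have hgi : Integrable (fun x => (r₀ ^ 2)⁻¹ * (‖u t x‖ ^ 2 + dsq (u t) x)) := (hi2.add hi1).const_mul _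
    have h1 : ∫ x in {x | r₀ ≤ rad x}, |src (u t) x| ≤
        ∫ x in {x | r₀ ≤ rad x}, (r₀ ^ 2)⁻¹ * (‖u t x‖ ^ 2 + dsq (u t) x) := by
      refine integral_mono_of_nonneg (Eventually.of_forall fun x => abs_nonneg _) hgi.integrableOn ?_
      exact (ae_restrict_iff' hSm).2 (Eventually.of_forall fun x hx => Far_pt hv hr hx)
    have h2 : ∫ x in {x | r₀ ≤ rad x}, (r₀ ^ 2)⁻¹ * (‖u t x‖ ^ 2 + dsq (u t) x) ≤
        ∫ x, (r₀ ^ 2)⁻¹ * (‖u t x‖ ^ 2 + dsq (u t) x) := by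
      refine setIntegral_le_integral hgi (Eventually.of_forall fun x => ?_)
      have : 0 ≤ dsq (u t) x := Finset.sum_nonneg fun _ _ => sq_nonneg _
      simp only [Pi.zero_apply]
      positivity
    refine (h1.trans h2).trans ?_
    rw [integral_const_mul, integral_add hi2 hi1]
    have h3 := (energy1 h ht').2
    rw [← hE] at h3
    exact mul_le_mul_of_nonneg_left (by linarith) (by positivity)
  have hdi := dsq_ii h ha hab hb
  refine (Tail_ii hab hpt (fun t _ => mul_nonneg (by positivity) (add_nonneg hE0 (hd0 t)))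
    ((intervalIntegrable_const.add hdi).const_mul _)).trans ?_
  rw [intervalIntegral.integral_const_mul]
  refine mul_le_mul_of_nonneg_left ?_ (by positivity)
  rw [intervalIntegral.integral_add intervalIntegrable_const hdi, intervalIntegral.integral_const, smul_eq_mul]
  have hb0 : 0 ≤ b := ha.trans hab
  have h4 := (energy1 h (t := b) ⟨hb0, hb⟩).1
  rw [← hE] at h4
  have h5 := intervalIntegral.integral_add_adjacent_intervals (dsq_ii h le_rfl ha (hab.trans_lt hb)) hdi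
  have h6 : 0 ≤ ∫ t in (0:ℝ)..a, ∫ x, dsq (u t) x := intervalIntegral.integral_nonneg ha fun t _ => hd0 t
  have h7 : (b - a) * E ≤ |T| * E := by
    refine mul_le_mul_of_nonneg_right ?_ hE0
    have := le_abs_self T
    linarith
  linarith

end Pool.Agent.H72.CC
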