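/-
ROW FlG (MP_09540e_CC). The source term. PROOF. flG: `V = sV (u t)`, `DB 2 K V` with K uniform on `[0,T']` (svwDB in NS/Bds1.lean). `V` and `pd 2 V` are continuous and BL, so the product is integrable (BL_mul), `∫ |2 V pd 2 V| ≤ 2 √(∫V²) √(∫ (pd 2 V)²) ≤ 2 K` (cs), and
`∫ V pd 2 V = - ∫ pd 2 V V` (ibp) gives `∫ = 0`. src_jc: jcV, jcdV (NS/Bds2.lean), JC_mul.
-/
import Pool.Agent.H72.CC.VDefs
import Pool.Agent.H87.NS.Bds1
import Pool.Agent.H87.NS.Bds2

set_option autoImplicit false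

open Set Filter Topology MeasureTheory
open scoped ContDiff

namespace Pool.Agent.H72.CC

open Pool.Agent.H16 Pool.Agent.H87.NS

variable {T : ℝ} {u : ℝ → E3 → E3} {p : ℝ → E3 → ℝ}

theorem src_jc (h : IsAxisymNS T u p) : JC T (fun t => src (u t)) := by
  have h1 := JC_mul (JC_mul (JC_const (T := T) (g := fun _ => (2 : ℝ)) continuous_const) (jcV h))
    (jcdV h 2)
  exact h1

theorem flG (h : IsHInfAxisymNS T u p) {T' : ℝ} (hT' : T' < T) :
    ∃ M : ℝ, 0 ≤ M ∧ ∀ t ∈ Icc 0 T', Integrable (src (u t)) ∧ ∫ x, |src (u t) x| ≤ M ∧ ∫ x, src (u t) x = 0 := by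
  obtain ⟨K, hK⟩ := svwDB h hT'
  refine ⟨2 * |K|, by positivity, fun t ht => ?_⟩
  have ht' : t ∈ Ico 0 T := ⟨ht.1, lt_of_le_of_lt ht.2 hT'⟩
  have hs := (svw_smooth h.ns ht').1
  have hDB := (hK t ht).1
  have hBL : BL K (sV (u t)) := DB_BL hDB
  have hBL2 : BL K (pd 2 (sV (u t))) := DB_BL (hDB.2 2)
  have hK0 : 0 ≤ K := BL_nonneg hBL
  have hc1 : Continuous (sV (u t)) := hs.continuous
  have hc2 : Continuous (pd 2 (sV (u t))) := (pd_smooth hs 2).continuous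
  have hint : Integrable (fun x => sV (u t) x * pd 2 (sV (u t)) x) := BL_mul hc1 hc2 hBL hBL2
  have heq : src (u t) = fun x => 2 * (sV (u t) x * pd 2 (sV (u t)) x) := by
    funext x
    unfold src
    ring
  have hcs := cs hc1 hc2 hBL hBL2
  have hs1 : √(∫ x, sV (u t) x ^ 2) ≤ √K := Real.sqrt_le_sqrt hBL.2.2
  have hs2 : √(∫ x, pd 2 (sV (u t)) x ^ 2) ≤ √K := Real.sqrt_le_sqrt hBL2.2.2
  have hmul : √(∫ x, sV (u t) x ^ 2) * √(∫ x, pd 2 (sV (u t)) x ^ 2) ≤ K := by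
    calc √(∫ x, sV (u t) x ^ 2) * √(∫ x, pd 2 (sV (u t)) x ^ 2) ≤ √K * √K :=
          mul_le_mul hs1 hs2 (Real.sqrt_nonneg _) (Real.sqrt_nonneg _)
      _ = K := Real.mul_self_sqrt hK0
  refine ⟨?_, ?_, ?_⟩
  · rw [heq]
    exact hint.const_mul 2
  · have h1 : ∀ x, |src (u t) x| = 2 * (|sV (u t) x| * |pd 2 (sV (u t)) x|) := by
      intro x
      rw [heq]
      show |2 * (sV (u t) x * pd 2 (sV (u t)) x)| = _
      rw [abs_mul, abs_mul, abs_of_pos (by norm_num : (0 : ℝ) < 2)]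
    rw [integral_congr_ae (Filter.Eventually.of_forall h1), integral_const_mul]
    rw [abs_of_nonneg hK0]
    linarith
  · have hib := ibp (hs.of_le (by simp)) (hs.of_le (by simp)) (DB_mono hDB (by norm_num) le_rfl)
      (DB_mono hDB (by norm_num) le_rfl) (K := K) (K' := K) 2
    have h2 : ∫ x, pd 2 (sV (u t)) x * sV (u t) x = ∫ x, sV (u t) x * pd 2 (sV (u t)) x :=
      integral_congr_ae (Filter.Eventually.of_forall fun x => mul_comm _ _)
    rw [h2] at hib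
    rw [heq, integral_const_mul]
    linarith

end Pool.Agent.H72.CC
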