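/-
ROW FlH (MP_09540e_CC). The total source in the half space. PROOF. With `χ = cz δ` (HalW.lean; bounded with bounded derivatives): `∫ 2 V pd 2 V χ = ∫ pd 2 (V²) χ = - ∫ V² pd 2 χ ≤ 0` (ibp in NS/IBP.lean with `V` and `V χ`, or approximate; `V χ` is in DB 1). As `δ → 0` the left side tends to `∫_{0 < x 2} 2 V pd 2 V`
(dominated convergence, cz_lim, `V pd 2 V` integrable). If V vanishes on `x 2 = 0`: `0 ≤ ∫ V² pd 2 χ ≤ (C/δ) ∫_{0<x 2<3δ} V² ≤ 9 C δ ∫ (pd 2 V)² → 0` (poiZ).
-/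
import Pool.Agent.H72.CC.PoiZ
import Pool.Agent.H72.CC.HalW

set_option autoImplicit false

open Set Filter Topology MeasureTheory
open scoped ContDiff

namespace Pool.Agent.H72.CC

open Pool.Agent.H16 Pool.Agent.H87.NS

theorem flH_int {V : E3 → ℝ} {K : ℝ} (hV : ContDiff ℝ ∞ V) (h : DB 1 K V) :
    Integrable (fun x => 2 * V x * pd 2 V x) := by
  have h1 := BL_mul hV.continuous (pd_cont (hV.of_le (by simp)) 2) (DB_BL h) (DB_BL (DB_pd h 2))
  refine (h1.const_mul 2).congr (Eventually.of_forall fun x => ?_)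
  show 2 * (V x * pd 2 V x) = _
  ring

theorem flH_ibp {V : E3 → ℝ} {K : ℝ} (hV : ContDiff ℝ ∞ V) (h : DB 1 K V) {δ : ℝ} (hδ : 0 < δ) :
    Integrable (fun x => V x ^ 2 * pd 2 (cz δ) x) ∧
    ∫ x, 2 * V x * pd 2 V x * cz δ x = - ∫ x, V x ^ 2 * pd 2 (cz δ) x := by
  have hw := cz_wg hδ
  obtain ⟨C, hC⟩ := hw.bd
  have hχc : Continuous (cz δ) := hw.smooth.continuous
  have hpc : Continuous (pd 2 (cz δ)) := pd_cont (hw.smooth.of_le (by simp)) 2
  have hVc := hV.continuous
  have hVd : ∀ x, DifferentiableAt ℝ V x := fun x => hV.differentiable (by simp) x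
  have h1 : Integrable (fun x => V x ^ 2 * pd 2 (cz δ) x) := by
    refine Integrable.mono' ((DB_BL h).2.1.const_mul C) ((hVc.pow 2).mul hpc).aestronglyMeasurable ?_
    refine Eventually.of_forall fun x => ?_
    rw [Real.norm_eq_abs, abs_mul, abs_of_nonneg (sq_nonneg _), mul_comm C]
    exact mul_le_mul_of_nonneg_left ((hC x).1 2) (sq_nonneg _)
  have h2 : Integrable (fun x => V x ^ 2 * cz δ x) := by
    refine Integrable.mono' (DB_BL h).2.1 ((hVc.pow 2).mul hχc).aestronglyMeasurable ?_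
    refine Eventually.of_forall fun x => ?_
    rw [Real.norm_eq_abs, abs_mul, abs_of_nonneg (sq_nonneg _), abs_of_nonneg (hw.nonneg x)]
    calc V x ^ 2 * cz δ x ≤ V x ^ 2 * 1 := mul_le_mul_of_nonneg_left (hw.le_one x) (sq_nonneg _)
      _ = _ := mul_one _
  have hfd : ∀ x, fderiv ℝ (fun y => V y ^ 2) x (e 2) = 2 * V x * pd 2 V x := by
    intro x
    have h3 := (hVd x).hasFDerivAt.pow 2
    rw [h3.fderiv]
    simp [pd]
  have h3 : Integrable (fun x => fderiv ℝ (fun y => V y ^ 2) x (e 2) * cz δ x) := by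
    simp only [hfd]
    refine Integrable.mono' (flH_int hV h).norm ?_ ?_
    · exact (((continuous_const.mul hVc).mul (pd_cont (hV.of_le (by simp)) 2)).mul hχc).aestronglyMeasurable
    · refine Eventually.of_forall fun x => ?_
      rw [norm_mul, Real.norm_of_nonneg (hw.nonneg x)]
      calc ‖2 * V x * pd 2 V x‖ * cz δ x ≤ ‖2 * V x * pd 2 V x‖ * 1 :=
            mul_le_mul_of_nonneg_left (hw.le_one x) (norm_nonneg _)
        _ = _ := mul_one _
  refine ⟨h1, ?_⟩
  have h4 := integral_mul_fderiv_eq_neg_fderiv_mul_of_integrable (μ := (volume : Measure E3)) (f := fun y => V y ^ 2) (g := cz δ) (v := e 2)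
    h3 h1 h2 (fun x _ => (hVd x).pow 2) (fun x _ => hw.smooth.differentiable (by simp) x)
  have h5 : ∫ x, V x ^ 2 * pd 2 (cz δ) x = - ∫ x, 2 * V x * pd 2 V x * cz δ x := by
    simp only [hfd] at h4
    exact h4
  rw [h5, neg_neg]

theorem flH {V : E3 → ℝ} {K : ℝ} (hV : ContDiff ℝ ∞ V) (h : DB 1 K V) :
    ∫ x in {x : E3 | 0 < x 2}, 2 * V x * pd 2 V x ≤ 0 ∧
    ((∀ x : E3, x 2 = 0 → V x = 0) → ∫ x in {x : E3 | 0 < x 2}, 2 * V x * pd 2 V x = 0) := by
  obtain ⟨C, hC0, hC⟩ := cz_bd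
  set δ : ℕ → ℝ := fun n => 1 / ((n : ℝ) + 1) with hδd
  have hδ : ∀ n, 0 < δ n := fun n => by
    rw [hδd]
    positivity
  have hl : Tendsto δ atTop (𝓝 0) := tendsto_one_div_add_atTop_nhds_zero_nat
  have hm : MeasurableSet {x : E3 | 0 < x 2} := by
    have hc : Continuous fun x : E3 => x 2 := by fun_prop
    exact (isOpen_lt continuous_const hc).measurableSet
  have hVc := hV.continuous
  have hpc := pd_cont (hV.of_le (by simp : (1 : WithTop ℕ∞) ≤ ∞)) 2
  have hint := flH_int hV h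
  have hdct : Tendsto (fun n => ∫ x, 2 * V x * pd 2 V x * cz (δ n) x) atTop
      (𝓝 (∫ x in {x : E3 | 0 < x 2}, 2 * V x * pd 2 V x)) := by
    have e1 : ∫ x in {x : E3 | 0 < x 2}, 2 * V x * pd 2 V x =
        ∫ x, 2 * V x * pd 2 V x * ({x : E3 | 0 < x 2}.indicator (fun _ => (1 : ℝ))) x := by
      rw [← integral_indicator hm]
      refine integral_congr_ae (Eventually.of_forall fun x => ?_)
      by_cases hx : x ∈ {x : E3 | 0 < x 2}
      · simp only [indicator_of_mem hx, mul_one]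
      · simp only [indicator_of_notMem hx, mul_zero]
    rw [e1]
    refine tendsto_integral_of_dominated_convergence (fun x => ‖2 * V x * pd 2 V x‖) (fun n => ?_) hint.norm
      (fun n => Eventually.of_forall fun x => ?_) (Eventually.of_forall fun x => ?_)
    · exact (((continuous_const.mul hVc).mul hpc).mul (cz_wg (hδ n)).smooth.continuous).aestronglyMeasurable
    · rw [norm_mul, Real.norm_of_nonneg ((cz_wg (hδ n)).nonneg x)]
      calc ‖2 * V x * pd 2 V x‖ * cz (δ n) x ≤ ‖2 * V x * pd 2 V x‖ * 1 :=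
            mul_le_mul_of_nonneg_left ((cz_wg (hδ n)).le_one x) (norm_nonneg _)
        _ = _ := mul_one _
    · exact (cz_lim hδ hl x).const_mul _
  have hle : ∫ x in {x : E3 | 0 < x 2}, 2 * V x * pd 2 V x ≤ 0 := by
    refine le_of_tendsto' hdct fun n => ?_
    rw [(flH_ibp hV h (hδ n)).2, neg_nonpos]
    exact integral_nonneg fun x => mul_nonneg (sq_nonneg _) (hC (δ n) (hδ n) x).2.1
  refine ⟨hle, fun h0 => le_antisymm hle ?_⟩
  set I : ℝ := ∫ x, pd 2 V x ^ 2 with hI
  have hlow : ∀ n, - (9 * C * δ n * I) ≤ ∫ x, 2 * V x * pd 2 V x * cz (δ n) x := by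
    intro n
    rw [(flH_ibp hV h (hδ n)).2, neg_le_neg_iff]
    have hd3 : 0 < 3 * δ n := by
      have := hδ n
      linarith
    have hms : MeasurableSet {x : E3 | 0 < x 2 ∧ x 2 < 3 * δ n} := by
      have hc : Continuous fun x : E3 => x 2 := by fun_prop
      exact ((isOpen_lt continuous_const hc).inter (isOpen_lt hc continuous_const)).measurableSet
    have h1 : ∫ x, V x ^ 2 * pd 2 (cz (δ n)) x ≤ C / δ n * ∫ x in {x : E3 | 0 < x 2 ∧ x 2 < 3 * δ n}, V x ^ 2 := by
      rw [← integral_const_mul, ← integral_indicator hms]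
      refine integral_mono (flH_ibp hV h (hδ n)).1 (((DB_BL h).2.1.const_mul _).indicator hms) fun x => ?_
      have h2 := hC (δ n) (hδ n) x
      by_cases hx : x ∈ {x : E3 | 0 < x 2 ∧ x 2 < 3 * δ n}
      · rw [indicator_of_mem hx, mul_comm]
        exact mul_le_mul_of_nonneg_right h2.2.2.1 (sq_nonneg _)
      · rw [indicator_of_notMem hx]
        have h3 : ¬ (δ n ≤ x 2 ∧ x 2 ≤ 2 * δ n) := by
          rintro ⟨h4, h5⟩
          have := hδ n
          exact hx ⟨by linarith, by linarith⟩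
        show V x ^ 2 * pd 2 (cz (δ n)) x ≤ 0
        rw [(h2.2.2.2.2.2 h3).1, mul_zero]
    have h2 := poiZ (hV.of_le (by simp)) h h0 hd3
    have h3 : ∫ x in {x : E3 | 0 < x 2 ∧ x 2 < 3 * δ n}, pd 2 V x ^ 2 ≤ I :=
      setIntegral_le_integral (DB_BL (DB_pd h 2)).2.1 (Eventually.of_forall fun x => sq_nonneg _)
    have hδn := hδ n
    calc ∫ x, V x ^ 2 * pd 2 (cz (δ n)) x ≤ C / δ n * ((3 * δ n) ^ 2 * I) := by
          refine h1.trans (mul_le_mul_of_nonneg_left (h2.trans ?_) (by positivity))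
          exact mul_le_mul_of_nonneg_left h3 (sq_nonneg _)
      _ = 9 * C * δ n * I := by
          field_simp
          ring
  have hl2 : Tendsto (fun n => - (9 * C * δ n * I)) atTop (𝓝 0) := by
    have h1 := ((hl.const_mul (9 * C)).mul_const I).neg
    simpa using h1
  exact le_of_tendsto_of_tendsto' hl2 hdct hlow

end Pool.Agent.H72.CC
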