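/-
ROW SymE (MP_09540e_CC). Reflection symmetric flows. PROOF. Case 1: `v (mir x) = mir (v x)`. Differentiate: `fderiv v (mir x) (mir w) = mir (fderiv v x w)` (mir is linear). So `curl v (mir x) = (- ω₀, - ω₁, ω₂) = - mir (curl v x)`, and `circ (curl v) (mir x) = - circ (curl v) x`.
Case 2: `v (hlf x) = hlf (v x)`: `curl v (hlf x) = hlf (curl v x)`, again `circ (curl v) (hlf x) = - circ (curl v) x`, and `circ v (hlf x) = - circ v x`. Since `circ (curl v) = rsq sO v` (om_eq), `rsq` is invariant: `sO v (σ x) = - sO v x` off the axis, hence everywhere by continuity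
(`sO v` is smooth; the complement of the axis is dense), for `σ = mir` resp. `hlf`. sym_sO: in case 1, if `x 2 = 0` then `mir x = x` so `sO v x = 0`. In case 2, if `x 2 = 0` then `hlf x` and `x` lie on the same circle `(rad, x 2)`: there is θ with `rot θ x = hlf x` (KSym_rot in NS/KSym.lean; on the axis `hlf x = x`),
so `sO v x = sO v (hlf x) = - sO v x` (sO_rot). The same for sV in case 2 (circ_eq, sV_rot). sym_int: σ is a measure preserving isometry which maps `{0 < x 2}` to `{x 2 < 0}`, `|sO|` is invariant, `{x 2 = 0}` is null. sym_u2: `v₂ = 0` on `x 2 = 0` (case 1: `v₂ (mir x) = - v₂ x`; case 2: for `x 2 = 0`,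
`v₂ (hlf x) = - v₂ x` and `v₂ (hlf x) = v₂ (rot θ x) = v₂ x`), and `|v₂ x| ≤ K₁ |x 2|` by the mean value theorem along the vertical segment.
-/
import Pool.Agent.H72.CC.VDefs
import Pool.Agent.H87.NS.VRep
import Pool.Agent.H87.NS.KSym
import Pool.Agent.H87.NS.S1
import Pool.Agent.H87.NS.Avk

set_option autoImplicit false

open Set Filter Topology MeasureTheory
open scoped ContDiff

namespace Pool.Agent.H72.CC

open Pool.Agent.H16 Pool.Agent.H87.NS

/-- Changes of sign of the coordinates, the last one is changed. -/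
noncomputable def SymE_L (a b : ℝ) (ha : a ^ 2 = 1) (hb : b ^ 2 = 1) : E3 ≃ₗᵢ[ℝ] E3 where
  toFun y := !₂[a * y 0, b * y 1, - y 2]
  invFun y := !₂[a * y 0, b * y 1, - y 2]
  map_add' y z := by
    apply ext3
    · change a * (y 0 + z 0) = a * y 0 + a * z 0
      ring
    · change b * (y 1 + z 1) = b * y 1 + b * z 1
      ring
    · change - (y 2 + z 2) = - y 2 + - z 2
      ring
  map_smul' c y := by
    apply ext3
    · change a * (c * y 0) = c * (a * y 0)
      ring
    · change b * (c * y 1) = c * (b * y 1)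
      ring
    · change - (c * y 2) = c * (- y 2)
      ring
  left_inv y := by
    apply ext3
    · change a * (a * y 0) = y 0
      linear_combination y 0 * ha
    · change b * (b * y 1) = y 1
      linear_combination y 1 * hb
    · change - (- y 2) = y 2
      ring
  right_inv y := by
    apply ext3
    · change a * (a * y 0) = y 0
      linear_combination y 0 * ha
    · change b * (b * y 1) = y 1
      linear_combination y 1 * hb
    · change - (- y 2) = y 2
      ring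
  norm_map' y := by
    have h : ‖(!₂[a * y 0, b * y 1, - y 2] : E3)‖ ^ 2 = ‖y‖ ^ 2 := by
      rw [norm_sq_eq, norm_sq_eq]
      change (a * y 0) ^ 2 + (b * y 1) ^ 2 + (- y 2) ^ 2 = _
      linear_combination y 0 ^ 2 * ha + y 1 ^ 2 * hb
    exact (sq_eq_sq₀ (norm_nonneg _) (norm_nonneg _)).1 h

theorem SymE_0 (a b : ℝ) (ha : a ^ 2 = 1) (hb : b ^ 2 = 1) (y : E3) : SymE_L a b ha hb y 0 = a * y 0 := rfl

theorem SymE_1 (a b : ℝ) (ha : a ^ 2 = 1) (hb : b ^ 2 = 1) (y : E3) : SymE_L a b ha hb y 1 = b * y 1 := rfl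

theorem SymE_2 (a b : ℝ) (ha : a ^ 2 = 1) (hb : b ^ 2 = 1) (y : E3) : SymE_L a b ha hb y 2 = - y 2 := rfl

theorem SymE_mir (x : E3) : SymE_L 1 1 (by norm_num) (by norm_num) x = mir x := by
  apply ext3
  · change 1 * x 0 = x 0
    ring
  · change 1 * x 1 = x 1
    ring
  · rfl

theorem SymE_hlf (x : E3) : SymE_L 1 (-1) (by norm_num) (by norm_num) x = hlf x := by
  apply ext3
  · change 1 * x 0 = x 0
    ring
  · change -1 * x 1 = - x 1
    ring
  · rfl

theorem SymE_ex {v : E3 → E3} (hs : (∀ x, v (mir x) = mir (v x)) ∨ ∀ x, v (hlf x) = hlf (v x)) :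
    ∃ (a b : ℝ) (ha : a ^ 2 = 1) (hb : b ^ 2 = 1), ∀ x, v (SymE_L a b ha hb x) = SymE_L a b ha hb (v x) := by
  rcases hs with h | h
  · exact ⟨1, 1, by norm_num, by norm_num, fun x => by rw [SymE_mir, SymE_mir, h]⟩
  · exact ⟨1, -1, by norm_num, by norm_num, fun x => by rw [SymE_hlf, SymE_hlf, h]⟩

theorem SymE_fd {v : E3 → E3} (hv : Differentiable ℝ v) (s : E3 ≃ₗᵢ[ℝ] E3) (h : ∀ x, v (s x) = s (v x)) (x w : E3) :
    fderiv ℝ v (s x) (s w) = s (fderiv ℝ v x w) := by
  have h1 : HasFDerivAt (fun y => v (s y))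
      ((fderiv ℝ v (s x)).comp s.toContinuousLinearEquiv.toContinuousLinearMap) x :=
    (hv (s x)).hasFDerivAt.comp x s.toContinuousLinearEquiv.toContinuousLinearMap.hasFDerivAt
  have h2 : HasFDerivAt (fun y => s (v y))
      (s.toContinuousLinearEquiv.toContinuousLinearMap.comp (fderiv ℝ v x)) x :=
    s.toContinuousLinearEquiv.toContinuousLinearMap.hasFDerivAt.comp x (hv x).hasFDerivAt
  have h3 : (fun y => v (s y)) = fun y => s (v y) := by
    ext1 y
    exact h y
  rw [h3] at h1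
  have h4 := congrArg (fun L => L w) (h1.unique h2)
  simpa using h4

/-- the point and its image lie on one circle -/
theorem SymE_circle (a b : ℝ) (ha : a ^ 2 = 1) (hb : b ^ 2 = 1) {x : E3} (hx : x 2 = 0) :
    ∃ θ, rot θ x = SymE_L a b ha hb x := by
  have hr : rsq (SymE_L a b ha hb x) = rsq x := by
    unfold rsq
    rw [SymE_0, SymE_1]
    linear_combination x 0 ^ 2 * ha + x 1 ^ 2 * hb
  rcases eq_or_lt_of_le (show 0 ≤ rsq x by unfold rsq; positivity) with h | h
  · have hy0 : x 0 = 0 := by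
      unfold rsq at h
      nlinarith [sq_nonneg (x 0), sq_nonneg (x 1)]
    have hy1 : x 1 = 0 := by
      unfold rsq at h
      nlinarith [sq_nonneg (x 0), sq_nonneg (x 1)]
    refine ⟨0, ?_⟩
    rw [rot_zero_angle]
    apply ext3
    · rw [SymE_0, hy0, mul_zero]
    · rw [SymE_1, hy1, mul_zero]
    · rw [SymE_2, hx, neg_zero]
  · obtain ⟨θ, h1, -, -⟩ := KSym_rot h hr (by rw [SymE_2, hx, neg_zero])
    exact ⟨θ, h1⟩

theorem SymE_rsq (a b : ℝ) (ha : a ^ 2 = 1) (hb : b ^ 2 = 1) (x : E3) : rsq (SymE_L a b ha hb x) = rsq x := by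
  unfold rsq
  rw [SymE_0, SymE_1]
  linear_combination x 0 ^ 2 * ha + x 1 ^ 2 * hb

theorem SymE_curl {v : E3 → E3} (hv : Differentiable ℝ v) {a b : ℝ} {ha : a ^ 2 = 1} {hb : b ^ 2 = 1}
    (h : ∀ x, v (SymE_L a b ha hb x) = SymE_L a b ha hb (v x)) (x : E3) :
    curl v (SymE_L a b ha hb x) 0 = - b * curl v x 0 ∧ curl v (SymE_L a b ha hb x) 1 = - a * curl v x 1 := by
  have hfd := SymE_fd hv (SymE_L a b ha hb) h x
  have he0 : SymE_L a b ha hb (e 0) = a • e 0 := by
    apply ext3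
    · change a * (e 0 0) = a * (e 0 0)
      rfl
    · change b * (e 0 1) = a * (e 0 1)
      simp [e_apply]
    · change - (e 0 2) = a * (e 0 2)
      simp [e_apply]
  have he1 : SymE_L a b ha hb (e 1) = b • e 1 := by
    apply ext3
    · change a * (e 1 0) = b * (e 1 0)
      simp [e_apply]
    · change b * (e 1 1) = b * (e 1 1)
      rfl
    · change - (e 1 2) = b * (e 1 2)
      simp [e_apply]
  have he2 : SymE_L a b ha hb (e 2) = (-1 : ℝ) • e 2 := by
    apply ext3
    · change a * (e 2 0) = -1 * (e 2 0)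
      simp [e_apply]
    · change b * (e 2 1) = -1 * (e 2 1)
      simp [e_apply]
    · change - (e 2 2) = -1 * (e 2 2)
      ring
  have h0 := hfd (e 0)
  have h1 := hfd (e 1)
  have h2 := hfd (e 2)
  rw [he0, map_smul] at h0
  rw [he1, map_smul] at h1
  rw [he2, map_smul] at h2
  have h02 : a * fderiv ℝ v (SymE_L a b ha hb x) (e 0) 2 = - fderiv ℝ v x (e 0) 2 :=
    congrArg (fun w : E3 => w 2) h0
  have h12 : b * fderiv ℝ v (SymE_L a b ha hb x) (e 1) 2 = - fderiv ℝ v x (e 1) 2 :=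
    congrArg (fun w : E3 => w 2) h1
  have h20 : -1 * fderiv ℝ v (SymE_L a b ha hb x) (e 2) 0 = a * fderiv ℝ v x (e 2) 0 :=
    congrArg (fun w : E3 => w 0) h2
  have h21 : -1 * fderiv ℝ v (SymE_L a b ha hb x) (e 2) 1 = b * fderiv ℝ v x (e 2) 1 :=
    congrArg (fun w : E3 => w 1) h2
  constructor
  · change fderiv ℝ v (SymE_L a b ha hb x) (e 1) 2 - fderiv ℝ v (SymE_L a b ha hb x) (e 2) 1 =
      - b * (fderiv ℝ v x (e 1) 2 - fderiv ℝ v x (e 2) 1)
    linear_combination b * h12 + h21 - fderiv ℝ v (SymE_L a b ha hb x) (e 1) 2 * hb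
  · change fderiv ℝ v (SymE_L a b ha hb x) (e 2) 0 - fderiv ℝ v (SymE_L a b ha hb x) (e 0) 2 =
      - a * (fderiv ℝ v x (e 2) 0 - fderiv ℝ v x (e 0) 2)
    linear_combination - h20 - a * h02 + fderiv ℝ v (SymE_L a b ha hb x) (e 0) 2 * ha

theorem SymE_sO_cont {v : E3 → E3} (hv : AxF v) : Continuous (sO v) :=
  (avk_smooth (f := fun y => curl (curl v) y 2) (VRep_coord (curl_smooth (curl_smooth hv.smooth)) 2) 1).continuous

theorem SymE_sV_cont {v : E3 → E3} (hv : AxF v) : Continuous (sV v) :=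
  (avk_smooth (f := fun y => curl v y 2) (VRep_coord (curl_smooth hv.smooth) 2) 1).continuous

/-- an identity off the axis holds everywhere -/
theorem SymE_dense {f g : E3 → ℝ} (hf : Continuous f) (hg : Continuous g) (h : ∀ x, rsq x * f x = rsq x * g x) (x : E3) :
    f x = g x := by
  have hclosed : IsClosed {x : E3 | f x = g x} := isClosed_eq hf hg
  have hdense : Dense {x : E3 | 0 < rad x} := Measure.dense_of_ae axis_null
  have h3 : closure {x : E3 | 0 < rad x} ⊆ {x : E3 | f x = g x} :=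
    closure_minimal (fun x hx => mul_left_cancel₀ (rsq_pos hx).ne' (h x)) hclosed
  rw [hdense.closure_eq] at h3
  exact h3 (mem_univ x)

theorem SymE_odd {v : E3 → E3} (hv : AxF v) {a b : ℝ} {ha : a ^ 2 = 1} {hb : b ^ 2 = 1}
    (h : ∀ x, v (SymE_L a b ha hb x) = SymE_L a b ha hb (v x)) (x : E3) :
    sO v (SymE_L a b ha hb x) = - sO v x := by
  refine SymE_dense (f := fun x => sO v (SymE_L a b ha hb x)) (g := fun x => - sO v x)
    ((SymE_sO_cont hv).comp (SymE_L a b ha hb).continuous) (SymE_sO_cont hv).neg (fun y => ?_) x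
  obtain ⟨h0, h1⟩ := SymE_curl (hv.smooth.differentiable (by simp)) h y
  have h2 := om_eq hv (SymE_L a b ha hb y)
  have h3 := om_eq hv y
  rw [SymE_rsq] at h2
  show rsq y * sO v (SymE_L a b ha hb y) = rsq y * (- sO v y)
  have h4 : circ (curl v) (SymE_L a b ha hb y) = - circ (curl v) y := by
    unfold circ
    rw [h0, h1, SymE_0, SymE_1]
    linear_combination - (y 0 * curl v y 1) * ha + (y 1 * curl v y 0) * hb
  rw [← h2, h4, h3]
  ring

theorem sym_sO {v : E3 → E3} (hv : AxF v) (hs : (∀ x, v (mir x) = mir (v x)) ∨ ∀ x, v (hlf x) = hlf (v x)) {x : E3} (hx : x 2 = 0) :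
    sO v x = 0 := by
  obtain ⟨a, b, ha, hb, h⟩ := SymE_ex hs
  obtain ⟨θ, hθ⟩ := SymE_circle a b ha hb hx
  have h1 := SymE_odd hv h x
  rw [← hθ, sO_rot hv] at h1
  linarith

theorem sym_sV {v : E3 → E3} (hv : AxF v) (hs : ∀ x, v (hlf x) = hlf (v x)) {x : E3} (hx : x 2 = 0) : sV v x = 0 := by
  have ha : (1 : ℝ) ^ 2 = 1 := by norm_num
  have hb : (-1 : ℝ) ^ 2 = 1 := by norm_num
  have h : ∀ x, v (SymE_L 1 (-1) ha hb x) = SymE_L 1 (-1) ha hb (v x) := fun x => by
    rw [SymE_hlf, SymE_hlf, hs]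
  have h1 : sV v (SymE_L 1 (-1) ha hb x) = - sV v x := by
    refine SymE_dense (f := fun x => sV v (SymE_L 1 (-1) ha hb x)) (g := fun x => - sV v x)
      ((SymE_sV_cont hv).comp (SymE_L 1 (-1) ha hb).continuous) (SymE_sV_cont hv).neg (fun y => ?_) x
    have h2 := circ_eq hv (SymE_L 1 (-1) ha hb y)
    have h3 := circ_eq hv y
    rw [SymE_rsq] at h2
    show rsq y * sV v (SymE_L 1 (-1) ha hb y) = rsq y * (- sV v y)
    have h4 : circ v (SymE_L 1 (-1) ha hb y) = - circ v y := by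
      unfold circ
      rw [h y, SymE_0, SymE_1, SymE_0, SymE_1]
      ring
    rw [← h2, h4, h3]
    ring
  obtain ⟨θ, hθ⟩ := SymE_circle 1 (-1) ha hb hx
  rw [← hθ, sV_rot hv] at h1
  linarith

theorem SymE_null : ∀ᵐ x : E3, x 2 ≠ 0 := by
  have h1 : LinearMap.ker ((EuclideanSpace.proj (2 : Fin 3) : E3 →L[ℝ] ℝ) : E3 →ₗ[ℝ] ℝ) ≠ ⊤ := by
    intro h
    have h2 : (e 2 : E3) ∈ LinearMap.ker ((EuclideanSpace.proj (2 : Fin 3) : E3 →L[ℝ] ℝ) : E3 →ₗ[ℝ] ℝ) := by
      rw [h]; exact Submodule.mem_top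
    rw [LinearMap.mem_ker] at h2
    simp [e] at h2
  have h2 := Measure.addHaar_submodule (volume : Measure E3) _ h1
  rw [ae_iff]
  refine measure_mono_null ?_ h2
  intro x hx
  have hx' : ¬ x 2 ≠ 0 := hx
  rw [not_not] at hx'
  simpa using hx'

theorem sym_int {v : E3 → E3} (hv : AxF v) (hs : (∀ x, v (mir x) = mir (v x)) ∨ ∀ x, v (hlf x) = hlf (v x))
    (hi : IntegrableOn (sO v) {x : E3 | 0 < x 2}) :
    Integrable (sO v) ∧ ∫ x, |sO v x| = 2 * ∫ x in {x : E3 | 0 < x 2}, |sO v x| := by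
  obtain ⟨a, b, ha, hb, h⟩ := SymE_ex hs
  have hodd := SymE_odd hv h
  have hmp := (SymE_L a b ha hb).measurePreserving
  have hme := (SymE_L a b ha hb).toHomeomorph.measurableEmbedding
  have hpre : (SymE_L a b ha hb) ⁻¹' {x : E3 | 0 < x 2} = {x : E3 | x 2 < 0} := by
    ext x
    show 0 < (SymE_L a b ha hb x) 2 ↔ x 2 < 0
    rw [SymE_2]
    constructor <;> intro h1 <;> linarith
  have hc2 : Continuous (fun x : E3 => x 2) := continuous_coord 2
  have hmB : MeasurableSet {x : E3 | x 2 < 0} := measurableSet_lt hc2.measurable measurable_const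
  have hdis : Disjoint {x : E3 | 0 < x 2} {x : E3 | x 2 < 0} := by
    rw [Set.disjoint_left]
    intro x hx hx'
    have h1 : 0 < x 2 := hx
    have h2 : x 2 < 0 := hx'
    linarith
  have hun : ({x : E3 | 0 < x 2} ∪ {x : E3 | x 2 < 0} : Set E3) =ᵐ[volume] univ := by
    rw [Filter.eventuallyEq_set]
    filter_upwards [SymE_null] with x hx
    constructor
    · intro _
      exact mem_univ x
    · intro _
      rcases lt_or_gt_of_ne hx with h1 | h1
      · exact Or.inr h1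
      · exact Or.inl h1
  have hiB : IntegrableOn (sO v) {x : E3 | x 2 < 0} := by
    have h1 := (hmp.integrableOn_comp_preimage hme (f := sO v) (s := {x : E3 | 0 < x 2})).2 hi
    rw [hpre] at h1
    have h2 : (sO v ∘ (SymE_L a b ha hb)) = fun x => - sO v x := funext fun x => hodd x
    have h3 : IntegrableOn (fun x => - sO v x) {x : E3 | x 2 < 0} := by
      rw [← h2]
      exact h1
    have h4 := h3.neg
    refine h4.congr (Eventually.of_forall fun x => ?_)
    show - (- sO v x) = sO v x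
    ring
  have hiU : IntegrableOn (sO v) univ := (hi.union hiB).congr_set_ae hun.symm
  refine ⟨integrableOn_univ.1 hiU, ?_⟩
  have h5 : ∫ x, |sO v x| = ∫ x in ({x : E3 | 0 < x 2} ∪ {x : E3 | x 2 < 0}), |sO v x| := by
    rw [← setIntegral_univ]
    exact setIntegral_congr_set hun.symm
  rw [h5, setIntegral_union hdis hmB hi.abs hiB.abs]
  have h6 := hmp.setIntegral_preimage_emb hme (fun x => |sO v x|) {x : E3 | 0 < x 2}
  rw [hpre] at h6
  have h7 : ∀ x, |sO v (SymE_L a b ha hb x)| = |sO v x| := fun x => by rw [hodd x, abs_neg]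
  simp only [h7] at h6
  rw [h6]
  ring

theorem sym_u2 {v : E3 → E3} (hv : AxF v) (hs : (∀ x, v (mir x) = mir (v x)) ∨ ∀ x, v (hlf x) = hlf (v x)) {K₁ : ℝ}
    (hK : ∀ x, ‖fderiv ℝ v x‖ ≤ K₁) (x : E3) : |v x 2| ≤ K₁ * |x 2| := by
  obtain ⟨a, b, ha, hb, h⟩ := SymE_ex hs
  have hzero : ∀ y : E3, y 2 = 0 → v y 2 = 0 := by
    intro y hy
    obtain ⟨θ, hθ⟩ := SymE_circle a b ha hb hy
    have h1 := congrArg (fun w : E3 => w 2) (h y)
    simp only [SymE_2] at h1
    rw [← hθ, hv.ax, rot_two'] at h1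
    linarith
  have h1 := Convex.norm_image_sub_le_of_norm_fderiv_le (𝕜 := ℝ) (f := v)
    (fun y _ => hv.smooth.differentiable (by simp) y) (fun y _ => hK y) convex_univ (mem_univ (!₂[x 0, x 1, 0] : E3)) (mem_univ x)
  have h2 : ‖x - !₂[x 0, x 1, 0]‖ = |x 2| := by
    have h3 : ‖x - !₂[x 0, x 1, 0]‖ ^ 2 = |x 2| ^ 2 := by
      rw [norm_sq_eq, sq_abs]
      change (x 0 - x 0) ^ 2 + (x 1 - x 1) ^ 2 + (x 2 - 0) ^ 2 = _
      ring
    exact (sq_eq_sq₀ (norm_nonneg _) (abs_nonneg _)).1 h3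
  rw [h2] at h1
  have h4 : |v x 2| ≤ ‖v x - v !₂[x 0, x 1, 0]‖ := by
    have h5 : (v x - v !₂[x 0, x 1, 0]) 2 = v x 2 := by
      have h6 : v !₂[x 0, x 1, 0] 2 = 0 := hzero !₂[x 0, x 1, 0] rfl
      change v x 2 - v !₂[x 0, x 1, 0] 2 = v x 2
      rw [h6, sub_zero]
    rw [← h5]
    have h6 : |(v x - v !₂[x 0, x 1, 0]) 2| ^ 2 ≤ ‖v x - v !₂[x 0, x 1, 0]‖ ^ 2 := by
      rw [norm_sq_eq, sq_abs]
      nlinarith [sq_nonneg ((v x - v !₂[x 0, x 1, 0]) 0), sq_nonneg ((v x - v !₂[x 0, x 1, 0]) 1)]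
    exact (pow_le_pow_iff_left₀ (abs_nonneg _) (norm_nonneg _) (by norm_num)).1 h6
  exact h4.trans h1

end Pool.Agent.H72.CC
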