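/-
FlowB. The balance of `∫ |ω_θ / r|` for axially symmetric flows (assembly).
-/
import Pool.Agent.H72.CC.BalA
import Pool.Agent.H72.CC.FlG
import Pool.Agent.H72.CC.Far
import Pool.Agent.H72.CC.FlH
import Pool.Agent.H72.CC.SymE
import Pool.Agent.H87.NS.FlowOf

set_option autoImplicit false

open Set Filter Topology MeasureTheory
open scoped ContDiff

namespace Pool.Agent.H72.CC

open Pool.Agent.H16 Pool.Agent.H87.NS

/-- Creation of negative `ω_θ / r` inside the part of `S` where `ω_θ / r` is negative. -/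
noncomputable def crN (S : Set E3) (v : E3 → E3) : ℝ := ∫ x in {x | x ∈ S ∧ sO v x < 0}, max (- src v x) 0

/-- Creation of positive `ω_θ / r` inside the part of `S` where `ω_θ / r` is positive. -/
noncomputable def crP (S : Set E3) (v : E3 → E3) : ℝ := ∫ x in {x | x ∈ S ∧ 0 < sO v x}, max (src v x) 0

variable {T : ℝ} {u : ℝ → E3 → E3} {p : ℝ → E3 → ℝ}

theorem FlowB_radm (r₀ : ℝ) : MeasurableSet {x : E3 | rad x < r₀} := by
  have : Continuous (rad : E3 → ℝ) := by unfold rad; fun_prop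
  exact (isOpen_lt this continuous_const).measurableSet

theorem FlowB_radm' (r₀ : ℝ) : MeasurableSet {x : E3 | r₀ ≤ rad x} := by
  have : Continuous (rad : E3 → ℝ) := by unfold rad; fun_prop
  exact (isClosed_le continuous_const this).measurableSet

theorem FlowB_H : MeasurableSet {x : E3 | 0 < x 2} := by
  refine measurableSet_lt measurable_const ?_
  exact (EuclideanSpace.proj (2 : Fin 3) : E3 →L[ℝ] ℝ).continuous.measurable

theorem JC_neg {f : ℝ → E3 → ℝ} (hf : JC T f) : JC T (fun t x => - f t x) := ContinuousOn.neg hf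

theorem JC_absneg {f : ℝ → E3 → ℝ} (hf : JC T f) : JC T (fun t x => - |f t x|) := (ContinuousOn.abs hf).neg

theorem JC_slice {f : ℝ → E3 → ℝ} (hf : JC T f) {t : ℝ} (ht : t ∈ Ico 0 T) : Continuous (f t) := by
  have hf' : ContinuousOn (fun q : ℝ × E3 => f q.1 q.2) (Ico 0 T ×ˢ univ) := hf
  exact hf'.comp_continuous (Continuous.prodMk continuous_const continuous_id) (fun x => ⟨ht, trivial⟩)

/-- Splitting off the region far from the axis. -/
theorem FlowB_split {f G g : ℝ → E3 → ℝ} (hf : JC T f) (hG : JC T G) (hg : JC T g) (hGg : ∀ t x, |G t x| = |g t x|)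
    {a b M C r₀ : ℝ} (ha : 0 ≤ a) (hab : a ≤ b) (hb : b < T)
    (hM : ∀ t ∈ Icc a b, Integrable (G t) ∧ ∫ x, |G t x| ≤ M)
    (hC : ∫ t in a..b, ∫ x in {x | r₀ ≤ rad x}, |g t x| ≤ C) {S : Set E3} (hS : MeasurableSet S) :
    ∫ t in a..b, ∫ x in {x | x ∈ S ∧ f t x < 0}, max (- G t x) 0 ≤
      (∫ t in a..b, ∫ x in {x | x ∈ S ∩ {x | rad x < r₀} ∧ f t x < 0}, max (- G t x) 0) + C := by
  have i1 := (bal_ii hf hG ha hab hb hM hS).1
  have i2 := (bal_ii hf hG ha hab hb hM (hS.inter (FlowB_radm r₀))).1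
  have hM2 : ∀ t ∈ Icc a b, Integrable (fun x => - |g t x|) ∧ ∫ x, |(- |g t x|)| ≤ M := by
    intro t ht
    have e1 : (fun x => - |g t x|) = fun x => - |G t x| := by funext x; rw [hGg]
    have e2 : (fun x => |(- |g t x|)|) = fun x => |G t x| := by funext x; rw [abs_neg, abs_abs, hGg]
    rw [e1, e2]
    exact ⟨(hM t ht).1.abs.neg, (hM t ht).2⟩
  have i3 := (bal_ii (T := T) (f := fun _ _ => -1) (G := fun t x => - |g t x|) (JC_const continuous_const) (JC_absneg hg)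
    ha hab hb hM2 (FlowB_radm' r₀)).1
  have e3 : ∀ t, ∫ x in {x | x ∈ {x : E3 | r₀ ≤ rad x} ∧ (-1 : ℝ) < 0}, max (- (- |g t x|)) 0 =
      ∫ x in {x | r₀ ≤ rad x}, |g t x| := by
    intro t
    have s1 : {x | x ∈ {x : E3 | r₀ ≤ rad x} ∧ (-1 : ℝ) < 0} = {x | r₀ ≤ rad x} := by
      ext x; simp
    rw [s1]
    refine integral_congr_ae (Eventually.of_forall fun x => ?_)
    simp
  simp only [e3] at i3
  have hsl : ∀ t ∈ Icc a b, Continuous (f t) ∧ Continuous (G t) := fun t ht =>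
    ⟨JC_slice hf ⟨ha.trans ht.1, lt_of_le_of_lt ht.2 hb⟩, JC_slice hG ⟨ha.trans ht.1, lt_of_le_of_lt ht.2 hb⟩⟩
  calc ∫ t in a..b, ∫ x in {x | x ∈ S ∧ f t x < 0}, max (- G t x) 0
      ≤ ∫ t in a..b, ((∫ x in {x | x ∈ S ∩ {x | rad x < r₀} ∧ f t x < 0}, max (- G t x) 0) + ∫ x in {x | r₀ ≤ rad x}, |g t x|) := by
        refine intervalIntegral.integral_mono_on hab i1 (i2.add i3) fun t ht => ?_
        obtain ⟨c1, c2⟩ := hsl t ht
        have m1 : MeasurableSet {x | f t x < 0} := (isOpen_lt c1 continuous_const).measurableSet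
        have mA : MeasurableSet {x | x ∈ S ∧ f t x < 0} := hS.inter m1
        have mB : MeasurableSet {x | x ∈ S ∩ {x | rad x < r₀} ∧ f t x < 0} := (hS.inter (FlowB_radm r₀)).inter m1
        have hi : Integrable (fun x => max (- G t x) 0) := (hM t ht).1.neg_part
        have hi2 : Integrable (fun x => |g t x|) := by
          have e1 : (fun x => |g t x|) = fun x => |G t x| := by funext x; rw [hGg]
          rw [e1]; exact (hM t ht).1.abs
        rw [← integral_indicator mA, ← integral_indicator mB, ← integral_indicator (FlowB_radm' r₀),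
          ← integral_add (hi.indicator mB) (hi2.indicator (FlowB_radm' r₀))]
        refine integral_mono (hi.indicator mA) ((hi.indicator mB).add (hi2.indicator (FlowB_radm' r₀))) fun x => ?_
        have hmx : max (- G t x) 0 ≤ |g t x| := by
          rw [← hGg]; exact max_le (neg_le_abs _) (abs_nonneg _)
        by_cases h1 : x ∈ {x | x ∈ S ∧ f t x < 0}
        · by_cases h2 : rad x < r₀
          · have h3 : x ∈ {x | x ∈ S ∩ {x | rad x < r₀} ∧ f t x < 0} := ⟨⟨h1.1, h2⟩, h1.2⟩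
            rw [indicator_of_mem h1]
            rw [indicator_of_mem h3]
            have : 0 ≤ ({x : E3 | r₀ ≤ rad x}.indicator (fun x => |g t x|)) x := indicator_nonneg (fun x _ => abs_nonneg _) x
            linarith
          · rw [indicator_of_mem h1]
            have h3 : x ∈ {x : E3 | r₀ ≤ rad x} := not_lt.1 h2
            rw [indicator_of_mem h3]
            have : 0 ≤ ({x | x ∈ S ∩ {x | rad x < r₀} ∧ f t x < 0}.indicator (fun x => max (- G t x) 0)) x :=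
              indicator_nonneg (fun x _ => le_max_right _ _) x
            linarith
        · rw [indicator_of_notMem h1]
          exact add_nonneg (indicator_nonneg (fun x _ => le_max_right _ _) x) (indicator_nonneg (fun x _ => abs_nonneg _) x)
    _ = (∫ t in a..b, ∫ x in {x | x ∈ S ∩ {x | rad x < r₀} ∧ f t x < 0}, max (- G t x) 0) +
        ∫ t in a..b, ∫ x in {x | r₀ ≤ rad x}, |g t x| := intervalIntegral.integral_add i2 i3
    _ ≤ _ := by linarith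

theorem FlowB_sets (S : Set E3) (r₀ : ℝ) (Q : E3 → Prop) :
    {x | x ∈ S ∩ {x : E3 | rad x < r₀} ∧ Q x} = {x | x ∈ {x : E3 | x ∈ S ∧ rad x < r₀} ∧ Q x} := rfl

theorem flowN (h : IsHInfAxisymNS T u p) {r₀ : ℝ} (hr : 0 < r₀) : ∃ C : ℝ, ∀ a b : ℝ, 0 ≤ a → a ≤ b → b < T → Integrable (sO (u a)) →
    Integrable (sO (u b)) ∧ ∫ x, |sO (u b) x| ≤ (∫ x, |sO (u a) x|) + C + 2 * ∫ t in a..b, crN {x | rad x < r₀} (u t) := by
  obtain ⟨C, hC0, hC⟩ := far h hr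
  refine ⟨2 * C, fun a b ha hab hb hi => ?_⟩
  have F := flow_of h
  obtain ⟨M, hM0, hM⟩ := flG h hb
  have hM' : ∀ t ∈ Icc a b, Integrable (src (u t)) ∧ ∫ x, |src (u t) x| ≤ M := fun t ht =>
    ⟨(hM t ⟨ha.trans ht.1, ht.2⟩).1, (hM t ⟨ha.trans ht.1, ht.2⟩).2.1⟩
  have h1 := bal_full F.drift F.evO ha hab hb hM' (fun t ht => (hM t ⟨ha.trans ht.1, ht.2⟩).2.2.le) hi
  refine ⟨h1.1, h1.2.trans ?_⟩
  have h2 := FlowB_split (f := fun t => sO (u t)) (G := fun t => src (u t)) (g := fun t => src (u t)) F.evO.cont (src_jc h.ns)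
    (src_jc h.ns) (fun _ _ => rfl) ha hab hb hM' (hC a b ha hab hb) (S := univ) MeasurableSet.univ
  simp only [mem_univ, true_and, univ_inter] at h2
  have e1 : ∫ t in a..b, crN {x | rad x < r₀} (u t) =
    ∫ t in a..b, ∫ x in {x | x ∈ {x : E3 | rad x < r₀} ∧ sO (u t) x < 0}, max (- src (u t) x) 0 := rfl
  have e2 : ∫ t in a..b, ∫ x in {x | sO (u t) x < 0}, max (-(2 * sV (u t) x * pd 2 (sV (u t)) x)) 0 =
    ∫ t in a..b, ∫ x in {x | sO (u t) x < 0}, max (- src (u t) x) 0 := rfl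
  rw [e1]
  rw [e2]
  linarith

theorem flowP (h : IsHInfAxisymNS T u p) {r₀ : ℝ} (hr : 0 < r₀) : ∃ C : ℝ, ∀ a b : ℝ, 0 ≤ a → a ≤ b → b < T → Integrable (sO (u a)) →
    Integrable (sO (u b)) ∧ ∫ x, |sO (u b) x| ≤ (∫ x, |sO (u a) x|) + C + 2 * ∫ t in a..b, crP {x | rad x < r₀} (u t) := by
  obtain ⟨C, hC0, hC⟩ := far h hr
  refine ⟨2 * C, fun a b ha hab hb hi => ?_⟩
  have F := flow_of h
  obtain ⟨M, hM0, hM⟩ := flG h hb
  have hM' : ∀ t ∈ Icc a b, Integrable (fun x => - src (u t) x) ∧ ∫ x, |(- src (u t) x)| ≤ M := fun t ht =>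
    ⟨(hM t ⟨ha.trans ht.1, ht.2⟩).1.neg, by simp only [abs_neg]; exact (hM t ⟨ha.trans ht.1, ht.2⟩).2.1⟩
  have h1 := bal_full (f := fun t x => - sO (u t) x) (G := fun t x => - src (u t) x) F.drift (evo_neg F.evO) ha hab hb hM'
    (fun t ht => by rw [integral_neg, (hM t ⟨ha.trans ht.1, ht.2⟩).2.2, neg_zero]) hi.neg
  have hi2 : Integrable (sO (u b)) := by simpa using h1.1.neg
  refine ⟨hi2, ?_⟩
  have h1' := h1.2
  simp only [abs_neg] at h1'
  refine h1'.trans ?_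
  have h2 := FlowB_split (f := fun t x => - sO (u t) x) (G := fun t x => - src (u t) x) (g := fun t => src (u t)) (JC_neg F.evO.cont)
    (JC_neg (src_jc h.ns)) (src_jc h.ns) (fun _ _ => abs_neg _) ha hab hb hM' (hC a b ha hab hb) (S := univ) MeasurableSet.univ
  simp only [mem_univ, true_and, univ_inter] at h2
  have e1 : ∫ t in a..b, crP {x | rad x < r₀} (u t) =
    ∫ t in a..b, ∫ x in {x | x ∈ {x : E3 | rad x < r₀} ∧ - sO (u t) x < 0}, max (- - src (u t) x) 0 := by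
    simp only [neg_lt_zero, neg_neg]; rfl
  rw [e1]
  linarith

theorem FlowB_u2 (h : IsHInfAxisymNS T u p)
    (hs : (∀ t ∈ Ico 0 T, ∀ x, u t (mir x) = mir (u t x)) ∨ ∀ t ∈ Ico 0 T, ∀ x, u t (hlf x) = hlf (u t x)) {a b : ℝ} (ha : 0 ≤ a) (hb : b < T) :
    ∃ K₂ : ℝ, ∀ t ∈ Icc a b, ∀ x, |u t x 2| ≤ K₂ * |x 2| := by
  obtain ⟨K, hK⟩ := h.reg b hb 1
  refine ⟨K, fun t ht x => ?_⟩
  have hm : t ∈ Ico 0 T := ⟨ha.trans ht.1, lt_of_le_of_lt ht.2 hb⟩
  refine sym_u2 (axF_of h.ns hm) ?_ (fun y => ?_) x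
  · exact hs.imp (fun h => h t hm) (fun h => h t hm)
  · rw [← norm_iteratedFDeriv_one]
    exact (hK t ⟨hm.1, ht.2⟩).1 y

theorem flowHN (h : IsHInfAxisymNS T u p)
    (hs : (∀ t ∈ Ico 0 T, ∀ x, u t (mir x) = mir (u t x)) ∨ ∀ t ∈ Ico 0 T, ∀ x, u t (hlf x) = hlf (u t x)) {r₀ : ℝ} (hr : 0 < r₀) :
    ∃ C : ℝ, ∀ a b : ℝ, 0 ≤ a → a ≤ b → b < T → Integrable (sO (u a)) →
    Integrable (sO (u b)) ∧ ∫ x, |sO (u b) x| ≤ (∫ x, |sO (u a) x|) + C + 4 * ∫ t in a..b, crN {x | 0 < x 2 ∧ rad x < r₀} (u t) := by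
  obtain ⟨C, hC0, hC⟩ := far h hr
  refine ⟨4 * C, fun a b ha hab hb hi => ?_⟩
  have F := flow_of h
  have hs' : ∀ t ∈ Ico 0 T, (∀ x, u t (mir x) = mir (u t x)) ∨ ∀ x, u t (hlf x) = hlf (u t x) := fun t ht =>
    hs.imp (fun h => h t ht) (fun h => h t ht)
  obtain ⟨M, hM0, hM⟩ := flG h hb
  obtain ⟨K₂, hK₂⟩ := FlowB_u2 h hs ha hb
  obtain ⟨K, hK⟩ := svwDB h hb
  have hM' : ∀ t ∈ Icc a b, Integrable (src (u t)) ∧ ∫ x, |src (u t) x| ≤ M := fun t ht =>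
    ⟨(hM t ⟨ha.trans ht.1, ht.2⟩).1, (hM t ⟨ha.trans ht.1, ht.2⟩).2.1⟩
  have hma : a ∈ Ico 0 T := ⟨ha, lt_of_le_of_lt hab hb⟩
  have hmb : b ∈ Ico 0 T := ⟨ha.trans hab, hb⟩
  have h1 := bal_half (f := fun t => sO (u t)) (G := fun t => src (u t)) F.drift F.evO
    (fun t ht x hx => sym_sO (axF_of h.ns ht) (hs' t ht) hx) ha hab hb hK₂ hM'
    (fun t ht => by
      have hm : t ∈ Ico 0 T := ⟨ha.trans ht.1, lt_of_le_of_lt ht.2 hb⟩
      exact (flH (svw_smooth h.ns hm).1 (DB_mono (hK t ⟨hm.1, ht.2⟩).1 (by norm_num) le_rfl)).1) hi.integrableOn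
  obtain ⟨j1, j2⟩ := sym_int (axF_of h.ns hmb) (hs' b hmb) h1.1
  refine ⟨j1, ?_⟩
  have j3 := (sym_int (axF_of h.ns hma) (hs' a hma) hi.integrableOn).2
  have h2 := FlowB_split (f := fun t => sO (u t)) (G := fun t => src (u t)) (g := fun t => src (u t)) F.evO.cont (src_jc h.ns)
    (src_jc h.ns) (fun _ _ => rfl) ha hab hb hM' (hC a b ha hab hb) (S := {x : E3 | 0 < x 2}) FlowB_H
  have e1 : ∫ t in a..b, crN {x | 0 < x 2 ∧ rad x < r₀} (u t) =
    ∫ t in a..b, ∫ x in {x | x ∈ {x : E3 | 0 < x 2} ∩ {x | rad x < r₀} ∧ sO (u t) x < 0}, max (- src (u t) x) 0 := rfl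
  have e2 : ∫ t in a..b, ∫ x in {x | 0 < x 2 ∧ sO (u t) x < 0}, max (- src (u t) x) 0 =
    ∫ t in a..b, ∫ x in {x | x ∈ {x : E3 | 0 < x 2} ∧ sO (u t) x < 0}, max (- src (u t) x) 0 := rfl
  rw [j2, j3, e1]
  have h3 := h1.2
  rw [e2] at h3
  linarith

theorem flowHP (h : IsHInfAxisymNS T u p) (hs : ∀ t ∈ Ico 0 T, ∀ x, u t (hlf x) = hlf (u t x)) {r₀ : ℝ} (hr : 0 < r₀) :
    ∃ C : ℝ, ∀ a b : ℝ, 0 ≤ a → a ≤ b → b < T → Integrable (sO (u a)) →
    Integrable (sO (u b)) ∧ ∫ x, |sO (u b) x| ≤ (∫ x, |sO (u a) x|) + C + 4 * ∫ t in a..b, crP {x | 0 < x 2 ∧ rad x < r₀} (u t) := by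
  obtain ⟨C, hC0, hC⟩ := far h hr
  refine ⟨4 * C, fun a b ha hab hb hi => ?_⟩
  have F := flow_of h
  have hs' : ∀ t ∈ Ico 0 T, (∀ x, u t (mir x) = mir (u t x)) ∨ ∀ x, u t (hlf x) = hlf (u t x) := fun t ht => Or.inr (hs t ht)
  obtain ⟨M, hM0, hM⟩ := flG h hb
  obtain ⟨K₂, hK₂⟩ := FlowB_u2 h (Or.inr hs) ha hb
  obtain ⟨K, hK⟩ := svwDB h hb
  have hM' : ∀ t ∈ Icc a b, Integrable (fun x => - src (u t) x) ∧ ∫ x, |(- src (u t) x)| ≤ M := fun t ht =>
    ⟨(hM t ⟨ha.trans ht.1, ht.2⟩).1.neg, by simp only [abs_neg]; exact (hM t ⟨ha.trans ht.1, ht.2⟩).2.1⟩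
  have hma : a ∈ Ico 0 T := ⟨ha, lt_of_le_of_lt hab hb⟩
  have hmb : b ∈ Ico 0 T := ⟨ha.trans hab, hb⟩
  have h1 := bal_half (f := fun t x => - sO (u t) x) (G := fun t x => - src (u t) x) F.drift (evo_neg F.evO)
    (fun t ht x hx => by rw [sym_sO (axF_of h.ns ht) (hs' t ht) hx, neg_zero]) ha hab hb hK₂ hM'
    (fun t ht => by
      have hm : t ∈ Ico 0 T := ⟨ha.trans ht.1, lt_of_le_of_lt ht.2 hb⟩
      have := (flH (svw_smooth h.ns hm).1 (DB_mono (hK t ⟨hm.1, ht.2⟩).1 (by norm_num) le_rfl)).2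
        (fun x hx => sym_sV (axF_of h.ns hm) (hs t hm) hx)
      rw [integral_neg]
      have e : ∫ x in {x : E3 | 0 < x 2}, src (u t) x = 0 := this
      rw [e, neg_zero]) hi.neg.integrableOn
  have i1 : IntegrableOn (sO (u b)) {x : E3 | 0 < x 2} := by simpa using h1.1.neg
  obtain ⟨j1, j2⟩ := sym_int (axF_of h.ns hmb) (hs' b hmb) i1
  refine ⟨j1, ?_⟩
  have j3 := (sym_int (axF_of h.ns hma) (hs' a hma) hi.integrableOn).2
  have h2 := FlowB_split (f := fun t x => - sO (u t) x) (G := fun t x => - src (u t) x) (g := fun t => src (u t)) (JC_neg F.evO.cont)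
    (JC_neg (src_jc h.ns)) (src_jc h.ns) (fun _ _ => abs_neg _) ha hab hb hM' (hC a b ha hab hb) (S := {x : E3 | 0 < x 2}) FlowB_H
  have e1 : ∫ t in a..b, crP {x | 0 < x 2 ∧ rad x < r₀} (u t) =
    ∫ t in a..b, ∫ x in {x | x ∈ {x : E3 | 0 < x 2} ∩ {x | rad x < r₀} ∧ - sO (u t) x < 0}, max (- - src (u t) x) 0 := by
    simp only [neg_lt_zero, neg_neg]; rfl
  have h3 := h1.2
  simp only [abs_neg] at h3
  rw [j2, j3, e1]
  have e2 : ∫ t in a..b, ∫ x in {x | 0 < x 2 ∧ - sO (u t) x < 0}, max (- - src (u t) x) 0 =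
    ∫ t in a..b, ∫ x in {x | x ∈ {x : E3 | 0 < x 2} ∧ - sO (u t) x < 0}, max (- - src (u t) x) 0 := rfl
  rw [e2] at h3
  linarith

end Pool.Agent.H72.CC
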