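/-
MainB. The creation criterion (assembly).
-/
import Pool.Agent.H72.CC.MainA
import Pool.Agent.H72.CC.FlowB

set_option autoImplicit false

open Set Filter Topology MeasureTheory
open scoped ContDiff

namespace Pool.Agent.H72.CC

open Pool.Agent.H16 Pool.Agent.H87.NS

theorem MainB_ll {T A c : ℝ} (hc : 0 < c) {a : ℝ} (haT : a < T) : ∃ b : ℝ, a ≤ b ∧ b < T ∧ ∀ t : ℝ, b ≤ t → t < T →
    A ≤ c * ll (T - t) ^ (1/36 : ℝ) := by
  have h1 : Tendsto (fun s : ℝ => c * ll s ^ (1/36 : ℝ)) (𝓝[>] 0) atTop := by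
    refine Tendsto.const_mul_atTop hc ?_
    refine (tendsto_rpow_atTop (by norm_num)).comp ?_
    refine Real.tendsto_log_atTop.comp ?_
    refine tendsto_atTop_add_const_left _ _ ?_
    exact tendsto_abs_atBot_atTop.comp Real.tendsto_log_nhdsGT_zero
  have h2 := h1.eventually (eventually_ge_atTop A)
  rw [eventually_nhdsWithin_iff, Metric.eventually_nhds_iff] at h2
  obtain ⟨ε, hε, h3⟩ := h2
  refine ⟨max a (T - ε / 2), le_max_left _ _, max_lt haT (by linarith), fun t ht htT => ?_⟩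
  have h4 : T - ε / 2 ≤ t := (le_max_right _ _).trans ht
  refine h3 ?_ (show T - t ∈ Ioi 0 from sub_pos.2 htT)
  rw [Real.dist_eq, sub_zero, abs_of_pos (by linarith)]
  linarith

theorem MainB_gen {T : ℝ} {u : ℝ → E3 → E3} {cr : ℝ → ℝ} {κ c c' : ℝ} (hκ : 0 ≤ κ) (hc' : 0 < c') (hcc : (κ + 1) * c' ≤ c)
    (H : ∃ C : ℝ, ∀ a b : ℝ, 0 ≤ a → a ≤ b → b < T → Integrable (sO (u a)) →
      Integrable (sO (u b)) ∧ ∫ x, |sO (u b) x| ≤ (∫ x, |sO (u a) x|) + C + κ * ∫ t in a..b, cr t)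
    (hi : Integrable (sO (u 0))) {a : ℝ} (ha : a ∈ Ico 0 T) (hcr : ∀ t ∈ Ico a T, ∫ s in a..t, cr s ≤ c' * ll (T - t) ^ (1/36 : ℝ)) :
    ∃ b : ℝ, b < T ∧ HypA T u 1 c b := by
  obtain ⟨C, hC⟩ := H
  have hia := (hC 0 a le_rfl ha.1 ha.2 hi).1
  obtain ⟨b, hab, hbT, hb⟩ := MainB_ll (T := T) (A := (∫ x, |sO (u a) x|) + C) hc' ha.2
  refine ⟨b, hbT, fun t ht hbt z => ?_⟩
  have hat : a ≤ t := hab.trans hbt
  obtain ⟨i1, i2⟩ := hC a t ha.1 hat ht.2 hia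
  have h1 := hb t hbt ht.2
  have h2 := hcr t ⟨hat, ht.2⟩
  have h3 : ∫ x in Metric.ball (axp z) 1, |sO (u t) x| ≤ ∫ x, |sO (u t) x| :=
    setIntegral_le_integral i1.abs (Eventually.of_forall fun x => abs_nonneg _)
  have hl : 0 ≤ ll (T - t) ^ (1/36 : ℝ) := by
    refine Real.rpow_nonneg (Real.log_nonneg ?_) _
    linarith [abs_nonneg (Real.log (T - t))]
  calc ∫ x in Metric.ball (axp z) 1, |sO (u t) x| ≤ ∫ x, |sO (u t) x| := h3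
    _ ≤ (∫ x, |sO (u a) x|) + C + κ * ∫ s in a..t, cr s := i2
    _ ≤ c' * ll (T - t) ^ (1/36 : ℝ) + κ * (c' * ll (T - t) ^ (1/36 : ℝ)) := by gcongr
    _ = ((κ + 1) * c') * ll (T - t) ^ (1/36 : ℝ) := by ring
    _ ≤ c * ll (T - t) ^ (1/36 : ℝ) := by gcongr

/-- The regions and signs for which the criterion is proved. -/
def Adm (T : ℝ) (u : ℝ → E3 → E3) (S : Set E3) (σ : ℝ) : Prop :=
  (S = univ ∧ (σ = 1 ∨ σ = -1)) ∨
  (S = {x : E3 | 0 < x 2} ∧ σ = 1 ∧ ∀ t ∈ Ico 0 T, ∀ x, u t (mir x) = mir (u t x)) ∨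
  (S = {x : E3 | 0 < x 2} ∧ (σ = 1 ∨ σ = -1) ∧ ∀ t ∈ Ico 0 T, ∀ x, u t (hlf x) = hlf (u t x))

theorem mainB : ∃ c : ℝ, 0 < c ∧ ∀ (T : ℝ) (u : ℝ → E3 → E3) (p : ℝ → E3 → ℝ), IsHInfAxisymNS T u p → Integrable (sO (u 0)) →
    ∀ (S : Set E3) (σ : ℝ), Adm T u S σ → ∀ r₀ : ℝ, 0 < r₀ → ∀ a ∈ Ico 0 T,
    (∀ t ∈ Ico a T, ∫ s in a..t, ∫ x in {x | x ∈ S ∧ rad x < r₀ ∧ σ * sO (u s) x < 0}, max (- (σ * src (u s) x)) 0 ≤
      c * ll (T - t) ^ (1/36 : ℝ)) → Small T u := by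
  obtain ⟨c, hc, HA⟩ := mainA
  refine ⟨c / 5, by positivity, ?_⟩
  intro T u p h hi S σ hS r₀ hr a ha hcr
  have key : ∃ (κ : ℝ) (cr : ℝ → ℝ), 0 ≤ κ ∧ κ ≤ 4 ∧ (∃ C : ℝ, ∀ a b : ℝ, 0 ≤ a → a ≤ b → b < T → Integrable (sO (u a)) →
      Integrable (sO (u b)) ∧ ∫ x, |sO (u b) x| ≤ (∫ x, |sO (u a) x|) + C + κ * ∫ t in a..b, cr t) ∧
      ∀ s, cr s = ∫ x in {x | x ∈ S ∧ rad x < r₀ ∧ σ * sO (u s) x < 0}, max (- (σ * src (u s) x)) 0 := by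
    have eN : ∀ (S : Set E3) s, crN {x | x ∈ S ∧ rad x < r₀} (u s) =
        ∫ x in {x | x ∈ S ∧ rad x < r₀ ∧ (1:ℝ) * sO (u s) x < 0}, max (- (1 * src (u s) x)) 0 := by
      intro S s
      unfold crN
      simp only [one_mul, mem_setOf_eq, and_assoc]
    have eP : ∀ (S : Set E3) s, crP {x | x ∈ S ∧ rad x < r₀} (u s) =
        ∫ x in {x | x ∈ S ∧ rad x < r₀ ∧ (-1:ℝ) * sO (u s) x < 0}, max (- (-1 * src (u s) x)) 0 := by
      intro S s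
      unfold crP
      simp only [neg_mul, one_mul, neg_neg, neg_lt_zero, mem_setOf_eq, and_assoc]
    have eU : {x : E3 | rad x < r₀} = {x : E3 | x ∈ (univ : Set E3) ∧ rad x < r₀} := by ext x; simp
    rcases hS with ⟨rfl, rfl | rfl⟩ | ⟨rfl, rfl, hs⟩ | ⟨rfl, rfl | rfl, hs⟩
    · refine ⟨2, fun s => crN {x | rad x < r₀} (u s), by norm_num, by norm_num, flowN h hr, fun s => ?_⟩
      rw [← eN, ← eU]
    · refine ⟨2, fun s => crP {x | rad x < r₀} (u s), by norm_num, by norm_num, flowP h hr, fun s => ?_⟩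
      rw [← eP, ← eU]
    · exact ⟨4, fun s => crN {x | 0 < x 2 ∧ rad x < r₀} (u s), by norm_num, by norm_num, flowHN h (Or.inl hs) hr, fun s => eN {x : E3 | 0 < x 2} s⟩
    · exact ⟨4, fun s => crN {x | 0 < x 2 ∧ rad x < r₀} (u s), by norm_num, by norm_num, flowHN h (Or.inr hs) hr, fun s => eN {x : E3 | 0 < x 2} s⟩
    · exact ⟨4, fun s => crP {x | 0 < x 2 ∧ rad x < r₀} (u s), by norm_num, by norm_num, flowHP h hs hr, fun s => eP {x : E3 | 0 < x 2} s⟩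
  obtain ⟨κ, cr, hκ0, hκ4, H, hcr'⟩ := key
  obtain ⟨b, hbT, hb⟩ := MainB_gen (c := c) (c' := c / 5) hκ0 (by positivity) (by nlinarith) H hi ha
    (fun t ht => by simp only [hcr']; exact hcr t ht)
  exact HA T u p h 1 b one_pos hbT hb

end Pool.Agent.H72.CC
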