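/-
ROW PotA (MP_09540e_CC). Local potential estimate for the stream function. PROOF. Let `B_s = ball (axp z) s`, `x ∈ B_(R/4)`, `i ∈ {0, 1}`, `φ y = y i * sP v y` (smooth), `ζ y = zc (1/2) 1 (R⁻¹ • (y - axp z)) ^ 2` (smooth, `0 ≤ ζ ≤ 1`, `ζ = 1` on `B_(R/2)`,
`ζ = 0` off `B_R`; from zc_pow with n = 2 and the chain rule `pd i (f (R⁻¹ • (· - a))) = R⁻¹ (pd i f)(..)`: `gsq ζ ≤ C/R²`, `|lap ζ| ≤ C/R²`; `pd i ζ`, `lap ζ` vanish on `B_(R/2)`, an open set where ζ = 1, and off `closedBall`), `g = ζ φ`.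
`lap g = ζ lap φ + 2 ∑ pd j ζ pd j φ + φ lap ζ` and `lap φ = - y i * sO v y` (sP_lap). Let `k y = (‖x - y‖² + ε²)^(-1/2)`. `∫ 2 ∑ pd j ζ pd j φ k = - 2 ∫ φ (lap ζ k + ∑ pd j ζ pd j k)` (from `∫ pd j (φ pd j ζ k) = 0`, LevX_int). So
`|∫ lap g k| ≤ ∫ ζ |y i| |sO v y| k + ∫ |φ| (|lap ζ| k + 2 |∑ pd j ζ pd j k|)`. Here `k ≤ ‖x - y‖⁻¹`, `|pd j k| ≤ ‖x - y‖⁻²` (newt_pd), and where `pd j ζ ≠ 0` or `lap ζ ≠ 0` one has `‖y - axp z‖ ≥ R/2`, `‖x - y‖ ≥ R/4`.
`|y i| ≤ ‖x - y‖ + rad x` gives `|y i| ‖x - y‖⁻¹ ≤ 1 + rad x ‖x - y‖⁻¹` (for y ≠ x). So the first term is at most `∫_{B_R} |sO v y| (1 + rad x / ‖x - y‖)` (integrable: sO v continuous, bounded on B_R, and `‖x - y‖⁻¹` is integrable on balls: from HLoc_near in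
H87/NC/HLoc.lean and `1/s ≤ 1 + 1/s²`), the second at most `C R⁻³ ∫_{B_R} |φ| ≤ C R⁻³ R √(vol B_R) √(∫ sP²) ≤ C' R^(-1/2) √(∫ ‖v‖²)` (`|φ y| ≤ rad y |sP| ≤ R |sP|`, Cauchy-Schwarz, sP_L2, `vol B_R ≤ 8 R³` or EuclideanSpace.volume_ball). newt_lim: `c0 |φ x| = c0 |g x| ≤` this bound
for `i = 0, 1`, and `rad x |sP v x| ≤ |φ₀ x| + |φ₁ x|`.
-/
import Pool.Agent.H72.CC.PDefs
import Pool.Agent.H72.CC.Psi
import Pool.Agent.H72.CC.Newt
import Pool.Agent.H72.CC.Cut
import Pool.Agent.H87.NC.HLoc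
import Pool.Agent.H87.NC.Crit

set_option autoImplicit false

open Set Filter Topology MeasureTheory
open scoped ContDiff

namespace Pool.Agent.H72.CC

open Pool.Agent.H16 Pool.Agent.H87.NS

theorem potA_int {f : E3 → ℝ} (hf : Continuous f) (a x : E3) (R : ℝ) :
    IntegrableOn (fun y => |f y| * (1 + rad x / ‖x - y‖)) (Metric.ball a R) ∧
    IntegrableOn (fun y => |f y| / ‖x - y‖) (Metric.ball a R) := by
  have h2 : IntegrableOn (fun y : E3 => 1 / ‖x - y‖ ^ 2) (Metric.ball a R) := by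
    have h1 := (HLoc_near (R + ‖x - a‖ + 1) x).integrableOn (s := Metric.ball a R)
    refine h1.congr_fun (fun y hy => ?_) measurableSet_ball
    have hy' : ‖y - a‖ < R := mem_ball_iff_norm.1 hy
    have h3 : ‖x - y‖ < R + ‖x - a‖ + 1 := by
      have h4 := norm_sub_le_norm_sub_add_norm_sub x a y
      rw [norm_sub_rev a y] at h4
      linarith
    exact if_pos h3
  obtain ⟨M, hM⟩ := (isCompact_closedBall a R).exists_bound_of_continuousOn hf.continuousOn
  have hc : IntegrableOn (fun _ : E3 => (1:ℝ)) (Metric.ball a R) :=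
    integrableOn_const (measure_ball_lt_top.ne)
  have h3 : IntegrableOn (fun y => |f y| / ‖x - y‖) (Metric.ball a R) := by
    refine Integrable.mono' ((hc.add h2).const_mul M) ?_ ?_
    · exact (hf.abs.measurable.div
        (continuous_const.sub continuous_id).norm.measurable).aestronglyMeasurable
    · refine ae_restrict_of_forall_mem measurableSet_ball fun y hy => ?_
      have h4 : |f y| ≤ M := hM y (Metric.ball_subset_closedBall hy)
      have h5 : 0 ≤ ‖x - y‖⁻¹ := by positivity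
      have h6 : ‖x - y‖⁻¹ ≤ 1 + 1 / ‖x - y‖ ^ 2 := by
        rw [one_div, ← inv_pow]
        linarith only [sq_nonneg (‖x - y‖⁻¹ - 1 / 2)]
      rw [Real.norm_of_nonneg (by positivity), div_eq_mul_inv]
      exact mul_le_mul h4 h6 h5 ((abs_nonneg _).trans h4)
  refine ⟨?_, h3⟩
  have h4 : IntegrableOn (fun y => |f y|) (Metric.ball a R) := Crit_ball hf.abs a R
  have h5 := h4.add (h3.const_mul (rad x))
  refine h5.congr (Eventually.of_forall fun y => ?_)
  simp only [Pi.add_apply]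
  ring

/-! ### Locally constant functions, scaling, products -/

private theorem PotA_loc1 {f : E3 → ℝ} {U : Set E3} (hU : IsOpen U) {c : ℝ} (h : ∀ y ∈ U, f y = c)
    (i : Fin 3) (y : E3) (hy : y ∈ U) : pd i f y = 0 := by
  have h1 : f =ᶠ[𝓝 y] fun _ => c := Filter.eventuallyEq_of_mem (hU.mem_nhds hy) h
  unfold pd
  rw [h1.fderiv_eq]
  simp

private theorem PotA_loc {f : E3 → ℝ} {U : Set E3} (hU : IsOpen U) {c : ℝ} (h : ∀ y ∈ U, f y = c)
    (y : E3) (hy : y ∈ U) : (∀ i, pd i f y = 0) ∧ lap f y = 0 := by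
  refine ⟨fun i => PotA_loc1 hU h i y hy, ?_⟩
  unfold lap
  refine Finset.sum_eq_zero fun i _ => ?_
  exact PotA_loc1 hU (c := 0) (fun y hy => PotA_loc1 hU h i y hy) i y hy

private theorem PotA_sc {F : E3 → ℝ} (hF : ContDiff ℝ ∞ F) (a : E3) (r c : ℝ) (i : Fin 3) :
    pd i (fun y => c * F (r • (y - a))) = fun y => (c * r) * pd i F (r • (y - a)) := by
  funext y
  have h0 : HasFDerivAt (fun y : E3 => r • (y - a)) (r • ContinuousLinearMap.id ℝ E3) y :=
    ((hasFDerivAt_id y).sub_const a).const_smul r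
  have h1 : HasFDerivAt F (fderiv ℝ F (r • (y - a))) (r • (y - a)) :=
    (hF.differentiable (by simp) _).hasFDerivAt
  have h2 := (h1.comp y h0).const_mul c
  have h3 : fderiv ℝ (fun y => c * F (r • (y - a))) y = _ := h2.fderiv
  unfold pd
  rw [h3]
  change c * (fderiv ℝ F (r • (y - a))) (r • e i) = _
  rw [map_smul, smul_eq_mul]
  ring

private theorem PotA_lap_mul {A B : E3 → ℝ} (hA : ContDiff ℝ ∞ A) (hB : ContDiff ℝ ∞ B) (x : E3) :
    lap (fun y => A y * B y) x = A x * lap B x + B x * lap A x +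
      2 * ∑ i, pd i A x * pd i B x := by
  have h1 : ∀ i, pd i (fun y => A y * B y) = fun x => pd i A x * B x + A x * pd i B x := fun i =>
    funext fun x => LevX_pd_mul (Ib_dif hA x) (Ib_dif hB x) i
  unfold lap
  rw [Finset.mul_sum, Finset.mul_sum, Finset.mul_sum, ← Finset.sum_add_distrib,
    ← Finset.sum_add_distrib]
  refine Finset.sum_congr rfl fun i _ => ?_
  have a2 := pd_smooth hA i
  have b2 := pd_smooth hB i
  rw [h1 i, LevX_pd_add (f := fun x => pd i A x * B x) (g := fun x => A x * pd i B x)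
    (Ib_dif (a2.mul hB) x) (Ib_dif (hA.mul b2) x) i,
    LevX_pd_mul (Ib_dif a2 x) (Ib_dif hB x) i, LevX_pd_mul (Ib_dif hA x) (Ib_dif b2 x) i]
  ring

/-! ### The cut-off -/

private noncomputable def PotA_z (a : E3) (R : ℝ) (y : E3) : ℝ := zc (1/2) 1 (R⁻¹ • (y - a)) ^ 2

private theorem PotA_z_eq (a : E3) (R : ℝ) :
    PotA_z a R = fun y => 1 * (fun w => zc (1/2) 1 w ^ 2) (R⁻¹ • (y - a)) := by
  funext y
  simp only [one_mul]
  rfl

private theorem PotA_z_smooth (a : E3) (R : ℝ) : ContDiff ℝ ∞ (PotA_z a R) :=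
  ((zc_smooth (1/2) 1).comp ((contDiff_id.sub contDiff_const).const_smul R⁻¹)).pow 2

private theorem PotA_z_nonneg (a : E3) (R : ℝ) (y : E3) : 0 ≤ PotA_z a R y := sq_nonneg _

private theorem PotA_z_le (a : E3) (R : ℝ) (y : E3) : PotA_z a R y ≤ 1 :=
  pow_le_one₀ (zc_nonneg _ _ _) (zc_le _ _ _)

private theorem PotA_norm {R : ℝ} (hR : 0 < R) (w : E3) : ‖R⁻¹ • w‖ = ‖w‖ / R := by
  rw [norm_smul, norm_inv, Real.norm_of_nonneg hR.le]
  ring

private theorem PotA_z_one (a : E3) {R : ℝ} (hR : 0 < R) {y : E3} (hy : ‖y - a‖ ≤ R / 2) :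
    PotA_z a R y = 1 := by
  unfold PotA_z
  rw [zc_one (by norm_num) (by norm_num) (by
    rw [PotA_norm hR, div_le_iff₀ hR]
    linarith), one_pow]

private theorem PotA_z_zero (a : E3) {R : ℝ} (hR : 0 < R) {y : E3} (hy : R ≤ ‖y - a‖) :
    PotA_z a R y = 0 := by
  unfold PotA_z
  rw [zc_zero (by norm_num) (by norm_num) (by
    rw [PotA_norm hR, le_div_iff₀ hR]
    linarith)]
  norm_num

private theorem PotA_z_supp (a : E3) {R : ℝ} (hR : 0 < R) : HasCompactSupport (PotA_z a R) := by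
  refine HasCompactSupport.of_support_subset_isCompact (isCompact_closedBall a R) fun y hy => ?_
  rw [mem_closedBall_iff_norm]
  by_contra h
  exact hy (PotA_z_zero a hR (not_le.1 h).le)

private theorem PotA_z_in (a : E3) {R : ℝ} (hR : 0 < R) {y : E3} (hy : ‖y - a‖ < R / 2) :
    (∀ i, pd i (PotA_z a R) y = 0) ∧ lap (PotA_z a R) y = 0 :=
  PotA_loc Metric.isOpen_ball (c := 1) (fun w hw => PotA_z_one a hR
    (mem_ball_iff_norm.1 hw).le) y (mem_ball_iff_norm.2 hy)

private theorem PotA_z_out (a : E3) {R : ℝ} (hR : 0 < R) {y : E3} (hy : R < ‖y - a‖) :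
    (∀ i, pd i (PotA_z a R) y = 0) ∧ lap (PotA_z a R) y = 0 := by
  refine PotA_loc (Metric.isClosed_closedBall (x := a) (ε := R)).isOpen_compl (c := 0)
    (fun w hw => ?_) y ?_
  · refine PotA_z_zero a hR ?_
    rw [Set.mem_compl_iff, mem_closedBall_iff_norm, not_le] at hw
    exact hw.le
  · rw [Set.mem_compl_iff, mem_closedBall_iff_norm, not_le]
    exact hy

private theorem PotA_z_bd : ∃ C : ℝ, 0 < C ∧ ∀ (a : E3) (R : ℝ), 0 < R → ∀ y,
    (∀ i, |pd i (PotA_z a R) y| ≤ C / R) ∧ |lap (PotA_z a R) y| ≤ C / R ^ 2 := by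
  obtain ⟨C, hC, h⟩ := zc_pow 2 le_rfl
  refine ⟨4 * C + 2 * √C, by positivity, fun a R hR y => ?_⟩
  obtain ⟨-, h2, h3, -⟩ := h (1/2) 1 (by norm_num) (by norm_num) le_rfl (R⁻¹ • (y - a))
  have hs : ContDiff ℝ ∞ (fun w : E3 => zc (1/2) 1 w ^ 2) := (zc_smooth _ _).pow 2
  have hz0 : 0 ≤ zc (1/2) 1 (R⁻¹ • (y - a)) := zc_nonneg _ _ _
  have hz1 : zc (1/2) 1 (R⁻¹ • (y - a)) ≤ 1 := zc_le _ _ _
  have h4 : C / (1 - 1 / 2) ^ 2 = 4 * C := by ring
  rw [h4] at h2 h3
  have hsC : 0 ≤ √C := Real.sqrt_nonneg _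
  constructor
  · intro i
    rw [PotA_z_eq, PotA_sc hs]
    have h5 : |pd i (fun w : E3 => zc (1/2) 1 w ^ 2) (R⁻¹ • (y - a))| ≤ 2 * √C := by
      have h6 : pd i (fun w : E3 => zc (1/2) 1 w ^ 2) (R⁻¹ • (y - a)) ^ 2 ≤ (2 * √C) ^ 2 := by
        have h7 : pd i (fun w : E3 => zc (1/2) 1 w ^ 2) (R⁻¹ • (y - a)) ^ 2 ≤
            gsq (fun w : E3 => zc (1/2) 1 w ^ 2) (R⁻¹ • (y - a)) :=
          Finset.single_le_sum (f := fun i => pd i (fun w : E3 => zc (1/2) 1 w ^ 2)
            (R⁻¹ • (y - a)) ^ 2) (fun i _ => sq_nonneg _) (Finset.mem_univ i)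
        have h8 : 4 * C * zc (1/2) 1 (R⁻¹ • (y - a)) ^ (2 * 2 - 2) ≤ 4 * C * 1 :=
          mul_le_mul_of_nonneg_left (pow_le_one₀ hz0 hz1) (by positivity)
        rw [mul_pow, Real.sq_sqrt hC.le]
        linarith
      exact abs_le_of_sq_le_sq h6 (by positivity)
    simp only [one_mul]
    rw [abs_mul, abs_of_pos (inv_pos.2 hR), div_eq_inv_mul (4 * C + 2 * √C) R]
    refine mul_le_mul_of_nonneg_left (h5.trans ?_) (inv_pos.2 hR).le
    linarith
  · have h5 : lap (PotA_z a R) y = (R⁻¹) ^ 2 *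
        lap (fun w : E3 => zc (1/2) 1 w ^ 2) (R⁻¹ • (y - a)) := by
      unfold lap
      rw [Finset.mul_sum]
      refine Finset.sum_congr rfl fun i _ => ?_
      rw [PotA_z_eq, PotA_sc hs, PotA_sc (pd_smooth hs i)]
      ring
    rw [h5, abs_mul, abs_of_pos (by positivity : (0:ℝ) < R⁻¹ ^ 2),
      div_eq_inv_mul (4 * C + 2 * √C) (R ^ 2), inv_pow]
    refine mul_le_mul_of_nonneg_left (h3.trans ?_) (by positivity)
    rw [Nat.sub_self, pow_zero, mul_one]
    linarith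

/-! ### Green's identity with a cut-off -/

private theorem PotA_green {ζ φ k : E3 → ℝ} (hζ : ContDiff ℝ ∞ ζ) (hc : HasCompactSupport ζ)
    (hφ : ContDiff ℝ ∞ φ) (hk : ContDiff ℝ ∞ k) :
    ∫ y, lap (fun y => ζ y * φ y) y * k y = (∫ y, lap φ y * k y * ζ y) -
      ∫ y, φ y * (lap ζ y * k y + 2 * ∑ j, pd j ζ y * pd j k y) := by
  have hlφ : ContDiff ℝ ∞ (lap φ) := by
    unfold lap
    exact ContDiff.sum fun i _ => pd_smooth (pd_smooth hφ i) i
  have hlζ : ContDiff ℝ ∞ (lap ζ) := by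
    unfold lap
    exact ContDiff.sum fun i _ => pd_smooth (pd_smooth hζ i) i
  have hlc : HasCompactSupport (lap ζ) := by
    have h1 : lap ζ = fun y => (pd 0 (pd 0 ζ) y + pd 1 (pd 1 ζ) y) + pd 2 (pd 2 ζ) y := by
      funext y
      unfold lap
      rw [Fin.sum_univ_three]
    rw [h1]
    exact ((Ib_cs_pd (Ib_cs_pd hc 0) 0).add (Ib_cs_pd (Ib_cs_pd hc 1) 1)).add
      (Ib_cs_pd (Ib_cs_pd hc 2) 2)
  have iA : Integrable (fun y => lap φ y * k y * ζ y) := Ib_int (hlφ.mul hk) hζ hc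
  have iB : Integrable (fun y => (φ y * k y) * lap ζ y) := Ib_int (hφ.mul hk) hlζ hlc
  have iAB : Integrable (fun y => lap φ y * k y * ζ y + (φ y * k y) * lap ζ y) := iA.add iB
  have iD : ∀ j : Fin 3, Integrable (fun y => pd j φ y * (pd j ζ y * k y)) := fun j =>
    Ib_int (pd_smooth hφ j) ((pd_smooth hζ j).mul hk) ((Ib_cs_pd hc j).mul_right)
  have iE1 : ∀ j : Fin 3, Integrable (fun y => (φ y * k y) * pd j (pd j ζ) y) := fun j =>
    Ib_int (hφ.mul hk) (pd_smooth (pd_smooth hζ j) j) (Ib_cs_pd (Ib_cs_pd hc j) j)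
  have iE2 : ∀ j : Fin 3, Integrable (fun y => (φ y * pd j k y) * pd j ζ y) := fun j =>
    Ib_int (hφ.mul (pd_smooth hk j)) (pd_smooth hζ j) (Ib_cs_pd hc j)
  have hD : ∀ j : Fin 3, ∫ y, pd j φ y * (pd j ζ y * k y) =
      - ((∫ y, (φ y * k y) * pd j (pd j ζ) y) + ∫ y, (φ y * pd j k y) * pd j ζ y) := by
    intro j
    rw [Ib_ibp hφ ((pd_smooth hζ j).mul hk) ((Ib_cs_pd hc j).mul_right) j,
      ← integral_add (iE1 j) (iE2 j)]
    congr 1
    refine integral_congr_ae (Eventually.of_forall fun y => ?_)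
    simp only
    rw [LevX_pd_mul (Ib_dif (pd_smooth hζ j) y) (Ib_dif hk y) j]
    ring
  have hB : ∫ y, (φ y * k y) * lap ζ y = ∑ j, ∫ y, (φ y * k y) * pd j (pd j ζ) y := by
    rw [← integral_finsetSum _ (fun j _ => iE1 j)]
    refine integral_congr_ae (Eventually.of_forall fun y => ?_)
    simp only
    unfold lap
    rw [Finset.mul_sum]
  have h1 : ∫ y, lap (fun y => ζ y * φ y) y * k y =
      ((∫ y, lap φ y * k y * ζ y) + ∫ y, (φ y * k y) * lap ζ y) +
        2 * ∑ j, ∫ y, pd j φ y * (pd j ζ y * k y) := by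
    rw [← integral_finsetSum _ (fun j _ => iD j), ← integral_const_mul,
      ← integral_add iA iB, ← integral_add iAB
        ((integrable_finsetSum _ (fun j _ => iD j)).const_mul 2)]
    refine integral_congr_ae (Eventually.of_forall fun y => ?_)
    simp only [Pi.add_apply]
    rw [PotA_lap_mul hζ hφ, Finset.sum_congr rfl (fun j _ =>
      show pd j φ y * (pd j ζ y * k y) = k y * (pd j ζ y * pd j φ y) by ring),
      ← Finset.mul_sum]
    ring
  have h2 : ∫ y, φ y * (lap ζ y * k y + 2 * ∑ j, pd j ζ y * pd j k y) =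
      (∫ y, (φ y * k y) * lap ζ y) + 2 * ∑ j, ∫ y, (φ y * pd j k y) * pd j ζ y := by
    rw [← integral_finsetSum _ (fun j _ => iE2 j), ← integral_const_mul,
      ← integral_add iB ((integrable_finsetSum _ (fun j _ => iE2 j)).const_mul 2)]
    refine integral_congr_ae (Eventually.of_forall fun y => ?_)
    simp only
    rw [Finset.sum_congr rfl (fun j _ =>
      show φ y * pd j k y * pd j ζ y = φ y * (pd j ζ y * pd j k y) by ring),
      ← Finset.mul_sum]
    ring
  rw [h1, h2, Finset.sum_congr rfl (fun j _ => hD j), Finset.sum_neg_distrib,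
    Finset.sum_add_distrib, ← hB]
  ring

/-! ### The kernel -/

private theorem PotA_q {ε : ℝ} (hε : 0 < ε) {w : E3} (hw : 0 < ‖w‖) :
    0 ≤ (‖w‖ ^ 2 + ε ^ 2) ^ (-(1/2) : ℝ) ∧ (‖w‖ ^ 2 + ε ^ 2) ^ (-(1/2) : ℝ) ≤ ‖w‖⁻¹ ∧
    0 ≤ (‖w‖ ^ 2 + ε ^ 2) ^ (-(3/2) : ℝ) ∧ (‖w‖ ^ 2 + ε ^ 2) ^ (-(3/2) : ℝ) ≤ ‖w‖⁻¹ ^ 3 := by
  have hP : 0 < ‖w‖ ^ 2 + ε ^ 2 := by positivity
  have h1 : (‖w‖ ^ 2 + ε ^ 2) ^ (-(1/2) : ℝ) ≤ ‖w‖⁻¹ := by
    rw [Real.rpow_neg hP.le, ← Real.sqrt_eq_rpow]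
    refine inv_anti₀ hw (Real.le_sqrt_of_sq_le ?_)
    nlinarith [sq_nonneg ε]
  have h0 : 0 ≤ (‖w‖ ^ 2 + ε ^ 2) ^ (-(1/2) : ℝ) := Real.rpow_nonneg hP.le _
  have h3 : (‖w‖ ^ 2 + ε ^ 2) ^ (-(3/2) : ℝ) = ((‖w‖ ^ 2 + ε ^ 2) ^ (-(1/2) : ℝ)) ^ 3 := by
    rw [show ((‖w‖ ^ 2 + ε ^ 2) ^ (-(1/2) : ℝ)) ^ 3 =
      ((‖w‖ ^ 2 + ε ^ 2) ^ (-(1/2) : ℝ)) ^ ((3 : ℕ) : ℝ) from (Real.rpow_natCast _ 3).symm,
      ← Real.rpow_mul hP.le]
    congr 1
    norm_num
  refine ⟨h0, h1, Real.rpow_nonneg hP.le _, ?_⟩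
  rw [h3]
  exact pow_le_pow_left₀ h0 h1 3

private theorem PotA_abs_rad (y : E3) {i : Fin 3} (hi : i ≠ 2) : |y i| ≤ rad y := by
  unfold rad
  refine Real.le_sqrt_of_sq_le ?_
  rw [sq_abs]
  have h : i = 0 ∨ i = 1 := by
    fin_cases i
    · exact Or.inl rfl
    · exact Or.inr rfl
    · exact absurd rfl hi
  rcases h with h | h
  · subst h
    nlinarith [sq_nonneg (y 1)]
  · subst h
    nlinarith [sq_nonneg (y 0)]

private theorem PotA_rad_le (x : E3) : rad x ≤ |x 0| + |x 1| := by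
  unfold rad
  refine Real.sqrt_le_iff.2 ⟨by positivity, ?_⟩
  nlinarith [sq_abs (x 0), sq_abs (x 1), abs_nonneg (x 0), abs_nonneg (x 1),
    mul_nonneg (abs_nonneg (x 0)) (abs_nonneg (x 1))]

private theorem PotA_rad_axp (z : ℝ) (y : E3) : rad y ≤ ‖y - axp z‖ := by
  have h := rad_le_norm (y - axp z)
  have h2 : rad (y - axp z) = rad y := by
    unfold rad axp
    simp
  rwa [h2] at h

private theorem PotA_vol (a : E3) {R : ℝ} (hR : 0 < R) :
    (volume : Measure E3).real (Metric.closedBall a R) ≤ 5 * R ^ 3 := by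
  have h := EuclideanSpace.volume_closedBall_fin_three a R
  rw [Measure.real, h, ENNReal.toReal_mul, ENNReal.toReal_pow, ENNReal.toReal_ofReal hR.le,
    ENNReal.toReal_ofReal (by positivity)]
  have h4 : Real.pi * 4 / 3 ≤ 5 := by
    have := Real.pi_lt_d2
    linarith
  have h5 : 0 ≤ R ^ 3 := by positivity
  nlinarith [mul_le_mul_of_nonneg_left h4 h5]

/-- One coordinate. -/
private theorem PotA_one {C1 : ℝ} (hC1 : 0 < C1) (hz : ∀ (a : E3) (R : ℝ), 0 < R → ∀ y,
    (∀ i, |pd i (PotA_z a R) y| ≤ C1 / R) ∧ |lap (PotA_z a R) y| ≤ C1 / R ^ 2)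
    {v : E3 → E3} (hv : AxF v) (hi : Integrable (fun x => ‖v x‖ ^ 2)) {R : ℝ} (hR : 0 < R) (z : ℝ)
    {x : E3} (hx : x ∈ Metric.ball (axp z) (R / 4)) {i : Fin 3} (hi2 : i ≠ 2) :
    c0 * |x i * sP v x| ≤ (∫ y in Metric.ball (axp z) R, |sO v y| * (1 + rad x / ‖x - y‖)) +
      300 * C1 * ((√R)⁻¹ * √(∫ y, ‖v y‖ ^ 2)) := by
  have hx' : ‖x - axp z‖ < R / 4 := mem_ball_iff_norm.1 hx
  set a : E3 := axp z with ha
  set ζ : E3 → ℝ := PotA_z a R with hζd
  set φ : E3 → ℝ := fun y => y i * sP v y with hφd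
  have hζ : ContDiff ℝ ∞ ζ := PotA_z_smooth a R
  have hζc : HasCompactSupport ζ := PotA_z_supp a hR
  have hsP : ContDiff ℝ ∞ (sP v) := sP_smooth hv
  have hφ : ContDiff ℝ ∞ φ := (LevX_coord_cd i).mul hsP
  have hsO : Continuous (sO v) := by
    have h1 : ContDiff ℝ ∞ (fun y => curl (curl v) y 2) :=
      (EuclideanSpace.proj (𝕜 := ℝ) (2 : Fin 3) : E3 →L[ℝ] ℝ).contDiff.comp
        (curl_smooth (curl_smooth hv.smooth))
    exact (avk_smooth h1 1).continuous
  have hgx : ζ x * φ x = x i * sP v x := by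
    rw [hζd, PotA_z_one a hR (by linarith), one_mul]
  rw [← hgx]
  refine newt_lim (g := fun y => ζ y * φ y) (hζ.mul hφ) hζc.mul_right x fun ε hε => ?_
  set k : E3 → ℝ := fun y => (‖x - y‖ ^ 2 + ε ^ 2) ^ (-(1/2) : ℝ) with hkd
  have hk : ContDiff ℝ ∞ k := newt_smooth hε x
  rw [PotA_green hζ hζc hφ hk]
  refine (abs_sub _ _).trans (add_le_add ?_ ?_)
  · -- the first term
    have h1 : ∫ y, lap φ y * k y * ζ y = ∫ y in Metric.ball a R, lap φ y * k y * ζ y := by
      refine (setIntegral_eq_integral_of_forall_compl_eq_zero fun y hy => ?_).symm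
      rw [mem_ball_iff_norm, not_lt] at hy
      rw [hζd, PotA_z_zero a hR hy, mul_zero]
    rw [h1]
    refine abs_integral_le_integral_abs.trans ?_
    refine integral_mono_ae ?_ (potA_int hsO a x R).1 ?_
    · have h2 : Continuous (fun y => lap φ y * k y * ζ y) := by
        have hlφ : ContDiff ℝ ∞ (lap φ) := by
          unfold lap
          exact ContDiff.sum fun i _ => pd_smooth (pd_smooth hφ i) i
        exact (hlφ.continuous.mul hk.continuous).mul hζ.continuous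
      exact Crit_ball h2.abs a R
    · have hne : ∀ᵐ y ∂((volume : Measure E3).restrict (Metric.ball a R)), y ≠ x :=
        ae_restrict_of_ae (compl_mem_ae_iff.2 (measure_singleton x))
      filter_upwards [hne] with y hy
      have hw : 0 < ‖x - y‖ := norm_pos_iff.2 (sub_ne_zero.2 (Ne.symm hy))
      obtain ⟨q0, q1, -, -⟩ := PotA_q hε hw
      have e1 : lap φ y = - (y i * sO v y) := sP_lap hv i hi2 y
      rw [e1, abs_mul, abs_mul, abs_neg, abs_mul, abs_of_nonneg q0,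
        abs_of_nonneg (PotA_z_nonneg a R y)]
      have e2 : |y i| ≤ rad x + ‖x - y‖ := by
        have h3 := Crit_dist y x
        rw [norm_sub_rev y x] at h3
        exact (PotA_abs_rad y hi2).trans h3
      have e3 : |y i| * k y ≤ 1 + rad x / ‖x - y‖ := by
        calc |y i| * k y ≤ (rad x + ‖x - y‖) * ‖x - y‖⁻¹ :=
              mul_le_mul e2 q1 q0 (add_nonneg (rad_nonneg x) hw.le)
          _ = 1 + rad x / ‖x - y‖ := by field_simp; ring
      calc |y i| * |sO v y| * k y * PotA_z a R y ≤ |y i| * |sO v y| * k y * 1 :=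
            mul_le_mul_of_nonneg_left (PotA_z_le a R y) (by positivity)
        _ = |sO v y| * (|y i| * k y) := by ring
        _ ≤ |sO v y| * (1 + rad x / ‖x - y‖) := mul_le_mul_of_nonneg_left e3 (abs_nonneg _)
  · -- the second term
    set E : E3 → ℝ := fun y => φ y * (lap ζ y * k y + 2 * ∑ j, pd j ζ y * pd j k y) with hEd
    have hE0 : ∀ y, y ∉ Metric.closedBall a R → E y = 0 := by
      intro y hy
      rw [mem_closedBall_iff_norm, not_le] at hy
      obtain ⟨h1, h2⟩ := PotA_z_out a hR hy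
      simp only [hEd, hζd]
      rw [h2, Finset.sum_eq_zero fun j _ => by rw [h1 j, zero_mul]]
      ring
    have hEb : ∀ y, y ∈ Metric.closedBall a R → |E y| ≤ 100 * C1 / R ^ 2 * |sP v y| := by
      intro y hy
      rw [mem_closedBall_iff_norm] at hy
      have hφy : |φ y| ≤ R * |sP v y| := by
        rw [hφd, abs_mul]
        refine mul_le_mul_of_nonneg_right ?_ (abs_nonneg _)
        exact ((PotA_abs_rad y hi2).trans (PotA_rad_axp z y)).trans hy
      have hin : |lap ζ y * k y + 2 * ∑ j, pd j ζ y * pd j k y| ≤ 100 * C1 / R ^ 3 := by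
        rcases lt_or_ge ‖y - a‖ (R / 2) with h | h
        · obtain ⟨h1, h2⟩ := PotA_z_in a hR h
          rw [hζd, h2, Finset.sum_eq_zero fun j _ => by rw [h1 j, zero_mul]]
          rw [zero_mul, mul_zero, add_zero, abs_zero]
          positivity
        · have hs : R / 4 ≤ ‖x - y‖ := by
            have h3 := norm_sub_le_norm_sub_add_norm_sub y x a
            rw [norm_sub_rev y x] at h3
            linarith
          have hw : 0 < ‖x - y‖ := by linarith
          have hsi : ‖x - y‖⁻¹ ≤ 4 / R := by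
            rw [inv_eq_one_div, div_le_div_iff₀ hw hR]
            linarith
          obtain ⟨q0, q1, q2, q3⟩ := PotA_q hε hw
          obtain ⟨z1, z2⟩ := hz a R hR y
          have hsi0 : 0 ≤ ‖x - y‖⁻¹ := by positivity
          have t1 : |lap ζ y * k y| ≤ 4 * C1 / R ^ 3 := by
            rw [abs_mul, abs_of_nonneg q0]
            calc |lap ζ y| * k y ≤ (C1 / R ^ 2) * (4 / R) :=
                  mul_le_mul z2 (q1.trans hsi) q0 (by positivity)
              _ = 4 * C1 / R ^ 3 := by field_simp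
          have t2 : ∀ j : Fin 3, |pd j ζ y * pd j k y| ≤ 16 * C1 / R ^ 3 := by
            intro j
            have t3 : |pd j k y| ≤ (4 / R) ^ 2 := by
              rw [hkd, newt_pd hε x j y, abs_mul, abs_of_nonneg q2]
              have t4 : |x j - y j| ≤ ‖x - y‖ := HLoc_abs_coord (x - y) j
              calc |x j - y j| * (‖x - y‖ ^ 2 + ε ^ 2) ^ (-(3/2) : ℝ)
                  ≤ ‖x - y‖ * ‖x - y‖⁻¹ ^ 3 := mul_le_mul t4 q3 q2 hw.le
                _ = ‖x - y‖⁻¹ ^ 2 := by field_simp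
                _ ≤ (4 / R) ^ 2 := pow_le_pow_left₀ hsi0 hsi 2
            rw [abs_mul]
            calc |pd j ζ y| * |pd j k y| ≤ (C1 / R) * (4 / R) ^ 2 :=
                  mul_le_mul (z1 j) t3 (abs_nonneg _) (by positivity)
              _ = 16 * C1 / R ^ 3 := by field_simp; ring
          have t5 : |∑ j, pd j ζ y * pd j k y| ≤ 48 * C1 / R ^ 3 := by
            refine (Finset.abs_sum_le_sum_abs _ _).trans ?_
            refine (Finset.sum_le_sum fun j _ => t2 j).trans ?_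
            rw [Finset.sum_const, Finset.card_univ, Fintype.card_fin, nsmul_eq_mul]
            push_cast
            apply le_of_eq
            ring
          refine (abs_add_le _ _).trans ?_
          rw [abs_mul (2:ℝ), abs_of_pos (by norm_num : (0:ℝ) < 2)]
          have t6 : 4 * C1 / R ^ 3 + 2 * (48 * C1 / R ^ 3) = 100 * C1 / R ^ 3 := by ring
          linarith only [t1, t5, t6]
      simp only [hEd]
      rw [abs_mul]
      calc |φ y| * |lap ζ y * k y + 2 * ∑ j, pd j ζ y * pd j k y|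
          ≤ (R * |sP v y|) * (100 * C1 / R ^ 3) :=
            mul_le_mul hφy hin (abs_nonneg _) (by positivity)
        _ = 100 * C1 / R ^ 2 * |sP v y| := by field_simp
    obtain ⟨p1, p2⟩ := sP_L2 hv hi
    have hcb : IntegrableOn (fun y => |sP v y|) (Metric.closedBall a R) :=
      hsP.continuous.abs.continuousOn.integrableOn_compact (isCompact_closedBall a R)
    have hEc : Continuous E := by
      have hlζ : ContDiff ℝ ∞ (lap ζ) := by
        unfold lap
        exact ContDiff.sum fun i _ => pd_smooth (pd_smooth hζ i) i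
      have h1 : ContDiff ℝ ∞ (fun y => ∑ j, pd j ζ y * pd j k y) :=
        ContDiff.sum fun j _ => (pd_smooth hζ j).mul (pd_smooth hk j)
      exact hφ.continuous.mul ((hlζ.continuous.mul hk.continuous).add
        (continuous_const.mul h1.continuous))
    have s1 : |∫ y, E y| ≤ 100 * C1 / R ^ 2 * ∫ y in Metric.closedBall a R, |sP v y| := by
      rw [← setIntegral_eq_integral_of_forall_compl_eq_zero hE0, ← integral_const_mul]
      refine abs_integral_le_integral_abs.trans ?_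
      refine setIntegral_mono_on ?_ (hcb.const_mul _) measurableSet_closedBall hEb
      exact hEc.abs.continuousOn.integrableOn_compact (isCompact_closedBall a R)
    have s2 : ∫ y in Metric.closedBall a R, |sP v y| ≤
        √(∫ y, ‖v y‖ ^ 2) * √(5 * R ^ 3) := by
      have h1 := hint_cs (μ := (volume : Measure E3).restrict (Metric.closedBall a R))
        (g := fun y => |sP v y|) (h := fun _ => 1) (fun _ => abs_nonneg _) (fun _ => zero_le_one)
        hsP.continuous.abs.aestronglyMeasurable aestronglyMeasurable_const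
        (by
          simp only [sq_abs]
          exact p1.integrableOn)
        (by
          simp only [one_pow]
          exact integrableOn_const (isCompact_closedBall a R).measure_lt_top.ne)
      simp only [mul_one, sq_abs, one_pow] at h1
      refine h1.trans (mul_le_mul ?_ ?_ (Real.sqrt_nonneg _) (Real.sqrt_nonneg _))
      · refine Real.sqrt_le_sqrt (le_trans ?_ p2)
        exact setIntegral_le_integral p1 (Eventually.of_forall fun y => sq_nonneg _)
      · refine Real.sqrt_le_sqrt ?_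
        rw [integral_const, smul_eq_mul, mul_one, measureReal_restrict_apply_univ]
        exact PotA_vol a hR
    have s3 : √(5 * R ^ 3) ≤ 3 * (R * √R) := by
      refine Real.sqrt_le_iff.2 ⟨by positivity, ?_⟩
      have : √R ^ 2 = R := Real.sq_sqrt hR.le
      calc 5 * R ^ 3 ≤ 9 * R ^ 3 := by
            have : 0 < R ^ 3 := by positivity
            linarith
        _ = (3 * (R * √R)) ^ 2 := by
            rw [mul_pow, mul_pow, this]
            ring
    have hN : 0 ≤ √(∫ y, ‖v y‖ ^ 2) := Real.sqrt_nonneg _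
    refine s1.trans ?_
    calc 100 * C1 / R ^ 2 * ∫ y in Metric.closedBall a R, |sP v y|
        ≤ 100 * C1 / R ^ 2 * (√(∫ y, ‖v y‖ ^ 2) * (3 * (R * √R))) := by
          refine mul_le_mul_of_nonneg_left (s2.trans ?_) (by positivity)
          exact mul_le_mul_of_nonneg_left s3 hN
      _ = 300 * C1 * ((√R)⁻¹ * √(∫ y, ‖v y‖ ^ 2)) := by
          have hsR : 0 < √R := Real.sqrt_pos.2 hR
          have h2 : √R * √R = R := Real.mul_self_sqrt hR.le
          have h3 : R * √R / R ^ 2 = (√R)⁻¹ := by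
            rw [div_eq_iff (by positivity), eq_comm, inv_mul_eq_div, div_eq_iff hsR.ne']
            nlinarith only [h2, hR, h2]
          calc 100 * C1 / R ^ 2 * (√(∫ y, ‖v y‖ ^ 2) * (3 * (R * √R)))
              = 300 * C1 * ((R * √R / R ^ 2) * √(∫ y, ‖v y‖ ^ 2)) := by ring
            _ = _ := by rw [h3]

theorem potA : ∃ C : ℝ, 0 < C ∧ ∀ v : E3 → E3, AxF v → Integrable (fun x => ‖v x‖ ^ 2) → ∀ R : ℝ, 0 < R → ∀ z : ℝ,
    ∀ x ∈ Metric.ball (axp z) (R / 4), rad x * |sP v x| ≤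
      C * ((∫ y in Metric.ball (axp z) R, |sO v y| * (1 + rad x / ‖x - y‖)) + (√R)⁻¹ * √(∫ y, ‖v y‖ ^ 2)) := by
  obtain ⟨C1, hC1, hz⟩ := PotA_z_bd
  have hc0 := c0_pos
  refine ⟨2 / c0 * (1 + 300 * C1), by positivity, fun v hv hi R hR z x hx => ?_⟩
  have h0 := PotA_one hC1 hz hv hi hR z hx (i := 0) (by decide)
  have h1 := PotA_one hC1 hz hv hi hR z hx (i := 1) (by decide)
  set I : ℝ := ∫ y in Metric.ball (axp z) R, |sO v y| * (1 + rad x / ‖x - y‖) with hI
  set N : ℝ := (√R)⁻¹ * √(∫ y, ‖v y‖ ^ 2) with hN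
  have hI0 : 0 ≤ I := integral_nonneg fun y =>
    mul_nonneg (abs_nonneg _) (add_nonneg zero_le_one (div_nonneg (rad_nonneg x) (norm_nonneg _)))
  have hN0 : 0 ≤ N := by positivity
  have h2 : rad x * |sP v x| ≤ |x 0 * sP v x| + |x 1 * sP v x| := by
    rw [abs_mul, abs_mul, ← add_mul]
    exact mul_le_mul_of_nonneg_right (PotA_rad_le x) (abs_nonneg _)
  have h3 : c0 * (rad x * |sP v x|) ≤ 2 * (I + 300 * C1 * N) := by
    have h4 := mul_le_mul_of_nonneg_left h2 hc0.le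
    linarith
  have h5 : 2 * (I + 300 * C1 * N) ≤ 2 * ((1 + 300 * C1) * (I + N)) := by
    linarith only [mul_nonneg hC1.le hI0, mul_nonneg hC1.le hN0, hC1, hI0, hN0]
  calc rad x * |sP v x| = c0⁻¹ * (c0 * (rad x * |sP v x|)) := by
        rw [inv_mul_cancel_left₀ hc0.ne']
    _ ≤ c0⁻¹ * (2 * ((1 + 300 * C1) * (I + N))) :=
        mul_le_mul_of_nonneg_left (h3.trans h5) (inv_pos.2 hc0).le
    _ = 2 / c0 * (1 + 300 * C1) * (I + N) := by
        rw [div_eq_mul_inv]
        ring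

end Pool.Agent.H72.CC
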